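import Pool.Agent.Lib.MP_e6ed9e_al.LG.Rx81

set_option autoImplicit false

/-! Row AX: an axis of one center is an axis of all its points. -/

namespace SpreadPerm.LG

open Module

section
variable {F V : Type} [Field F] [AddCommGroup V] [Module F V]

/-- Inverse of a transvection. -/
lemma ax81_inv (s : V ≃ₗ[F] V) (ψ : V →ₗ[F] F) (y : V) (hs : ∀ v, s v = v + ψ v • y)
    (h0 : ψ y = 0) (v : V) : s.symm v = v - ψ v • y := by
  rw [LinearEquiv.symm_apply_eq, hs, map_sub, map_smul, h0, smul_zero, sub_zero, sub_add_cancel]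

lemma ax81_star (H : Subgroup (V ≃ₗ[F] V)) (x y : V) (φ ψ : V →ₗ[F] F) (hφ : φ ∈ E H x)
    (hψ : ψ ∈ E H y) (h0 : ψ x = 0) : φ y • ψ ∈ E H x := by
  obtain ⟨⟨g, hg, hgv⟩, hφx⟩ := hφ
  obtain ⟨⟨s, hs, hsv⟩, hψy⟩ := hψ
  refine ⟨⟨g * s * g⁻¹ * s⁻¹, H.mul_mem (H.mul_mem (H.mul_mem hg hs) (H.inv_mem hg))
    (H.inv_mem hs), fun v => ?_⟩, ?_⟩
  · show g (s (g.symm (s.symm v))) = _
    rw [ax81_inv s ψ y hsv hψy, ax81_inv g φ x hgv hφx, hsv, hgv]
    simp only [map_sub, map_add, map_smul, hψy, h0, hφx, smul_zero, sub_zero, smul_eq_mul,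
      mul_zero, LinearMap.smul_apply, add_zero]
    module
  · rw [LinearMap.smul_apply, h0, smul_zero]

lemma ax81_symm [Finite V] (H : Subgroup (V ≃ₗ[F] V)) (hpt : PtTrans H) (x y : V) (hx : x ≠ 0)
    (hy : y ≠ 0) (hyx : y ∈ rx81R H x) : x ∈ rx81R H y := by
  have : Module.Finite F V := Module.Finite.of_finite
  by_contra hcon
  obtain ⟨ψ, hψ, hψx⟩ : ∃ ψ ∈ E H y, ψ x ≠ 0 := by
    by_contra hc
    push Not at hc
    exact hcon hc
  have hψ' := hψ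
  obtain ⟨⟨s, hs, hsv⟩, hψy⟩ := hψ
  have h1 : ∀ φ ∈ E H x, ψ x • φ ∈ E H y := by
    intro φ hφ
    have hφy : φ y = 0 := hyx φ hφ
    obtain ⟨⟨g, hg, hgv⟩, hφx⟩ := hφ
    refine ⟨⟨s * g * s⁻¹ * g⁻¹, H.mul_mem (H.mul_mem (H.mul_mem hs hg) (H.inv_mem hs))
      (H.inv_mem hg), fun v => ?_⟩, ?_⟩
    · show s (g (s.symm (g.symm v))) = _
      rw [ax81_inv s ψ y hsv hψy, ax81_inv g φ x hgv hφx, hsv, hgv]
      simp only [map_sub, map_add, map_smul, hψy, hφx, hφy, smul_zero, sub_zero, smul_eq_mul,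
        mul_zero, LinearMap.smul_apply, add_zero]
      module
    · rw [LinearMap.smul_apply, hφy, smul_zero]
  have h2 : rx81R H y ≤ rx81R H x := by
    intro v hv φ hφ
    have h3 := hv _ (h1 φ hφ)
    rw [LinearMap.smul_apply, smul_eq_mul] at h3
    exact (mul_eq_zero.1 h3).resolve_left hψx
  have h3 : rx81R H y = rx81R H x := by
    apply Submodule.eq_of_le_of_finrank_eq h2
    exact le_antisymm (rx81_le H hpt y x hy hx) (rx81_le H hpt x y hx hy)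
  apply hcon
  rw [h3]
  exact fun φ hφ => hφ.2

lemma ax81_prop (φ φ1 : V →ₗ[F] F) (h : ∀ v, φ v = 0 → φ1 v = 0) (v0 : V) (hv0 : φ v0 ≠ 0) :
    φ1 = (φ1 v0 / φ v0) • φ := by
  ext v
  have h1 := h (v - (φ v / φ v0) • v0) (by
    rw [map_sub, map_smul, smul_eq_mul, div_mul_cancel₀ _ hv0, sub_self])
  rw [map_sub, map_smul, sub_eq_zero, smul_eq_mul] at h1
  rw [h1, LinearMap.smul_apply, smul_eq_mul]
  field_simp

lemma ax81_out (H : Subgroup (V ≃ₗ[F] V)) (htwo : TwoAx H) (φ : V →ₗ[F] F) (z : V)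
    (hz : z ≠ 0) : ∃ u, φ u = 0 ∧ u ∉ rx81R H z := by
  by_contra hc
  push Not at hc
  obtain ⟨φ1, h1, φ2, h2, hne, hne2⟩ := htwo z hz
  have h3 : ∀ v, φ v = 0 → φ1 v = 0 := fun v hv => hc v hv φ1 h1
  have h4 : ∀ v, φ v = 0 → φ2 v = 0 := fun v hv => hc v hv φ2 h2
  by_cases h0 : ∃ v0, φ v0 ≠ 0
  · obtain ⟨v0, hv0⟩ := h0
    obtain ⟨c1, h5⟩ : ∃ c : F, φ1 = c • φ := ⟨_, ax81_prop φ φ1 h3 v0 hv0⟩
    obtain ⟨c2, h6⟩ : ∃ c : F, φ2 = c • φ := ⟨_, ax81_prop φ φ2 h4 v0 hv0⟩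
    have h7 : c1 ≠ 0 := by
      rintro rfl
      rw [zero_smul] at h5
      exact hne h5
    apply hne2 (c2 * c1⁻¹)
    rw [h5, smul_smul, mul_assoc, inv_mul_cancel₀ h7, mul_one]
    exact h6
  · push Not at h0
    exact hne (LinearMap.ext fun v => h3 v (h0 v))

end

theorem ax81 : StAx := by
  intro F V _ _ _ _ _ H hn hpt htwo
  have step : ∀ x w : V, x ≠ 0 → w ≠ 0 → w ∉ rx81R H x → ∀ φ ∈ E H x, φ w = 0 →
      ∃ a : F, a ≠ 0 ∧ a • φ ∈ E H w := by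
    intro x w hx hw hwx φ hφ hφw
    obtain ⟨ψ, hψ, hψx⟩ : ∃ ψ ∈ E H w, ψ x ≠ 0 := by
      by_contra hc
      push Not at hc
      exact hwx (ax81_symm H hpt w x hw hx hc)
    exact ⟨ψ x, hψx, ax81_star H w x ψ φ hψ hφ hφw⟩
  intro x w hx hw φ hφ hφw
  by_cases hwx : w ∈ rx81R H x
  · obtain ⟨u, hu, huR⟩ := ax81_out H htwo φ x hx
    obtain ⟨v, hv, hvR⟩ := ax81_out H htwo φ w hw
    obtain ⟨x', hx'φ, hx'x, hx'w⟩ : ∃ x', φ x' = 0 ∧ x' ∉ rx81R H x ∧ x' ∉ rx81R H w := by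
      by_cases h1 : u ∈ rx81R H w
      · by_cases h2 : v ∈ rx81R H x
        · refine ⟨u + v, by rw [map_add, hu, hv, add_zero], fun h => huR ?_, fun h => hvR ?_⟩
          · have := Submodule.sub_mem _ h h2
            rwa [add_sub_cancel_right] at this
          · have := Submodule.sub_mem _ h h1
            rwa [add_sub_cancel_left] at this
        · exact ⟨v, hv, h2, hvR⟩
      · exact ⟨u, hu, huR, h1⟩
    have hx'0 : x' ≠ 0 := by
      rintro rfl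
      exact hx'x (Submodule.zero_mem _)
    obtain ⟨a, ha, haE⟩ := step x x' hx hx'0 hx'x φ hφ hx'φ
    have hwx' : w ∉ rx81R H x' := fun h => hx'w (ax81_symm H hpt x' w hx'0 hw h)
    obtain ⟨b, hb, hbE⟩ := step x' w hx'0 hw hwx' (a • φ) haE (by
      rw [LinearMap.smul_apply, hφw, smul_zero])
    refine ⟨b * a, mul_ne_zero hb ha, ?_⟩
    rw [mul_smul]
    exact hbE
  · exact step x w hx hw hwx φ hφ hφw

theorem rx81' : StRx := rx81 ax81

end SpreadPerm.LG
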