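import Pool.Agent.Lib.MP_e6ed9e_al.LG.Defs

/-!
# Row CASE1: subrows
-/

namespace SpreadPerm.LG

open Module MulAction

noncomputable section

section
variable {F V : Type} [Field F] [AddCommGroup V] [Module F V]

/-- The index of `H` is at most `c [n]`. -/
def Big (c : ℕ) (H : Subgroup (V ≃ₗ[F] V)) : Prop :=
  (Nat.card F - 1) * Nat.card (V ≃ₗ[F] V) ≤ c * (Nat.card F ^ finrank F V - 1) * Nat.card H

/-- `x` is a center of a transvection of `H`. -/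
def Ctr (H : Subgroup (V ≃ₗ[F] V)) (x : V) : Prop := ∃ φ ∈ E H x, φ ≠ 0

/-- The intersection of the axes of `x`. -/
def RR (H : Subgroup (V ≃ₗ[F] V)) (x : V) : Submodule F V where
  carrier := {y | ∀ φ ∈ E H x, φ y = 0}
  zero_mem' := fun φ _ => map_zero φ
  add_mem' := fun {y z} hy hz φ hφ => by rw [map_add, hy φ hφ, hz φ hφ, add_zero]
  smul_mem' := fun a y hy φ hφ => by rw [map_smul, hy φ hφ, smul_zero]

/-- Centers of the first type: the axes have only the center in common. -/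
def T1 (H : Subgroup (V ≃ₗ[F] V)) (x : V) : Prop :=
  Ctr H x ∧ ∀ y ∈ RR H x, ∃ a : F, y = a • x

/-- Centers of the second type. -/
def T2 (H : Subgroup (V ≃ₗ[F] V)) (x : V) : Prop :=
  Ctr H x ∧ ∃ y ∈ RR H x, ∀ a : F, y ≠ a • x

end

/-- BA: a point `y` which is not a center has an axis `μ`, and the points of the axis are
centers. -/
def StBA : Prop := ∀ (F V : Type) [Field F] [Finite F] [AddCommGroup V] [Module F V] [Finite V]
  (H : Subgroup (V ≃ₗ[F] V)) (c : ℕ), 1 ≤ c → 100 * c ^ 2 ≤ Nat.card F → 3 ≤ finrank F V →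
  Big c H → ∀ y, y ≠ 0 → ¬ Ctr H y → ∃ μ : V →ₗ[F] F, μ y ≠ 0 ∧ μ ∈ P H y ∧
    (∀ h ∈ H, (∃ a : F, h y = a • y) → ∃ b : F, ∀ v, μ (h v) = b * μ v) ∧
    (∀ h ∈ H, ∀ μ' ∈ P H (h y), ∃ b : F, ∀ v, μ' (h v) = b * μ v) ∧
    ∀ z, z ≠ 0 → μ z = 0 → Nat.card F ^ (finrank F V - 3) * (Nat.card F - 1) ≤
      c * Nat.card {φ : V →ₗ[F] F // φ ∈ E H z ∧ φ y = 0}

/-- BB: a center of the second type has a line as intersection of its axes; many axes and a long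
orbit. -/
def StBB : Prop := ∀ (F V : Type) [Field F] [Finite F] [AddCommGroup V] [Module F V] [Finite V]
  (H : Subgroup (V ≃ₗ[F] V)) (c : ℕ), 1 ≤ c → 100 * c ^ 2 ≤ Nat.card F → 3 ≤ finrank F V →
  Big c H → ∀ x, x ≠ 0 → T2 H x → finrank F (RR H x) = 2 ∧
    Nat.card F ^ (finrank F V - 1) * (Nat.card F - 1) ≤
      c * Nat.card {v : V // v ≠ 0 ∧ ∃ h ∈ H, ∃ a : F, h x = a • v}

/-- CI: both types of centers. -/
def StCI : Prop := ∀ (F V : Type) [Field F] [Finite F] [AddCommGroup V] [Module F V] [Finite V]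
  (H : Subgroup (V ≃ₗ[F] V)) (c : ℕ), 1 ≤ c → 100 * c ^ 2 ≤ Nat.card F → 3 ≤ finrank F V →
  Big c H → (∃ x, x ≠ 0 ∧ T1 H x) → (∃ x, x ≠ 0 ∧ T2 H x) → FixPt H ∨ FixHyp H

/-- CII: only the first type of centers. -/
def StCII : Prop := ∀ (F V : Type) [Field F] [Finite F] [AddCommGroup V] [Module F V] [Finite V]
  (H : Subgroup (V ≃ₗ[F] V)) (c : ℕ), 1 ≤ c → 100 * c ^ 2 ≤ Nat.card F → 3 ≤ finrank F V →
  Big c H → (∀ x, x ≠ 0 → Ctr H x → T1 H x) → FixHyp H ∨ PtTrans H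

/-- CIII: only the second type of centers. -/
def StCIII : Prop := ∀ (F V : Type) [Field F] [Finite F] [AddCommGroup V] [Module F V] [Finite V]
  (H : Subgroup (V ≃ₗ[F] V)) (c : ℕ), 1 ≤ c → 100 * c ^ 2 ≤ Nat.card F → 3 ≤ finrank F V →
  Big c H → (∀ x, x ≠ 0 → Ctr H x → T2 H x) → FixPt H ∨ PtTrans H

/-- NON: two noncenters `y` and `y + a x`, `x` a center outside the axis of `y`; a common point `z`
of the axes is not on the line `⟨x, y⟩`. -/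
def StNon : Prop := ∀ (F V : Type) [Field F] [Finite F] [AddCommGroup V] [Module F V] [Finite V]
  (H : Subgroup (V ≃ₗ[F] V)) (c : ℕ), 1 ≤ c → 100 * c ^ 2 ≤ Nat.card F → 3 ≤ finrank F V →
  Big c H → ∀ (x y : V), x ≠ 0 → y ≠ 0 → ¬ Ctr H y → ∀ φ ∈ E H x, φ y ≠ 0 →
  ∀ μ : V →ₗ[F] F, μ ≠ 0 → μ ∈ P H y → μ x ≠ 0 →
  ∃ z, LinearIndependent F ![x, y, z] ∧
    Nat.card F ^ (finrank F V - 3) * (Nat.card F - 1) ≤
      c * Nat.card {φ : V →ₗ[F] F // φ ∈ E H z ∧ φ y = 0} ∧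
    Nat.card F ^ (finrank F V - 3) * (Nat.card F - 1) ≤
      c * Nat.card {ψ : V →ₗ[F] F // ψ ∈ E H z ∧ ψ (y + φ y • x) = 0}

/-- T0: the image of the point stabilizer has more than `q^{3/2} (q-1)` elements. -/
def StT0 : Prop := ∀ (F V : Type) [Field F] [Finite F] [AddCommGroup V] [Module F V] [Finite V]
  (H : Subgroup (V ≃ₗ[F] V)) (c : ℕ), 1 ≤ c → 100 * c ^ 2 ≤ Nat.card F → finrank F V = 3 →
  Scal H → PtTrans H → MD c H → (∀ x, x ≠ 0 → ∀ φ ∈ P H x, φ = 0) → ∀ x, x ≠ 0 →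
  Nat.card F ^ 3 * (Nat.card F - 1) ^ 2 < Nat.card (Ix H x) ^ 2

/-- TA: the special linear group in the image. -/
def StTA : Prop := ∀ (F V : Type) [Field F] [Finite F] [AddCommGroup V] [Module F V] [Finite V]
  (H : Subgroup (V ≃ₗ[F] V)), finrank F V = 3 → Scal H → ∀ x, x ≠ 0 →
  (∀ A : (V ⧸ (F ∙ x)) ≃ₗ[F] (V ⧸ (F ∙ x)), LinearEquiv.det A = 1 →
    ∃ a : F, a ≠ 0 ∧ ∃ B ∈ Ix H x, ∀ v, B v = a • A v) →
  ¬ ∀ y, y ≠ 0 → ∀ φ ∈ P H y, φ = 0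

/-- TB: the image is in a Borel subgroup. -/
def StTB : Prop := ∀ (F V : Type) [Field F] [Finite F] [AddCommGroup V] [Module F V] [Finite V]
  (H : Subgroup (V ≃ₗ[F] V)), 100 ≤ Nat.card F → finrank F V = 3 → Scal H → PtTrans H →
  ∀ x, x ≠ 0 → Nat.card F ^ 3 * (Nat.card F - 1) ^ 2 < Nat.card (Ix H x) ^ 2 →
  (∃ v : V ⧸ (F ∙ x), v ≠ 0 ∧ (∀ B ∈ Ix H x, ∃ a : F, B v = a • v) ∧
    ∃ B ∈ Ix H x, (∃ w, ∀ a : F, B w ≠ a • w) ∧ ∀ w, (∃ a : F, B w = a • w) → ∃ b : F, w = b • v) →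
  ¬ ∀ y, y ≠ 0 → ∀ φ ∈ P H y, φ = 0

/-- GEN: the transvections generate `SL(V)`. -/
def StGen : Prop := ∀ (F V : Type) [Field F] [Finite F] [AddCommGroup V] [Module F V] [Finite V],
  2 ≤ finrank F V → ∀ g : V ≃ₗ[F] V, LinearEquiv.det g = 1 →
  g ∈ Subgroup.closure {t : V ≃ₗ[F] V | ∃ (x : V) (φ : V →ₗ[F] F), φ x = 0 ∧
    ∀ v, t v = v + φ v • x}

end

end SpreadPerm.LG
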