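import Mathlib
import Pool.Agent.Lib.MP_e6ed9e_al.PL.Defs

/-!
# All transitive actions of the groups between `PSL(n,q)` and `PGL(n,q)`, `n ≥ 3`, `q` large:
statements of the modules
-/

namespace SpreadPerm.LG

open Module MulAction

noncomputable section

section
variable {F V : Type} [Field F] [AddCommGroup V] [Module F V]

/-- The functionals `φ` of the perspectivities `v ↦ v + φ(v) x` with center `x` in `H`. -/
def P (H : Subgroup (V ≃ₗ[F] V)) (x : V) : Set (V →ₗ[F] F) :=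
  {φ | ∃ g ∈ H, ∀ v, g v = v + φ v • x}

/-- The functionals of the transvections with center `x` in `H`. -/
def E (H : Subgroup (V ≃ₗ[F] V)) (x : V) : Set (V →ₗ[F] F) := {φ | φ ∈ P H x ∧ φ x = 0}

/-- `H` contains all scalars. -/
def Scal (H : Subgroup (V ≃ₗ[F] V)) : Prop := ∀ a : F, a ≠ 0 → ∃ g ∈ H, ∀ v, g v = a • v

/-- `H` is transitive on the points of the projective space. -/
def PtTrans (H : Subgroup (V ≃ₗ[F] V)) : Prop :=
  ∀ x y : V, x ≠ 0 → y ≠ 0 → ∃ h ∈ H, ∃ a : F, h x = a • y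

/-- `H` fixes a point. -/
def FixPt (H : Subgroup (V ≃ₗ[F] V)) : Prop := ∃ x : V, x ≠ 0 ∧ ∀ h ∈ H, ∃ a : F, h x = a • x

/-- `H` fixes a hyperplane. -/
def FixHyp (H : Subgroup (V ≃ₗ[F] V)) : Prop :=
  ∃ μ : V →ₗ[F] F, μ ≠ 0 ∧ ∀ h ∈ H, ∃ a : F, ∀ v, μ (h v) = a * μ v

/-- `H` contains all transvections. -/
def Full (H : Subgroup (V ≃ₗ[F] V)) : Prop := ∀ (x : V) (φ : V →ₗ[F] F), φ x = 0 → φ ∈ P H x

/-- Each center has two different axes. -/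
def TwoAx (H : Subgroup (V ≃ₗ[F] V)) : Prop :=
  ∀ x : V, x ≠ 0 → ∃ φ ∈ E H x, ∃ ψ ∈ E H x, φ ≠ 0 ∧ ∀ a : F, ψ ≠ a • φ

/-- Each point is a center and has one axis only. -/
def OneAx (H : Subgroup (V ≃ₗ[F] V)) : Prop :=
  ∀ x : V, x ≠ 0 → ∃ lam ∈ E H x, lam ≠ 0 ∧ ∀ φ ∈ E H x, ∃ a : F, φ = a • lam

/-- The hypothesis from the dimension bound: every subgroup `K` with `SL K = GL` and
`|K| > c |H|` satisfies `H K = GL`. -/
def MD (c : ℕ) (H : Subgroup (V ≃ₗ[F] V)) : Prop := ∀ K : Subgroup (V ≃ₗ[F] V),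
  (∀ g : V ≃ₗ[F] V, ∃ s : V ≃ₗ[F] V, LinearEquiv.det s = 1 ∧ ∃ k ∈ K, g = s * k) →
  (¬ ∀ g : V ≃ₗ[F] V, ∃ h ∈ H, ∃ k ∈ K, g = h * k) → Nat.card K ≤ c * Nat.card H

end

/-- SYL: two centers, each not on an axis of the other, are conjugate (Sylow in the stabilizer of
the line `⟨x, y⟩`). -/
def StSyl : Prop := ∀ (F V : Type) [Field F] [Finite F] [AddCommGroup V] [Module F V] [Finite V]
  (H : Subgroup (V ≃ₗ[F] V)) (x y : V), ∀ φ ∈ E H x, ∀ ψ ∈ E H y, φ y ≠ 0 → ψ x ≠ 0 →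
  ∃ h ∈ H, ∃ a : F, a ≠ 0 ∧ h x = a • y

/-- POL: no polarity without absolute points. -/
def StPol : Prop := ∀ (F V : Type) [Field F] [Finite F] [AddCommGroup V] [Module F V] [Finite V],
  3 ≤ finrank F V → ∀ μ : V → (V →ₗ[F] F), (∀ x, x ≠ 0 → μ x x ≠ 0) →
  ¬ ∀ x y, x ≠ 0 → y ≠ 0 → μ x y = 0 → μ y x = 0

/-- HOM: perspectivities but no transvections. -/
def StHom : Prop := ∀ (F V : Type) [Field F] [Finite F] [AddCommGroup V] [Module F V] [Finite V],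
  3 ≤ finrank F V → ∀ H : Subgroup (V ≃ₗ[F] V), PtTrans H → (∀ x, x ≠ 0 → ∀ φ ∈ E H x, φ = 0) →
  ∀ x, x ≠ 0 → ∀ φ ∈ P H x, φ = 0

/-- AX: an axis of one center is an axis of all its points. -/
def StAx : Prop := ∀ (F V : Type) [Field F] [Finite F] [AddCommGroup V] [Module F V] [Finite V]
  (H : Subgroup (V ≃ₗ[F] V)), 3 ≤ finrank F V → PtTrans H → TwoAx H →
  ∀ x w : V, x ≠ 0 → w ≠ 0 → ∀ φ ∈ E H x, φ w = 0 → ∃ a : F, a ≠ 0 ∧ a • φ ∈ E H w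

/-- RX: the axes of `x` have only the point `x` in common. -/
def StRx : Prop := ∀ (F V : Type) [Field F] [Finite F] [AddCommGroup V] [Module F V] [Finite V]
  (H : Subgroup (V ≃ₗ[F] V)), 3 ≤ finrank F V → PtTrans H → TwoAx H →
  ∀ x y : V, x ≠ 0 → (∀ φ ∈ E H x, φ y = 0) → ∃ a : F, y = a • x

/-- GLE (Gleason): if every point `w` of the hyperplane `μ = 0` is a center with this axis, and
different points of the hyperplane are conjugate in the stabilizer, then all transvections with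
this axis are in `H`. -/
def StGle : Prop := ∀ (F V : Type) [Field F] [Finite F] [AddCommGroup V] [Module F V] [Finite V]
  (H : Subgroup (V ≃ₗ[F] V)) (μ : V →ₗ[F] F), 3 ≤ finrank F V → μ ≠ 0 →
  (∀ w, w ≠ 0 → μ w = 0 → ∃ a : F, a ≠ 0 ∧ a • μ ∈ E H w) →
  (∀ w w', w ≠ 0 → w' ≠ 0 → μ w = 0 → μ w' = 0 → ∃ h ∈ H, (∃ a : F, a ≠ 0 ∧ h w = a • w') ∧
    ∃ b : F, ∀ v, μ (h v) = b * μ v) →
  ∀ w, μ w = 0 → μ ∈ P H w

/-- TWO: transitive on points and two axes at each center. -/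
def StTwo : Prop := ∀ (F V : Type) [Field F] [Finite F] [AddCommGroup V] [Module F V] [Finite V]
  (H : Subgroup (V ≃ₗ[F] V)), 3 ≤ finrank F V → PtTrans H → TwoAx H → Full H

/-- NUL: the null polarity. -/
def StNul : Prop := ∀ (F V : Type) [Field F] [Finite F] [AddCommGroup V] [Module F V] [Finite V]
  (H : Subgroup (V ≃ₗ[F] V)), 3 ≤ finrank F V → PtTrans H → OneAx H →
  4 ≤ finrank F V ∧ (∀ x, x ≠ 0 → ∀ φ ∈ P H x, φ x = 0) ∧
  ∀ x y, x ≠ 0 → y ≠ 0 → ∀ φ ∈ E H x, ∀ ψ ∈ E H y, φ ≠ 0 → ψ ≠ 0 → φ y = 0 → ψ x = 0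

/-- LAG -/
def StLag : Prop := ∀ (G : Type) [Group G] [Finite G] (U H : Subgroup G),
  Nat.card U * Nat.card H ≤ Nat.card G * Nat.card (U ⊓ H : Subgroup G)

/-- ORB: orbit and stabilizer of a point. -/
def StOrb : Prop := ∀ (F V : Type) [Field F] [Finite F] [AddCommGroup V] [Module F V] [Finite V]
  (H : Subgroup (V ≃ₗ[F] V)) (x : V), x ≠ 0 →
  (Nat.card F - 1) * Nat.card H ≤ (Nat.card F ^ finrank F V - 1) *
    Nat.card {h : V ≃ₗ[F] V // h ∈ H ∧ ∃ a : F, h x = a • x} ∧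
  (Nat.card F - 1) * Nat.card (V ≃ₗ[F] V) = (Nat.card F ^ finrank F V - 1) *
    Nat.card {h : V ≃ₗ[F] V // ∃ a : F, h x = a • x} ∧
  (PtTrans H → (Nat.card F - 1) * Nat.card H = (Nat.card F ^ finrank F V - 1) *
    Nat.card {h : V ≃ₗ[F] V // h ∈ H ∧ ∃ a : F, h x = a • x})

/-- LOC2: if the stabilizer of the point `x` in `H` preserves a proper subspace `R` which contains
`x`, `R ≠ ⟨x⟩`, then `q^{n-1} (q-1) q^{n-2} |H_x| ≤ |GL_x| |P(x)|`. -/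
def StLoc2 : Prop := ∀ (F V : Type) [Field F] [Finite F] [AddCommGroup V] [Module F V] [Finite V]
  (H : Subgroup (V ≃ₗ[F] V)) (x : V) (R : Submodule F V), x ≠ 0 → x ∈ R →
  (∃ y ∈ R, ∀ a : F, y ≠ a • x) → R ≠ ⊤ →
  (∀ h ∈ H, (∃ a : F, h x = a • x) → R.map (h : V →ₗ[F] V) = R) →
  Nat.card F ^ (finrank F V - 1) * (Nat.card F - 1) * Nat.card F ^ (finrank F V - 2) *
    Nat.card {h : V ≃ₗ[F] V // h ∈ H ∧ ∃ a : F, h x = a • x} ≤
    Nat.card {h : V ≃ₗ[F] V // ∃ a : F, h x = a • x} * Nat.card (P H x)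

/-- LOC1: `q^{n-1} (q-1) |H| ≤ |GL| |P(x)|`. -/
def StLoc1 : Prop := ∀ (F V : Type) [Field F] [Finite F] [AddCommGroup V] [Module F V] [Finite V]
  (H : Subgroup (V ≃ₗ[F] V)) (x : V), x ≠ 0 →
  Nat.card F ^ (finrank F V - 1) * (Nat.card F - 1) * Nat.card H ≤
    Nat.card (V ≃ₗ[F] V) * Nat.card (P H x)

/-- LOC3: if the stabilizer of the point `y` in `H` preserves the hyperplane `μ = 0`, not on `y`,
then for `z` in the hyperplane `q^{n-1} (q-1) q^{n-2} |H| ≤ |GL| (q-1) |E(z) ∩ y^⊥|`. -/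
def StLoc3 : Prop := ∀ (F V : Type) [Field F] [Finite F] [AddCommGroup V] [Module F V] [Finite V]
  (H : Subgroup (V ≃ₗ[F] V)) (y z : V) (μ : V →ₗ[F] F), μ y ≠ 0 → z ≠ 0 → μ z = 0 →
  (∀ h ∈ H, (∃ a : F, h y = a • y) → ∃ b : F, ∀ v, μ (h v) = b * μ v) →
  Nat.card F ^ (finrank F V - 1) * (Nat.card F - 1) * Nat.card F ^ (finrank F V - 2) *
    Nat.card H ≤ Nat.card (V ≃ₗ[F] V) * (Nat.card F - 1) *
      Nat.card {φ : V →ₗ[F] F // φ ∈ E H z ∧ φ y = 0}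

/-- CASE1: a very large subgroup is reducible or transitive on points. -/
def StCase1 : Prop := ∀ (F V : Type) [Field F] [Finite F] [AddCommGroup V] [Module F V] [Finite V]
  (H : Subgroup (V ≃ₗ[F] V)) (c : ℕ), 1 ≤ c → 100 * c ^ 2 ≤ Nat.card F → 3 ≤ finrank F V →
  Scal H → (Nat.card F - 1) * Nat.card (V ≃ₗ[F] V) ≤
    c * (Nat.card F ^ finrank F V - 1) * Nat.card H → FixPt H ∨ FixHyp H ∨ PtTrans H

/-- D2: large subgroups of `GL(2,F)`. -/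
def StD2 : Prop := ∀ (F K : Type) [Field F] [Finite F] [Field K] [IsAlgClosed K] [Algebra F K]
  (I : Subgroup (GL (Fin 2) F)), 100 ≤ Nat.card F →
  Nat.card F ^ 3 < Nat.card (I.map (PL.psi F K)) ^ 2 →
  (∃ v : Fin 2 → F, v ≠ 0 ∧ (∀ g ∈ I, ∃ a : F, g • v = a • v) ∧
    ∃ g ∈ I, PL.psi F K g ≠ 1 ∧ ∀ w : Fin 2 → F, (∃ a : F, g • w = a • w) → ∃ b : F, w = b • v) ∨
  ∀ g : GL (Fin 2) F, Matrix.det g.1 = 1 → PL.psi F K g ∈ I.map (PL.psi F K)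

/-- THREE: dimension three, no perspectivities. -/
def StThree : Prop := ∀ (F V : Type) [Field F] [Finite F] [AddCommGroup V] [Module F V] [Finite V]
  (H : Subgroup (V ≃ₗ[F] V)) (c : ℕ), 1 ≤ c → 100 * c ^ 2 ≤ Nat.card F → finrank F V = 3 →
  Scal H → PtTrans H → MD c H → ¬ ∀ x, x ≠ 0 → ∀ φ ∈ P H x, φ = 0

/-- The image of the stabilizer of `⟨x⟩` on `V ⧸ ⟨x⟩`. -/
def Ix {F V : Type} [Field F] [AddCommGroup V] [Module F V] (H : Subgroup (V ≃ₗ[F] V)) (x : V) :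
    Subgroup ((V ⧸ (F ∙ x)) ≃ₗ[F] (V ⧸ (F ∙ x))) where
  carrier := {g | ∃ h ∈ H, (∃ a : F, h x = a • x) ∧
    ∀ v, g (Submodule.Quotient.mk v) = Submodule.Quotient.mk (h v)}
  one_mem' := ⟨1, H.one_mem, ⟨1, by simp⟩, fun v => rfl⟩
  mul_mem' := by
    rintro g g' ⟨h, hh, ⟨a, ha⟩, hg⟩ ⟨h', hh', ⟨a', ha'⟩, hg'⟩
    refine ⟨h * h', H.mul_mem hh hh', ⟨a' * a, ?_⟩, fun v => ?_⟩
    · show h (h' x) = _
      rw [ha', map_smul, ha, smul_smul]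
    · show g (g' _) = _
      rw [hg', hg]
      rfl
  inv_mem' := by
    rintro g ⟨h, hh, ⟨a, ha⟩, hg⟩
    by_cases hx : x = 0
    · refine ⟨h⁻¹, H.inv_mem hh, ⟨1, by rw [hx]; simp⟩, fun v => ?_⟩
      show g.symm _ = _
      rw [LinearEquiv.symm_apply_eq, hg]
      show _ = Submodule.Quotient.mk (h (h.symm v))
      rw [LinearEquiv.apply_symm_apply]
    · have ha0 : a ≠ 0 := by
        rintro rfl
        rw [zero_smul] at ha
        exact hx ((LinearEquiv.map_eq_zero_iff h).1 ha)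
      refine ⟨h⁻¹, H.inv_mem hh, ⟨a⁻¹, ?_⟩, fun v => ?_⟩
      · show h.symm x = _
        rw [LinearEquiv.symm_apply_eq, map_smul, ha, smul_smul, inv_mul_cancel₀ ha0, one_smul]
      · show g.symm _ = _
        rw [LinearEquiv.symm_apply_eq, hg]
        show _ = Submodule.Quotient.mk (h (h.symm v))
        rw [LinearEquiv.apply_symm_apply]

/-- IND: the hypothesis goes down to `V ⧸ ⟨x⟩` if there are no perspectivities, with a factor less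
than one: `q^{n-1} (q-1)^2 |K| ≤ c (q^n - 1) |I_x|`. -/
def StInd : Prop := ∀ (F V : Type) [Field F] [Finite F] [AddCommGroup V] [Module F V] [Finite V]
  (H : Subgroup (V ≃ₗ[F] V)) (c : ℕ), 2 ≤ finrank F V → PtTrans H → MD c H → ∀ x, x ≠ 0 →
  (∀ φ ∈ P H x, φ = 0) → ∀ K : Subgroup ((V ⧸ (F ∙ x)) ≃ₗ[F] (V ⧸ (F ∙ x))),
  (¬ ∀ g, ∃ h ∈ Ix H x, ∃ k ∈ K, g = h * k) →
  Nat.card F ^ (finrank F V - 1) * (Nat.card F - 1) ^ 2 * Nat.card K ≤
    c * (Nat.card F ^ finrank F V - 1) * Nat.card (Ix H x)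

/-- FOUR: no perspectivities, and `I_x` contains all transvections. -/
def StFour : Prop := ∀ (F V : Type) [Field F] [Finite F] [AddCommGroup V] [Module F V] [Finite V]
  (H : Subgroup (V ≃ₗ[F] V)), 7 ≤ Nat.card F → 4 ≤ finrank F V → Scal H → ∀ x, x ≠ 0 →
  Full (Ix H x) → ¬ ∀ y, y ≠ 0 → ∀ φ ∈ P H y, φ = 0

/-- NULMD: the null polarity contradicts `MD`. -/
def StNulMD : Prop := ∀ (F V : Type) [Field F] [Finite F] [AddCommGroup V] [Module F V] [Finite V]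
  (H : Subgroup (V ≃ₗ[F] V)) (c : ℕ), 1 ≤ c → 100 * c ^ 2 ≤ Nat.card F → 3 ≤ finrank F V →
  Scal H → PtTrans H → OneAx H → ¬ MD c H

/-- TT: the group theoretic theorem. -/
def StTT : Prop := ∀ (F V : Type) [Field F] [Finite F] [AddCommGroup V] [Module F V] [Finite V]
  (H : Subgroup (V ≃ₗ[F] V)) (c : ℕ), 1 ≤ c → 100 * c ^ 2 ≤ Nat.card F → 3 ≤ finrank F V →
  Scal H → MD c H → Full H ∨ FixPt H ∨ FixHyp H

/-- A transitive action of a group between `SL(V)` and `GL(V)`, trivial for the scalars and not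
trivial for `SL(V)`. -/
structure Act (F V : Type) [Field F] [AddCommGroup V] [Module F V] (Γ : Subgroup (V ≃ₗ[F] V))
    (Ω : Type) [MulAction Γ Ω] : Prop where
  sl : ∀ g : V ≃ₗ[F] V, LinearEquiv.det g = 1 → g ∈ Γ
  sc : ∀ g : Γ, (∃ a : F, ∀ v, g.1 v = a • v) → ∀ ω : Ω, g • ω = ω
  nt : ∃ g : Γ, LinearEquiv.det g.1 = 1 ∧ ∃ ω : Ω, g • ω ≠ ω

/-- MDL: the dimension bound gives `MD`; `H` is the stabilizer times the scalars. -/
def StMdl : Prop := ∀ (F V Ω : Type) [Field F] [Finite F] [AddCommGroup V] [Module F V] [Finite V]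
  [Fintype Ω] (Γ : Subgroup (V ≃ₗ[F] V)) [MulAction Γ Ω] [IsPretransitive Γ Ω], Act F V Γ Ω →
  Spreading Γ Ω → ∀ (ω : Ω) (H : Subgroup (V ≃ₗ[F] V)),
  (∀ g, g ∈ H ↔ ∃ (s : Γ) (a : F), a ≠ 0 ∧ s • ω = ω ∧ ∀ v, g v = a • s.1 v) →
  MD (2 * finrank F V ^ 3 * (Nat.log 2 (Nat.card F) + 1)) H

/-- PT2: the stabilizer of a point of the projective space. -/
def StPt2 : Prop := ∀ (F V Ω : Type) [Field F] [Finite F] [AddCommGroup V] [Module F V] [Finite V]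
  [Fintype Ω] (Γ : Subgroup (V ≃ₗ[F] V)) [MulAction Γ Ω] [IsPretransitive Γ Ω], Act F V Γ Ω →
  2 ≤ finrank F V → ∀ ω : Ω, IsCoatom (stabilizer Γ ω) →
  (∃ x : V, x ≠ 0 ∧ ∀ g : Γ, g • ω = ω → ∃ a : F, g.1 x = a • x) → IsMultiplyPretransitive Γ Ω 2

/-- HY2: the stabilizer of a hyperplane. -/
def StHy2 : Prop := ∀ (F V Ω : Type) [Field F] [Finite F] [AddCommGroup V] [Module F V] [Finite V]
  [Fintype Ω] (Γ : Subgroup (V ≃ₗ[F] V)) [MulAction Γ Ω] [IsPretransitive Γ Ω], Act F V Γ Ω →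
  2 ≤ finrank F V → ∀ ω : Ω, IsCoatom (stabilizer Γ ω) →
  (∃ μ : V →ₗ[F] F, μ ≠ 0 ∧ ∀ g : Γ, g • ω = ω → ∃ a : F, ∀ v, μ (g.1 v) = a * μ v) →
  IsMultiplyPretransitive Γ Ω 2

/-- MAIN -/
def StMain : Prop := ∀ (F V Ω : Type) [Field F] [Finite F] [AddCommGroup V] [Module F V] [Finite V]
  [Fintype Ω] (Γ : Subgroup (V ≃ₗ[F] V)) [MulAction Γ Ω] [IsPretransitive Γ Ω], Act F V Γ Ω →
  3 ≤ finrank F V →
  400 * finrank F V ^ 6 * (Nat.log 2 (Nat.card F) + 1) ^ 2 ≤ Nat.card F → Spreading Γ Ω →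
  IsMultiplyPretransitive Γ Ω 2

end

end SpreadPerm.LG
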