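import Mathlib
import Pool.Agent.Lib.MP_e6ed9e_al.LG.Defs

/-!
# Row HOM: perspectivities but no transvections
-/

namespace SpreadPerm.LG

open Module MulAction

section
variable {F V : Type} [Field F] [AddCommGroup V] [Module F V]

theorem pconj79 {H : Subgroup (V ≃ₗ[F] V)} {x : V} {φ : V →ₗ[F] F} (hφ : φ ∈ P H x)
    {h : V ≃ₗ[F] V} (hh : h ∈ H) : φ ∘ₗ (h.symm : V →ₗ[F] V) ∈ P H (h x) := by
  obtain ⟨g, hg, hg'⟩ := hφ
  refine ⟨h * g * h⁻¹, H.mul_mem (H.mul_mem hh hg) (H.inv_mem hh), fun v => ?_⟩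
  show h (g (h.symm v)) = v + φ (h.symm v) • h x
  rw [hg', map_add, LinearEquiv.apply_symm_apply, map_smul]

theorem psmul79 {H : Subgroup (V ≃ₗ[F] V)} {x : V} {a : F} {φ : V →ₗ[F] F}
    (hφ : φ ∈ P H (a • x)) : a • φ ∈ P H x := by
  obtain ⟨g, hg, hg'⟩ := hφ
  refine ⟨g, hg, fun v => ?_⟩
  rw [hg', LinearMap.smul_apply, smul_eq_mul, smul_smul, mul_comm]

theorem prop79 {H : Subgroup (V ≃ₗ[F] V)} {x : V} (hx : x ≠ 0) (hE : ∀ χ ∈ E H x, χ = 0)
    {φ ψ : V →ₗ[F] F} (hφ : φ ∈ P H x) (hψ : ψ ∈ P H x) : φ x • ψ = ψ x • φ := by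
  obtain ⟨g, hg, hg'⟩ := hφ
  obtain ⟨k, hk, hk'⟩ := hψ
  have h1 : ∀ v, (k * g) v = v + (φ v + ψ v + φ v * ψ x) • x := by
    intro v
    show k (g v) = _
    rw [hk', hg', map_add, map_smul, smul_eq_mul]
    module
  have h2 : ∀ v, (g * k) v = (k * g) v + (φ x * ψ v - ψ x * φ v) • x := by
    intro v
    rw [h1]
    show g (k v) = _
    rw [hg', hk', map_add, map_smul, smul_eq_mul]
    module
  -- `(k g)⁻¹ x` is a multiple of `x`
  have h3 : (k * g) x = (1 + φ x + ψ x + φ x * ψ x) • x := by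
    rw [h1]
    module
  have h4 : (1 + φ x + ψ x + φ x * ψ x) ≠ 0 := by
    intro h0
    rw [h0, zero_smul] at h3
    exact hx ((LinearEquiv.map_eq_zero_iff (k * g)).1 h3)
  have h5 : (k * g).symm x = (1 + φ x + ψ x + φ x * ψ x)⁻¹ • x := by
    rw [LinearEquiv.symm_apply_eq, map_smul, h3, smul_smul, inv_mul_cancel₀ h4, one_smul]
  have hmem : (φ x • ψ - ψ x • φ) ∘ₗ ((k * g).symm : V →ₗ[F] V) ∈ E H x := by
    refine ⟨⟨g * k * (k * g)⁻¹, H.mul_mem (H.mul_mem hg hk) (H.inv_mem (H.mul_mem hk hg)),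
      fun v => ?_⟩, ?_⟩
    · show (g * k) ((k * g).symm v) = v + (φ x * ψ ((k * g).symm v) -
        ψ x * φ ((k * g).symm v)) • x
      rw [h2, LinearEquiv.apply_symm_apply]
    · show φ x * ψ ((k * g).symm x) - ψ x * φ ((k * g).symm x) = 0
      rw [h5, map_smul, map_smul, smul_eq_mul, smul_eq_mul]
      ring
  have h6 := hE _ hmem
  ext v
  have h7 := LinearMap.congr_fun h6 ((k * g) v)
  change φ x * ψ ((k * g).symm ((k * g) v)) - ψ x * φ ((k * g).symm ((k * g) v)) = 0 at h7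
  rw [LinearEquiv.symm_apply_apply] at h7
  exact sub_eq_zero.1 h7

end

theorem hom79 (hPol : StPol) : StHom := by
  intro F V _ _ _ _ _ hn H hT hE
  by_contra hcon
  push Not at hcon
  obtain ⟨x0, hx0, φ0, hφ0, hne⟩ := hcon
  have hex : ∀ x : V, ∃ μ : V →ₗ[F] F, x ≠ 0 → μ ∈ P H x ∧ μ ≠ 0 := by
    intro x
    by_cases hx : x = 0
    · exact ⟨0, fun h => absurd hx h⟩
    obtain ⟨h, hh, a, ha⟩ := hT x0 x hx0 hx
    have ha0 : a ≠ 0 := by
      rintro rfl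
      rw [zero_smul] at ha
      exact hx0 ((LinearEquiv.map_eq_zero_iff h).1 ha)
    refine ⟨a • (φ0 ∘ₗ (h.symm : V →ₗ[F] V)), fun _ => ⟨psmul79 (ha ▸ pconj79 hφ0 hh), ?_⟩⟩
    intro h0
    apply hne
    ext v
    have h1 := LinearMap.congr_fun h0 (h v)
    change a * φ0 (h.symm (h v)) = 0 at h1
    rw [LinearEquiv.symm_apply_apply] at h1
    simpa [ha0] using h1
  choose μ hμ using hex
  have hμx : ∀ x, x ≠ 0 → μ x x ≠ 0 := by
    intro x hx h0
    exact (hμ x hx).2 (hE x hx _ ⟨(hμ x hx).1, h0⟩)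
  refine hPol F V hn μ hμx ?_
  intro x y hx hy hxy
  obtain ⟨g, hg, hg'⟩ := (hμ x hx).1
  have hgy : g y = y := by rw [hg', hxy, zero_smul, add_zero]
  have hgy' : g.symm y = y := by rw [LinearEquiv.symm_apply_eq, hgy]
  have h1 : μ y ∘ₗ (g.symm : V →ₗ[F] V) ∈ P H y := by
    have := pconj79 (hμ y hy).1 hg
    rwa [hgy] at this
  have h2 := prop79 hy (hE y hy) (hμ y hy).1 h1
  have h3 : ∀ v, μ y (g v) = μ y v := by
    intro v
    have h4 := LinearMap.congr_fun h2 (g v)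
    change μ y y * μ y (g.symm (g v)) = μ y (g.symm y) * μ y (g v) at h4
    rw [LinearEquiv.symm_apply_apply, hgy'] at h4
    exact (mul_left_cancel₀ (hμx y hy) h4).symm
  have h5 := h3 x
  rw [hg', map_add, map_smul, smul_eq_mul] at h5
  have h6 : μ x x * μ y x = 0 := by
    have := congrArg (fun t => t - μ y x) h5
    simpa using this
  exact (mul_eq_zero.1 h6).resolve_left (hμx x hx)

end SpreadPerm.LG
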