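import Mathlib
import Pool.Agent.Lib.MP_e6ed9e_al.LG.Defs2
import Pool.Agent.Lib.MP_e6ed9e_al.LG.Hom79

/-!
# Row BA: a point which is not a center has an axis
-/

namespace SpreadPerm.LG

open Module MulAction

theorem ba79_arith (q n c a b p : ℕ) (hn : 1 ≤ n) (hc : 1 ≤ c) (hq : 100 * c ^ 2 ≤ q) (hb : 0 < b)
    (h1 : q ^ (n - 1) * (q - 1) * b ≤ a * p) (h2 : (q - 1) * a ≤ c * (q ^ n - 1) * b)
    (hp : p ≤ 1) : False := by
  have hq1 : 100 ≤ q := by nlinarith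
  obtain ⟨m, rfl⟩ : ∃ m, n = m + 1 := ⟨n - 1, by omega⟩
  rw [Nat.add_sub_cancel] at h1
  have hqm : 0 < q ^ m := by positivity
  have h3 : (q - 1) * (q ^ m * (q - 1) * b) ≤ c * (q ^ (m + 1) - 1) * b := by
    calc (q - 1) * (q ^ m * (q - 1) * b) ≤ (q - 1) * (a * p) := Nat.mul_le_mul_left _ h1
      _ ≤ (q - 1) * (a * 1) := by gcongr
      _ = (q - 1) * a := by ring
      _ ≤ _ := h2
  have h4 : (q - 1) * (q ^ m * (q - 1)) * b ≤ (c * q ^ (m + 1)) * b := by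
    calc (q - 1) * (q ^ m * (q - 1)) * b = (q - 1) * (q ^ m * (q - 1) * b) := by ring
      _ ≤ c * (q ^ (m + 1) - 1) * b := h3
      _ ≤ (c * q ^ (m + 1)) * b := by gcongr; omega
  have h5 := Nat.le_of_mul_le_mul_right h4 hb
  have h6 : q ^ m * ((q - 1) * (q - 1)) ≤ q ^ m * (c * q) := by
    calc q ^ m * ((q - 1) * (q - 1)) = (q - 1) * (q ^ m * (q - 1)) := by ring
      _ ≤ c * q ^ (m + 1) := h5
      _ = q ^ m * (c * q) := by ring
  have h7 := Nat.le_of_mul_le_mul_left h6 hqm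
  obtain ⟨r, rfl⟩ : ∃ r, q = r + 1 := ⟨q - 1, by omega⟩
  rw [Nat.add_sub_cancel] at h7
  have h8 : 100 * c ≤ r + 1 := by nlinarith
  nlinarith

theorem ba79_arith2 (q n c a b N : ℕ) (hn : 3 ≤ n) (hq : 1 ≤ q) (hb : 0 < b)
    (h1 : q ^ (n - 1) * (q - 1) * q ^ (n - 2) * b ≤ a * (q - 1) * N)
    (h2 : (q - 1) * a ≤ c * (q ^ n - 1) * b) : q ^ (n - 3) * (q - 1) ≤ c * N := by
  obtain ⟨m, rfl⟩ : ∃ m, n = m + 3 := ⟨n - 3, by omega⟩
  have e1 : m + 3 - 1 = m + 2 := by omega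
  have e2 : m + 3 - 2 = m + 1 := by omega
  have e3 : m + 3 - 3 = m := by omega
  rw [e1, e2] at h1
  rw [e3]
  have hqm : 0 < q ^ (m + 3) := by positivity
  have h3 : (q ^ (m + 3) * (q ^ m * (q - 1))) * b ≤ (q ^ (m + 3) * (c * N)) * b := by
    calc (q ^ (m + 3) * (q ^ m * (q - 1))) * b = q ^ (m + 2) * (q - 1) * q ^ (m + 1) * b := by
          ring
      _ ≤ a * (q - 1) * N := h1
      _ = ((q - 1) * a) * N := by ring
      _ ≤ (c * (q ^ (m + 3) - 1) * b) * N := Nat.mul_le_mul_right _ h2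
      _ ≤ (c * q ^ (m + 3) * b) * N := by gcongr; omega
      _ = (q ^ (m + 3) * (c * N)) * b := by ring
  exact Nat.le_of_mul_le_mul_left (Nat.le_of_mul_le_mul_right h3 hb) hqm

theorem ba79 (hL1 : StLoc1) (hL3 : StLoc3) : StBA := by
  intro F V _ _ _ _ _ H c hc hq hn hBig y hy hCtr
  have hE : ∀ χ ∈ E H y, χ = 0 := by
    intro χ hχ
    by_contra h0
    exact hCtr ⟨χ, hχ, h0⟩
  haveI : Finite (V ≃ₗ[F] V) := Finite.of_injective (fun g : V ≃ₗ[F] V => (g : V → V))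
    DFunLike.coe_injective
  haveI : Finite (V →ₗ[F] F) := Finite.of_injective (fun g : V →ₗ[F] F => (g : V → F))
    DFunLike.coe_injective
  have hH : 0 < Nat.card H := Nat.card_pos
  have hex : ∃ μ ∈ P H y, μ ≠ 0 := by
    by_contra hcon
    push Not at hcon
    have hp : Nat.card (P H y) ≤ 1 := by
      haveI : Subsingleton (P H y) := ⟨fun a b => Subtype.ext (by rw [hcon a.1 a.2, hcon b.1 b.2])⟩
      exact Finite.card_le_one_iff_subsingleton.2 inferInstance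
    exact ba79_arith _ _ c _ _ _ (by omega) hc hq hH (hL1 F V H y hy) hBig hp
  obtain ⟨μ, hμ, hμ0⟩ := hex
  have hμy : μ y ≠ 0 := fun h0 => hμ0 (hE μ ⟨hμ, h0⟩)
  have h2 : ∀ h ∈ H, ∀ μ' ∈ P H (h y), ∃ b : F, ∀ v, μ' (h v) = b * μ v := by
    intro h hh μ' hμ'
    have h3 : μ' ∘ₗ ((h⁻¹).symm : V →ₗ[F] V) ∈ P H y := by
      have := pconj79 hμ' (H.inv_mem hh)
      have h4 : (h⁻¹ : V ≃ₗ[F] V) (h y) = y := LinearEquiv.symm_apply_apply h y
      rwa [h4] at this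
    have h5 := prop79 hy hE hμ h3
    refine ⟨μ' (h y) / μ y, fun v => ?_⟩
    have h6 := LinearMap.congr_fun h5 v
    change μ y * μ' (h v) = μ' (h y) * μ v at h6
    field_simp
    linear_combination h6
  have h1 : ∀ h ∈ H, (∃ a : F, h y = a • y) → ∃ b : F, ∀ v, μ (h v) = b * μ v := by
    rintro h hh ⟨a, ha⟩
    have ha0 : a ≠ 0 := by
      rintro rfl
      rw [zero_smul] at ha
      exact hy ((LinearEquiv.map_eq_zero_iff h).1 ha)
    have h3 : a⁻¹ • μ ∈ P H (h y) := by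
      rw [ha]
      refine psmul79 ?_
      rwa [smul_smul, inv_mul_cancel₀ ha0, one_smul]
    obtain ⟨b, hb⟩ := h2 h hh _ h3
    refine ⟨a * b, fun v => ?_⟩
    have h4 := hb v
    rw [LinearMap.smul_apply, smul_eq_mul] at h4
    rw [mul_assoc, ← h4, mul_inv_cancel_left₀ ha0]
  refine ⟨μ, hμy, hμ, h1, h2, fun z hz hμz => ?_⟩
  have h3 := hL3 F V H y z μ hμy hz hμz h1
  have hq1 : 1 ≤ Nat.card F := Nat.card_pos
  exact ba79_arith2 _ _ c _ _ _ hn hq1 hH h3 hBig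

end SpreadPerm.LG
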