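import Pool.Agent.Lib.MP_e6ed9e_al.LG.Defs2

/-!
# Row BB of E6 LG: centers of the second type
-/

namespace SpreadPerm.LG

open Module MulAction

noncomputable section

namespace BB75

section
variable {F V : Type} [Field F] [AddCommGroup V] [Module F V]

lemma fin_eq [Finite V] : Finite (V ≃ₗ[F] V) :=
  Finite.of_injective (fun e : V ≃ₗ[F] V => (e : V → V)) DFunLike.coe_injective

lemma fin_lin [Finite F] [Finite V] : Finite (V →ₗ[F] F) :=
  Finite.of_injective (fun e : V →ₗ[F] F => (e : V → F)) DFunLike.coe_injective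

/-- the stabilizer of the point preserves the intersection of the axes -/
lemma rr_map (H : Subgroup (V ≃ₗ[F] V)) (x : V) (hx : x ≠ 0) (h : V ≃ₗ[F] V) (hh : h ∈ H) (a : F)
    (ha : h x = a • x) (y : V) (hy : y ∈ RR H x) : h y ∈ RR H x := by
  have ha0 : a ≠ 0 := by
    rintro rfl
    rw [zero_smul] at ha
    exact hx ((LinearEquiv.map_eq_zero_iff h).1 ha)
  intro φ hφ
  obtain ⟨⟨g, hg, hgv⟩, hφx⟩ := hφ
  have hinv : h.symm x = a⁻¹ • x := by
    rw [LinearEquiv.symm_apply_eq, map_smul, ha, smul_smul, inv_mul_cancel₀ ha0, one_smul]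
  have key : (a⁻¹ • (φ.comp (h : V →ₗ[F] V))) ∈ E H x := by
    refine ⟨⟨h⁻¹ * g * h, H.mul_mem (H.mul_mem (H.inv_mem hh) hg) hh, fun v => ?_⟩, ?_⟩
    · show h.symm (g (h v)) = _
      rw [hgv, map_add, map_smul, hinv, LinearEquiv.symm_apply_apply, smul_smul]
      congr 2
      show _ = a⁻¹ * φ (h v)
      ring
    · show a⁻¹ * φ (h x) = 0
      rw [ha, map_smul, hφx, smul_zero, mul_zero]
  have h2 := hy _ key
  have h3 : a⁻¹ * φ (h y) = 0 := h2
  rcases mul_eq_zero.1 h3 with h4 | h4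
  · exact absurd h4 (inv_ne_zero ha0)
  · exact h4

lemma rr_map_eq (H : Subgroup (V ≃ₗ[F] V)) (x : V) (hx : x ≠ 0) (h : V ≃ₗ[F] V) (hh : h ∈ H)
    (hax : ∃ a : F, h x = a • x) : (RR H x).map (h : V →ₗ[F] V) = RR H x := by
  obtain ⟨a, ha⟩ := hax
  have ha0 : a ≠ 0 := by
    rintro rfl
    rw [zero_smul] at ha
    exact hx ((LinearEquiv.map_eq_zero_iff h).1 ha)
  have hinv : h⁻¹ x = a⁻¹ • x := by
    show h.symm x = _
    rw [LinearEquiv.symm_apply_eq, map_smul, ha, smul_smul, inv_mul_cancel₀ ha0, one_smul]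
  apply le_antisymm
  · rintro _ ⟨y, hy, rfl⟩
    exact rr_map H x hx h hh a ha y hy
  · intro y hy
    refine ⟨h⁻¹ y, rr_map H x hx h⁻¹ (H.inv_mem hh) a⁻¹ hinv y hy, ?_⟩
    show h (h.symm y) = y
    exact LinearEquiv.apply_symm_apply h y

/-- `|P| ≤ (q - 1) |E|` -/
lemma card_P [Finite F] [Finite V] (H : Subgroup (V ≃ₗ[F] V)) (x : V) (hx : x ≠ 0) :
    Nat.card (P H x) ≤ (Nat.card F - 1) * Nat.card (E H x) := by
  classical
  have : Finite (V →ₗ[F] F) := fin_lin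
  have hne : ∀ φ ∈ P H x, 1 + φ x ≠ 0 := by
    rintro φ ⟨g, hg, hgv⟩ h0
    have h1 : g x = 0 := by
      rw [hgv]
      have : x + φ x • x = (1 + φ x) • x := by rw [add_smul, one_smul]
      rw [this, h0, zero_smul]
    exact hx ((LinearEquiv.map_eq_zero_iff g).1 h1)
  have hdiff : ∀ φ ∈ P H x, ∀ φ0 ∈ P H x, φ x = φ0 x →
      ((1 + φ x)⁻¹ • (φ - φ0)) ∈ E H x := by
    rintro φ ⟨g, hg, hgv⟩ φ0 ⟨g0, hg0, hgv0⟩ he
    have hb : 1 + φ x ≠ 0 := hne φ ⟨g, hg, hgv⟩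
    refine ⟨⟨g0⁻¹ * g, H.mul_mem (H.inv_mem hg0) hg, fun v => ?_⟩, ?_⟩
    · show g0.symm (g v) = _
      rw [LinearEquiv.symm_apply_eq, hgv, hgv0]
      have h1 : ((1 + φ x)⁻¹ • (φ - φ0)) v = (1 + φ x)⁻¹ * (φ v - φ0 v) := rfl
      rw [h1, map_add, map_smul, smul_eq_mul, ← he]
      rw [add_assoc, ← add_smul]
      congr 2
      field_simp
      ring
    · show (1 + φ x)⁻¹ * (φ x - φ0 x) = 0
      rw [he, sub_self, mul_zero]
  let rep : Fˣ → (V →ₗ[F] F) := fun b =>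
    if h : ∃ φ ∈ P H x, 1 + φ x = (b : F) then h.choose else 0
  have hrep : ∀ b : Fˣ, (∃ φ ∈ P H x, 1 + φ x = (b : F)) →
      rep b ∈ P H x ∧ 1 + (rep b) x = (b : F) := by
    intro b h
    have : rep b = h.choose := dif_pos h
    rw [this]
    exact h.choose_spec
  let u : P H x → Fˣ := fun φ => Units.mk0 (1 + φ.1 x) (hne φ.1 φ.2)
  have hu : ∀ φ : P H x, ((u φ : Fˣ) : F) = 1 + φ.1 x := fun φ => rfl
  have hru : ∀ φ : P H x, rep (u φ) ∈ P H x ∧ φ.1 x = (rep (u φ)) x := by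
    intro φ
    have h1 := hrep (u φ) ⟨φ.1, φ.2, (hu φ).symm⟩
    refine ⟨h1.1, ?_⟩
    have h2 := h1.2
    rw [hu φ] at h2
    exact (add_left_cancel h2).symm
  let f : P H x → Fˣ × E H x := fun φ =>
    (u φ, ⟨(1 + φ.1 x)⁻¹ • (φ.1 - rep (u φ)), hdiff φ.1 φ.2 _ (hru φ).1 (hru φ).2⟩)
  have hf : Function.Injective f := by
    intro φ ψ h
    have h1 : u φ = u ψ := congrArg Prod.fst h
    have h2 : (1 + φ.1 x)⁻¹ • (φ.1 - rep (u φ)) = (1 + ψ.1 x)⁻¹ • (ψ.1 - rep (u ψ)) :=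
      congrArg (fun p => (p.2 : V →ₗ[F] F)) h
    have h3 : 1 + φ.1 x = 1 + ψ.1 x := by rw [← hu φ, ← hu ψ, h1]
    rw [h1, h3] at h2
    have h4 : φ.1 - rep (u ψ) = ψ.1 - rep (u ψ) := by
      have hb : (1 + ψ.1 x)⁻¹ ≠ 0 := inv_ne_zero (hne ψ.1 ψ.2)
      exact smul_right_injective _ hb h2
    exact Subtype.ext (sub_left_injective h4)
  have h5 := Nat.card_le_card_of_injective f hf
  rw [Nat.card_prod] at h5
  have h6 : Nat.card Fˣ = Nat.card F - 1 := Nat.card_units F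
  rw [h6] at h5
  exact h5

lemma card_sub {M : Type} [AddCommGroup M] [Module F M] [Finite M] (W : Submodule F M) :
    Nat.card W = Nat.card F ^ finrank F W := by
  have e := Module.finBasis F W
  have e2 := Nat.card_congr e.equivFun.toEquiv
  rw [e2, Nat.card_fun, Nat.card_fin]

/-- the axes kill the intersection -/
lemma card_E [Finite F] [Finite V] (H : Subgroup (V ≃ₗ[F] V)) (x : V) :
    Nat.card (E H x) ≤ Nat.card F ^ (finrank F V - finrank F (RR H x)) := by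
  classical
  have : Finite (V →ₗ[F] F) := fin_lin
  have h1 : ∀ φ ∈ E H x, φ ∈ (RR H x).dualAnnihilator := by
    intro φ hφ
    rw [Submodule.mem_dualAnnihilator]
    intro y hy
    exact hy φ hφ
  have : Finite (Module.Dual F V) := (inferInstance : Finite (V →ₗ[F] F))
  have h2 : Nat.card (E H x) ≤ Nat.card (RR H x).dualAnnihilator := by
    refine Nat.card_le_card_of_injective
      (fun φ : E H x => (⟨φ.1, h1 φ.1 φ.2⟩ : (RR H x).dualAnnihilator)) ?_
    intro φ ψ h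
    have h0 : (φ.1 : V →ₗ[F] F) = ψ.1 := congrArg (fun t => (t.1 : V →ₗ[F] F)) h
    exact Subtype.ext h0
  have h3 : Nat.card (RR H x).dualAnnihilator =
      Nat.card F ^ finrank F (RR H x).dualAnnihilator :=
    card_sub (M := V →ₗ[F] F) (RR H x).dualAnnihilator
  have h4 : finrank F (RR H x) + finrank F (RR H x).dualAnnihilator = finrank F V :=
    Subspace.finrank_add_finrank_dualAnnihilator_eq (RR H x)
  rw [h3] at h2
  have h5 : finrank F (RR H x).dualAnnihilator = finrank F V - finrank F (RR H x) := by omega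
  rw [h5] at h2
  exact h2

/-- orbit and stabilizer -/
lemma card_orb [Finite F] [Finite V] (H : Subgroup (V ≃ₗ[F] V)) (x : V) (hx : x ≠ 0) :
    (Nat.card F - 1) * Nat.card H ≤
      Nat.card {h : V ≃ₗ[F] V // h ∈ H ∧ ∃ a : F, h x = a • x} *
      Nat.card {v : V // v ≠ 0 ∧ ∃ h ∈ H, ∃ a : F, h x = a • v} := by
  classical
  have : Finite (V ≃ₗ[F] V) := fin_eq
  have hhx : ∀ h : V ≃ₗ[F] V, h x ≠ 0 := fun h h0 => hx ((LinearEquiv.map_eq_zero_iff h).1 h0)
  let w : Fˣ × H → {v : V // v ≠ 0 ∧ ∃ h ∈ H, ∃ a : F, h x = a • v} := fun p =>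
    ⟨(p.1 : F) • p.2.1 x, smul_ne_zero p.1.ne_zero (hhx _), p.2.1, p.2.2, (p.1 : F)⁻¹, by
      rw [smul_smul, inv_mul_cancel₀ p.1.ne_zero, one_smul]⟩
  have hex : ∀ v : {v : V // v ≠ 0 ∧ ∃ h ∈ H, ∃ a : F, h x = a • v}, ∃ h ∈ H, ∃ a : F,
      h x = a • v.1 := fun v => v.2.2
  let rep : {v : V // v ≠ 0 ∧ ∃ h ∈ H, ∃ a : F, h x = a • v} → V ≃ₗ[F] V := fun v =>
    (hex v).choose
  have hrep : ∀ v, rep v ∈ H ∧ ∃ a : F, (rep v) x = a • v.1 := fun v => (hex v).choose_spec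
  have hst : ∀ p : Fˣ × H, ((rep (w p))⁻¹ * p.2.1) ∈ H ∧
      ∃ a : F, ((rep (w p))⁻¹ * p.2.1) x = a • x := by
    intro p
    refine ⟨H.mul_mem (H.inv_mem (hrep _).1) p.2.2, ?_⟩
    obtain ⟨a, ha⟩ := (hrep (w p)).2
    have hw : (w p).1 = (p.1 : F) • p.2.1 x := rfl
    rw [hw, smul_smul] at ha
    have hap : a * (p.1 : F) ≠ 0 := by
      intro h0
      rw [h0, zero_smul] at ha
      exact hhx _ ha
    refine ⟨(a * (p.1 : F))⁻¹, ?_⟩
    show (rep (w p)).symm (p.2.1 x) = _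
    rw [LinearEquiv.symm_apply_eq, map_smul, ha, smul_smul, inv_mul_cancel₀ hap, one_smul]
  let f : Fˣ × H → {h : V ≃ₗ[F] V // h ∈ H ∧ ∃ a : F, h x = a • x} ×
      {v : V // v ≠ 0 ∧ ∃ h ∈ H, ∃ a : F, h x = a • v} := fun p =>
    (⟨(rep (w p))⁻¹ * p.2.1, hst p⟩, w p)
  have hf : Function.Injective f := by
    intro p p' h
    have h1 : w p = w p' := congrArg Prod.snd h
    have h2 : (rep (w p))⁻¹ * p.2.1 = (rep (w p'))⁻¹ * p'.2.1 :=
      congrArg (fun t => (t.1 : V ≃ₗ[F] V)) h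
    rw [h1] at h2
    have h3 : p.2.1 = p'.2.1 := mul_left_cancel h2
    have h4 : (p.1 : F) • p.2.1 x = (p'.1 : F) • p'.2.1 x := congrArg Subtype.val h1
    rw [h3] at h4
    have h5 : (p.1 : F) = (p'.1 : F) := smul_left_injective F (hhx p'.2.1) h4
    exact Prod.ext (Units.ext h5) (Subtype.ext h3)
  have h5 := Nat.card_le_card_of_injective f hf
  rw [Nat.card_prod, Nat.card_prod] at h5
  have h6 : Nat.card Fˣ = Nat.card F - 1 := Nat.card_units F
  rw [h6] at h5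
  exact h5

theorem main [Finite F] [Finite V] (H : Subgroup (V ≃ₗ[F] V)) (c : ℕ) (hc : 1 ≤ c)
    (hq : 100 * c ^ 2 ≤ Nat.card F) (hn : 3 ≤ finrank F V) (hbig : Big c H) (x : V) (hx : x ≠ 0)
    (h2 : T2 H x)
    (loc : Nat.card F ^ (finrank F V - 1) * (Nat.card F - 1) * Nat.card F ^ (finrank F V - 2) *
      Nat.card {h : V ≃ₗ[F] V // h ∈ H ∧ ∃ a : F, h x = a • x} ≤
      Nat.card {h : V ≃ₗ[F] V // ∃ a : F, h x = a • x} * Nat.card (P H x))
    (orb : (Nat.card F - 1) * Nat.card (V ≃ₗ[F] V) = (Nat.card F ^ finrank F V - 1) *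
      Nat.card {h : V ≃ₗ[F] V // ∃ a : F, h x = a • x}) :
    finrank F (RR H x) = 2 ∧ Nat.card F ^ (finrank F V - 1) * (Nat.card F - 1) ≤
      c * Nat.card {v : V // v ≠ 0 ∧ ∃ h ∈ H, ∃ a : F, h x = a • v} := by
  classical
  have : Finite (V ≃ₗ[F] V) := fin_eq
  have hPc := card_P H x hx
  have hEc := card_E H x
  have hOc := card_orb H x hx
  have hr2 : 2 ≤ finrank F (RR H x) := by
    obtain ⟨_, y, hy, hya⟩ := h2
    have hxR : x ∈ RR H x := fun φ hφ => hφ.2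
    have hli : LinearIndependent F ![(⟨x, hxR⟩ : RR H x), ⟨y, hy⟩] := by
      rw [LinearIndependent.pair_iff' (by
        intro h0
        exact hx (congrArg Subtype.val h0))]
      intro a ha
      exact hya a (congrArg Subtype.val ha).symm
    have := hli.fintype_card_le_finrank
    simpa using this
  have hvo : Nat.card {v : V // v ≠ 0 ∧ ∃ h ∈ H, ∃ a : F, h x = a • v} ≤
      Nat.card F ^ finrank F V - 1 := by
    have e := Module.finBasis F V
    have e2 := Nat.card_congr e.equivFun.toEquiv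
    rw [Nat.card_fun, Nat.card_fin] at e2
    rw [← e2]
    have h3 : Nat.card {v : V // v ≠ 0} = Nat.card V - 1 := by
      have := Fintype.ofFinite V
      rw [Nat.card_eq_fintype_card, Nat.card_eq_fintype_card]
      rw [Fintype.card_subtype_compl, Fintype.card_subtype_eq]
    rw [← h3]
    refine Nat.card_le_card_of_injective (fun v => (⟨v.1, v.2.1⟩ : {v : V // v ≠ 0})) ?_
    intro v w h
    have h0 : v.1 = w.1 := congrArg (fun t => (t.1 : V)) h
    exact Subtype.ext h0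
  have hHx : 0 < Nat.card {h : V ≃ₗ[F] V // h ∈ H ∧ ∃ a : F, h x = a • x} := by
    have : Nonempty {h : V ≃ₗ[F] V // h ∈ H ∧ ∃ a : F, h x = a • x} :=
      ⟨⟨1, H.one_mem, 1, by rw [one_smul]; rfl⟩⟩
    exact Nat.card_pos
  have hE0 : 0 < Nat.card (E H x) := by
    have hfl : Finite (V →ₗ[F] F) := fin_lin
    have : Nonempty (E H x) := ⟨⟨0, ⟨1, H.one_mem, fun v => by
      rw [LinearMap.zero_apply, zero_smul, add_zero]; rfl⟩, rfl⟩⟩
    exact Nat.card_pos
  unfold Big at hbig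
  generalize hq' : Nat.card F = q at *
  generalize hn' : finrank F V = n at *
  generalize Nat.card {h : V ≃ₗ[F] V // h ∈ H ∧ ∃ a : F, h x = a • x} = Hx at *
  generalize Nat.card {h : V ≃ₗ[F] V // ∃ a : F, h x = a • x} = Gx at *
  generalize Nat.card {v : V // v ≠ 0 ∧ ∃ h ∈ H, ∃ a : F, h x = a • v} = O at *
  generalize Nat.card (P H x) = p at *
  generalize Nat.card (E H x) = e at *
  generalize Nat.card (V ≃ₗ[F] V) = G at *
  generalize Nat.card H = Hn at *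
  generalize finrank F (RR H x) = r at *
  have hq1 : 100 * c ≤ q := by nlinarith
  have hq2 : 1 < q := by omega
  obtain ⟨q1, rfl⟩ : ∃ q1, q = q1 + 1 := ⟨q - 1, by omega⟩
  have hqp : 0 < (q1 + 1) ^ n := pow_pos (by omega) n
  obtain ⟨N, hN⟩ : ∃ N, (q1 + 1) ^ n = N + 1 := ⟨(q1 + 1) ^ n - 1, by omega⟩
  rw [hN] at hbig orb hvo
  simp only [Nat.add_sub_cancel] at *
  have hNpos : 0 < N := by
    have : q1 + 1 ≤ (q1 + 1) ^ n := Nat.le_self_pow (by omega) _
    omega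
  have hq1p : 0 < q1 := by omega
  -- (q-1) Gx ≤ c Hx O
  have hA : q1 * Gx ≤ c * Hx * O := by
    have h3 : q1 * (N * Gx) ≤ c * N * (Hx * O) := by
      calc q1 * (N * Gx) = q1 * (q1 * G) := by rw [← orb]
        _ ≤ q1 * (c * N * Hn) := Nat.mul_le_mul_left _ hbig
        _ = c * N * (q1 * Hn) := by ring
        _ ≤ c * N * (Hx * O) := Nat.mul_le_mul_left _ hOc
    have h4 : N * (q1 * Gx) ≤ N * (c * Hx * O) := by
      calc N * (q1 * Gx) = q1 * (N * Gx) := by ring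
        _ ≤ c * N * (Hx * O) := h3
        _ = N * (c * Hx * O) := by ring
    exact Nat.le_of_mul_le_mul_left h4 hNpos
  have hB : (q1 + 1) ^ (n - 1) * q1 * (q1 + 1) ^ (n - 2) ≤ c * O * e := by
    have h3 : (Hx * q1) * ((q1 + 1) ^ (n - 1) * q1 * (q1 + 1) ^ (n - 2)) ≤
        (Hx * q1) * (c * O * e) := by
      calc (Hx * q1) * ((q1 + 1) ^ (n - 1) * q1 * (q1 + 1) ^ (n - 2))
          = q1 * ((q1 + 1) ^ (n - 1) * q1 * (q1 + 1) ^ (n - 2) * Hx) := by ring
        _ ≤ q1 * (Gx * p) := Nat.mul_le_mul_left _ loc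
        _ ≤ q1 * (Gx * (q1 * e)) := Nat.mul_le_mul_left _ (Nat.mul_le_mul_left _ hPc)
        _ = (q1 * Gx) * (q1 * e) := by ring
        _ ≤ (c * Hx * O) * (q1 * e) := Nat.mul_le_mul_right _ hA
        _ = (Hx * q1) * (c * O * e) := by ring
    exact Nat.le_of_mul_le_mul_left h3 (Nat.mul_pos hHx hq1p)
  have hr : r = 2 := by
    by_contra hne
    have hr3 : 3 ≤ r := by omega
    have h3 : e ≤ (q1 + 1) ^ (n - 3) := hEc.trans (Nat.pow_le_pow_right (by omega) (by omega))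
    have h4 : (q1 + 1) ^ (n - 3) * ((q1 + 1) ^ n * q1) ≤ (q1 + 1) ^ (n - 3) * (c * N) := by
      calc (q1 + 1) ^ (n - 3) * ((q1 + 1) ^ n * q1)
          = (q1 + 1) ^ (n - 1) * q1 * (q1 + 1) ^ (n - 2) := by
            have e1 : (q1 + 1) ^ (n - 3) * (q1 + 1) ^ n = (q1 + 1) ^ (n - 1) * (q1 + 1) ^ (n - 2) := by
              rw [← pow_add, ← pow_add]
              congr 1
              omega
            calc (q1 + 1) ^ (n - 3) * ((q1 + 1) ^ n * q1) =
                ((q1 + 1) ^ (n - 3) * (q1 + 1) ^ n) * q1 := by ring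
              _ = ((q1 + 1) ^ (n - 1) * (q1 + 1) ^ (n - 2)) * q1 := by rw [e1]
              _ = _ := by ring
        _ ≤ c * O * e := hB
        _ ≤ c * N * (q1 + 1) ^ (n - 3) := Nat.mul_le_mul (Nat.mul_le_mul_left _ hvo) h3
        _ = _ := by ring
    have h5 := Nat.le_of_mul_le_mul_left h4 (pow_pos (by omega) _)
    rw [hN] at h5
    nlinarith
  refine ⟨hr, ?_⟩
  subst hr
  have h4 : (q1 + 1) ^ (n - 2) * ((q1 + 1) ^ (n - 1) * q1) ≤ (q1 + 1) ^ (n - 2) * (c * O) := by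
    calc (q1 + 1) ^ (n - 2) * ((q1 + 1) ^ (n - 1) * q1)
        = (q1 + 1) ^ (n - 1) * q1 * (q1 + 1) ^ (n - 2) := by ring
      _ ≤ c * O * e := hB
      _ ≤ c * O * (q1 + 1) ^ (n - 2) := Nat.mul_le_mul_left _ hEc
      _ = _ := by ring
  exact Nat.le_of_mul_le_mul_left h4 (pow_pos (by omega) _)

end

end BB75

/-- Row BB. -/
theorem bb75 (hloc : StLoc2) (horb : StOrb) : StBB := by
  intro F V _ _ _ _ _ H c hc hq hn hbig x hx h2
  have hxR : x ∈ RR H x := fun φ hφ => hφ.2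
  have hRt : RR H x ≠ ⊤ := by
    intro h0
    obtain ⟨⟨φ, hφ, hφ0⟩, _⟩ := h2
    apply hφ0
    ext v
    have : v ∈ RR H x := by rw [h0]; trivial
    exact this φ hφ
  have l := hloc F V H x (RR H x) hx hxR h2.2 hRt
    (fun h hh ha => BB75.rr_map_eq H x hx h hh ha)
  have o := (horb F V H x hx).2.1
  exact BB75.main H c hc hq hn hbig x hx h2 l o

end

end SpreadPerm.LG
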