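import Pool.Agent.Lib.MP_e6ed9e_al.LG.CIII18

/-!
# Row CI: both types of centers
-/

namespace SpreadPerm.LG

open Module MulAction

section
variable {F V : Type} [Field F] [AddCommGroup V] [Module F V]

theorem rr_conj18 (H : Subgroup (V ≃ₗ[F] V)) {h : V ≃ₗ[F] V} (hh : h ∈ H) {x y : V}
    (hy : y ∈ RR H x) : h y ∈ RR H (h x) := by
  intro φ hφ
  have h1 := e_conj18 H (H.inv_mem hh) hφ
  have h2 : (h⁻¹ : V ≃ₗ[F] V) (h x) = x := LinearEquiv.symm_apply_apply h x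
  rw [h2] at h1
  exact hy _ h1

theorem rr_conj18' (H : Subgroup (V ≃ₗ[F] V)) {h : V ≃ₗ[F] V} (hh : h ∈ H) {x y : V}
    (hy : y ∈ RR H (h x)) : h.symm y ∈ RR H x := by
  have h1 := rr_conj18 H (H.inv_mem hh) hy
  have h2 : (h⁻¹ : V ≃ₗ[F] V) (h x) = x := LinearEquiv.symm_apply_apply h x
  rw [h2] at h1
  exact h1

theorem rr_smul18 (H : Subgroup (V ≃ₗ[F] V)) {a : F} (ha : a ≠ 0) {x y : V}
    (hy : y ∈ RR H x) : y ∈ RR H (a • x) := by
  intro φ hφ
  obtain ⟨⟨g, hg, hgv⟩, hx⟩ := hφ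
  have h1 : a • φ ∈ E H x := by
    refine ⟨⟨g, hg, fun v => ?_⟩, ?_⟩
    · rw [hgv, LinearMap.smul_apply, smul_eq_mul, smul_smul, mul_comm]
    · rw [LinearMap.smul_apply, ← map_smul, hx]
  have h2 := hy _ h1
  rw [LinearMap.smul_apply, smul_eq_mul] at h2
  exact (mul_eq_zero.1 h2).resolve_left ha

theorem t1_conj18 (H : Subgroup (V ≃ₗ[F] V)) {h : V ≃ₗ[F] V} (hh : h ∈ H) {x : V}
    (hx : T1 H x) : T1 H (h x) := by
  refine ⟨ctr_conj18 H hh hx.1, fun y hy => ?_⟩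
  obtain ⟨a, ha⟩ := hx.2 _ (rr_conj18' H hh hy)
  refine ⟨a, ?_⟩
  rw [← map_smul, ← ha, LinearEquiv.apply_symm_apply]

theorem t2_conj18 (H : Subgroup (V ≃ₗ[F] V)) {h : V ≃ₗ[F] V} (hh : h ∈ H) {x : V}
    (hx : T2 H x) : T2 H (h x) := by
  obtain ⟨hc, y, hy, hxy⟩ := hx
  refine ⟨ctr_conj18 H hh hc, h y, rr_conj18 H hh hy, fun a h1 => hxy a ?_⟩
  rw [← map_smul] at h1
  exact h.injective h1

theorem t1_t2_18 (H : Subgroup (V ≃ₗ[F] V)) {x : V} {a : F} (ha : a ≠ 0) (h1 : T1 H x)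
    (h2 : T2 H (a • x)) : False := by
  obtain ⟨-, y, hy, hxy⟩ := h2
  have h3 := rr_smul18 H (inv_ne_zero ha) hy
  rw [smul_smul, inv_mul_cancel₀ ha, one_smul] at h3
  obtain ⟨b, hb⟩ := h1.2 y h3
  refine hxy (b * a⁻¹) ?_
  rw [smul_smul, mul_assoc, inv_mul_cancel₀ ha, mul_one, hb]

/-- a functional whose kernel is invariant -/
theorem semi18 {μ : V →ₗ[F] F} {y : V} (hy : μ y ≠ 0) {h : V ≃ₗ[F] V}
    (hk : ∀ v, μ v = 0 → μ (h v) = 0) : ∃ b : F, ∀ v, μ (h v) = b * μ v := by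
  refine ⟨μ (h y) * (μ y)⁻¹, fun v => ?_⟩
  have h1 : μ (v - (μ v * (μ y)⁻¹) • y) = 0 := by
    rw [map_sub, map_smul, smul_eq_mul, mul_assoc, inv_mul_cancel₀ hy, mul_one, sub_self]
  have h2 := hk _ h1
  rw [map_sub, map_smul, map_sub, map_smul, smul_eq_mul, sub_eq_zero] at h2
  rw [h2]
  ring

end

/-- CI -/
theorem ci18 (hSyl : StSyl) (hBA : StBA) (hBB : StBB) : StCI := by
  classical
  intro F V _ _ _ _ _ H c hc hq hn hbig h1 h2
  obtain ⟨x1, hx1, hT1⟩ := h1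
  obtain ⟨x2, hx2, hT2⟩ := h2
  -- the first type is in `RR` of the second type
  have key : ∀ x y : V, x ≠ 0 → y ≠ 0 → T1 H x → T2 H y → x ∈ RR H y := by
    intro x y hx hy hTx hTy
    by_contra hxy
    obtain ⟨ψ, hψ, hψx⟩ : ∃ ψ ∈ E H y, ψ x ≠ 0 := by
      by_contra h3
      push Not at h3
      exact hxy h3
    have hyx : y ∉ RR H x := by
      intro h3
      obtain ⟨a, ha⟩ := hTx.2 y h3
      have ha0 : a ≠ 0 := by
        rintro rfl
        exact hy (by rw [ha, zero_smul])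
      rw [ha] at hTy
      exact t1_t2_18 H ha0 hTx hTy
    obtain ⟨φ, hφ, hφy⟩ : ∃ φ ∈ E H x, φ y ≠ 0 := by
      by_contra h3
      push Not at h3
      exact hyx h3
    obtain ⟨h, hh, a, ha, hxa⟩ := hSyl F V H x y φ hφ ψ hψ hφy hψx
    have h4 : T2 H (h⁻¹ y) := t2_conj18 H (H.inv_mem hh) hTy
    have h5 : (h⁻¹ : V ≃ₗ[F] V) y = a⁻¹ • x := by
      show h.symm y = _
      rw [LinearEquiv.symm_apply_eq, map_smul, hxa, smul_smul, inv_mul_cancel₀ ha, one_smul]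
    rw [h5] at h4
    exact t1_t2_18 H (inv_ne_zero ha) hTx h4
  -- the intersection
  let R0 : Submodule F V := ⨅ y : {y : V // y ≠ 0 ∧ T2 H y}, RR H y.1
  have hR0 : ∀ v, v ∈ R0 ↔ ∀ y, y ≠ 0 → T2 H y → v ∈ RR H y := by
    intro v
    rw [Submodule.mem_iInf]
    exact ⟨fun h3 y hy hTy => h3 ⟨y, hy, hTy⟩, fun h3 y => h3 y.1 y.2.1 y.2.2⟩
  have hinv : ∀ h ∈ H, ∀ v ∈ R0, h v ∈ R0 := by
    intro h hh v hv
    rw [hR0] at hv ⊢
    intro y hy hTy
    have h4 : T2 H (h⁻¹ y) := t2_conj18 H (H.inv_mem hh) hTy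
    have h5 : (h⁻¹ : V ≃ₗ[F] V) y ≠ 0 := by
      intro h6
      exact hy ((LinearEquiv.map_eq_zero_iff (h⁻¹ : V ≃ₗ[F] V)).1 h6)
    have h6 := rr_conj18 H hh (hv _ h5 h4)
    have h7 : h ((h⁻¹ : V ≃ₗ[F] V) y) = y := LinearEquiv.apply_symm_apply h y
    rwa [h7] at h6
  have hx1R : x1 ∈ R0 := (hR0 x1).2 fun y hy hTy => key x1 y hx1 hy hT1 hTy
  have hle2 : ∀ y, y ≠ 0 → T2 H y → R0 ≤ RR H y := fun y hy hTy v hv => (hR0 v).1 hv y hy hTy
  have hfr2 : ∀ y, y ≠ 0 → T2 H y → finrank F (RR H y) = 2 := fun y hy hTy =>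
    (hBB F V H c hc hq hn hbig y hy hTy).1
  have hRle : finrank F R0 ≤ 2 := by
    rw [← hfr2 x2 hx2 hT2]
    exact Submodule.finrank_mono (hle2 x2 hx2 hT2)
  by_cases hdim : finrank F R0 = 2
  · right
    have heq : ∀ y, y ≠ 0 → T2 H y → RR H y = R0 := by
      intro y hy hTy
      exact (Submodule.eq_of_le_of_finrank_eq (hle2 y hy hTy)
        (by rw [hdim, hfr2 y hy hTy])).symm
    have hctr : ∀ y, y ≠ 0 → Ctr H y → y ∈ R0 := by
      intro y hy hyc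
      by_cases hTy : T2 H y
      · rw [← heq y hy hTy]
        exact self_mem_RR18 H y
      · have hTy1 : T1 H y := by
          refine ⟨hyc, fun z hz => ?_⟩
          by_contra h3
          push Not at h3
          exact hTy ⟨hyc, z, hz, h3⟩
        exact (hR0 y).2 fun w hw hTw => key y w hy hw hTy1 hTw
    obtain ⟨y0, hy0⟩ : ∃ y0 : V, y0 ∉ R0 := by
      by_contra h3
      push Not at h3
      have h4 : R0 = ⊤ := (Submodule.eq_top_iff').2 h3
      rw [h4, finrank_top] at hdim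
      omega
    have hy00 : y0 ≠ 0 := by
      rintro rfl
      exact hy0 R0.zero_mem
    obtain ⟨μ, hμy, hμP, -, -, hμ⟩ := hBA F V H c hc hq hn hbig y0 hy00
      (fun h3 => hy0 (hctr y0 hy00 h3))
    have hker : LinearMap.ker μ ≤ R0 := by
      intro z hz
      by_cases hz0 : z = 0
      · rw [hz0]; exact R0.zero_mem
      · exact hctr z hz0 (count18 H hc hq y0 z (hμ z hz0 hz))
    have hμ0 : μ ≠ 0 := by
      rintro rfl
      exact hμy rfl
    have hk : finrank F (LinearMap.ker μ) + 1 = finrank F V :=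
      Module.Dual.finrank_ker_add_one_of_ne_zero hμ0
    have hkeq : LinearMap.ker μ = R0 :=
      Submodule.eq_of_le_of_finrank_le hker (by rw [hdim]; omega)
    refine ⟨μ, hμ0, fun h hh => semi18 hμy fun v hv => ?_⟩
    have h3 : v ∈ R0 := by rw [← hkeq]; exact hv
    have h4 : h v ∈ LinearMap.ker μ := by rw [hkeq]; exact hinv h hh v h3
    exact h4
  · left
    have h3 : finrank F R0 ≤ 1 := by omega
    refine ⟨x1, hx1, fun h hh => ?_⟩
    have h4 : h x1 ∈ R0 := hinv h hh x1 hx1R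
    have h5 : (F ∙ x1) = R0 := by
      refine Submodule.eq_of_le_of_finrank_le ?_ ?_
      · rw [Submodule.span_singleton_le_iff_mem]
        exact hx1R
      · rw [finrank_span_singleton hx1]
        exact h3
    rw [← h5] at h4
    obtain ⟨a, ha⟩ := Submodule.mem_span_singleton.1 h4
    exact ⟨a, ha.symm⟩

end SpreadPerm.LG
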