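import Mathlib
import Pool.Agent.Lib.MP_e6ed9e_al.LG.Defs2

set_option autoImplicit false

/-! Row CII. -/

namespace SpreadPerm.LG

open Module MulAction

noncomputable section

namespace C87

section
variable {F V : Type} [Field F] [AddCommGroup V] [Module F V] {H : Subgroup (V ≃ₗ[F] V)}

lemma P_conj {x : V} {φ : V →ₗ[F] F} (hφ : φ ∈ P H x) {h : V ≃ₗ[F] V} (hh : h ∈ H) :
    φ ∘ₗ (h.symm : V →ₗ[F] V) ∈ P H (h x) := by
  obtain ⟨g, hg, hgv⟩ := hφ
  refine ⟨h * g * h⁻¹, H.mul_mem (H.mul_mem hh hg) (H.inv_mem hh), fun v => ?_⟩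
  change h (g (h.symm v)) = _
  rw [hgv, map_add, map_smul, LinearEquiv.apply_symm_apply]
  rfl

lemma E_conj {x : V} {φ : V →ₗ[F] F} (hφ : φ ∈ E H x) {h : V ≃ₗ[F] V} (hh : h ∈ H) :
    φ ∘ₗ (h.symm : V →ₗ[F] V) ∈ E H (h x) := by
  refine ⟨P_conj hφ.1 hh, ?_⟩
  change φ (h.symm (h x)) = 0
  rw [LinearEquiv.symm_apply_apply]
  exact hφ.2

lemma P_smul {x : V} {φ : V →ₗ[F] F} (hφ : φ ∈ P H x) {a : F} (ha : a ≠ 0) :
    a⁻¹ • φ ∈ P H (a • x) := by
  obtain ⟨g, hg, hgv⟩ := hφ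
  refine ⟨g, hg, fun v => ?_⟩
  rw [hgv, LinearMap.smul_apply, smul_smul, smul_eq_mul, mul_comm a⁻¹, mul_assoc,
    inv_mul_cancel₀ ha, mul_one]

lemma E_smul {x : V} {φ : V →ₗ[F] F} (hφ : φ ∈ E H x) {a : F} (ha : a ≠ 0) :
    a⁻¹ • φ ∈ E H (a • x) := by
  refine ⟨P_smul hφ.1 ha, ?_⟩
  rw [LinearMap.smul_apply, map_smul, hφ.2, smul_zero, smul_zero]

lemma Ctr_conj {x : V} (hx : Ctr H x) {h : V ≃ₗ[F] V} (hh : h ∈ H) : Ctr H (h x) := by
  obtain ⟨φ, hφ, h0⟩ := hx
  refine ⟨_, E_conj hφ hh, fun hz => h0 ?_⟩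
  ext v
  have := congrArg (fun f : V →ₗ[F] F => f (h v)) hz
  simpa using this

lemma Ctr_smul {x : V} (hx : Ctr H x) {a : F} (ha : a ≠ 0) : Ctr H (a • x) := by
  obtain ⟨φ, hφ, h0⟩ := hx
  exact ⟨_, E_smul hφ ha, smul_ne_zero (inv_ne_zero ha) h0⟩

/-- The additive group of the axes. -/
def EA (H : Subgroup (V ≃ₗ[F] V)) (x : V) : AddSubgroup (V →ₗ[F] F) where
  carrier := E H x
  zero_mem' := ⟨⟨1, H.one_mem, fun v => by simp⟩, rfl⟩
  add_mem' := by
    rintro φ ψ ⟨⟨g, hg, hgv⟩, h0⟩ ⟨⟨g', hg', hgv'⟩, h0'⟩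
    refine ⟨⟨g * g', H.mul_mem hg hg', fun v => ?_⟩, ?_⟩
    · change g (g' v) = _
      rw [hgv', hgv, map_add, map_smul, h0, smul_zero, add_zero, LinearMap.add_apply, add_smul]
      abel
    · rw [LinearMap.add_apply, h0, h0', add_zero]
  neg_mem' := by
    rintro φ ⟨⟨g, hg, hgv⟩, h0⟩
    refine ⟨⟨g⁻¹, H.inv_mem hg, fun v => ?_⟩, ?_⟩
    · change g.symm v = _
      rw [LinearEquiv.symm_apply_eq, hgv, LinearMap.neg_apply, map_add, map_smul, h0, smul_zero,
        add_zero, neg_smul]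
      abel
    · rw [LinearMap.neg_apply, h0, neg_zero]

lemma ex_ax {x y : V} (hT : T1 H x) (h : ¬ ∃ a : F, y = a • x) : ∃ φ ∈ E H x, φ y ≠ 0 := by
  by_contra hcon
  push Not at hcon
  exact h (hT.2 y hcon)

/-- The stabilizer of `μ`. -/
def Hm (H : Subgroup (V ≃ₗ[F] V)) (μ : V →ₗ[F] F) : Subgroup (V ≃ₗ[F] V) where
  carrier := {h | h ∈ H ∧ ∃ b : F, b ≠ 0 ∧ ∀ v, μ (h v) = b * μ v}
  one_mem' := ⟨H.one_mem, 1, one_ne_zero, fun v => by simp⟩
  mul_mem' := by
    rintro g g' ⟨hg, b, hb, hbv⟩ ⟨hg', b', hb', hbv'⟩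
    refine ⟨H.mul_mem hg hg', b * b', mul_ne_zero hb hb', fun v => ?_⟩
    change μ (g (g' v)) = _
    rw [hbv, hbv', mul_assoc]
  inv_mem' := by
    rintro g ⟨hg, b, hb, hbv⟩
    refine ⟨H.inv_mem hg, b⁻¹, inv_ne_zero hb, fun v => ?_⟩
    change μ (g.symm v) = _
    have := hbv (g.symm v)
    rw [LinearEquiv.apply_symm_apply] at this
    rw [this, ← mul_assoc, inv_mul_cancel₀ hb, one_mul]

lemma E_Hm {μ : V →ₗ[F] F} {w : V} (hw : μ w = 0) {φ : V →ₗ[F] F} (hφ : φ ∈ E H w) :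
    φ ∈ E (Hm H μ) w := by
  obtain ⟨⟨g, hg, hgv⟩, h0⟩ := hφ
  refine ⟨⟨g, ⟨hg, 1, one_ne_zero, fun v => ?_⟩, hgv⟩, h0⟩
  rw [hgv, map_add, map_smul, hw, smul_zero, add_zero, one_mul]

lemma not_prop {x y : V} (hx : x ≠ 0) (h : ¬ ∃ a : F, y = a • x) : ¬ ∃ a : F, x = a • y := by
  rintro ⟨a, ha⟩
  have ha0 : a ≠ 0 := by
    rintro rfl
    exact hx (by rw [ha, zero_smul])
  exact h ⟨a⁻¹, by rw [ha, smul_smul, inv_mul_cancel₀ ha0, one_smul]⟩

lemma conj_T1 (hS : StSyl) [Finite F] [Finite V] {x y : V} (hx : x ≠ 0) (hy : y ≠ 0)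
    (hTx : T1 H x) (hTy : T1 H y) : ∃ h ∈ H, ∃ a : F, a ≠ 0 ∧ h x = a • y := by
  by_cases h : ∃ a : F, y = a • x
  · obtain ⟨a, ha⟩ := h
    have ha0 : a ≠ 0 := by
      rintro rfl
      exact hy (by rw [ha, zero_smul])
    refine ⟨1, H.one_mem, a⁻¹, inv_ne_zero ha0, ?_⟩
    rw [ha, smul_smul, inv_mul_cancel₀ ha0, one_smul]
    rfl
  · obtain ⟨φ, hφ, h1⟩ := ex_ax hTx h
    obtain ⟨ψ, hψ, h2⟩ := ex_ax hTy (not_prop hx h)
    exact hS F V H x y φ hφ ψ hψ h1 h2

lemma conj_Hm (hS : StSyl) [Finite F] [Finite V] {μ : V →ₗ[F] F} {x y : V} (hx : x ≠ 0)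
    (hy : y ≠ 0) (hxm : μ x = 0) (hym : μ y = 0) (hTx : T1 H x) (hTy : T1 H y) :
    ∃ h ∈ H, (∃ a : F, a ≠ 0 ∧ h x = a • y) ∧ ∃ b : F, ∀ v, μ (h v) = b * μ v := by
  by_cases h : ∃ a : F, y = a • x
  · obtain ⟨a, ha⟩ := h
    have ha0 : a ≠ 0 := by
      rintro rfl
      exact hy (by rw [ha, zero_smul])
    refine ⟨1, H.one_mem, ⟨a⁻¹, inv_ne_zero ha0, ?_⟩, 1, fun v => by simp⟩
    rw [ha, smul_smul, inv_mul_cancel₀ ha0, one_smul]
    rfl
  · obtain ⟨φ, hφ, h1⟩ := ex_ax hTx h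
    obtain ⟨ψ, hψ, h2⟩ := ex_ax hTy (not_prop hx h)
    obtain ⟨g, hg, a, ha, hga⟩ := hS F V (Hm H μ) x y φ (E_Hm hxm hφ) ψ (E_Hm hym hψ) h1 h2
    obtain ⟨hgH, b, -, hb⟩ := hg
    exact ⟨g, hgH, ⟨a, ha, hga⟩, b, hb⟩

lemma card_prod {D : Type} [AddCommGroup D] [Finite D] (A B C : AddSubgroup D) (hA : A ≤ C)
    (hB : B ≤ C) : Nat.card A * Nat.card B ≤ Nat.card C * Nat.card (A ⊓ B : AddSubgroup D) := by
  let f : A × B →+ D := A.subtype.coprod B.subtype
  have h1 : Nat.card f.ker * f.ker.index = Nat.card (A × B) := f.ker.card_mul_index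
  rw [AddSubgroup.index_ker, Nat.card_prod] at h1
  have h2 : Nat.card f.range ≤ Nat.card C := by
    apply Nat.card_le_card_of_injective
      (fun z : f.range => (⟨z.1, by
        obtain ⟨⟨a, b⟩, hab⟩ := z.2
        rw [← hab]
        exact C.add_mem (hA a.2) (hB b.2)⟩ : C))
    intro z z' hz
    exact Subtype.ext (congrArg (fun t : C => t.1) hz)
  have h3 : Nat.card f.ker ≤ Nat.card (A ⊓ B : AddSubgroup D) := by
    have key : ∀ z : f.ker, (z.1.1 : D) + (z.1.2 : D) = 0 := fun z => z.2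
    apply Nat.card_le_card_of_injective
      (fun z : f.ker => (⟨(z.1.1 : D), ⟨z.1.1.2, by
        have := key z
        rw [eq_neg_of_add_eq_zero_left this]
        exact B.neg_mem z.1.2.2⟩⟩ : (A ⊓ B : AddSubgroup D)))
    intro z z' hz
    have e1 : (z.1.1 : D) = z'.1.1 := congrArg (fun t : (A ⊓ B : AddSubgroup D) => t.1) hz
    have e2 : (z.1.2 : D) = z'.1.2 := by
      have k1 := key z
      have k2 := key z'
      rw [e1] at k1
      exact add_left_cancel (k1.trans k2.symm)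
    exact Subtype.ext (Prod.ext (Subtype.ext e1) (Subtype.ext e2))
  calc Nat.card A * Nat.card B = Nat.card f.ker * Nat.card f.range := h1.symm
    _ ≤ Nat.card (A ⊓ B : AddSubgroup D) * Nat.card C := Nat.mul_le_mul h3 h2
    _ = _ := mul_comm _ _

lemma card_ann [Finite F] [Finite V] (W : Submodule F V) :
    Nat.card W.dualAnnihilator = Nat.card F ^ (finrank F V - finrank F W) := by
  have : Module.Finite F V := Module.Finite.of_finite
  rw [Module.natCard_eq_pow_finrank (K := F)]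
  congr 1
  have := Subspace.finrank_add_finrank_dualAnnihilator_eq W
  omega

lemma fin_dual [Finite F] [Finite V] : Finite (V →ₗ[F] F) :=
  Finite.of_injective (fun f : V →ₗ[F] F => (f : V → F)) DFunLike.coe_injective

/-- The axes of `w` meet each line of functionals that vanish at `w`. -/
lemma meet [Finite F] [Finite V] {w : V} (hw : w ≠ 0)
    (hcard : Nat.card F ^ (finrank F V - 1) < Nat.card (EA H w) * Nat.card F)
    (φ : V →ₗ[F] F) (h0 : φ w = 0) : ∃ a : F, a ≠ 0 ∧ a • φ ∈ E H w := by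
  have := fin_dual (F := F) (V := V)
  by_contra hcon
  push Not at hcon
  have h1 : Nat.card (EA H w × F) ≤ Nat.card (F ∙ w).dualAnnihilator := by
    apply Nat.card_le_card_of_injective (fun z : EA H w × F =>
      (⟨z.1.1 + z.2 • φ, by
        rw [Submodule.mem_dualAnnihilator]
        intro v hv
        obtain ⟨a, rfl⟩ := Submodule.mem_span_singleton.mp hv
        have e1 : z.1.1 w = 0 := z.1.2.2
        rw [map_smul, LinearMap.add_apply, LinearMap.smul_apply, e1, h0, smul_zero, add_zero,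
          smul_zero]⟩ : (F ∙ w).dualAnnihilator))
    rintro ⟨⟨ψ, hψ⟩, a⟩ ⟨⟨ψ', hψ'⟩, a'⟩ h
    have h2 : ψ + a • φ = ψ' + a' • φ := congrArg (fun t : (F ∙ w).dualAnnihilator => t.1) h
    by_cases haa : a' = a
    · subst haa
      have h3 : ψ = ψ' := add_right_cancel h2
      subst h3
      rfl
    · exfalso
      apply hcon (a' - a) (sub_ne_zero.mpr haa)
      have h3 : (a' - a) • φ = ψ - ψ' := by
        have h4 : (a' - a) • φ = a' • φ - a • φ := sub_smul a' a φ
        rw [h4, sub_eq_sub_iff_add_eq_add, add_comm, h2]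
      rw [h3]
      exact (EA H w).sub_mem hψ hψ'
  rw [card_ann, finrank_span_singleton hw, Nat.card_prod] at h1
  omega

lemma card_EA_le [Finite F] [Finite V] {z w : V} {h : V ≃ₗ[F] V} (hh : h ∈ H) {a : F}
    (ha : a ≠ 0) (hzw : h z = a • w) : Nat.card (EA H z) ≤ Nat.card (EA H w) := by
  have := fin_dual (F := F) (V := V)
  apply Nat.card_le_card_of_injective (fun φ : EA H z =>
    (⟨a • (φ.1 ∘ₗ (h.symm : V →ₗ[F] V)), by
      have h1 : φ.1 ∘ₗ (h.symm : V →ₗ[F] V) ∈ E H (h z) := E_conj φ.2 hh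
      rw [hzw] at h1
      have h2 := E_smul h1 (inv_ne_zero ha)
      rw [inv_inv, smul_smul, inv_mul_cancel₀ ha, one_smul] at h2
      exact h2⟩ : EA H w))
  intro φ φ' hφ
  have h1 : a • (φ.1 ∘ₗ (h.symm : V →ₗ[F] V)) = a • (φ'.1 ∘ₗ (h.symm : V →ₗ[F] V)) :=
    congrArg (fun t : EA H w => t.1) hφ
  have h2 := smul_right_injective _ ha h1
  apply Subtype.ext
  ext v
  have := congrArg (fun f : V →ₗ[F] F => f (h v)) h2
  simpa using this

lemma numer {q c d a b e : ℕ} (hc : 1 ≤ c) (hq : 100 * c ^ 2 ≤ q) (hd : 0 < d)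
    (h1 : d * (q - 1) ≤ c * a) (h2 : d * (q - 1) ≤ c * b) (h3 : a * b ≤ e * d) :
    d * q < e := by
  obtain ⟨r, rfl⟩ : ∃ r, q = r + 1 := ⟨q - 1, by
    have : 1 ≤ c ^ 2 := Nat.one_le_pow _ _ hc
    omega⟩
  rw [Nat.add_sub_cancel] at h1 h2
  by_contra hcon
  push Not at hcon
  have h4 : (d * r) * (d * r) ≤ (c * a) * (c * b) := Nat.mul_le_mul h1 h2
  have h5 : (c * a) * (c * b) ≤ c ^ 2 * (e * d) := by
    calc (c * a) * (c * b) = c ^ 2 * (a * b) := by ring
      _ ≤ c ^ 2 * (e * d) := Nat.mul_le_mul_left _ h3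
  have h6 : c ^ 2 * (e * d) ≤ c ^ 2 * (d * (r + 1) * d) :=
    Nat.mul_le_mul_left _ (Nat.mul_le_mul_right _ hcon)
  have h7 : (d * d) * (r * r) ≤ (d * d) * (c ^ 2 * (r + 1)) := by
    calc (d * d) * (r * r) = (d * r) * (d * r) := by ring
      _ ≤ c ^ 2 * (d * (r + 1) * d) := h4.trans (h5.trans h6)
      _ = (d * d) * (c ^ 2 * (r + 1)) := by ring
  have h8 : r * r ≤ c ^ 2 * (r + 1) := Nat.le_of_mul_le_mul_left h7 (Nat.mul_pos hd hd)
  have h9 : 100 * (r * r) ≤ (r + 1) * (r + 1) := by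
    calc 100 * (r * r) ≤ 100 * (c ^ 2 * (r + 1)) := Nat.mul_le_mul_left _ h8
      _ = (100 * c ^ 2) * (r + 1) := by ring
      _ ≤ (r + 1) * (r + 1) := Nat.mul_le_mul_right _ hq
  have h10 : 1 ≤ c ^ 2 := Nat.one_le_pow _ _ hc
  have h11 : 99 ≤ r := by omega
  nlinarith

end

end C87

/-- Row CII. -/
theorem cII87 (hS : StSyl) (hG : StGle) (hN : StNon) (hB : StBA) : StCII := by
  intro F V _ _ _ _ _ H c hc hq hn hbig hT
  have hfd := C87.fin_dual (F := F) (V := V)
  have hmf : Module.Finite F V := Module.Finite.of_finite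
  have hq1 : 100 ≤ Nat.card F := by
    have : 1 ≤ c ^ 2 := Nat.one_le_pow _ _ hc
    omega
  by_cases hall : ∀ y : V, y ≠ 0 → Ctr H y
  · right
    intro x y hx hy
    obtain ⟨h, hh, a, -, hxy⟩ := C87.conj_T1 hS hx hy (hT x hx (hall x hx)) (hT y hy (hall y hy))
    exact ⟨h, hh, a, hxy⟩
  · left
    push Not at hall
    obtain ⟨y, hy, hyc⟩ := hall
    obtain ⟨μ, hμy, hμP, -, -, hμ⟩ := hB F V H c hc hq hn hbig y hy hyc
    have hμ0 : μ ≠ 0 := by
      rintro rfl
      exact hμy rfl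
    have hd : 0 < Nat.card F ^ (finrank F V - 3) := Nat.pow_pos (by omega)
    -- the points of the axis are centers
    have hker : ∀ z, z ≠ 0 → μ z = 0 → Ctr H z := by
      intro z hz hz0
      by_contra hcon
      have h1 := hμ z hz hz0
      have h2 : Nat.card {φ : V →ₗ[F] F // φ ∈ E H z ∧ φ y = 0} ≤ 1 := by
        rw [Finite.card_le_one_iff_subsingleton]
        constructor
        rintro ⟨φ, hφ, -⟩ ⟨ψ, hψ, -⟩
        have e1 : φ = 0 := by
          by_contra h0
          exact hcon ⟨φ, hφ, h0⟩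
        have e2 : ψ = 0 := by
          by_contra h0
          exact hcon ⟨ψ, hψ, h0⟩
        simp [e1, e2]
      have h3 : c ≤ c ^ 2 := Nat.le_self_pow two_ne_zero c
      have h4 : 1 * (Nat.card F - 1) ≤ Nat.card F ^ (finrank F V - 3) * (Nat.card F - 1) :=
        Nat.mul_le_mul_right _ hd
      have h5 : c * Nat.card {φ : V →ₗ[F] F // φ ∈ E H z ∧ φ y = 0} ≤ c * 1 :=
        Nat.mul_le_mul_left _ h2
      omega
    by_cases hin : ∀ x : V, x ≠ 0 → Ctr H x → μ x = 0
    · refine ⟨μ, hμ0, ?_⟩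
      intro h hh
      have h1 : ∀ v, μ v = 0 → μ (h v) = 0 := by
        intro v hv
        by_cases hv0 : v = 0
        · rw [hv0, map_zero, map_zero]
        · exact hin _ (fun h0 => hv0 ((LinearEquiv.map_eq_zero_iff h).1 h0))
            (C87.Ctr_conj (hker v hv0 hv) hh)
      refine ⟨μ (h y) / μ y, fun v => ?_⟩
      have h2 : μ (v - (μ v / μ y) • y) = 0 := by
        rw [map_sub, map_smul, smul_eq_mul, div_mul_cancel₀ _ hμy, sub_self]
      have h3 := h1 _ h2
      rw [map_sub, map_sub, map_smul, map_smul, smul_eq_mul, sub_eq_zero] at h3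
      rw [h3]
      ring
    · exfalso
      push Not at hin
      obtain ⟨x, hx, hxc, hμx⟩ := hin
      have hyx : ¬ ∃ a : F, y = a • x := by
        rintro ⟨a, ha⟩
        have ha0 : a ≠ 0 := by
          rintro rfl
          exact hy (by rw [ha, zero_smul])
        exact hyc (by rw [ha]; exact C87.Ctr_smul hxc ha0)
      obtain ⟨φ, hφ, hφy⟩ := C87.ex_ax (hT x hx hxc) hyx
      obtain ⟨z, hlin, hA, hBz⟩ := hN F V H c hc hq hn hbig x y hx hy hyc φ hφ hφy μ hμ0 hμP hμx
      have hz : z ≠ 0 := by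
        have := hlin.ne_zero 2
        simpa using this
      let A : AddSubgroup (V →ₗ[F] F) :=
        C87.EA H z ⊓ (F ∙ y).dualAnnihilator.toAddSubgroup
      let B : AddSubgroup (V →ₗ[F] F) :=
        C87.EA H z ⊓ (F ∙ (y + φ y • x)).dualAnnihilator.toAddSubgroup
      have hann : ∀ (u : V) (ψ : V →ₗ[F] F), ψ ∈ (F ∙ u).dualAnnihilator ↔ ψ u = 0 := by
        intro u ψ
        rw [Submodule.mem_dualAnnihilator]
        constructor
        · intro h
          exact h u (Submodule.mem_span_singleton_self u)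
        · intro h v hv
          obtain ⟨a, rfl⟩ := Submodule.mem_span_singleton.mp hv
          rw [map_smul, h, smul_zero]
      have hA2 : Nat.card {ψ : V →ₗ[F] F // ψ ∈ E H z ∧ ψ y = 0} ≤ Nat.card A := by
        apply Nat.card_le_card_of_injective
          (fun ψ : {ψ : V →ₗ[F] F // ψ ∈ E H z ∧ ψ y = 0} =>
            (⟨ψ.1, ⟨ψ.2.1, (hann y ψ.1).mpr ψ.2.2⟩⟩ : A))
        intro ψ ψ' h
        exact Subtype.ext (congrArg (fun t : A => t.1) h)
      have hB2 : Nat.card {ψ : V →ₗ[F] F // ψ ∈ E H z ∧ ψ (y + φ y • x) = 0} ≤ Nat.card B := by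
        apply Nat.card_le_card_of_injective
          (fun ψ : {ψ : V →ₗ[F] F // ψ ∈ E H z ∧ ψ (y + φ y • x) = 0} =>
            (⟨ψ.1, ⟨ψ.2.1, (hann (y + φ y • x) ψ.1).mpr ψ.2.2⟩⟩ : B))
        intro ψ ψ' h
        exact Subtype.ext (congrArg (fun t : B => t.1) h)
      have hAB : Nat.card (A ⊓ B : AddSubgroup (V →ₗ[F] F)) ≤
          Nat.card F ^ (finrank F V - 3) := by
        have h3 : finrank F (Submodule.span F (Set.range ![x, y, z])) = 3 := by
          rw [finrank_span_eq_card hlin]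
          simp
        rw [← h3, ← C87.card_ann]
        apply Nat.card_le_card_of_injective
          (fun ψ : (A ⊓ B : AddSubgroup (V →ₗ[F] F)) => (⟨ψ.1, by
            have e1 : ψ.1 z = 0 := ψ.2.1.1.2
            have e2 : ψ.1 y = 0 := (hann _ _).mp ψ.2.1.2
            have e3 : ψ.1 (y + φ y • x) = 0 := (hann _ _).mp ψ.2.2.2
            have e4 : ψ.1 x = 0 := by
              rw [map_add, map_smul, e2, zero_add, smul_eq_mul] at e3
              exact (mul_eq_zero.mp e3).resolve_left hφy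
            rw [Submodule.mem_dualAnnihilator]
            intro v hv
            have hle : Submodule.span F (Set.range ![x, y, z]) ≤ LinearMap.ker ψ.1 := by
              rw [Submodule.span_le]
              rintro _ ⟨i, rfl⟩
              fin_cases i
              · exact e4
              · exact e2
              · exact e1
            exact hle hv⟩ : (Submodule.span F (Set.range ![x, y, z])).dualAnnihilator))
        intro ψ ψ' h
        exact Subtype.ext (congrArg
          (fun t : (Submodule.span F (Set.range ![x, y, z])).dualAnnihilator => t.1) h)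
      have hprod := C87.card_prod A B (C87.EA H z) inf_le_left inf_le_left
      have hzcard : Nat.card F ^ (finrank F V - 1) < Nat.card (C87.EA H z) * Nat.card F := by
        have h1 := C87.numer hc hq hd (hA.trans (Nat.mul_le_mul_left c hA2))
          (hBz.trans (Nat.mul_le_mul_left c hB2)) (hprod.trans (Nat.mul_le_mul_left _ hAB))
        have h2 : Nat.card F ^ (finrank F V - 1) =
            Nat.card F ^ (finrank F V - 3) * Nat.card F * Nat.card F := by
          rw [mul_assoc, ← pow_two, ← pow_add]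
          congr 1
          omega
        rw [h2]
        exact Nat.mul_lt_mul_of_pos_right h1 (by omega)
      have hzc : Ctr H z := by
        by_contra hcon
        have h2 : Nat.card {ψ : V →ₗ[F] F // ψ ∈ E H z ∧ ψ y = 0} ≤ 1 := by
          rw [Finite.card_le_one_iff_subsingleton]
          constructor
          rintro ⟨φ, hφ, -⟩ ⟨ψ, hψ, -⟩
          have e1 : φ = 0 := by
            by_contra h0
            exact hcon ⟨φ, hφ, h0⟩
          have e2 : ψ = 0 := by
            by_contra h0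
            exact hcon ⟨ψ, hψ, h0⟩
          simp [e1, e2]
        have h3 : c ≤ c ^ 2 := Nat.le_self_pow two_ne_zero c
        have h4 : 1 * (Nat.card F - 1) ≤ Nat.card F ^ (finrank F V - 3) * (Nat.card F - 1) :=
          Nat.mul_le_mul_right _ hd
        have h5 : c * Nat.card {φ : V →ₗ[F] F // φ ∈ E H z ∧ φ y = 0} ≤ c * 1 :=
          Nat.mul_le_mul_left _ h2
        omega
      -- all points of the axis have `μ` as axis
      have hw : ∀ w, w ≠ 0 → μ w = 0 → ∃ a : F, a ≠ 0 ∧ a • μ ∈ E H w := by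
        intro w hw hw0
        obtain ⟨h, hh, a, ha, hzw⟩ := C87.conj_T1 hS hz hw (hT z hz hzc) (hT w hw (hker w hw hw0))
        exact C87.meet hw (hzcard.trans_le (Nat.mul_le_mul_right _ (C87.card_EA_le hh ha hzw)))
          μ hw0
      have hgle := hG F V H μ hn hμ0 hw (fun w w' h h' h0 h0' =>
        C87.conj_Hm hS h h' h0 h0' (hT w h (hker w h h0)) (hT w' h' (hker w' h' h0')))
      -- move `y` to `x`
      set α : F := μ x / μ y with hα
      have hα0 : α ≠ 0 := div_ne_zero hμx hμy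
      have hw' : μ (x - α • y) = 0 := by
        rw [map_sub, map_smul, smul_eq_mul, hα, div_mul_cancel₀ _ hμy, sub_self]
      have hw2 : μ ((α⁻¹ * (μ y)⁻¹) • (x - α • y)) = 0 := by
        rw [map_smul, hw', smul_zero]
      obtain ⟨g, hg, hgv⟩ := hgle _ hw2
      have hgy : g y = α⁻¹ • x := by
        rw [hgv, smul_smul, mul_comm α⁻¹, ← mul_assoc, mul_inv_cancel₀ hμy, one_mul, smul_sub,
          smul_smul, inv_mul_cancel₀ hα0, one_smul]
        abel
      have h1 : Ctr H (g y) := by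
        rw [hgy]
        exact C87.Ctr_smul hxc (inv_ne_zero hα0)
      have h2 := C87.Ctr_conj h1 (H.inv_mem hg)
      have h3 : (g⁻¹ : V ≃ₗ[F] V) (g y) = y := by
        change g.symm (g y) = y
        rw [LinearEquiv.symm_apply_apply]
      rw [h3] at h2
      exact hyc h2

end

end SpreadPerm.LG
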