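import Pool.Agent.Lib.MP_e6ed9e_al.LG.Defs2

/-!
# Row CIII: only centers of the second type
-/

namespace SpreadPerm.LG

open Module MulAction

section
variable {F V : Type} [Field F] [AddCommGroup V] [Module F V]

theorem e_conj18 (H : Subgroup (V ≃ₗ[F] V)) {h : V ≃ₗ[F] V} (hh : h ∈ H) {x : V}
    {φ : V →ₗ[F] F} (hφ : φ ∈ E H x) :
    φ ∘ₗ (h.symm : V →ₗ[F] V) ∈ E H (h x) := by
  obtain ⟨⟨g, hg, hgv⟩, hx⟩ := hφ
  refine ⟨⟨h * g * h⁻¹, H.mul_mem (H.mul_mem hh hg) (H.inv_mem hh), fun v => ?_⟩, ?_⟩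
  · show h (g (h.symm v)) = v + φ (h.symm v) • h x
    rw [hgv, map_add, map_smul, LinearEquiv.apply_symm_apply]
  · show φ (h.symm (h x)) = 0
    rw [LinearEquiv.symm_apply_apply, hx]

theorem ctr_conj18 (H : Subgroup (V ≃ₗ[F] V)) {h : V ≃ₗ[F] V} (hh : h ∈ H) {x : V}
    (hx : Ctr H x) : Ctr H (h x) := by
  obtain ⟨φ, hφ, h0⟩ := hx
  refine ⟨_, e_conj18 H hh hφ, fun h1 => h0 ?_⟩
  ext v
  have h2 := LinearMap.congr_fun h1 (h v)
  simpa using h2

theorem ctr_conj18' (H : Subgroup (V ≃ₗ[F] V)) {h : V ≃ₗ[F] V} (hh : h ∈ H) {x : V}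
    (hx : Ctr H (h x)) : Ctr H x := by
  have h1 := ctr_conj18 H (H.inv_mem hh) hx
  have h2 : h⁻¹ (h x) = x := LinearEquiv.symm_apply_apply h x
  rwa [h2] at h1

theorem self_mem_RR18 (H : Subgroup (V ≃ₗ[F] V)) (x : V) : x ∈ RR H x := fun _ hφ => hφ.2

theorem num18 {q c : ℕ} (hc : 1 ≤ c) (hq : 100 * c ^ 2 ≤ q) : c < q - 1 := by
  have h1 : c ≤ c ^ 2 := by nlinarith
  have h2 : 1 ≤ c ^ 2 := by nlinarith
  omega

theorem count18 [Finite F] [Finite V] (H : Subgroup (V ≃ₗ[F] V)) {c : ℕ} (hc : 1 ≤ c)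
    (hq : 100 * c ^ 2 ≤ Nat.card F) (y z : V)
    (hn : Nat.card F ^ (finrank F V - 3) * (Nat.card F - 1) ≤
      c * Nat.card {φ : V →ₗ[F] F // φ ∈ E H z ∧ φ y = 0}) : Ctr H z := by
  by_contra hz
  have h0 : Nat.card {φ : V →ₗ[F] F // φ ∈ E H z ∧ φ y = 0} ≤ 1 := by
    have : Subsingleton {φ : V →ₗ[F] F // φ ∈ E H z ∧ φ y = 0} := by
      constructor
      rintro ⟨φ, h1, h2⟩ ⟨ψ, h3, h4⟩
      have e1 : φ = 0 := by
        by_contra h5
        exact hz ⟨φ, h1, h5⟩
      have e2 : ψ = 0 := by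
        by_contra h5
        exact hz ⟨ψ, h3, h5⟩
      exact Subtype.ext (e1.trans e2.symm)
    exact Finite.card_le_one_iff_subsingleton.2 this
  have h1 := num18 hc hq
  have h2 : 1 ≤ Nat.card F ^ (finrank F V - 3) := Nat.one_le_pow _ _ (by omega)
  have h3 : Nat.card F - 1 ≤ Nat.card F ^ (finrank F V - 3) * (Nat.card F - 1) :=
    Nat.le_mul_of_pos_left _ (by omega)
  have h4 : c * Nat.card {φ : V →ₗ[F] F // φ ∈ E H z ∧ φ y = 0} ≤ c * 1 :=
    Nat.mul_le_mul_left _ h0
  omega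

theorem mem_RR18 [Finite F] [Finite V] (H : Subgroup (V ≃ₗ[F] V)) {c : ℕ} (hc : 1 ≤ c)
    (hq : 100 * c ^ 2 ≤ Nat.card F) (y z : V) (h2 : finrank F (RR H z) = 2)
    (hn : Nat.card F ^ (finrank F V - 3) * (Nat.card F - 1) ≤
      c * Nat.card {φ : V →ₗ[F] F // φ ∈ E H z ∧ φ y = 0}) : y ∈ RR H z := by
  by_contra hy
  have hd : Disjoint (RR H z) (F ∙ y) := by
    rw [Submodule.disjoint_span_singleton]
    intro h3
    exact absurd h3 hy
  have hy0 : y ≠ 0 := by
    rintro rfl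
    exact hy (RR H z).zero_mem
  set W := RR H z ⊔ (F ∙ y) with hW
  have h3 : finrank F W = 3 := by
    have e1 := Submodule.finrank_sup_add_finrank_inf_eq (RR H z) (F ∙ y)
    rw [hd.eq_bot, finrank_bot, h2, finrank_span_singleton hy0] at e1
    simpa using e1
  have h4 : finrank F W.dualAnnihilator = finrank F V - 3 := by
    have e1 := Subspace.finrank_add_finrank_dualAnnihilator_eq W
    omega
  have h5 : Nat.card W.dualAnnihilator = Nat.card F ^ (finrank F V - 3) := by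
    rw [← h4]
    exact Module.natCard_eq_pow_finrank (K := F) (V := W.dualAnnihilator)
  have h6 : Nat.card {φ : V →ₗ[F] F // φ ∈ E H z ∧ φ y = 0} ≤ Nat.card W.dualAnnihilator := by
    have hm : ∀ φ : {φ : V →ₗ[F] F // φ ∈ E H z ∧ φ y = 0}, φ.1 ∈ W.dualAnnihilator := by
      intro φ
      rw [Submodule.mem_dualAnnihilator]
      intro w hw
      obtain ⟨u, hu, v, hv, rfl⟩ := Submodule.mem_sup.1 hw
      obtain ⟨a, rfl⟩ := Submodule.mem_span_singleton.1 hv
      rw [map_add, map_smul, φ.2.2, hu φ.1 φ.2.1, smul_zero, add_zero]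
    have : Finite (Dual F V) := DFunLike.finite _
    have : Finite W.dualAnnihilator := Subtype.finite
    refine Nat.card_le_card_of_injective (fun φ => (⟨φ.1, hm φ⟩ : W.dualAnnihilator)) ?_
    intro φ ψ h7
    have h8 : φ.1 = ψ.1 := congrArg (fun w : W.dualAnnihilator => w.1) h7
    exact Subtype.ext h8
  have h7 := num18 hc hq
  have h8 : 1 ≤ Nat.card F ^ (finrank F V - 3) := Nat.one_le_pow _ _ (by omega)
  rw [h5] at h6
  have h9 : c * Nat.card {φ : V →ₗ[F] F // φ ∈ E H z ∧ φ y = 0} ≤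
      c * Nat.card F ^ (finrank F V - 3) := Nat.mul_le_mul_left _ h6
  have h10 : c * Nat.card F ^ (finrank F V - 3) <
      (Nat.card F - 1) * Nat.card F ^ (finrank F V - 3) :=
    Nat.mul_lt_mul_of_pos_right h7 (by omega)
  rw [mul_comm (Nat.card F - 1)] at h10
  omega

theorem pairs18 {α : Type} [DecidableEq α] (A B : Finset α) (R : α → Finset α) (k : ℕ)
    (hA : ∀ v ∈ A, (R v).card ≤ k) (hB : ∀ v ∈ B, (R v).card ≤ k)
    (h : ∀ v ∈ A, ∀ w ∈ B, w ∈ R v ∨ v ∈ R w) :
    A.card * B.card ≤ k * (A.card + B.card) := by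
  have h1 : A ×ˢ B ⊆ (A.sigma fun v => R v).image (fun s => (s.1, s.2)) ∪
      (B.sigma fun w => R w).image (fun s => (s.2, s.1)) := by
    rintro ⟨v, w⟩ hvw
    rw [Finset.mem_product] at hvw
    rw [Finset.mem_union, Finset.mem_image, Finset.mem_image]
    rcases h v hvw.1 w hvw.2 with h2 | h2
    · exact Or.inl ⟨⟨v, w⟩, Finset.mem_sigma.2 ⟨hvw.1, h2⟩, rfl⟩
    · exact Or.inr ⟨⟨w, v⟩, Finset.mem_sigma.2 ⟨hvw.2, h2⟩, rfl⟩
  have h2 := Finset.card_le_card h1
  rw [Finset.card_product] at h2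
  have h3 := Finset.card_union_le ((A.sigma fun v => R v).image (fun s => (s.1, s.2)))
    ((B.sigma fun w => R w).image (fun s => (s.2, s.1)))
  have h4 : ((A.sigma fun v => R v).image (fun s => (s.1, s.2))).card ≤ A.card * k := by
    refine Finset.card_image_le.trans ?_
    rw [Finset.card_sigma]
    exact Finset.sum_le_card_nsmul _ _ _ hA
  have h5 : ((B.sigma fun w => R w).image (fun s => (s.2, s.1))).card ≤ B.card * k := by
    refine Finset.card_image_le.trans ?_
    rw [Finset.card_sigma]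
    exact Finset.sum_le_card_nsmul _ _ _ hB
  nlinarith

theorem num18b {q c n A B : ℕ} (hc : 1 ≤ c) (hq : 100 * c ^ 2 ≤ q) (hn : 3 ≤ n)
    (hA : q ^ (n - 1) * (q - 1) ≤ c * A) (hB : q ^ (n - 1) * (q - 1) ≤ c * B)
    (h1 : A * B ≤ q ^ 2 * (A + B)) (h2 : A + B ≤ q ^ n) : False := by
  obtain ⟨m, rfl⟩ := Nat.exists_eq_add_of_le' hn
  have h0 : 1 ≤ c ^ 2 := by nlinarith
  obtain ⟨r, rfl⟩ : ∃ r, q = r + 1 := ⟨q - 1, by omega⟩
  simp only [Nat.add_sub_cancel, show m + 3 - 1 = m + 2 by omega] at hA hB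
  have h3 : ((r + 1) ^ (m + 2) * r) * ((r + 1) ^ (m + 2) * r) ≤ (c * A) * (c * B) :=
    Nat.mul_le_mul hA hB
  have h4 : (c * A) * (c * B) ≤ c ^ 2 * ((r + 1) ^ 2 * (r + 1) ^ (m + 3)) := by
    have e1 : (r + 1) ^ 2 * (A + B) ≤ (r + 1) ^ 2 * (r + 1) ^ (m + 3) :=
      Nat.mul_le_mul_left _ h2
    calc (c * A) * (c * B) = c ^ 2 * (A * B) := by ring
      _ ≤ c ^ 2 * ((r + 1) ^ 2 * (r + 1) ^ (m + 3)) := Nat.mul_le_mul_left _ (h1.trans e1)
  have h5 : (r + 1) ^ (m + 4) * ((r + 1) ^ m * r ^ 2) ≤ (r + 1) ^ (m + 4) * (c ^ 2 * (r + 1)) := by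
    calc (r + 1) ^ (m + 4) * ((r + 1) ^ m * r ^ 2)
        = ((r + 1) ^ (m + 2) * r) * ((r + 1) ^ (m + 2) * r) := by ring
      _ ≤ c ^ 2 * ((r + 1) ^ 2 * (r + 1) ^ (m + 3)) := h3.trans h4
      _ = (r + 1) ^ (m + 4) * (c ^ 2 * (r + 1)) := by ring
  have h6 : (r + 1) ^ m * r ^ 2 ≤ c ^ 2 * (r + 1) :=
    Nat.le_of_mul_le_mul_left h5 (by positivity)
  have h7 : r ^ 2 ≤ (r + 1) ^ m * r ^ 2 := Nat.le_mul_of_pos_left _ (by positivity)
  have h8 : 100 * r ^ 2 ≤ (r + 1) * (r + 1) := by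
    calc 100 * r ^ 2 ≤ 100 * (c ^ 2 * (r + 1)) := Nat.mul_le_mul_left _ (h7.trans h6)
      _ = (100 * c ^ 2) * (r + 1) := by ring
      _ ≤ (r + 1) * (r + 1) := Nat.mul_le_mul_right _ hq
  have h9 : 1 ≤ c ^ 2 := by nlinarith
  nlinarith

end

/-- CIII -/
theorem ciii18 (hSyl : StSyl) (hBA : StBA) (hBB : StBB) (hNon : StNon) : StCIII := by
  classical
  intro F V _ _ _ _ _ H c hc hq hn hbig hT
  by_cases hall : ∀ x : V, x ≠ 0 → Ctr H x
  · right
    by_contra hno
    unfold PtTrans at hno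
    push Not at hno
    obtain ⟨x1, x2, hx1, hx2, hno⟩ := hno
    have : Fintype V := Fintype.ofFinite V
    let A : Finset V := Finset.univ.filter fun v => v ≠ 0 ∧ ∃ h ∈ H, ∃ a : F, h x1 = a • v
    let B : Finset V := Finset.univ.filter fun v => v ≠ 0 ∧ ∃ h ∈ H, ∃ a : F, h x2 = a • v
    let R : V → Finset V := fun v => Finset.univ.filter fun w => w ∈ RR H v
    have hfr : ∀ v : V, v ≠ 0 → finrank F (RR H v) = 2 := fun v hv =>
      (hBB F V H c hc hq hn hbig v hv (hT v hv (hall v hv))).1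
    have hR : ∀ v : V, v ≠ 0 → (R v).card ≤ Nat.card F ^ 2 := by
      intro v hv
      have e1 : Nat.card (RR H v) = Nat.card F ^ 2 := by
        rw [← hfr v hv]
        exact Module.natCard_eq_pow_finrank
      rw [← e1, Nat.card_eq_fintype_card, Fintype.card_subtype]
    have key : ∀ v w : V, ∀ h1 ∈ H, ∀ h2 ∈ H, ∀ a b : F, v ≠ 0 → w ≠ 0 → h1 x1 = a • v →
        h2 x2 = b • w → ∀ h ∈ H, ∀ d : F, h v = d • w → False := by
      intro v w h1 hh1 h2 hh2 a b hv hw e1 e2 h hh d e3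
      have hb : b ≠ 0 := by
        rintro rfl
        rw [zero_smul] at e2
        exact hx2 ((LinearEquiv.map_eq_zero_iff h2).1 e2)
      refine hno (h2⁻¹ * h * h1) (H.mul_mem (H.mul_mem (H.inv_mem hh2) hh) hh1) (a * d * b⁻¹) ?_
      show h2.symm (h (h1 x1)) = _
      rw [LinearEquiv.symm_apply_eq, e1, map_smul, e3, map_smul, e2, smul_smul, smul_smul,
        mul_assoc _ b⁻¹ b, inv_mul_cancel₀ hb, mul_one]
    have hAB : ∀ v ∈ A, ∀ w ∈ B, w ∈ R v ∨ v ∈ R w := by
      intro v hv w hw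
      obtain ⟨hv0, h1, hh1, a, e1⟩ := (Finset.mem_filter.1 hv).2
      obtain ⟨hw0, h2, hh2, b, e2⟩ := (Finset.mem_filter.1 hw).2
      by_contra hcon
      push Not at hcon
      have c1 : w ∉ RR H v := fun h3 => hcon.1 (Finset.mem_filter.2 ⟨Finset.mem_univ _, h3⟩)
      have c2 : v ∉ RR H w := fun h3 => hcon.2 (Finset.mem_filter.2 ⟨Finset.mem_univ _, h3⟩)
      obtain ⟨φ, hφ, hφw⟩ : ∃ φ ∈ E H v, φ w ≠ 0 := by
        by_contra h3
        push Not at h3
        exact c1 h3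
      obtain ⟨ψ, hψ, hψv⟩ : ∃ ψ ∈ E H w, ψ v ≠ 0 := by
        by_contra h3
        push Not at h3
        exact c2 h3
      obtain ⟨h, hh, d, hd, e3⟩ := hSyl F V H v w φ hφ ψ hψ hφw hψv
      exact key v w h1 hh1 h2 hh2 a b hv0 hw0 e1 e2 h hh d e3
    have hdis : Disjoint A B := by
      rw [Finset.disjoint_left]
      intro v hv hw
      obtain ⟨hv0, h1, hh1, a, e1⟩ := (Finset.mem_filter.1 hv).2
      obtain ⟨_, h2, hh2, b, e2⟩ := (Finset.mem_filter.1 hw).2
      exact key v v h1 hh1 h2 hh2 a b hv0 hv0 e1 e2 1 H.one_mem 1 (by simp)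
    have hp := pairs18 A B R (Nat.card F ^ 2) (fun v hv => hR v (Finset.mem_filter.1 hv).2.1)
      (fun v hv => hR v (Finset.mem_filter.1 hv).2.1) hAB
    have hcA := (hBB F V H c hc hq hn hbig x1 hx1 (hT x1 hx1 (hall x1 hx1))).2
    have hcB := (hBB F V H c hc hq hn hbig x2 hx2 (hT x2 hx2 (hall x2 hx2))).2
    have eA : Nat.card {v : V // v ≠ 0 ∧ ∃ h ∈ H, ∃ a : F, h x1 = a • v} = A.card := by
      rw [Nat.card_eq_fintype_card, Fintype.card_subtype]
    have eB : Nat.card {v : V // v ≠ 0 ∧ ∃ h ∈ H, ∃ a : F, h x2 = a • v} = B.card := by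
      rw [Nat.card_eq_fintype_card, Fintype.card_subtype]
    rw [eA] at hcA
    rw [eB] at hcB
    have hsum : A.card + B.card ≤ Nat.card F ^ finrank F V := by
      rw [← Finset.card_union_of_disjoint hdis, ← Module.natCard_eq_pow_finrank (K := F) (V := V),
        Nat.card_eq_fintype_card]
      exact Finset.card_le_univ _
    exact num18b hc hq hn hcA hcB hp hsum
  · left
    push Not at hall
    obtain ⟨y, hy, hyc⟩ := hall
    -- every noncenter is in `RR x` for every center `x`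
    have main : ∀ y : V, y ≠ 0 → ¬ Ctr H y → (∀ x : V, x ≠ 0 → Ctr H x → y ∈ RR H x) ∧
        ∃ μ : V →ₗ[F] F, μ y ≠ 0 ∧ ∀ z, z ≠ 0 → μ z = 0 → Ctr H z := by
      intro y hy hyc
      obtain ⟨μ, hμy, hμP, -, -, hμ⟩ := hBA F V H c hc hq hn hbig y hy hyc
      have hz : ∀ z, z ≠ 0 → μ z = 0 → Ctr H z := fun z hz0 hz =>
        count18 H hc hq y z (hμ z hz0 hz)
      refine ⟨?_, μ, hμy, hz⟩
      intro x hx hxc
      by_cases hμx : μ x = 0
      · exact mem_RR18 H hc hq y x (hBB F V H c hc hq hn hbig x hx (hT x hx hxc)).1 (hμ x hx hμx)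
      · by_contra hyx
        obtain ⟨φ, hφ, hφy⟩ : ∃ φ ∈ E H x, φ y ≠ 0 := by
          by_contra h3
          push Not at h3
          exact hyx h3
        have hμ0 : μ ≠ 0 := by
          rintro rfl
          exact hμy rfl
        obtain ⟨z, hli, hz1, hz2⟩ := hNon F V H c hc hq hn hbig x y hx hy hyc φ hφ hφy μ hμ0 hμP
          hμx
        have hz0 : z ≠ 0 := hli.ne_zero 2
        have hzc : Ctr H z := count18 H hc hq y z hz1
        have hfr := (hBB F V H c hc hq hn hbig z hz0 (hT z hz0 hzc)).1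
        have m1 : y ∈ RR H z := mem_RR18 H hc hq y z hfr hz1
        have m2 : y + φ y • x ∈ RR H z := mem_RR18 H hc hq _ z hfr hz2
        have m3 : φ y • x ∈ RR H z := by
          have := (RR H z).sub_mem m2 m1
          rwa [add_sub_cancel_left] at this
        have m4 : x ∈ RR H z := by
          have := (RR H z).smul_mem (φ y)⁻¹ m3
          rwa [smul_smul, inv_mul_cancel₀ hφy, one_smul] at this
        have m5 : z ∈ RR H z := self_mem_RR18 H z
        have hle : Submodule.span F (Set.range ![x, y, z]) ≤ RR H z := by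
          rw [Submodule.span_le]
          rintro _ ⟨i, rfl⟩
          fin_cases i
          · exact m4
          · exact m1
          · exact m5
        have h1 := Submodule.finrank_mono hle
        rw [finrank_span_eq_card hli, hfr] at h1
        simp at h1
    -- all noncenters are proportional
    have prop : ∀ y' : V, y' ≠ 0 → ¬ Ctr H y' → ∃ a : F, y' = a • y := by
      intro y' hy' hyc'
      by_contra hnp
      push Not at hnp
      obtain ⟨m1, μ, hμy, hμ⟩ := main y hy hyc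
      obtain ⟨m2, -⟩ := main y' hy' hyc'
      have hli : LinearIndependent F ![y, y'] := by
        rw [LinearIndependent.pair_iff' hy]
        intro a h1
        exact hnp a h1.symm
      have hfr2 : finrank F (Submodule.span F (Set.range ![y, y'])) = 2 := by
        rw [finrank_span_eq_card hli]
        simp
      -- each center is in the line `⟨y, y'⟩`
      have hin : ∀ x : V, x ≠ 0 → Ctr H x → x ∈ Submodule.span F (Set.range ![y, y']) := by
        intro x hx hxc
        have hfr := (hBB F V H c hc hq hn hbig x hx (hT x hx hxc)).1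
        have hle : Submodule.span F (Set.range ![y, y']) ≤ RR H x := by
          rw [Submodule.span_le]
          rintro _ ⟨i, rfl⟩
          fin_cases i
          · exact m1 x hx hxc
          · exact m2 x hx hxc
        have heq := Submodule.eq_of_le_of_finrank_eq hle (by rw [hfr2, hfr])
        rw [heq]
        exact self_mem_RR18 H x
      have hker : LinearMap.ker μ ≤ Submodule.span F (Set.range ![y, y']) := by
        intro z hz
        by_cases hz0 : z = 0
        · rw [hz0]; exact Submodule.zero_mem _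
        · exact hin z hz0 (hμ z hz0 hz)
      have hμ0 : μ ≠ 0 := by
        rintro rfl
        exact hμy rfl
      have hk : finrank F (LinearMap.ker μ) + 1 = finrank F V := by
        have := Module.Dual.finrank_ker_add_one_of_ne_zero hμ0
        exact this
      have heq : LinearMap.ker μ = Submodule.span F (Set.range ![y, y']) :=
        Submodule.eq_of_le_of_finrank_le hker (by rw [hfr2]; omega)
      have hyk : y ∈ LinearMap.ker μ := by
        rw [heq]
        exact Submodule.subset_span ⟨0, rfl⟩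
      exact hμy hyk
    refine ⟨y, hy, fun h hh => ?_⟩
    refine prop (h y) ?_ ?_
    · intro h1
      exact hy ((LinearEquiv.map_eq_zero_iff h).1 h1)
    · intro h1
      exact hyc (ctr_conj18' H hh h1)

end SpreadPerm.LG
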