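import Pool.Agent.Lib.MP_e6ed9e_al.LG.Basic47

/-!
# Row CASE1 from its subrows
-/

namespace SpreadPerm.LG

open Module MulAction

theorem case47 (h1 : StCI) (h2 : StCII) (h3 : StCIII) : StCase1 := by
  intro F V _ _ _ _ _ H c hc hq hn _ hbig
  have hT : ∀ x, Ctr H x → T1 H x ∨ T2 H x := by
    intro x hx
    by_cases h : ∀ y ∈ RR H x, ∃ a : F, y = a • x
    · exact Or.inl ⟨hx, h⟩
    · push Not at h
      exact Or.inr ⟨hx, h⟩
  by_cases hA : ∃ x, x ≠ 0 ∧ T1 H x
  · by_cases hB : ∃ x, x ≠ 0 ∧ T2 H x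
    · rcases h1 F V H c hc hq hn hbig hA hB with h | h
      · exact Or.inl h
      · exact Or.inr (Or.inl h)
    · rcases h2 F V H c hc hq hn hbig (fun x hx hC => (hT x hC).resolve_right
        fun h => hB ⟨x, hx, h⟩) with h | h
      · exact Or.inr (Or.inl h)
      · exact Or.inr (Or.inr h)
  · rcases h3 F V H c hc hq hn hbig (fun x hx hC => (hT x hC).resolve_left
      fun h => hA ⟨x, hx, h⟩) with h | h
    · exact Or.inl h
    · exact Or.inr (Or.inr h)

end SpreadPerm.LG
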