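import Pool.Agent.Lib.MP_e6ed9e_al.LG.Defs

/-!
Row FOUR: if there are no perspectivities, the stabilizer of a point does not induce all
transvections on the quotient (dimension at least four).
-/

namespace SpreadPerm.LG

namespace Four73

open Module

noncomputable section

/-- The transvection `v ↦ v + β(v) w`. -/
def tau {F M : Type} [Field F] [AddCommGroup M] [Module F M] (β : M →ₗ[F] F) (w : M) :
    M →ₗ[F] M := LinearMap.id + β.smulRight w

theorem tau_apply {F M : Type} [Field F] [AddCommGroup M] [Module F M] (β : M →ₗ[F] F) (w v : M) :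
    tau β w v = v + β v • w := rfl

/-- A functional which vanishes on two vectors and is one on a vector outside of their span. -/
theorem sep {F M : Type} [Field F] [AddCommGroup M] [Module F M] {a b u : M}
    (hu : u ∉ Submodule.span F {a, b}) : ∃ f : M →ₗ[F] F, f a = 0 ∧ f b = 0 ∧ f u = 1 := by
  obtain ⟨f, hf, hk⟩ := Submodule.exists_le_ker_of_notMem hu
  refine ⟨(f u)⁻¹ • f, ?_, ?_, ?_⟩
  · have : f a = 0 := hk (Submodule.subset_span (by simp))
    simp [this]
  · have : f b = 0 := hk (Submodule.subset_span (by simp))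
    simp [this]
  · simp [hf]

theorem exists_notMem {F M : Type} [Field F] [AddCommGroup M] [Module F M] [Module.Finite F M]
    (h : 3 ≤ finrank F M) (a b : M) : ∃ u, u ∉ Submodule.span F {a, b} := by
  by_contra hcon
  push Not at hcon
  have h1 : Submodule.span F {a, b} = ⊤ := by
    rw [eq_top_iff]
    exact fun u _ => hcon u
  have h2 : finrank F (Submodule.span F {a, b}) ≤ 2 := by
    classical
    refine (finrank_span_le_card _).trans ?_
    rw [Set.toFinset_insert, Set.toFinset_singleton]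
    exact Finset.card_le_two
  rw [h1, finrank_top] at h2
  omega

variable {F V : Type} [Field F] [AddCommGroup V] [Module F V]

/-- `f` is induced by an element of `H` which fixes `x`. -/
def Lift (H : Subgroup (V ≃ₗ[F] V)) (x : V) (f : (V ⧸ (F ∙ x)) →ₗ[F] (V ⧸ (F ∙ x))) : Prop :=
  ∃ h ∈ H, h x = x ∧ ∀ v, Submodule.Quotient.mk (h v) = f (Submodule.Quotient.mk v)

theorem Lift.comp {H : Subgroup (V ≃ₗ[F] V)} {x : V} {f g : (V ⧸ (F ∙ x)) →ₗ[F] (V ⧸ (F ∙ x))}
    (hf : Lift H x f) (hg : Lift H x g) : Lift H x (f ∘ₗ g) := by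
  obtain ⟨h, hh, hx, hv⟩ := hf
  obtain ⟨h', hh', hx', hv'⟩ := hg
  refine ⟨h * h', H.mul_mem hh hh', ?_, fun v => ?_⟩
  · show h (h' x) = x
    rw [hx', hx]
  · show Submodule.Quotient.mk (h (h' v)) = f (g _)
    rw [hv, hv']

theorem inv_apply_eq {h : V ≃ₗ[F] V} {x : V} {a : F} (hx : x ≠ 0) (ha : h x = a • x) :
    a ≠ 0 ∧ h⁻¹ x = a⁻¹ • x := by
  have ha0 : a ≠ 0 := by
    rintro rfl
    rw [zero_smul] at ha
    exact hx ((LinearEquiv.map_eq_zero_iff h).1 ha)
  refine ⟨ha0, ?_⟩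
  show h.symm x = _
  rw [LinearEquiv.symm_apply_eq, map_smul, ha, smul_smul, inv_mul_cancel₀ ha0, one_smul]

theorem inv_mk {x : V} {h : V ≃ₗ[F] V} {α : (V ⧸ (F ∙ x)) →ₗ[F] F} {w : V ⧸ (F ∙ x)}
    (hw : α w = 0)
    (hv : ∀ v, (Submodule.Quotient.mk (h v) : V ⧸ (F ∙ x)) =
      Submodule.Quotient.mk v + α (Submodule.Quotient.mk v) • w) (v : V) :
    (Submodule.Quotient.mk (h⁻¹ v) : V ⧸ (F ∙ x)) =
      Submodule.Quotient.mk v - α (Submodule.Quotient.mk v) • w := by
  have h1 := hv (h⁻¹ v)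
  have h2 : h (h⁻¹ v) = v := h.apply_symm_apply v
  rw [h2] at h1
  have h3 : α (Submodule.Quotient.mk v) = α (Submodule.Quotient.mk (h⁻¹ v)) := by
    rw [h1, map_add, map_smul, hw, smul_zero, add_zero]
  rw [h3, h1]
  abel

/-- All transvections of the quotient are induced by elements which fix `x`. -/
theorem lift_tau {H : Subgroup (V ≃ₗ[F] V)} {x : V} [Module.Finite F (V ⧸ (F ∙ x))] (hx : x ≠ 0)
    (hd : 3 ≤ finrank F (V ⧸ (F ∙ x))) (hF : Full (Ix H x))
    (β : (V ⧸ (F ∙ x)) →ₗ[F] F) (w : V ⧸ (F ∙ x)) (hw : β w = 0) : Lift H x (tau β w) := by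
  by_cases hβ : β = 0
  · refine ⟨1, H.one_mem, rfl, fun v => ?_⟩
    rw [tau_apply, hβ, LinearMap.zero_apply, zero_smul, add_zero]
    rfl
  -- a vector `z` of the kernel of `β` and a functional with `α w = 0`, `α z = 1`
  by_cases hw0 : w = 0
  · refine ⟨1, H.one_mem, rfl, fun v => ?_⟩
    rw [tau_apply, hw0, smul_zero, add_zero]
    rfl
  obtain ⟨u, hu⟩ : ∃ u, β u ≠ 0 := by
    by_contra hcon
    push Not at hcon
    exact hβ (LinearMap.ext hcon)
  obtain ⟨z0, hz0⟩ := exists_notMem hd w u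
  set z := z0 - (β z0 / β u) • u with hz
  have hβz : β z = 0 := by
    rw [hz, map_sub, map_smul, smul_eq_mul, div_mul_cancel₀ _ hu, sub_self]
  have hzw : z ∉ Submodule.span F {w, w} := by
    intro h
    apply hz0
    have h1 : z0 = z + (β z0 / β u) • u := by rw [hz]; abel
    rw [h1]
    refine Submodule.add_mem _ (Submodule.span_mono (by simp) h)
      (Submodule.smul_mem _ _ (Submodule.subset_span (by simp)))
  obtain ⟨α, hαw, -, hαz⟩ := sep hzw
  obtain ⟨g1, ⟨h1, h1H, ⟨a1, h1x⟩, hg1⟩, hg1'⟩ := hF w α hαw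
  obtain ⟨g2, ⟨h2, h2H, ⟨a2, h2x⟩, hg2⟩, hg2'⟩ := hF z β hβz
  have k1 : ∀ v, (Submodule.Quotient.mk (h1 v) : V ⧸ (F ∙ x)) =
      Submodule.Quotient.mk v + α (Submodule.Quotient.mk v) • w := fun v => by
    rw [← hg1, hg1']
  have k2 : ∀ v, (Submodule.Quotient.mk (h2 v) : V ⧸ (F ∙ x)) =
      Submodule.Quotient.mk v + β (Submodule.Quotient.mk v) • z := fun v => by
    rw [← hg2, hg2']
  obtain ⟨ha1, h1i⟩ := inv_apply_eq hx h1x
  obtain ⟨ha2, h2i⟩ := inv_apply_eq hx h2x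
  refine ⟨h1 * h2 * h1⁻¹ * h2⁻¹, H.mul_mem (H.mul_mem (H.mul_mem h1H h2H) (H.inv_mem h1H))
    (H.inv_mem h2H), ?_, fun v => ?_⟩
  · show h1 (h2 (h1⁻¹ (h2⁻¹ x))) = x
    simp only [h2i, h1i, map_smul, h2x, h1x, smul_smul]
    convert one_smul F x using 2
    field_simp
  · show Submodule.Quotient.mk (h1 (h2 (h1⁻¹ (h2⁻¹ v)))) = _
    rw [k1, k2, inv_mk hαw k1, inv_mk hβz k2, tau_apply]
    simp only [map_add, map_sub, map_smul, hαw, hβz, hαz, hw, smul_eq_mul, mul_zero, mul_one,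
      sub_zero, add_zero]
    module

/-- The diagonal element with entries `t`, `t⁻¹`. -/
theorem lift_diag {H : Subgroup (V ≃ₗ[F] V)} {x : V} [Module.Finite F (V ⧸ (F ∙ x))] (hx : x ≠ 0)
    (hd : 3 ≤ finrank F (V ⧸ (F ∙ x))) (hF : Full (Ix H x))
    (α β : (V ⧸ (F ∙ x)) →ₗ[F] F) (a b : V ⧸ (F ∙ x)) (haa : α a = 1) (hab : α b = 0)
    (hba : β a = 0) (hbb : β b = 1) (t : F) (ht : t ≠ 0) :
    ∃ f, Lift H x f ∧ ∀ v, f v = v + ((t - 1) * α v) • a + ((t⁻¹ - 1) * β v) • b := by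
  have hA : ∀ c : F, Lift H x (tau (c • β) a) := fun c =>
    lift_tau hx hd hF _ _ (by rw [LinearMap.smul_apply, hba, smul_zero])
  have hB : ∀ c : F, Lift H x (tau (c • α) b) := fun c =>
    lift_tau hx hd hF _ _ (by rw [LinearMap.smul_apply, hab, smul_zero])
  refine ⟨tau (t • β) a ∘ₗ (tau ((-t⁻¹) • α) b ∘ₗ (tau (t • β) a ∘ₗ
    (tau ((-1 : F) • β) a ∘ₗ (tau ((1 : F) • α) b ∘ₗ tau ((-1 : F) • β) a)))),
    (hA _).comp ((hB _).comp ((hA _).comp ((hA _).comp ((hB _).comp (hA _))))), fun v => ?_⟩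
  simp only [LinearMap.comp_apply, tau_apply, LinearMap.smul_apply, map_add, map_smul, haa, hab,
    hba, hbb, smul_eq_mul, mul_zero, mul_one, add_zero, zero_add]
  have e : t * t⁻¹ = 1 := mul_inv_cancel₀ ht
  set p := α v
  set r := β v
  match_scalars
  · ring
  · linear_combination (r - t * p) * e
  · linear_combination (-p) * e

/-- Elements which fix `x` and commute modulo `x` commute, if there are no perspectivities. -/
theorem comm {H : Subgroup (V ≃ₗ[F] V)} {x : V} (hx : x ≠ 0)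
    (hno : ∀ y, y ≠ 0 → ∀ φ ∈ P H y, φ = 0) {a b : V ≃ₗ[F] V} (ha : a ∈ H) (hb : b ∈ H)
    (hab : ∀ v, (Submodule.Quotient.mk (a (b v)) : V ⧸ (F ∙ x)) = Submodule.Quotient.mk (b (a v)))
    (v : V) : a (b v) = b (a v) := by
  obtain ⟨ξ, -, -, hξ⟩ : ∃ f : V →ₗ[F] F, f 0 = 0 ∧ f 0 = 0 ∧ f x = 1 :=
    sep (by simpa using hx)
  set c : V ≃ₗ[F] V := (a * b) * (b * a)⁻¹ with hc
  have hcH : c ∈ H := H.mul_mem (H.mul_mem ha hb) (H.inv_mem (H.mul_mem hb ha))
  have h1 : ∀ v, ∃ k : F, c v - v = k • x := by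
    intro v
    have h2 : (Submodule.Quotient.mk (c v) : V ⧸ (F ∙ x)) = Submodule.Quotient.mk v := by
      have h3 := hab ((b * a)⁻¹ v)
      have h4 : b (a ((b * a)⁻¹ v)) = v := (b * a).apply_symm_apply v
      rw [h4] at h3
      exact h3
    rw [Submodule.Quotient.eq, Submodule.mem_span_singleton] at h2
    obtain ⟨k, hk⟩ := h2
    exact ⟨k, hk.symm⟩
  set φ : V →ₗ[F] F := ξ ∘ₗ ((c : V →ₗ[F] V) - LinearMap.id) with hφ
  have h2 : φ ∈ P H x := by
    refine ⟨c, hcH, fun v => ?_⟩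
    obtain ⟨k, hk⟩ := h1 v
    have h3 : φ v = k := by
      show ξ (c v - v) = k
      rw [hk, map_smul, hξ, smul_eq_mul, mul_one]
    rw [h3, ← hk]
    abel
  have h3 : φ = 0 := hno x hx φ h2
  have h4 : ∀ v, c v = v := by
    intro v
    obtain ⟨k, hk⟩ := h1 v
    have h5 : φ v = k := by
      show ξ (c v - v) = k
      rw [hk, map_smul, hξ, smul_eq_mul, mul_one]
    rw [h3, LinearMap.zero_apply] at h5
    rw [← h5, zero_smul, sub_eq_zero] at hk
    exact hk
  have h5 := h4 (b (a v))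
  have h6 : (b * a)⁻¹ (b (a v)) = v := (b * a).symm_apply_apply v
  have h7 : c (b (a v)) = a (b ((b * a)⁻¹ (b (a v)))) := rfl
  rw [h7, h6] at h5
  exact h5

end

end Four73

open Four73 Module in
/-- Row FOUR. -/
theorem four73 : StFour := by
  intro F V _ _ _ _ _ H hq hn _ x hx hFull hno
  have hVfin : Module.Finite F V := Module.Finite.of_finite
  have hQfin : Module.Finite F (V ⧸ (F ∙ x)) := inferInstance
  have hd : 3 ≤ finrank F (V ⧸ (F ∙ x)) := by
    have h1 := Submodule.finrank_quotient_add_finrank (F ∙ x)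
    rw [finrank_span_singleton hx] at h1
    omega
  -- the data in the quotient
  obtain ⟨w1, hw1⟩ := exists_notMem hd (0 : V ⧸ (F ∙ x)) 0
  obtain ⟨w2, hw2⟩ := exists_notMem hd w1 w1
  obtain ⟨u0, hu0⟩ := exists_notMem hd w1 w2
  have hw10 : w1 ≠ 0 := by
    rintro rfl
    exact hw1 (Submodule.zero_mem _)
  obtain ⟨θ, hθ1, -, hθ2⟩ := sep hw2
  have hw1' : w1 ∉ Submodule.span F {w2, w2} := by
    intro h
    rw [Set.pair_eq_singleton, Submodule.mem_span_singleton] at h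
    obtain ⟨k, hk⟩ := h
    have hk0 : k ≠ 0 := by
      rintro rfl
      rw [zero_smul] at hk
      exact hw10 hk.symm
    apply hw2
    rw [Set.pair_eq_singleton, Submodule.mem_span_singleton]
    exact ⟨k⁻¹, by rw [← hk, smul_smul, inv_mul_cancel₀ hk0, one_smul]⟩
  obtain ⟨η, hη2, -, hη1⟩ := sep hw1'
  -- `ζ`
  obtain ⟨ζ, hζ0, hζ1, hζ2⟩ : ∃ ζ : F, ζ ≠ 0 ∧ ζ ≠ 1 ∧ ζ * ζ ≠ 1 := by
    classical
    haveI := Fintype.ofFinite F
    obtain ⟨ζ, hζ⟩ : ∃ ζ : F, ζ ∉ ({0, 1, -1} : Finset F) := by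
      by_contra hcon
      push Not at hcon
      have h1 : (Finset.univ : Finset F) ⊆ {0, 1, -1} := fun z _ => hcon z
      have h2 := Finset.card_le_card h1
      rw [Finset.card_univ, ← Nat.card_eq_fintype_card] at h2
      have h3 : ({0, 1, -1} : Finset F).card ≤ 3 := Finset.card_le_three
      omega
    simp only [Finset.mem_insert, Finset.mem_singleton, not_or] at hζ
    refine ⟨ζ, hζ.1, hζ.2.1, fun h => ?_⟩
    rcases mul_self_eq_one_iff.1 h with h | h
    · exact hζ.2.1 h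
    · exact hζ.2.2 h
  -- the transvection
  obtain ⟨t, htH, htx, ht⟩ := lift_tau hx hd hFull θ w1 hθ1
  simp only [tau_apply] at ht
  obtain ⟨v1, hv1⟩ := Submodule.Quotient.mk_surjective (F ∙ x) w1
  obtain ⟨v2, hv2⟩ := Submodule.Quotient.mk_surjective (F ∙ x) w2
  obtain ⟨ξ, -, -, hξ⟩ : ∃ f : V →ₗ[F] F, f 0 = 0 ∧ f 0 = 0 ∧ f x = 1 :=
    sep (by simpa using hx)
  set π : V →ₗ[F] (V ⧸ (F ∙ x)) := (F ∙ x).mkQ with hπ
  have hπm : ∀ v, (Submodule.Quotient.mk v : V ⧸ (F ∙ x)) = π v := fun v => rfl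
  simp only [hπm] at ht hv1 hv2
  have hπx : π x = 0 := by
    rw [hπ, Submodule.mkQ_apply, Submodule.Quotient.mk_eq_zero]
    exact Submodule.mem_span_singleton_self x
  have hπ0 : ∀ v, π v = 0 → ∃ k : F, v = k • x := by
    intro v hv
    rw [hπ, Submodule.mkQ_apply, Submodule.Quotient.mk_eq_zero,
      Submodule.mem_span_singleton] at hv
    obtain ⟨k, hk⟩ := hv
    exact ⟨k, hk.symm⟩
  set lam : V →ₗ[F] F := ξ ∘ₗ ((t : V →ₗ[F] V) - LinearMap.id - (θ ∘ₗ π).smulRight v1) with hlam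
  have hlam' : ∀ v, lam v = ξ (t v - v - θ (π v) • v1) := fun v => rfl
  have htv : ∀ v, t v = v + θ (π v) • v1 + lam v • x := by
    intro v
    obtain ⟨k, hk⟩ := hπ0 (t v - v - θ (π v) • v1) (by
      rw [map_sub, map_sub, map_smul, ht, hv1]
      abel)
    have h1 : lam v = k := by rw [hlam', hk, map_smul, hξ, smul_eq_mul, mul_one]
    rw [h1, ← hk]
    abel
  have hlx : lam x = 0 := by
    rw [hlam', htx, hπx, map_zero, zero_smul, sub_self, sub_zero, map_zero]
  -- the key lemma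
  have key : ∀ (f : (V ⧸ (F ∙ x)) →ₗ[F] (V ⧸ (F ∙ x))), Lift H x f → f w1 = ζ • w1 →
      (∀ v, θ (f v) = ζ * θ v) → ∀ (μ : F), μ ≠ 1 → ∀ v, θ (π v) = 0 → f (π v) = μ • π v →
      lam v = 0 := by
    intro f hf hfw hfθ μ hμ v hv hfv
    obtain ⟨s, hsH, hsx, hs⟩ := hf
    simp only [hπm] at hs
    have hcomm : ∀ v, t (s v) = s (t v) := by
      intro v
      refine comm hx hno htH hsH (fun v => ?_) v
      rw [hπm, hπm, ht, hs, hs, ht, map_add, map_smul, hfw, hfθ, smul_smul, mul_comm]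
    have h1 := hcomm v
    rw [htv (s v), htv v, map_add, map_add, map_smul, map_smul, hs, hfθ, hv, mul_zero, zero_smul,
      zero_smul, add_zero, hsx] at h1
    have h2 : lam (s v) = lam v := by
      have h3 : (lam (s v) - lam v) • x = 0 := by
        rw [sub_smul, sub_eq_zero]
        exact add_left_cancel h1
      rcases smul_eq_zero.1 h3 with h4 | h4
      · exact sub_eq_zero.1 h4
      · exact absurd h4 hx
    obtain ⟨k, hk⟩ := hπ0 (s v - μ • v) (by rw [map_sub, map_smul, hs, hfv, sub_self])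
    have h3 : s v = μ • v + k • x := by rw [← hk]; abel
    rw [h3, map_add, map_smul, map_smul, hlx, smul_zero, add_zero, smul_eq_mul] at h2
    have h4 : (μ - 1) * lam v = 0 := by linear_combination h2
    rcases mul_eq_zero.1 h4 with h5 | h5
    · exact absurd (sub_eq_zero.1 h5) hμ
    · exact h5
  -- the semisimple elements
  have semi : ∀ u : V ⧸ (F ∙ x), θ u = 0 → η u = 0 → u ≠ 0 →
      ∃ f, Lift H x f ∧ f w1 = ζ • w1 ∧ (∀ v, θ (f v) = ζ * θ v) ∧ f u = (ζ⁻¹ * ζ⁻¹) • u := by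
    intro u hθu hηu hu
    have hus : u ∉ Submodule.span F {w1, w2} := by
      intro h
      rw [Submodule.mem_span_pair] at h
      obtain ⟨p, r, e⟩ := h
      have e1 : θ u = r := by
        rw [← e, map_add, map_smul, map_smul, hθ1, hθ2, smul_zero, zero_add, smul_eq_mul, mul_one]
      have e2 : η u = p := by
        rw [← e, map_add, map_smul, map_smul, hη1, hη2, smul_zero, add_zero, smul_eq_mul, mul_one]
      rw [hθu] at e1
      rw [hηu] at e2
      rw [← e1, ← e2, zero_smul, zero_smul, add_zero] at e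
      exact hu e.symm
    obtain ⟨κ, hκ1, hκ2, hκu⟩ := sep hus
    obtain ⟨f1, hf1, hf1'⟩ := lift_diag hx hd hFull η κ w1 u hη1 hηu hκ1 hκu ζ hζ0
    obtain ⟨f2, hf2, hf2'⟩ := lift_diag hx hd hFull θ κ w2 u hθ2 hθu hκ2 hκu ζ hζ0
    refine ⟨f1 ∘ₗ f2, hf1.comp hf2, ?_, fun v => ?_, ?_⟩
    · rw [LinearMap.comp_apply, hf2', hθ1, hκ1, mul_zero, mul_zero, zero_smul, zero_smul, add_zero,
        add_zero, hf1', hη1, hκ1, mul_zero, zero_smul, add_zero, mul_one]
      module
    · rw [LinearMap.comp_apply, hf1', hf2']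
      simp only [map_add, map_smul, hθ1, hθ2, hθu, smul_eq_mul, mul_zero, mul_one, add_zero]
      ring
    · rw [LinearMap.comp_apply, hf2', hθu, hκu, mul_zero, zero_smul, add_zero, mul_one, hf1']
      simp only [map_add, map_smul, hηu, hκu, smul_eq_mul, mul_zero, mul_one, add_zero, zero_smul]
      module
  have hμ : (ζ⁻¹ * ζ⁻¹ : F) ≠ 1 := by
    rw [← mul_inv]
    intro h
    exact hζ2 (inv_eq_one.1 h)
  -- `lam` vanishes on `v1`
  have hl1 : lam v1 = 0 := by
    set u := u0 - θ u0 • w2 - η u0 • w1 with hu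
    have hθu : θ u = 0 := by
      rw [hu, map_sub, map_sub, map_smul, map_smul, hθ1, hθ2, smul_zero, sub_zero, smul_eq_mul,
        mul_one, sub_self]
    have hηu : η u = 0 := by
      rw [hu, map_sub, map_sub, map_smul, map_smul, hη1, hη2, smul_zero, sub_zero, smul_eq_mul,
        mul_one, sub_self]
    have hu' : u ≠ 0 := by
      intro h
      apply hu0
      have h1 : u0 = η u0 • w1 + θ u0 • w2 := by
        have h3 : u0 = u + (η u0 • w1 + θ u0 • w2) := by rw [hu]; abel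
        rw [h, zero_add] at h3
        exact h3
      rw [Submodule.mem_span_pair]
      exact ⟨_, _, h1.symm⟩
    obtain ⟨f, hf, hf1, hfθ, -⟩ := semi u hθu hηu hu'
    exact key f hf hf1 hfθ ζ hζ1 v1 (by rw [hv1, hθ1]) (by rw [hv1, hf1])
  -- `lam` vanishes on the kernel of `θ`
  have hlk : ∀ v, θ (π v) = 0 → lam v = 0 := by
    intro v hv
    set v' := v - η (π v) • v1 with hv'
    have h1 : π v' = π v - η (π v) • w1 := by rw [hv', map_sub, map_smul, hv1]
    have hθv' : θ (π v') = 0 := by rw [h1, map_sub, map_smul, hθ1, hv, smul_zero, sub_zero]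
    have hηv' : η (π v') = 0 := by
      rw [h1, map_sub, map_smul, hη1, smul_eq_mul, mul_one, sub_self]
    have h2 : lam v' = 0 := by
      by_cases h0 : π v' = 0
      · obtain ⟨k, hk⟩ := hπ0 v' h0
        rw [hk, map_smul, hlx, smul_zero]
      · obtain ⟨f, hf, hf1, hfθ, hfu⟩ := semi (π v') hθv' hηv' h0
        exact key f hf hf1 hfθ _ hμ v' hθv' hfu
    have h3 : v = v' + η (π v) • v1 := by rw [hv']; abel
    rw [h3, map_add, map_smul, h2, hl1, smul_zero, add_zero]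
  -- `lam` is a multiple of `θ`
  have hll : ∀ v, lam v = θ (π v) * lam v2 := by
    intro v
    have h1 : lam (v - θ (π v) • v2) = 0 := by
      refine hlk _ ?_
      rw [map_sub, map_smul, hv2, map_sub, map_smul, hθ2, smul_eq_mul, mul_one, sub_self]
    rw [map_sub, map_smul, smul_eq_mul, sub_eq_zero] at h1
    exact h1
  have hP : θ ∘ₗ π ∈ P H (v1 + lam v2 • x) := by
    refine ⟨t, htH, fun v => ?_⟩
    show t v = v + θ (π v) • (v1 + lam v2 • x)
    rw [htv, hll v]
    module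
  have hy : v1 + lam v2 • x ≠ 0 := by
    intro h
    have h1 : π (v1 + lam v2 • x) = 0 := by rw [h, map_zero]
    rw [map_add, map_smul, hπx, smul_zero, add_zero, hv1] at h1
    exact hw10 h1
  have h1 := hno _ hy _ hP
  have h2 : (θ ∘ₗ π) v2 = 0 := by rw [h1, LinearMap.zero_apply]
  rw [LinearMap.comp_apply, hv2, hθ2] at h2
  exact one_ne_zero h2

end SpreadPerm.LG
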