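import Mathlib
import Pool.Agent.Lib.MP_e6ed9e_al.LG.Defs

/-!
# Row GLE: Gleason's lemma on the transvections with a fixed axis
-/

namespace SpreadPerm.LG

open Module MulAction

section
variable {F V : Type} [Field F] [AddCommGroup V] [Module F V]

theorem gle79_arith (p f m e s : ℕ) (hp : p.Prime) (hm : 2 ≤ m) (he : 1 ≤ e)
    (hef : e ≤ f) (hes : e ≤ s)
    (h : ((p ^ f) ^ m - 1) * (p ^ e - 1) = (p ^ f - 1) * (p ^ s - 1)) : e = f := by
  by_contra hne
  have hef' : e < f := lt_of_le_of_ne hef hne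
  have hp2 : 2 ≤ p := hp.two_le
  have hp0 : 0 < p := by omega
  rcases Nat.eq_or_lt_of_le hes with hs | hs
  · subst hs
    have h1 : 0 < p ^ e - 1 := by
      have : p ^ 1 ≤ p ^ e := Nat.pow_le_pow_right hp0 he
      have h3 : p ^ 1 = p := pow_one p
      omega
    have h2 := Nat.eq_of_mul_eq_mul_right h1 h
    have h3 : 2 ≤ p ^ f := by
      have : p ^ 1 ≤ p ^ f := Nat.pow_le_pow_right hp0 (by omega)
      have h3 : p ^ 1 = p := pow_one p
      omega
    have h4 : (p ^ f) ^ 2 ≤ (p ^ f) ^ m := Nat.pow_le_pow_right (by omega) hm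
    have h5 : 2 * p ^ f ≤ (p ^ f) ^ 2 := by nlinarith
    omega
  · have a1 : 1 ≤ (p ^ f) ^ m := Nat.one_le_iff_ne_zero.2 (by positivity)
    have a2 : 1 ≤ p ^ e := Nat.one_le_iff_ne_zero.2 (by positivity)
    have a3 : 1 ≤ p ^ f := Nat.one_le_iff_ne_zero.2 (by positivity)
    have a4 : 1 ≤ p ^ s := Nat.one_le_iff_ne_zero.2 (by positivity)
    zify [a1, a2, a3, a4] at h
    have d1 : ((p : ℤ) ^ (e + 1)) ∣ (p : ℤ) ^ f := pow_dvd_pow _ hef'
    have d2 : ((p : ℤ) ^ (e + 1)) ∣ (p : ℤ) ^ s := pow_dvd_pow _ hs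
    have d3 : ((p : ℤ) ^ (e + 1)) ∣ ((p : ℤ) ^ f) ^ m := dvd_pow d1 (by omega)
    have key : (p : ℤ) ^ e = ((p : ℤ) ^ f) ^ m * (p : ℤ) ^ e - ((p : ℤ) ^ f) ^ m -
        (p : ℤ) ^ f * (p : ℤ) ^ s + (p : ℤ) ^ f + (p : ℤ) ^ s := by linarith
    have d4 : ((p : ℤ) ^ (e + 1)) ∣ (p : ℤ) ^ e := by
      have := (((d3.mul_right ((p : ℤ) ^ e)).sub d3).sub (d1.mul_right ((p : ℤ) ^ s))).add d1
      rw [key]
      exact this.add d2
    have d5 : p ^ (e + 1) ∣ p ^ e := by exact_mod_cast d4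
    have d6 := Nat.le_of_dvd (by positivity) d5
    have d7 : p ^ e < p ^ (e + 1) := Nat.pow_lt_pow_right hp.one_lt (by omega)
    omega

/-- The centers `w` of the hyperplane with `v ↦ v + μ(v) w` in `H`. -/
def gleW (H : Subgroup (V ≃ₗ[F] V)) (μ : V →ₗ[F] F) : AddSubgroup V where
  carrier := {w | μ w = 0 ∧ μ ∈ P H w}
  zero_mem' := ⟨map_zero _, 1, H.one_mem, fun v => by simp⟩
  add_mem' := by
    rintro w w' ⟨hw, g, hg, hg'⟩ ⟨hw', k, hk, hk'⟩
    refine ⟨by rw [map_add, hw, hw', add_zero], g * k, H.mul_mem hg hk, fun v => ?_⟩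
    show g (k v) = _
    rw [hk', hg', map_add, map_smul, hw', smul_zero, add_zero, smul_add]
    abel
  neg_mem' := by
    rintro w ⟨hw, g, hg, hg'⟩
    refine ⟨by rw [map_neg, hw, neg_zero], g⁻¹, H.inv_mem hg, fun v => ?_⟩
    show g.symm v = _
    rw [LinearEquiv.symm_apply_eq, hg', map_add, map_smul, map_neg, hw]
    simp

theorem mem_gleW (H : Subgroup (V ≃ₗ[F] V)) (μ : V →ₗ[F] F) (w : V) :
    w ∈ gleW H μ ↔ μ w = 0 ∧ μ ∈ P H w := Iff.rfl

/-- The scalars `a` with `a w` in `W`. -/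
def gleS (H : Subgroup (V ≃ₗ[F] V)) (μ : V →ₗ[F] F) (w : V) : AddSubgroup F :=
  (gleW H μ).comap (LinearMap.toSpanSingleton F V w).toAddMonoidHom

theorem mem_gleS (H : Subgroup (V ≃ₗ[F] V)) (μ : V →ₗ[F] F) (w : V) (a : F) :
    a ∈ gleS H μ w ↔ a • w ∈ gleW H μ := Iff.rfl

theorem gle79_cardne {G : Type} [AddGroup G] [Fintype G] [DecidableEq G] (S : AddSubgroup G)
    [DecidablePred (· ∈ S)] :
    (Finset.univ.filter (fun x : G => x ≠ 0 ∧ x ∈ S)).card = Nat.card S - 1 := by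
  have h1 : Finset.univ.filter (fun x : G => x ≠ 0 ∧ x ∈ S) =
      (Finset.univ.filter (fun x : G => x ∈ S)).erase 0 := by
    ext x
    simp
  rw [h1, Finset.card_erase_of_mem (by simp [S.zero_mem]), Nat.card_eq_fintype_card,
    Fintype.card_subtype]

theorem gle79_count [Finite F] [Finite V] (H : Subgroup (V ≃ₗ[F] V)) (μ : V →ₗ[F] F) (k : ℕ)
    (hk : ∀ w, w ≠ 0 → μ w = 0 → Nat.card (gleS H μ w) = k) :
    (Nat.card (LinearMap.ker μ) - 1) * (k - 1) =
      (Nat.card F - 1) * (Nat.card (gleW H μ) - 1) := by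
  classical
  haveI := Fintype.ofFinite F
  haveI := Fintype.ofFinite V
  set A : Finset V := Finset.univ.filter (fun w : V => w ≠ 0 ∧ w ∈ (LinearMap.ker μ).toAddSubgroup)
    with hA
  set B : Finset F := Finset.univ.filter (fun a : F => a ≠ 0 ∧ a ∈ (⊤ : AddSubgroup F)) with hB
  have cA : A.card = Nat.card (LinearMap.ker μ) - 1 := gle79_cardne (LinearMap.ker μ).toAddSubgroup
  have cB : B.card = Nat.card F - 1 := by
    rw [hB, gle79_cardne (⊤ : AddSubgroup F), AddSubgroup.card_top]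
  have hsum := Finset.sum_card_bipartiteAbove_eq_sum_card_bipartiteBelow
    (s := A) (t := B) (fun (w : V) (a : F) => a • w ∈ gleW H μ)
  have h1 : ∀ w ∈ A, (B.bipartiteAbove (fun (w : V) (a : F) => a • w ∈ gleW H μ) w).card =
      k - 1 := by
    intro w hw
    rw [hA, Finset.mem_filter] at hw
    rw [← hk w hw.2.1 hw.2.2, ← gle79_cardne (gleS H μ w)]
    congr 1
    ext a
    simp [Finset.bipartiteAbove, hB, mem_gleS]
  have h2 : ∀ a ∈ B, (A.bipartiteBelow (fun (w : V) (a : F) => a • w ∈ gleW H μ) a).card =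
      Nat.card (gleW H μ) - 1 := by
    intro a ha
    rw [hB, Finset.mem_filter] at ha
    have ha0 : a ≠ 0 := ha.2.1
    rw [← gle79_cardne (gleW H μ)]
    refine Finset.card_bij (fun w _ => a • w) ?_ ?_ ?_
    · intro w hw
      simp only [Finset.bipartiteBelow, hA, Finset.mem_filter, Finset.mem_univ, true_and] at hw ⊢
      exact ⟨smul_ne_zero ha0 hw.1.1, hw.2⟩
    · intro w _ w' _ hww
      exact smul_right_injective V ha0 hww
    · intro w hw
      simp only [Finset.mem_filter, Finset.mem_univ, true_and] at hw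
      refine ⟨a⁻¹ • w, ?_, ?_⟩
      · simp only [Finset.bipartiteBelow, hA, Finset.mem_filter, Finset.mem_univ, true_and]
        refine ⟨⟨smul_ne_zero (inv_ne_zero ha0) hw.1, ?_⟩, ?_⟩
        · show μ (a⁻¹ • w) = 0
          rw [map_smul, hw.2.1, smul_zero]
        · rw [smul_inv_smul₀ ha0]
          exact hw.2
      · rw [smul_inv_smul₀ ha0]
  rw [Finset.sum_congr rfl h1, Finset.sum_congr rfl h2, Finset.sum_const, Finset.sum_const,
    smul_eq_mul, smul_eq_mul, cA, cB] at hsum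
  exact hsum

theorem gle79_le [Finite F] (H : Subgroup (V ≃ₗ[F] V)) (μ : V →ₗ[F] F) (hμ : μ ≠ 0)
    (w w' : V) (hw' : μ w' = 0) (h : V ≃ₗ[F] V) (hh : h ∈ H) (a : F) (ha : a ≠ 0)
    (haw : h w = a • w') (b : F) (hb : ∀ v, μ (h v) = b * μ v) :
    Nat.card (gleS H μ w) ≤ Nat.card (gleS H μ w') := by
  have hb0 : b ≠ 0 := by
    rintro rfl
    apply hμ
    ext v
    have := hb (h.symm v)
    rw [LinearEquiv.apply_symm_apply, zero_mul] at this
    simpa using this
  have hb' : ∀ v, μ (h.symm v) = b⁻¹ * μ v := by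
    intro v
    have := hb (h.symm v)
    rw [LinearEquiv.apply_symm_apply] at this
    rw [this, inv_mul_cancel_left₀ hb0]
  have key : ∀ c : F, c ∈ gleS H μ w → b⁻¹ * a * c ∈ gleS H μ w' := by
    rintro c ⟨-, g, hg, hg'⟩
    refine ⟨?_, h * g * h⁻¹, H.mul_mem (H.mul_mem hh hg) (H.inv_mem hh), fun v => ?_⟩
    · show μ ((b⁻¹ * a * c) • w') = 0
      rw [map_smul, hw', smul_zero]
    · show h (g (h.symm v)) = v + μ v • ((b⁻¹ * a * c) • w')
      have h1 : g (h.symm v) = h.symm v + μ (h.symm v) • (c • w) := hg' _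
      rw [h1, map_add, LinearEquiv.apply_symm_apply, map_smul, map_smul, haw, hb', smul_smul,
        smul_smul, smul_smul]
      congr 2
      ring
  refine Nat.card_le_card_of_injective (fun c : gleS H μ w => (⟨b⁻¹ * a * c.1, key c.1 c.2⟩ :
    gleS H μ w')) ?_
  intro c c' hcc
  have h2 : b⁻¹ * a * c.1 = b⁻¹ * a * c'.1 := congrArg Subtype.val hcc
  exact Subtype.ext (mul_left_cancel₀ (mul_ne_zero (inv_ne_zero hb0) ha) h2)

end

theorem gle79 : StGle := by
  intro F V _ _ _ _ _ H μ hn hμ h1 h2 w hw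
  classical
  by_cases hw0 : w = 0
  · subst hw0
    exact ⟨1, H.one_mem, fun v => by simp⟩
  haveI := Fintype.ofFinite F
  haveI : Module.Finite F V := Module.Finite.of_finite
  have hcard : ∀ u, u ≠ 0 → μ u = 0 → Nat.card (gleS H μ u) = Nat.card (gleS H μ w) := by
    intro u hu hu'
    obtain ⟨h, hh, ⟨a, ha, hau⟩, b, hb⟩ := h2 u w hu hw0 hu' hw
    obtain ⟨h', hh', ⟨a', ha', hau'⟩, b', hb'⟩ := h2 w u hw0 hu hw hu'
    exact le_antisymm (gle79_le H μ hμ u w hw h hh a ha hau b hb)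
      (gle79_le H μ hμ w u hu' h' hh' a' ha' hau' b' hb')
  have hc := gle79_count H μ _ hcard
  -- dimension of the kernel
  have hker : finrank F (LinearMap.ker μ) + 1 = finrank F V :=
    Module.Dual.finrank_ker_add_one_of_ne_zero hμ
  have hkc : Nat.card (LinearMap.ker μ) = Nat.card F ^ finrank F (LinearMap.ker μ) :=
    Module.natCard_eq_pow_finrank
  obtain ⟨p, hpc⟩ := CharP.exists F
  obtain ⟨f, hp, hf⟩ := FiniteField.card F p
  have hF : Nat.card F = p ^ (f : ℕ) := by rw [Nat.card_eq_fintype_card, hf]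
  have hSd : Nat.card (gleS H μ w) ∣ Nat.card F := AddSubgroup.card_addSubgroup_dvd_card _
  have hWd : Nat.card (gleW H μ) ∣ Nat.card (LinearMap.ker μ) := by
    have : gleW H μ ≤ (LinearMap.ker μ).toAddSubgroup := fun x hx => hx.1
    exact AddSubgroup.card_dvd_of_le this
  rw [hF] at hSd
  rw [hkc, hF, ← pow_mul] at hWd
  obtain ⟨e, hef, he⟩ := (Nat.dvd_prime_pow hp).1 hSd
  obtain ⟨s, -, hs⟩ := (Nat.dvd_prime_pow hp).1 hWd
  -- S is not trivial
  have he1 : 1 ≤ e := by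
    by_contra h0
    have h0' : e = 0 := by omega
    rw [h0', pow_zero] at he
    obtain ⟨a, ha, hau, -⟩ := h1 w hw0 hw
    obtain ⟨g, hg, hg'⟩ := hau
    have hmem : a ∈ gleS H μ w := by
      refine ⟨?_, g, hg, fun v => ?_⟩
      · show μ (a • w) = 0
        rw [map_smul, hw, smul_zero]
      · show g v = v + μ v • (a • w)
        rw [hg' v, LinearMap.smul_apply, smul_eq_mul, smul_smul, mul_comm]
    haveI := (Nat.card_eq_one_iff_unique.1 he).1
    have := Subsingleton.elim (⟨a, hmem⟩ : gleS H μ w) ⟨0, (gleS H μ w).zero_mem⟩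
    exact ha (congrArg Subtype.val this)
  have hes : e ≤ s := by
    have hle : Nat.card (gleS H μ w) ≤ Nat.card (gleW H μ) := by
      refine Nat.card_le_card_of_injective (fun c : gleS H μ w => (⟨c.1 • w, c.2⟩ : gleW H μ)) ?_
      intro c c' hcc
      have h3 : c.1 • w = c'.1 • w := congrArg Subtype.val hcc
      exact Subtype.ext (smul_left_injective F hw0 h3)
    rw [he, hs] at hle
    exact (Nat.pow_le_pow_iff_right hp.one_lt).1 hle
  rw [hkc, he, hs, hF] at hc
  have hfin := gle79_arith p f (finrank F (LinearMap.ker μ)) e s hp (by omega) he1 hef hes hc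
  have htop : gleS H μ w = ⊤ := by
    apply AddSubgroup.eq_top_of_card_eq
    rw [he, hF, hfin]
  have h1m : (1 : F) ∈ gleS H μ w := by rw [htop]; trivial
  have h1m' := h1m.2
  have h1s : (LinearMap.toSpanSingleton F V w).toAddMonoidHom 1 = w := by
    show (1 : F) • w = w
    exact one_smul F w
  rw [h1s] at h1m'
  exact h1m'

end SpreadPerm.LG
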