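import Pool.Agent.Lib.MP_e6ed9e_al.LG.Defs2

/-! # Row GEN: the transvections generate `SL(V)` -/

namespace SpreadPerm.LG

open Module MulAction

namespace G35

section
variable {F V : Type} [Field F] [AddCommGroup V] [Module F V]

theorem exists_fun (W : Submodule F V) {v : V} (hv : v ∉ W) :
    ∃ φ : V →ₗ[F] F, (∀ w ∈ W, φ w = 0) ∧ φ v = 1 := by
  obtain ⟨f, hf, hW⟩ := Submodule.exists_dual_map_eq_bot_of_notMem hv inferInstance
  refine ⟨(f v)⁻¹ • f, fun w hw => ?_, ?_⟩
  · have h1 : f w ∈ W.map f := ⟨w, hw, rfl⟩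
    rw [hW, Submodule.mem_bot] at h1
    rw [LinearMap.smul_apply, h1, smul_zero]
  · rw [LinearMap.smul_apply, smul_eq_mul, inv_mul_cancel₀ hf]

theorem exists_fun2 (W : Submodule F V) {p r : V} (hp : p ∉ W) (hr : r ∉ W ⊔ (F ∙ p)) :
    ∃ φ : V →ₗ[F] F, (∀ w ∈ W, φ w = 0) ∧ φ p = 1 ∧ φ r = 1 := by
  obtain ⟨f, hf, hf1⟩ := exists_fun W hp
  obtain ⟨g, hg, hg1⟩ := exists_fun _ hr
  refine ⟨f + (1 - f r) • g, fun w hw => ?_, ?_, ?_⟩
  · rw [LinearMap.add_apply, LinearMap.smul_apply, hf w hw, hg w (Submodule.mem_sup_left hw)]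
    simp
  · rw [LinearMap.add_apply, LinearMap.smul_apply, hf1,
      hg p (Submodule.mem_sup_right (Submodule.mem_span_singleton_self p))]
    simp
  · rw [LinearMap.add_apply, LinearMap.smul_apply, hg1]
    simp

/-- The closure of the transvections. -/
def S (F V : Type) [Field F] [AddCommGroup V] [Module F V] : Subgroup (V ≃ₗ[F] V) :=
  Subgroup.closure {t : V ≃ₗ[F] V | ∃ (x : V) (φ : V →ₗ[F] F), φ x = 0 ∧ ∀ v, t v = v + φ v • x}

/-- Move `p` to `r` by a transvection which fixes `W` pointwise. -/
theorem move (W : Submodule F V) {p r : V} (hp : p ∉ W) (hr : r ∉ W ⊔ (F ∙ p)) :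
    ∃ t ∈ S F V, (∀ w ∈ W, t w = w) ∧ t p = r := by
  obtain ⟨φ, h1, h2, h3⟩ := exists_fun2 W hp hr
  have h0 : φ (r - p) = 0 := by rw [map_sub, h2, h3, sub_self]
  refine ⟨LinearEquiv.transvection h0, Subgroup.subset_closure
    ⟨r - p, φ, h0, fun v => LinearEquiv.transvection.apply h0 v⟩, fun w hw => ?_, ?_⟩
  · rw [LinearEquiv.transvection.apply, h1 w hw, zero_smul, add_zero]
  · rw [LinearEquiv.transvection.apply, h2, one_smul, add_sub_cancel]

theorem exists_out {A B : Submodule F V} (hA : A ≠ ⊤) (hB : B ≠ ⊤) : ∃ u, u ∉ A ∧ u ∉ B := by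
  obtain ⟨x, hx⟩ := SetLike.exists_not_mem_of_ne_top A hA
  obtain ⟨y, hy⟩ := SetLike.exists_not_mem_of_ne_top B hB
  by_cases h1 : x ∈ B
  · by_cases h2 : y ∈ A
    · refine ⟨x + y, fun h => hx ?_, fun h => hy ?_⟩
      · have := A.sub_mem h h2
        rwa [add_sub_cancel_right] at this
      · have := B.sub_mem h h1
        rwa [add_sub_cancel_left] at this
    · exact ⟨y, h2, hy⟩
  · exact ⟨x, hx, h1⟩

theorem S_det {g : V ≃ₗ[F] V} [Module.Finite F V] (hg : g ∈ S F V) : LinearEquiv.det g = 1 := by
  have h1 : S F V ≤ (LinearEquiv.det (R := F) (M := V)).ker := by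
    rw [S, Subgroup.closure_le]
    rintro t ⟨x, φ, h0, ht⟩
    show LinearEquiv.det t = 1
    have h2 : t = LinearEquiv.transvection h0 := by
      ext v
      rw [ht, LinearEquiv.transvection.apply]
    rw [h2]
    exact LinearEquiv.transvection.det_eq_one h0
  exact h1 hg

/-- The fixed subspace. -/
def fix (g : V ≃ₗ[F] V) : Submodule F V := LinearMap.eqLocus (g : V →ₗ[F] V) LinearMap.id

theorem mem_fix {g : V ≃ₗ[F] V} {v : V} : v ∈ fix g ↔ g v = v := Iff.rfl

theorem main [Module.Finite F V] : ∀ (m : ℕ) (g : V ≃ₗ[F] V), LinearEquiv.det g = 1 →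
    finrank F V ≤ finrank F (fix g) + m → g ∈ S F V := by
  intro m
  induction m using Nat.strong_induction_on with
  | _ m ih =>
  intro g hg hm
  rcases Nat.lt_or_ge m 2 with hm2 | hm2
  · -- codimension at most one
    by_cases htop : fix g = ⊤
    · have : g = 1 := by
        ext v
        have : v ∈ fix g := by rw [htop]; trivial
        exact this
      rw [this]
      exact (S F V).one_mem
    · obtain ⟨v, hv⟩ := SetLike.exists_not_mem_of_ne_top _ htop
      obtain ⟨φ, h1, h2⟩ := exists_fun _ hv
      have h3 : fix g = LinearMap.ker φ := by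
        have h4 : fix g ≤ LinearMap.ker φ := fun w hw => h1 w hw
        apply Submodule.eq_of_le_of_finrank_le h4
        have h5 : finrank F (LinearMap.ker φ) < finrank F V := by
          apply Submodule.finrank_lt
          intro h
          have : v ∈ LinearMap.ker φ := by rw [h]; trivial
          rw [LinearMap.mem_ker, h2] at this
          exact one_ne_zero this
        omega
      have h4 : ∀ w, g w = w + φ w • (g v - v) := by
        intro w
        have h5 : w - φ w • v ∈ fix g := by
          rw [h3, LinearMap.mem_ker, map_sub, map_smul, h2, smul_eq_mul, mul_one, sub_self]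
        have h6 : g (w - φ w • v) = w - φ w • v := h5
        rw [map_sub, map_smul] at h6
        rw [smul_sub]
        have h7 := sub_eq_iff_eq_add.1 h6
        rw [h7]
        abel
      have h5 : (g : V →ₗ[F] V) = LinearMap.transvection φ (g v - v) := by
        ext w
        rw [LinearMap.transvection.apply]
        exact h4 w
      have h6 : LinearMap.det (g : V →ₗ[F] V) = 1 := by
        rw [← LinearEquiv.coe_det, hg]; rfl
      rw [h5, LinearMap.transvection.det] at h6
      have h7 : φ (g v - v) = 0 := by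
        have := h6
        linear_combination this
      exact Subgroup.subset_closure ⟨g v - v, φ, h7, h4⟩
  · by_cases hle : finrank F V ≤ finrank F (fix g) + 1
    · exact ih 1 (by omega) g hg hle
    push Not at hle
    have htop : fix g ≠ ⊤ := by
      intro h
      rw [h, finrank_top] at hle
      omega
    obtain ⟨v, hv⟩ := SetLike.exists_not_mem_of_ne_top _ htop
    have hgv : g v ∉ fix g := by
      intro h
      apply hv
      have h1 : g (g v) = g v := h
      exact g.injective h1
    have hne : ∀ p : V, fix g ⊔ (F ∙ p) ≠ ⊤ := by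
      intro p h
      have h1 := Submodule.finrank_add_le_finrank_add_finrank (fix g) (F ∙ p)
      rw [h, finrank_top] at h1
      have h2 : finrank F (F ∙ p) ≤ 1 := by
        have := finrank_span_le_card (R := F) ({p} : Set V)
        simpa using this
      omega
    obtain ⟨u, hu1, hu2⟩ := exists_out (hne (g v)) (hne v)
    obtain ⟨t1, ht1, ht1f, ht1v⟩ := move (fix g) hgv hu1
    have hu3 : u ∉ fix g := fun h => hu1 (Submodule.mem_sup_left h)
    have hv3 : v ∉ fix g ⊔ (F ∙ u) := by
      intro h
      rw [Submodule.mem_sup] at h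
      obtain ⟨w, hw, z, hz, hwz⟩ := h
      obtain ⟨a, rfl⟩ := Submodule.mem_span_singleton.1 hz
      by_cases ha : a = 0
      · rw [ha, zero_smul, add_zero] at hwz
        exact hv (hwz ▸ hw)
      · apply hu2
        rw [Submodule.mem_sup]
        refine ⟨-(a⁻¹ • w), Submodule.neg_mem _ (Submodule.smul_mem _ _ hw), a⁻¹ • v,
          Submodule.smul_mem _ _ (Submodule.mem_span_singleton_self v), ?_⟩
        rw [← hwz, smul_add, smul_smul, inv_mul_cancel₀ ha, one_smul]
        abel
    obtain ⟨t2, ht2, ht2f, ht2v⟩ := move (fix g) hu3 hv3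
    have h1 : fix g ⊔ (F ∙ v) ≤ fix (t2 * t1 * g) := by
      rw [sup_le_iff]
      constructor
      · intro w hw
        show t2 (t1 (g w)) = w
        rw [mem_fix.1 hw, ht1f w hw, ht2f w hw]
      · rw [Submodule.span_singleton_le_iff_mem]
        show t2 (t1 (g v)) = v
        rw [ht1v, ht2v]
    have h2 : finrank F (fix g) < finrank F (fix (t2 * t1 * g)) := by
      apply Submodule.finrank_lt_finrank_of_lt
      refine lt_of_le_of_ne (le_sup_left.trans h1) ?_
      intro h
      apply hv
      rw [h]
      exact h1 (Submodule.mem_sup_right (Submodule.mem_span_singleton_self v))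
    have h3 := ih (m - 1) (by omega) (t2 * t1 * g)
      (by rw [map_mul, map_mul, S_det ht1, S_det ht2, hg, one_mul, one_mul]) (by omega)
    have h4 : g = (t2 * t1)⁻¹ * (t2 * t1 * g) := by group
    rw [h4]
    exact (S F V).mul_mem ((S F V).inv_mem ((S F V).mul_mem ht2 ht1)) h3

end

end G35

/-- Row GEN. -/
theorem gen35 : StGen := by
  intro F V _ _ _ _ _ _ g hg
  haveI : Module.Finite F V := Module.Finite.of_finite
  exact G35.main (finrank F V) g hg (by omega)

end SpreadPerm.LG
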