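import Pool.Agent.Lib.MP_e6ed9e_al.LG.Basic47

/-!
# Row HOM
-/

namespace SpreadPerm.LG

open Module MulAction

theorem hom47 (pol : StPol) : StHom := by
  intro F V _ _ _ _ _ hn H htr hE
  by_contra hcon
  push Not at hcon
  obtain ⟨x0, hx0, φ0, hφ0, hne⟩ := hcon
  have hP : ∀ x : V, ∃ μ : V →ₗ[F] F, x ≠ 0 → μ ∈ P H x ∧ μ ≠ 0 := by
    intro x
    by_cases hx : x = 0
    · exact ⟨0, fun h => absurd hx h⟩
    obtain ⟨h, hh, a, ha⟩ := htr x0 x hx0 hx
    have ha0 : a ≠ 0 := by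
      rintro rfl
      rw [zero_smul] at ha
      exact hx0 ((LinearEquiv.map_eq_zero_iff h).1 ha)
    have h1 := P_conj hh hφ0
    rw [ha] at h1
    refine ⟨a • (φ0 ∘ₗ (h⁻¹ : V ≃ₗ[F] V).toLinearMap), fun _ => ⟨(P_smul ha0).2 h1, ?_⟩⟩
    intro h2
    apply hne
    ext v
    have h3 := LinearMap.congr_fun h2 (h v)
    simp only [LinearMap.smul_apply, LinearMap.comp_apply, LinearMap.zero_apply, smul_eq_mul] at h3
    rcases mul_eq_zero.1 h3 with h4 | h4
    · exact absurd h4 ha0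
    · have h5 : (h⁻¹ : V ≃ₗ[F] V).toLinearMap (h v) = v := inv_app h v
      rw [h5] at h4
      exact h4
  choose μ hμ using hP
  have hself : ∀ x, x ≠ 0 → μ x x ≠ 0 := by
    intro x hx h0
    exact (hμ x hx).2 (hE x hx _ ⟨(hμ x hx).1, h0⟩)
  apply pol F V hn μ hself
  intro x y hx hy hxy
  obtain ⟨g, hg, hgμ⟩ := (hμ x hx).1
  have hgy : g y = y := by rw [hgμ, hxy, zero_smul, add_zero]
  have hgy' : g⁻¹ y = y := by
    conv_lhs => rw [← hgy]
    exact inv_app g y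
  have h1 := P_conj hg (hμ y hy).1
  rw [hgy] at h1
  have h2 := P_prop hy (hE y hy) (hμ y hy).1 h1
  have h3 : (μ y ∘ₗ (g⁻¹ : V ≃ₗ[F] V).toLinearMap) y = μ y y := congrArg (μ y) hgy'
  rw [h3] at h2
  have h4 := smul_right_injective _ (hself y hy) h2
  have h5 := LinearMap.congr_fun h4 (g x)
  have h6 : (μ y ∘ₗ (g⁻¹ : V ≃ₗ[F] V).toLinearMap) (g x) = μ y x := congrArg (μ y) (inv_app g x)
  rw [h6, hgμ, map_add, map_smul, smul_eq_mul] at h5
  have h7 : μ x x * μ y x = 0 := by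
    have : μ y x + 0 = μ y x + μ x x * μ y x := by rw [add_zero]; exact h5
    exact (add_left_cancel this).symm
  exact (mul_eq_zero.1 h7).resolve_left (hself x hx)

end SpreadPerm.LG
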