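import Pool.Agent.Lib.MP_e6ed9e_al.LG.Defs

/-!
# Row HY2: the stabilizer of a hyperplane
-/

namespace SpreadPerm.LG

open Module MulAction

section
variable {F V : Type} [Field F] [AddCommGroup V] [Module F V]

/-- A functional outside the span of two others does not vanish on their common kernel. -/
theorem exists_vec56 [FiniteDimensional F V] (f g k : V →ₗ[F] F)
    (h : ∀ a b : F, k ≠ a • f + b • g) : ∃ x, f x = 0 ∧ g x = 0 ∧ k x ≠ 0 := by
  by_contra hcon
  push Not at hcon
  have hk : k ∈ Submodule.span F (Set.range ![f, g]) := by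
    apply mem_span_of_iInf_ker_le_ker
    intro x hx
    rw [Submodule.mem_iInf] at hx
    have h0 := hx 0
    have h1 := hx 1
    rw [LinearMap.mem_ker] at h0 h1 ⊢
    exact hcon x h0 h1
  rw [Matrix.range_cons_cons_empty, Submodule.mem_span_pair] at hk
  obtain ⟨a, b, hab⟩ := hk
  exact h a b hab.symm

/-- `SL` is transitive on the hyperplanes different from a given one. -/
theorem exists_sl56 [FiniteDimensional F V] (μ ν ν' : V →ₗ[F] F)
    (h : ∀ a : F, ν ≠ a • μ) (h' : ∀ a : F, ν' ≠ a • μ) :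
    ∃ (t : V ≃ₗ[F] V) (a : F), LinearEquiv.det t = 1 ∧ a ≠ 0 ∧ (∀ v, μ (t v) = μ v) ∧
      ∀ v, a * ν' (t v) = ν v := by
  obtain ⟨a, x, ha, hx, hνx, hνx'⟩ : ∃ (a : F) (x : V), a ≠ 0 ∧ μ x = 0 ∧ ν x - a * ν' x = 0 ∧
      ν' x ≠ 0 := by
    by_cases hdep : ∃ b c : F, ν = b • μ + c • ν'
    · obtain ⟨b, c, hbc⟩ := hdep
      obtain ⟨x, hx, -, hx'⟩ := exists_vec56 μ 0 ν' (fun a b => by
        rw [smul_zero, add_zero]
        exact h' a)
      refine ⟨c, x, ?_, hx, ?_, hx'⟩
      · rintro rfl
        rw [zero_smul, add_zero] at hbc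
        exact h b hbc
      · rw [hbc]
        simp [hx]
    · push Not at hdep
      obtain ⟨x, hx, hx1, hx'⟩ := exists_vec56 μ (ν - ν') ν' (fun a b hab => by
        by_cases hb : b = 0
        · rw [hb, zero_smul, add_zero] at hab
          exact h' a hab
        · apply hdep (-(b⁻¹ * a)) (b⁻¹ * (1 + b))
          have h1 : b • ν = -(a • μ) + (1 + b) • ν' := by
            linear_combination (norm := module) (-1 : F) • hab
          rw [← inv_smul_smul₀ hb ν, h1]
          module)
      refine ⟨1, x, one_ne_zero, hx, ?_, hx'⟩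
      rw [one_mul]
      simpa using hx1
  set φ : V →ₗ[F] F := (a * ν' x)⁻¹ • (ν - a • ν') with hφ
  have hφx : φ x = 0 := by
    rw [hφ, LinearMap.smul_apply, LinearMap.sub_apply, LinearMap.smul_apply, smul_eq_mul a, hνx,
      smul_zero]
  refine ⟨LinearEquiv.transvection hφx, a, LinearEquiv.transvection.det_eq_one hφx, ha, ?_, ?_⟩
  · intro v
    rw [LinearEquiv.transvection.apply, map_add, map_smul, hx, smul_zero, add_zero]
  · intro v
    rw [LinearEquiv.transvection.apply, map_add, map_smul, hφ, LinearMap.smul_apply,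
      LinearMap.sub_apply, LinearMap.smul_apply]
    simp only [smul_eq_mul]
    field_simp
    ring

end

theorem hy2_56 : StHy2 := by
  intro F V Ω _ _ _ _ _ _ Γ _ _ hA hdim ω hco ⟨μ, hμ, hstab⟩
  have hsub : ∀ g : Γ, (∃ c : F, ∀ v, μ (g.1 v) = c * μ v) → g • ω = ω := by
    let M : Subgroup Γ :=
      { carrier := {g | ∃ c : F, ∀ v, μ (g.1 v) = c * μ v}
        one_mem' := ⟨1, fun v => by
          rw [Subgroup.coe_one, one_mul]
          rfl⟩
        mul_mem' := by
          rintro g h ⟨c, hc⟩ ⟨d, hd⟩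
          refine ⟨c * d, fun v => ?_⟩
          rw [Subgroup.coe_mul]
          show μ (g.1 (h.1 v)) = _
          rw [hc, hd, mul_assoc]
        inv_mem' := by
          rintro g ⟨c, hc⟩
          have hc0 : c ≠ 0 := by
            rintro rfl
            apply hμ
            ext v
            have h1 := hc (g.1.symm v)
            rw [LinearEquiv.apply_symm_apply, zero_mul] at h1
            rw [h1]
            rfl
          refine ⟨c⁻¹, fun v => ?_⟩
          have h1 := hc (g.1.symm v)
          rw [LinearEquiv.apply_symm_apply] at h1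
          rw [Subgroup.coe_inv]
          show μ (g.1.symm v) = _
          rw [h1, inv_mul_cancel_left₀ hc0] }
    have hle : stabilizer Γ ω ≤ M := fun g hg => hstab g hg
    have hM : M ≠ ⊤ := by
      intro htop
      obtain ⟨x, hx⟩ : ∃ x, μ x ≠ 0 := by
        by_contra hcon
        push Not at hcon
        exact hμ (LinearMap.ext hcon)
      obtain ⟨φ, hφ, hφx⟩ := Submodule.exists_le_ker_of_lt_top (F ∙ x) (by
        rw [lt_top_iff_ne_top]
        intro h1
        have h2 := finrank_span_le_card (R := F) ({x} : Set V)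
        rw [h1, finrank_top] at h2
        simp at h2
        omega)
      have hφx' : φ x = 0 := by
        have h1 := hφx (Submodule.mem_span_singleton_self x)
        rwa [LinearMap.mem_ker] at h1
      have h3 : (⟨LinearEquiv.transvection hφx',
          hA.sl _ (LinearEquiv.transvection.det_eq_one hφx')⟩ : Γ) ∈ M := by
        rw [htop]
        exact Subgroup.mem_top _
      obtain ⟨c, hc⟩ := h3
      have hc' : ∀ v, μ (v + φ v • x) = c * μ v := hc
      have h4 := hc' x
      rw [hφx', zero_smul, add_zero] at h4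
      have h5 : c = 1 := by
        have h6 : (1 : F) * μ x = c * μ x := by rw [one_mul]; exact h4
        exact (mul_right_cancel₀ hx h6).symm
      apply hφ
      ext v
      have h7 := hc' v
      rw [h5, one_mul, map_add, map_smul, smul_eq_mul, add_eq_left] at h7
      rcases mul_eq_zero.1 h7 with h8 | h8
      · rw [h8]
        rfl
      · exact absurd h8 hx
    have hEq : stabilizer Γ ω = M := by
      rcases hco.le_iff.1 hle with h | h
      · exact absurd h hM
      · exact h.symm
    intro g hg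
    have : g ∈ stabilizer Γ ω := by
      rw [hEq]
      exact hg
    exact this
  have key : ∀ g h : Γ, (∃ c : F, ∀ v, μ (g.1.symm v) = c * μ (h.1.symm v)) → g • ω = h • ω := by
    rintro g h ⟨c, hc⟩
    have hc0 : c ≠ 0 := by
      rintro rfl
      apply hμ
      ext v
      have h1 := hc (g.1 v)
      rw [LinearEquiv.symm_apply_apply, zero_mul] at h1
      rw [h1]
      rfl
    have h1 := hsub (h⁻¹ * g) ⟨c⁻¹, fun v => by
      have h2 := hc (g.1 v)
      rw [LinearEquiv.symm_apply_apply] at h2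
      rw [Subgroup.coe_mul, Subgroup.coe_inv]
      show μ (h.1.symm (g.1 v)) = _
      rw [h2, inv_mul_cancel_left₀ hc0]⟩
    rw [mul_smul, inv_smul_eq_iff] at h1
    exact h1
  have hnm : ∀ p : Γ, p • ω ≠ ω → ∀ a : F, μ ∘ₗ (p.1.symm : V →ₗ[F] V) ≠ a • μ := by
    intro p hp a ha
    apply hp
    have h1 := key p 1 ⟨a, fun v => by
      have h2 := LinearMap.congr_fun ha v
      rw [LinearMap.comp_apply] at h2
      exact h2⟩
    rw [one_smul] at h1
    exact h1
  rw [is_two_pretransitive_iff]
  intro a b c d hab hcd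
  obtain ⟨g₁, rfl⟩ := exists_smul_eq Γ ω a
  obtain ⟨g₂, rfl⟩ := exists_smul_eq Γ ω b
  obtain ⟨g₃, rfl⟩ := exists_smul_eq Γ ω c
  obtain ⟨g₄, rfl⟩ := exists_smul_eq Γ ω d
  have hp : (g₁⁻¹ * g₂) • ω ≠ ω := by
    intro h
    rw [mul_smul, inv_smul_eq_iff] at h
    exact hab h.symm
  have hr : (g₃⁻¹ * g₄) • ω ≠ ω := by
    intro h
    rw [mul_smul, inv_smul_eq_iff] at h
    exact hcd h.symm
  obtain ⟨t, e, ht, he, ht1, ht2⟩ := exists_sl56 μ _ _ (hnm _ hp) (hnm _ hr)
  set s : Γ := ⟨t, hA.sl t ht⟩ with hs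
  have hsω : s • ω = ω := hsub s ⟨1, fun v => by rw [one_mul]; exact ht1 v⟩
  have hsp : (s * (g₁⁻¹ * g₂)) • ω = (g₃⁻¹ * g₄) • ω := by
    apply key
    refine ⟨e, fun v => ?_⟩
    have h1 := ht2 (t.symm v)
    rw [LinearEquiv.apply_symm_apply] at h1
    exact h1.symm
  refine ⟨g₃ * s * g₁⁻¹, ?_, ?_⟩
  · rw [smul_smul, mul_assoc, inv_mul_cancel, mul_one, mul_smul, hsω]
  · rw [smul_smul]
    have h1 : g₃ * s * g₁⁻¹ * g₂ = g₃ * (s * (g₁⁻¹ * g₂)) := by group
    rw [h1, mul_smul, hsp, smul_smul, mul_inv_cancel_left]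

end SpreadPerm.LG
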