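import Pool.Agent.Lib.MP_e6ed9e_al.LG.Defs

/-!
# MP_e6ed9e : LG, row LOC3
-/

namespace SpreadPerm.LG.Loc3

open Module SpreadPerm.LG

noncomputable section

variable {F V : Type} [Field F] [AddCommGroup V] [Module F V]

/-- `g v = v + ψ(v) z + φ(v) y` with `ψ` zero on `y` and `z`. -/
def Par (y z : V) (g : V ≃ₗ[F] V) (φ ψ : V →ₗ[F] F) : Prop :=
  ψ y = 0 ∧ ψ z = 0 ∧ ∀ v, g v = v + ψ v • z + φ v • y

theorem par_mul {y z : V} {g g' : V ≃ₗ[F] V} {φ ψ φ' ψ' : V →ₗ[F] F} (h : Par y z g φ ψ)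
    (h' : Par y z g' φ' ψ') :
    Par y z (g * g') (φ' + φ + φ z • ψ' + φ y • φ') (ψ + ψ') := by
  obtain ⟨h1, h2, h3⟩ := h
  obtain ⟨h1', h2', h3'⟩ := h'
  refine ⟨by simp [h1, h1'], by simp [h2, h2'], fun v => ?_⟩
  show g (g' v) = _
  rw [h3', h3]
  simp only [map_add, map_smul, LinearMap.add_apply, LinearMap.smul_apply, smul_eq_mul, h1, h2]
  module

theorem par_ne {y z : V} {g : V ≃ₗ[F] V} {φ ψ : V →ₗ[F] F} (h : Par y z g φ ψ) (hy : y ≠ 0) :
    1 + φ y ≠ 0 := by
  intro h0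
  apply hy
  apply (LinearEquiv.map_eq_zero_iff g).1
  rw [h.2.2, h.1]
  have : y + (0 : F) • z + φ y • y = (1 + φ y) • y := by module
  rw [this, h0, zero_smul]

/-- The map with given parameters. -/
theorem exists_par {y z : V} {φ ψ : V →ₗ[F] F} (h1 : ψ y = 0) (h2 : ψ z = 0)
    (hy : 1 + φ y ≠ 0) : ∃ g : V ≃ₗ[F] V, Par y z g φ ψ := by
  have e : (1 + φ y)⁻¹ * (1 + φ y) = 1 := inv_mul_cancel₀ hy
  refine ⟨LinearEquiv.ofLinearMap (LinearMap.id + ψ.smulRight z + φ.smulRight y)
    (LinearMap.id - ψ.smulRight z + (-(1 + φ y)⁻¹ • (φ - φ z • ψ)).smulRight y) ?_ ?_,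
    h1, h2, fun v => rfl⟩
  · ext v
    simp only [LinearMap.comp_apply, LinearMap.add_apply, LinearMap.sub_apply, LinearMap.id_apply,
      LinearMap.smulRight_apply, map_add, map_sub, map_smul, LinearMap.smul_apply, smul_eq_mul,
      h1, h2]
    set a : F := -(1 + φ y)⁻¹ * (φ v - φ z * ψ v) with ha
    have h0 : a * (1 + φ y) + (φ v - φ z * ψ v) = 0 := by
      rw [ha]
      linear_combination -(φ v - φ z * ψ v) * e
    calc _ = v + (a * (1 + φ y) + (φ v - φ z * ψ v)) • y := by module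
      _ = v := by rw [h0, zero_smul, add_zero]
  · ext v
    simp only [LinearMap.comp_apply, LinearMap.add_apply, LinearMap.sub_apply, LinearMap.id_apply,
      LinearMap.smulRight_apply, map_add, map_smul, LinearMap.smul_apply, smul_eq_mul,
      h1, h2]
    generalize hb : (1 + φ y)⁻¹ = b at *
    have h0 : φ v + -b * (φ v - φ z * ψ v) + ψ v * (-b * (φ z - φ z * 0)) +
        φ v * (-b * (φ y - φ z * 0)) = 0 := by
      linear_combination -φ v * e
    calc _ = v + (φ v + -b * (φ v - φ z * ψ v) + ψ v * (-b * (φ z - φ z * 0)) +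
          φ v * (-b * (φ y - φ z * 0))) • y := by module
      _ = v := by rw [h0, zero_smul, add_zero]

theorem par_unique {y z : V} {g : V ≃ₗ[F] V} {φ ψ φ' ψ' : V →ₗ[F] F} (μ : V →ₗ[F] F)
    (hμy : μ y ≠ 0) (hμz : μ z = 0) (hz : z ≠ 0) (h : Par y z g φ ψ) (h' : Par y z g φ' ψ') :
    φ = φ' ∧ ψ = ψ' := by
  have key : ∀ v, φ v = φ' v ∧ ψ v = ψ' v := by
    intro v
    have h1 := h.2.2 v
    rw [h'.2.2 v] at h1
    have h2 : (ψ v - ψ' v) • z + (φ v - φ' v) • y = 0 := by
      have : (ψ v - ψ' v) • z + (φ v - φ' v) • y =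
        (v + ψ v • z + φ v • y) - (v + ψ' v • z + φ' v • y) := by module
      rw [this, h1, sub_self]
    have h3 : φ v - φ' v = 0 := by
      have := congrArg μ h2
      rw [map_add, map_smul, map_smul, hμz, smul_zero, zero_add, map_zero, smul_eq_mul] at this
      exact (mul_eq_zero.1 this).resolve_right hμy
    rw [h3, zero_smul, add_zero] at h2
    exact ⟨sub_eq_zero.1 h3, sub_eq_zero.1 ((smul_eq_zero.1 h2).resolve_right hz)⟩
  exact ⟨LinearMap.ext fun v => (key v).1, LinearMap.ext fun v => (key v).2⟩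

/-- The group `U`. -/
def U (y z : V) (hy : y ≠ 0) : Subgroup (V ≃ₗ[F] V) where
  carrier := {g | ∃ φ ψ, Par y z g φ ψ}
  one_mem' := ⟨0, 0, by simp, by simp, fun v => by simp⟩
  mul_mem' := by
    rintro g g' ⟨φ, ψ, h⟩ ⟨φ', ψ', h'⟩
    exact ⟨_, _, par_mul h h'⟩
  inv_mem' := by
    rintro g ⟨φ, ψ, h⟩
    have hne := par_ne h hy
    have e : (1 + φ y)⁻¹ * (1 + φ y) = 1 := inv_mul_cancel₀ hne
    obtain ⟨h1, h2, h3⟩ := h
    refine ⟨-(1 + φ y)⁻¹ • (φ - φ z • ψ), -ψ, by simp [h1], by simp [h2], fun v => ?_⟩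
    show g.symm v = _
    rw [LinearEquiv.symm_apply_eq, h3]
    simp only [map_add, map_smul, LinearMap.sub_apply, LinearMap.neg_apply,
      LinearMap.smul_apply, smul_eq_mul, h1, h2]
    set a : F := -(1 + φ y)⁻¹ * (φ v - φ z * ψ v) with ha
    have h0 : a * (1 + φ y) + (φ v - φ z * ψ v) = 0 := by
      rw [ha]
      linear_combination -(φ v - φ z * ψ v) * e
    have : v + -ψ v • z + a • y + (ψ v + -ψ v * 0 + a * 0) • z +
        (φ v + -ψ v * φ z + a * φ y) • y =
        v + (a * (1 + φ y) + (φ v - φ z * ψ v)) • y := by module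
    rw [this, h0, zero_smul, add_zero]

section card
variable [Finite F] [Finite V]

/-- The functionals which vanish on `y` and `z`. -/
def Ann (y z : V) : Submodule F (V →ₗ[F] F) where
  carrier := {ψ | ψ y = 0 ∧ ψ z = 0}
  zero_mem' := ⟨rfl, rfl⟩
  add_mem' := fun {a b} ha hb => ⟨by rw [LinearMap.add_apply, ha.1, hb.1, add_zero],
    by rw [LinearMap.add_apply, ha.2, hb.2, add_zero]⟩
  smul_mem' := fun t a ha => ⟨by rw [LinearMap.smul_apply, ha.1, smul_zero],
    by rw [LinearMap.smul_apply, ha.2, smul_zero]⟩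

omit [Finite F] in
theorem card_ann (y z : V) (μ : V →ₗ[F] F)
    (hμy : μ y ≠ 0) (hμz : μ z = 0) (hz : z ≠ 0) :
    Nat.card (Ann (F := F) y z) = Nat.card F ^ (finrank F V - 2) := by
  have _ : Module.Finite F V := Module.Finite.of_finite
  have e : Ann (F := F) y z = (Submodule.span F {y, z}).dualAnnihilator := by
    ext ψ
    rw [Submodule.mem_dualAnnihilator]
    constructor
    · rintro ⟨h1, h2⟩ w hw
      induction hw using Submodule.span_induction with
      | mem x hx =>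
        rcases hx with rfl | hx
        · exact h1
        · rw [Set.mem_singleton_iff] at hx
          rw [hx]
          exact h2
      | zero => exact map_zero _
      | add a b _ _ ha hb => rw [map_add, ha, hb, add_zero]
      | smul t a _ ha => rw [map_smul, ha, smul_zero]
    · intro h
      exact ⟨h y (Submodule.subset_span (by simp)), h z (Submodule.subset_span (by simp))⟩
  have hli : LinearIndependent F ![y, z] := by
    rw [LinearIndependent.pair_iff]
    intro s t hst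
    have h3 : s = 0 := by
      have := congrArg μ hst
      rw [map_add, map_smul, map_smul, hμz, smul_zero, add_zero, map_zero, smul_eq_mul] at this
      exact (mul_eq_zero.1 this).resolve_right hμy
    rw [h3, zero_smul, zero_add] at hst
    exact ⟨h3, (smul_eq_zero.1 hst).resolve_right hz⟩
  have h2 : finrank F (Submodule.span F {y, z}) = 2 := by
    have := finrank_span_eq_card hli
    rw [Matrix.range_cons, Matrix.range_cons, Matrix.range_empty, Set.union_empty,
      Set.singleton_union, Fintype.card_fin] at this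
    exact this
  have h3 := Subspace.finrank_add_finrank_dualAnnihilator_eq (Submodule.span F {y, z})
  have h4 : finrank F (Submodule.span F {y, z}).dualAnnihilator = finrank F V - 2 := by
    rw [h2] at h3
    exact Nat.eq_sub_of_add_eq' h3
  rw [e, Module.natCard_eq_pow_finrank (K := F)]
  exact congrArg _ h4

omit [Finite F] in
theorem card_ne (y : V) (μ : V →ₗ[F] F) (hμy : μ y ≠ 0) :
    Nat.card {φ : V →ₗ[F] F // 1 + φ y ≠ 0} =
      Nat.card F ^ (finrank F V - 1) * (Nat.card F - 1) := by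
  have _ : Module.Finite F V := Module.Finite.of_finite
  obtain ⟨φ₀, hφ₀⟩ : ∃ φ₀ : V →ₗ[F] F, φ₀ y = 1 :=
    ⟨(μ y)⁻¹ • μ, by rw [LinearMap.smul_apply, smul_eq_mul, inv_mul_cancel₀ hμy]⟩
  have e : {φ : V →ₗ[F] F // 1 + φ y ≠ 0} ≃
      (LinearMap.ker (LinearMap.applyₗ (R := F) (M₂ := F) y)) × {a : F // 1 + a ≠ 0} :=
    { toFun := fun φ => (⟨φ.1 - φ.1 y • φ₀, by
        rw [LinearMap.mem_ker, LinearMap.applyₗ_apply_apply, LinearMap.sub_apply,
          LinearMap.smul_apply, hφ₀, smul_eq_mul, mul_one, sub_self]⟩, ⟨φ.1 y, φ.2⟩)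
      invFun := fun x => ⟨x.1.1 + x.2.1 • φ₀, by
        have h := x.1.2
        rw [LinearMap.mem_ker, LinearMap.applyₗ_apply_apply] at h
        rw [LinearMap.add_apply, h, LinearMap.smul_apply, hφ₀, smul_eq_mul, mul_one, zero_add]
        exact x.2.2⟩
      left_inv := fun φ => by
        apply Subtype.ext
        show φ.1 - φ.1 y • φ₀ + φ.1 y • φ₀ = φ.1
        rw [sub_add_cancel]
      right_inv := fun x => by
        have h := x.1.2
        rw [LinearMap.mem_ker, LinearMap.applyₗ_apply_apply] at h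
        have h1 : (x.1.1 + x.2.1 • φ₀) y = x.2.1 := by
          rw [LinearMap.add_apply, h, LinearMap.smul_apply, hφ₀, smul_eq_mul, mul_one, zero_add]
        refine Prod.ext (Subtype.ext ?_) (Subtype.ext h1)
        show x.1.1 + x.2.1 • φ₀ - (x.1.1 + x.2.1 • φ₀) y • φ₀ = x.1.1
        rw [h1, add_sub_cancel_right] }
  have h1 : finrank F (LinearMap.ker (LinearMap.applyₗ (R := F) (M₂ := F) y)) =
      finrank F V - 1 := by
    have h := LinearMap.finrank_range_add_finrank_ker (LinearMap.applyₗ (R := F) (M₂ := F) y)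
    have hr : LinearMap.range (LinearMap.applyₗ (R := F) (M₂ := F) y) = ⊤ := by
      rw [LinearMap.range_eq_top]
      intro a
      exact ⟨a • φ₀, by
        rw [LinearMap.applyₗ_apply_apply, LinearMap.smul_apply, hφ₀, smul_eq_mul, mul_one]⟩
    rw [hr, finrank_top, finrank_self, Module.finrank_linearMap_self] at h
    exact Nat.eq_sub_of_add_eq' h
  have e2 : {a : F // 1 + a ≠ 0} ≃ Fˣ :=
    { toFun := fun a => Units.mk0 (1 + a.1) a.2
      invFun := fun u => ⟨u.1 - 1, by rw [add_sub_cancel]; exact u.ne_zero⟩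
      left_inv := fun a => Subtype.ext (by simp)
      right_inv := fun u => Units.ext (by simp) }
  rw [Nat.card_congr e, Nat.card_prod, Module.natCard_eq_pow_finrank (K := F), h1,
    Nat.card_congr e2, Nat.card_units]

instance finGL : Finite (V ≃ₗ[F] V) :=
  Finite.of_injective (fun g : V ≃ₗ[F] V => (g : V → V)) DFunLike.coe_injective

omit [Finite F] in
theorem finDual [Finite F] : Finite (V →ₗ[F] F) :=
  Finite.of_injective (fun g : V →ₗ[F] F => (g : V → F)) DFunLike.coe_injective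

omit [Finite F] in
/-- Lower bound for the order of `U`. -/
theorem card_U (y z : V) (hy : y ≠ 0) (hz : z ≠ 0) (μ : V →ₗ[F] F) (hμy : μ y ≠ 0)
    (hμz : μ z = 0) :
    Nat.card F ^ (finrank F V - 1) * (Nat.card F - 1) * Nat.card F ^ (finrank F V - 2) ≤
      Nat.card (U (F := F) y z hy) := by
  rw [← card_ne y μ hμy, ← card_ann y z μ hμy hμz hz, ← Nat.card_prod]
  choose f hf using fun x : {φ : V →ₗ[F] F // 1 + φ y ≠ 0} × Ann (F := F) y z =>
    exists_par (y := y) (z := z) (φ := x.1.1) (ψ := x.2.1) x.2.2.1 x.2.2.2 x.1.2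
  refine Nat.card_le_card_of_injective
    (fun x => (⟨f x, x.1.1, x.2.1, hf x⟩ : U (F := F) y z hy)) ?_
  intro x x' h
  have h1 : f x = f x' := congrArg Subtype.val h
  have h2 := hf x'
  rw [← h1] at h2
  have h3 := par_unique μ hμy hμz hz (hf x) h2
  exact Prod.ext (Subtype.ext h3.1) (Subtype.ext h3.2)

/-- Upper bound for the order of the intersection of `U` and `H`. -/
theorem card_inf (H : Subgroup (V ≃ₗ[F] V)) (y z : V) (hy : y ≠ 0)
    (μ : V →ₗ[F] F) (hμy : μ y ≠ 0) (hμz : μ z = 0)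
    (hH : ∀ h ∈ H, (∃ a : F, h y = a • y) → ∃ b : F, ∀ v, μ (h v) = b * μ v) :
    Nat.card (U (F := F) y z hy ⊓ H : Subgroup (V ≃ₗ[F] V)) ≤
      (Nat.card F - 1) * Nat.card {φ : V →ₗ[F] F // φ ∈ E H z ∧ φ y = 0} := by
  classical
  -- parameters of the elements
  have hpar : ∀ g : (U (F := F) y z hy ⊓ H : Subgroup (V ≃ₗ[F] V)), ∃ (b : Fˣ) (ψ : V →ₗ[F] F),
      Par y z g.1 ((((b : F) - 1) * (μ y)⁻¹) • μ) ψ := by
    rintro ⟨g, ⟨φ, ψ, h⟩, hg⟩
    obtain ⟨b, hb⟩ := hH g hg ⟨1 + φ y, by rw [h.2.2, h.1]; module⟩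
    have hb0 : b ≠ 0 := by
      rintro rfl
      have := hb (g.symm y)
      rw [LinearEquiv.apply_symm_apply, zero_mul] at this
      exact hμy this
    refine ⟨Units.mk0 b hb0, ψ, h.1, h.2.1, fun v => ?_⟩
    have h1 := hb v
    rw [h.2.2, map_add, map_add, map_smul, map_smul, hμz, smul_zero, add_zero, smul_eq_mul] at h1
    have h2 : φ v = (b - 1) * (μ y)⁻¹ * μ v := by
      field_simp
      linear_combination h1
    show g v = _
    rw [h.2.2, h2]
    rfl
  choose b ψ hbψ using hpar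
  -- a representative for each value of `b`
  let r : Fˣ → (U (F := F) y z hy ⊓ H : Subgroup (V ≃ₗ[F] V)) := fun c =>
    if hc : ∃ g, b g = c then hc.choose else 1
  have hr : ∀ g, b (r (b g)) = b g := fun g => by
    have hc : ∃ g', b g' = b g := ⟨g, rfl⟩
    show b (if hc : ∃ g', b g' = b g then hc.choose else 1) = b g
    rw [dif_pos hc]
    exact hc.choose_spec
  have hmem : ∀ g, ψ g - ψ (r (b g)) ∈ E H z ∧ (ψ g - ψ (r (b g))) y = 0 := by
    intro g
    have h1 := hbψ g
    have h2 := hbψ (r (b g))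
    rw [hr] at h2
    set g₀ := r (b g) with hg₀
    refine ⟨⟨⟨g₀.1⁻¹ * g.1, H.mul_mem (H.inv_mem g₀.2.2) g.2.2, fun v => ?_⟩, ?_⟩, ?_⟩
    · show g₀.1.symm (g.1 v) = _
      rw [LinearEquiv.symm_apply_eq, h1.2.2, h2.2.2]
      simp only [map_add, map_smul, LinearMap.sub_apply, LinearMap.smul_apply, smul_eq_mul,
        h2.2.1, hμz]
      module
    · rw [LinearMap.sub_apply, h1.2.1, h2.2.1, sub_self]
    · rw [LinearMap.sub_apply, h1.1, h2.1, sub_self]
  have _ : Finite (V →ₗ[F] F) := finDual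
  rw [← Nat.card_units, ← Nat.card_prod]
  refine Nat.card_le_card_of_injective
    (fun g => (b g, (⟨ψ g - ψ (r (b g)), hmem g⟩ : {φ : V →ₗ[F] F // φ ∈ E H z ∧ φ y = 0}))) ?_
  intro g g' h
  have h1 : b g = b g' := congrArg Prod.fst h
  have h2 : ψ g - ψ (r (b g)) = ψ g' - ψ (r (b g')) := congrArg (fun x => x.2.1) h
  rw [h1] at h2
  have h3 : ψ g = ψ g' := sub_left_injective h2
  have h4 := hbψ g
  have h5 := hbψ g'
  rw [h1, h3] at h4
  apply Subtype.ext
  apply LinearEquiv.ext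
  intro v
  rw [h4.2.2, h5.2.2]

end card

/-- Row LOC3. -/
theorem loc3_51 (hLag : StLag) : StLoc3 := by
  intro F V _ _ _ _ _ H y z μ hμy hz hμz hH
  have hy : y ≠ 0 := by
    rintro rfl
    exact hμy (map_zero _)
  have h1 := hLag (V ≃ₗ[F] V) (U (F := F) y z hy) H
  have h2 := card_U (F := F) y z hy hz μ hμy hμz
  have h3 := card_inf H y z hy μ hμy hμz hH
  calc _ ≤ Nat.card (U (F := F) y z hy) * Nat.card H := Nat.mul_le_mul_right _ h2
    _ ≤ Nat.card (V ≃ₗ[F] V) * Nat.card (U (F := F) y z hy ⊓ H : Subgroup (V ≃ₗ[F] V)) := h1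
    _ ≤ Nat.card (V ≃ₗ[F] V) * ((Nat.card F - 1) *
        Nat.card {φ : V →ₗ[F] F // φ ∈ E H z ∧ φ y = 0}) := Nat.mul_le_mul_left _ h3
    _ = _ := by ring

end

end SpreadPerm.LG.Loc3
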