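import Pool.Agent.Lib.MP_e6ed9e_al.LG.Defs
import Pool.Agent.Lib.MP_e6ed9e_al.Index

/-!
# Row MDL: the dimension bound
-/

namespace SpreadPerm.LG

open Module MulAction

section

variable {F V : Type} [Field F] [Finite F] [AddCommGroup V] [Module F V] [Finite V]

omit [Finite F] in
theorem finite_gl2 : Finite (V ≃ₗ[F] V) :=
  Finite.of_injective (fun g : V ≃ₗ[F] V => (g : V → V)) DFunLike.coe_injective

omit [Finite F] in
theorem card_gl2 : Nat.card (V ≃ₗ[F] V) ≤ Nat.card F ^ (finrank F V ^ 2) := by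
  classical
  have : Finite (V →ₗ[F] V) :=
    Finite.of_injective (fun g : V →ₗ[F] V => (g : V → V)) DFunLike.coe_injective
  have h1 : Nat.card (V ≃ₗ[F] V) ≤ Nat.card (V →ₗ[F] V) :=
    Nat.card_le_card_of_injective (fun g : V ≃ₗ[F] V => (g : V →ₗ[F] V))
      LinearEquiv.toLinearMap_injective
  have h2 : Nat.card (V →ₗ[F] V) = Nat.card F ^ (finrank F V ^ 2) := by
    rw [Module.natCard_eq_pow_finrank (K := F) (V := V →ₗ[F] V), Module.finrank_linearMap, sq]
  exact h1.trans h2.le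

/-- Scalars. -/
noncomputable def sc2 (F V : Type) [Field F] [AddCommGroup V] [Module F V] (a : Fˣ) : V ≃ₗ[F] V :=
  LinearEquiv.smulOfNeZero F V (a : F) a.ne_zero

omit [Finite F] [Finite V] in
theorem sc2_apply (a : Fˣ) (v : V) : sc2 F V a v = (a : F) • v := rfl

omit [Finite F] in
theorem det_sc2 (a : Fˣ) : LinearEquiv.det (sc2 F V a) = a ^ finrank F V := by
  apply Units.ext
  rw [LinearEquiv.coe_det]
  have h : ((sc2 F V a : V ≃ₗ[F] V) : V →ₗ[F] V) = (a : F) • (LinearMap.id : V →ₗ[F] V) := by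
    ext v
    rfl
  rw [h, LinearMap.det_smul, LinearMap.det_id, mul_one, Units.val_pow_eq_pow_val]

/-- Every element is a representative times an element of determinant one times a scalar. -/
theorem decomp2 (hn : 1 ≤ finrank F V) : ∃ T : Fin (finrank F V) → (V ≃ₗ[F] V),
    ∀ g : V ≃ₗ[F] V, ∃ (i : Fin (finrank F V)) (s : V ≃ₗ[F] V) (a : Fˣ),
      LinearEquiv.det s = 1 ∧ g = T i * s * sc2 F V a := by
  classical
  have : Fintype F := Fintype.ofFinite F
  obtain ⟨g0, hg0⟩ := IsCyclic.exists_generator (α := Fˣ)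
  set n := finrank F V with hnd
  let T : Fin n → (V ≃ₗ[F] V) := fun i =>
    if h : ∃ t : V ≃ₗ[F] V, LinearEquiv.det t = g0 ^ (i : ℕ) then h.choose else 1
  refine ⟨T, fun g => ?_⟩
  obtain ⟨k, hk⟩ : ∃ k : ℕ, g0 ^ k = LinearEquiv.det g := by
    have h := hg0 (LinearEquiv.det g)
    rw [← mem_powers_iff_mem_zpowers] at h
    exact h
  have hlt : k % n < n := Nat.mod_lt _ hn
  have hdet : LinearEquiv.det (g * (sc2 F V (g0 ^ (k / n)))⁻¹) = g0 ^ (k % n) := by
    rw [map_mul, map_inv, det_sc2, ← hk, ← hnd, ← pow_mul, mul_inv_eq_iff_eq_mul, ← pow_add]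
    congr 1
    rw [mul_comm (k / n) n]
    exact (Nat.mod_add_div k n).symm
  have hex : ∃ t : V ≃ₗ[F] V, LinearEquiv.det t = g0 ^ ((⟨k % n, hlt⟩ : Fin n) : ℕ) := ⟨_, hdet⟩
  have hT : LinearEquiv.det (T ⟨k % n, hlt⟩) = g0 ^ (k % n) := by
    show LinearEquiv.det (if h : ∃ t : V ≃ₗ[F] V, LinearEquiv.det t = g0 ^ (k % n)
      then h.choose else 1) = _
    rw [dif_pos ⟨_, hdet⟩]
    exact (⟨_, hdet⟩ : ∃ t : V ≃ₗ[F] V, LinearEquiv.det t = g0 ^ (k % n)).choose_spec
  refine ⟨⟨k % n, hlt⟩, (T ⟨k % n, hlt⟩)⁻¹ * (g * (sc2 F V (g0 ^ (k / n)))⁻¹), g0 ^ (k / n), ?_, ?_⟩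
  · rw [map_mul, map_inv, hT, hdet, inv_mul_cancel]
  · group

end

theorem mdl2 : StMdl := by
  classical
  intro F V Ω _ _ _ _ _ _ Γ _ _ hA hS ω H hH K hK hHK
  have hfin : Finite (V ≃ₗ[F] V) := finite_gl2
  set n := finrank F V with hn
  set q := Nat.card F with hq
  set L := Nat.log 2 q with hL
  set N := Fintype.card Ω with hN
  have hn1 : 1 ≤ n := by
    by_contra h0
    have h1 : finrank F V = 0 := by omega
    have h2 : Subsingleton V := Module.finrank_zero_iff.1 h1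
    obtain ⟨g, _, ω', hω'⟩ := hA.nt
    apply hω'
    have h3 : g = 1 := by
      apply Subtype.ext
      apply LinearEquiv.ext
      intro v
      exact Subsingleton.elim _ _
    rw [h3, one_smul]
  have hN1 : 1 ≤ N := Fintype.card_pos_iff.2 ⟨ω⟩
  -- the subgroup of `Γ`
  have hintr : ¬ MulAction.IsPretransitive (K.subgroupOf Γ) Ω := by
    intro htr
    apply hHK
    intro g
    obtain ⟨s, hs, k, hk, rfl⟩ := hK g
    have hsΓ : s ∈ Γ := hA.sl s hs
    obtain ⟨⟨k', hk'⟩, hkω⟩ := htr.exists_smul_eq ((⟨s, hsΓ⟩ : Γ)⁻¹ • ω) ω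
    have hk'K : (k' : V ≃ₗ[F] V) ∈ K := Subgroup.mem_subgroupOf.1 hk'
    have hkω' : k' • ((⟨s, hsΓ⟩ : Γ)⁻¹ • ω) = ω := hkω
    refine ⟨s * (k' : V ≃ₗ[F] V)⁻¹, ?_, (k' : V ≃ₗ[F] V) * k, K.mul_mem hk'K hk, by group⟩
    refine (hH _).2 ⟨⟨s, hsΓ⟩ * k'⁻¹, 1, one_ne_zero, ?_, fun v => ?_⟩
    · have h9 : (⟨s, hsΓ⟩ : Γ)⁻¹ • ω = k'⁻¹ • ω := eq_inv_smul_iff.2 hkω'
      rw [mul_smul, ← h9, smul_inv_smul]
    · rw [one_smul]
      rfl
  have hb := index_bound hS (K.subgroupOf Γ) hintr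
  set m := (K.subgroupOf Γ).index with hm
  have hmK : m ≤ K.index := by
    have h1 : K.relIndex Γ ≤ K.relIndex ⊤ :=
      Subgroup.relIndex_le_of_le_right le_top (by
        rw [Subgroup.relIndex_top_right]
        exact Subgroup.index_ne_zero_of_finite)
    rw [Subgroup.relIndex_top_right] at h1
    exact h1
  -- logarithm
  have hNq : N ≤ q ^ (n ^ 2) := by
    have h1 : N ≤ Nat.card Γ := by
      rw [hN, ← Nat.card_eq_fintype_card]
      exact Nat.card_le_card_of_surjective (fun g : Γ => g • ω)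
        (fun y => MulAction.exists_smul_eq Γ ω y)
    have h2 : Nat.card Γ ≤ Nat.card (V ≃ₗ[F] V) := Subgroup.card_le_card_group Γ
    exact (h1.trans h2).trans card_gl2
  have hlog : Nat.log 2 N + 1 ≤ (L + 1) * n ^ 2 := by
    have h1 : q < 2 ^ (L + 1) := Nat.lt_pow_succ_log_self (by norm_num) q
    have h2 : q ^ (n ^ 2) < 2 ^ ((L + 1) * n ^ 2) := by
      rw [pow_mul]
      exact Nat.pow_lt_pow_left h1 (by positivity)
    exact Nat.log_lt_of_lt_pow (by omega) (hNq.trans_lt h2)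
  have hNm : N ≤ (L + 1) * n ^ 2 * m := by
    have h1 : N ^ m ≤ 2 ^ ((Nat.log 2 N + 1) * m) := by
      rw [pow_mul]
      exact Nat.pow_le_pow_left (Nat.lt_pow_succ_log_self (by norm_num) N).le m
    have h2 : N ≤ (Nat.log 2 N + 1) * m := (Nat.pow_le_pow_iff_right (by norm_num)).1 (hb.trans h1)
    exact h2.trans (Nat.mul_le_mul_right m hlog)
  -- index of `H`
  have hHi : H.index ≤ N * n := by
    obtain ⟨T, hT⟩ := decomp2 (F := F) (V := V) hn1
    choose i s a hs hg using hT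
    have hΓ : ∀ g, s g ∈ Γ := fun g => hA.sl _ (hs g)
    let f : (V ≃ₗ[F] V) → Ω × Fin n := fun g => ((⟨s g, hΓ g⟩ : Γ) • ω, i g)
    have hf : ∀ g g', f g = f g' → g⁻¹ * g' ∈ H := by
      intro g g' hgg
      have h1 : (⟨s g, hΓ g⟩ : Γ) • ω = (⟨s g', hΓ g'⟩ : Γ) • ω := congrArg Prod.fst hgg
      have h2 : i g = i g' := congrArg Prod.snd hgg
      refine (hH _).2 ⟨(⟨s g, hΓ g⟩ : Γ)⁻¹ * ⟨s g', hΓ g'⟩, ((a g)⁻¹ * a g' : Fˣ), Units.ne_zero _,
        ?_, fun v => ?_⟩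
      · rw [mul_smul, ← h1, inv_smul_smul]
      · have h3 : g⁻¹ * g' = (sc2 F V (a g))⁻¹ * ((s g)⁻¹ * s g') * sc2 F V (a g') := by
          conv_lhs => rw [hg g, hg g', h2]
          group
        have h4 : ∀ w, (sc2 F V (a g))⁻¹ w = (((a g)⁻¹ : Fˣ) : F) • w := by
          intro w
          show (sc2 F V (a g)).symm w = _
          rw [LinearEquiv.symm_apply_eq, sc2_apply, smul_smul, ← Units.val_mul, mul_inv_cancel,
            Units.val_one, one_smul]
        rw [h3]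
        show (sc2 F V (a g))⁻¹ (((s g)⁻¹ * s g') (sc2 F V (a g') v)) = _
        rw [h4, sc2_apply, map_smul, smul_smul, ← Units.val_mul]
        rfl
    have h5 : Function.Injective (fun x : (V ≃ₗ[F] V) ⧸ H => f x.out) := by
      intro x y hxy
      have h6 := hf _ _ hxy
      have h7 : (QuotientGroup.mk x.out : (V ≃ₗ[F] V) ⧸ H) = QuotientGroup.mk y.out :=
        QuotientGroup.eq.2 h6
      rwa [QuotientGroup.out_eq', QuotientGroup.out_eq'] at h7
    have h8 := Nat.card_le_card_of_injective _ h5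
    rw [Nat.card_prod, Nat.card_fin, Nat.card_eq_fintype_card (α := Ω)] at h8
    rw [Subgroup.index_eq_card]
    exact h8
  have e1 := K.index_mul_card
  have e2 := H.index_mul_card
  have hKpos : 0 < K.index := Nat.pos_of_ne_zero Subgroup.index_ne_zero_of_finite
  have e3 : K.index * Nat.card K ≤ K.index * (2 * n ^ 3 * (L + 1) * Nat.card H) := by
    calc K.index * Nat.card K = H.index * Nat.card H := by rw [e1, e2]
      _ ≤ N * n * Nat.card H := Nat.mul_le_mul_right _ hHi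
      _ ≤ ((L + 1) * n ^ 2 * m) * n * Nat.card H := by gcongr
      _ ≤ ((L + 1) * n ^ 2 * K.index) * n * Nat.card H := by gcongr
      _ = K.index * (n ^ 3 * (L + 1) * Nat.card H) := by ring
      _ ≤ K.index * (2 * n ^ 3 * (L + 1) * Nat.card H) := by
          gcongr
          omega
  exact Nat.le_of_mul_le_mul_left e3 hKpos

end SpreadPerm.LG
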