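import Pool.Agent.Lib.MP_e6ed9e_al.LG.Basic47
import Pool.Agent.Lib.MP_e6ed9e_al.LG.Loc3_51
import Pool.Agent.Lib.MP_e6ed9e_al.LG.MDL2

/-!
Row IND: the hypothesis goes down to `V ⧸ ⟨x⟩`.
-/

namespace SpreadPerm.LG

open Module

namespace Ind73

variable {F V : Type} [Field F] [AddCommGroup V] [Module F V]

/-- The preimage of `K` in the stabilizer of `⟨x⟩`. -/
def hat (x : V) (hx : x ≠ 0) (K : Subgroup ((V ⧸ (F ∙ x)) ≃ₗ[F] (V ⧸ (F ∙ x)))) :
    Subgroup (V ≃ₗ[F] V) where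
  carrier := {h | (∃ a : F, h x = a • x) ∧ ∃ g ∈ K, ∀ v,
    g (Submodule.Quotient.mk v) = Submodule.Quotient.mk (h v)}
  one_mem' := ⟨⟨1, by simp⟩, 1, K.one_mem, fun v => rfl⟩
  mul_mem' := by
    rintro h h' ⟨⟨a, ha⟩, g, hg, hgh⟩ ⟨⟨a', ha'⟩, g', hg', hgh'⟩
    refine ⟨⟨a' * a, ?_⟩, g * g', K.mul_mem hg hg', fun v => ?_⟩
    · show h (h' x) = _
      rw [ha', map_smul, ha, smul_smul]
    · show g (g' _) = _
      rw [hgh', hgh]
      rfl
  inv_mem' := by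
    rintro h ⟨⟨a, ha⟩, g, hg, hgh⟩
    have ha0 : a ≠ 0 := by
      rintro rfl
      rw [zero_smul] at ha
      exact hx ((LinearEquiv.map_eq_zero_iff h).1 ha)
    refine ⟨⟨a⁻¹, ?_⟩, g⁻¹, K.inv_mem hg, fun v => ?_⟩
    · show h.symm x = _
      rw [LinearEquiv.symm_apply_eq, map_smul, ha, smul_smul, inv_mul_cancel₀ ha0, one_smul]
    · show g.symm _ = _
      rw [LinearEquiv.symm_apply_eq, hgh]
      show _ = Submodule.Quotient.mk (h (h.symm v))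
      rw [LinearEquiv.apply_symm_apply]

/-- The section of the quotient map with image the kernel of `μ`. -/
def sec (x : V) (μ : V →ₗ[F] F) (hμ : μ x = 1) : (V ⧸ (F ∙ x)) →ₗ[F] V :=
  (F ∙ x).liftQ (LinearMap.id - μ.smulRight x) (by
    rw [Submodule.span_singleton_le_iff_mem, LinearMap.mem_ker]
    simp [hμ])

theorem sec_mk (x : V) (μ : V →ₗ[F] F) (hμ : μ x = 1) (v : V) :
    sec x μ hμ (Submodule.Quotient.mk v) = v - μ v • x := rfl

theorem mk_x (x : V) (a : F) : (Submodule.Quotient.mk (a • x) : V ⧸ (F ∙ x)) = 0 := by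
  rw [Submodule.Quotient.mk_eq_zero]
  exact Submodule.smul_mem _ _ (Submodule.mem_span_singleton_self x)

theorem mk_sec (x : V) (μ : V →ₗ[F] F) (hμ : μ x = 1) (w : V ⧸ (F ∙ x)) :
    Submodule.Quotient.mk (sec x μ hμ w) = w := by
  obtain ⟨v, rfl⟩ := Submodule.Quotient.mk_surjective _ w
  rw [sec_mk, Submodule.Quotient.mk_sub, mk_x, sub_zero]

theorem mu_sec (x : V) (μ : V →ₗ[F] F) (hμ : μ x = 1) (w : V ⧸ (F ∙ x)) :
    μ (sec x μ hμ w) = 0 := by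
  obtain ⟨v, rfl⟩ := Submodule.Quotient.mk_surjective _ w
  rw [sec_mk, map_sub, map_smul, hμ, smul_eq_mul, mul_one, sub_self]

/-- The linear map `v ↦ μ(v) x + s(k(v mod x))`. -/
def lm (x : V) (μ : V →ₗ[F] F) (hμ : μ x = 1) (k : (V ⧸ (F ∙ x)) →ₗ[F] (V ⧸ (F ∙ x))) :
    V →ₗ[F] V :=
  μ.smulRight x + (sec x μ hμ) ∘ₗ k ∘ₗ (F ∙ x).mkQ

theorem lm_apply (x : V) (μ : V →ₗ[F] F) (hμ : μ x = 1)
    (k : (V ⧸ (F ∙ x)) →ₗ[F] (V ⧸ (F ∙ x))) (v : V) :
    lm x μ hμ k v = μ v • x + sec x μ hμ (k (Submodule.Quotient.mk v)) := rfl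

theorem mk_lm (x : V) (μ : V →ₗ[F] F) (hμ : μ x = 1)
    (k : (V ⧸ (F ∙ x)) →ₗ[F] (V ⧸ (F ∙ x))) (v : V) :
    Submodule.Quotient.mk (lm x μ hμ k v) = k (Submodule.Quotient.mk v) := by
  rw [lm_apply, Submodule.Quotient.mk_add, mk_x, mk_sec, zero_add]

theorem mu_lm (x : V) (μ : V →ₗ[F] F) (hμ : μ x = 1)
    (k : (V ⧸ (F ∙ x)) →ₗ[F] (V ⧸ (F ∙ x))) (v : V) :
    μ (lm x μ hμ k v) = μ v := by
  rw [lm_apply, map_add, map_smul, hμ, mu_sec, smul_eq_mul, mul_one, add_zero]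

theorem lm_lm (x : V) (μ : V →ₗ[F] F) (hμ : μ x = 1)
    (k : (V ⧸ (F ∙ x)) ≃ₗ[F] (V ⧸ (F ∙ x))) (v : V) :
    lm x μ hμ k.symm (lm x μ hμ k v) = v := by
  rw [lm_apply, mu_lm, mk_lm]
  show μ v • x + sec x μ hμ (k.symm (k (Submodule.Quotient.mk v))) = v
  rw [LinearEquiv.symm_apply_apply, sec_mk, add_sub_cancel]

/-- A lift of an automorphism of `V ⧸ ⟨x⟩`. -/
theorem exists_lift {x : V} {μ : V →ₗ[F] F} (hμ : μ x = 1)
    (k : (V ⧸ (F ∙ x)) ≃ₗ[F] (V ⧸ (F ∙ x))) :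
    ∃ g : V ≃ₗ[F] V, g x = x ∧
      ∀ v, k (Submodule.Quotient.mk v) = Submodule.Quotient.mk (g v) := by
  refine ⟨LinearEquiv.ofLinearMap (lm x μ hμ k) (lm x μ hμ k.symm) ?_ ?_, ?_, fun v => ?_⟩
  · refine LinearMap.ext fun v => ?_
    exact lm_lm x μ hμ k.symm v
  · refine LinearMap.ext fun v => ?_
    exact lm_lm x μ hμ k v
  · show lm x μ hμ k x = x
    rw [lm_apply, hμ, one_smul]
    have h1 : (Submodule.Quotient.mk x : V ⧸ (F ∙ x)) = 0 := by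
      have := mk_x (F := F) x 1
      rwa [one_smul] at this
    rw [h1, map_zero, map_zero, add_zero]
  · exact (mk_lm x μ hμ k v).symm

theorem exists_mu {x : V} (hx : x ≠ 0) : ∃ μ : V →ₗ[F] F, μ x = 1 := by
  obtain ⟨μ, hμ⟩ : ∃ μ : V →ₗ[F] F, μ x ≠ 0 := by
    by_contra h
    push Not at h
    exact hx ((Module.forall_dual_apply_eq_zero_iff F x).1 h)
  exact ⟨(μ x)⁻¹ • μ, by rw [LinearMap.smul_apply, smul_eq_mul, inv_mul_cancel₀ hμ]⟩

/-- The size of the preimage. -/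
theorem card_hat [Finite F] [Finite V] (x : V) (hx : x ≠ 0)
    (K : Subgroup ((V ⧸ (F ∙ x)) ≃ₗ[F] (V ⧸ (F ∙ x)))) :
    Nat.card F ^ (finrank F V - 1) * (Nat.card F - 1) * Nat.card K ≤ Nat.card (hat x hx K) := by
  have hfin : Finite (V ≃ₗ[F] V) := finite_gl2
  obtain ⟨μ, hμ⟩ := exists_mu (F := F) hx
  have hμ0 : μ x ≠ 0 := by rw [hμ]; exact one_ne_zero
  choose g hgx hg using fun k : K => exists_lift hμ k.1
  rw [← Loc3.card_ne x μ hμ0, ← Nat.card_prod]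
  refine Nat.card_le_card_of_injective
    (fun p : {φ : V →ₗ[F] F // 1 + φ x ≠ 0} × K =>
      (⟨hml x p.1.1 p.1.2 * g p.2, ⟨1 + p.1.1 x, ?_⟩, p.2.1, p.2.2, fun v => ?_⟩ : hat x hx K)) ?_
  · show hml x p.1.1 p.1.2 (g p.2 x) = _
    rw [hgx, hml_apply, add_smul, one_smul]
  · rw [hg p.2 v, mul_app, hml_apply, Submodule.Quotient.mk_add, mk_x, add_zero]
  · rintro ⟨φ, k⟩ ⟨φ', k'⟩ h
    have h1 : hml x φ.1 φ.2 * g k = hml x φ'.1 φ'.2 * g k' := congrArg Subtype.val h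
    have h2 : k = k' := by
      apply Subtype.ext
      apply LinearEquiv.ext
      intro w
      obtain ⟨v, rfl⟩ := Submodule.Quotient.mk_surjective _ w
      have h3 : (Submodule.Quotient.mk ((hml x φ.1 φ.2 * g k) v) : V ⧸ (F ∙ x)) =
          Submodule.Quotient.mk ((hml x φ'.1 φ'.2 * g k') v) := by rw [h1]
      rw [mul_app, mul_app, hml_apply, hml_apply, Submodule.Quotient.mk_add,
        Submodule.Quotient.mk_add, mk_x, mk_x, add_zero, add_zero] at h3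
      rw [hg k v, hg k' v, h3]
    subst h2
    have h3 : hml x φ.1 φ.2 = hml x φ'.1 φ'.2 := mul_right_cancel h1
    have h4 : φ = φ' := by
      apply Subtype.ext
      apply LinearMap.ext
      intro v
      have h5 : hml x φ.1 φ.2 v = hml x φ'.1 φ'.2 v := by rw [h3]
      rw [hml_apply, hml_apply] at h5
      exact smul_left_injective F hx (add_left_cancel h5)
    rw [h4]

/-- Every determinant occurs in the preimage. -/
theorem sl_hat [Module.Finite F V] (x : V) (hx : x ≠ 0)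
    (K : Subgroup ((V ⧸ (F ∙ x)) ≃ₗ[F] (V ⧸ (F ∙ x)))) (g : V ≃ₗ[F] V) :
    ∃ s : V ≃ₗ[F] V, LinearEquiv.det s = 1 ∧ ∃ k ∈ hat x hx K, g = s * k := by
  obtain ⟨μ, hμ⟩ := exists_mu (F := F) hx
  set a : F := LinearMap.det (g : V →ₗ[F] V) with ha
  have ha0 : a ≠ 0 := (LinearEquiv.isUnit_det' g).ne_zero
  set f : V →ₗ[F] F := (a - 1) • μ with hf
  have hfx : 1 + f x = a := by
    rw [hf, LinearMap.smul_apply, smul_eq_mul, hμ]
    ring
  have hu : IsUnit (1 + f x) := by rw [hfx]; exact ha0.isUnit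
  set k : V ≃ₗ[F] V := LinearEquiv.dilatransvection hu with hk
  have hkv : ∀ v, k v = v + f v • x := fun v => LinearEquiv.dilatransvection.apply
  have hkdet : LinearMap.det (k : V →ₗ[F] V) = a := by
    rw [hk, LinearEquiv.dilatransvection.coe_toLinearMap, LinearMap.transvection.det, hfx]
  refine ⟨g * k⁻¹, ?_, k, ⟨⟨1 + f x, ?_⟩, 1, K.one_mem, fun v => ?_⟩, by group⟩
  · rw [map_mul, map_inv, mul_inv_eq_one]
    apply Units.ext
    rw [LinearEquiv.coe_det, LinearEquiv.coe_det, hkdet]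
  · rw [hkv, add_smul, one_smul]
  · rw [hkv, Submodule.Quotient.mk_add, mk_x, add_zero]
    rfl

/-- The product `H K^` is not the general linear group. -/
theorem not_all {H : Subgroup (V ≃ₗ[F] V)} (x : V) (hx : x ≠ 0)
    (K : Subgroup ((V ⧸ (F ∙ x)) ≃ₗ[F] (V ⧸ (F ∙ x))))
    (h : ∀ g : V ≃ₗ[F] V, ∃ h ∈ H, ∃ k ∈ hat x hx K, g = h * k)
    (γ : (V ⧸ (F ∙ x)) ≃ₗ[F] (V ⧸ (F ∙ x))) : ∃ h ∈ Ix H x, ∃ k ∈ K, γ = h * k := by
  obtain ⟨μ, hμ⟩ := exists_mu (F := F) hx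
  obtain ⟨g, hgx, hg⟩ := exists_lift hμ γ
  obtain ⟨s, hs, k, ⟨⟨a, ha⟩, k', hk', hkk⟩, rfl⟩ := h g
  have ha0 : a ≠ 0 := by
    rintro rfl
    rw [zero_smul] at ha
    exact hx ((LinearEquiv.map_eq_zero_iff k).1 ha)
  refine ⟨γ * k'⁻¹, ⟨s, hs, ⟨a⁻¹, ?_⟩, fun v => ?_⟩, k', hk', by group⟩
  · rw [mul_app, ha, map_smul] at hgx
    rw [← hgx, smul_smul, hgx, inv_mul_cancel₀ ha0, one_smul]
  · have h1 : k'⁻¹ (Submodule.Quotient.mk v) = Submodule.Quotient.mk (k⁻¹ v) := by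
      show k'.symm _ = _
      rw [LinearEquiv.symm_apply_eq, hkk, app_inv]
    show γ (k'⁻¹ (Submodule.Quotient.mk v)) = _
    rw [h1, hg, mul_app, app_inv]

/-- The stabilizer is embedded in its image if there are no perspectivities. -/
theorem card_Ix [Finite V] {H : Subgroup (V ≃ₗ[F] V)} (x : V) (hx : x ≠ 0)
    (hP : ∀ φ ∈ P H x, φ = 0) :
    Nat.card {h : V ≃ₗ[F] V // h ∈ H ∧ ∃ a : F, h x = a • x} ≤ Nat.card (Ix H x) := by
  have hfq : Finite (V ⧸ (F ∙ x)) :=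
    Finite.of_surjective (Submodule.Quotient.mk : V → V ⧸ (F ∙ x))
      (Submodule.Quotient.mk_surjective _)
  have hfin : Finite ((V ⧸ (F ∙ x)) ≃ₗ[F] (V ⧸ (F ∙ x))) :=
    Finite.of_injective (fun g : (V ⧸ (F ∙ x)) ≃ₗ[F] (V ⧸ (F ∙ x)) =>
      (g : (V ⧸ (F ∙ x)) → (V ⧸ (F ∙ x)))) DFunLike.coe_injective
  have key : ∀ h : {h : V ≃ₗ[F] V // h ∈ H ∧ ∃ a : F, h x = a • x},
      ∃ g : (V ⧸ (F ∙ x)) ≃ₗ[F] (V ⧸ (F ∙ x)),
        ∀ v, g (Submodule.Quotient.mk v) = Submodule.Quotient.mk (h.1 v) := by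
    rintro ⟨h, hh, a, ha⟩
    have ha0 : a ≠ 0 := by
      rintro rfl
      rw [zero_smul] at ha
      exact hx ((LinearEquiv.map_eq_zero_iff h).1 ha)
    have hm : (F ∙ x).map (h : V →ₗ[F] V) = (F ∙ x) := by
      rw [Submodule.map_span, Set.image_singleton]
      show (F ∙ (h x)) = _
      rw [ha]
      exact Submodule.span_singleton_smul_eq ha0.isUnit x
    exact ⟨Submodule.Quotient.equiv (F ∙ x) (F ∙ x) h hm, fun v => rfl⟩
  choose g hg using key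
  refine Nat.card_le_card_of_injective
    (fun h => (⟨g h, h.1, h.2.1, h.2.2, hg h⟩ : Ix H x)) ?_
  intro h h' e
  have e1 : g h = g h' := congrArg Subtype.val e
  obtain ⟨φ, hφ⟩ := exists_per hx (h.1⁻¹ * h'.1) fun v => by
    have h1 : (Submodule.Quotient.mk (h.1 v) : V ⧸ (F ∙ x)) = Submodule.Quotient.mk (h'.1 v) := by
      rw [← hg h, ← hg h', e1]
    rw [Submodule.Quotient.eq, Submodule.mem_span_singleton] at h1
    obtain ⟨b, hb⟩ := h1
    obtain ⟨a, ha⟩ := h.2.2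
    have ha0 : a ≠ 0 := by
      rintro rfl
      rw [zero_smul] at ha
      exact hx ((LinearEquiv.map_eq_zero_iff h.1).1 ha)
    have h2 : h'.1 v = h.1 v - b • x := by rw [hb]; abel
    have h3 : h.1⁻¹ x = a⁻¹ • x := by
      have h4 := inv_app h.1 x
      rw [ha, map_smul] at h4
      have h5 : a⁻¹ • (a • h.1⁻¹ x) = a⁻¹ • x := by rw [h4]
      rwa [smul_smul, inv_mul_cancel₀ ha0, one_smul] at h5
    refine ⟨-(b * a⁻¹), ?_⟩
    rw [mul_app, h2, map_sub, map_smul, inv_app, h3, smul_smul, neg_smul, sub_eq_add_neg]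
  have h1 : φ = 0 := hP φ ⟨_, H.mul_mem (H.inv_mem h.2.1) h'.2.1, hφ⟩
  have h2 : h.1⁻¹ * h'.1 = 1 := by
    apply LinearEquiv.ext
    intro v
    rw [hφ, h1]
    simp
  exact Subtype.ext (inv_mul_eq_one.1 h2)

end Ind73

open Ind73 in
/-- Row IND. -/
theorem ind73 (hOrb : StOrb) : StInd := by
  intro F V _ _ _ _ _ H c hn ht md x hx hP K hK
  have hMF : Module.Finite F V := Module.Finite.of_finite
  have h1 := md (hat x hx K) (sl_hat x hx K) (fun h => hK (not_all x hx K h))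
  have h2 := (hOrb F V H x hx).2.2 ht
  have h3 := card_Ix (H := H) x hx hP
  have h4 := card_hat x hx K
  calc Nat.card F ^ (finrank F V - 1) * (Nat.card F - 1) ^ 2 * Nat.card K
      = (Nat.card F - 1) * (Nat.card F ^ (finrank F V - 1) * (Nat.card F - 1) * Nat.card K) := by
        ring
    _ ≤ (Nat.card F - 1) * (c * Nat.card H) := Nat.mul_le_mul_left _ (h4.trans h1)
    _ = c * ((Nat.card F - 1) * Nat.card H) := by ring
    _ = c * ((Nat.card F ^ finrank F V - 1) *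
        Nat.card {h : V ≃ₗ[F] V // h ∈ H ∧ ∃ a : F, h x = a • x}) := by rw [h2]
    _ ≤ c * ((Nat.card F ^ finrank F V - 1) * Nat.card (Ix H x)) :=
        Nat.mul_le_mul_left _ (Nat.mul_le_mul_left _ h3)
    _ = _ := by ring

end SpreadPerm.LG
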