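import Pool.Agent.Lib.MP_e6ed9e_al.LG.Defs2
import Pool.Agent.Lib.MP_e6ed9e_al.PL.Prim96

/-!
# Row MAIN
-/

namespace SpreadPerm.LG

open Module MulAction

/-- The stabilizer of `ω` times the scalars. -/
def hs56 {F V Ω : Type} [Field F] [AddCommGroup V] [Module F V] (Γ : Subgroup (V ≃ₗ[F] V))
    [MulAction Γ Ω] (ω : Ω) : Subgroup (V ≃ₗ[F] V) where
  carrier := {g | ∃ (s : Γ) (a : F), a ≠ 0 ∧ s • ω = ω ∧ ∀ v, g v = a • s.1 v}
  one_mem' := ⟨1, 1, one_ne_zero, one_smul _ _, fun v => by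
    rw [one_smul, Subgroup.coe_one]⟩
  mul_mem' := by
    rintro g h ⟨s, a, ha, hs, hg⟩ ⟨s', a', ha', hs', hg'⟩
    refine ⟨s * s', a * a', mul_ne_zero ha ha', ?_, fun v => ?_⟩
    · rw [mul_smul, hs', hs]
    · rw [Subgroup.coe_mul]
      show g (h v) = (a * a') • s.1 (s'.1 v)
      rw [hg, hg', map_smul, smul_smul]
  inv_mem' := by
    rintro g ⟨s, a, ha, hs, hg⟩
    refine ⟨s⁻¹, a⁻¹, inv_ne_zero ha, ?_, fun v => ?_⟩
    · rw [inv_smul_eq_iff, hs]
    · rw [Subgroup.coe_inv]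
      show g.symm v = a⁻¹ • s.1.symm v
      rw [LinearEquiv.symm_apply_eq, hg, map_smul, LinearEquiv.apply_symm_apply, smul_inv_smul₀ ha]

theorem main56 (tt : StTT) (mdl : StMdl) (pt : StPt2) (hy : StHy2) (gen : StGen) : StMain := by
  intro F V Ω _ _ _ _ _ _ Γ _ _ hA hdim hq hS
  obtain ⟨g, hg, ω, hω⟩ := hA.nt
  have hcard : 1 < Fintype.card Ω := by
    rw [Fintype.one_lt_card_iff]
    exact ⟨_, _, hω⟩
  have hco := PL.prim96 Γ Ω hS hcard ω
  have hmem : ∀ g, g ∈ hs56 Γ ω ↔ ∃ (s : Γ) (a : F), a ≠ 0 ∧ s • ω = ω ∧ ∀ v, g v = a • s.1 v :=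
    fun g => Iff.rfl
  have hMD := mdl F V Ω Γ hA hS ω (hs56 Γ ω) hmem
  have hstab : ∀ s : Γ, s • ω = ω → s.1 ∈ hs56 Γ ω := fun s hs =>
    ⟨s, 1, one_ne_zero, hs, fun v => by rw [one_smul]⟩
  have hsc : Scal (hs56 Γ ω) := by
    intro a ha
    refine ⟨LinearEquiv.smulOfNeZero F V a ha, ⟨1, a, ha, one_smul _ _, fun v => ?_⟩, fun v => ?_⟩
    · rfl
    · rfl
  set c : ℕ := 2 * finrank F V ^ 3 * (Nat.log 2 (Nat.card F) + 1) with hc
  have hc1 : 1 ≤ c := by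
    rw [hc]
    have h1 : 0 < finrank F V := by omega
    exact Nat.succ_le_of_lt (by positivity)
  have hc2 : 100 * c ^ 2 ≤ Nat.card F := by
    refine le_trans (le_of_eq ?_) hq
    rw [hc]
    ring
  rcases tt F V (hs56 Γ ω) c hc1 hc2 hdim hsc hMD with hF | ⟨x, hx, hx'⟩ | ⟨μ, hμ, hμ'⟩
  · exfalso
    apply hω
    have hK : Subgroup.closure {t : V ≃ₗ[F] V | ∃ (x : V) (φ : V →ₗ[F] F), φ x = 0 ∧
        ∀ v, t v = v + φ v • x} ≤ (stabilizer Γ ω).map Γ.subtype := by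
      rw [Subgroup.closure_le]
      rintro t ⟨x, φ, hφx, ht⟩
      obtain ⟨h, hh, hv⟩ := hF x φ hφx
      have hth : t = h := LinearEquiv.ext fun v => by rw [ht, hv]
      subst hth
      obtain ⟨s, a, ha, hs, hsv⟩ := hh
      have htd : LinearEquiv.det t = 1 := by
        have h1 : t = LinearEquiv.transvection hφx := LinearEquiv.ext fun v => by
          rw [ht, LinearEquiv.transvection.apply]
        rw [h1]
        exact LinearEquiv.transvection.det_eq_one hφx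
      set t' : Γ := ⟨t, hA.sl t htd⟩ with ht'
      have h1 : (t' * s⁻¹) • ω = ω := by
        apply hA.sc
        refine ⟨a, fun v => ?_⟩
        show t (s.1.symm v) = a • v
        rw [hsv, LinearEquiv.apply_symm_apply]
      have h2 : s⁻¹ • ω = ω := by rw [inv_smul_eq_iff, hs]
      rw [mul_smul, h2] at h1
      exact ⟨t', h1, rfl⟩
    obtain ⟨s, hs, hsg⟩ := hK (gen F V (by omega) g.1 hg)
    have h3 : s = g := Subtype.ext hsg
    rw [← h3]
    exact hs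
  · exact pt F V Ω Γ hA (by omega) ω hco ⟨x, hx, fun s hs => hx' s.1 (hstab s hs)⟩
  · exact hy F V Ω Γ hA (by omega) ω hco ⟨μ, hμ, fun s hs => hμ' s.1 (hstab s hs)⟩

end SpreadPerm.LG
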