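import Mathlib
import Pool.Agent.Lib.MP_e6ed9e_al.LG.Defs2
import Pool.Agent.Lib.MP_e6ed9e_al.LG.Hom79

/-!
# Row NON: two noncenters and a common point of their axes
-/

namespace SpreadPerm.LG

open Module MulAction

theorem non79_bound (hBA : StBA) {F V : Type} [Field F] [Finite F] [AddCommGroup V] [Module F V]
    [Finite V] (H : Subgroup (V ≃ₗ[F] V)) (c : ℕ) (hc : 1 ≤ c) (hq : 100 * c ^ 2 ≤ Nat.card F)
    (hn : 3 ≤ finrank F V) (hBig : Big c H) (y : V) (hy : y ≠ 0) (hCtr : ¬ Ctr H y)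
    (μ : V →ₗ[F] F) (hμ0 : μ ≠ 0) (hμ : μ ∈ P H y) (z : V) (hz : z ≠ 0) (hμz : μ z = 0) :
    Nat.card F ^ (finrank F V - 3) * (Nat.card F - 1) ≤
      c * Nat.card {φ : V →ₗ[F] F // φ ∈ E H z ∧ φ y = 0} := by
  have hE : ∀ χ ∈ E H y, χ = 0 := by
    intro χ hχ
    by_contra h0
    exact hCtr ⟨χ, hχ, h0⟩
  have hμy : μ y ≠ 0 := fun h0 => hμ0 (hE μ ⟨hμ, h0⟩)
  obtain ⟨μ1, h1, h2, -, -, h3⟩ := hBA F V H c hc hq hn hBig y hy hCtr
  refine h3 z hz ?_
  have h4 := LinearMap.congr_fun (prop79 hy hE hμ h2) z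
  change μ y * μ1 z = μ1 y * μ z at h4
  rw [hμz, mul_zero] at h4
  exact (mul_eq_zero.1 h4).resolve_left hμy

theorem non79 (hBA : StBA) : StNon := by
  intro F V _ _ _ _ _ H c hc hq hn hBig x y hx hy hCtr φ hφ hφy μ hμ0 hμ hμx
  haveI : Module.Finite F V := Module.Finite.of_finite
  obtain ⟨⟨t, ht, ht'⟩, hφx⟩ := hφ
  have hts : ∀ v, t.symm v = v - φ v • x := by
    intro v
    rw [LinearEquiv.symm_apply_eq, ht', map_sub, map_smul, hφx]
    simp
  have hty : t y = y + φ y • x := ht' y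
  set y' : V := y + φ y • x with hy'
  have hy'0 : y' ≠ 0 := by
    intro h0
    rw [h0] at hty
    exact hy ((LinearEquiv.map_eq_zero_iff t).1 hty)
  have hCtr' : ¬ Ctr H y' := by
    rintro ⟨χ, ⟨hχ, hχy⟩, hχ0⟩
    apply hCtr
    have h1 : χ ∘ₗ ((t⁻¹).symm : V →ₗ[F] V) ∈ P H (t⁻¹ (t y)) := by
      rw [hty]
      exact pconj79 hχ (H.inv_mem ht)
    have h2 : (t⁻¹ : V ≃ₗ[F] V) (t y) = y := LinearEquiv.symm_apply_apply t y
    rw [h2] at h1
    refine ⟨_, ⟨h1, ?_⟩, ?_⟩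
    · show χ (t y) = 0
      rw [hty, hχy]
    · intro h0
      apply hχ0
      ext v
      have h3 := LinearMap.congr_fun h0 (t.symm v)
      change χ (t (t.symm v)) = 0 at h3
      rw [LinearEquiv.apply_symm_apply] at h3
      simpa using h3
  set μ' : V →ₗ[F] F := μ ∘ₗ (t.symm : V →ₗ[F] V) with hμ'
  have hμ'P : μ' ∈ P H y' := by
    have := pconj79 hμ ht
    rwa [hty] at this
  have hμ'v : ∀ v, μ' v = μ v - φ v * μ x := by
    intro v
    show μ (t.symm v) = _
    rw [hts, map_sub, map_smul, smul_eq_mul]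
  have hμ'0 : μ' ≠ 0 := by
    intro h0
    apply hμ0
    ext v
    have h3 := LinearMap.congr_fun h0 (t v)
    change μ (t.symm (t v)) = 0 at h3
    rw [LinearEquiv.symm_apply_apply] at h3
    simpa using h3
  -- a common point of the axes
  have hex : ∃ z : V, z ≠ 0 ∧ μ z = 0 ∧ μ' z = 0 := by
    have hk : LinearMap.ker (μ.prod μ') ≠ ⊥ := by
      apply LinearMap.ker_ne_bot_of_finrank_lt
      rw [Module.finrank_prod, Module.finrank_self]
      omega
    obtain ⟨z, hz, hz0⟩ := Submodule.exists_mem_ne_zero_of_ne_bot hk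
    have hz' : (μ.prod μ') z = 0 := hz
    exact ⟨z, hz0, congrArg Prod.fst hz', congrArg Prod.snd hz'⟩
  obtain ⟨z, hz, hμz, hμz'⟩ := hex
  have hφz : φ z = 0 := by
    rw [hμ'v, hμz, zero_sub, neg_eq_zero] at hμz'
    exact (mul_eq_zero.1 hμz').resolve_right hμx
  refine ⟨z, ?_, non79_bound hBA H c hc hq hn hBig y hy hCtr μ hμ0 hμ z hz hμz,
    non79_bound hBA H c hc hq hn hBig y' hy'0 hCtr' μ' hμ'0 hμ'P z hz hμz'⟩
  rw [Fintype.linearIndependent_iff]
  intro g hg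
  rw [Fin.sum_univ_three] at hg
  change g 0 • x + g 1 • y + g 2 • z = 0 at hg
  have e1 : g 1 = 0 := by
    have := congrArg φ hg
    rw [map_add, map_add, map_smul, map_smul, map_smul, hφx, hφz, map_zero, smul_zero, smul_zero,
      zero_add, add_zero, smul_eq_mul] at this
    exact (mul_eq_zero.1 this).resolve_right hφy
  rw [e1, zero_smul, add_zero] at hg
  have e0 : g 0 = 0 := by
    have := congrArg μ hg
    rw [map_add, map_smul, map_smul, hμz, map_zero, smul_zero, add_zero, smul_eq_mul] at this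
    exact (mul_eq_zero.1 this).resolve_right hμx
  rw [e0, zero_smul, zero_add] at hg
  have e2 : g 2 = 0 := (smul_eq_zero.1 hg).resolve_right hz
  intro i
  fin_cases i
  · exact e0
  · exact e1
  · exact e2

end SpreadPerm.LG
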