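import Pool.Agent.Lib.MP_e6ed9e_al.LG.Defs

/-!
# Row NUL: the null polarity
-/

namespace SpreadPerm.LG.Nul1

open Module MulAction

section
variable {F V : Type} [Field F] [AddCommGroup V] [Module F V]

theorem P_conj {H : Subgroup (V ≃ₗ[F] V)} {x : V} {φ : V →ₗ[F] F} (hφ : φ ∈ P H x)
    {h : V ≃ₗ[F] V} (hh : h ∈ H) : φ ∘ₗ ((h⁻¹ : V ≃ₗ[F] V) : V →ₗ[F] V) ∈ P H (h x) := by
  obtain ⟨g, hg, hgv⟩ := hφ
  refine ⟨h * g * h⁻¹, H.mul_mem (H.mul_mem hh hg) (H.inv_mem hh), fun v => ?_⟩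
  show h (g (h⁻¹ v)) = _
  rw [hgv, map_add, map_smul]
  congr 1
  exact h.apply_symm_apply v

/-- The axis of `y` is invariant under a perspectivity which fixes `y`. -/
theorem key {H : Subgroup (V ≃ₗ[F] V)} (hO : OneAx H) {x y : V} (hy : y ≠ 0) {φ ψ : V →ₗ[F] F}
    (hφ : φ ∈ P H x) (hφy : φ y = 0) (hψ : ψ ∈ E H y) (hψ0 : ψ ≠ 0) (hψx : ψ x ≠ 0) :
    ∃ b : F, φ = b • ψ := by
  obtain ⟨t, ht, htv⟩ := hφ
  have hty : t y = y := by rw [htv, hφy, zero_smul, add_zero]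
  have hty' : t⁻¹ y = y := by
    show t.symm y = y
    rw [LinearEquiv.symm_apply_eq, hty]
  have h1 : ψ ∘ₗ ((t⁻¹⁻¹ : V ≃ₗ[F] V) : V →ₗ[F] V) ∈ P H (t⁻¹ y) := P_conj hψ.1 (H.inv_mem ht)
  rw [hty', inv_inv] at h1
  have h2 : ψ ∘ₗ (t : V →ₗ[F] V) ∈ E H y := by
    refine ⟨h1, ?_⟩
    show ψ (t y) = 0
    rw [hty, hψ.2]
  obtain ⟨lam, hlam, hlam0, hall⟩ := hO y hy
  obtain ⟨a, ha⟩ := hall ψ hψ
  obtain ⟨b, hb⟩ := hall _ h2
  have ha0 : a ≠ 0 := by
    rintro rfl
    rw [zero_smul] at ha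
    exact hψ0 ha
  refine ⟨(ψ x)⁻¹ * (b * a⁻¹ - 1), ?_⟩
  ext v
  have e1 : ψ v = a * lam v := by rw [ha]; rfl
  have e2 : ψ (t v) = b * lam v := by
    have := LinearMap.congr_fun hb v
    simpa using this
  rw [htv, map_add, map_smul, smul_eq_mul] at e2
  have e3 : lam v = a⁻¹ * ψ v := by rw [e1]; field_simp
  rw [e3] at e2
  show φ v = ((ψ x)⁻¹ * (b * a⁻¹ - 1)) * ψ v
  have e4 : φ v * ψ x = (b * a⁻¹ - 1) * ψ v := by linear_combination e2
  rw [mul_assoc, ← e4]
  field_simp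

theorem sym {H : Subgroup (V ≃ₗ[F] V)} (hO : OneAx H) {x y : V} (hy : y ≠ 0) {φ ψ : V →ₗ[F] F}
    (hφ : φ ∈ E H x) (hφ0 : φ ≠ 0) (hφy : φ y = 0) (hψ : ψ ∈ E H y) (hψ0 : ψ ≠ 0) : ψ x = 0 := by
  by_contra hc
  obtain ⟨b, hb⟩ := key hO hy hφ.1 hφy hψ hψ0 hc
  have h1 : φ x = b * ψ x := by rw [hb]; rfl
  rw [hφ.2] at h1
  rcases mul_eq_zero.1 h1.symm with h | h
  · exact hφ0 (by rw [hb, h, zero_smul])
  · exact hc h

theorem exists_common [FiniteDimensional F V] (h3 : 3 ≤ finrank F V) (φ ψ : V →ₗ[F] F) :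
    ∃ z : V, z ≠ 0 ∧ φ z = 0 ∧ ψ z = 0 := by
  have h : LinearMap.ker (φ.prod ψ) ≠ ⊥ := by
    apply LinearMap.ker_ne_bot_of_finrank_lt
    rw [finrank_prod, finrank_self]
    omega
  obtain ⟨z, hz, hz0⟩ := Submodule.exists_mem_ne_zero_of_ne_bot h
  have h1 : (φ z, ψ z) = (0 : F × F) := hz
  exact ⟨z, hz0, (Prod.ext_iff.1 h1).1, (Prod.ext_iff.1 h1).2⟩

/-- A functional which vanishes where `φ` does and at a vector outside is zero. -/
theorem eq_zero {φ ψ : V →ₗ[F] F} {x : V} (hx : φ x ≠ 0) (h : ∀ v, φ v = 0 → ψ v = 0)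
    (hψ : ψ x = 0) : ψ = 0 := by
  ext v
  have h1 : φ (v - (φ v / φ x) • x) = 0 := by
    rw [map_sub, map_smul, smul_eq_mul]
    field_simp
    ring
  have h2 := h _ h1
  rw [map_sub, map_smul, hψ, smul_zero, sub_zero] at h2
  simpa using h2

end

/-- Row NUL. -/
theorem nul1 : StNul := by
  intro F V _ _ _ _ _ H h3 hP hO
  have hfd : FiniteDimensional F V := inferInstance
  refine ⟨?_, ?_, ?_⟩
  · by_contra h4
    have h3' : finrank F V = 3 := by omega
    have : Nontrivial V := by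
      apply nontrivial_of_finrank_pos (R := F)
      omega
    obtain ⟨x, hx⟩ := exists_ne (0 : V)
    obtain ⟨lx, hlx, hlx0, -⟩ := hO x hx
    obtain ⟨z, hz⟩ : ∃ z, lx z ≠ 0 := by
      by_contra hc
      push Not at hc
      exact hlx0 (LinearMap.ext hc)
    have hz0 : z ≠ 0 := by
      rintro rfl
      exact hz (map_zero _)
    obtain ⟨lz, hlz, hlz0, -⟩ := hO z hz0
    obtain ⟨y, hy, hxy, hzy⟩ := exists_common h3 lx lz
    obtain ⟨ly, hly, hly0, -⟩ := hO y hy
    have e1 : ly z = 0 := sym hO hy hlz hlz0 hzy hly hly0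
    have e2 : ly x = 0 := sym hO hy hlx hlx0 hxy hly hly0
    have hni : ∀ a : F, y ≠ a • x := by
      rintro a rfl
      have ha : a ≠ 0 := by
        rintro rfl
        exact hy (zero_smul _ _)
      rw [map_smul, smul_eq_mul, mul_eq_zero] at hzy
      rcases hzy with h | h
      · exact ha h
      · exact hz (sym hO hx hlz hlz0 h hlx hlx0)
    have hxy2 : LinearIndependent F ![x, y] := by
      rw [LinearIndependent.pair_iff' hx]
      intro a ha
      exact hni a ha.symm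
    rw [LinearIndependent.pair_iff] at hxy2
    have hli : LinearIndependent F ![x, y, z] := by
      rw [Fintype.linearIndependent_iff]
      intro g hg
      rw [Fin.sum_univ_three] at hg
      change g 0 • x + g 1 • y + g 2 • z = 0 at hg
      have h1 := congrArg lx hg
      rw [map_add, map_add, map_smul, map_smul, map_smul, hlx.2, hxy, smul_zero, smul_zero,
        zero_add, zero_add, map_zero, smul_eq_mul] at h1
      have h2 : g 2 = 0 := (mul_eq_zero.1 h1).resolve_right hz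
      rw [h2, zero_smul, add_zero] at hg
      have h4 := hxy2 (g 0) (g 1) hg
      intro i
      fin_cases i
      · exact h4.1
      · exact h4.2
      · exact h2
    have hsp : Submodule.span F (Set.range ![x, y, z]) = ⊤ :=
      hli.span_eq_top_of_card_eq_finrank' (by simp [h3'])
    apply hly0
    apply LinearMap.ext_on hsp
    rintro _ ⟨i, rfl⟩
    fin_cases i
    · exact e2
    · exact hly.2
    · exact e1
  · intro x hx φ hφ
    by_contra hc
    obtain ⟨lx, hlx, hlx0, -⟩ := hO x hx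
    obtain ⟨y0, hy0, hy0'⟩ : ∃ y0, φ y0 = 0 ∧ lx y0 ≠ 0 := by
      by_contra hcc
      push Not at hcc
      exact hlx0 (eq_zero hc hcc hlx.2)
    obtain ⟨z, hz, hφz, hlz⟩ := exists_common h3 φ lx
    obtain ⟨lz, hlzE, hlz0, -⟩ := hO z hz
    have hA : ∀ y, φ y = 0 → lx y ≠ 0 → lz y = 0 := by
      intro y hy hly
      have hy0 : y ≠ 0 := by
        rintro rfl
        exact hly (map_zero _)
      obtain ⟨lam, hlam, hlam0, -⟩ := hO y hy0
      have h1 : lam x ≠ 0 := fun h => hly (sym hO hx hlam hlam0 h hlx hlx0)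
      obtain ⟨b, hb⟩ := key hO hy0 hφ hy hlam hlam0 h1
      have hb0 : b ≠ 0 := by
        rintro rfl
        rw [zero_smul] at hb
        rw [hb] at hc
        exact hc rfl
      have h2 : φ z = b * lam z := by rw [hb]; rfl
      rw [hφz] at h2
      have h3 : lam z = 0 := (mul_eq_zero.1 h2.symm).resolve_left hb0
      exact sym hO hz hlam hlam0 h3 hlzE hlz0
    have hB : ∀ v, φ v = 0 → lz v = 0 := by
      intro v hv
      by_cases h : lx v = 0
      · have h1 := hA (v + y0) (by rw [map_add, hv, hy0, add_zero])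
          (by rw [map_add, h, zero_add]; exact hy0')
        rw [map_add, hA y0 hy0 hy0', add_zero] at h1
        exact h1
      · exact hA v hv h
    exact hlz0 (eq_zero hc hB (sym hO hz hlx hlx0 hlz hlzE hlz0))
  · intro x y hx hy φ hφ ψ hψ hφ0 hψ0 h
    exact sym hO hy hφ hφ0 h hψ hψ0

end SpreadPerm.LG.Nul1
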