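import Pool.Agent.Lib.MP_e6ed9e_al.LG.Defs

/-! # Row NULMD -/

namespace SpreadPerm.LG

open Module MulAction

namespace N35

section
variable {F V : Type} [Field F] [AddCommGroup V] [Module F V]

/-- An isomorphism of subspaces extends. -/
theorem exists_ext [FiniteDimensional F V] {L L' : Submodule F V} (e : L ≃ₗ[F] L') :
    ∃ g : V ≃ₗ[F] V, ∀ v : L, g v = e v := by
  obtain ⟨C, hC⟩ := L.exists_isCompl
  obtain ⟨C', hC'⟩ := L'.exists_isCompl
  have h1 := Submodule.finrank_add_eq_of_isCompl hC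
  have h2 := Submodule.finrank_add_eq_of_isCompl hC'
  have h3 := e.finrank_eq
  have h4 : finrank F C = finrank F C' := by omega
  let f : C ≃ₗ[F] C' := LinearEquiv.ofFinrankEq C C' h4
  refine ⟨(L.prodEquivOfIsCompl C hC).symm ≪≫ₗ (e.prodCongr f) ≪≫ₗ
    (L'.prodEquivOfIsCompl C' hC'), fun v => ?_⟩
  simp only [LinearEquiv.trans_apply]
  rw [Submodule.prodEquivOfIsCompl_symm_apply_left]
  simp [Submodule.coe_prodEquivOfIsCompl']

/-- The stabilizer of a subspace. -/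
def stab (L : Submodule F V) : Subgroup (V ≃ₗ[F] V) where
  carrier := {g | ∀ v, g v ∈ L ↔ v ∈ L}
  one_mem' := fun v => Iff.rfl
  mul_mem' := by
    intro a b ha hb v
    show a (b v) ∈ L ↔ _
    rw [ha, hb]
  inv_mem' := by
    intro a ha v
    show a.symm v ∈ L ↔ _
    rw [← ha (a.symm v), LinearEquiv.apply_symm_apply]

theorem mem_stab {L : Submodule F V} {g : V ≃ₗ[F] V} : g ∈ stab L ↔ ∀ v, g v ∈ L ↔ v ∈ L := Iff.rfl

theorem stab_of_le [FiniteDimensional F V] {L : Submodule F V} {g : V ≃ₗ[F] V}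
    (h : ∀ v ∈ L, g v ∈ L) : g ∈ stab L := by
  have h1 : L.map (g : V →ₗ[F] V) = L := by
    apply Submodule.eq_of_le_of_finrank_eq
    · rintro _ ⟨v, hv, rfl⟩
      exact h v hv
    · exact LinearEquiv.finrank_map_eq g L
  intro v
  constructor
  · intro hv
    rw [← h1] at hv
    obtain ⟨w, hw, hwv⟩ := hv
    have : w = v := g.injective hwv
    rwa [← this]
  · exact h v

/-- The pointwise stabilizer of a subspace. -/
def Fx (L : Submodule F V) : Type := {g : V ≃ₗ[F] V // ∀ v ∈ L, g v = v}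

theorem card_le1 [Finite F] [Finite V] (L : Submodule F V) :
    Nat.card (V ≃ₗ[F] V) ≤ Nat.card (L →ₗ[F] V) * Nat.card (Fx L) := by
  classical
  haveI : Finite (V ≃ₗ[F] V) := Finite.of_injective (fun g : V ≃ₗ[F] V => (g : V → V))
    (fun a b h => LinearEquiv.ext (fun v => congrFun h v))
  haveI : Finite (L →ₗ[F] V) := Finite.of_injective (fun g : L →ₗ[F] V => (g : L → V))
    (fun a b h => LinearMap.ext (fun v => congrFun h v))
  haveI : Finite (Fx L) := Subtype.finite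
  let ρ : (V ≃ₗ[F] V) → (L →ₗ[F] V) := fun g => (g : V →ₗ[F] V) ∘ₗ L.subtype
  let s : (L →ₗ[F] V) → (V ≃ₗ[F] V) := fun r => if h : ∃ g, ρ g = r then h.choose else 1
  have hs : ∀ g, ρ (s (ρ g)) = ρ g := by
    intro g
    have h : ∃ g', ρ g' = ρ g := ⟨g, rfl⟩
    show ρ (if h : ∃ g', ρ g' = ρ g then h.choose else 1) = _
    rw [dif_pos h]
    exact h.choose_spec
  have hmem : ∀ g : V ≃ₗ[F] V, ∀ v ∈ L, ((s (ρ g))⁻¹ * g) v = v := by
    intro g v hv
    have h1 : (s (ρ g)) v = g v := by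
      have := LinearMap.congr_fun (hs g) ⟨v, hv⟩
      exact this
    show (s (ρ g)).symm (g v) = v
    rw [← h1, LinearEquiv.symm_apply_apply]
  rw [← Nat.card_prod]
  refine Nat.card_le_card_of_injective
    (fun g => (ρ g, (⟨(s (ρ g))⁻¹ * g, hmem g⟩ : Fx L))) ?_
  intro g g' h
  simp only [Prod.mk.injEq] at h
  obtain ⟨h1, h2⟩ := h
  have h3 : (s (ρ g))⁻¹ * g = (s (ρ g'))⁻¹ * g' := congrArg Subtype.val h2
  rw [h1] at h3
  exact mul_left_cancel h3

theorem card_le2 [Finite F] [Finite V] (L : Submodule F V) :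
    Nat.card (L ≃ₗ[F] L) * Nat.card (Fx L) ≤ Nat.card (stab L) := by
  classical
  haveI : Finite (V ≃ₗ[F] V) := Finite.of_injective (fun g : V ≃ₗ[F] V => (g : V → V))
    (fun a b h => LinearEquiv.ext (fun v => congrFun h v))
  haveI : Finite (stab L) := Subtype.finite
  choose ex hex using fun e : L ≃ₗ[F] L => exists_ext e
  rw [← Nat.card_prod]
  have hmem : ∀ p : (L ≃ₗ[F] L) × Fx L, ex p.1 * p.2.1 ∈ stab L := by
    rintro ⟨e, g⟩
    apply stab_of_le
    intro v hv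
    show ex e (g.1 v) ∈ L
    rw [g.2 v hv, hex e ⟨v, hv⟩]
    exact (e _).2
  refine Nat.card_le_card_of_injective (fun p => (⟨ex p.1 * p.2.1, hmem p⟩ : stab L)) ?_
  rintro ⟨e, g⟩ ⟨e', g'⟩ h
  have h1 : ex e * g.1 = ex e' * g'.1 := congrArg Subtype.val h
  have h2 : e = e' := by
    ext v
    have h3 := LinearEquiv.congr_fun h1 (v : V)
    have h4 : ex e (g.1 v) = ex e' (g'.1 v) := h3
    rw [g.2 v v.2, g'.2 v v.2, hex, hex] at h4
    exact h4
  subst h2
  have h5 : g.1 = g'.1 := mul_left_cancel h1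
  exact Prod.ext rfl (Subtype.ext h5)

theorem card_gl [Finite F] (L : Type) [AddCommGroup L] [Module F L] [Module.Finite F L]
    (h2 : finrank F L = 2) :
    Nat.card (L ≃ₗ[F] L) = (Nat.card F ^ 2 - 1) * (Nat.card F ^ 2 - Nat.card F) := by
  classical
  haveI := Fintype.ofFinite F
  have b : Basis (Fin 2) F L := (Module.finBasisOfFinrankEq F L h2)
  have e1 : (L ≃ₗ[F] L) ≃* GL (Fin 2) F :=
    (LinearMap.GeneralLinearGroup.generalLinearEquiv F L).symm.trans
      (Units.mapEquiv (LinearMap.toMatrixAlgEquiv b).toMulEquiv)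
  rw [Nat.card_congr e1.toEquiv, Matrix.card_GL_field, Fin.prod_univ_two]
  simp [Nat.card_eq_fintype_card]

theorem E_conj {H : Subgroup (V ≃ₗ[F] V)} {h : V ≃ₗ[F] V} (hh : h ∈ H) {u : V}
    {φ : V →ₗ[F] F} (hφ : φ ∈ E H (h u)) : φ ∘ₗ (h : V →ₗ[F] V) ∈ E H u := by
  obtain ⟨⟨g, hg, hgv⟩, h0⟩ := hφ
  refine ⟨⟨h⁻¹ * g * h, H.mul_mem (H.mul_mem (H.inv_mem hh) hg) hh, fun v => ?_⟩, h0⟩
  show h.symm (g (h v)) = _
  rw [hgv, map_add, map_smul, LinearEquiv.symm_apply_apply, LinearEquiv.symm_apply_apply]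
  rfl

theorem E_smul {H : Subgroup (V ≃ₗ[F] V)} {x : V} {a : F} (ha : a ≠ 0)
    {φ : V →ₗ[F] F} (hφ : φ ∈ E H x) : a⁻¹ • φ ∈ E H (a • x) := by
  obtain ⟨⟨g, hg, hgv⟩, h0⟩ := hφ
  refine ⟨⟨g, hg, fun v => ?_⟩, ?_⟩
  · rw [hgv, LinearMap.smul_apply, smul_eq_mul, smul_smul, mul_comm a⁻¹, mul_assoc,
      inv_mul_cancel₀ ha, mul_one]
  · simp [h0]

end

theorem arith35 (q n m c g h k f gx hx p : ℕ) (hm : n = m + 2) (hc : 1 ≤ c)
    (hq : 100 * c ^ 2 ≤ q)
    (hloc : q ^ (n - 1) * (q - 1) * q ^ (n - 2) * hx ≤ gx * p) (hP : p ≤ q)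
    (h1 : (q - 1) * g = (q ^ n - 1) * gx) (h2 : (q - 1) * h = (q ^ n - 1) * hx)
    (hc1 : g ≤ q ^ (2 * n) * f) (hc2 : (q ^ 2 - 1) * (q ^ 2 - q) * f ≤ k) (hk : k ≤ c * h)
    (hf : 0 < f) : False := by
  have hq1 : 100 * c ≤ q := by nlinarith
  have hq100 : 100 ≤ q := by nlinarith
  obtain ⟨r, hr⟩ : ∃ r, q = r + 1 := ⟨q - 1, by omega⟩
  have hr1 : q - 1 = r := by omega
  rw [hr1] at hloc h1 h2
  have e1 : n - 1 = m + 1 := by omega
  have e2 : n - 2 = m := by omega
  rw [e1, e2] at hloc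
  have hrpos : 0 < r := by omega
  have hqpos : 0 < q := by omega
  -- `q^(2m) r h ≤ g`
  have s1 : q ^ (2 * m) * r * h ≤ g := by
    have t1 : q ^ (m + 1) * r * q ^ m * hx ≤ gx * q :=
      hloc.trans (Nat.mul_le_mul_left _ hP)
    have t2 : q ^ (m + 1) * r * q ^ m * hx * (q ^ n - 1) ≤ gx * q * (q ^ n - 1) :=
      Nat.mul_le_mul_right _ t1
    have t3 : (q * r) * (q ^ (2 * m) * r * h) ≤ (q * r) * g := by
      calc (q * r) * (q ^ (2 * m) * r * h) = q ^ (m + 1) * r * q ^ m * (r * h) := by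
            rw [two_mul, pow_add, pow_succ]; ring
        _ = q ^ (m + 1) * r * q ^ m * hx * (q ^ n - 1) := by rw [h2]; ring
        _ ≤ gx * q * (q ^ n - 1) := t2
        _ = q * ((q ^ n - 1) * gx) := by ring
        _ = (q * r) * g := by rw [← h1]; ring
    exact Nat.le_of_mul_le_mul_left t3 (by positivity)
  have s2 : r * h ≤ q ^ 4 * f := by
    have t1 : q ^ (2 * m) * (r * h) ≤ q ^ (2 * m) * (q ^ 4 * f) := by
      calc q ^ (2 * m) * (r * h) = q ^ (2 * m) * r * h := by ring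
        _ ≤ g := s1
        _ ≤ q ^ (2 * n) * f := hc1
        _ = q ^ (2 * m) * (q ^ 4 * f) := by
            rw [hm, show 2 * (m + 2) = 2 * m + 4 by ring, pow_add]; ring
    exact Nat.le_of_mul_le_mul_left t1 (by positivity)
  have s3 : r * ((q ^ 2 - 1) * (q ^ 2 - q)) ≤ c * q ^ 4 := by
    have t1 : f * (r * ((q ^ 2 - 1) * (q ^ 2 - q))) ≤ f * (c * q ^ 4) := by
      calc f * (r * ((q ^ 2 - 1) * (q ^ 2 - q))) = r * ((q ^ 2 - 1) * (q ^ 2 - q) * f) := by ring
        _ ≤ r * (c * h) := Nat.mul_le_mul_left _ (hc2.trans hk)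
        _ = c * (r * h) := by ring
        _ ≤ c * (q ^ 4 * f) := Nat.mul_le_mul_left _ s2
        _ = f * (c * q ^ 4) := by ring
    exact Nat.le_of_mul_le_mul_left t1 hf
  have s4 : 99 * c ≤ r := by omega
  have s5 : 99 * ((q ^ 2 - 1) * (q ^ 2 - q)) ≤ q ^ 4 := by
    have t1 : c * (99 * ((q ^ 2 - 1) * (q ^ 2 - q))) ≤ c * q ^ 4 := by
      calc c * (99 * ((q ^ 2 - 1) * (q ^ 2 - q))) = 99 * c * ((q ^ 2 - 1) * (q ^ 2 - q)) := by ring
        _ ≤ r * ((q ^ 2 - 1) * (q ^ 2 - q)) := Nat.mul_le_mul_right _ s4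
        _ ≤ c * q ^ 4 := s3
    exact Nat.le_of_mul_le_mul_left t1 hc
  have s6 : q ^ 2 ≤ 2 * (q ^ 2 - 1) := by
    have : 2 ≤ q ^ 2 := by nlinarith
    omega
  have s7 : q ^ 2 ≤ 2 * (q ^ 2 - q) := by
    have : 2 * q ≤ q ^ 2 := by nlinarith
    omega
  have s8 : q ^ 2 * q ^ 2 ≤ (2 * (q ^ 2 - 1)) * (2 * (q ^ 2 - q)) := Nat.mul_le_mul s6 s7
  have s9 : 0 < q ^ 4 := by positivity
  have s10 : q ^ 4 = q ^ 2 * q ^ 2 := by ring
  nlinarith

end N35

open N35 in
/-- Row NULMD. -/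
theorem nulMD35 (hNul : StNul) (hLoc2 : StLoc2) (hOrb : StOrb) : StNulMD := by
  classical
  intro F V _ _ _ _ _ H c hc hq hn hS hT hO hMD
  obtain ⟨hn4, hPx, hsym⟩ := hNul F V H hn hT hO
  set q := Nat.card F with hqdef
  set n := finrank F V with hndef
  haveI : Module.Finite F V := Module.Finite.of_finite
  haveI : Nontrivial V := Module.nontrivial_of_finrank_pos (R := F) (by omega)
  haveI : Finite (V ≃ₗ[F] V) := Finite.of_injective (fun g : V ≃ₗ[F] V => (g : V → V))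
    (fun a b h => LinearEquiv.ext (fun v => congrFun h v))
  obtain ⟨x, hx⟩ := exists_ne (0 : V)
  obtain ⟨lam, hlamE, hlam0, hlam⟩ := hO x hx
  have hlx : lam x = 0 := hlamE.2
  -- the hyperplane
  have hker : finrank F (LinearMap.ker lam) + 1 = n := by
    have h1 := LinearMap.finrank_range_add_finrank_ker lam
    have h2 : LinearMap.range lam = ⊤ := LinearMap.range_eq_top.2 (LinearMap.surjective hlam0)
    rw [h2, finrank_top, finrank_self] at h1
    omega
  obtain ⟨y, hyk, hyx⟩ : ∃ y, lam y = 0 ∧ ∀ a : F, y ≠ a • x := by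
    by_contra hcon
    push Not at hcon
    have h1 : LinearMap.ker lam ≤ F ∙ x := by
      intro v hv
      obtain ⟨a, ha⟩ := hcon v hv
      rw [ha]
      exact Submodule.smul_mem _ _ (Submodule.mem_span_singleton_self x)
    have h2 := Submodule.finrank_mono h1
    rw [finrank_span_singleton hx] at h2
    omega
  obtain ⟨z, hz⟩ : ∃ z, lam z ≠ 0 := by
    by_contra hcon
    push Not at hcon
    exact hlam0 (LinearMap.ext hcon)
  have hy0 : y ≠ 0 := fun h => hyx 0 (by rw [h, zero_smul])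
  have hz0 : z ≠ 0 := fun h => hz (by rw [h, map_zero])
  have hli : LinearIndependent F ![x, y] := by
    rw [LinearIndependent.pair_iff' hx]
    exact fun a h => hyx a h.symm
  have hli' : LinearIndependent F ![x, z] := by
    rw [LinearIndependent.pair_iff' hx]
    intro a h
    apply hz
    rw [← h, map_smul, hlx, smul_zero]
  set L : Submodule F V := Submodule.span F (Set.range ![x, y]) with hL
  set L' : Submodule F V := Submodule.span F (Set.range ![x, z]) with hL'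
  have hfL : finrank F L = 2 := by
    rw [hL, finrank_span_eq_card hli]; rfl
  have hfL' : finrank F L' = 2 := by
    rw [hL', finrank_span_eq_card hli']; rfl
  have hxL : x ∈ L := Submodule.subset_span ⟨0, rfl⟩
  have hyL : y ∈ L := Submodule.subset_span ⟨1, rfl⟩
  have hxL' : x ∈ L' := Submodule.subset_span ⟨0, rfl⟩
  have hzL' : z ∈ L' := Submodule.subset_span ⟨1, rfl⟩
  -- the symmetric relation
  have hsymm : ∀ u v : V, u ≠ 0 → v ≠ 0 → (∀ φ ∈ E H u, φ v = 0) → ∀ ψ ∈ E H v, ψ u = 0 := by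
    intro u v hu hv h ψ hψ
    by_cases hψ0 : ψ = 0
    · rw [hψ0]; rfl
    obtain ⟨φ, hφ, hφ0, -⟩ := hO u hu
    exact hsym u v hu hv φ hφ ψ hψ hφ0 hψ0 (h φ hφ)
  have hA : ∀ φ ∈ E H x, φ y = 0 := by
    intro φ hφ
    obtain ⟨a, ha⟩ := hlam φ hφ
    rw [ha, LinearMap.smul_apply, hyk, smul_zero]
  -- `H K ≠ GL`
  have hHK : ¬ ∀ g : V ≃ₗ[F] V, ∃ h ∈ H, ∃ k ∈ stab L, g = h * k := by
    intro hall
    let e : L ≃ₗ[F] L' := LinearEquiv.ofFinrankEq L L' (by rw [hfL, hfL'])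
    obtain ⟨g, hg⟩ := exists_ext e
    obtain ⟨h, hh, k, hk, hgk⟩ := hall g
    have hhL : ∀ v ∈ L, h v ∈ L' := by
      intro v hv
      have h1 : k.symm v ∈ L := by
        rw [← mem_stab.1 hk (k.symm v), LinearEquiv.apply_symm_apply]
        exact hv
      have h2 : g (k.symm v) = h v := by
        rw [hgk]
        show h (k (k.symm v)) = h v
        rw [LinearEquiv.apply_symm_apply]
      rw [← h2, hg ⟨_, h1⟩]
      exact (e _).2
    have hhx : h x ≠ 0 := fun h0 => hx ((LinearEquiv.map_eq_zero_iff h).1 h0)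
    have hhy : h y ≠ 0 := fun h0 => hy0 ((LinearEquiv.map_eq_zero_iff h).1 h0)
    have hli2 : LinearIndependent F ![h x, h y] := by
      rw [LinearIndependent.pair_iff' hhx]
      intro a ha
      rw [← map_smul] at ha
      exact hyx a (h.injective ha).symm
    have hspan : Submodule.span F (Set.range ![h x, h y]) = L' := by
      apply Submodule.eq_of_le_of_finrank_eq
      · rw [Submodule.span_le]
        rintro _ ⟨i, rfl⟩
        fin_cases i
        · exact hhL x hxL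
        · exact hhL y hyL
      · rw [finrank_span_eq_card hli2, hfL']; rfl
    have hkill : ∀ φ : V →ₗ[F] F, φ (h x) = 0 → φ (h y) = 0 → ∀ v ∈ L', φ v = 0 := by
      intro φ h1 h2 v hv
      have h3 : L' ≤ LinearMap.ker φ := by
        rw [← hspan, Submodule.span_le]
        rintro _ ⟨i, rfl⟩
        fin_cases i
        · exact h1
        · exact h2
      exact h3 hv
    have hA1 : ∀ φ ∈ E H (h x), φ (h y) = 0 := by
      intro φ hφ
      exact hA _ (E_conj hh hφ)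
    have hA2 : ∀ φ ∈ E H (h y), φ (h x) = 0 := hsymm _ _ hhx hhy hA1
    have h1 : ∀ φ ∈ E H (h x), φ x = 0 := fun φ hφ => hkill φ hφ.2 (hA1 φ hφ) x hxL'
    have h2 : ∀ φ ∈ E H (h y), φ x = 0 := fun φ hφ => hkill φ (hA2 φ hφ) hφ.2 x hxL'
    have h3 := hsymm _ _ hhx hx h1 lam hlamE
    have h4 := hsymm _ _ hhy hx h2 lam hlamE
    exact hz (hkill lam h3 h4 z hzL')
  -- `SL K = GL`
  have hSK : ∀ g : V ≃ₗ[F] V, ∃ s : V ≃ₗ[F] V, LinearEquiv.det s = 1 ∧
      ∃ k ∈ stab L, g = s * k := by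
    intro g
    obtain ⟨μ, hμ⟩ : ∃ μ : V →ₗ[F] F, μ x ≠ 0 := by
      by_contra hcon
      push Not at hcon
      exact hx ((Module.forall_dual_apply_eq_zero_iff F x).1 hcon)
    set a : F := LinearMap.det (g : V →ₗ[F] V) with ha
    have ha0 : a ≠ 0 := (LinearEquiv.isUnit_det' g).ne_zero
    set f : V →ₗ[F] F := ((a - 1) * (μ x)⁻¹) • μ with hf
    have hfx : 1 + f x = a := by
      rw [hf, LinearMap.smul_apply, smul_eq_mul, mul_assoc, inv_mul_cancel₀ hμ]
      ring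
    have hu : IsUnit (1 + f x) := by rw [hfx]; exact ha0.isUnit
    set k : V ≃ₗ[F] V := LinearEquiv.dilatransvection hu with hk
    have hkv : ∀ v, k v = v + f v • x := fun v => LinearEquiv.dilatransvection.apply
    have hkdet : LinearMap.det (k : V →ₗ[F] V) = a := by
      rw [hk, LinearEquiv.dilatransvection.coe_toLinearMap, LinearMap.transvection.det, hfx]
    have hks : k ∈ stab L := by
      apply stab_of_le
      intro v hv
      rw [hkv]
      exact L.add_mem hv (L.smul_mem _ hxL)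
    refine ⟨g * k⁻¹, ?_, k, hks, by group⟩
    rw [map_mul, map_inv, mul_inv_eq_one]
    apply Units.ext
    rw [LinearEquiv.coe_det, LinearEquiv.coe_det, hkdet]
  have hKH := hMD (stab L) hSK hHK
  -- LOC2
  have hR : ∀ h ∈ H, (∃ a : F, h x = a • x) →
      (LinearMap.ker lam).map (h : V →ₗ[F] V) = LinearMap.ker lam := by
    rintro h hh ⟨a, ha⟩
    have ha0 : a ≠ 0 := by
      rintro rfl
      rw [zero_smul] at ha
      exact hx ((LinearEquiv.map_eq_zero_iff h).1 ha)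
    have h1 : a⁻¹ • lam ∈ E H (h x) := by rw [ha]; exact E_smul ha0 hlamE
    obtain ⟨b, hb⟩ := hlam _ (E_conj hh h1)
    apply Submodule.eq_of_le_of_finrank_eq
    · rintro _ ⟨v, hv, rfl⟩
      have h2 := LinearMap.congr_fun hb v
      have h3 : a⁻¹ * lam (h v) = b * lam v := h2
      have hv' : lam v = 0 := hv
      rw [hv', mul_zero] at h3
      rcases mul_eq_zero.1 h3 with h4 | h4
      · exact absurd h4 (inv_ne_zero ha0)
      · exact h4
    · exact LinearEquiv.finrank_map_eq h _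
  have hloc := hLoc2 F V H x (LinearMap.ker lam) hx hlx ⟨y, hyk, hyx⟩
    (fun h => hlam0 (LinearMap.ker_eq_top.1 h)) hR
  obtain ⟨-, horb1, horb2⟩ := hOrb F V H x hx
  have horb2 := horb2 hT
  have hP : Nat.card (P H x) ≤ q := by
    have h1 : ∀ φ : P H x, ∃ a : F, φ.1 = a • lam := fun φ => hlam φ.1 ⟨φ.2, hPx x hx φ.1 φ.2⟩
    choose f hf using h1
    apply Nat.card_le_card_of_injective f
    intro φ ψ h
    apply Subtype.ext
    rw [hf, hf, h]
  -- counts
  have hc1 := card_le1 L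
  have hc2 := card_le2 L
  rw [card_gl L hfL] at hc2
  have hc3 : Nat.card (L →ₗ[F] V) = q ^ (2 * n) := by
    rw [Module.natCard_eq_pow_finrank (K := F), Module.finrank_linearMap, hfL]
  rw [hc3] at hc1
  have hf0 : 0 < Nat.card (Fx L) := by
    haveI : Finite (Fx L) := Subtype.finite
    haveI : Nonempty (Fx L) := ⟨⟨1, fun v _ => rfl⟩⟩
    exact Nat.card_pos
  obtain ⟨m, hm⟩ : ∃ m, n = m + 2 := ⟨n - 2, by omega⟩
  exact arith35 q n m c _ _ _ _ _ _ _ hm hc hq hloc hP horb1 horb2 hc1 hc2 hKH hf0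

end SpreadPerm.LG
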