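import Pool.Agent.Lib.MP_e6ed9e_al.LG.Basic47

/-!
# Row ORB
-/

namespace SpreadPerm.LG

open Module MulAction

/-- `H × Fˣ` acts on `V`. -/
@[reducible] def actHF {F V : Type} [Field F] [AddCommGroup V] [Module F V]
    (H : Subgroup (V ≃ₗ[F] V)) : MulAction (H × Fˣ) V where
  smul p v := (p.2 : F) • (p.1 : V ≃ₗ[F] V) v
  one_smul v := by
    show ((1 : Fˣ) : F) • ((1 : H) : V ≃ₗ[F] V) v = v
    rw [Units.val_one, one_smul]
    rfl
  mul_smul p r v := by
    show (((p.2 * r.2 : Fˣ)) : F) • ((p.1 * r.1 : H) : V ≃ₗ[F] V) v =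
      (p.2 : F) • (p.1 : V ≃ₗ[F] V) ((r.2 : F) • (r.1 : V ≃ₗ[F] V) v)
    rw [map_smul, smul_smul, Units.val_mul]
    rfl

/-- The fiber count. -/
theorem orb_count (F V : Type) [Field F] [Finite F] [AddCommGroup V] [Module F V] [Finite V]
    (H : Subgroup (V ≃ₗ[F] V)) (x : V) (hx : x ≠ 0) :
    (Nat.card F - 1) * Nat.card H = Nat.card {v : V // v ≠ 0 ∧ ∃ h ∈ H, ∃ a : F, h x = a • v} *
      Nat.card {h : V ≃ₗ[F] V // h ∈ H ∧ ∃ a : F, h x = a • x} := by
  letI := actHF H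
  have hdef : ∀ (p : H × Fˣ) (v : V), p • v = (p.2 : F) • (p.1 : V ≃ₗ[F] V) v := fun _ _ => rfl
  have h1 := Subgroup.card_mul_index (stabilizer (H × Fˣ) x)
  rw [MulAction.index_stabilizer, Nat.card_prod, Nat.card_units] at h1
  have h2 : orbit (H × Fˣ) x = {v : V | v ≠ 0 ∧ ∃ h ∈ H, ∃ a : F, h x = a • v} := by
    ext v
    constructor
    · rintro ⟨p, hp⟩
      have hp' : (p.2 : F) • (p.1 : V ≃ₗ[F] V) x = v := hp
      refine ⟨?_, (p.1 : V ≃ₗ[F] V), p.1.2, (p.2 : F)⁻¹, ?_⟩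
      · rw [← hp']
        refine smul_ne_zero p.2.ne_zero ?_
        intro h
        exact hx ((LinearEquiv.map_eq_zero_iff _).1 h)
      · rw [← hp', smul_smul, inv_mul_cancel₀ p.2.ne_zero, one_smul]
    · rintro ⟨hv, h, hh, a, ha⟩
      have ha0 : a ≠ 0 := by
        rintro rfl
        rw [zero_smul] at ha
        exact hx ((LinearEquiv.map_eq_zero_iff h).1 ha)
      refine ⟨(⟨h, hh⟩, (Units.mk0 a ha0)⁻¹), ?_⟩
      show (((Units.mk0 a ha0)⁻¹ : Fˣ) : F) • h x = v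
      rw [ha, Units.val_inv_eq_inv_val, Units.val_mk0, smul_smul, inv_mul_cancel₀ ha0, one_smul]
  have h3 : Nat.card (stabilizer (H × Fˣ) x) =
      Nat.card {h : V ≃ₗ[F] V // h ∈ H ∧ ∃ a : F, h x = a • x} := by
    refine Nat.card_eq_of_bijective
      (fun p => ⟨(p.1.1 : V ≃ₗ[F] V), p.1.1.2, (p.1.2 : F)⁻¹, ?_⟩) ⟨?_, ?_⟩
    · have hp : (p.1.2 : F) • (p.1.1 : V ≃ₗ[F] V) x = x := p.2
      have := congrArg (fun v => ((p.1.2 : F)⁻¹) • v) hp
      simp only [smul_smul, inv_mul_cancel₀ p.1.2.ne_zero, one_smul] at this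
      exact this
    · rintro ⟨p, hp⟩ ⟨r, hr⟩ h
      have h4 : (p.1 : V ≃ₗ[F] V) = r.1 :=
        congrArg (fun u : {h : V ≃ₗ[F] V // h ∈ H ∧ ∃ a : F, h x = a • x} => u.1) h
      have hp' : (p.2 : F) • (p.1 : V ≃ₗ[F] V) x = x := hp
      have hr' : (r.2 : F) • (r.1 : V ≃ₗ[F] V) x = x := hr
      have h5 : (p.2 : F) = r.2 := by
        have hne : (p.1 : V ≃ₗ[F] V) x ≠ 0 := fun h => hx ((LinearEquiv.map_eq_zero_iff _).1 h)
        apply smul_left_injective F hne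
        show (p.2 : F) • (p.1 : V ≃ₗ[F] V) x = (r.2 : F) • (p.1 : V ≃ₗ[F] V) x
        rw [hp', h4, hr']
      exact Subtype.ext (Prod.ext (Subtype.ext h4) (Units.ext h5))
    · rintro ⟨h, hh, a, ha⟩
      have ha0 : a ≠ 0 := by
        rintro rfl
        rw [zero_smul] at ha
        exact hx ((LinearEquiv.map_eq_zero_iff h).1 ha)
      refine ⟨⟨(⟨h, hh⟩, (Units.mk0 a ha0)⁻¹), ?_⟩, rfl⟩
      show (((Units.mk0 a ha0)⁻¹ : Fˣ) : F) • h x = x
      rw [ha, Units.val_inv_eq_inv_val, Units.val_mk0, smul_smul, inv_mul_cancel₀ ha0, one_smul]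
  rw [h2, h3] at h1
  rw [← Nat.card_coe_set_eq] at h1
  rw [mul_comm (Nat.card F - 1), ← h1, mul_comm]
  rfl

theorem card_ne_zero_vec (F V : Type) [Field F] [Finite F] [AddCommGroup V] [Module F V]
    [Finite V] : Nat.card {v : V // v ≠ 0} = Nat.card F ^ finrank F V - 1 := by
  classical
  have : Fintype V := Fintype.ofFinite V
  rw [← Module.natCard_eq_pow_finrank (K := F) (V := V)]
  have h := Nat.card_congr (Equiv.sumCompl (fun v : V => v = 0))
  rw [Nat.card_sum] at h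
  have h1 : Nat.card {v : V // v = 0} = 1 := by simp
  rw [h1] at h
  have h2 : Nat.card {v : V // v ≠ 0} = Nat.card {v : V // ¬ v = 0} := rfl
  omega

theorem orb47 : StOrb := by
  intro F V _ _ _ _ _ H x hx
  have hle : ∀ K : Subgroup (V ≃ₗ[F] V),
      Nat.card {v : V // v ≠ 0 ∧ ∃ h ∈ K, ∃ a : F, h x = a • v} ≤
        Nat.card F ^ finrank F V - 1 := by
    intro K
    rw [← card_ne_zero_vec F V]
    refine Nat.card_le_card_of_injective
      (fun v : {v : V // v ≠ 0 ∧ ∃ h ∈ K, ∃ a : F, h x = a • v} =>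
        (⟨v.1, v.2.1⟩ : {v : V // v ≠ 0})) fun v w h => ?_
    exact Subtype.ext (congrArg (fun u : {v : V // v ≠ 0} => u.1) h)
  have heq : ∀ K : Subgroup (V ≃ₗ[F] V), PtTrans K →
      Nat.card {v : V // v ≠ 0 ∧ ∃ h ∈ K, ∃ a : F, h x = a • v} =
        Nat.card F ^ finrank F V - 1 := by
    intro K hK
    rw [← card_ne_zero_vec F V]
    refine Nat.card_congr (Equiv.subtypeEquivRight fun v => ⟨fun h => h.1, fun h => ⟨h, ?_⟩⟩)
    exact hK x v hx h
  have htop : PtTrans (⊤ : Subgroup (V ≃ₗ[F] V)) := by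
    intro y z hy hz
    obtain ⟨g, hg⟩ := Submodule.exists_linearEquiv_restrict_eq
      ((LinearEquiv.toSpanNonzeroSingleton F V y hy).symm ≪≫ₗ
        (LinearEquiv.toSpanNonzeroSingleton F V z hz))
    refine ⟨g, trivial, 1, ?_⟩
    have h1 := hg ⟨y, Submodule.mem_span_singleton_self y⟩
    rw [one_smul]
    show g y = z
    rw [← h1, LinearEquiv.trans_apply]
    have h2 : (LinearEquiv.toSpanNonzeroSingleton F V y hy).symm
        ⟨y, Submodule.mem_span_singleton_self y⟩ = 1 := by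
      rw [LinearEquiv.symm_apply_eq, LinearEquiv.toSpanNonzeroSingleton_one]
    rw [h2, LinearEquiv.toSpanNonzeroSingleton_one]
  refine ⟨?_, ?_, fun htr => ?_⟩
  · rw [orb_count F V H x hx]
    exact Nat.mul_le_mul_right _ (hle H)
  · have := orb_count F V ⊤ x hx
    rw [heq ⊤ htop] at this
    have e1 : Nat.card (⊤ : Subgroup (V ≃ₗ[F] V)) = Nat.card (V ≃ₗ[F] V) :=
      Nat.card_congr Subgroup.topEquiv.toEquiv
    have e2 : Nat.card {h : V ≃ₗ[F] V // h ∈ (⊤ : Subgroup (V ≃ₗ[F] V)) ∧ ∃ a : F, h x = a • x} =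
        Nat.card {h : V ≃ₗ[F] V // ∃ a : F, h x = a • x} :=
      Nat.card_congr (Equiv.subtypeEquivRight fun h => ⟨fun h => h.2, fun h => ⟨trivial, h⟩⟩)
    rw [e1, e2] at this
    exact this
  · rw [orb_count F V H x hx, heq H htr]

end SpreadPerm.LG
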