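import Pool.Agent.Lib.MP_e6ed9e_al.LG.Defs

set_option autoImplicit false

/-! Row POL: no polarity without absolute points. -/

namespace SpreadPerm.LG

open Module Finset

lemma pol81_count (F V : Type) [Field F] [Fintype F] [AddCommGroup V] [Module F V] [Fintype V]
    [DecidableEq V] (p : ℕ) (hp : p ∣ Fintype.card F) (U : Submodule F V)
    [DecidablePred (· ∈ U)] (hU : U ≠ ⊥) :
    ∑ z : {v : V // v ≠ 0}, (if z.1 ∈ U then (1 : ZMod p) else 0) = -1 := by
  classical
  have h1 : ∑ v : V, (if v ∈ U then (1 : ZMod p) else 0) = 0 := by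
    have h2 : ∑ v : V, (if v ∈ U then (1 : ZMod p) else 0) = ((Fintype.card U : ℕ) : ZMod p) := by
      rw [← sum_filter, sum_const, nsmul_eq_mul, mul_one, Fintype.card_subtype]
    rw [h2, Module.card_eq_pow_finrank (K := F) (V := U)]
    have h3 : 0 < finrank F U := by
      rw [Module.finrank_pos_iff]
      exact (Submodule.nontrivial_iff_ne_bot).2 hU
    rw [ZMod.natCast_eq_zero_iff]
    exact dvd_pow hp h3.ne'
  have h2 : ∑ z : {v : V // v ≠ 0}, (if z.1 ∈ U then (1 : ZMod p) else 0) =
      ∑ v ∈ univ.erase (0 : V), (if v ∈ U then (1 : ZMod p) else 0) := by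
    rw [Finset.sum_subtype (univ.erase (0 : V)) (p := fun v => v ≠ 0) (by simp)
      (fun v => if v ∈ U then (1 : ZMod p) else 0)]
  rw [← add_sum_erase univ _ (mem_univ (0 : V)), if_pos U.zero_mem, ← h2] at h1
  linear_combination h1

theorem pol81 : StPol := by
  classical
  intro F V _ _ _ _ _ hn μ hμ hsym
  have : Fintype F := Fintype.ofFinite F
  have : Fintype V := Fintype.ofFinite V
  obtain ⟨p, hchar⟩ := CharP.exists F
  have hpp : Fact p.Prime := ⟨CharP.char_is_prime F p⟩
  have hp : p ∣ Fintype.card F := (CharP.cast_eq_zero_iff F p _).1 (FiniteField.cast_card_eq_zero F)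
  set X := {v : V // v ≠ 0} with hX
  set A : Matrix X X (ZMod p) := Matrix.of fun x y => if μ x.1 y.1 = 0 then 1 else 0 with hA
  set J : Matrix X X (ZMod p) := Matrix.of fun _ _ => 1 with hJ
  have hker : ∀ x y : V, (LinearMap.ker (μ x) ⊓ LinearMap.ker (μ y) : Submodule F V) ≠ ⊥ := by
    intro x y hbot
    have h1 := Submodule.finrank_sup_add_finrank_inf_eq (LinearMap.ker (μ x)) (LinearMap.ker (μ y))
    have h2 : ∀ f : V →ₗ[F] F, finrank F V ≤ finrank F (LinearMap.ker f) + 1 := by
      intro f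
      have h3 := LinearMap.finrank_range_add_finrank_ker f
      have h4 : finrank F (LinearMap.range f) ≤ 1 := by
        have := Submodule.finrank_le (LinearMap.range f)
        rwa [finrank_self] at this
      omega
    have h3 := h2 (μ x)
    have h4 := h2 (μ y)
    have h5 := Submodule.finrank_le (LinearMap.ker (μ x) ⊔ LinearMap.ker (μ y))
    rw [hbot, finrank_bot] at h1
    omega
  have hJA : A * J = -J := by
    ext x y
    rw [Matrix.mul_apply, Matrix.neg_apply]
    simp only [hA, hJ, Matrix.of_apply, mul_one]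
    have h1 := pol81_count F V p hp (LinearMap.ker (μ x.1) ⊓ LinearMap.ker (μ x.1)) (hker _ _)
    rw [← h1]
    apply sum_congr rfl
    intro z _
    simp only [Submodule.mem_inf, LinearMap.mem_ker, and_self]
  have hAA : A * A = -J := by
    ext x y
    rw [Matrix.mul_apply, Matrix.neg_apply]
    simp only [hA, hJ, Matrix.of_apply]
    have h1 := pol81_count F V p hp (LinearMap.ker (μ x.1) ⊓ LinearMap.ker (μ y.1)) (hker _ _)
    rw [← h1]
    apply sum_congr rfl
    intro z _
    have h2 : μ z.1 y.1 = 0 ↔ μ y.1 z.1 = 0 :=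
      ⟨hsym _ _ z.2 y.2, hsym _ _ y.2 z.2⟩
    simp only [Submodule.mem_inf, LinearMap.mem_ker, h2]
    by_cases h3 : μ x.1 z.1 = 0 <;> by_cases h4 : μ y.1 z.1 = 0 <;> simp [h3, h4]
  have hpow : ∀ m : ℕ, A ^ (m + 2) = (-1 : ZMod p) ^ (m + 1) • J := by
    intro m
    induction m with
    | zero => rw [zero_add, sq, hAA, zero_add, pow_one, neg_smul, one_smul]
    | succ m ih =>
      rw [show m + 1 + 2 = (m + 2) + 1 by ring, pow_succ', ih, Matrix.mul_smul, hJA, smul_neg,
        pow_succ (-1 : ZMod p) (m + 1)]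
      rw [mul_neg_one, neg_smul]
  have htr : Matrix.trace A = 0 := by
    rw [Matrix.trace]
    apply sum_eq_zero
    intro x _
    simp only [hA, Matrix.diag_apply, Matrix.of_apply]
    rw [if_neg (hμ x.1 x.2)]
  have htrJ : Matrix.trace J = -1 := by
    rw [Matrix.trace]
    simp only [hJ, Matrix.diag_apply, Matrix.of_apply]
    have h1 := pol81_count F V p hp (⊤ : Submodule F V) (by
      intro htop
      have h2 : finrank F (⊤ : Submodule F V) = 0 := by rw [htop, finrank_bot]
      rw [finrank_top] at h2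
      omega)
    rw [← h1]
    apply sum_congr rfl
    intro z _
    simp
  have h1 := ZMod.trace_pow_card A
  obtain ⟨m, hm⟩ : ∃ m, p = m + 2 := ⟨p - 2, by have := hpp.1.two_le; omega⟩
  rw [htr, zero_pow hpp.1.ne_zero] at h1
  have h2 : A ^ p = (-1 : ZMod p) ^ (m + 1) • J := by
    have := hpow m
    rw [← hm] at this
    exact this
  rw [h2, Matrix.trace_smul, htrJ, smul_eq_mul] at h1
  have h3 : (-1 : ZMod p) ^ (m + 1) * -1 ≠ 0 :=
    mul_ne_zero (pow_ne_zero _ (neg_ne_zero.2 one_ne_zero)) (neg_ne_zero.2 one_ne_zero)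
  exact h3 h1

end SpreadPerm.LG
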