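import Pool.Agent.Lib.MP_e6ed9e_al.LG.Defs

set_option autoImplicit false

/-! Row RX: the axes of a center have only the center in common. -/

namespace SpreadPerm.LG

open Module

section
variable {F V : Type} [Field F] [AddCommGroup V] [Module F V]

lemma rx81_conj (H : Subgroup (V ≃ₗ[F] V)) (h : V ≃ₗ[F] V) (hh : h ∈ H) (x : V)
    (ψ : V →ₗ[F] F) (hψ : ψ ∈ E H (h x)) : ψ.comp (h : V →ₗ[F] V) ∈ E H x := by
  obtain ⟨⟨g, hg, hgv⟩, h0⟩ := hψ
  refine ⟨⟨h⁻¹ * g * h, H.mul_mem (H.mul_mem (H.inv_mem hh) hg) hh, fun v => ?_⟩, ?_⟩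
  · show h.symm (g (h v)) = _
    rw [hgv, map_add, LinearEquiv.symm_apply_apply, map_smul, LinearEquiv.symm_apply_apply]
    rfl
  · exact h0

lemma rx81_smul (H : Subgroup (V ≃ₗ[F] V)) (a : F) (ha : a ≠ 0) (y : V) (φ : V →ₗ[F] F)
    (hφ : φ ∈ E H y) : a⁻¹ • φ ∈ E H (a • y) := by
  obtain ⟨⟨g, hg, hgv⟩, h0⟩ := hφ
  refine ⟨⟨g, hg, fun v => ?_⟩, ?_⟩
  · rw [hgv, LinearMap.smul_apply, smul_smul, smul_eq_mul]
    congr 2
    field_simp
  · rw [LinearMap.smul_apply, map_smul, h0, smul_zero, smul_zero]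

/-- The common kernel of the axes of `x`. -/
def rx81R (H : Subgroup (V ≃ₗ[F] V)) (x : V) : Submodule F V where
  carrier := {v | ∀ φ ∈ E H x, φ v = 0}
  zero_mem' := fun φ _ => map_zero φ
  add_mem' := fun {a b} ha hb φ hφ => by rw [map_add, ha φ hφ, hb φ hφ, add_zero]
  smul_mem' := fun c v hv φ hφ => by rw [map_smul, hv φ hφ, smul_zero]

lemma rx81_mem (H : Subgroup (V ≃ₗ[F] V)) (x v : V) :
    v ∈ rx81R H x ↔ ∀ φ ∈ E H x, φ v = 0 := Iff.rfl

lemma rx81_map (H : Subgroup (V ≃ₗ[F] V)) (h : V ≃ₗ[F] V) (hh : h ∈ H) (x v : V)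
    (hv : v ∈ rx81R H x) : h v ∈ rx81R H (h x) := fun ψ hψ => hv _ (rx81_conj H h hh x ψ hψ)

lemma rx81_le [Finite V] (H : Subgroup (V ≃ₗ[F] V)) (hpt : PtTrans H) (x y : V) (hx : x ≠ 0)
    (hy : y ≠ 0) : finrank F (rx81R H x) ≤ finrank F (rx81R H y) := by
  have : Module.Finite F V := Module.Finite.of_finite
  obtain ⟨h, hh, a, ha⟩ := hpt x y hx hy
  have ha0 : a ≠ 0 := by
    rintro rfl
    rw [zero_smul] at ha
    exact hx ((LinearEquiv.map_eq_zero_iff h).1 ha)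
  have h1 : (rx81R H x).map (h : V →ₗ[F] V) ≤ rx81R H y := by
    rintro _ ⟨v, hv, rfl⟩
    intro φ hφ
    have h2 := rx81_map H h hh x v hv
    rw [ha] at h2
    have h3 := h2 _ (rx81_smul H a ha0 y φ hφ)
    rw [LinearMap.smul_apply, smul_eq_mul] at h3
    exact (mul_eq_zero.1 h3).resolve_left (inv_ne_zero ha0)
  calc finrank F (rx81R H x) = finrank F ((rx81R H x).map (h : V →ₗ[F] V)) :=
        (LinearEquiv.finrank_map_eq h _).symm
    _ ≤ _ := Submodule.finrank_mono h1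

end

theorem rx81 (hAx : StAx) : StRx := by
  intro F V _ _ _ _ _ H hn hpt htwo x y hx hy
  have : Module.Finite F V := Module.Finite.of_finite
  by_contra hcon
  push Not at hcon
  have hkey : ∀ x y : V, x ≠ 0 → y ≠ 0 → y ∈ rx81R H x → rx81R H y = rx81R H x := by
    intro x y hx hy hyx
    apply Submodule.eq_of_le_of_finrank_eq
    · intro v hv φ hφ
      obtain ⟨a, ha, haE⟩ := hAx F V H hn hpt htwo x y hx hy φ hφ (hyx φ hφ)
      have h1 := hv _ haE
      rw [LinearMap.smul_apply, smul_eq_mul] at h1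
      exact (mul_eq_zero.1 h1).resolve_left ha
    · exact le_antisymm (rx81_le H hpt y x hy hx) (rx81_le H hpt x y hx hy)
  have hy0 : y ≠ 0 := by
    rintro rfl
    exact hcon 0 (by rw [zero_smul])
  have hxR : x ∈ rx81R H x := fun φ hφ => hφ.2
  have hyR : y ∈ rx81R H x := hy
  -- z outside R
  obtain ⟨φ0, hφ0, _, _, hne, _⟩ := htwo x hx
  obtain ⟨z, hz⟩ : ∃ z, φ0 z ≠ 0 := by
    by_contra hc
    push Not at hc
    exact hne (LinearMap.ext hc)
  have hzR : z ∉ rx81R H x := fun h => hz (h φ0 hφ0)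
  have hz0 : z ≠ 0 := by
    rintro rfl
    exact hz (map_zero _)
  have hyz : y ∉ rx81R H z := by
    intro h
    have h1 := hkey z y hz0 hy0 h
    have h2 := hkey x y hx hy0 hyR
    apply hzR
    rw [← h2, h1]
    exact fun φ hφ => hφ.2
  obtain ⟨φ, hφ, hφy⟩ : ∃ φ ∈ E H z, φ y ≠ 0 := by
    by_contra hc
    push Not at hc
    exact hyz hc
  obtain ⟨⟨t, ht, htv⟩, hφz⟩ := hφ
  set w := φ y • x - φ x • y with hw
  have hwR : w ∈ rx81R H x :=
    Submodule.sub_mem _ (Submodule.smul_mem _ _ hxR) (Submodule.smul_mem _ _ hyR)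
  have hφw : φ w = 0 := by
    rw [hw, map_sub, map_smul, map_smul, smul_eq_mul, smul_eq_mul]
    ring
  have hw0 : w ≠ 0 := by
    intro h0
    rw [hw, sub_eq_zero] at h0
    by_cases hφx : φ x = 0
    · rw [hφx, zero_smul] at h0
      exact hx ((smul_eq_zero.1 h0).resolve_left hφy)
    · apply hcon ((φ x)⁻¹ * φ y)
      rw [mul_smul, h0, smul_smul, inv_mul_cancel₀ hφx, one_smul]
  have htw : t w = w := by rw [htv, hφw, zero_smul, add_zero]
  have hRw := hkey x w hx hw0 hwR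
  have h1 : y ∈ rx81R H w := by rw [hRw]; exact hyR
  have h2 := rx81_map H t ht w y h1
  rw [htw, htv, hRw] at h2
  have h3 : φ y • z ∈ rx81R H x := by
    have := Submodule.sub_mem _ h2 hyR
    rwa [add_sub_cancel_left] at this
  apply hzR
  have h4 := Submodule.smul_mem (rx81R H x) (φ y)⁻¹ h3
  rwa [smul_smul, inv_mul_cancel₀ hφy, one_smul] at h4

end SpreadPerm.LG
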