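import Pool.Agent.Lib.MP_e6ed9e_al.LG.Defs

/-!
# Row SYL
-/

namespace SpreadPerm.LG

open Module MulAction

noncomputable section

/-- A `p`-group which preserves a nonzero subspace fixes a nonzero vector of it. -/
theorem fixvec88 {F V : Type} [Field F] [Finite F] [AddCommGroup V] [Module F V] [Finite V]
    (S : Subgroup (V ≃ₗ[F] V)) (L : Submodule F V) (hS : ∀ g ∈ S, ∀ v ∈ L, g v ∈ L) (p : ℕ)
    [hp : Fact p.Prime] [CharP F p] (Q : Subgroup S) (hQ : IsPGroup p Q) (x : V) (hxL : x ∈ L)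
    (hx : x ≠ 0) : ∃ v ∈ L, v ≠ 0 ∧ ∀ g ∈ Q, g.1 v = v := by
  classical
  letI act : MulAction Q L :=
    { smul := fun g v => ⟨g.1.1 v.1, hS _ g.1.2 _ v.2⟩
      one_smul := fun v => Subtype.ext rfl
      mul_smul := fun g h v => Subtype.ext rfl }
  have hsm : ∀ (g : Q) (v : L), (g • v).1 = g.1.1 v.1 := fun g v => rfl
  have hord : addOrderOf (⟨x, hxL⟩ : L) = p := by
    apply addOrderOf_eq_prime
    · apply Subtype.ext
      show p • x = 0
      rw [← Nat.cast_smul_eq_nsmul F, CharP.cast_eq_zero, zero_smul]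
    · intro h
      exact hx (congrArg Subtype.val h)
  have hdvd : p ∣ Nat.card L := by
    have := addOrderOf_dvd_natCard (⟨x, hxL⟩ : L)
    rwa [hord] at this
  have h0 : (0 : L) ∈ fixedPoints Q L := fun g => Subtype.ext (by
    rw [hsm]
    show g.1.1 (0 : V) = 0
    rw [map_zero])
  obtain ⟨b, hb, hb0⟩ := hQ.exists_fixed_point_of_prime_dvd_card_of_fixed_point L hdvd h0
  refine ⟨b.1, b.2, fun h => hb0 (Subtype.ext h.symm), fun g hg => ?_⟩
  have := hb ⟨g, hg⟩
  exact congrArg Subtype.val this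

/-- The transvection `1 + φ x`. -/
theorem powtv88 {F V : Type} [Field F] [AddCommGroup V] [Module F V]
    (t : V ≃ₗ[F] V) (x : V) (φ : V →ₗ[F] F) (hφ : φ x = 0) (ht : ∀ v, t v = v + φ v • x) (n : ℕ)
    (v : V) : (t ^ n) v = v + (n : F) • (φ v • x) := by
  induction n with
  | zero => simp
  | succ n ih =>
    rw [pow_succ']
    show t ((t ^ n) v) = _
    rw [ih, ht, map_add, map_smul, map_smul, hφ, smul_zero, smul_zero, add_zero, Nat.cast_succ,
      add_smul, one_smul, add_assoc]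

theorem syl88 : StSyl := by
  intro F V _ _ _ _ _ H x y φ hφ ψ hψ hφy hψx
  classical
  obtain ⟨p, hpc⟩ := CharP.exists F
  haveI := hpc
  have hp : p.Prime := (CharP.char_is_prime_or_zero F p).resolve_right (by
    rintro rfl
    haveI : CharZero F := CharP.charP_to_charZero F
    exact not_finite F)
  haveI : Fact p.Prime := ⟨hp⟩
  obtain ⟨⟨t, htH, ht⟩, hφx⟩ := hφ
  obtain ⟨⟨s, hsH, hs⟩, hψy⟩ := hψ
  have hx0 : x ≠ 0 := by
    rintro rfl
    exact hψx (map_zero ψ)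
  have hy0 : y ≠ 0 := by
    rintro rfl
    exact hφy (map_zero φ)
  set L : Submodule F V := Submodule.span F {x, y} with hL
  have hxL : x ∈ L := Submodule.subset_span (by simp)
  have hyL : y ∈ L := Submodule.subset_span (by simp)
  -- the stabilizer of the line
  let S : Subgroup (V ≃ₗ[F] V) :=
    { carrier := {g | g ∈ H ∧ ∀ v, g v ∈ L ↔ v ∈ L}
      one_mem' := ⟨H.one_mem, fun v => Iff.rfl⟩
      mul_mem' := fun {a b} ha hb => ⟨H.mul_mem ha.1 hb.1, fun v => by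
        show a (b v) ∈ L ↔ _
        rw [ha.2, hb.2]⟩
      inv_mem' := fun {a} ha => ⟨H.inv_mem ha.1, fun v => by
        show a.symm v ∈ L ↔ _
        rw [← ha.2 (a.symm v), LinearEquiv.apply_symm_apply]⟩ }
  have htS : t ∈ S := ⟨htH, fun v => by
    rw [ht]
    exact Submodule.add_mem_iff_left L (L.smul_mem _ hxL)⟩
  have hsS : s ∈ S := ⟨hsH, fun v => by
    rw [hs]
    exact Submodule.add_mem_iff_left L (L.smul_mem _ hyL)⟩
  have hSL : ∀ g ∈ S, ∀ v ∈ L, g v ∈ L := fun g hg v hv => (hg.2 v).2 hv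
  haveI : Finite (V ≃ₗ[F] V) := Finite.of_injective (fun g : V ≃ₗ[F] V => (g : V → V)) DFunLike.coe_injective
  have htp : (⟨t, htS⟩ : S) ^ p = 1 := by
    apply Subtype.ext
    apply LinearEquiv.ext
    intro v
    show (t ^ p) v = v
    rw [powtv88 t x φ hφx ht p v, CharP.cast_eq_zero, zero_smul, add_zero]
  have hsp : (⟨s, hsS⟩ : S) ^ p = 1 := by
    apply Subtype.ext
    apply LinearEquiv.ext
    intro v
    show (s ^ p) v = v
    rw [powtv88 s y ψ hψy hs p v, CharP.cast_eq_zero, zero_smul, add_zero]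
  have hpg : ∀ u : S, u ^ p = 1 → IsPGroup p (Subgroup.zpowers u) := by
    intro u hu
    rintro ⟨w, hw⟩
    obtain ⟨k, rfl⟩ := Subgroup.mem_zpowers_iff.1 hw
    refine ⟨1, Subtype.ext ?_⟩
    show (u ^ k) ^ p ^ 1 = 1
    rw [pow_one, ← zpow_natCast, ← zpow_mul, mul_comm, zpow_mul, zpow_natCast, hu, one_zpow]
  obtain ⟨Q, hQ⟩ := (hpg _ htp).exists_le_sylow
  obtain ⟨Q', hQ'⟩ := (hpg _ hsp).exists_le_sylow
  obtain ⟨v, hvL, hv0, hv⟩ := fixvec88 S L hSL p Q.1 Q.2 x hxL hx0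
  obtain ⟨v', hv'L, hv'0, hv'⟩ := fixvec88 S L hSL p Q'.1 Q'.2 x hxL hx0
  have htQ : (⟨t, htS⟩ : S) ∈ Q.1 := hQ (Subgroup.mem_zpowers _)
  have hsQ : (⟨s, hsS⟩ : S) ∈ Q'.1 := hQ' (Subgroup.mem_zpowers _)
  -- v is a multiple of x
  have hvx : ∃ a : F, a ≠ 0 ∧ v = a • x := by
    obtain ⟨a, b, hab⟩ := Submodule.mem_span_pair.1 hvL
    have h1 : t v = v := hv _ htQ
    rw [ht] at h1
    have h2 : φ v • x = 0 := by
      have := add_eq_left.1 h1
      exact this
    have h3 : φ v = 0 := (smul_eq_zero.1 h2).resolve_right hx0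
    rw [← hab, map_add, map_smul, map_smul, hφx, smul_zero, zero_add, smul_eq_mul] at h3
    have hb : b = 0 := (mul_eq_zero.1 h3).resolve_right hφy
    refine ⟨a, ?_, ?_⟩
    · rintro rfl
      apply hv0
      rw [← hab, hb, zero_smul, zero_smul, add_zero]
    · rw [← hab, hb, zero_smul, add_zero]
  obtain ⟨a, ha, rfl⟩ := hvx
  obtain ⟨g, hg⟩ := MulAction.exists_smul_eq S Q Q'
  have hgv : s (g.1 (a • x)) = g.1 (a • x) := by
    have h1 : (⟨s, hsS⟩ : S) ∈ (g • Q).1 := by rw [hg]; exact hsQ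
    rw [Sylow.coe_subgroup_smul] at h1
    obtain ⟨u, hu, hus⟩ := h1
    have h2 : s = g.1 * u.1 * g.1⁻¹ := by
      have := congrArg Subtype.val hus
      exact this.symm
    have h3 := hv u hu
    rw [h2]
    show g.1 (u.1 (g.1.symm (g.1 (a • x)))) = _
    rw [LinearEquiv.symm_apply_apply, h3]
  refine ⟨g.1, g.2.1, ?_⟩
  obtain ⟨c, d, hcd⟩ := Submodule.mem_span_pair.1 (hSL g.1 g.2 x hxL)
  have h4 : ψ (g.1 x) = 0 := by
    rw [hs] at hgv
    have h5 : ψ (g.1 (a • x)) • y = 0 := add_eq_left.1 hgv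
    have h6 := (smul_eq_zero.1 h5).resolve_right hy0
    rw [map_smul, map_smul, smul_eq_mul] at h6
    exact (mul_eq_zero.1 h6).resolve_left ha
  rw [← hcd, map_add, map_smul, map_smul, hψy, smul_zero, add_zero, smul_eq_mul] at h4
  have hc : c = 0 := (mul_eq_zero.1 h4).resolve_right hψx
  have h7 : g.1 x = d • y := by rw [← hcd, hc, zero_smul, zero_add]
  refine ⟨d, ?_, h7⟩
  rintro rfl
  rw [zero_smul] at h7
  exact hx0 ((LinearEquiv.map_eq_zero_iff g.1).1 h7)

end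

end SpreadPerm.LG
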