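import Pool.Agent.Lib.MP_e6ed9e_al.LG.Defs2

/-!
# Row T0: the image of the point stabilizer has more than `q^{3/2} (q-1)` elements
-/

namespace SpreadPerm.LG.T0_84

open Module MulAction

noncomputable section

section
variable {F V : Type} [Field F] [AddCommGroup V] [Module F V]

theorem exists_mu {x : V} (hx : x ≠ 0) : ∃ μ : V →ₗ[F] F, μ x = 1 := by
  by_contra h
  push Not at h
  apply hx
  rw [← Module.forall_dual_apply_eq_zero_iff F x]
  intro φ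
  by_contra hφ
  apply h ((φ x)⁻¹ • φ)
  show (φ x)⁻¹ * φ x = 1
  exact inv_mul_cancel₀ hφ

theorem card_S_le [Finite V] (H : Subgroup (V ≃ₗ[F] V)) {x : V} (hx : x ≠ 0)
    (hP : ∀ φ ∈ P H x, φ = 0) :
    Nat.card {h : V ≃ₗ[F] V // h ∈ H ∧ ∃ a : F, h x = a • x} ≤ Nat.card (Ix H x) := by
  have hmap : ∀ h : {h : V ≃ₗ[F] V // h ∈ H ∧ ∃ a : F, h x = a • x},
      (F ∙ x).map (h.1 : V →ₗ[F] V) = (F ∙ x) := by
    rintro ⟨h, hh, a, ha⟩
    have ha0 : a ≠ 0 := by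
      rintro rfl
      rw [zero_smul] at ha
      exact hx ((LinearEquiv.map_eq_zero_iff h).1 ha)
    rw [Submodule.map_span, Set.image_singleton]
    show Submodule.span F {h x} = _
    rw [ha]
    exact Submodule.span_singleton_smul_eq (IsUnit.mk0 a ha0) x
  let f : {h : V ≃ₗ[F] V // h ∈ H ∧ ∃ a : F, h x = a • x} → Ix H x := fun h =>
    ⟨Submodule.Quotient.equiv (F ∙ x) (F ∙ x) h.1 (hmap h), h.1, h.2.1, h.2.2, fun v => rfl⟩
  have : Finite (V ⧸ (F ∙ x)) :=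
    Finite.of_surjective (fun v : V => (Submodule.Quotient.mk v : V ⧸ (F ∙ x)))
      (Submodule.Quotient.mk_surjective (F ∙ x))
  have : Finite ((V ⧸ (F ∙ x)) ≃ₗ[F] (V ⧸ (F ∙ x))) :=
    Finite.of_injective (fun e : (V ⧸ (F ∙ x)) ≃ₗ[F] (V ⧸ (F ∙ x)) => (e : _ → _))
      DFunLike.coe_injective
  apply Nat.card_le_card_of_injective f
  intro h h' hf
  obtain ⟨μ, hμ⟩ := exists_mu (F := F) hx
  have h1 : ∀ v, (Submodule.Quotient.mk (h.1 v) : V ⧸ (F ∙ x)) = Submodule.Quotient.mk (h'.1 v) := by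
    intro v
    have h2 := congrArg (fun z : Ix H x => z.1 (Submodule.Quotient.mk v)) hf
    exact h2
  obtain ⟨a, ha⟩ := h.2.2
  have ha0 : a ≠ 0 := by
    rintro rfl
    rw [zero_smul] at ha
    exact hx ((LinearEquiv.map_eq_zero_iff h.1).1 ha)
  have h3 : ∀ v, ∃ b : F, h'.1 v = h.1 (v + b • x) := by
    intro v
    have h4 := (Submodule.Quotient.eq (F ∙ x)).1 (h1 v).symm
    obtain ⟨b, hb⟩ := Submodule.mem_span_singleton.1 h4
    refine ⟨b * a⁻¹, ?_⟩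
    rw [map_add, map_smul, ha, smul_smul, mul_assoc, inv_mul_cancel₀ ha0, mul_one, hb]
    abel
  have h5 : μ ∘ₗ (((h.1)⁻¹ * h'.1 : V ≃ₗ[F] V) : V →ₗ[F] V) - μ ∈ P H x := by
    refine ⟨h.1⁻¹ * h'.1, H.mul_mem (H.inv_mem h.2.1) h'.2.1, fun v => ?_⟩
    obtain ⟨b, hb⟩ := h3 v
    have h6 : (h.1⁻¹ * h'.1) v = v + b • x := by
      show h.1.symm (h'.1 v) = _
      rw [hb, LinearEquiv.symm_apply_apply]
    have h7 : (μ ∘ₗ (((h.1)⁻¹ * h'.1 : V ≃ₗ[F] V) : V →ₗ[F] V) - μ) v = b := by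
      show μ ((h.1⁻¹ * h'.1) v) - μ v = b
      rw [h6, map_add, map_smul, hμ, smul_eq_mul, mul_one]
      ring
    rw [h6, h7]
  have h8 := hP _ h5
  apply Subtype.ext
  apply LinearEquiv.ext
  intro v
  obtain ⟨b, hb⟩ := h3 v
  have h6 : (h.1⁻¹ * h'.1) v = v + b • x := by
    show h.1.symm (h'.1 v) = _
    rw [hb, LinearEquiv.symm_apply_apply]
  have h7 : (μ ∘ₗ (((h.1)⁻¹ * h'.1 : V ≃ₗ[F] V) : V →ₗ[F] V) - μ) v = b := by
    show μ ((h.1⁻¹ * h'.1) v) - μ v = b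
    rw [h6, map_add, map_smul, hμ, smul_eq_mul, mul_one]
    ring
  rw [h8] at h7
  have h9 : b = 0 := h7.symm
  rw [hb, h9, zero_smul, add_zero]

/-- coordinates with `e x = (1, 0)` -/
theorem exists_coord [Finite V] (h3 : finrank F V = 3) {x : V} (hx : x ≠ 0) :
    ∃ e : V ≃ₗ[F] (F × (Fin 2 → F)), e x = (1, 0) := by
  obtain ⟨μ, hμ⟩ := exists_mu (F := F) hx
  have : FiniteDimensional F V := Module.Finite.of_finite (R := F) (M := V)
  have hr : LinearMap.range μ = ⊤ := by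
    rw [LinearMap.range_eq_top]
    intro a
    exact ⟨a • x, by rw [map_smul, hμ, smul_eq_mul, mul_one]⟩
  have hk : finrank F (LinearMap.ker μ) = 2 := by
    have h1 := LinearMap.finrank_range_add_finrank_ker μ
    rw [hr, finrank_top, Module.finrank_self, h3] at h1
    omega
  obtain ⟨f⟩ : Nonempty (LinearMap.ker μ ≃ₗ[F] (Fin 2 → F)) :=
    FiniteDimensional.nonempty_linearEquiv_of_finrank_eq (by rw [hk, Module.finrank_fin_fun])
  let π : V →ₗ[F] LinearMap.ker μ :=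
    LinearMap.codRestrict (LinearMap.ker μ) (LinearMap.id - μ.smulRight x) (by
      intro v
      rw [LinearMap.mem_ker]
      show μ (v - μ v • x) = 0
      rw [map_sub, map_smul, hμ, smul_eq_mul, mul_one, sub_self])
  have hπ : ∀ v, ((π v : LinearMap.ker μ) : V) = v - μ v • x := fun v => rfl
  let g : V →ₗ[F] (F × (Fin 2 → F)) := LinearMap.prod μ (f.toLinearMap ∘ₗ π)
  have hg : Function.Injective g := by
    rw [← LinearMap.ker_eq_bot, LinearMap.ker_eq_bot']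
    intro v hv
    have h1 : μ v = 0 := congrArg Prod.fst hv
    have h2 : f (π v) = 0 := congrArg Prod.snd hv
    have h4 : π v = 0 := (LinearEquiv.map_eq_zero_iff f).1 h2
    have h5 : v - μ v • x = 0 := by rw [← hπ, h4]; rfl
    rwa [h1, zero_smul, sub_zero] at h5
  refine ⟨LinearEquiv.ofInjectiveOfFinrankEq g hg (by
    rw [h3, Module.finrank_prod, Module.finrank_self, Module.finrank_fin_fun]), ?_⟩
  show g x = _
  show (μ x, f (π x)) = _
  have h6 : π x = 0 := by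
    apply Subtype.ext
    rw [hπ, hμ, one_smul, sub_self]
    rfl
  rw [hμ, h6, map_zero]

/-- The stabilizer of the point `⟨x⟩` and of the hyperplane `μ = 0`. -/
def KK (x : V) (hx : x ≠ 0) (μ : V →ₗ[F] F) (hμ : μ ≠ 0) : Subgroup (V ≃ₗ[F] V) where
  carrier := {g | (∃ a : F, g x = a • x) ∧ ∃ b : F, ∀ v, μ (g v) = b * μ v}
  one_mem' := ⟨⟨1, by simp⟩, ⟨1, by simp⟩⟩
  mul_mem' := by
    rintro g g' ⟨⟨a, ha⟩, b, hb⟩ ⟨⟨a', ha'⟩, b', hb'⟩
    refine ⟨⟨a' * a, ?_⟩, b * b', fun v => ?_⟩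
    · show g (g' x) = _
      rw [ha', map_smul, ha, smul_smul]
    · show μ (g (g' v)) = _
      rw [hb, hb', mul_assoc]
  inv_mem' := by
    rintro g ⟨⟨a, ha⟩, b, hb⟩
    have ha0 : a ≠ 0 := by
      rintro rfl
      rw [zero_smul] at ha
      exact hx ((LinearEquiv.map_eq_zero_iff g).1 ha)
    have hb0 : b ≠ 0 := by
      rintro rfl
      apply hμ
      ext v
      have := hb (g.symm v)
      rw [LinearEquiv.apply_symm_apply, zero_mul] at this
      simpa using this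
    refine ⟨⟨a⁻¹, ?_⟩, b⁻¹, fun v => ?_⟩
    · show g.symm x = _
      rw [LinearEquiv.symm_apply_eq, map_smul, ha, smul_smul, inv_mul_cancel₀ ha0, one_smul]
    · show μ (g.symm v) = _
      have := hb (g.symm v)
      rw [LinearEquiv.apply_symm_apply] at this
      rw [this, ← mul_assoc, inv_mul_cancel₀ hb0, one_mul]

/-- The element of `KK` with the coordinates `a`, `A`. -/
def elt (e : V ≃ₗ[F] (F × (Fin 2 → F))) (a : Fˣ) (A : (Fin 2 → F) ≃ₗ[F] (Fin 2 → F)) : V ≃ₗ[F] V :=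
  (e.trans (LinearEquiv.prodCongr (LinearEquiv.smulOfUnit a) A)).trans e.symm

theorem elt_apply (e : V ≃ₗ[F] (F × (Fin 2 → F))) (a : Fˣ)
    (A : (Fin 2 → F) ≃ₗ[F] (Fin 2 → F)) (v : V) :
    e (elt e a A v) = (a.1 * (e v).1, A (e v).2) := by
  show e (e.symm _) = _
  rw [LinearEquiv.apply_symm_apply]
  rfl

theorem card_KK [Finite F] [Finite V] (x : V) (hx : x ≠ 0) (μ : V →ₗ[F] F) (hμ : μ ≠ 0)
    (e : V ≃ₗ[F] (F × (Fin 2 → F))) (he : e x = (1, 0)) (hm : ∀ v, μ v = (e v).1) :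
    (Nat.card F - 1) * ((Nat.card F ^ 2 - 1) * (Nat.card F ^ 2 - Nat.card F)) ≤
      Nat.card (KK x hx μ hμ) := by
  have : Finite (V ≃ₗ[F] V) :=
    Finite.of_injective (fun e : V ≃ₗ[F] V => (e : _ → _)) DFunLike.coe_injective
  have : Fintype F := Fintype.ofFinite F
  have hGL : Nat.card ((Fin 2 → F) ≃ₗ[F] (Fin 2 → F)) =
      (Nat.card F ^ 2 - 1) * (Nat.card F ^ 2 - Nat.card F) := by
    rw [← Nat.card_congr (LinearMap.GeneralLinearGroup.generalLinearEquiv F (Fin 2 → F)).toEquiv,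
      ← Nat.card_congr (Matrix.GeneralLinearGroup.toLin (n := Fin 2) (R := F)).toEquiv,
      Matrix.card_GL_field, Fin.prod_univ_two, Nat.card_eq_fintype_card]
    simp
  have hU : Nat.card Fˣ = Nat.card F - 1 := Nat.card_units F
  rw [← hGL, ← hU, ← Nat.card_prod]
  let f : Fˣ × ((Fin 2 → F) ≃ₗ[F] (Fin 2 → F)) → KK x hx μ hμ := fun p =>
    ⟨elt e p.1 p.2, ⟨p.1.1, by
      apply e.injective
      rw [elt_apply, map_smul, he]
      simp⟩, ⟨p.1.1, fun v => by rw [hm, elt_apply, hm]⟩⟩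
  apply Nat.card_le_card_of_injective f
  rintro ⟨a, A⟩ ⟨a', A'⟩ h
  have h1 : ∀ v, e (elt e a A v) = e (elt e a' A' v) := by
    intro v
    have h2 := congrArg (fun z : KK x hx μ hμ => e (z.1 v)) h
    exact h2
  have h2 : ∀ p : F × (Fin 2 → F), a.1 * p.1 = a'.1 * p.1 ∧ A p.2 = A' p.2 := by
    intro p
    have h3 := h1 (e.symm p)
    rw [elt_apply, elt_apply, LinearEquiv.apply_symm_apply] at h3
    exact ⟨congrArg Prod.fst h3, congrArg Prod.snd h3⟩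
  have h3 : a = a' := by
    apply Units.ext
    have := (h2 (1, 0)).1
    simpa using this
  have h4 : A = A' := by
    apply LinearEquiv.ext
    intro w
    exact (h2 (0, w)).2
  rw [h3, h4]

/-- `SL K = GL`. -/
theorem sl_KK (x : V) (hx : x ≠ 0) (μ : V →ₗ[F] F) (hμ : μ ≠ 0)
    (e : V ≃ₗ[F] (F × (Fin 2 → F))) (he : e x = (1, 0)) (hm : ∀ v, μ v = (e v).1)
    (g : V ≃ₗ[F] V) : ∃ s : V ≃ₗ[F] V, LinearEquiv.det s = 1 ∧ ∃ k ∈ KK x hx μ hμ, g = s * k := by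
  set k : V ≃ₗ[F] V := elt e (LinearEquiv.det g) 1 with hk
  have hkd : LinearEquiv.det k = LinearEquiv.det g := by
    rw [hk]
    have h1 : elt e (LinearEquiv.det g) 1 =
        (e.trans (LinearEquiv.prodCongr (LinearEquiv.smulOfUnit (LinearEquiv.det g))
          (1 : (Fin 2 → F) ≃ₗ[F] (Fin 2 → F)))).trans e.symm := rfl
    apply Units.ext
    rw [LinearEquiv.coe_det, h1]
    have h2 : (((e.trans (LinearEquiv.prodCongr (LinearEquiv.smulOfUnit (LinearEquiv.det g))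
          (1 : (Fin 2 → F) ≃ₗ[F] (Fin 2 → F)))).trans e.symm : V ≃ₗ[F] V) : V →ₗ[F] V) =
        (e.symm : (F × (Fin 2 → F)) →ₗ[F] V) ∘ₗ
          (LinearMap.prodMap ((LinearEquiv.smulOfUnit (LinearEquiv.det g) : F ≃ₗ[F] F) : F →ₗ[F] F)
            (LinearMap.id : (Fin 2 → F) →ₗ[F] (Fin 2 → F))) ∘ₗ (e : V →ₗ[F] (F × (Fin 2 → F))) := by
      ext v
      rfl
    rw [h2]
    have h3 := LinearMap.det_conj (LinearMap.prodMap
      ((LinearEquiv.smulOfUnit (LinearEquiv.det g) : F ≃ₗ[F] F) : F →ₗ[F] F)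
            (LinearMap.id : (Fin 2 → F) →ₗ[F] (Fin 2 → F))) e.symm
    rw [LinearEquiv.symm_symm] at h3
    rw [h3, LinearMap.det_prodMap, LinearMap.det_id, mul_one]
    have h4 : ((LinearEquiv.smulOfUnit (LinearEquiv.det g) : F ≃ₗ[F] F) : F →ₗ[F] F) =
        (LinearEquiv.det g : F) • LinearMap.id := by
      apply LinearMap.ext_ring
      rfl
    rw [h4, LinearMap.det_smul, LinearMap.det_id, Module.finrank_self, pow_one, mul_one]
  refine ⟨g * k⁻¹, ?_, k, ?_, ?_⟩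
  · rw [map_mul, map_inv, hkd, mul_inv_cancel]
  · refine ⟨⟨(LinearEquiv.det g).1, ?_⟩, (LinearEquiv.det g).1, fun v => ?_⟩
    · apply e.injective
      rw [hk, elt_apply, map_smul, he]
      simp
    · rw [hm, hm, hk, elt_apply]
  · rw [inv_mul_cancel_right]

/-- `q^3 - q^2` functionals do not vanish at `x`. -/
theorem card_fun [Finite F] [Finite V] (x : V) (e : V ≃ₗ[F] (F × (Fin 2 → F)))
    (he : e x = (1, 0)) :
    (Nat.card F - 1) * Nat.card F ^ 2 ≤ Nat.card {ν : V →ₗ[F] F // ν x ≠ 0} := by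
  have : Fintype F := Fintype.ofFinite F
  have : Finite (V →ₗ[F] F) :=
    Finite.of_injective (fun e : V →ₗ[F] F => (e : _ → _)) DFunLike.coe_injective
  have hU : Nat.card Fˣ = Nat.card F - 1 := Nat.card_units F
  have hF : Nat.card (F × F) = Nat.card F ^ 2 := by rw [Nat.card_prod, sq]
  rw [← hU, ← hF, ← Nat.card_prod]
  let π : Fin 2 → V →ₗ[F] F := fun i =>
    (LinearMap.proj i ∘ₗ LinearMap.snd F F (Fin 2 → F)) ∘ₗ (e : V →ₗ[F] (F × (Fin 2 → F)))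
  let π' : V →ₗ[F] F := LinearMap.fst F F (Fin 2 → F) ∘ₗ (e : V →ₗ[F] (F × (Fin 2 → F)))
  have hπ : ∀ i v, π i v = (e v).2 i := fun i v => rfl
  have hπ' : ∀ v, π' v = (e v).1 := fun v => rfl
  let f : Fˣ × (F × F) → {ν : V →ₗ[F] F // ν x ≠ 0} := fun p =>
    ⟨p.1.1 • π' + (p.2.1 • π 0 + p.2.2 • π 1), by
      show p.1.1 * π' x + (p.2.1 * π 0 x + p.2.2 * π 1 x) ≠ 0
      rw [hπ, hπ, hπ', he]
      simp⟩
  have hf : ∀ p v, (f p).1 v = p.1.1 * (e v).1 + (p.2.1 * (e v).2 0 + p.2.2 * (e v).2 1) :=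
    fun p v => rfl
  apply Nat.card_le_card_of_injective f
  rintro ⟨a, s, t⟩ ⟨a', s', t'⟩ h
  have h1 : ∀ p : F × (Fin 2 → F), a.1 * p.1 + (s * p.2 0 + t * p.2 1) =
      a'.1 * p.1 + (s' * p.2 0 + t' * p.2 1) := by
    intro p
    have h2 := congrArg (fun z : {ν : V →ₗ[F] F // ν x ≠ 0} => z.1 (e.symm p)) h
    simp only [hf, LinearEquiv.apply_symm_apply] at h2
    exact h2
  have h2 : a = a' := by
    apply Units.ext
    have := h1 (1, 0)
    simpa using this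
  have h3 : s = s' := by
    have := h1 (0, ![1, 0])
    simpa using this
  have h4 : t = t' := by
    have := h1 (0, ![0, 1])
    simpa using this
  rw [h2, h3, h4]

/-- The case `H K = GL`. -/
theorem caseA [Finite F] [Finite V] (H : Subgroup (V ≃ₗ[F] V)) (hs : Scal H) (x : V) (hx : x ≠ 0)
    (μ : V →ₗ[F] F) (hμ : μ ≠ 0)
    (e : V ≃ₗ[F] (F × (Fin 2 → F))) (he : e x = (1, 0)) (hm : ∀ v, μ v = (e v).1)
    (hHK : ∀ g : V ≃ₗ[F] V, ∃ h ∈ H, ∃ k ∈ KK x hx μ hμ, g = h * k) :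
    (Nat.card F - 1) * Nat.card F ^ 2 ≤
      Nat.card {h : V ≃ₗ[F] V // h ∈ H ∧ ∃ a : F, h x = a • x} := by
  refine (card_fun x e he).trans ?_
  have : FiniteDimensional F V := Module.Finite.of_finite (R := F) (M := V)
  have : Finite (V ≃ₗ[F] V) :=
    Finite.of_injective (fun e : V ≃ₗ[F] V => (e : _ → _)) DFunLike.coe_injective
  have hμx : μ x = 1 := by rw [hm, he]
  let f : {h : V ≃ₗ[F] V // h ∈ H ∧ ∃ a : F, h x = a • x} → {ν : V →ₗ[F] F // ν x ≠ 0} :=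
    fun h => ⟨μ ∘ₗ (h.1 : V →ₗ[F] V), by
      obtain ⟨a, ha⟩ := h.2.2
      show μ (h.1 x) ≠ 0
      rw [ha, map_smul, hμx, smul_eq_mul, mul_one]
      rintro rfl
      rw [zero_smul] at ha
      exact hx ((LinearEquiv.map_eq_zero_iff h.1).1 ha)⟩
  apply Nat.card_le_card_of_surjective f
  rintro ⟨ν, hν⟩
  let g0 : V →ₗ[F] V := LinearMap.id + (ν - μ).smulRight x
  have hg0 : ∀ v, g0 v = v + (ν v - μ v) • x := fun v => rfl
  have hinj : Function.Injective g0 := by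
    rw [← LinearMap.ker_eq_bot, LinearMap.ker_eq_bot']
    intro v hv
    rw [hg0] at hv
    have h1 := congrArg μ hv
    rw [map_add, map_smul, hμx, smul_eq_mul, mul_one, map_zero] at h1
    have h2 : ν v = 0 := by rw [← h1]; ring
    rw [h2, zero_sub, neg_smul, ← sub_eq_add_neg, sub_eq_zero] at hv
    have h3 := congrArg ν hv
    rw [map_smul, h2, smul_eq_mul] at h3
    have h4 : μ v = 0 := by
      rcases mul_eq_zero.1 h3.symm with h | h
      · exact h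
      · exact absurd h hν
    rw [hv, h4, zero_smul]
  let g : V ≃ₗ[F] V := LinearEquiv.ofInjectiveEndo g0 hinj
  have hg : ∀ v, g v = v + (ν v - μ v) • x := fun v => rfl
  obtain ⟨h, hh, k, ⟨⟨a, ha⟩, b, hb⟩, hhk⟩ := hHK g⁻¹
  have hi : h⁻¹ = k * g := by
    have h1 : g = k⁻¹ * h⁻¹ := by rw [← mul_inv_rev, ← hhk, inv_inv]
    rw [h1, mul_inv_cancel_left]
  have hb0 : b ≠ 0 := by
    rintro rfl
    apply hμ
    ext v
    have := hb (k.symm v)
    rw [LinearEquiv.apply_symm_apply, zero_mul] at this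
    simpa using this
  obtain ⟨s, hsH, hsa⟩ := hs b⁻¹ (inv_ne_zero hb0)
  have hν' : ∀ v, μ (g v) = ν v := by
    intro v
    rw [hg, map_add, map_smul, hμx, smul_eq_mul, mul_one]
    ring
  refine ⟨⟨s * h⁻¹, H.mul_mem hsH (H.inv_mem hh), ?_⟩, ?_⟩
  · refine ⟨b⁻¹ * (ν x * a), ?_⟩
    rw [hi]
    show s (k (g x)) = _
    have h2 : g x = ν x • x := by
      rw [hg, hμx, sub_smul, one_smul]
      abel
    rw [hsa, h2, map_smul, ha, smul_smul, smul_smul, mul_assoc]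
  · apply Subtype.ext
    apply LinearMap.ext
    intro v
    show μ ((s * h⁻¹) v) = ν v
    rw [hi]
    show μ (s (k (g v))) = ν v
    rw [hsa, map_smul, hb, hν', smul_eq_mul, ← mul_assoc, inv_mul_cancel₀ hb0, one_mul]

theorem arith {q c h N k : ℕ} (hc : 1 ≤ c) (hq : 100 * c ^ 2 ≤ q)
    (h1 : (q - 1) * ((q ^ 2 - 1) * (q ^ 2 - q)) ≤ k) (h2 : k ≤ c * h)
    (h3 : (q - 1) * h = (q ^ 3 - 1) * N) : q ^ 3 * (q - 1) ^ 2 < N ^ 2 := by
  have hq0 : 100 ≤ q := by nlinarith [Nat.pow_le_pow_left hc 2]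
  obtain ⟨r, rfl⟩ : ∃ r, q = r + 1 := ⟨q - 1, by omega⟩
  have e1 : r + 1 - 1 = r := rfl
  have e2 : (r + 1) ^ 2 - 1 = r * (r + 2) := by
    have : (r + 1) ^ 2 = r * (r + 2) + 1 := by ring
    omega
  have e3 : (r + 1) ^ 2 - (r + 1) = r * (r + 1) := by
    have : (r + 1) ^ 2 = r * (r + 1) + (r + 1) := by ring
    omega
  have e4 : (r + 1) ^ 3 - 1 = r * (r ^ 2 + 3 * r + 3) := by
    have : (r + 1) ^ 3 = r * (r ^ 2 + 3 * r + 3) + 1 := by ring
    omega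
  rw [e1, e2, e3] at h1
  rw [e1, e4] at h3
  rw [e1]
  have hr : 99 ≤ r := by nlinarith
  have h4 : h = (r ^ 2 + 3 * r + 3) * N := by
    have : r * h = r * ((r ^ 2 + 3 * r + 3) * N) := by rw [h3]; ring
    exact Nat.eq_of_mul_eq_mul_left (by omega) this
  have h5 : r * (r * (r + 2) * (r * (r + 1))) ≤ c * ((r ^ 2 + 3 * r + 3) * N) := by
    rw [← h4]; exact h1.trans h2
  by_contra hN
  rw [not_lt] at hN
  -- squares
  have h6 : (r * (r * (r + 2) * (r * (r + 1)))) ^ 2 ≤ (c * ((r ^ 2 + 3 * r + 3) * N)) ^ 2 :=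
    Nat.pow_le_pow_left h5 2
  have h7 : 100 * (c * ((r ^ 2 + 3 * r + 3) * N)) ^ 2 ≤
      (r + 1) * (r ^ 2 + 3 * r + 3) ^ 2 * ((r + 1) ^ 3 * r ^ 2) := by
    calc 100 * (c * ((r ^ 2 + 3 * r + 3) * N)) ^ 2
        = (100 * c ^ 2) * (r ^ 2 + 3 * r + 3) ^ 2 * N ^ 2 := by ring
      _ ≤ (r + 1) * (r ^ 2 + 3 * r + 3) ^ 2 * ((r + 1) ^ 3 * r ^ 2) :=
        Nat.mul_le_mul (Nat.mul_le_mul_right _ hq) hN
  have h8 : 100 * (r * (r * (r + 2) * (r * (r + 1)))) ^ 2 ≤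
      (r + 1) * (r ^ 2 + 3 * r + 3) ^ 2 * ((r + 1) ^ 3 * r ^ 2) :=
    (Nat.mul_le_mul_left 100 h6).trans h7
  have h9 : (r ^ 2 * (r + 1) ^ 2) * (10 * r ^ 2 * (r + 2)) ^ 2 ≤
      (r ^ 2 * (r + 1) ^ 2) * ((r ^ 2 + 3 * r + 3) * (r + 1)) ^ 2 := by
    calc (r ^ 2 * (r + 1) ^ 2) * (10 * r ^ 2 * (r + 2)) ^ 2
        = 100 * (r * (r * (r + 2) * (r * (r + 1)))) ^ 2 := by ring
      _ ≤ _ := h8
      _ = _ := by ring
  have hpos : 0 < r ^ 2 * (r + 1) ^ 2 := by positivity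
  have h10 := Nat.le_of_mul_le_mul_left h9 hpos
  have h11 : 10 * r ^ 2 * (r + 2) ≤ (r ^ 2 + 3 * r + 3) * (r + 1) :=
    (Nat.pow_le_pow_iff_left (by norm_num)).1 h10
  nlinarith [h11, hr, Nat.mul_le_mul hr hr, mul_pos (show 0 < r by omega) (show 0 < r by omega)]

end

theorem t0_84 (hOrb : StOrb) : StT0 := by
  intro F V _ _ _ _ _ H c hc hq h3 hs ht hMD hP x hx
  obtain ⟨e, he⟩ := exists_coord (F := F) h3 hx
  let μ : V →ₗ[F] F := LinearMap.fst F F (Fin 2 → F) ∘ₗ (e : V →ₗ[F] (F × (Fin 2 → F)))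
  have hm : ∀ v, μ v = (e v).1 := fun v => rfl
  have hμx : μ x = 1 := by rw [hm, he]
  have hμ : μ ≠ 0 := by
    intro h
    rw [h] at hμx
    exact zero_ne_one hμx
  have hS := card_S_le H hx (hP x hx)
  by_cases hHK : ∀ g : V ≃ₗ[F] V, ∃ h ∈ H, ∃ k ∈ KK x hx μ hμ, g = h * k
  · have h1 := (caseA H hs x hx μ hμ e he hm hHK).trans hS
    have hq2 : 2 ≤ Nat.card F := by nlinarith
    calc Nat.card F ^ 3 * (Nat.card F - 1) ^ 2
        < Nat.card F ^ 4 * (Nat.card F - 1) ^ 2 := by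
          apply Nat.mul_lt_mul_of_pos_right (Nat.pow_lt_pow_right (by omega) (by norm_num))
          have : 0 < Nat.card F - 1 := by omega
          positivity
      _ = ((Nat.card F - 1) * Nat.card F ^ 2) ^ 2 := by ring
      _ ≤ _ := Nat.pow_le_pow_left h1 2
  · have h2 := hMD (KK x hx μ hμ) (fun g => sl_KK x hx μ hμ e he hm g) hHK
    have h4 := (hOrb F V H x hx).2.2 ht
    rw [h3] at h4
    have h5 := arith hc hq (card_KK x hx μ hμ e he hm) h2 h4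
    exact h5.trans_le (Nat.pow_le_pow_left hS 2)

end

end SpreadPerm.LG.T0_84
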