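import Pool.Agent.Lib.MP_e6ed9e_al.LG.Defs2

/-!
# Row TA: the special linear group in the image of a point stabilizer, dimension three
-/

namespace SpreadPerm.LG

open Module MulAction

noncomputable section

namespace TA25

variable {F V : Type} [Field F] [AddCommGroup V] [Module F V]

/-- A linear map into a line `⟨y⟩` is given by a functional. -/
theorem exists_functional (y : V) (hy : y ≠ 0) (d : V →ₗ[F] V) (hd : ∀ v, d v ∈ (F ∙ y)) :
    ∃ φ : V →ₗ[F] F, ∀ v, d v = φ v • y := by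
  let e := LinearEquiv.toSpanNonzeroSingleton F V y hy
  refine ⟨(e.symm : (F ∙ y) →ₗ[F] F) ∘ₗ (d.codRestrict (F ∙ y) hd), fun v => ?_⟩
  have h1 : ((e (e.symm (d.codRestrict (F ∙ y) hd v)) : (F ∙ y)) : V) = d v := by
    rw [LinearEquiv.apply_symm_apply]
    rfl
  rw [← h1]
  rfl

/-- A map that is trivial modulo `x` is a perspectivity. -/
theorem exists_persp (x : V) (hx : x ≠ 0) (k : V ≃ₗ[F] V)
    (h : ∀ v, (Submodule.Quotient.mk (k v) : V ⧸ (F ∙ x)) = Submodule.Quotient.mk v) :
    ∃ φ : V →ₗ[F] F, ∀ v, k v = v + φ v • x := by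
  obtain ⟨φ, hφ⟩ := exists_functional x hx ((k : V →ₗ[F] V) - LinearMap.id)
    (fun v => (Submodule.Quotient.eq (F ∙ x)).mp (h v))
  refine ⟨φ, fun v => ?_⟩
  rw [← hφ v]
  simp

/-- Exact lifts. -/
theorem lift (H : Subgroup (V ≃ₗ[F] V)) (hS : Scal H) (x : V) (hx : x ≠ 0)
    (hA : ∀ A : (V ⧸ (F ∙ x)) ≃ₗ[F] (V ⧸ (F ∙ x)), LinearEquiv.det A = 1 →
      ∃ a : F, a ≠ 0 ∧ ∃ B ∈ Ix H x, ∀ v, B v = a • A v)
    (A : (V ⧸ (F ∙ x)) ≃ₗ[F] (V ⧸ (F ∙ x))) (hdet : LinearEquiv.det A = 1) :
    ∃ h ∈ H, ∃ b : F, b ≠ 0 ∧ h x = b • x ∧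
      ∀ v, (Submodule.Quotient.mk (h v) : V ⧸ (F ∙ x)) = A (Submodule.Quotient.mk v) := by
  obtain ⟨a, ha, B, ⟨h, hh, ⟨b, hb⟩, hB⟩, hBA⟩ := hA A hdet
  obtain ⟨s, hs, hsv⟩ := hS a⁻¹ (inv_ne_zero ha)
  have hb0 : b ≠ 0 := by
    rintro rfl
    rw [zero_smul] at hb
    exact hx ((LinearEquiv.map_eq_zero_iff h).1 hb)
  refine ⟨s * h, H.mul_mem hs hh, a⁻¹ * b, mul_ne_zero (inv_ne_zero ha) hb0, ?_, fun v => ?_⟩
  · show s (h x) = _
    rw [hsv, hb, smul_smul]
  · show Submodule.Quotient.mk (s (h v)) = _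
    rw [hsv, Submodule.Quotient.mk_smul, ← hB, hBA, smul_smul, inv_mul_cancel₀ ha, one_smul]

variable {Q : Type} [AddCommGroup Q] [Module F Q]

/-- The linear equivalence of a matrix of determinant one. -/
theorem exists_equiv (e : Basis (Fin 2) F Q) (M : Matrix (Fin 2) (Fin 2) F) (hM : M.det = 1) :
    ∃ A : Q ≃ₗ[F] Q, LinearEquiv.det A = 1 ∧ ∀ v, A v = Matrix.toLin e e M v := by
  have hu : IsUnit M.det := by rw [hM]; exact isUnit_one
  refine ⟨Matrix.toLinearEquiv e M hu, ?_, fun v => rfl⟩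
  ext
  rw [LinearEquiv.coe_det]
  have h1 : ((Matrix.toLinearEquiv e M hu : Q ≃ₗ[F] Q) : Q →ₗ[F] Q) = Matrix.toLin e e M := rfl
  rw [h1, LinearMap.det_toLin, hM]
  rfl

/-- Two anticommuting elements of `SL(2)`, odd characteristic or not. -/
theorem exists_anti [Finite F] (e : Basis (Fin 2) F Q) :
    ∃ A B : Q ≃ₗ[F] Q, LinearEquiv.det A = 1 ∧ LinearEquiv.det B = 1 ∧
      ∀ v, A (B v) = - B (A v) := by
  obtain ⟨α, β, hαβ⟩ : ∃ α β : F, α ^ 2 + β ^ 2 = -1 := by
    have : NeZero (ringChar F) := ⟨CharP.char_ne_zero_of_finite F (ringChar F)⟩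
    obtain ⟨a, b, h⟩ := CharP.sq_add_sq F (ringChar F) (-1)
    refine ⟨a, b, ?_⟩
    rw [h]
    simp
  obtain ⟨A, hA, hA'⟩ := exists_equiv e !![0, 1; -1, 0] (by simp [Matrix.det_fin_two])
  obtain ⟨B, hB, hB'⟩ := exists_equiv e !![α, β; β, -α] (by
    rw [Matrix.det_fin_two]
    simp only [Matrix.of_apply, Matrix.cons_val', Matrix.cons_val_zero, Matrix.cons_val_one,
      Matrix.cons_val_fin_one]
    linear_combination -hαβ)
  refine ⟨A, B, hA, hB, fun v => ?_⟩
  rw [hA', hB', hB', hA', ← Matrix.toLin_mul_apply, ← Matrix.toLin_mul_apply, ← LinearMap.neg_apply,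
    ← map_neg]
  congr 2
  ext i j
  fin_cases i <;> fin_cases j <;> simp [Matrix.mul_apply, Fin.sum_univ_two]

end TA25

open TA25 in
/-- Row TA. -/
theorem ta25 : StTA := by
  intro F V _ _ _ _ _ H hdim hS x hx hA hP
  have hQ : finrank F (V ⧸ (F ∙ x)) = 2 := by
    have h1 := Submodule.finrank_quotient_add_finrank (F ∙ x)
    rw [finrank_span_singleton hx, hdim] at h1
    omega
  let e : Basis (Fin 2) F (V ⧸ (F ∙ x)) := finBasisOfFinrankEq F _ hQ
  by_cases h2 : (2 : F) = 0
  · -- characteristic two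
    obtain ⟨A, hAd, hAv⟩ := exists_equiv e !![1, 1; 0, 1] (by simp [Matrix.det_fin_two])
    have hAA : ∀ v, A (A v) = v := by
      intro v
      rw [hAv, hAv, ← Matrix.toLin_mul_apply]
      have h3 : (!![1, 1; 0, 1] * !![1, 1; 0, 1] : Matrix (Fin 2) (Fin 2) F) = 1 := by
        ext i j
        fin_cases i <;> fin_cases j <;> simp [Matrix.mul_apply, Fin.sum_univ_two, h2, one_add_one_eq_two]
      rw [h3, Matrix.toLin_one]
      rfl
    obtain ⟨h, hh, b, hb, hhx, hhv⟩ := lift H hS x hx hA A hAd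
    have hpow : ∀ n : ℕ, (h ^ n) x = b ^ n • x ∧
        ∀ v, (Submodule.Quotient.mk ((h ^ n) v) : V ⧸ (F ∙ x)) = (A ^ n) (Submodule.Quotient.mk v) := by
      intro n
      induction n with
      | zero => exact ⟨by simp, fun v => rfl⟩
      | succ n ih =>
        refine ⟨?_, fun v => ?_⟩
        · rw [pow_succ', pow_succ', LinearEquiv.mul_apply, ih.1, map_smul, hhx, smul_smul]
          rw [mul_comm]
        · rw [pow_succ', pow_succ', LinearEquiv.mul_apply, hhv, ih.2]
          rfl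
    have hodd : A ^ (Nat.card F - 1) = A := by
      have hA2 : A ^ 2 = 1 := by
        ext v
        rw [pow_two]
        exact hAA v
      have hev : Even (Nat.card F) := by
        have hf : Fintype F := Fintype.ofFinite F
        rw [Nat.card_eq_fintype_card]
        have hch : ringChar F = 2 := by
          have h3 : ringChar F ∣ 2 := ringChar.dvd (by exact_mod_cast h2)
          rcases (Nat.dvd_prime Nat.prime_two).mp h3 with h4 | h4
          · exact absurd h4 (CharP.ringChar_ne_one)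
          · exact h4
        exact Nat.even_iff.mpr (FiniteField.even_card_iff_char_two.mp hch)
      obtain ⟨m, hm⟩ := hev
      have hm1 : 1 ≤ m := by
        have := (Finite.one_lt_card : 1 < Nat.card F)
        omega
      have hq : Nat.card F - 1 = 2 * (m - 1) + 1 := by omega
      rw [hq, pow_succ, pow_mul, hA2, one_pow, one_mul]
    have hbp : b ^ (Nat.card F - 1) = 1 := by
      have hf : Fintype F := Fintype.ofFinite F
      rw [Nat.card_eq_fintype_card]
      exact FiniteField.pow_card_sub_one_eq_one b hb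
    set g : V ≃ₗ[F] V := h ^ (Nat.card F - 1) with hgdef
    have hg : g ∈ H := H.pow_mem hh _
    have hgx : g x = x := by rw [hgdef, (hpow _).1, hbp, one_smul]
    have hgv : ∀ v, (Submodule.Quotient.mk (g v) : V ⧸ (F ∙ x)) = A (Submodule.Quotient.mk v) := by
      intro v
      rw [hgdef, (hpow _).2, hodd]
    obtain ⟨φ, hφ⟩ := exists_persp x hx (g * g) (by
      intro v
      show Submodule.Quotient.mk (g (g v)) = _
      rw [hgv, hgv, hAA])
    have h0 : φ = 0 := hP x hx φ ⟨g * g, H.mul_mem hg hg, hφ⟩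
    have hgg : ∀ v, g (g v) = v := by
      intro v
      have h3 := hφ v
      rw [h0, LinearMap.zero_apply, zero_smul, add_zero] at h3
      exact h3
    let N : V →ₗ[F] V := (g : V →ₗ[F] V) - LinearMap.id
    have hN : ∀ v, N v = g v - v := fun v => rfl
    have hNN : ∀ v, N (N v) = 0 := by
      intro v
      rw [hN (N v), hN v, map_sub, hgg]
      have h3 : (2 : F) • (v - g v) = 0 := by rw [h2, zero_smul]
      rw [two_smul] at h3
      rw [← h3]
      abel
    have hrk : finrank F (LinearMap.range N) ≤ 1 := by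
      have h3 := LinearMap.finrank_range_add_finrank_ker N
      have h4 : finrank F (LinearMap.range N) ≤ finrank F (LinearMap.ker N) := by
        refine Submodule.finrank_mono ?_
        rintro _ ⟨v, rfl⟩
        exact hNN v
      rw [hdim] at h3
      omega
    have hN0 : N ≠ 0 := by
      intro h3
      have h4 : ∀ v, A v = v := by
        intro v
        obtain ⟨u, rfl⟩ := Submodule.Quotient.mk_surjective _ v
        rw [← hgv u]
        have h5 : g u - u = 0 := by rw [← hN u, h3]; rfl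
        rw [sub_eq_zero.mp h5]
      have h5 := hAv (e 1)
      rw [h4 (e 1), Matrix.toLin_self] at h5
      have h6 := congrArg (fun v => e.repr v 0) h5
      simp [Fin.sum_univ_two] at h6
    obtain ⟨v0, hv0⟩ : ∃ v, N v ≠ 0 := by
      by_contra hcon
      push Not at hcon
      exact hN0 (LinearMap.ext hcon)
    have hrk1 : finrank F (LinearMap.range N) = 1 := by
      refine le_antisymm hrk ?_
      rw [Nat.one_le_iff_ne_zero, Ne, Submodule.finrank_eq_zero]
      intro h3
      exact hv0 ((Submodule.mem_bot F).mp (h3 ▸ LinearMap.mem_range_self N v0))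
    obtain ⟨φ, hφ⟩ := exists_functional (N v0) hv0 N (by
      intro v
      have h3 := (finrank_eq_one_iff_of_nonzero' (⟨N v0, LinearMap.mem_range_self N v0⟩ :
        LinearMap.range N) (by
          intro h4
          exact hv0 (congrArg Subtype.val h4))).mp hrk1 ⟨N v, LinearMap.mem_range_self N v⟩
      obtain ⟨a, ha⟩ := h3
      rw [Submodule.mem_span_singleton]
      exact ⟨a, congrArg Subtype.val ha⟩)
    have h7 : φ = 0 := hP (N v0) hv0 φ ⟨g, hg, fun v => by
      rw [← hφ v, hN v]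
      abel⟩
    exact hv0 (by rw [hφ v0, h7, LinearMap.zero_apply, zero_smul])
  · obtain ⟨A, B, hAd, hBd, hAB⟩ := exists_anti (F := F) e
    obtain ⟨h, hh, b, hb, hhx, hhv⟩ := lift H hS x hx hA A hAd
    obtain ⟨k, hk, c, hc, hkx, hkv⟩ := lift H hS x hx hA B hBd
    obtain ⟨s, hs, hsv⟩ := hS (-1) (neg_ne_zero.mpr one_ne_zero)
    let g : V ≃ₗ[F] V := s * (h * k * (k * h)⁻¹)
    have hg : g ∈ H := H.mul_mem hs (H.mul_mem (H.mul_mem hh hk) (H.inv_mem (H.mul_mem hk hh)))
    have hgv : ∀ u, g (k (h u)) = -(h (k u)) := by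
      intro u
      show s (h (k ((k * h)⁻¹ ((k * h) u)))) = _
      have : (k * h)⁻¹ ((k * h) u) = u := (k * h).symm_apply_apply u
      rw [this, hsv, neg_one_smul]
    obtain ⟨φ, hφ⟩ := exists_persp x hx g (by
      intro v
      obtain ⟨u, hu⟩ : ∃ u, k (h u) = v := ⟨h.symm (k.symm v), by simp⟩
      rw [← hu, hgv, Submodule.Quotient.mk_neg, hhv, hkv, hAB, neg_neg, hkv, hhv])
    have h0 : φ = 0 := hP x hx φ ⟨g, hg, hφ⟩
    have h3 := hgv x
    have hgx : g x = x := by rw [hφ x, h0, LinearMap.zero_apply, zero_smul, add_zero]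
    rw [hkx, map_smul h, hhx, map_smul k, hkx, map_smul g, map_smul g, hgx] at h3
    have h4 : ((2 * b * c) : F) • x = 0 := by
      have h5 : (b • c • x : V) + c • b • x = 0 := by rw [h3]; simp
      rw [smul_smul, smul_smul, ← add_smul] at h5
      rw [← h5]
      congr 1
      ring
    rcases smul_eq_zero.mp h4 with h5 | h5
    · exact (mul_ne_zero (mul_ne_zero h2 hb) hc) h5
    · exact hx h5

end

end SpreadPerm.LG
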