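import Pool.Agent.Lib.MP_e6ed9e_al.LG.TA25

/-!
# Row TB: the image of a point stabilizer in a Borel subgroup, dimension three
-/

namespace SpreadPerm.LG

open Module MulAction

noncomputable section

namespace TB25

open TA25

variable {F V : Type} [Field F] [AddCommGroup V] [Module F V]

/-- Triangular form in the basis `b`. -/
def Tri (b : Basis (Fin 3) F V) (h : V ≃ₗ[F] V) (a1 a2 a3 m n r : F) : Prop :=
  h (b 0) = a1 • b 0 ∧ h (b 1) = a2 • b 1 + m • b 0 ∧ h (b 2) = a3 • b 2 + n • b 1 + r • b 0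

theorem tri_mul (b : Basis (Fin 3) F V) {h k : V ≃ₗ[F] V} {a1 a2 a3 m n r c1 c2 c3 m' n' r' : F}
    (hh : Tri b h a1 a2 a3 m n r) (hk : Tri b k c1 c2 c3 m' n' r') :
    Tri b (h * k) (a1 * c1) (a2 * c2) (a3 * c3) (c2 * m + m' * a1) (c3 * n + n' * a2)
      (c3 * r + n' * m + r' * a1) := by
  obtain ⟨h1, h2, h3⟩ := hh
  obtain ⟨k1, k2, k3⟩ := hk
  refine ⟨?_, ?_, ?_⟩
  · rw [LinearEquiv.mul_apply, k1, map_smul, h1]
    module
  · rw [LinearEquiv.mul_apply, k2, map_add, map_smul, map_smul, h1, h2]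
    module
  · rw [LinearEquiv.mul_apply, k3, map_add, map_add, map_smul, map_smul, map_smul, h1, h2, h3]
    module

theorem tri_unique (b : Basis (Fin 3) F V) {h : V ≃ₗ[F] V} {a1 a2 a3 m n r c1 c2 c3 m' n' r' : F}
    (hh : Tri b h a1 a2 a3 m n r) (hk : Tri b h c1 c2 c3 m' n' r') :
    a1 = c1 ∧ a2 = c2 ∧ a3 = c3 ∧ m = m' ∧ n = n' ∧ r = r' := by
  obtain ⟨h1, h2, h3⟩ := hh
  obtain ⟨k1, k2, k3⟩ := hk
  rw [h1] at k1
  rw [h2] at k2
  rw [h3] at k3
  have e1 := congrArg (fun v => b.repr v 0) k1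
  have e2 := congrArg (fun v => b.repr v 0) k2
  have e3 := congrArg (fun v => b.repr v 1) k2
  have e4 := congrArg (fun v => b.repr v 0) k3
  have e5 := congrArg (fun v => b.repr v 1) k3
  have e6 := congrArg (fun v => b.repr v 2) k3
  simp at e1 e2 e3 e4 e5 e6
  exact ⟨e1, e3, e6, e2, e5, e4⟩

theorem tri_ne (b : Basis (Fin 3) F V) {h : V ≃ₗ[F] V} {a1 a2 a3 m n r : F}
    (hh : Tri b h a1 a2 a3 m n r) : a1 ≠ 0 ∧ a2 ≠ 0 ∧ a3 ≠ 0 := by
  have hdet : LinearMap.det (h : V →ₗ[F] V) = a1 * a2 * a3 := by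
    rw [← LinearMap.det_toMatrix b, Matrix.det_fin_three]
    obtain ⟨h1, h2, h3⟩ := hh
    simp [LinearMap.toMatrix_apply, h1, h2, h3]
  have h0 : LinearMap.det (h : V →ₗ[F] V) ≠ 0 := (LinearEquiv.isUnit_det' h).ne_zero
  rw [hdet] at h0
  refine ⟨?_, ?_, ?_⟩ <;> rintro rfl <;> simp at h0

theorem det_tri (b : Basis (Fin 3) F V) {h : V ≃ₗ[F] V} {a1 a2 a3 m n r : F}
    (hh : Tri b h a1 a2 a3 m n r) : LinearMap.det (h : V →ₗ[F] V) = a1 * a2 * a3 := by
  rw [← LinearMap.det_toMatrix b, Matrix.det_fin_three]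
  obtain ⟨h1, h2, h3⟩ := hh
  simp [LinearMap.toMatrix_apply, h1, h2, h3]

theorem trace_tri (b : Basis (Fin 3) F V) {h : V ≃ₗ[F] V} {a1 a2 a3 m n r : F}
    (hh : Tri b h a1 a2 a3 m n r) : LinearMap.trace F V (h : V →ₗ[F] V) = a1 + a2 + a3 := by
  rw [LinearMap.trace_eq_matrix_trace F b, Matrix.trace_fin_three]
  obtain ⟨h1, h2, h3⟩ := hh
  simp [LinearMap.toMatrix_apply, h1, h2, h3]

/-- Lemma U: unitriangular elements with the same entry are equal. -/
theorem uni (b : Basis (Fin 3) F V) (H : Subgroup (V ≃ₗ[F] V))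
    (hP : ∀ y : V, y ≠ 0 → ∀ φ ∈ P H y, φ = 0) {u u' : V ≃ₗ[F] V} (hu : u ∈ H) (hu' : u' ∈ H)
    {m n r m' r' : F} (h : Tri b u 1 1 1 m n r) (h' : Tri b u' 1 1 1 m' n r') : u = u' := by
  have hx : b 0 ≠ 0 := b.ne_zero 0
  have hdiff : ∀ s, (u : V →ₗ[F] V) s - (u' : V →ₗ[F] V) s ∈ (F ∙ (b 0)) := by
    intro s
    have hs := b.sum_repr s
    rw [← hs, map_sum, map_sum, ← Finset.sum_sub_distrib]
    refine Submodule.sum_mem _ fun i _ => ?_
    rw [map_smul, map_smul, ← smul_sub]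
    refine Submodule.smul_mem _ _ ?_
    rw [Submodule.mem_span_singleton]
    obtain ⟨h1, h2, h3⟩ := h
    obtain ⟨k1, k2, k3⟩ := h'
    fin_cases i
    · refine ⟨0, ?_⟩
      simp [h1, k1]
    · refine ⟨m - m', ?_⟩
      simp only [LinearEquiv.coe_coe, Fin.mk_one, h2, k2]
      module
    · refine ⟨r - r', ?_⟩
      simp only [LinearEquiv.coe_coe, Fin.reduceFinMk, h3, k3]
      module
  obtain ⟨φ, hφ⟩ := exists_persp (b 0) hx (u * u'⁻¹) (by
    intro v
    obtain ⟨s, rfl⟩ : ∃ s, u' s = v := ⟨u'.symm v, by simp⟩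
    have h4 : (u * u'⁻¹) (u' s) = u s := by
      show u (u'.symm (u' s)) = u s
      rw [LinearEquiv.symm_apply_apply]
    rw [h4, Submodule.Quotient.eq]
    exact hdiff s)
  have h0 : φ = 0 := hP _ hx φ ⟨_, H.mul_mem hu (H.inv_mem hu'), hφ⟩
  ext s
  have h5 := hφ (u' s)
  rw [h0, LinearMap.zero_apply, zero_smul, add_zero] at h5
  have h4 : (u * u'⁻¹) (u' s) = u s := by
    show u (u'.symm (u' s)) = u s
    rw [LinearEquiv.symm_apply_apply]
  rw [← h4, h5]

theorem core (b : Basis (Fin 3) F V) (H : Subgroup (V ≃ₗ[F] V)) (hT : PtTrans H)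
    (hP : ∀ y : V, y ≠ 0 → ∀ φ ∈ P H y, φ = 0)
    (hfix : ∀ h ∈ H, (∃ a : F, h (b 0) = a • b 0) → ∃ a1 a2 a3 m n r, Tri b h a1 a2 a3 m n r)
    (hg : ∃ g ∈ H, ∃ α β γ : F, Tri b g 1 1 1 α β γ ∧ β ≠ 0)
    (hc : ∃ h ∈ H, ∃ a1 a2 a3 m n r, Tri b h a1 a2 a3 m n r ∧ a2 ^ 2 ≠ a3 ^ 2 ∧ a2 ^ 3 ≠ a3 ^ 3) :
    False := by
  obtain ⟨g, hgH, α, β, γ, hg, hβ⟩ := hg
  have hα : α ≠ 0 := by
    rintro rfl
    have hy : β • b 1 + γ • b 0 ≠ 0 := by
      intro h0
      have h1 := congrArg (fun v => b.repr v 1) h0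
      simp at h1
      exact hβ h1
    have h1 : b.coord 2 = 0 := by
      refine hP _ hy _ ⟨g, hgH, fun v => ?_⟩
      have h2 : (g : V →ₗ[F] V) = LinearMap.id + (b.coord 2).smulRight (β • b 1 + γ • b 0) := by
        refine b.ext fun i => ?_
        obtain ⟨h1, h2, h3⟩ := hg
        fin_cases i
        · simp [h1]
        · simp [h2]
        · simp [h3, add_assoc]
      have h3 := LinearMap.congr_fun h2 v
      exact h3
    have h2 := LinearMap.congr_fun h1 (b 2)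
    simp at h2
  have hrel : ∀ h ∈ H, ∀ a1 a2 a3 m n r, Tri b h a1 a2 a3 m n r → a1 * a3 = a2 ^ 2 := by
    intro h hh a1 a2 a3 m n r ht
    obtain ⟨n1, n2, n3⟩ := tri_ne b ht
    obtain ⟨g', hg'⟩ : ∃ g' : V ≃ₗ[F] V, g' = h * g * h⁻¹ := ⟨_, rfl⟩
    have hg'H : g' ∈ H := by
      rw [hg']
      exact H.mul_mem (H.mul_mem hh hgH) (H.inv_mem hh)
    have hcomm : g' * h = h * g := by rw [hg']; group
    clear hg'
    obtain ⟨c1, c2, c3, m', n', r', ht'⟩ := hfix g' hg'H (by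
      refine ⟨1, ?_⟩
      have h1 : (g' * h) (b 0) = (h * g) (b 0) := by rw [hcomm]
      rw [LinearEquiv.mul_apply, LinearEquiv.mul_apply, ht.1, hg.1, one_smul, ht.1, map_smul] at h1
      rw [one_smul]
      exact smul_right_injective _ n1 h1)
    have h1 := tri_mul b ht' ht
    have h2 := tri_mul b ht hg
    rw [hcomm] at h1
    obtain ⟨e1, e2, e3, e4, e5, e6⟩ := tri_unique b h1 h2
    have hc1 : c1 = 1 := by
      have := mul_right_cancel₀ n1 (e1.trans (by ring : a1 * 1 = 1 * a1))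
      exact this
    have hc2 : c2 = 1 := mul_right_cancel₀ n2 (e2.trans (by ring : a2 * 1 = 1 * a2))
    have hc3 : c3 = 1 := mul_right_cancel₀ n3 (e3.trans (by ring : a3 * 1 = 1 * a3))
    subst hc1 hc2 hc3
    have f4 : a2 * m' = α * a1 := by linear_combination e4
    have f5 : a3 * n' = β * a2 := by linear_combination e5
    have t1 := tri_mul b hg ht'
    have t2 := tri_mul b ht' hg
    have e : g * g' = g' * g := by
      refine uni b H hP (H.mul_mem hgH hg'H) (H.mul_mem hg'H hgH)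
        (m := 1 * α + m' * 1) (n := 1 * β + n' * 1) (r := 1 * γ + n' * α + r' * 1)
        (m' := 1 * m' + α * 1) (r' := 1 * r' + β * m' + γ * 1) ?_ ?_
      · simpa using t1
      · have h3 : (1 * β + n' * 1 : F) = 1 * n' + β * 1 := by ring
        rw [h3]
        simpa using t2
    rw [e] at t1
    obtain ⟨-, -, -, -, -, e7⟩ := tri_unique b t1 t2
    have e8 : n' * α = β * m' := by linear_combination e7
    have e9 : α * β * (a1 * a3 - a2 ^ 2) = 0 := by
      linear_combination (-a2 * a3) * e8 + (a2 * α) * f5 - (a3 * β) * f4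
    have e10 := mul_ne_zero hα hβ
    rcases mul_eq_zero.mp e9 with h3 | h3
    · exact absurd h3 e10
    · exact sub_eq_zero.mp h3
  obtain ⟨h, hh, a1, a2, a3, m, n, r, ht, hne2, hne3⟩ := hc
  obtain ⟨n1, n2, n3⟩ := tri_ne b ht
  have hr := hrel h hh _ _ _ _ _ _ ht
  have h12 : a2 - a1 ≠ 0 := by
    intro h0
    have h1 : a1 = a2 := (sub_eq_zero.mp h0).symm
    rw [h1] at hr
    have h2 : a3 = a2 := mul_left_cancel₀ n2 (by rw [hr]; ring)
    exact hne2 (by rw [h2])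
  -- the eigenvector `y`
  set y : V := b 1 + (m / (a2 - a1)) • b 0 with hy
  have hy0 : y ≠ 0 := by
    intro h0
    have h1 := congrArg (fun v => b.repr v 1) h0
    simp [hy] at h1
  have hyh : h y = a2 • y := by
    rw [hy, map_add, map_smul, ht.1, ht.2.1, smul_add, smul_smul, smul_smul]
    have h1 : m + m / (a2 - a1) * a1 = a2 * (m / (a2 - a1)) := by
      field_simp
      ring
    rw [add_assoc, ← add_smul, h1]
  obtain ⟨k, hk, a, hka⟩ := hT (b 0) y (b.ne_zero 0) hy0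
  set h' : V ≃ₗ[F] V := k⁻¹ * h * k with hh'
  have hh'H : h' ∈ H := H.mul_mem (H.mul_mem (H.inv_mem hk) hh) hk
  have hh'x : h' (b 0) = a2 • b 0 := by
    show k.symm (h (k (b 0))) = _
    rw [LinearEquiv.symm_apply_eq, hka, map_smul, hyh, map_smul, hka, smul_comm]
  obtain ⟨c1, c2, c3, m', n', r', ht'⟩ := hfix h' hh'H ⟨a2, hh'x⟩
  have hc1 : c1 = a2 := by
    have h1 := ht'.1
    rw [hh'x] at h1
    exact smul_left_injective F (b.ne_zero 0) h1.symm
  have hdet : c1 * c2 * c3 = a1 * a2 * a3 := by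
    rw [← det_tri b ht', ← det_tri b ht]
    have h1 : (h' : V →ₗ[F] V) = ((k.symm : V ≃ₗ[F] V) : V →ₗ[F] V) ∘ₗ (h : V →ₗ[F] V) ∘ₗ
        ((k.symm).symm : V →ₗ[F] V) := rfl
    rw [h1, LinearMap.det_conj]
  have htr : c1 + c2 + c3 = a1 + a2 + a3 := by
    rw [← trace_tri b ht', ← trace_tri b ht]
    have h1 : (h' : V →ₗ[F] V) = (k.symm).conj (h : V →ₗ[F] V) := rfl
    rw [h1, LinearMap.trace_conj']
  have hr' := hrel h' hh'H _ _ _ _ _ _ ht'
  subst hc1
  have p1 : c2 * c3 = a1 * a3 := mul_left_cancel₀ n2 (by linear_combination hdet)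
  have p2 : c2 + c3 = a1 + a3 := by linear_combination htr
  have p3 : (c2 - a1) * (c2 - a3) = 0 := by linear_combination c2 * p2 - p1
  rcases mul_eq_zero.mp p3 with h1 | h1
  · have q1 : c2 = a1 := sub_eq_zero.mp h1
    have q2 : c3 = a3 := by rw [q1] at p2; exact add_left_cancel p2
    rw [q1, q2] at hr'
    apply hne3
    -- c1 * a3 = a1 ^ 2, a1 * a3 = c1 ^ 2
    have q3 : c1 * (c1 ^ 3 - a3 ^ 3) = 0 := by
      linear_combination (-(a1 * a3 + c1 ^ 2)) * hr - a3 ^ 2 * hr'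
    rcases mul_eq_zero.mp q3 with h2 | h2
    · exact absurd h2 n2
    · exact sub_eq_zero.mp h2
  · have q1 : c2 = a3 := sub_eq_zero.mp h1
    have q2 : c3 = a1 := by
      rw [q1] at p2
      linear_combination p2
    rw [q1, q2] at hr'
    apply hne3
    have q3 : c1 ^ 3 - a3 ^ 3 = 0 := by
      linear_combination (-c1) * hr + a3 * hr'
    exact sub_eq_zero.mp q3

theorem exists_image (H : Subgroup (V ≃ₗ[F] V)) (x : V) (hx : x ≠ 0) {h : V ≃ₗ[F] V} (hh : h ∈ H)
    {a : F} (ha : h x = a • x) : ∃ B ∈ Ix H x, ∀ v,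
      B (Submodule.Quotient.mk v) = (Submodule.Quotient.mk (h v) : V ⧸ (F ∙ x)) := by
  have ha0 : a ≠ 0 := by
    rintro rfl
    rw [zero_smul] at ha
    exact hx ((LinearEquiv.map_eq_zero_iff h).1 ha)
  have hmap : (F ∙ x).map (h : V →ₗ[F] V) = (F ∙ x) := by
    rw [Submodule.map_span, Set.image_singleton]
    show Submodule.span F {h x} = _
    rw [ha]
    exact Submodule.span_singleton_smul_eq (isUnit_iff_ne_zero.mpr ha0) x
  exact ⟨Submodule.Quotient.equiv (F ∙ x) (F ∙ x) h hmap, ⟨h, hh, ⟨a, ha⟩, fun v => rfl⟩,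
    fun v => rfl⟩

theorem tri_pow (b : Basis (Fin 3) F V) {k : V ≃ₗ[F] V} {c m n r : F} (hk : Tri b k c 1 1 m n r)
    (j : ℕ) : ∃ m' r' : F, Tri b (k ^ j) (c ^ j) 1 1 m' (j * n) r' := by
  induction j with
  | zero =>
    refine ⟨0, 0, ?_, ?_, ?_⟩ <;> simp
  | succ j ih =>
    obtain ⟨m', r', ht⟩ := ih
    have h1 := tri_mul b ht hk
    rw [← pow_succ, ← pow_succ] at h1
    refine ⟨1 * m' + m * c ^ j, 1 * r' + n * m' + r * c ^ j, ?_⟩
    have h2 : (((j + 1 : ℕ) : F) * n) = 1 * (j * n) + n * 1 := by push_cast; ring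
    rw [h2]
    simpa using h1

/-- The possible quotients in the bad case. -/
theorem card_bad [Finite F] : Nat.card {t : F // t ^ 2 = 1 ∨ t ^ 3 = 1} ≤ 5 := by
  classical
  have h1 : {t : F | t ^ 2 = 1 ∨ t ^ 3 = 1} ⊆
      ((Polynomial.nthRoots 2 (1 : F)).toFinset ∪ (Polynomial.nthRoots 3 (1 : F)).toFinset :
        Finset F) := by
    intro t ht
    rw [Finset.coe_union, Set.mem_union, Finset.mem_coe, Finset.mem_coe, Multiset.mem_toFinset,
      Multiset.mem_toFinset, Polynomial.mem_nthRoots (by norm_num),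
      Polynomial.mem_nthRoots (by norm_num)]
    exact ht
  have h2 := Set.ncard_le_ncard h1 (Finset.finite_toSet _)
  rw [Set.ncard_coe_finset] at h2
  have h3 : Nat.card {t : F // t ^ 2 = 1 ∨ t ^ 3 = 1} = {t : F | t ^ 2 = 1 ∨ t ^ 3 = 1}.ncard :=
    rfl
  rw [h3]
  refine h2.trans ((Finset.card_union_le _ _).trans ?_)
  have h4 := (Multiset.toFinset_card_le (Polynomial.nthRoots 2 (1 : F))).trans
    (Polynomial.card_nthRoots 2 (1 : F))
  have h5 := (Multiset.toFinset_card_le (Polynomial.nthRoots 3 (1 : F))).trans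
    (Polynomial.card_nthRoots 3 (1 : F))
  omega

end TB25

open TA25 TB25 in
/-- Row TB. -/
theorem tb25 : StTB := by
  intro F V _ _ _ _ _ H hq hdim hS hT x hx hcard hB hP
  obtain ⟨v, hv, hfixv, B, hBI, -, hBv⟩ := hB
  have hQ : finrank F (V ⧸ (F ∙ x)) = 2 := by
    have h1 := Submodule.finrank_quotient_add_finrank (F ∙ x)
    rw [finrank_span_singleton hx, hdim] at h1
    omega
  obtain ⟨e2, rfl⟩ := Submodule.Quotient.mk_surjective _ v
  -- a vector outside the line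
  obtain ⟨w, hw⟩ : ∃ w : V ⧸ (F ∙ x), w ∉ (F ∙ (Submodule.Quotient.mk e2 : V ⧸ (F ∙ x))) := by
    by_contra hcon
    push Not at hcon
    have h1 : (F ∙ (Submodule.Quotient.mk e2 : V ⧸ (F ∙ x))) = ⊤ :=
      eq_top_iff.mpr fun w _ => hcon w
    have h2 := finrank_span_singleton (K := F) hv
    rw [h1, finrank_top, hQ] at h2
    omega
  obtain ⟨e3, rfl⟩ := Submodule.Quotient.mk_surjective _ w
  have hli : LinearIndependent F ![x, e2, e3] := by
    rw [Fintype.linearIndependent_iff]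
    intro c hc
    simp only [Fin.sum_univ_three, Matrix.cons_val_zero, Matrix.cons_val_one, Matrix.cons_val] at hc
    have h1 := congrArg (fun v => (Submodule.Quotient.mk v : V ⧸ (F ∙ x))) hc
    simp only [Submodule.Quotient.mk_add, Submodule.Quotient.mk_smul, Submodule.Quotient.mk_zero]
      at h1
    have hx0 : (Submodule.Quotient.mk x : V ⧸ (F ∙ x)) = 0 := by
      rw [Submodule.Quotient.mk_eq_zero]
      exact Submodule.mem_span_singleton_self x
    rw [hx0, smul_zero, zero_add] at h1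
    have hc2 : c 2 = 0 := by
      by_contra h2
      apply hw
      rw [Submodule.mem_span_singleton]
      refine ⟨-(c 2)⁻¹ * c 1, ?_⟩
      have h3 : (c 2)⁻¹ • (c 1 • (Submodule.Quotient.mk e2 : V ⧸ (F ∙ x)) +
          c 2 • Submodule.Quotient.mk e3) = 0 := by rw [h1, smul_zero]
      rw [smul_add, smul_smul, smul_smul, inv_mul_cancel₀ h2, one_smul] at h3
      rw [neg_mul, neg_smul]
      exact (eq_neg_of_add_eq_zero_right h3).symm
    rw [hc2, zero_smul, add_zero] at h1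
    have hc1 : c 1 = 0 := (smul_eq_zero.mp h1).resolve_right hv
    rw [hc1, hc2, zero_smul, zero_smul, add_zero, add_zero] at hc
    have hc0 : c 0 = 0 := (smul_eq_zero.mp hc).resolve_right hx
    intro i
    fin_cases i
    · exact hc0
    · exact hc1
    · exact hc2
  let b : Basis (Fin 3) F V := basisOfLinearIndependentOfCardEqFinrank hli (by simp [hdim])
  have hb : ∀ i, b i = ![x, e2, e3] i := fun i => by
    rw [coe_basisOfLinearIndependentOfCardEqFinrank]
  have hb0 : b 0 = x := hb 0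
  have hb1 : b 1 = e2 := hb 1
  have hb2 : b 2 = e3 := hb 2
  have hrep : ∀ v : V, ∃ c0 c1 c2 : F, v = c2 • e3 + c1 • e2 + c0 • x := by
    intro v
    refine ⟨b.repr v 0, b.repr v 1, b.repr v 2, ?_⟩
    have h1 := b.sum_repr v
    rw [Fin.sum_univ_three, hb0, hb1, hb2] at h1
    refine h1.symm.trans ?_
    abel
  have hx0 : (Submodule.Quotient.mk x : V ⧸ (F ∙ x)) = 0 := by
    rw [Submodule.Quotient.mk_eq_zero]
    exact Submodule.mem_span_singleton_self x
  have hfix : ∀ h ∈ H, (∃ a : F, h (b 0) = a • b 0) →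
      ∃ a1 a2 a3 m n r, Tri b h a1 a2 a3 m n r := by
    rintro h hh ⟨a, ha⟩
    rw [hb0] at ha
    obtain ⟨B', hB', hB'v⟩ := exists_image H x hx hh ha
    obtain ⟨a2, ha2⟩ := hfixv B' hB'
    rw [hB'v, ← Submodule.Quotient.mk_smul, Submodule.Quotient.eq, Submodule.mem_span_singleton]
      at ha2
    obtain ⟨m, hm⟩ := ha2
    obtain ⟨r, n, a3, h3⟩ := hrep (h e3)
    refine ⟨a, a2, a3, m, n, r, ?_, ?_, ?_⟩
    · rw [hb0, ha]
    · rw [hb1, hb0, hm]
      abel
    · rw [hb2, hb1, hb0, h3]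
  have hqt : ∀ {h : V ≃ₗ[F] V} {a1 a2 a3 m n r : F}, Tri b h a1 a2 a3 m n r →
      (Submodule.Quotient.mk (h e2) : V ⧸ (F ∙ x)) = a2 • Submodule.Quotient.mk e2 ∧
      (Submodule.Quotient.mk (h e3) : V ⧸ (F ∙ x)) = a3 • Submodule.Quotient.mk e3 +
        n • Submodule.Quotient.mk e2 := by
    rintro h a1 a2 a3 m n r ⟨-, h2, h3⟩
    rw [hb1, hb0] at h2
    rw [hb2, hb1, hb0] at h3
    refine ⟨?_, ?_⟩
    · rw [h2, Submodule.Quotient.mk_add, Submodule.Quotient.mk_smul, Submodule.Quotient.mk_smul,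
        hx0, smul_zero, add_zero]
    · rw [h3, Submodule.Quotient.mk_add, Submodule.Quotient.mk_add, Submodule.Quotient.mk_smul,
        Submodule.Quotient.mk_smul, Submodule.Quotient.mk_smul, hx0, smul_zero, add_zero]
  have hg : ∃ g ∈ H, ∃ α β γ : F, Tri b g 1 1 1 α β γ ∧ β ≠ 0 := by
    obtain ⟨h, hh, ⟨a, ha⟩, hBh⟩ := hBI
    obtain ⟨a1, a2, a3, m, n, r, ht⟩ := hfix h hh ⟨a, by rw [hb0, ha]⟩
    obtain ⟨n1, n2, n3⟩ := tri_ne b ht
    obtain ⟨q2, q3⟩ := hqt ht
    rw [← hBh] at q2 q3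
    have h23 : a2 = a3 := by
      by_contra hne
      have hne' : a3 - a2 ≠ 0 := sub_ne_zero.mpr (Ne.symm hne)
      obtain ⟨c, hc⟩ := hBv (Submodule.Quotient.mk e3 + (n / (a3 - a2)) • Submodule.Quotient.mk e2)
        ⟨a3, by
          rw [map_add, map_smul, q2, q3, smul_add, smul_smul, smul_smul, add_assoc, ← add_smul]
          congr 2
          field_simp
          ring⟩
      apply hw
      rw [Submodule.mem_span_singleton]
      refine ⟨c - n / (a3 - a2), ?_⟩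
      rw [sub_smul, ← hc]
      abel
    have hn : n ≠ 0 := by
      rintro rfl
      rw [zero_smul, add_zero] at q3
      obtain ⟨c, hc⟩ := hBv _ ⟨a3, q3⟩
      apply hw
      rw [Submodule.mem_span_singleton]
      exact ⟨c, hc.symm⟩
    subst h23
    obtain ⟨s, hs, hsv⟩ := hS a2⁻¹ (inv_ne_zero n2)
    have hts : Tri b s a2⁻¹ a2⁻¹ a2⁻¹ 0 0 0 := ⟨by rw [hsv], by rw [hsv]; simp, by rw [hsv]; simp⟩
    have h1 := tri_mul b hts ht
    rw [inv_mul_cancel₀ n2] at h1
    obtain ⟨m', r', h2⟩ := tri_pow b h1 (Nat.card F - 1)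
    have hf : Fintype F := Fintype.ofFinite F
    have hc1 : (a2⁻¹ * a1) ^ (Nat.card F - 1) = 1 := by
      rw [Nat.card_eq_fintype_card]
      exact FiniteField.pow_card_sub_one_eq_one _ (mul_ne_zero (inv_ne_zero n2) n1)
    rw [hc1] at h2
    refine ⟨_, H.pow_mem (H.mul_mem hs hh) _, _, _, _, h2, ?_⟩
    have h3 : ((Nat.card F - 1 : ℕ) : F) = -1 := by
      rw [Nat.cast_sub (by omega), Nat.card_eq_fintype_card, FiniteField.cast_card_eq_zero]
      simp
    rw [h3, mul_zero, zero_add]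
    exact mul_ne_zero (neg_ne_zero.mpr one_ne_zero) (mul_ne_zero hn (inv_ne_zero n2))
  have hc : ∃ h ∈ H, ∃ a1 a2 a3 m n r, Tri b h a1 a2 a3 m n r ∧ a2 ^ 2 ≠ a3 ^ 2 ∧
      a2 ^ 3 ≠ a3 ^ 3 := by
    by_contra hcon
    have key : ∀ B' : Ix H x, ∃ (t : {t : F // t ^ 2 = 1 ∨ t ^ 3 = 1}) (a : Fˣ) (n : F),
        B'.1 (Submodule.Quotient.mk e2) = (t.1 * a) • Submodule.Quotient.mk e2 ∧
        B'.1 (Submodule.Quotient.mk e3) = (a : F) • Submodule.Quotient.mk e3 +
          n • Submodule.Quotient.mk e2 := by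
      rintro ⟨B', h, hh, ⟨a, ha⟩, hBh⟩
      obtain ⟨a1, a2, a3, m, n, r, ht⟩ := hfix h hh ⟨a, by rw [hb0, ha]⟩
      obtain ⟨n1, n2, n3⟩ := tri_ne b ht
      obtain ⟨q2, q3⟩ := hqt ht
      rw [← hBh] at q2 q3
      have h1 : a2 ^ 2 = a3 ^ 2 ∨ a2 ^ 3 = a3 ^ 3 := by
        by_contra h2
        push Not at h2
        exact hcon ⟨h, hh, a1, a2, a3, m, n, r, ht, h2⟩
      refine ⟨⟨a2 / a3, ?_⟩, Units.mk0 a3 n3, n, ?_, ?_⟩
      · rcases h1 with h1 | h1
        · left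
          rw [div_pow, h1, div_self (pow_ne_zero _ n3)]
        · right
          rw [div_pow, h1, div_self (pow_ne_zero _ n3)]
      · rw [q2, Units.val_mk0, div_mul_cancel₀ _ n3]
      · rw [q3, Units.val_mk0]
    choose t a n h2 h3 using key
    have hinj : Function.Injective fun B' : Ix H x => (t B', a B', n B') := by
      intro B1 B2 h12
      simp only [Prod.mk.injEq] at h12
      obtain ⟨e1, e4, e5⟩ := h12
      apply Subtype.ext
      ext u
      obtain ⟨u, rfl⟩ := Submodule.Quotient.mk_surjective _ u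
      obtain ⟨c0, c1, c2, rfl⟩ := hrep u
      rw [Submodule.Quotient.mk_add, Submodule.Quotient.mk_add, Submodule.Quotient.mk_smul,
        Submodule.Quotient.mk_smul, Submodule.Quotient.mk_smul, hx0, smul_zero, add_zero,
        map_add, map_add, map_smul, map_smul, map_smul, map_smul, h2, h2, h3, h3, e1, e4, e5]
    have h4 := Nat.card_le_card_of_injective _ hinj
    rw [Nat.card_prod, Nat.card_prod, Nat.card_units] at h4
    have h5 : Nat.card (Ix H x) ≤ 5 * ((Nat.card F - 1) * Nat.card F) :=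
      h4.trans (Nat.mul_le_mul_right _ card_bad)
    have h6 : Nat.card (Ix H x) ^ 2 ≤ (5 * ((Nat.card F - 1) * Nat.card F)) ^ 2 :=
      Nat.pow_le_pow_left h5 2
    have h7 : (5 * ((Nat.card F - 1) * Nat.card F)) ^ 2 ≤
        Nat.card F ^ 3 * (Nat.card F - 1) ^ 2 := by
      have h8 : (5 * ((Nat.card F - 1) * Nat.card F)) ^ 2 =
          25 * (Nat.card F ^ 2 * (Nat.card F - 1) ^ 2) := by ring
      have h9 : Nat.card F ^ 3 * (Nat.card F - 1) ^ 2 =
          Nat.card F * (Nat.card F ^ 2 * (Nat.card F - 1) ^ 2) := by ring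
      rw [h8, h9]
      exact Nat.mul_le_mul_right _ (by omega)
    omega
  exact core b H hT hP hfix hg hc

end

end SpreadPerm.LG
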