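import Pool.Agent.Lib.MP_e6ed9e_al.LG.Defs

/-!
# Row TT: the group theoretic theorem
-/

namespace SpreadPerm.LG

open Module MulAction

section

variable {F V : Type} [Field F] [AddCommGroup V] [Module F V]

/-- The stabilizer of a point. -/
def stab2 (F : Type) {V : Type} [Field F] [AddCommGroup V] [Module F V] (x : V) :
    Subgroup (V ≃ₗ[F] V) where
  carrier := {g | ∃ a : F, g x = a • x}
  one_mem' := ⟨1, by simp⟩
  mul_mem' := by
    rintro g h ⟨a, ha⟩ ⟨b, hb⟩
    refine ⟨b * a, ?_⟩
    show g (h x) = _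
    rw [hb, map_smul, ha, smul_smul]
  inv_mem' := by
    rintro g ⟨a, ha⟩
    by_cases hx : x = 0
    · exact ⟨1, by rw [hx]; simp⟩
    · have ha0 : a ≠ 0 := by
        rintro rfl
        rw [zero_smul] at ha
        exact hx ((LinearEquiv.map_eq_zero_iff g).1 ha)
      refine ⟨a⁻¹, ?_⟩
      show g.symm x = _
      rw [LinearEquiv.symm_apply_eq, map_smul, ha, smul_smul, inv_mul_cancel₀ ha0, one_smul]

theorem mem_stab2 {x : V} {g : V ≃ₗ[F] V} : g ∈ stab2 F x ↔ ∃ a : F, g x = a • x := Iff.rfl

/-- The stabilizer of a hyperplane. -/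
def stabH2 {F V : Type} [Field F] [AddCommGroup V] [Module F V] (μ : V →ₗ[F] F) (hμ : μ ≠ 0) :
    Subgroup (V ≃ₗ[F] V) where
  carrier := {g | ∃ a : F, ∀ v, μ (g v) = a * μ v}
  one_mem' := ⟨1, by simp⟩
  mul_mem' := by
    rintro g h ⟨a, ha⟩ ⟨b, hb⟩
    refine ⟨a * b, fun v => ?_⟩
    show μ (g (h v)) = _
    rw [ha, hb, mul_assoc]
  inv_mem' := by
    rintro g ⟨a, ha⟩
    have ha0 : a ≠ 0 := by
      rintro rfl
      apply hμ
      ext v
      have := ha (g.symm v)
      rw [LinearEquiv.apply_symm_apply, zero_mul] at this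
      rw [this, LinearMap.zero_apply]
    refine ⟨a⁻¹, fun v => ?_⟩
    have := ha (g.symm v)
    rw [LinearEquiv.apply_symm_apply] at this
    show μ (g.symm v) = _
    rw [this, ← mul_assoc, inv_mul_cancel₀ ha0, one_mul]

theorem exists_dual2 {x : V} (hx : x ≠ 0) : ∃ φ : V →ₗ[F] F, φ x = 1 := by
  obtain ⟨φ, hφ⟩ : ∃ φ : V →ₗ[F] F, φ x ≠ 0 := by
    by_contra hcon
    push Not at hcon
    exact hx ((Module.forall_dual_apply_eq_zero_iff F x).1 hcon)
  exact ⟨(φ x)⁻¹ • φ, by rw [LinearMap.smul_apply, smul_eq_mul, inv_mul_cancel₀ hφ]⟩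

/-- A vector which is not proportional to `x` can be killed by a functional which is one at `x`. -/
theorem exists_dual2' {x w : V} (hw : ∀ a : F, x ≠ a • w) : ∃ φ : V →ₗ[F] F, φ x = 1 ∧ φ w = 0 := by
  have hx : x ∉ F ∙ w := by
    intro h
    obtain ⟨a, ha⟩ := Submodule.mem_span_singleton.1 h
    exact hw a ha.symm
  have h1 : (Submodule.Quotient.mk x : V ⧸ (F ∙ w)) ≠ 0 := by
    rwa [ne_eq, Submodule.Quotient.mk_eq_zero]
  obtain ⟨φ, hφ⟩ := exists_dual2 (F := F) h1
  refine ⟨φ ∘ₗ (F ∙ w).mkQ, hφ, ?_⟩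
  show φ ((F ∙ w).mkQ w) = 0
  rw [Submodule.mkQ_apply, (Submodule.Quotient.mk_eq_zero _).2 (Submodule.mem_span_singleton_self w),
    map_zero]

theorem exists_not_smul2 [Module.Finite F V] (h : 2 ≤ finrank F V) (x : V) :
    ∃ w : V, ∀ a : F, w ≠ a • x := by
  by_contra hcon
  push Not at hcon
  have h1 : (⊤ : Submodule F V) ≤ F ∙ x := by
    intro w _
    obtain ⟨a, ha⟩ := hcon w
    rw [ha]
    exact Submodule.smul_mem _ _ (Submodule.mem_span_singleton_self x)
  have h2 := Submodule.finrank_mono h1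
  have h3 : finrank F (F ∙ x) ≤ 1 := by
    have := finrank_span_le_card (R := F) ({x} : Set V)
    simpa using this
  rw [finrank_top] at h2
  omega

theorem stab2_ne_top [Module.Finite F V] (h : 2 ≤ finrank F V) {x : V} (hx : x ≠ 0) :
    ∃ g : V ≃ₗ[F] V, g ∉ stab2 F x := by
  obtain ⟨w, hw⟩ := exists_not_smul2 (F := F) h x
  have hw0 : w ≠ 0 := by
    intro h0
    exact hw 0 (by rw [h0, zero_smul])
  have hxw : ∀ a : F, x ≠ a • w := by
    intro a ha
    have ha0 : a ≠ 0 := by
      rintro rfl
      rw [zero_smul] at ha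
      exact hx ha
    exact hw a⁻¹ (by rw [ha, smul_smul, inv_mul_cancel₀ ha0, one_smul])
  obtain ⟨φ, h1, h2⟩ := exists_dual2' hxw
  refine ⟨LinearEquiv.transvection h2, ?_⟩
  rintro ⟨a, ha⟩
  have h3 : x + φ x • w = a • x := ha
  rw [h1, one_smul] at h3
  apply hw (a - 1)
  rw [sub_smul, one_smul, ← h3]
  abel

theorem stabH2_ne_top [Module.Finite F V] (h : 2 ≤ finrank F V) {μ : V →ₗ[F] F} (hμ : μ ≠ 0) :
    ∃ g : V ≃ₗ[F] V, g ∉ stabH2 μ hμ := by
  obtain ⟨w, hw⟩ : ∃ w, μ w ≠ 0 := by
    by_contra hcon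
    push Not at hcon
    exact hμ (LinearMap.ext hcon)
  obtain ⟨y, hy⟩ := exists_not_smul2 (F := F) h w
  obtain ⟨φ, h1, h2⟩ := exists_dual2' hy
  refine ⟨LinearEquiv.transvection h2, ?_⟩
  rintro ⟨a, ha⟩
  have h3 : ∀ v, μ (v + φ v • w) = a * μ v := ha
  have h4 := h3 w
  rw [h2, zero_smul, add_zero] at h4
  have h5 : a = 1 := by
    have : (a - 1) * μ w = 0 := by rw [sub_mul, one_mul, ← h4, sub_self]
    rcases mul_eq_zero.1 this with h6 | h6
    · exact sub_eq_zero.1 h6
    · exact absurd h6 hw
  have h6 := h3 y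
  rw [h1, one_smul, map_add, h5, one_mul, add_eq_left] at h6
  exact hw h6

/-- Every determinant occurs in the stabilizer of a point. -/
theorem sl_stab2 [Module.Finite F V] {x : V} (hx : x ≠ 0) (g : V ≃ₗ[F] V) :
    ∃ s : V ≃ₗ[F] V, LinearEquiv.det s = 1 ∧ ∃ k ∈ stab2 F x, g = s * k := by
  obtain ⟨φ, hφ⟩ := exists_dual2 (F := F) hx
  set d : Fˣ := LinearEquiv.det g with hd
  have hdet : LinearMap.det (LinearMap.transvection (((d : F) - 1) • φ) x) = (d : F) := by
    rw [LinearMap.transvection.det, LinearMap.smul_apply, hφ, smul_eq_mul, mul_one]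
    ring
  let k : V ≃ₗ[F] V := LinearMap.equivOfDetNeZero (LinearMap.transvection (((d : F) - 1) • φ) x)
    (by rw [hdet]; exact d.ne_zero)
  have hk : ∀ v, k v = v + (((d : F) - 1) • φ) v • x := fun v => rfl
  have hkd : LinearEquiv.det k = d := by
    apply Units.ext
    rw [LinearEquiv.coe_det]
    exact hdet
  refine ⟨g * k⁻¹, ?_, k, ⟨d, ?_⟩, by group⟩
  · rw [map_mul, map_inv, hkd, ← hd, mul_inv_cancel]
  · rw [hk, LinearMap.smul_apply, hφ, smul_eq_mul, mul_one, sub_smul, one_smul]
    abel

/-- Moving perspectivities. -/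
theorem P_move2 {H : Subgroup (V ≃ₗ[F] V)} {x y : V} {φ : V →ₗ[F] F} (hφ : φ ∈ P H x)
    {h : V ≃ₗ[F] V} (hh : h ∈ H) {a : F} (hxy : h x = a • y) :
    a • (φ ∘ₗ (h.symm : V →ₗ[F] V)) ∈ P H y := by
  obtain ⟨g, hg, hgv⟩ := hφ
  refine ⟨h * g * h⁻¹, H.mul_mem (H.mul_mem hh hg) (H.inv_mem hh), fun v => ?_⟩
  show h (g (h.symm v)) = _
  rw [hgv, map_add, LinearEquiv.apply_symm_apply, map_smul, hxy, smul_smul]
  congr 1
  show _ = (a * φ (h.symm v)) • y
  rw [mul_comm]

theorem E_move2 {H : Subgroup (V ≃ₗ[F] V)} {x y : V} {φ : V →ₗ[F] F} (hφ : φ ∈ E H x)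
    {h : V ≃ₗ[F] V} (hh : h ∈ H) {a : F} (hxy : h x = a • y) :
    a • (φ ∘ₗ (h.symm : V →ₗ[F] V)) ∈ E H y := by
  refine ⟨P_move2 hφ.1 hh hxy, ?_⟩
  have h1 : h.symm (a • y) = x := by rw [← hxy, LinearEquiv.symm_apply_apply]
  show a * φ (h.symm y) = 0
  have h2 : φ (h.symm (a • y)) = a * φ (h.symm y) := by
    rw [map_smul, map_smul, smul_eq_mul]
  rw [← h2, h1, hφ.2]

end

theorem tt2 (hC1 : StCase1) (hOrb : StOrb) (hHom : StHom) (hThree : StThree) (hInd : StInd)
    (hFour : StFour) (hTwo : StTwo) (hNul : StNulMD) : StTT := by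
  classical
  intro F V _ _ _ _ _ H c hc hq hn hS hMD
  set q := Nat.card F with hqd
  have hcq : c ≤ q := by nlinarith
  have key : ∀ n, ∀ (V : Type) [AddCommGroup V] [Module F V] [Finite V]
      (H : Subgroup (V ≃ₗ[F] V)), finrank F V = n → 3 ≤ n → Scal H → MD c H →
      Full H ∨ FixPt H ∨ FixHyp H := by
    intro n
    induction n using Nat.strong_induction_on with
    | _ n ih =>
    intro V _ _ _ H hnV hn3 hS hMD
    have hfin : Finite (V ≃ₗ[F] V) :=
      Finite.of_injective (fun g : V ≃ₗ[F] V => (g : V → V)) DFunLike.coe_injective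
    have hnV3 : 3 ≤ finrank F V := by omega
    obtain ⟨x0, hx0⟩ : ∃ x0 : V, x0 ≠ 0 := by
      have : Nontrivial V := Module.nontrivial_of_finrank_pos (R := F) (by omega)
      exact exists_ne 0
    -- reduction to the transitive case
    have htr : FixPt H ∨ FixHyp H ∨ PtTrans H := by
      by_cases hHK : ∀ g : V ≃ₗ[F] V, ∃ h ∈ H, ∃ k ∈ stab2 F x0, g = h * k
      · right; right
        have h1 : ∀ y : V, y ≠ 0 → ∃ h ∈ H, ∃ a : F, a ≠ 0 ∧ h x0 = a • y := by
          intro y hy
          obtain ⟨g, hg⟩ : ∃ g : V ≃ₗ[F] V, ∃ b : F, b ≠ 0 ∧ g x0 = b • y := by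
            by_cases hp : ∃ b : F, x0 = b • y
            · obtain ⟨b, hb⟩ := hp
              refine ⟨1, b, ?_, hb⟩
              rintro rfl
              rw [zero_smul] at hb
              exact hx0 hb
            · push Not at hp
              have hz : ∀ a : F, x0 ≠ a • (y - x0) := by
                intro a ha
                by_cases ha1 : 1 + a = 0
                · have : a = -1 := by linear_combination ha1
                  rw [this, smul_sub, neg_smul, neg_smul, one_smul, one_smul, sub_neg_eq_add] at ha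
                  have h4 : y = 0 := by
                    have := congrArg (fun z => z - x0) ha
                    simp only [add_sub_cancel_right, sub_self] at this
                    exact neg_eq_zero.1 this.symm
                  exact hy h4
                · apply hp ((1 + a)⁻¹ * a)
                  have h3 : (1 + a) • x0 = a • y := by
                    rw [add_smul, one_smul]
                    nth_rewrite 1 [ha]
                    rw [smul_sub]
                    abel
                  rw [mul_smul, ← h3, smul_smul, inv_mul_cancel₀ ha1, one_smul]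
              obtain ⟨φ, h2, h3⟩ := exists_dual2' hz
              refine ⟨LinearEquiv.transvection h3, 1, one_ne_zero, ?_⟩
              show x0 + φ x0 • (y - x0) = _
              rw [h2, one_smul, one_smul]
              abel
          obtain ⟨b, hb, hgb⟩ := hg
          obtain ⟨h, hh, k, ⟨a, hk⟩, rfl⟩ := hHK g
          have ha0 : a ≠ 0 := by
            rintro rfl
            rw [zero_smul] at hk
            exact hx0 ((LinearEquiv.map_eq_zero_iff k).1 hk)
          refine ⟨h, hh, a⁻¹ * b, mul_ne_zero (inv_ne_zero ha0) hb, ?_⟩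
          have h5 : h (k x0) = b • y := hgb
          rw [hk, map_smul] at h5
          rw [mul_smul, ← h5, smul_smul, inv_mul_cancel₀ ha0, one_smul]
        intro x y hx hy
        obtain ⟨h, hh, a, ha, hxa⟩ := h1 x hx
        obtain ⟨h', hh', b, hb, hyb⟩ := h1 y hy
        refine ⟨h' * h⁻¹, H.mul_mem hh' (H.inv_mem hh), a⁻¹ * b, ?_⟩
        show h' (h.symm x) = _
        have h6 : h.symm x = a⁻¹ • x0 := by
          rw [LinearEquiv.symm_apply_eq, map_smul, hxa, smul_smul, inv_mul_cancel₀ ha, one_smul]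
        rw [h6, map_smul, hyb, smul_smul]
      · have h1 := hMD (stab2 F x0) (sl_stab2 hx0) hHK
        have h2 := (hOrb F V H x0 hx0).2.1
        apply hC1 F V H c hc hq hnV3 hS
        rw [h2]
        have h3 : Nat.card {h : V ≃ₗ[F] V // ∃ a : F, h x0 = a • x0} ≤ c * Nat.card H := h1
        calc (Nat.card F ^ finrank F V - 1) * Nat.card {h : V ≃ₗ[F] V // ∃ a : F, h x0 = a • x0}
            ≤ (Nat.card F ^ finrank F V - 1) * (c * Nat.card H) := Nat.mul_le_mul_left _ h3
          _ = c * (Nat.card F ^ finrank F V - 1) * Nat.card H := by ring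
    rcases htr with h | h | htr
    · exact Or.inr (Or.inl h)
    · exact Or.inr (Or.inr h)
    -- transitive
    by_cases hE : ∀ x : V, x ≠ 0 → ∀ φ ∈ E H x, φ = 0
    · -- no transvections
      have hP := hHom F V hnV3 H htr hE
      exfalso
      rcases Nat.lt_or_ge 3 (finrank F V) with h4 | h4
      · -- dimension at least four
        have hcI := hInd F V H c (by omega) htr hMD x0 hx0 (hP x0 hx0)
        have hdim : finrank F (V ⧸ (F ∙ x0)) + 1 = finrank F V := by
          have h1 := Submodule.finrank_quotient_add_finrank (F ∙ x0)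
          rw [finrank_span_singleton hx0] at h1
          exact h1
        have hfinV : Finite (V ⧸ (F ∙ x0)) :=
          Finite.of_surjective (fun v : V => (Submodule.Quotient.mk v : V ⧸ (F ∙ x0)))
            (Submodule.mkQ_surjective _)
        have hfinQ : Finite ((V ⧸ (F ∙ x0)) ≃ₗ[F] (V ⧸ (F ∙ x0))) :=
          Finite.of_injective (fun g : (V ⧸ (F ∙ x0)) ≃ₗ[F] (V ⧸ (F ∙ x0)) =>
            (g : (V ⧸ (F ∙ x0)) → (V ⧸ (F ∙ x0)))) DFunLike.coe_injective
        have hq1 : 100 ≤ q := by nlinarith
        have hqn : q ^ finrank F V = q ^ (finrank F V - 1) * q := by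
          rw [← pow_succ]
          congr 1
          omega
        have hqpos : 0 < q ^ (finrank F V - 1) := by positivity
        obtain ⟨t, ht⟩ : ∃ t, q = t + 1 := ⟨q - 1, by omega⟩
        have hscalI : Scal (Ix H x0) := by
          intro a ha
          obtain ⟨g, hg, hgv⟩ := hS a ha
          refine ⟨LinearEquiv.smulOfNeZero F _ a ha, ⟨g, hg, ⟨a, hgv x0⟩, fun v => ?_⟩, fun v => rfl⟩
          rw [hgv, Submodule.Quotient.mk_smul]
          rfl
        have hMDI : MD c (Ix H x0) := by
          intro K _ hK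
          have h5 := hcI K hK
          have h6 : q ^ finrank F V - 1 ≤ q ^ (finrank F V - 1) * (q - 1) ^ 2 := by
            rw [hqn]
            refine (Nat.sub_le _ _).trans (Nat.mul_le_mul_left _ ?_)
            have : q - 1 = t := by omega
            rw [this, ht]
            nlinarith
          have h7 : q ^ (finrank F V - 1) * (q - 1) ^ 2 * Nat.card K ≤
              q ^ (finrank F V - 1) * (q - 1) ^ 2 * (c * Nat.card (Ix H x0)) := by
            calc q ^ (finrank F V - 1) * (q - 1) ^ 2 * Nat.card K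
                ≤ c * (q ^ finrank F V - 1) * Nat.card (Ix H x0) := h5
              _ = (q ^ finrank F V - 1) * (c * Nat.card (Ix H x0)) := by ring
              _ ≤ _ := Nat.mul_le_mul_right _ h6
          refine Nat.le_of_mul_le_mul_left h7 ?_
          have : 0 < q - 1 := by omega
          positivity
        -- a subgroup which contains `Ix` and is proper is impossible
        have hprop : ∀ K : Subgroup ((V ⧸ (F ∙ x0)) ≃ₗ[F] (V ⧸ (F ∙ x0))), Ix H x0 ≤ K →
            (∃ g, g ∉ K) → False := by
          intro K hle ⟨g, hg⟩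
          have h5 := hcI K (by
            intro hall
            obtain ⟨h, hh, k, hk, rfl⟩ := hall g
            exact hg (K.mul_mem (hle hh) hk))
          have h6 : Nat.card (Ix H x0) ≤ Nat.card K := Subgroup.card_le_of_le hle
          have hKpos : 0 < Nat.card K := Nat.card_pos
          have h7 : q ^ (finrank F V - 1) * ((q - 1) ^ 2) * Nat.card K ≤
              q ^ (finrank F V - 1) * (c * q) * Nat.card K := by
            calc q ^ (finrank F V - 1) * (q - 1) ^ 2 * Nat.card K
                ≤ c * (q ^ finrank F V - 1) * Nat.card (Ix H x0) := h5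
              _ ≤ c * (q ^ finrank F V) * Nat.card K :=
                  Nat.mul_le_mul (Nat.mul_le_mul_left _ (Nat.sub_le _ _)) h6
              _ = q ^ (finrank F V - 1) * (c * q) * Nat.card K := by rw [hqn]; ring
          have h8 : (q - 1) ^ 2 ≤ c * q :=
            Nat.le_of_mul_le_mul_left (Nat.le_of_mul_le_mul_right h7 hKpos) hqpos
          have : q - 1 = t := by omega
          rw [this] at h8
          have h9 : 100 * c ^ 2 ≤ t + 1 := by rw [← ht]; exact hq
          rw [ht] at h8
          nlinarith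
        rcases ih (finrank F (V ⧸ (F ∙ x0))) (by omega) (V ⧸ (F ∙ x0)) (Ix H x0) rfl (by omega)
          hscalI hMDI with h5 | h5 | h5
        · exact hFour F V H (by omega) (by omega) hS x0 hx0 h5 hP
        · obtain ⟨x', hx', hfix⟩ := h5
          exact hprop (stab2 F x') (fun h hh => hfix h hh) (stab2_ne_top (by omega) hx')
        · obtain ⟨μ, hμ, hfix⟩ := h5
          exact hprop (stabH2 μ hμ) (fun h hh => hfix h hh) (stabH2_ne_top (by omega) hμ)
      · exact hThree F V H c hc hq (by omega) hS htr hMD hP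
    · -- transvections
      push Not at hE
      obtain ⟨x, hx, φ, hφ, hφ0⟩ := hE
      by_cases hT : TwoAx H
      · exact Or.inl (hTwo F V H hnV3 htr hT)
      · exfalso
        refine hNul F V H c hc hq hnV3 hS htr ?_ hMD
        -- nonzero transvections at every point
        have hall : ∀ y : V, y ≠ 0 → ∃ ψ ∈ E H y, ψ ≠ 0 := by
          intro y hy
          obtain ⟨h, hh, a, hxa⟩ := htr x y hx hy
          have ha : a ≠ 0 := by
            rintro rfl
            rw [zero_smul] at hxa
            exact hx ((LinearEquiv.map_eq_zero_iff h).1 hxa)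
          refine ⟨_, E_move2 hφ hh hxa, ?_⟩
          intro h0
          apply hφ0
          ext v
          have h1 := congrArg (fun ψ : V →ₗ[F] F => ψ (h v)) h0
          have h2 : a * φ (h.symm (h v)) = 0 := h1
          rw [LinearEquiv.symm_apply_apply] at h2
          rcases mul_eq_zero.1 h2 with h3 | h3
          · exact absurd h3 ha
          · rw [h3, LinearMap.zero_apply]
        unfold TwoAx at hT
        push Not at hT
        obtain ⟨x1, hx1, hx1E⟩ := hT
        obtain ⟨lam, hlam, hlam0⟩ := hall x1 hx1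
        intro y hy
        obtain ⟨ψ, hψ, hψ0⟩ := hall y hy
        refine ⟨ψ, hψ, hψ0, fun θ hθ => ?_⟩
        obtain ⟨h, hh, a, hya⟩ := htr y x1 hy hx1
        have ha : a ≠ 0 := by
          rintro rfl
          rw [zero_smul] at hya
          exact hy ((LinearEquiv.map_eq_zero_iff h).1 hya)
        have h1 := E_move2 hψ hh hya
        have h2 := E_move2 hθ hh hya
        have h3 : a • (ψ ∘ₗ (h.symm : V →ₗ[F] V)) ≠ 0 := by
          intro h0
          apply hψ0
          ext v
          have h4 := congrArg (fun ψ : V →ₗ[F] F => ψ (h v)) h0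
          have h5 : a * ψ (h.symm (h v)) = 0 := h4
          rw [LinearEquiv.symm_apply_apply] at h5
          rcases mul_eq_zero.1 h5 with h6 | h6
          · exact absurd h6 ha
          · rw [h6, LinearMap.zero_apply]
        obtain ⟨b, hb⟩ := hx1E _ h1 _ h2 h3
        refine ⟨b, ?_⟩
        ext v
        have h4 := congrArg (fun ψ : V →ₗ[F] F => ψ (h v)) hb
        have h5 : a * θ (h.symm (h v)) = b * (a * ψ (h.symm (h v))) := h4
        rw [LinearEquiv.symm_apply_apply] at h5
        show θ v = b * ψ v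
        apply mul_left_cancel₀ ha
        rw [h5]
        ring
  exact key _ V H rfl hn hS hMD

end SpreadPerm.LG
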