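import Pool.Agent.Lib.MP_e6ed9e_al.LG.Defs2
import Pool.Agent.Lib.MP_e6ed9e_al.PL.KerRat51

/-!
# Row THREE: the rows D2, T0, TA, TB together
-/

namespace SpreadPerm.LG.Three84

open Module MulAction

noncomputable section

section
variable {F W : Type} [Field F] [AddCommGroup W] [Module F W]

/-- The group of a plane as a group of matrices. -/
def TT (f : W ≃ₗ[F] (Fin 2 → F)) : (W ≃ₗ[F] W) ≃* GL (Fin 2) F :=
  (LinearMap.GeneralLinearGroup.generalLinearEquiv F W).symm.trans
    ((LinearMap.GeneralLinearGroup.congrLinearEquiv f).trans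
      (Matrix.GeneralLinearGroup.toLin (n := Fin 2) (R := F)).symm)

theorem toLin_TT (f : W ≃ₗ[F] (Fin 2 → F)) (B : W ≃ₗ[F] W) :
    Matrix.toLin' (TT f B).1 = (f : W →ₗ[F] (Fin 2 → F)) ∘ₗ (B : W →ₗ[F] W) ∘ₗ
      (f.symm : (Fin 2 → F) →ₗ[F] W) := by
  have h1 : Matrix.GeneralLinearGroup.toLin (TT f B) =
      LinearMap.GeneralLinearGroup.congrLinearEquiv f
        ((LinearMap.GeneralLinearGroup.generalLinearEquiv F W).symm B) := by
    unfold TT
    simp
  have h2 := congrArg (fun z : LinearMap.GeneralLinearGroup F (Fin 2 → F) =>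
    (z : (Fin 2 → F) →ₗ[F] (Fin 2 → F))) h1
  have h3 : ((Matrix.GeneralLinearGroup.toLin (TT f B) :
    LinearMap.GeneralLinearGroup F (Fin 2 → F)) : (Fin 2 → F) →ₗ[F] (Fin 2 → F)) =
      Matrix.toLin' (TT f B).1 := rfl
  rw [← h3]
  exact h2

theorem TT_smul (f : W ≃ₗ[F] (Fin 2 → F)) (B : W ≃ₗ[F] W) (w : W) :
    TT f B • f w = f (B w) := by
  have h1 := congrArg (fun z : (Fin 2 → F) →ₗ[F] (Fin 2 → F) => z (f w)) (toLin_TT f B)
  have h2 : f (B (f.symm (f w))) = f (B w) := by rw [LinearEquiv.symm_apply_apply]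
  rw [← h2]
  exact h1

theorem TT_det (f : W ≃ₗ[F] (Fin 2 → F)) (B : W ≃ₗ[F] W) :
    Matrix.det (TT f B).1 = LinearMap.det (B : W →ₗ[F] W) := by
  rw [← LinearMap.det_toLin', toLin_TT]
  exact LinearMap.det_conj (B : W →ₗ[F] W) f

end

theorem card_map {F K : Type} [Field F] [Finite F] [Field K] [IsAlgClosed K] [Algebra F K]
    (I : Subgroup (GL (Fin 2) F)) :
    Nat.card I ≤ Nat.card (I.map (PL.psi F K)) * (Nat.card F - 1) := by
  have : Finite (GL (Fin 2) F) := Finite.of_injective (fun g : GL (Fin 2) F => g.1) Units.val_injective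
  let χ : I →* Equiv.Perm (PL.PX K) := (PL.psi F K).comp I.subtype
  have hr : χ.range = I.map (PL.psi F K) := by
    rw [MonoidHom.range_eq_map, ← Subgroup.map_map, ← MonoidHom.range_eq_map, Subgroup.range_subtype]
  rw [← hr, Subgroup.card_eq_card_quotient_mul_card_subgroup χ.ker,
    Nat.card_congr (QuotientGroup.quotientKerEquivRange χ).toEquiv]
  apply Nat.mul_le_mul_left
  rw [← Nat.card_units F]
  have hk : ∀ g : χ.ker, ∃ c : Fˣ, g.1.1.1 = Matrix.scalar (Fin 2) c.1 := by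
    intro g
    have h1 : PL.psi F K g.1.1 = 1 := g.2
    obtain ⟨c, hc⟩ := (PL.ker51 F K g.1.1).1 h1
    have hc0 : c ≠ 0 := by
      rintro rfl
      have h2 : g.1.1.1 * (g.1.1⁻¹).1 = 1 := by
        rw [← Units.val_mul, mul_inv_cancel]
        rfl
      rw [hc, map_zero, zero_mul] at h2
      exact zero_ne_one h2
    exact ⟨Units.mk0 c hc0, hc⟩
  choose c hc using hk
  apply Nat.card_le_card_of_injective c
  intro g g' h
  apply Subtype.ext
  apply Subtype.ext
  apply Units.ext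
  rw [hc, hc, h]

theorem three84 (hD2 : StD2) (hT0 : StT0) (hTA : StTA) (hTB : StTB) : StThree := by
  intro F V _ _ _ _ _ H c hc hq h3 hs ht hMD hP
  have : FiniteDimensional F V := Module.Finite.of_finite (R := F) (M := V)
  have hq0 : 100 ≤ Nat.card F := by nlinarith [Nat.pow_le_pow_left hc 2]
  obtain ⟨x, hx⟩ : ∃ x : V, x ≠ 0 := by
    have : Nontrivial V := Module.nontrivial_of_finrank_pos (R := F) (by rw [h3]; norm_num)
    exact exists_ne 0
  have h0 := hT0 F V H c hc hq h3 hs ht hMD hP x hx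
  have hfr : finrank F (V ⧸ (F ∙ x)) = 2 := by
    have h1 := Submodule.finrank_quotient_add_finrank (F ∙ x)
    rw [finrank_span_singleton hx, h3] at h1
    omega
  obtain ⟨f⟩ : Nonempty ((V ⧸ (F ∙ x)) ≃ₗ[F] (Fin 2 → F)) :=
    FiniteDimensional.nonempty_linearEquiv_of_finrank_eq (by rw [hfr, Module.finrank_fin_fun])
  let I : Subgroup (GL (Fin 2) F) := (Ix H x).map (TT f).toMonoidHom
  have hI : Nat.card I = Nat.card (Ix H x) :=
    Nat.card_congr ((Ix H x).equivMapOfInjective _ (TT f).injective).symm.toEquiv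
  let K : Type := AlgebraicClosure F
  have hcard : Nat.card F ^ 3 < Nat.card (I.map (PL.psi F K)) ^ 2 := by
    have h1 : Nat.card I ≤ _ := card_map (K := K) I
    have h2 := Nat.pow_le_pow_left h1 2
    rw [mul_pow, hI] at h2
    exact Nat.lt_of_mul_lt_mul_right (h0.trans_le h2)
  rcases hD2 F K I hq0 hcard with ⟨v, hv, hall, g, hg, hg1, hgw⟩ | hsl
  · have hfv : f (f.symm v) = v := LinearEquiv.apply_symm_apply f v
    refine hTB F V H hq0 h3 hs ht x hx h0 ⟨f.symm v, ?_, ?_, ?_⟩ hP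
    · rwa [Ne, LinearEquiv.map_eq_zero_iff]
    · intro B hB
      obtain ⟨a, ha⟩ := hall (TT f B) ⟨B, hB, rfl⟩
      refine ⟨a, f.injective ?_⟩
      rw [← TT_smul, map_smul, hfv, ha]
    · obtain ⟨B, hB, rfl⟩ := hg
      have hw : ∀ w, (∃ a : F, B w = a • w) → ∃ b : F, w = b • f.symm v := by
        rintro w ⟨a, ha⟩
        obtain ⟨b, hb⟩ := hgw (f w) ⟨a, by
          have h7 := TT_smul f B w
          rw [ha, LinearEquiv.map_smul] at h7
          exact h7⟩
        refine ⟨b, f.injective ?_⟩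
        rw [map_smul, hfv, hb]
      refine ⟨B, hB, ?_, hw⟩
      by_contra hcon
      push Not at hcon
      have h5 : finrank F (V ⧸ (F ∙ x)) ≤ 1 := finrank_le_one (f.symm v) (fun w => by
        obtain ⟨b, hb⟩ := hw w (hcon w)
        exact ⟨b, hb.symm⟩)
      omega
  · refine hTA F V H h3 hs x hx ?_ hP
    intro A hA
    have hdA : Matrix.det (TT f A).1 = 1 := by
      rw [TT_det, ← LinearEquiv.coe_det, hA]
      rfl
    obtain ⟨i, ⟨B, hB, rfl⟩, hi⟩ := hsl (TT f A) hdA
    have h1 : PL.psi F K (TT f B * (TT f A)⁻¹) = 1 := by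
      rw [map_mul, map_inv, ← hi]
      exact mul_inv_cancel _
    obtain ⟨a, ha⟩ := (PL.ker51 F K _).1 h1
    have ha0 : a ≠ 0 := by
      rintro rfl
      have h2 : (TT f B * (TT f A)⁻¹).1 * ((TT f B * (TT f A)⁻¹)⁻¹).1 = 1 := by
        rw [← Units.val_mul, mul_inv_cancel]
        rfl
      rw [ha, map_zero, zero_mul] at h2
      exact zero_ne_one h2
    refine ⟨a, ha0, B, hB, fun v => f.injective ?_⟩
    have h3' : TT f B = (TT f B * (TT f A)⁻¹) * TT f A := by rw [inv_mul_cancel_right]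
    rw [← TT_smul, h3', mul_smul, TT_smul, map_smul]
    show (TT f B * (TT f A)⁻¹).1.mulVec (f (A v)) = _
    rw [ha]
    ext j
    simp [Matrix.mulVec_diagonal]

end

end SpreadPerm.LG.Three84
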