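import Pool.Agent.Lib.MP_e6ed9e_al.LG.Basic47
import Pool.Agent.Lib.MP_e6ed9e_al.LG.Syl88
import Pool.Agent.Lib.MP_e6ed9e_al.LG.Pol81
import Pool.Agent.Lib.MP_e6ed9e_al.LG.Hom47
import Pool.Agent.Lib.MP_e6ed9e_al.LG.Ax81
import Pool.Agent.Lib.MP_e6ed9e_al.LG.Rx81
import Pool.Agent.Lib.MP_e6ed9e_al.LG.GLE79
import Pool.Agent.Lib.MP_e6ed9e_al.LG.Two47
import Pool.Agent.Lib.MP_e6ed9e_al.LG.Nul1
import Pool.Agent.Lib.MP_e6ed9e_al.LG.Loc12_51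
import Pool.Agent.Lib.MP_e6ed9e_al.LG.Loc3_51
import Pool.Agent.Lib.MP_e6ed9e_al.LG.Orb47
import Pool.Agent.Lib.MP_e6ed9e_al.LG.BA79
import Pool.Agent.Lib.MP_e6ed9e_al.LG.BB75
import Pool.Agent.Lib.MP_e6ed9e_al.LG.Non79
import Pool.Agent.Lib.MP_e6ed9e_al.LG.CI18
import Pool.Agent.Lib.MP_e6ed9e_al.LG.CII87
import Pool.Agent.Lib.MP_e6ed9e_al.LG.CIII18
import Pool.Agent.Lib.MP_e6ed9e_al.LG.Case47
import Pool.Agent.Lib.MP_e6ed9e_al.LG.D2_88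
import Pool.Agent.Lib.MP_e6ed9e_al.LG.T0_84
import Pool.Agent.Lib.MP_e6ed9e_al.LG.TA25
import Pool.Agent.Lib.MP_e6ed9e_al.LG.TB25
import Pool.Agent.Lib.MP_e6ed9e_al.LG.Three84
import Pool.Agent.Lib.MP_e6ed9e_al.LG.Ind73
import Pool.Agent.Lib.MP_e6ed9e_al.LG.Four73
import Pool.Agent.Lib.MP_e6ed9e_al.LG.NulMD35
import Pool.Agent.Lib.MP_e6ed9e_al.LG.TT2
import Pool.Agent.Lib.MP_e6ed9e_al.LG.MDL2
import Pool.Agent.Lib.MP_e6ed9e_al.LG.Pt2_56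
import Pool.Agent.Lib.MP_e6ed9e_al.LG.Hy2_56
import Pool.Agent.Lib.MP_e6ed9e_al.LG.Gen35
import Pool.Agent.Lib.MP_e6ed9e_al.LG.Main56

/-!
# All transitive actions of the groups between `PSL(n,q)` and `PGL(n,q)`, `n ≥ 3`, `q` large
-/

namespace SpreadPerm.LG

theorem ba : StBA := ba79 Loc12.loc1_51 (Loc3.loc3_51 Loc12.lag51)

theorem bb : StBB := bb75 Loc12.loc2_51 orb47

theorem case1 : StCase1 :=
  case47 (ci18 syl88 ba bb) (cII87 syl88 gle79 (non79 ba) ba) (ciii18 syl88 ba bb (non79 ba))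

theorem hom : StHom := hom47 pol81

theorem two : StTwo := two47 syl88 ax81 (rx81 ax81) gle79

theorem three : StThree := Three84.three84 d288 (T0_84.t0_84 orb47) ta25 tb25

theorem tt : StTT :=
  tt2 case1 orb47 hom three (ind73 orb47) four73 two (nulMD35 Nul1.nul1 Loc12.loc2_51 orb47)

/-- **Main theorem of the linear case.** -/
theorem main47 : StMain := main56 tt mdl2 pt2_56 hy2_56 gen35

end SpreadPerm.LG
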