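import Pool.Agent.Lib.MP_e6ed9e_al.LG.Defs3

set_option autoImplicit false

/-! Row AUTC: the number of automorphisms of a finite field. -/

namespace SpreadPerm.LG

theorem autC81 : StAutC := by
  intro F _ _
  have := Fintype.ofFinite F
  obtain ⟨p, hp⟩ := CharP.exists F
  have : Fact p.Prime := ⟨CharP.char_is_prime F p⟩
  let _ := ZMod.algebra F p
  have h1 : Nat.card (F ≃+* F) ≤ Nat.card (F ≃ₐ[ZMod p] F) := by
    have hc : ∀ σ : F ≃+* F, ∀ r : ZMod p, σ (algebraMap (ZMod p) F r) = algebraMap (ZMod p) F r := by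
      intro σ r
      have : (σ.toRingHom.comp (algebraMap (ZMod p) F)) = algebraMap (ZMod p) F :=
        Subsingleton.elim _ _
      exact RingHom.congr_fun this r
    refine Nat.card_le_card_of_injective
      (fun σ : F ≃+* F => AlgEquiv.ofRingEquiv (f := σ) (hc σ)) ?_
    intro σ τ h
    ext v
    exact congrArg (fun e : F ≃ₐ[ZMod p] F => e v) h
  have h2 : Nat.card (F ≃ₐ[ZMod p] F) = Module.finrank (ZMod p) F :=
    IsGalois.card_aut_eq_finrank (ZMod p) F
  rw [h2] at h1
  refine Nat.le_log_of_pow_le (by norm_num) ?_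
  rw [Nat.card_eq_fintype_card (α := F), ← FiniteField.pow_finrank_eq_card p F]
  exact (Nat.pow_le_pow_right (by norm_num) h1).trans
    (Nat.pow_le_pow_left (CharP.char_is_prime F p).two_le _)

end SpreadPerm.LG
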