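import Pool.Agent.Lib.MP_e6ed9e_al.LG.Defs2

/-!
# The groups between `PSL(n,q)` and `PΓL(n,q)`: statements of the modules
-/

namespace SpreadPerm.LG

open Module MulAction

noncomputable section

/-- The group of the semilinear bijections. -/
def GamL (F V : Type) [Field F] [AddCommGroup V] [Module F V] : Subgroup (Equiv.Perm V) where
  carrier := {g | (∀ v w : V, g (v + w) = g v + g w) ∧
    ∃ σ : F ≃+* F, ∀ (a : F) (v : V), g (a • v) = σ a • g v}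
  one_mem' := ⟨fun _ _ => rfl, RingEquiv.refl F, fun _ _ => rfl⟩
  mul_mem' := by
    rintro g h ⟨hg, σ, hσ⟩ ⟨hh, τ, hτ⟩
    refine ⟨fun v w => ?_, τ.trans σ, fun a v => ?_⟩
    · show g (h (v + w)) = g (h v) + g (h w)
      rw [hh, hg]
    · show g (h (a • v)) = σ (τ a) • g (h v)
      rw [hτ, hσ]
  inv_mem' := by
    rintro g ⟨hg, σ, hσ⟩
    refine ⟨fun v w => ?_, σ.symm, fun a v => ?_⟩
    · show g.symm (v + w) = g.symm v + g.symm w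
      rw [Equiv.symm_apply_eq, hg, Equiv.apply_symm_apply, Equiv.apply_symm_apply]
    · show g.symm (a • v) = σ.symm a • g.symm v
      rw [Equiv.symm_apply_eq, hσ, Equiv.apply_symm_apply, RingEquiv.apply_symm_apply]

/-- The linear bijections as permutations. -/
def toA (F V : Type) [Field F] [AddCommGroup V] [Module F V] : (V ≃ₗ[F] V) →* Equiv.Perm V where
  toFun h := h.toEquiv
  map_one' := rfl
  map_mul' _ _ := rfl

theorem GamL_zero {F V : Type} [Field F] [AddCommGroup V] [Module F V] {g : Equiv.Perm V}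
    (hg : g ∈ GamL F V) : g 0 = 0 := by
  have := hg.1 0 0
  rw [add_zero] at this
  exact left_eq_add.1 this

section
variable (F : Type) {V : Type} [Field F] [AddCommGroup V] [Module F V]

/-- The linear elements of `L`. -/
def lin (L : Subgroup (Equiv.Perm V)) : Subgroup (V ≃ₗ[F] V) := L.comap (toA F V)

/-- `L` is transitive on the points of the projective space. -/
def PtTransA (L : Subgroup (Equiv.Perm V)) : Prop :=
  ∀ x y : V, x ≠ 0 → y ≠ 0 → ∃ l ∈ L, ∃ a : F, l x = a • y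

/-- `L` fixes a point. -/
def FixPtA (L : Subgroup (Equiv.Perm V)) : Prop := ∃ x : V, x ≠ 0 ∧ ∀ l ∈ L, ∃ a : F, l x = a • x

/-- `L` fixes a hyperplane. -/
def FixHypA (L : Subgroup (Equiv.Perm V)) : Prop :=
  ∃ μ : V →ₗ[F] F, μ ≠ 0 ∧ ∀ l ∈ L, ∀ v, μ v = 0 → μ (l v) = 0

/-- The hypothesis from the dimension bound. -/
def MDA (c : ℕ) (L : Subgroup (Equiv.Perm V)) : Prop := ∀ K : Subgroup (Equiv.Perm V), K ≤ GamL F V →
  (∀ g ∈ GamL F V, ∃ s : V ≃ₗ[F] V, LinearEquiv.det s = 1 ∧ ∃ k ∈ K, g = toA F V s * k) →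
  (¬ ∀ g ∈ GamL F V, ∃ l ∈ L, ∃ k ∈ K, g = l * k) →
  Nat.card (lin F K) ≤ c * Nat.card (lin F L)

/-- The image of the stabilizer of `⟨x⟩` on `V ⧸ ⟨x⟩`. -/
def IxA (L : Subgroup (Equiv.Perm V)) (x : V) : Subgroup (Equiv.Perm (V ⧸ (F ∙ x))) where
  carrier := {g | ∃ l ∈ L, l ∈ GamL F V ∧ (∃ a : F, l x = a • x) ∧
    ∀ v, g (Submodule.Quotient.mk v) = Submodule.Quotient.mk (l v)}
  one_mem' := ⟨1, L.one_mem, (GamL F V).one_mem, ⟨1, by simp⟩, fun v => rfl⟩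
  mul_mem' := by
    rintro g g' ⟨l, hl, hs, ⟨a, ha⟩, hg⟩ ⟨l', hl', hs', ⟨a', ha'⟩, hg'⟩
    refine ⟨l * l', L.mul_mem hl hl', (GamL F V).mul_mem hs hs', ?_, fun v => ?_⟩
    · obtain ⟨-, σ, hσ⟩ := hs
      refine ⟨σ a' * a, ?_⟩
      show l (l' x) = _
      rw [ha', hσ, ha, smul_smul]
    · show g (g' _) = _
      rw [hg', hg]
      rfl
  inv_mem' := by
    rintro g ⟨l, hl, hs, ⟨a, ha⟩, hg⟩
    refine ⟨l⁻¹, L.inv_mem hl, (GamL F V).inv_mem hs, ?_, fun v => ?_⟩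
    · by_cases hx : x = 0
      · exact ⟨1, by rw [hx, smul_zero]; exact GamL_zero ((GamL F V).inv_mem hs)⟩
      · have h0 := GamL_zero hs
        obtain ⟨-, σ, hσ⟩ := hs
        have ha0 : a ≠ 0 := by
          rintro rfl
          rw [zero_smul] at ha
          exact hx (l.injective (ha.trans h0.symm))
        refine ⟨σ.symm a⁻¹, ?_⟩
        show l.symm x = _
        rw [Equiv.symm_apply_eq, hσ, RingEquiv.apply_symm_apply, ha, smul_smul,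
          inv_mul_cancel₀ ha0, one_smul]
    · show g.symm _ = _
      rw [Equiv.symm_apply_eq, hg]
      show _ = Submodule.Quotient.mk (l (l.symm v))
      rw [Equiv.apply_symm_apply]

/-- All intersections of axes have the same dimension. -/
def EqD (H : Subgroup (V ≃ₗ[F] V)) : Prop :=
  ∀ x y : V, x ≠ 0 → y ≠ 0 → finrank F (RR H x) = finrank F (RR H y)

end

/-- A transitive action of a group between `SL(V)` and `ΓL(V)`, trivial for the scalars and not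
trivial for `SL(V)`. -/
structure ActA (F V : Type) [Field F] [AddCommGroup V] [Module F V] (Γ : Subgroup (Equiv.Perm V))
    (Ω : Type) [MulAction Γ Ω] : Prop where
  sem : Γ ≤ GamL F V
  sl : ∀ g : V ≃ₗ[F] V, LinearEquiv.det g = 1 → toA F V g ∈ Γ
  sc : ∀ g : Γ, (∃ a : F, ∀ v, g.1 v = a • v) → ∀ ω : Ω, g • ω = ω
  nt : ∃ g : Γ, (∃ s : V ≃ₗ[F] V, LinearEquiv.det s = 1 ∧ g.1 = toA F V s) ∧ ∃ ω : Ω, g • ω ≠ ω

/-- HomS -/
def StHomS : Prop := ∀ (F V : Type) [Field F] [Finite F] [AddCommGroup V] [Module F V] [Finite V],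
  3 ≤ finrank F V → ∀ H : Subgroup (V ≃ₗ[F] V),
  (∀ x y, x ≠ 0 → y ≠ 0 → (∃ φ ∈ P H x, φ ≠ 0) → ∃ φ ∈ P H y, φ ≠ 0) →
  (∀ x, x ≠ 0 → ∀ φ ∈ E H x, φ = 0) → ∀ x, x ≠ 0 → ∀ φ ∈ P H x, φ = 0

/-- AxS -/
def StAxS : Prop := ∀ (F V : Type) [Field F] [Finite F] [AddCommGroup V] [Module F V] [Finite V]
  (H : Subgroup (V ≃ₗ[F] V)), 3 ≤ finrank F V → EqD F H → TwoAx H →
  ∀ x w : V, x ≠ 0 → w ≠ 0 → ∀ φ ∈ E H x, φ w = 0 → ∃ a : F, a ≠ 0 ∧ a • φ ∈ E H w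

/-- RxS -/
def StRxS : Prop := ∀ (F V : Type) [Field F] [Finite F] [AddCommGroup V] [Module F V] [Finite V]
  (H : Subgroup (V ≃ₗ[F] V)), 3 ≤ finrank F V → EqD F H → TwoAx H →
  ∀ x y : V, x ≠ 0 → (∀ φ ∈ E H x, φ y = 0) → ∃ a : F, y = a • x

/-- TwoS -/
def StTwoS : Prop := ∀ (F V : Type) [Field F] [Finite F] [AddCommGroup V] [Module F V] [Finite V]
  (H : Subgroup (V ≃ₗ[F] V)), 3 ≤ finrank F V → EqD F H → TwoAx H → Full H

/-- NulS -/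
def StNulS : Prop := ∀ (F V : Type) [Field F] [Finite F] [AddCommGroup V] [Module F V] [Finite V]
  (H : Subgroup (V ≃ₗ[F] V)), 3 ≤ finrank F V → OneAx H →
  4 ≤ finrank F V ∧ (∀ x, x ≠ 0 → ∀ φ ∈ P H x, φ x = 0) ∧
  ∀ x y, x ≠ 0 → y ≠ 0 → ∀ φ ∈ E H x, ∀ ψ ∈ E H y, φ ≠ 0 → ψ ≠ 0 → φ y = 0 → ψ x = 0

/-- SP: semilinear maps of `L` transport perspectivities. -/
def StSP : Prop := ∀ (F V : Type) [Field F] [Finite F] [AddCommGroup V] [Module F V] [Finite V]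
  (L : Subgroup (Equiv.Perm V)), L ≤ GamL F V → ∀ l ∈ L, ∃ σ : F ≃+* F,
  (∀ (a : F) (v : V), l (a • v) = σ a • l v) ∧ ∀ (x : V), ∀ φ ∈ P (lin F L) x,
  ∃ ψ ∈ P (lin F L) (l x), ∀ v, ψ (l v) = σ (φ v)

/-- LinI -/
def StLinI : Prop := ∀ (F V : Type) [Field F] [Finite F] [AddCommGroup V] [Module F V] [Finite V]
  (L : Subgroup (Equiv.Perm V)), L ≤ GamL F V → 2 ≤ finrank F V → ∀ x, x ≠ 0 →
  lin F (IxA F L x) = Ix (lin F L) x ∧ IxA F L x ≤ GamL F (V ⧸ (F ∙ x))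

/-- Uniq: a very large subgroup fixes at most one point and at most one hyperplane. -/
def StUniq : Prop := ∀ (F V : Type) [Field F] [Finite F] [AddCommGroup V] [Module F V] [Finite V]
  (H : Subgroup (V ≃ₗ[F] V)) (c : ℕ), 1 ≤ c → 100 * c ^ 2 ≤ Nat.card F → 3 ≤ finrank F V →
  Big c H → (∀ x y, x ≠ 0 → y ≠ 0 → (∀ h ∈ H, ∃ a : F, h x = a • x) →
    (∀ h ∈ H, ∃ a : F, h y = a • y) → ∃ a : F, y = a • x) ∧
  ∀ μ ν : V →ₗ[F] F, μ ≠ 0 → ν ≠ 0 → (∀ h ∈ H, ∃ a : F, ∀ v, μ (h v) = a * μ v) →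
    (∀ h ∈ H, ∃ a : F, ∀ v, ν (h v) = a * ν v) → ∃ a : F, ν = a • μ

/-- T0S -/
def StT0S : Prop := ∀ (F V : Type) [Field F] [Finite F] [AddCommGroup V] [Module F V] [Finite V]
  (L : Subgroup (Equiv.Perm V)) (c : ℕ), 1 ≤ c → 100 * c ^ 2 ≤ Nat.card F →
  Nat.card (F ≃+* F) ≤ c → finrank F V = 3 → L ≤ GamL F V → Scal (lin F L) → MDA F c L →
  (∀ x, x ≠ 0 → ∀ φ ∈ P (lin F L) x, φ = 0) → ∀ x, x ≠ 0 →
  Nat.card F ^ 3 * (Nat.card F - 1) ^ 2 < Nat.card (Ix (lin F L) x) ^ 2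

/-- TBS -/
def StTBS : Prop := ∀ (F V : Type) [Field F] [Finite F] [AddCommGroup V] [Module F V] [Finite V]
  (L : Subgroup (Equiv.Perm V)), 100 ≤ Nat.card F → finrank F V = 3 → L ≤ GamL F V →
  Scal (lin F L) → PtTransA F L →
  ∀ x, x ≠ 0 → Nat.card F ^ 3 * (Nat.card F - 1) ^ 2 < Nat.card (Ix (lin F L) x) ^ 2 →
  (∃ v : V ⧸ (F ∙ x), v ≠ 0 ∧ (∀ B ∈ Ix (lin F L) x, ∃ a : F, B v = a • v) ∧
    ∃ B ∈ Ix (lin F L) x, (∃ w, ∀ a : F, B w ≠ a • w) ∧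
      ∀ w, (∃ a : F, B w = a • w) → ∃ b : F, w = b • v) →
  ¬ ∀ y, y ≠ 0 → ∀ φ ∈ P (lin F L) y, φ = 0

/-- ThreeS -/
def StThreeS : Prop := ∀ (F V : Type) [Field F] [Finite F] [AddCommGroup V] [Module F V] [Finite V]
  (L : Subgroup (Equiv.Perm V)) (c : ℕ), 1 ≤ c → 100 * c ^ 2 ≤ Nat.card F →
  Nat.card (F ≃+* F) ≤ c → finrank F V = 3 → L ≤ GamL F V → Scal (lin F L) → PtTransA F L →
  MDA F c L → ¬ ∀ x, x ≠ 0 → ∀ φ ∈ P (lin F L) x, φ = 0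

/-- IndS -/
def StIndS : Prop := ∀ (F V : Type) [Field F] [Finite F] [AddCommGroup V] [Module F V] [Finite V]
  (L : Subgroup (Equiv.Perm V)) (c : ℕ), 2 ≤ finrank F V → L ≤ GamL F V → MDA F c L → ∀ x, x ≠ 0 →
  (∀ φ ∈ P (lin F L) x, φ = 0) → ∀ K : Subgroup (Equiv.Perm (V ⧸ (F ∙ x))),
  K ≤ GamL F (V ⧸ (F ∙ x)) →
  (∀ g ∈ GamL F (V ⧸ (F ∙ x)), ∃ s : (V ⧸ (F ∙ x)) ≃ₗ[F] (V ⧸ (F ∙ x)),
    LinearEquiv.det s = 1 ∧ ∃ k ∈ K, g = toA F (V ⧸ (F ∙ x)) s * k) →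
  (¬ ∀ g ∈ GamL F (V ⧸ (F ∙ x)), ∃ h ∈ IxA F L x, ∃ k ∈ K, g = h * k) →
  Nat.card F ^ (finrank F V - 1) * (Nat.card F - 1) ^ 2 * Nat.card (lin F K) ≤
    c * (Nat.card F ^ finrank F V - 1) * Nat.card (Ix (lin F L) x)

/-- NulMDS -/
def StNulMDS : Prop := ∀ (F V : Type) [Field F] [Finite F] [AddCommGroup V] [Module F V] [Finite V]
  (L : Subgroup (Equiv.Perm V)) (c : ℕ), 1 ≤ c → 100 * c ^ 2 ≤ Nat.card F → 3 ≤ finrank F V →
  L ≤ GamL F V → Scal (lin F L) → OneAx (lin F L) → ¬ MDA F c L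

/-- TTS -/
def StTTS : Prop := ∀ (F V : Type) [Field F] [Finite F] [AddCommGroup V] [Module F V] [Finite V]
  (L : Subgroup (Equiv.Perm V)) (c : ℕ), 1 ≤ c → 100 * c ^ 2 ≤ Nat.card F →
  Nat.card (F ≃+* F) ≤ c → 3 ≤ finrank F V → L ≤ GamL F V → Scal (lin F L) → MDA F c L →
  Full (lin F L) ∨ FixPtA F L ∨ FixHypA F L

/-- MdlS -/
def StMdlS : Prop := ∀ (F V Ω : Type) [Field F] [Finite F] [AddCommGroup V] [Module F V] [Finite V]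
  [Fintype Ω] (Γ : Subgroup (Equiv.Perm V)) [MulAction Γ Ω] [IsPretransitive Γ Ω], ActA F V Γ Ω →
  3 ≤ finrank F V → Spreading Γ Ω → ∀ (ω : Ω) (L : Subgroup (Equiv.Perm V)),
  (∀ g, g ∈ L ↔ ∃ (s : Γ) (a : F), a ≠ 0 ∧ s • ω = ω ∧ ∀ v, g v = a • s.1 v) →
  MDA F (2 * finrank F V ^ 3 * (Nat.log 2 (Nat.card F) + 1)) L

/-- Pt2S -/
def StPt2S : Prop := ∀ (F V Ω : Type) [Field F] [Finite F] [AddCommGroup V] [Module F V] [Finite V]
  [Fintype Ω] (Γ : Subgroup (Equiv.Perm V)) [MulAction Γ Ω] [IsPretransitive Γ Ω], ActA F V Γ Ω →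
  2 ≤ finrank F V → ∀ ω : Ω, IsCoatom (stabilizer Γ ω) →
  (∃ x : V, x ≠ 0 ∧ ∀ g : Γ, g • ω = ω → ∃ a : F, g.1 x = a • x) → IsMultiplyPretransitive Γ Ω 2

/-- Hy2S -/
def StHy2S : Prop := ∀ (F V Ω : Type) [Field F] [Finite F] [AddCommGroup V] [Module F V] [Finite V]
  [Fintype Ω] (Γ : Subgroup (Equiv.Perm V)) [MulAction Γ Ω] [IsPretransitive Γ Ω], ActA F V Γ Ω →
  2 ≤ finrank F V → ∀ ω : Ω, IsCoatom (stabilizer Γ ω) →
  (∃ μ : V →ₗ[F] F, μ ≠ 0 ∧ ∀ g : Γ, g • ω = ω → ∀ v, μ v = 0 → μ (g.1 v) = 0) →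
  IsMultiplyPretransitive Γ Ω 2

/-- AutC: the number of automorphisms. -/
def StAutC : Prop := ∀ (F : Type) [Field F] [Finite F],
  Nat.card (F ≃+* F) ≤ Nat.log 2 (Nat.card F)

/-- MainS -/
def StMainS : Prop := ∀ (F V Ω : Type) [Field F] [Finite F] [AddCommGroup V] [Module F V] [Finite V]
  [Fintype Ω] (Γ : Subgroup (Equiv.Perm V)) [MulAction Γ Ω] [IsPretransitive Γ Ω], ActA F V Γ Ω →
  3 ≤ finrank F V →
  400 * finrank F V ^ 6 * (Nat.log 2 (Nat.card F) + 1) ^ 2 ≤ Nat.card F → Spreading Γ Ω →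
  IsMultiplyPretransitive Γ Ω 2

end

end SpreadPerm.LG
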