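import Pool.Agent.Lib.MP_e6ed9e_al.LG.Ax81
import Pool.Agent.Lib.MP_e6ed9e_al.LG.Defs3

set_option autoImplicit false

/-! Rows AXS and RXS: an axis of one center is an axis of all its points, and the axes of a center
have only the center in common; the intersections of axes have the same dimension. -/

namespace SpreadPerm.LG

open Module

section
variable {F V : Type} [Field F] [AddCommGroup V] [Module F V]

lemma axS81_symm [Finite V] (H : Subgroup (V ≃ₗ[F] V)) (hpt : EqD F H) (x y : V) (hx : x ≠ 0)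
    (hy : y ≠ 0) (hyx : y ∈ RR H x) : x ∈ RR H y := by
  have : Module.Finite F V := Module.Finite.of_finite
  by_contra hcon
  obtain ⟨ψ, hψ, hψx⟩ : ∃ ψ ∈ E H y, ψ x ≠ 0 := by
    by_contra hc
    push Not at hc
    exact hcon hc
  have hψ' := hψ
  obtain ⟨⟨s, hs, hsv⟩, hψy⟩ := hψ
  have h1 : ∀ φ ∈ E H x, ψ x • φ ∈ E H y := by
    intro φ hφ
    have hφy : φ y = 0 := hyx φ hφ
    obtain ⟨⟨g, hg, hgv⟩, hφx⟩ := hφ
    refine ⟨⟨s * g * s⁻¹ * g⁻¹, H.mul_mem (H.mul_mem (H.mul_mem hs hg) (H.inv_mem hs))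
      (H.inv_mem hg), fun v => ?_⟩, ?_⟩
    · show s (g (s.symm (g.symm v))) = _
      rw [ax81_inv s ψ y hsv hψy, ax81_inv g φ x hgv hφx, hsv, hgv]
      simp only [map_sub, map_add, map_smul, hψy, hφx, hφy, smul_zero, sub_zero, smul_eq_mul,
        mul_zero, LinearMap.smul_apply, add_zero]
      module
    · rw [LinearMap.smul_apply, hφy, smul_zero]
  have h2 : RR H y ≤ RR H x := by
    intro v hv φ hφ
    have h3 := hv _ (h1 φ hφ)
    rw [LinearMap.smul_apply, smul_eq_mul] at h3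
    exact (mul_eq_zero.1 h3).resolve_left hψx
  have h3 : RR H y = RR H x := by
    apply Submodule.eq_of_le_of_finrank_eq h2
    exact hpt y x hy hx
  apply hcon
  rw [h3]
  exact fun φ hφ => hφ.2

end

theorem axS81 : StAxS := by
  intro F V _ _ _ _ _ H hn hpt htwo
  have step : ∀ x w : V, x ≠ 0 → w ≠ 0 → w ∉ RR H x → ∀ φ ∈ E H x, φ w = 0 →
      ∃ a : F, a ≠ 0 ∧ a • φ ∈ E H w := by
    intro x w hx hw hwx φ hφ hφw
    obtain ⟨ψ, hψ, hψx⟩ : ∃ ψ ∈ E H w, ψ x ≠ 0 := by
      by_contra hc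
      push Not at hc
      exact hwx (axS81_symm H hpt w x hw hx hc)
    exact ⟨ψ x, hψx, ax81_star H w x ψ φ hψ hφ hφw⟩
  intro x w hx hw φ hφ hφw
  by_cases hwx : w ∈ RR H x
  · obtain ⟨u, hu, huR⟩ : ∃ u, φ u = 0 ∧ u ∉ RR H x := ax81_out H htwo φ x hx
    obtain ⟨v, hv, hvR⟩ : ∃ u, φ u = 0 ∧ u ∉ RR H w := ax81_out H htwo φ w hw
    obtain ⟨x', hx'φ, hx'x, hx'w⟩ : ∃ x', φ x' = 0 ∧ x' ∉ RR H x ∧ x' ∉ RR H w := by
      by_cases h1 : u ∈ RR H w
      · by_cases h2 : v ∈ RR H x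
        · refine ⟨u + v, by rw [map_add, hu, hv, add_zero], fun h => huR ?_, fun h => hvR ?_⟩
          · have := Submodule.sub_mem _ h h2
            rwa [add_sub_cancel_right] at this
          · have := Submodule.sub_mem _ h h1
            rwa [add_sub_cancel_left] at this
        · exact ⟨v, hv, h2, hvR⟩
      · exact ⟨u, hu, huR, h1⟩
    have hx'0 : x' ≠ 0 := by
      rintro rfl
      exact hx'x (Submodule.zero_mem _)
    obtain ⟨a, ha, haE⟩ := step x x' hx hx'0 hx'x φ hφ hx'φ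
    have hwx' : w ∉ RR H x' := fun h => hx'w (axS81_symm H hpt x' w hx'0 hw h)
    obtain ⟨b, hb, hbE⟩ := step x' w hx'0 hw hwx' (a • φ) haE (by
      rw [LinearMap.smul_apply, hφw, smul_zero])
    refine ⟨b * a, mul_ne_zero hb ha, ?_⟩
    rw [mul_smul]
    exact hbE
  · exact step x w hx hw hwx φ hφ hφw

theorem rxS81 : StRxS := by
  intro F V _ _ _ _ _ H hn hpt htwo x y hx hy
  have : Module.Finite F V := Module.Finite.of_finite
  by_contra hcon
  push Not at hcon
  have hkey : ∀ x y : V, x ≠ 0 → y ≠ 0 → y ∈ RR H x → RR H y = RR H x := by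
    intro x y hx hy hyx
    apply Submodule.eq_of_le_of_finrank_eq
    · intro v hv φ hφ
      obtain ⟨a, ha, haE⟩ := axS81 F V H hn hpt htwo x y hx hy φ hφ (hyx φ hφ)
      have h1 := hv _ haE
      rw [LinearMap.smul_apply, smul_eq_mul] at h1
      exact (mul_eq_zero.1 h1).resolve_left ha
    · exact hpt y x hy hx
  have hy0 : y ≠ 0 := by
    rintro rfl
    exact hcon 0 (by rw [zero_smul])
  have hxR : x ∈ RR H x := fun φ hφ => hφ.2
  have hyR : y ∈ RR H x := hy
  -- z outside R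
  obtain ⟨φ0, hφ0, _, _, hne, _⟩ := htwo x hx
  obtain ⟨z, hz⟩ : ∃ z, φ0 z ≠ 0 := by
    by_contra hc
    push Not at hc
    exact hne (LinearMap.ext hc)
  have hzR : z ∉ RR H x := fun h => hz (h φ0 hφ0)
  have hz0 : z ≠ 0 := by
    rintro rfl
    exact hz (map_zero _)
  have hyz : y ∉ RR H z := by
    intro h
    have h1 := hkey z y hz0 hy0 h
    have h2 := hkey x y hx hy0 hyR
    apply hzR
    rw [← h2, h1]
    exact fun φ hφ => hφ.2
  obtain ⟨φ, hφ, hφy⟩ : ∃ φ ∈ E H z, φ y ≠ 0 := by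
    by_contra hc
    push Not at hc
    exact hyz hc
  obtain ⟨⟨t, ht, htv⟩, hφz⟩ := hφ
  set w := φ y • x - φ x • y with hw
  have hwR : w ∈ RR H x :=
    Submodule.sub_mem _ (Submodule.smul_mem _ _ hxR) (Submodule.smul_mem _ _ hyR)
  have hφw : φ w = 0 := by
    rw [hw, map_sub, map_smul, map_smul, smul_eq_mul, smul_eq_mul]
    ring
  have hw0 : w ≠ 0 := by
    intro h0
    rw [hw, sub_eq_zero] at h0
    by_cases hφx : φ x = 0
    · rw [hφx, zero_smul] at h0
      exact hx ((smul_eq_zero.1 h0).resolve_left hφy)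
    · apply hcon ((φ x)⁻¹ * φ y)
      rw [mul_smul, h0, smul_smul, inv_mul_cancel₀ hφx, one_smul]
  have htw : t w = w := by rw [htv, hφw, zero_smul, add_zero]
  have hRw := hkey x w hx hw0 hwR
  have h1 : y ∈ RR H w := by rw [hRw]; exact hyR
  have h2 : t y ∈ RR H (t w) := rx81_map H t ht w y h1
  rw [htw, htv, hRw] at h2
  have h3 : φ y • z ∈ RR H x := by
    have := Submodule.sub_mem _ h2 hyR
    rwa [add_sub_cancel_left] at this
  apply hzR
  have h4 := Submodule.smul_mem (RR H x) (φ y)⁻¹ h3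
  rwa [smul_smul, inv_mul_cancel₀ hφy, one_smul] at h4

end SpreadPerm.LG
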