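import Pool.Agent.Lib.MP_e6ed9e_al.LG.Defs2

/-!
# Perspectivities: basic lemmas
-/

namespace SpreadPerm.LG

open Module MulAction

variable {F V : Type} [Field F] [AddCommGroup V] [Module F V]

/-- The map `v ↦ v + φ v • x`. -/
def per (x : V) (φ : V →ₗ[F] F) : V →ₗ[F] V := LinearMap.id + φ.smulRight x

@[simp] theorem per_apply (x : V) (φ : V →ₗ[F] F) (v : V) : per x φ v = v + φ v • x := rfl

/-- The transvection `v ↦ v + φ v • x`. -/
def trv (x : V) (φ : V →ₗ[F] F) (h : φ x = 0) : V ≃ₗ[F] V :=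
  LinearEquiv.ofLinear (per x φ) (per x (-φ))
    (by ext v; simp [h])
    (by ext v; simp [h])

@[simp] theorem trv_apply (x : V) (φ : V →ₗ[F] F) (h : φ x = 0) (v : V) :
    trv x φ h v = v + φ v • x := rfl

/-- The perspectivity `v ↦ v + φ v • x`. -/
def hml (x : V) (φ : V →ₗ[F] F) (h : 1 + φ x ≠ 0) : V ≃ₗ[F] V :=
  LinearEquiv.ofLinear (per x φ) (per x (-(1 + φ x)⁻¹ • φ))
    (by
      refine LinearMap.ext fun v => ?_
      have e1 : x + φ x • x = (1 + φ x) • x := by rw [add_smul, one_smul]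
      simp only [LinearMap.comp_apply, per_apply, LinearMap.id_apply, map_add, map_smul,
        LinearMap.smul_apply, smul_eq_mul]
      rw [e1, smul_smul, show -(1 + φ x)⁻¹ * φ v * (1 + φ x) = -φ v by field_simp, neg_smul]
      abel)
    (by
      refine LinearMap.ext fun v => ?_
      have e1 : x + (-(1 + φ x)⁻¹ * φ x) • x = (1 + φ x)⁻¹ • x := by
        have : 1 + -(1 + φ x)⁻¹ * φ x = (1 + φ x)⁻¹ := by
          field_simp
          ring
        calc x + (-(1 + φ x)⁻¹ * φ x) • x = (1 + -(1 + φ x)⁻¹ * φ x) • x := by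
              rw [add_smul, one_smul]
          _ = _ := by rw [this]
      simp only [LinearMap.comp_apply, per_apply, LinearMap.id_apply, map_add, map_smul,
        LinearMap.smul_apply, smul_eq_mul]
      rw [e1]
      module)

@[simp] theorem hml_apply (x : V) (φ : V →ₗ[F] F) (h : 1 + φ x ≠ 0) (v : V) :
    hml x φ h v = v + φ v • x := rfl

variable {H : Subgroup (V ≃ₗ[F] V)}

theorem inv_app (h : V ≃ₗ[F] V) (v : V) : h⁻¹ (h v) = v := h.symm_apply_apply v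

theorem app_inv (h : V ≃ₗ[F] V) (v : V) : h (h⁻¹ v) = v := h.apply_symm_apply v

theorem mul_app (g h : V ≃ₗ[F] V) (v : V) : (g * h) v = g (h v) := rfl

theorem trv_mem {x : V} {φ : V →ₗ[F] F} (hφ : φ ∈ E H x) : trv x φ hφ.2 ∈ H := by
  obtain ⟨⟨g, hg, h⟩, h0⟩ := hφ
  have : g = trv x φ h0 := LinearEquiv.ext h
  rw [← this]
  exact hg

theorem mem_E {x : V} {φ : V →ₗ[F] F} (h : φ x = 0) (ht : trv x φ h ∈ H) : φ ∈ E H x :=
  ⟨⟨_, ht, fun _ => rfl⟩, h⟩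

theorem one_add_ne {x : V} {φ : V →ₗ[F] F} (hx : x ≠ 0) (hφ : φ ∈ P H x) : 1 + φ x ≠ 0 := by
  obtain ⟨g, hg, h⟩ := hφ
  intro h0
  have : g x = 0 := by rw [h, show x + φ x • x = (1 + φ x) • x by rw [add_smul, one_smul], h0,
    zero_smul]
  exact hx ((LinearEquiv.map_eq_zero_iff g).1 this)

theorem P_conj {x : V} {φ : V →ₗ[F] F} {h : V ≃ₗ[F] V} (hh : h ∈ H) (hφ : φ ∈ P H x) :
    φ ∘ₗ (h⁻¹ : V ≃ₗ[F] V).toLinearMap ∈ P H (h x) := by
  obtain ⟨g, hg, hgφ⟩ := hφ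
  refine ⟨h * g * h⁻¹, H.mul_mem (H.mul_mem hh hg) (H.inv_mem hh), fun v => ?_⟩
  show h (g (h⁻¹ v)) = _
  rw [hgφ, map_add, map_smul, app_inv]
  rfl

theorem E_conj {x : V} {φ : V →ₗ[F] F} {h : V ≃ₗ[F] V} (hh : h ∈ H) (hφ : φ ∈ E H x) :
    φ ∘ₗ (h⁻¹ : V ≃ₗ[F] V).toLinearMap ∈ E H (h x) :=
  ⟨P_conj hh hφ.1, by
    show φ (h⁻¹ (h x)) = 0
    rw [inv_app]
    exact hφ.2⟩

theorem P_conj_iff {x : V} {φ : V →ₗ[F] F} {h : V ≃ₗ[F] V} (hh : h ∈ H) :
    φ ∘ₗ h.toLinearMap ∈ P H x ↔ φ ∈ P H (h x) := by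
  constructor
  · intro hφ
    have := P_conj hh hφ
    convert this using 1
    ext v
    show _ = φ (h (h⁻¹ v))
    rw [app_inv]
  · intro hφ
    have := P_conj (H.inv_mem hh) hφ
    rw [inv_app] at this
    convert this using 1
    ext v
    show _ = φ (h⁻¹⁻¹ v)
    rw [inv_inv]
    rfl

theorem E_conj_iff {x : V} {φ : V →ₗ[F] F} {h : V ≃ₗ[F] V} (hh : h ∈ H) :
    φ ∘ₗ h.toLinearMap ∈ E H x ↔ φ ∈ E H (h x) :=
  and_congr (P_conj_iff hh) Iff.rfl

theorem P_smul {x : V} {φ : V →ₗ[F] F} {a : F} (ha : a ≠ 0) : a • φ ∈ P H x ↔ φ ∈ P H (a • x) := by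
  constructor
  · rintro ⟨g, hg, h⟩
    refine ⟨g, hg, fun v => ?_⟩
    rw [h, smul_smul, LinearMap.smul_apply, smul_eq_mul, mul_comm]
  · rintro ⟨g, hg, h⟩
    refine ⟨g, hg, fun v => ?_⟩
    rw [h, smul_smul, LinearMap.smul_apply, smul_eq_mul, mul_comm]

theorem E_smul {x : V} {φ : V →ₗ[F] F} {a : F} (ha : a ≠ 0) : a • φ ∈ E H x ↔ φ ∈ E H (a • x) := by
  refine and_congr (P_smul ha) ?_
  rw [LinearMap.smul_apply, map_smul]

theorem P_zero {x : V} : (0 : V →ₗ[F] F) ∈ P H x :=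
  ⟨1, H.one_mem, fun v => by simp⟩

theorem E_zero {x : V} : (0 : V →ₗ[F] F) ∈ E H x := ⟨P_zero, rfl⟩

theorem P_mul {x : V} {φ ψ : V →ₗ[F] F} (hφ : φ ∈ P H x) (hψ : ψ ∈ P H x) :
    φ + ψ + φ x • ψ ∈ P H x := by
  obtain ⟨g, hg, h⟩ := hφ
  obtain ⟨g', hg', h'⟩ := hψ
  refine ⟨g * g', H.mul_mem hg hg', fun v => ?_⟩
  show g (g' v) = _
  rw [h', h]
  simp only [map_add, map_smul, smul_eq_mul, LinearMap.add_apply, LinearMap.smul_apply, add_assoc,
    ← add_smul]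
  congr 2
  ring

theorem E_add {x : V} {φ ψ : V →ₗ[F] F} (hφ : φ ∈ E H x) (hψ : ψ ∈ E H x) :
    φ + ψ ∈ E H x := by
  refine ⟨?_, by rw [LinearMap.add_apply, hφ.2, hψ.2, add_zero]⟩
  have := P_mul hφ.1 hψ.1
  rwa [hφ.2, zero_smul, add_zero] at this

theorem E_neg {x : V} {φ : V →ₗ[F] F} (hφ : φ ∈ E H x) : -φ ∈ E H x := by
  refine ⟨⟨(trv x φ hφ.2)⁻¹, H.inv_mem (trv_mem hφ), fun v => rfl⟩, ?_⟩
  rw [LinearMap.neg_apply, hφ.2, neg_zero]

/-- The axes of `x` form a group. -/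
def Eg (H : Subgroup (V ≃ₗ[F] V)) (x : V) : AddSubgroup (V →ₗ[F] F) where
  carrier := E H x
  zero_mem' := E_zero
  add_mem' := E_add
  neg_mem' := E_neg

@[simp] theorem mem_Eg {x : V} {φ : V →ₗ[F] F} : φ ∈ Eg H x ↔ φ ∈ E H x := Iff.rfl

/-- (*) -/
theorem star {x y : V} {φ ψ : V →ₗ[F] F} (hφ : φ ∈ E H x) (hψ : ψ ∈ E H y) (h : ψ x = 0) :
    φ y • ψ ∈ E H x := by
  have h1 : trv x φ hφ.2 * trv y ψ hψ.2 * (trv x φ hφ.2)⁻¹ * (trv y ψ hψ.2)⁻¹ ∈ H :=
    H.mul_mem (H.mul_mem (H.mul_mem (trv_mem hφ) (trv_mem hψ)) (H.inv_mem (trv_mem hφ)))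
      (H.inv_mem (trv_mem hψ))
  refine ⟨⟨_, h1, fun v => ?_⟩, ?_⟩
  · have hn1 : (-φ) x = 0 := by rw [LinearMap.neg_apply, hφ.2, neg_zero]
    have hn2 : (-ψ) y = 0 := by rw [LinearMap.neg_apply, hψ.2, neg_zero]
    show trv x φ hφ.2 (trv y ψ hψ.2 (trv x (-φ) hn1 (trv y (-ψ) hn2 v))) = _
    simp only [trv_apply, map_add, map_smul, map_neg, LinearMap.neg_apply, smul_eq_mul, hφ.2,
      hψ.2, h, LinearMap.smul_apply, mul_zero, neg_zero, add_zero]
    module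
  · rw [LinearMap.smul_apply, h, smul_zero]

/-- A linear equivalence which is trivial on `V / ⟨x⟩` is a perspectivity. -/
theorem exists_per {x : V} (hx : x ≠ 0) (g : V ≃ₗ[F] V) (hg : ∀ v, ∃ a : F, g v = v + a • x) :
    ∃ φ : V →ₗ[F] F, ∀ v, g v = v + φ v • x := by
  choose f hf using hg
  have hinj : ∀ a b : F, a • x = b • x → a = b := fun a b h => smul_left_injective F hx h
  refine ⟨⟨⟨f, fun v w => ?_⟩, fun a v => ?_⟩, hf⟩
  · apply hinj
    have h1 := hf (v + w)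
    rw [map_add, hf v, hf w] at h1
    have h2 : v + w + (f v + f w) • x = v + w + f (v + w) • x := by
      rw [← h1, add_smul]
      abel
    exact (add_left_cancel h2).symm
  · apply hinj
    have h1 := hf (a • v)
    rw [map_smul, hf v, smul_add, smul_smul] at h1
    exact (add_left_cancel h1).symm

/-- Commutators: if `g` and `h` map `x` to multiples of `x` and commute modulo `x`, their
commutator is a transvection with center `x`. -/
theorem comm_E {x : V} (hx : x ≠ 0) {g h : V ≃ₗ[F] V} (hg : g ∈ H) (hh : h ∈ H)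
    (h1 : ∃ a : F, g x = a • x) (h2 : ∃ a : F, h x = a • x)
    (h3 : ∀ v, ∃ a : F, g (h v) = h (g v) + a • x) :
    ∃ φ ∈ E H x, ∀ v, (g * h * g⁻¹ * h⁻¹) v = v + φ v • x := by
  obtain ⟨a, ha⟩ := h1
  obtain ⟨b, hb⟩ := h2
  have ha0 : a ≠ 0 := by
    rintro rfl
    rw [zero_smul] at ha
    exact hx ((LinearEquiv.map_eq_zero_iff g).1 ha)
  have hb0 : b ≠ 0 := by
    rintro rfl
    rw [zero_smul] at hb
    exact hx ((LinearEquiv.map_eq_zero_iff h).1 hb)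
  have hga : g⁻¹ x = a⁻¹ • x := by
    have := inv_app g x
    rw [ha, map_smul] at this
    rw [← this, smul_smul, inv_mul_cancel₀ ha0, one_smul, this]
  have hhb : h⁻¹ x = b⁻¹ • x := by
    have := inv_app h x
    rw [hb, map_smul] at this
    rw [← this, smul_smul, inv_mul_cancel₀ hb0, one_smul, this]
  have hmem : g * h * g⁻¹ * h⁻¹ ∈ H :=
    H.mul_mem (H.mul_mem (H.mul_mem hg hh) (H.inv_mem hg)) (H.inv_mem hh)
  obtain ⟨φ, hφ⟩ := exists_per hx (g * h * g⁻¹ * h⁻¹) fun v => by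
    obtain ⟨e, he⟩ := h3 (g⁻¹ (h⁻¹ v))
    refine ⟨e, ?_⟩
    show g (h (g⁻¹ (h⁻¹ v))) = _
    rw [he, app_inv, app_inv]
  refine ⟨φ, ⟨⟨_, hmem, hφ⟩, ?_⟩, hφ⟩
  have h4 := hφ x
  have h5 : (g * h * g⁻¹ * h⁻¹) x = x := by
    show g (h (g⁻¹ (h⁻¹ x))) = x
    simp only [hhb, map_smul, hga, hb, ha, smul_smul]
    rw [show b⁻¹ * a⁻¹ * b * a = 1 by field_simp, one_smul]
  rw [h5] at h4
  have h6 : φ x • x = 0 := by
    have : x + 0 = x + φ x • x := by rw [add_zero]; exact h4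
    exact (add_left_cancel this).symm
  rcases smul_eq_zero.1 h6 with h | h
  · exact h
  · exact absurd h hx

/-- Perspectivities without transvections with the same center are proportional. -/
theorem P_prop {x : V} (hx : x ≠ 0) (hE : ∀ φ ∈ E H x, φ = 0) {φ ψ : V →ₗ[F] F} (hφ : φ ∈ P H x)
    (hψ : ψ ∈ P H x) : φ x • ψ = ψ x • φ := by
  obtain ⟨g, hg, hgφ⟩ := hφ
  obtain ⟨h, hh, hhψ⟩ := hψ
  obtain ⟨θ, hθ, h1⟩ := comm_E hx hg hh ⟨1 + φ x, by rw [hgφ, add_smul, one_smul]⟩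
    ⟨1 + ψ x, by rw [hhψ, add_smul, one_smul]⟩ (fun v => by
      refine ⟨ψ v * φ x - φ v * ψ x, ?_⟩
      rw [hhψ, hgφ, hgφ, hhψ]
      simp only [map_add, map_smul, smul_eq_mul]
      module)
  rw [hE θ hθ] at h1
  have h2 : g * h = h * g := by
    have : g * h * g⁻¹ * h⁻¹ = 1 := by
      apply LinearEquiv.ext
      intro v
      rw [h1]
      simp
    have h3 : g * h * g⁻¹ * h⁻¹ * (h * g) = g * h := by group
    rw [← h3, this, one_mul]
  ext v
  have h3 : g (h v) = h (g v) := by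
    show (g * h) v = (h * g) v
    rw [h2]
  rw [hhψ, hgφ, hgφ, hhψ] at h3
  simp only [map_add, map_smul, smul_eq_mul] at h3
  have h4 : (ψ v * φ x) • x = (φ v * ψ x) • x := by
    have h5 : v + φ v • x + ψ v • x + (ψ v * φ x) • x = v + φ v • x + ψ v • x + (φ v * ψ x) • x := by
      have h6 : v + ψ v • x + (φ v + ψ v * φ x) • x = v + φ v • x + ψ v • x + (ψ v * φ x) • x := by
        module
      have h7 : v + φ v • x + (ψ v + φ v * ψ x) • x = v + φ v • x + ψ v • x + (φ v * ψ x) • x := by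
        module
      rw [← h6, ← h7, h3]
    exact add_left_cancel h5
  have h8 : ψ v * φ x = φ v * ψ x := smul_left_injective F hx h4
  simp only [LinearMap.smul_apply, smul_eq_mul]
  linear_combination h8

end SpreadPerm.LG
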