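import Pool.Agent.Lib.MP_e6ed9e_al.LG.Defs3
import Pool.Agent.Lib.MP_e6ed9e_al.LG.TT2
import Pool.Agent.Lib.MP_e6ed9e_al.LG.MDL2

/-!
# Row TTS: the group theoretic theorem, semilinear groups
-/

namespace SpreadPerm.LG

open Module MulAction

section

variable {F V : Type} [Field F] [AddCommGroup V] [Module F V]

theorem toA_mem2' (h : V ≃ₗ[F] V) : toA F V h ∈ GamL F V :=
  ⟨fun v w => map_add h v w, RingEquiv.refl F, fun a v => map_smul h a v⟩

/-- A permutation which is additive and linear comes from a linear equivalence. -/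
theorem exists_toA2 {g : Equiv.Perm V} (h1 : ∀ v w, g (v + w) = g v + g w)
    (h2 : ∀ (a : F) (v : V), g (a • v) = a • g v) : ∃ h : V ≃ₗ[F] V, toA F V h = g :=
  ⟨{ g with
      map_add' := h1
      map_smul' := h2 }, rfl⟩

/-- Some element of determinant one moves `⟨x⟩` to `⟨y⟩`. -/
theorem exists_sl_move2 {x y : V} (hx : x ≠ 0) (hy : y ≠ 0) :
    ∃ s : V ≃ₗ[F] V, LinearEquiv.det s = 1 ∧ ∃ b : F, b ≠ 0 ∧ s x = b • y := by
  by_cases hp : ∃ b : F, x = b • y
  · obtain ⟨b, hb⟩ := hp
    refine ⟨1, map_one _, b, ?_, hb⟩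
    rintro rfl
    rw [zero_smul] at hb
    exact hx hb
  · push Not at hp
    have hz : ∀ a : F, x ≠ a • (y - x) := by
      intro a ha
      by_cases ha1 : 1 + a = 0
      · have : a = -1 := by linear_combination ha1
        rw [this, smul_sub, neg_smul, neg_smul, one_smul, one_smul, sub_neg_eq_add] at ha
        have h4 : y = 0 := by
          have := congrArg (fun z => z - x) ha
          simp only [add_sub_cancel_right, sub_self] at this
          exact neg_eq_zero.1 this.symm
        exact hy h4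
      · apply hp ((1 + a)⁻¹ * a)
        have h3 : (1 + a) • x = a • y := by
          rw [add_smul, one_smul]
          nth_rewrite 1 [ha]
          rw [smul_sub]
          abel
        rw [mul_smul, ← h3, smul_smul, inv_mul_cancel₀ ha1, one_smul]
    obtain ⟨φ, h2, h3⟩ := exists_dual2' hz
    refine ⟨LinearEquiv.transvection h3, LinearEquiv.transvection.det_eq_one h3, 1, one_ne_zero, ?_⟩
    show x + φ x • (y - x) = _
    rw [h2, one_smul, one_smul]
    abel

theorem GamL_ne2 {g : Equiv.Perm V} (hg : g ∈ GamL F V) {x : V} (hx : x ≠ 0) : g x ≠ 0 :=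
  fun h => hx (g.injective (h.trans (GamL_zero hg).symm))

/-- The stabilizer of a point in `GamL`. -/
def stabA2 (F : Type) {V : Type} [Field F] [AddCommGroup V] [Module F V] (x : V) :
    Subgroup (Equiv.Perm V) where
  carrier := {g | g ∈ GamL F V ∧ ∃ a : F, g x = a • x}
  one_mem' := ⟨(GamL F V).one_mem, 1, by simp⟩
  mul_mem' := by
    rintro g h ⟨hg, a, ha⟩ ⟨hh, b, hb⟩
    refine ⟨(GamL F V).mul_mem hg hh, ?_⟩
    obtain ⟨-, σ, hσ⟩ := hg
    refine ⟨σ b * a, ?_⟩
    show g (h x) = _
    rw [hb, hσ, ha, smul_smul]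
  inv_mem' := by
    rintro g ⟨hg, a, ha⟩
    refine ⟨(GamL F V).inv_mem hg, ?_⟩
    by_cases hx : x = 0
    · exact ⟨1, by rw [hx, smul_zero]; exact GamL_zero ((GamL F V).inv_mem hg)⟩
    · have h0 := GamL_zero hg
      obtain ⟨-, σ, hσ⟩ := hg
      have ha0 : a ≠ 0 := by
        rintro rfl
        rw [zero_smul] at ha
        exact hx (g.injective (ha.trans h0.symm))
      refine ⟨σ.symm a⁻¹, ?_⟩
      show g.symm x = _
      rw [Equiv.symm_apply_eq, hσ, RingEquiv.apply_symm_apply, ha, smul_smul,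
        inv_mul_cancel₀ ha0, one_smul]

theorem stabA2_le (x : V) : stabA2 F x ≤ GamL F V := fun _ h => h.1

theorem sl_stabA2 {x : V} (hx : x ≠ 0) (g : Equiv.Perm V) (hg : g ∈ GamL F V) :
    ∃ s : V ≃ₗ[F] V, LinearEquiv.det s = 1 ∧ ∃ k ∈ stabA2 F x, g = toA F V s * k := by
  obtain ⟨s, hs, b, hb, hsx⟩ := exists_sl_move2 (F := F) hx (GamL_ne2 hg hx)
  refine ⟨s, hs, (toA F V s)⁻¹ * g, ⟨(GamL F V).mul_mem ((GamL F V).inv_mem (toA_mem2' s)) hg,
    b⁻¹, ?_⟩, by group⟩
  show s.symm (g x) = _
  rw [LinearEquiv.symm_apply_eq, map_smul, hsx, smul_smul, inv_mul_cancel₀ hb, one_smul]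

/-- The stabilizer of a hyperplane in `GamL`. -/
def stabHA2 {F V : Type} [Field F] [AddCommGroup V] [Module F V] (μ : V →ₗ[F] F) :
    Subgroup (Equiv.Perm V) where
  carrier := {g | g ∈ GamL F V ∧ ∀ v, μ v = 0 ↔ μ (g v) = 0}
  one_mem' := ⟨(GamL F V).one_mem, fun v => Iff.rfl⟩
  mul_mem' := by
    rintro g h ⟨hg, ha⟩ ⟨hh, hb⟩
    exact ⟨(GamL F V).mul_mem hg hh, fun v => (hb v).trans (ha (h v))⟩
  inv_mem' := by
    rintro g ⟨hg, ha⟩
    refine ⟨(GamL F V).inv_mem hg, fun v => ?_⟩
    show μ v = 0 ↔ μ (g.symm v) = 0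
    rw [ha (g.symm v), Equiv.apply_symm_apply]

theorem stabHA2_le (μ : V →ₗ[F] F) : stabHA2 μ ≤ GamL F V := fun _ h => h.1

/-- A functional which vanishes on the kernel of `μ` is a multiple of `μ`. -/
theorem dual_prop2 {μ ν : V →ₗ[F] F} (hμ : μ ≠ 0) (h : ∀ v, μ v = 0 → ν v = 0) :
    ∃ a : F, ν = a • μ := by
  obtain ⟨w, hw⟩ : ∃ w, μ w ≠ 0 := by
    by_contra hcon
    push Not at hcon
    exact hμ (LinearMap.ext hcon)
  refine ⟨(μ w)⁻¹ * ν w, LinearMap.ext fun v => ?_⟩
  have h1 : μ (v - (μ v * (μ w)⁻¹) • w) = 0 := by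
    rw [map_sub, map_smul, smul_eq_mul, mul_assoc, inv_mul_cancel₀ hw, mul_one, sub_self]
  have h2 := h _ h1
  rw [map_sub, map_smul, smul_eq_mul, sub_eq_zero] at h2
  rw [h2, LinearMap.smul_apply, smul_eq_mul]
  ring

theorem sl_stabHA2 {μ : V →ₗ[F] F} (hμ : μ ≠ 0) (g : Equiv.Perm V) (hg : g ∈ GamL F V) :
    ∃ s : V ≃ₗ[F] V, LinearEquiv.det s = 1 ∧ ∃ k ∈ stabHA2 μ, g = toA F V s * k := by
  -- the functional `μ' = σ ∘ μ ∘ g⁻¹`
  obtain ⟨hadd, σ, hσ⟩ := id hg
  let μ' : V →ₗ[F] F :=
    { toFun := fun v => σ (μ (g.symm v))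
      map_add' := fun v w => by
        have h1 : g.symm (v + w) = g.symm v + g.symm w := by
          rw [Equiv.symm_apply_eq, hadd, Equiv.apply_symm_apply, Equiv.apply_symm_apply]
        rw [h1, map_add, map_add]
      map_smul' := fun a v => by
        have h1 : g.symm (a • v) = σ.symm a • g.symm v := by
          rw [Equiv.symm_apply_eq, hσ, Equiv.apply_symm_apply, RingEquiv.apply_symm_apply]
        rw [h1, map_smul, smul_eq_mul, map_mul, RingEquiv.apply_symm_apply]
        rfl }
  have hμ'v : ∀ v, μ' v = σ (μ (g.symm v)) := fun v => rfl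
  -- an element of determinant one with `μ' ∘ s = b μ`
  obtain ⟨s, hs, b, hb, hsb⟩ : ∃ s : V ≃ₗ[F] V, LinearEquiv.det s = 1 ∧ ∃ b : F, b ≠ 0 ∧
      ∀ v, μ' (s v) = b * μ v := by
    by_cases hp : ∃ b : F, μ' = b • μ
    · obtain ⟨b, hb⟩ := hp
      refine ⟨1, map_one _, b, ?_, fun v => by rw [hb]; rfl⟩
      rintro rfl
      obtain ⟨w, hw⟩ : ∃ w, μ w ≠ 0 := by
        by_contra hcon
        push Not at hcon
        exact hμ (LinearMap.ext hcon)
      have h1 : μ' (g w) = 0 := by rw [hb, zero_smul, LinearMap.zero_apply]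
      rw [hμ'v, Equiv.symm_apply_apply] at h1
      exact hw ((map_eq_zero_iff σ σ.injective).1 h1)
    · have h1 : ∃ u, μ u = 0 ∧ μ' u ≠ 0 := by
        by_contra hcon
        push Not at hcon
        exact hp (dual_prop2 hμ hcon)
      have hμ'0 : μ' ≠ 0 := by
        obtain ⟨u, _, hu⟩ := h1
        intro h0
        rw [h0, LinearMap.zero_apply] at hu
        exact hu rfl
      have h2 : ∃ u, μ' u = 0 ∧ μ u ≠ 0 := by
        by_contra hcon
        push Not at hcon
        obtain ⟨a, ha⟩ := dual_prop2 hμ'0 hcon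
        have ha0 : a ≠ 0 := by
          rintro rfl
          rw [zero_smul] at ha
          exact hμ ha
        exact hp ⟨a⁻¹, by rw [ha, smul_smul, inv_mul_cancel₀ ha0, one_smul]⟩
      obtain ⟨u, hu1, hu2⟩ := h1
      obtain ⟨u', hu1', hu2'⟩ := h2
      set w : V := (μ' u)⁻¹ • u + (μ u')⁻¹ • u' with hw
      have hw1 : μ w = 1 := by
        rw [hw, map_add, map_smul, map_smul, hu1, smul_zero, zero_add, smul_eq_mul,
          inv_mul_cancel₀ hu2']
      have hw2 : μ' w = 1 := by
        rw [hw, map_add, map_smul, map_smul, hu1', smul_zero, add_zero, smul_eq_mul,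
          inv_mul_cancel₀ hu2]
      have hφ : (μ - μ') w = 0 := by rw [LinearMap.sub_apply, hw1, hw2, sub_self]
      refine ⟨LinearEquiv.transvection hφ, LinearEquiv.transvection.det_eq_one hφ, 1, one_ne_zero,
        fun v => ?_⟩
      show μ' (v + (μ - μ') v • w) = _
      rw [map_add, map_smul, hw2, smul_eq_mul, mul_one, LinearMap.sub_apply]
      ring
  refine ⟨s, hs, (toA F V s)⁻¹ * g, ⟨(GamL F V).mul_mem ((GamL F V).inv_mem (toA_mem2' s)) hg,
    fun v => ?_⟩, by group⟩
  show μ v = 0 ↔ μ (s.symm (g v)) = 0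
  have h3 := hsb (s.symm (g v))
  rw [LinearEquiv.apply_symm_apply, hμ'v, Equiv.symm_apply_apply] at h3
  constructor
  · intro h4
    rw [h4, map_zero] at h3
    rcases mul_eq_zero.1 h3.symm with h5 | h5
    · exact absurd h5 hb
    · exact h5
  · intro h4
    rw [h4, mul_zero] at h3
    exact (map_eq_zero_iff σ σ.injective).1 h3

/-- Transport of perspectivities. -/
theorem tr2 (hSP : StSP) [Finite F] [Finite V] {L : Subgroup (Equiv.Perm V)} (hL : L ≤ GamL F V)
    {l : Equiv.Perm V} (hl : l ∈ L) : ∃ σ : F ≃+* F, (∀ (a : F) (v : V), l (a • v) = σ a • l v) ∧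
    ∀ (x y : V) (a : F), a ≠ 0 → l x = a • y →
      (∀ φ ∈ P (lin F L) x, ∃ ψ ∈ P (lin F L) y, ∀ v, ψ (l v) = a * σ (φ v)) ∧
      (∀ φ ∈ E (lin F L) x, ∃ ψ ∈ E (lin F L) y, ∀ v, ψ (l v) = a * σ (φ v)) := by
  obtain ⟨σ, hσ, h⟩ := hSP F V L hL l hl
  refine ⟨σ, hσ, fun x y a ha hxy => ?_⟩
  have key : ∀ φ ∈ P (lin F L) x, ∃ ψ ∈ P (lin F L) y, ∀ v, ψ (l v) = a * σ (φ v) := by
    intro φ hφ
    obtain ⟨ψ, ⟨g, hg, hgv⟩, hψ⟩ := h x φ hφ
    refine ⟨a • ψ, ⟨g, hg, fun v => ?_⟩, fun v => ?_⟩
    · rw [hgv, hxy, LinearMap.smul_apply, smul_eq_mul, smul_smul, mul_comm]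
    · rw [LinearMap.smul_apply, smul_eq_mul, hψ]
  refine ⟨key, fun φ hφ => ?_⟩
  obtain ⟨ψ, h1, h2⟩ := key φ hφ.1
  refine ⟨ψ, ⟨h1, ?_⟩, h2⟩
  have h3 := h2 x
  rw [hxy, map_smul, hφ.2, map_zero, mul_zero, smul_eq_mul] at h3
  rcases mul_eq_zero.1 h3 with h4 | h4
  · exact absurd h4 ha
  · exact h4

end

theorem ttS2 (hC1 : StCase1) (hOrb : StOrb) (hHom : StHomS) (hThree : StThreeS) (hInd : StIndS)
    (hLinI : StLinI) (hFour : StFour) (hTwo : StTwoS) (hNul : StNulMDS) (hSP : StSP)
    (hUniq : StUniq) : StTTS := by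
  classical
  intro F V _ _ _ _ _ L c hc hq hAut hn hL hS hMD
  set q := Nat.card F with hqd
  have hcq : c ≤ q := by nlinarith
  have key : ∀ n, ∀ (V : Type) [AddCommGroup V] [Module F V] [Finite V]
      (L : Subgroup (Equiv.Perm V)), finrank F V = n → 3 ≤ n → L ≤ GamL F V → Scal (lin F L) →
      MDA F c L → Full (lin F L) ∨ FixPtA F L ∨ FixHypA F L := by
    intro n
    induction n using Nat.strong_induction_on with
    | _ n ih =>
    intro V _ _ _ L hnV hn3 hL hS hMD
    have hfin : Finite (V ≃ₗ[F] V) := finite_gl2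
    have hnV3 : 3 ≤ finrank F V := by omega
    obtain ⟨x0, hx0⟩ : ∃ x0 : V, x0 ≠ 0 := by
      have : Nontrivial V := Module.nontrivial_of_finrank_pos (R := F) (by omega)
      exact exists_ne 0
    -- conjugation of linear elements
    have hconj : ∀ l ∈ L, ∀ h ∈ lin F L, ∃ h' ∈ lin F L, ∀ v, l (h' v) = h (l v) := by
      intro l hl h hh
      obtain ⟨hadd, σ, hσ⟩ := hL hl
      obtain ⟨h', hh'⟩ := exists_toA2 (F := F) (g := l⁻¹ * toA F V h * l)
        (by
          intro v w
          show l.symm (h (l (v + w))) = l.symm (h (l v)) + l.symm (h (l w))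
          rw [Equiv.symm_apply_eq, hadd, map_add, hadd, Equiv.apply_symm_apply,
            Equiv.apply_symm_apply])
        (by
          intro a v
          show l.symm (h (l (a • v))) = a • l.symm (h (l v))
          rw [Equiv.symm_apply_eq, hσ, map_smul, hσ, Equiv.apply_symm_apply])
      refine ⟨h', ?_, fun v => ?_⟩
      · show toA F V h' ∈ L
        rw [hh']
        exact L.mul_mem (L.mul_mem (L.inv_mem hl) hh) hl
      · have h1 : h' v = l.symm (h (l v)) := congrArg (fun g : Equiv.Perm V => g v) hh'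
        rw [h1, Equiv.apply_symm_apply]
    -- reduction to the transitive case
    have htr : FixPtA F L ∨ FixHypA F L ∨ PtTransA F L := by
      by_cases hLK : ∀ g ∈ GamL F V, ∃ l ∈ L, ∃ k ∈ stabA2 F x0, g = l * k
      · right; right
        have h1 : ∀ y : V, y ≠ 0 → ∃ l ∈ L, ∃ a : F, a ≠ 0 ∧ l x0 = a • y := by
          intro y hy
          obtain ⟨s, _, b, hb, hsb⟩ := exists_sl_move2 (F := F) hx0 hy
          obtain ⟨l, hl, k, ⟨hkG, a, hk⟩, hlk⟩ := hLK (toA F V s) (toA_mem2' s)
          have ha0 : a ≠ 0 := by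
            rintro rfl
            rw [zero_smul] at hk
            exact GamL_ne2 hkG hx0 hk
          obtain ⟨-, σ, hσ⟩ := hL hl
          have hσa : σ a ≠ 0 := fun h => ha0 ((map_eq_zero_iff σ σ.injective).1 h)
          refine ⟨l, hl, (σ a)⁻¹ * b, mul_ne_zero (inv_ne_zero hσa) hb, ?_⟩
          have h5 : l (k x0) = b • y := by
            rw [← hsb]
            exact (congrArg (fun g : Equiv.Perm V => g x0) hlk).symm
          rw [hk, hσ] at h5
          rw [mul_smul, ← h5, smul_smul, inv_mul_cancel₀ hσa, one_smul]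
        intro x y hx hy
        obtain ⟨l, hl, a, ha, hxa⟩ := h1 x hx
        obtain ⟨l', hl', b, hb, hyb⟩ := h1 y hy
        obtain ⟨-, σ, hσ⟩ := hL hl
        obtain ⟨-, σ', hσ'⟩ := hL hl'
        refine ⟨l' * l⁻¹, L.mul_mem hl' (L.inv_mem hl), σ' (σ.symm a⁻¹) * b, ?_⟩
        show l' (l.symm x) = _
        have h6 : l.symm x = σ.symm a⁻¹ • x0 := by
          rw [Equiv.symm_apply_eq, hσ, RingEquiv.apply_symm_apply, hxa, smul_smul,
            inv_mul_cancel₀ ha, one_smul]
        rw [h6, hσ', hyb, smul_smul]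
      · have h1 := hMD (stabA2 F x0) (stabA2_le x0) (sl_stabA2 hx0) hLK
        have h2 := (hOrb F V (lin F L) x0 hx0).2.1
        have h3 : Nat.card {h : V ≃ₗ[F] V // ∃ a : F, h x0 = a • x0} ≤ c * Nat.card (lin F L) := by
          refine le_trans (le_of_eq ?_) h1
          refine Nat.card_congr (Equiv.subtypeEquivRight fun h => ?_)
          exact ⟨fun h' => ⟨toA_mem2' h, h'⟩, fun h' => h'.2⟩
        have hBig : Big c (lin F L) := by
          show (Nat.card F - 1) * Nat.card (V ≃ₗ[F] V) ≤ _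
          rw [h2]
          calc (Nat.card F ^ finrank F V - 1) * Nat.card {h : V ≃ₗ[F] V // ∃ a : F, h x0 = a • x0}
              ≤ (Nat.card F ^ finrank F V - 1) * (c * Nat.card (lin F L)) :=
                Nat.mul_le_mul_left _ h3
            _ = c * (Nat.card F ^ finrank F V - 1) * Nat.card (lin F L) := by ring
        obtain ⟨hu1, hu2⟩ := hUniq F V (lin F L) c hc hq hnV3 hBig
        rcases hC1 F V (lin F L) c hc hq hnV3 hS hBig with h | h | h
        · left
          obtain ⟨x, hx, hfix⟩ := h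
          refine ⟨x, hx, fun l hl => ?_⟩
          refine hu1 x (l x) hx (GamL_ne2 (hL hl) hx) hfix fun h hh => ?_
          obtain ⟨h', hh', hlh⟩ := hconj l hl h hh
          obtain ⟨a, ha⟩ := hfix h' hh'
          obtain ⟨-, σ, hσ⟩ := hL hl
          exact ⟨σ a, by rw [← hlh, ha, hσ]⟩
        · right; left
          obtain ⟨μ, hμ, hfix⟩ := h
          refine ⟨μ, hμ, fun l hl => ?_⟩
          obtain ⟨hadd, σ, hσ⟩ := hL hl
          let μ' : V →ₗ[F] F :=
            { toFun := fun v => σ.symm (μ (l v))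
              map_add' := fun v w => by rw [hadd, map_add, map_add]
              map_smul' := fun a v => by
                rw [hσ, map_smul, smul_eq_mul, map_mul, RingEquiv.symm_apply_apply]
                rfl }
          have hμ'v : ∀ v, μ' v = σ.symm (μ (l v)) := fun v => rfl
          have hμ' : μ' ≠ 0 := by
            intro h0
            apply hμ
            ext v
            have h1 : μ' (l.symm v) = 0 := by rw [h0, LinearMap.zero_apply]
            rw [hμ'v, Equiv.apply_symm_apply] at h1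
            rw [(map_eq_zero_iff σ.symm σ.symm.injective).1 h1, LinearMap.zero_apply]
          have hfix' : ∀ h ∈ lin F L, ∃ a : F, ∀ v, μ' (h v) = a * μ' v := by
            intro h hh
            have hinv : ∃ h' ∈ lin F L, ∀ v, h' (l v) = l (h v) := by
              obtain ⟨h', hh', hlh⟩ := hconj l⁻¹ (L.inv_mem hl) h hh
              refine ⟨h', hh', fun v => ?_⟩
              have h3 : l.symm (h' (l v)) = h (l.symm (l v)) := hlh (l v)
              rw [Equiv.symm_apply_apply, Equiv.symm_apply_eq] at h3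
              exact h3
            obtain ⟨h', hh', hlh⟩ := hinv
            obtain ⟨a, ha⟩ := hfix h' hh'
            refine ⟨σ.symm a, fun v => ?_⟩
            rw [hμ'v, hμ'v, ← hlh, ha, map_mul]
          obtain ⟨a, ha⟩ := hu2 μ μ' hμ hμ' hfix hfix'
          intro v hv
          have h4 : μ' v = 0 := by rw [ha, LinearMap.smul_apply, hv, smul_zero]
          rw [hμ'v] at h4
          exact (map_eq_zero_iff σ.symm σ.symm.injective).1 h4
        · right; right
          intro x y hx hy
          obtain ⟨h', hh', a, ha⟩ := h x y hx hy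
          exact ⟨toA F V h', hh', a, ha⟩
    rcases htr with h | h | htr
    · exact Or.inr (Or.inl h)
    · exact Or.inr (Or.inr h)
    -- transitive
    have htr' : ∀ x y : V, x ≠ 0 → y ≠ 0 → ∃ l ∈ L, ∃ a : F, a ≠ 0 ∧ l x = a • y := by
      intro x y hx hy
      obtain ⟨l, hl, a, hxa⟩ := htr x y hx hy
      refine ⟨l, hl, a, ?_, hxa⟩
      rintro rfl
      rw [zero_smul] at hxa
      exact GamL_ne2 (hL hl) hx hxa
    by_cases hE : ∀ x : V, x ≠ 0 → ∀ φ ∈ E (lin F L) x, φ = 0
    · -- no transvections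
      have hP := hHom F V hnV3 (lin F L) (by
        rintro x y hx hy ⟨φ, hφ, hφ0⟩
        obtain ⟨l, hl, a, ha, hxa⟩ := htr' x y hx hy
        obtain ⟨σ, _, h⟩ := tr2 hSP hL hl
        obtain ⟨ψ, hψ, hψv⟩ := (h x y a ha hxa).1 φ hφ
        refine ⟨ψ, hψ, ?_⟩
        rintro rfl
        apply hφ0
        ext v
        have h1 := hψv v
        rw [LinearMap.zero_apply] at h1
        rcases mul_eq_zero.1 h1.symm with h2 | h2
        · exact absurd h2 ha
        · rw [(map_eq_zero_iff σ σ.injective).1 h2, LinearMap.zero_apply]) hE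
      exfalso
      rcases Nat.lt_or_ge 3 (finrank F V) with h4 | h4
      · -- dimension at least four
        have hcI := hInd F V L c (by omega) hL hMD x0 hx0 (hP x0 hx0)
        obtain ⟨hlinI, hIG⟩ := hLinI F V L hL (by omega) x0 hx0
        have hdim : finrank F (V ⧸ (F ∙ x0)) + 1 = finrank F V := by
          have h1 := Submodule.finrank_quotient_add_finrank (F ∙ x0)
          rw [finrank_span_singleton hx0] at h1
          exact h1
        have hfinV : Finite (V ⧸ (F ∙ x0)) :=
          Finite.of_surjective (fun v : V => (Submodule.Quotient.mk v : V ⧸ (F ∙ x0)))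
            (Submodule.mkQ_surjective _)
        have hfinQ : Finite ((V ⧸ (F ∙ x0)) ≃ₗ[F] (V ⧸ (F ∙ x0))) := finite_gl2
        have hq1 : 100 ≤ q := by nlinarith
        have hqn : q ^ finrank F V = q ^ (finrank F V - 1) * q := by
          rw [← pow_succ]
          congr 1
          omega
        have hqpos : 0 < q ^ (finrank F V - 1) := by positivity
        obtain ⟨t, ht⟩ : ∃ t, q = t + 1 := ⟨q - 1, by omega⟩
        have hscalI : Scal (lin F (IxA F L x0)) := by
          rw [hlinI]
          intro a ha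
          obtain ⟨g, hg, hgv⟩ := hS a ha
          refine ⟨LinearEquiv.smulOfNeZero F _ a ha, ⟨g, hg, ⟨a, hgv x0⟩, fun v => ?_⟩, fun v => rfl⟩
          rw [hgv, Submodule.Quotient.mk_smul]
          rfl
        have hMDI : MDA F c (IxA F L x0) := by
          intro K hKG hKs hK
          have h5 := hcI K hKG hKs hK
          rw [hlinI]
          have h6 : q ^ finrank F V - 1 ≤ q ^ (finrank F V - 1) * (q - 1) ^ 2 := by
            rw [hqn]
            refine (Nat.sub_le _ _).trans (Nat.mul_le_mul_left _ ?_)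
            have : q - 1 = t := by omega
            rw [this, ht]
            nlinarith
          have h7 : q ^ (finrank F V - 1) * (q - 1) ^ 2 * Nat.card (lin F K) ≤
              q ^ (finrank F V - 1) * (q - 1) ^ 2 * (c * Nat.card (Ix (lin F L) x0)) := by
            calc q ^ (finrank F V - 1) * (q - 1) ^ 2 * Nat.card (lin F K)
                ≤ c * (q ^ finrank F V - 1) * Nat.card (Ix (lin F L) x0) := h5
              _ = (q ^ finrank F V - 1) * (c * Nat.card (Ix (lin F L) x0)) := by ring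
              _ ≤ _ := Nat.mul_le_mul_right _ h6
          refine Nat.le_of_mul_le_mul_left h7 ?_
          have : 0 < q - 1 := by omega
          positivity
        -- a subgroup which contains `Ix` and is proper is impossible
        have hprop : ∀ K : Subgroup (Equiv.Perm (V ⧸ (F ∙ x0))), K ≤ GamL F (V ⧸ (F ∙ x0)) →
            (∀ g ∈ GamL F (V ⧸ (F ∙ x0)), ∃ s : (V ⧸ (F ∙ x0)) ≃ₗ[F] (V ⧸ (F ∙ x0)),
              LinearEquiv.det s = 1 ∧ ∃ k ∈ K, g = toA F (V ⧸ (F ∙ x0)) s * k) →
            IxA F L x0 ≤ K → (∃ g : (V ⧸ (F ∙ x0)) ≃ₗ[F] (V ⧸ (F ∙ x0)),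
              toA F (V ⧸ (F ∙ x0)) g ∉ K) → False := by
          intro K hKG hKs hle ⟨g, hg⟩
          have h5 := hcI K hKG hKs (by
            intro hall
            obtain ⟨h, hh, k, hk, hgk⟩ := hall _ (toA_mem2' g)
            apply hg
            rw [hgk]
            exact K.mul_mem (hle hh) hk)
          have h6 : Nat.card (Ix (lin F L) x0) ≤ Nat.card (lin F K) := by
            rw [← hlinI]
            exact Subgroup.card_le_of_le (Subgroup.comap_mono hle)
          have hKpos : 0 < Nat.card (lin F K) := Nat.card_pos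
          have h7 : q ^ (finrank F V - 1) * ((q - 1) ^ 2) * Nat.card (lin F K) ≤
              q ^ (finrank F V - 1) * (c * q) * Nat.card (lin F K) := by
            calc q ^ (finrank F V - 1) * (q - 1) ^ 2 * Nat.card (lin F K)
                ≤ c * (q ^ finrank F V - 1) * Nat.card (Ix (lin F L) x0) := h5
              _ ≤ c * (q ^ finrank F V) * Nat.card (lin F K) :=
                  Nat.mul_le_mul (Nat.mul_le_mul_left _ (Nat.sub_le _ _)) h6
              _ = q ^ (finrank F V - 1) * (c * q) * Nat.card (lin F K) := by rw [hqn]; ring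
          have h8 : (q - 1) ^ 2 ≤ c * q :=
            Nat.le_of_mul_le_mul_left (Nat.le_of_mul_le_mul_right h7 hKpos) hqpos
          have : q - 1 = t := by omega
          rw [this] at h8
          have h9 : 100 * c ^ 2 ≤ t + 1 := by rw [← ht]; exact hq
          rw [ht] at h8
          nlinarith
        rcases ih (finrank F (V ⧸ (F ∙ x0))) (by omega) (V ⧸ (F ∙ x0)) (IxA F L x0) rfl (by omega)
          hIG hscalI hMDI with h5 | h5 | h5
        · rw [hlinI] at h5
          exact hFour F V (lin F L) (by omega) (by omega) hS x0 hx0 h5 hP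
        · obtain ⟨x', hx', hfix⟩ := h5
          obtain ⟨g, hg⟩ := stab2_ne_top (F := F) (V := V ⧸ (F ∙ x0)) (by omega) hx'
          exact hprop (stabA2 F x') (stabA2_le x') (sl_stabA2 hx')
            (fun h hh => ⟨hIG hh, hfix h hh⟩) ⟨g, fun h => hg h.2⟩
        · obtain ⟨μ, hμ, hfix⟩ := h5
          obtain ⟨g, hg⟩ := stabH2_ne_top (F := F) (V := V ⧸ (F ∙ x0)) (by omega) hμ
          refine hprop (stabHA2 μ) (stabHA2_le μ) (sl_stabHA2 hμ) (fun h hh => ⟨hIG hh, fun v =>
            ⟨hfix h hh v, fun h1 => ?_⟩⟩) ⟨g, fun h => hg ?_⟩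
          · have h2 := hfix h⁻¹ ((IxA F L x0).inv_mem hh) (h v) h1
            have h3 : h⁻¹ (h v) = v := h.symm_apply_apply v
            rwa [h3] at h2
          · obtain ⟨a, ha⟩ := dual_prop2 (ν := μ ∘ₗ (g : (V ⧸ (F ∙ x0)) →ₗ[F] (V ⧸ (F ∙ x0)))) hμ
              (fun v hv => (h.2 v).1 hv)
            exact ⟨a, fun v => congrArg (fun ν : (V ⧸ (F ∙ x0)) →ₗ[F] F => ν v) ha⟩
      · exact hThree F V L c hc hq hAut (by omega) hL hS htr hMD hP
    · -- transvections
      push Not at hE
      obtain ⟨x, hx, φ, hφ, hφ0⟩ := hE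
      have hne : ∀ (l : Equiv.Perm V) (σ : F ≃+* F) (a : F) (φ ψ : V →ₗ[F] F), a ≠ 0 → φ ≠ 0 →
          (∀ v, ψ (l v) = a * σ (φ v)) → ψ ≠ 0 := by
        intro l σ a φ ψ ha hφ0 hψv
        rintro rfl
        apply hφ0
        ext v
        have h1 := hψv v
        rw [LinearMap.zero_apply] at h1
        rcases mul_eq_zero.1 h1.symm with h2 | h2
        · exact absurd h2 ha
        · rw [(map_eq_zero_iff σ σ.injective).1 h2, LinearMap.zero_apply]
      by_cases hT : TwoAx (lin F L)
      · refine Or.inl (hTwo F V (lin F L) hnV3 ?_ hT)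
        -- all intersections of axes have the same dimension
        have hle : ∀ x y : V, x ≠ 0 → y ≠ 0 →
            Nat.card (RR (lin F L) x) ≤ Nat.card (RR (lin F L) y) := by
          intro x y hx hy
          obtain ⟨l, hl, a, ha, hxa⟩ := htr' x y hx hy
          obtain ⟨σ', hσ', h⟩ := tr2 hSP hL (L.inv_mem hl)
          have hy' : l⁻¹ y = σ' a⁻¹ • x := by
            have h1 : y = a⁻¹ • l x := by rw [hxa, smul_smul, inv_mul_cancel₀ ha, one_smul]
            rw [h1, hσ']
            show σ' a⁻¹ • l.symm (l x) = _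
            rw [Equiv.symm_apply_apply]
          have hb : σ' a⁻¹ ≠ 0 := fun h0 =>
            inv_ne_zero ha ((map_eq_zero_iff σ' σ'.injective).1 h0)
          refine Nat.card_le_card_of_injective
            (fun v : RR (lin F L) x => (⟨l v, fun φ hφ => ?_⟩ : RR (lin F L) y)) ?_
          · obtain ⟨ψ, hψ, hψv⟩ := (h y x _ hb hy').2 φ hφ
            have h2 := hψv (l v)
            have h3 : l⁻¹ (l (v : V)) = v := l.symm_apply_apply _
            rw [h3, v.2 ψ hψ] at h2
            rcases mul_eq_zero.1 h2.symm with h4 | h4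
            · exact absurd h4 hb
            · exact (map_eq_zero_iff σ' σ'.injective).1 h4
          · intro v w hvw
            apply Subtype.ext
            exact l.injective (congrArg Subtype.val hvw)
        intro x y hx hy
        have h1 : Nat.card (RR (lin F L) x) = Nat.card (RR (lin F L) y) :=
          le_antisymm (hle x y hx hy) (hle y x hy hx)
        rw [Module.natCard_eq_pow_finrank (K := F) (V := RR (lin F L) x),
          Module.natCard_eq_pow_finrank (K := F) (V := RR (lin F L) y)] at h1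
        exact Nat.pow_right_injective (by nlinarith : 2 ≤ Nat.card F) h1
      · exfalso
        refine hNul F V L c hc hq hnV3 hL hS ?_ hMD
        -- nonzero transvections at every point
        have hall : ∀ y : V, y ≠ 0 → ∃ ψ ∈ E (lin F L) y, ψ ≠ 0 := by
          intro y hy
          obtain ⟨l, hl, a, ha, hxa⟩ := htr' x y hx hy
          obtain ⟨σ, _, h⟩ := tr2 hSP hL hl
          obtain ⟨ψ, hψ, hψv⟩ := (h x y a ha hxa).2 φ hφ
          exact ⟨ψ, hψ, hne l σ a φ ψ ha hφ0 hψv⟩
        unfold TwoAx at hT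
        push Not at hT
        obtain ⟨x1, hx1, hx1E⟩ := hT
        intro y hy
        obtain ⟨ψ, hψ, hψ0⟩ := hall y hy
        refine ⟨ψ, hψ, hψ0, fun θ hθ => ?_⟩
        obtain ⟨l, hl, a, ha, hya⟩ := htr' y x1 hy hx1
        obtain ⟨σ, _, h⟩ := tr2 hSP hL hl
        obtain ⟨ψ', h1, h1v⟩ := (h y x1 a ha hya).2 ψ hψ
        obtain ⟨θ', h2, h2v⟩ := (h y x1 a ha hya).2 θ hθ
        obtain ⟨b, hb⟩ := hx1E ψ' h1 θ' h2 (hne l σ a ψ ψ' ha hψ0 h1v)
        refine ⟨σ.symm b, ?_⟩
        ext v
        have h4 := congrArg (fun ν : V →ₗ[F] F => ν (l v)) hb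
        have h5 : θ' (l v) = b * ψ' (l v) := h4
        rw [h1v, h2v] at h5
        have h6 : σ (θ v) = b * σ (ψ v) := by
          apply mul_left_cancel₀ ha
          rw [h5]
          ring
        show θ v = σ.symm b * ψ v
        apply σ.injective
        rw [h6, map_mul, RingEquiv.apply_symm_apply]
  exact key _ V L rfl hn hL hS hMD

end SpreadPerm.LG
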