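import Pool.Agent.Lib.MP_e6ed9e_al.LG.Defs3

/-!
# Row Uniq: a very large subgroup fixes at most one point and at most one hyperplane
-/

namespace SpreadPerm.LG

open Module MulAction

section
variable {F V : Type} [Field F] [AddCommGroup V] [Module F V]

/-- transvection -/
noncomputable def tv18 (φ : V →ₗ[F] F) (x : V) (h : φ x = 0) : V ≃ₗ[F] V :=
  LinearEquiv.ofLinear (LinearMap.id + φ.smulRight x) (LinearMap.id - φ.smulRight x)
    (by ext v; simp [h]) (by ext v; simp [h])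

theorem tv18_apply (φ : V →ₗ[F] F) (x : V) (h : φ x = 0) (v : V) :
    tv18 φ x h v = v + φ v • x := rfl

theorem pts18 (hOrb : StOrb) [Finite F] [Finite V] (H : Subgroup (V ≃ₗ[F] V)) (c : ℕ)
    (hc : 1 ≤ c) (hq : 100 * c ^ 2 ≤ Nat.card F) (hn : 1 ≤ finrank F V) (hbig : Big c H)
    (x y : V) (hx : x ≠ 0) (hy : y ≠ 0) (h1 : ∀ h ∈ H, ∃ a : F, h x = a • x)
    (h2 : ∀ h ∈ H, ∃ a : F, h y = a • y) : ∃ a : F, y = a • x := by
  by_contra hxy
  push Not at hxy
  have hyx : y ∉ (F ∙ x) := by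
    intro h3
    obtain ⟨a, ha⟩ := Submodule.mem_span_singleton.1 h3
    exact hxy a ha.symm
  obtain ⟨φ, hφy, hφ⟩ := Submodule.exists_dual_map_eq_bot_of_notMem hyx inferInstance
  have hφx : φ x = 0 := by
    have h3 : φ x ∈ (F ∙ x).map φ := Submodule.mem_map_of_mem (Submodule.mem_span_singleton_self x)
    rw [hφ] at h3
    exact h3
  have hax : ∀ a : F, (a • φ) x = 0 := fun a => by rw [LinearMap.smul_apply, hφx, smul_zero]
  have hmem : ∀ p : F × H, ∃ d : F, (tv18 (p.1 • φ) x (hax p.1) * p.2.1) x = d • x := by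
    intro p
    obtain ⟨d, hd⟩ := h1 p.2.1 p.2.2
    refine ⟨d, ?_⟩
    show tv18 (p.1 • φ) x (hax p.1) (p.2.1 x) = d • x
    rw [hd, map_smul, tv18_apply, hax, zero_smul, add_zero]
  let f : F × H → {h : V ≃ₗ[F] V // ∃ a : F, h x = a • x} := fun p =>
    ⟨tv18 (p.1 • φ) x (hax p.1) * p.2.1, hmem p⟩
  have hf : Function.Injective f := by
    rintro ⟨a, h⟩ ⟨b, k⟩ hab
    have e1 : tv18 (a • φ) x (hax a) * h.1 = tv18 (b • φ) x (hax b) * k.1 :=
      congrArg (fun z : {h : V ≃ₗ[F] V // ∃ a : F, h x = a • x} => z.1) hab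
    have e2 : tv18 (a • φ) x (hax a) (h.1 y) = tv18 (b • φ) x (hax b) (k.1 y) :=
      congrArg (fun z : V ≃ₗ[F] V => z y) e1
    obtain ⟨l, hl⟩ := h2 h.1 h.2
    obtain ⟨m, hm⟩ := h2 k.1 k.2
    have hl0 : l ≠ 0 := by
      rintro rfl
      rw [zero_smul] at hl
      exact hy ((LinearEquiv.map_eq_zero_iff h.1).1 hl)
    rw [hl, hm, map_smul, map_smul, tv18_apply, tv18_apply, LinearMap.smul_apply,
      LinearMap.smul_apply, smul_eq_mul, smul_eq_mul, smul_add, smul_add, smul_smul,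
      smul_smul] at e2
    have e3 : (l - m) • y = (m * (b * φ y) - l * (a * φ y)) • x := by
      rw [sub_smul, sub_smul, sub_eq_sub_iff_add_eq_add, e2]
      abel
    have hlm : l = m := by
      by_contra hne
      have hne' : l - m ≠ 0 := sub_ne_zero.2 hne
      refine hxy ((l - m)⁻¹ * (m * (b * φ y) - l * (a * φ y))) ?_
      rw [← smul_smul, ← e3, smul_smul, inv_mul_cancel₀ hne', one_smul]
    subst hlm
    rw [sub_self, zero_smul] at e3
    have e4 : l * (b * φ y) - l * (a * φ y) = 0 := by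
      rcases smul_eq_zero.1 e3.symm with h3 | h3
      · exact h3
      · exact absurd h3 hx
    have e5 : l * φ y * (b - a) = 0 := by
      rw [← e4]; ring
    have hba : b = a := by
      rcases mul_eq_zero.1 e5 with h3 | h3
      · rcases mul_eq_zero.1 h3 with h4 | h4
        · exact absurd h4 hl0
        · exact absurd h4 hφy
      · exact sub_eq_zero.1 h3
    subst hba
    have e6 : h.1 = k.1 := mul_left_cancel e1
    rw [Subtype.ext e6]
  have : Finite (V ≃ₗ[F] V) := Finite.of_injective (fun g : V ≃ₗ[F] V => (g : V → V))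
    DFunLike.coe_injective
  have hcard : Nat.card F * Nat.card H ≤ Nat.card {h : V ≃ₗ[F] V // ∃ a : F, h x = a • x} := by
    rw [← Nat.card_prod]
    exact Nat.card_le_card_of_injective f hf
  have horb := (hOrb F V H x hx).2.1
  have hb : (Nat.card F - 1) * Nat.card (V ≃ₗ[F] V) ≤
    c * (Nat.card F ^ finrank F V - 1) * Nat.card H := hbig
  have hc2 : c ≤ c ^ 2 := by nlinarith
  have hHpos : 0 < Nat.card H := Nat.card_pos
  have hq2 : 2 ≤ Nat.card F := by
    have : 1 ≤ c ^ 2 := by nlinarith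
    omega
  have hQ : 0 < Nat.card F ^ finrank F V - 1 := by
    have : Nat.card F ^ 1 ≤ Nat.card F ^ finrank F V := Nat.pow_le_pow_right (by omega) hn
    rw [pow_one] at this
    omega
  have h5 : (Nat.card F ^ finrank F V - 1) * (Nat.card F * Nat.card H) ≤
      c * (Nat.card F ^ finrank F V - 1) * Nat.card H := by
    calc (Nat.card F ^ finrank F V - 1) * (Nat.card F * Nat.card H)
        ≤ (Nat.card F ^ finrank F V - 1) *
          Nat.card {h : V ≃ₗ[F] V // ∃ a : F, h x = a • x} := Nat.mul_le_mul_left _ hcard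
      _ = (Nat.card F - 1) * Nat.card (V ≃ₗ[F] V) := horb.symm
      _ ≤ _ := hb
  have h6 : (Nat.card F ^ finrank F V - 1) * Nat.card H * Nat.card F ≤
      (Nat.card F ^ finrank F V - 1) * Nat.card H * c := by
    calc _ = (Nat.card F ^ finrank F V - 1) * (Nat.card F * Nat.card H) := by ring
      _ ≤ _ := h5
      _ = _ := by ring
  have h7 := Nat.le_of_mul_le_mul_left h6 (Nat.mul_pos hQ hHpos)
  omega

/-- the transposed group -/
def tr18 (H : Subgroup (V ≃ₗ[F] V)) : Subgroup (Dual F V ≃ₗ[F] Dual F V) where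
  carrier := {k | ∃ g ∈ H, k = g.dualMap}
  one_mem' := ⟨1, H.one_mem, rfl⟩
  mul_mem' := by
    rintro _ _ ⟨g, hg, rfl⟩ ⟨h, hh, rfl⟩
    exact ⟨h * g, H.mul_mem hh hg, rfl⟩
  inv_mem' := by
    rintro _ ⟨g, hg, rfl⟩
    exact ⟨g⁻¹, H.inv_mem hg, rfl⟩

theorem dualMap_inj18 {g h : V ≃ₗ[F] V} (e : g.dualMap = h.dualMap) : g = h := by
  ext v
  by_contra hne
  have h1 : g v - h v ≠ 0 := sub_ne_zero.2 hne
  obtain ⟨f, hf⟩ : ∃ f : Dual F V, f (g v - h v) ≠ 0 := by
    by_contra h2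
    push Not at h2
    exact h1 ((Module.forall_dual_apply_eq_zero_iff F _).1 h2)
  have h2 : g.dualMap f v = h.dualMap f v := by rw [e]
  rw [LinearEquiv.dualMap_apply, LinearEquiv.dualMap_apply] at h2
  exact hf (by rw [map_sub, h2, sub_self])

end

/-- Uniq -/
theorem uniq18 (hOrb : StOrb) : StUniq := by
  intro F V _ _ _ _ _ H c hc hq hn hbig
  refine ⟨fun x y hx hy h1 h2 => pts18 hOrb H c hc hq (by omega) hbig x y hx hy h1 h2, ?_⟩
  intro μ ν hμ hν h1 h2
  have : Finite (Dual F V) := DFunLike.finite _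
  have hfr : finrank F (Dual F V) = finrank F V := Subspace.dual_finrank_eq
  have hcH : Nat.card (tr18 H) = Nat.card H := by
    refine (Nat.card_eq_of_bijective (fun g : H => (⟨g.1.dualMap, g.1, g.2, rfl⟩ : tr18 H)) ?_).symm
    constructor
    · intro g h e
      exact Subtype.ext (dualMap_inj18 (congrArg Subtype.val e))
    · rintro ⟨_, g, hg, rfl⟩
      exact ⟨⟨g, hg⟩, rfl⟩
  have hcG : Nat.card (Dual F V ≃ₗ[F] Dual F V) = Nat.card (V ≃ₗ[F] V) := by
    obtain ⟨e⟩ : Nonempty (V ≃ₗ[F] Dual F V) := FiniteDimensional.nonempty_linearEquiv_of_finrank_eq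
      hfr.symm
    refine (Nat.card_congr
      { toFun := fun g => e.symm.trans (g.trans e)
        invFun := fun k => e.trans (k.trans e.symm)
        left_inv := fun g => by ext v; simp
        right_inv := fun k => by ext v; simp }).symm
  have hb : Big c (tr18 H) := by
    unfold Big
    rw [hcH, hcG, hfr]
    exact hbig
  refine pts18 hOrb (tr18 H) c hc hq (by omega) hb μ ν hμ hν ?_ ?_
  · rintro _ ⟨g, hg, rfl⟩
    obtain ⟨a, ha⟩ := h1 g hg
    exact ⟨a, by ext v; rw [LinearEquiv.dualMap_apply, ha]; rfl⟩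
  · rintro _ ⟨g, hg, rfl⟩
    obtain ⟨a, ha⟩ := h2 g hg
    exact ⟨a, by ext v; rw [LinearEquiv.dualMap_apply, ha]; rfl⟩

end SpreadPerm.LG
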