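import Pool.Agent.Lib.MP_e6ed9e_al.LG.Defs4
import Pool.Agent.Lib.MP_e6ed9e_al.LG.TTS2
import Pool.Agent.Lib.MP_e6ed9e_al.LG.Uniq18

/-! # Row BigA -/

namespace SpreadPerm.LG

open Module MulAction

namespace BA35

section
variable {F V : Type} [Field F] [AddCommGroup V] [Module F V]

/-- A vector which is not a multiple of `x`. -/
theorem exists_out [Finite V] (hn : 3 ≤ finrank F V) (x : V) : ∃ y : V, ∀ a : F, y ≠ a • x := by
  have : Module.Finite F V := Module.Finite.of_finite
  by_contra hcon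
  push Not at hcon
  have h1 : (⊤ : Submodule F V) ≤ F ∙ x := by
    intro v _
    obtain ⟨a, ha⟩ := hcon v
    rw [ha]
    exact Submodule.smul_mem _ _ (Submodule.mem_span_singleton_self x)
  have h2 := Submodule.finrank_mono h1
  rw [finrank_top] at h2
  have h3 : finrank F (F ∙ x) ≤ 1 := by
    have := finrank_span_le_card (R := F) ({x} : Set V)
    simpa using this
  omega

/-- The index of the stabilizer of a hyperplane. -/
theorem hyp_count (hOrb : StOrb) [Finite F] [Finite V] {μ : V →ₗ[F] F} (hμ : μ ≠ 0) :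
    (Nat.card F - 1) * Nat.card (V ≃ₗ[F] V) ≤ (Nat.card F ^ finrank F V - 1) *
      Nat.card {h : V ≃ₗ[F] V // ∃ a : F, ∀ v, μ (h v) = a * μ v} := by
  have : Finite (Dual F V) := DFunLike.finite _
  have : Module.Finite F V := Module.Finite.of_finite
  have hfr : finrank F (Dual F V) = finrank F V := Subspace.dual_finrank_eq
  have h1 := (hOrb F (Dual F V) (tr18 (⊤ : Subgroup (V ≃ₗ[F] V))) μ hμ).1
  have hcH : Nat.card (tr18 (⊤ : Subgroup (V ≃ₗ[F] V))) = Nat.card (V ≃ₗ[F] V) := by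
    refine (Nat.card_eq_of_bijective (fun g : V ≃ₗ[F] V =>
      (⟨g.dualMap, g, Subgroup.mem_top g, rfl⟩ : tr18 (⊤ : Subgroup (V ≃ₗ[F] V)))) ?_).symm
    constructor
    · intro g h e
      exact dualMap_inj18 (congrArg Subtype.val e)
    · rintro ⟨_, g, hg, rfl⟩
      exact ⟨g, rfl⟩
  rw [hcH, hfr] at h1
  refine h1.trans (Nat.mul_le_mul_left _ (le_of_eq ?_))
  refine (Nat.card_eq_of_bijective (fun g : {h : V ≃ₗ[F] V // ∃ a : F, ∀ v, μ (h v) = a * μ v} =>
    (⟨g.1.dualMap, ⟨g.1, Subgroup.mem_top g.1, rfl⟩, ?_⟩ :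
      {h : Dual F V ≃ₗ[F] Dual F V // h ∈ tr18 (⊤ : Subgroup (V ≃ₗ[F] V)) ∧
        ∃ a : F, h μ = a • μ})) ?_).symm
  · obtain ⟨a, ha⟩ := g.2
    exact ⟨a, LinearMap.ext fun v => by rw [LinearEquiv.dualMap_apply, ha]; rfl⟩
  · constructor
    · intro g h e
      exact Subtype.ext (dualMap_inj18 (congrArg Subtype.val e))
    · rintro ⟨_, ⟨g, hg, rfl⟩, a, ha⟩
      exact ⟨⟨g, a, fun v => by rw [← LinearEquiv.dualMap_apply, ha]; rfl⟩, rfl⟩

end

end BA35

open BA35 in
/-- Row BigA. -/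
theorem bigA35 (hOrb : StOrb) : StBigA := by
  classical
  intro F V _ _ _ _ _ L c hn hL hMD hfix
  have : Finite (V ≃ₗ[F] V) := Finite.of_injective (fun g : V ≃ₗ[F] V => (g : V → V))
    (fun a b h => LinearEquiv.ext (fun v => congrFun h v))
  have : Module.Finite F V := Module.Finite.of_finite
  rcases hfix with ⟨x, hx, hfx⟩ | ⟨μ, hμ, hfx⟩
  · have hLK : ¬ ∀ g ∈ GamL F V, ∃ l ∈ L, ∃ k ∈ stabA2 F x, g = l * k := by
      intro hall
      obtain ⟨y, hy⟩ := exists_out (F := F) hn x
      have hy0 : y ≠ 0 := fun h => hy 0 (by rw [h, zero_smul])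
      obtain ⟨s, -, b, hb, hsb⟩ := exists_sl_move2 (F := F) hx hy0
      obtain ⟨l, hl, k, ⟨hkG, a, hk⟩, hlk⟩ := hall (toA F V s) (toA_mem2' s)
      obtain ⟨-, σ, hσ⟩ := hL hl
      obtain ⟨d, hd⟩ := hfx l hl
      have h5 : l (k x) = b • y := by
        rw [← hsb]
        exact (congrArg (fun g : Equiv.Perm V => g x) hlk).symm
      rw [hk, hσ, hd, smul_smul] at h5
      refine hy (b⁻¹ * (σ a * d)) ?_
      rw [mul_smul, h5, smul_smul, inv_mul_cancel₀ hb, one_smul]
    have h1 := hMD (stabA2 F x) (stabA2_le x) (sl_stabA2 hx) hLK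
    have h2 := (hOrb F V (lin F L) x hx).2.1
    have h3 : Nat.card {h : V ≃ₗ[F] V // ∃ a : F, h x = a • x} ≤ c * Nat.card (lin F L) := by
      refine le_trans (le_of_eq ?_) h1
      refine Nat.card_congr (Equiv.subtypeEquivRight fun h => ?_)
      exact ⟨fun h' => ⟨toA_mem2' h, h'⟩, fun h' => h'.2⟩
    show (Nat.card F - 1) * Nat.card (V ≃ₗ[F] V) ≤ _
    rw [h2]
    calc (Nat.card F ^ finrank F V - 1) * Nat.card {h : V ≃ₗ[F] V // ∃ a : F, h x = a • x}
        ≤ (Nat.card F ^ finrank F V - 1) * (c * Nat.card (lin F L)) :=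
          Nat.mul_le_mul_left _ h3
      _ = c * (Nat.card F ^ finrank F V - 1) * Nat.card (lin F L) := by ring
  · have hLK : ¬ ∀ g ∈ GamL F V, ∃ l ∈ L, ∃ k ∈ stabHA2 μ, g = l * k := by
      intro hall
      -- a vector in the kernel and one outside
      obtain ⟨z, hz⟩ : ∃ z, μ z ≠ 0 := by
        by_contra hcon
        push Not at hcon
        exact hμ (LinearMap.ext hcon)
      obtain ⟨y, hy0, hy⟩ : ∃ y, y ≠ 0 ∧ μ y = 0 := by
        have h1 := LinearMap.finrank_range_add_finrank_ker μ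
        have h2 : finrank F (LinearMap.range μ) ≤ 1 := by
          have := Submodule.finrank_le (LinearMap.range μ)
          rwa [finrank_self] at this
        have h3 : 0 < finrank F (LinearMap.ker μ) := by omega
        have : Nontrivial (LinearMap.ker μ) := Module.nontrivial_of_finrank_pos h3
        obtain ⟨w, hw⟩ := exists_ne (0 : LinearMap.ker μ)
        exact ⟨w.1, fun h => hw (Subtype.ext h), w.2⟩
      have hz0 : z ≠ 0 := fun h => hz (by rw [h, map_zero])
      obtain ⟨s, -, b, hb, hsb⟩ := exists_sl_move2 (F := F) hy0 hz0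
      obtain ⟨l, hl, k, hk, hlk⟩ := hall (toA F V s) (toA_mem2' s)
      have h5 : l (k y) = b • z := by
        rw [← hsb]
        exact (congrArg (fun g : Equiv.Perm V => g y) hlk).symm
      have h6 : μ (l (k y)) = 0 := hfx l hl _ ((hk.2 y).1 hy)
      rw [h5, map_smul, smul_eq_mul] at h6
      rcases mul_eq_zero.1 h6 with h7 | h7
      · exact hb h7
      · exact hz h7
    have h1 := hMD (stabHA2 μ) (stabHA2_le μ) (sl_stabHA2 hμ) hLK
    have h2 := hyp_count hOrb hμ
    have h3 : Nat.card {h : V ≃ₗ[F] V // ∃ a : F, ∀ v, μ (h v) = a * μ v} ≤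
        c * Nat.card (lin F L) := by
      refine le_trans (le_of_eq ?_) h1
      refine Nat.card_congr (Equiv.subtypeEquivRight fun h => ?_)
      constructor
      · rintro ⟨a, ha⟩
        refine ⟨toA_mem2' h, fun v => ?_⟩
        have ha0 : a ≠ 0 := by
          rintro rfl
          apply hμ
          ext v
          have := ha (h.symm v)
          rw [LinearEquiv.apply_symm_apply, zero_mul] at this
          exact this
        show μ v = 0 ↔ μ (h v) = 0
        rw [ha]
        constructor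
        · intro h'
          rw [h', mul_zero]
        · intro h'
          exact (mul_eq_zero.1 h').resolve_left ha0
      · rintro ⟨-, h'⟩
        obtain ⟨a, ha⟩ := dual_prop2 (ν := μ ∘ₗ (h : V →ₗ[F] V)) hμ (fun v hv => (h' v).1 hv)
        exact ⟨a, fun v => LinearMap.congr_fun ha v⟩
    show (Nat.card F - 1) * Nat.card (V ≃ₗ[F] V) ≤ _
    calc (Nat.card F - 1) * Nat.card (V ≃ₗ[F] V) ≤ _ := h2
      _ ≤ (Nat.card F ^ finrank F V - 1) * (c * Nat.card (lin F L)) :=
          Nat.mul_le_mul_left _ h3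
      _ = c * (Nat.card F ^ finrank F V - 1) * Nat.card (lin F L) := by ring

end SpreadPerm.LG
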