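import Pool.Agent.Lib.MP_e6ed9e_al.LG.Defs2

/-!
# Row CASE1 from CI, CII, CIII
-/

namespace SpreadPerm.LG

open Module MulAction

/-- CASE1 -/
theorem case18 (h1 : StCI) (h2 : StCII) (h3 : StCIII) : StCase1 := by
  classical
  intro F V _ _ _ _ _ H c hc hq hn _ hbig
  have hor : ∀ x : V, Ctr H x → T1 H x ∨ T2 H x := by
    intro x hx
    by_cases h4 : ∀ y ∈ RR H x, ∃ a : F, y = a • x
    · exact Or.inl ⟨hx, h4⟩
    · push Not at h4
      obtain ⟨y, hy, hxy⟩ := h4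
      exact Or.inr ⟨hx, y, hy, hxy⟩
  by_cases e1 : ∃ x : V, x ≠ 0 ∧ T1 H x
  · by_cases e2 : ∃ x : V, x ≠ 0 ∧ T2 H x
    · rcases h1 F V H c hc hq hn hbig e1 e2 with h | h
      · exact Or.inl h
      · exact Or.inr (Or.inl h)
    · refine Or.inr (h2 F V H c hc hq hn hbig fun x hx hxc => ?_)
      exact (hor x hxc).resolve_right fun h => e2 ⟨x, hx, h⟩
  · rcases h3 F V H c hc hq hn hbig fun x hx hxc =>
      (hor x hxc).resolve_left fun h => e1 ⟨x, hx, h⟩ with h | h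
    · exact Or.inl h
    · exact Or.inr (Or.inr h)

end SpreadPerm.LG
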