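import Pool.Agent.Lib.MP_e6ed9e_al.LG.Defs4

/-!
# Rows CorG and FixG
-/

namespace SpreadPerm.LG

open Module MulAction

noncomputable section

namespace CorG84

section
variable {F V G : Type} [Field F] [AddCommGroup V] [Module F V] [Group G]
  {ρ : G →* Equiv.Perm (Submodule F V)} {g : G} {f : Equiv.Perm V}

theorem ind_bot (h : Ind ρ g f) : ρ g ⊥ = ⊥ := by
  have h0 := GamL_zero h.1
  rw [eq_bot_iff]
  intro v hv
  obtain ⟨u, rfl⟩ := f.surjective v
  rw [h.2, Submodule.mem_bot] at hv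
  rw [hv, h0]
  exact Submodule.zero_mem _

theorem ind_top (h : Ind ρ g f) : ρ g ⊤ = ⊤ := by
  rw [eq_top_iff]
  intro v _
  obtain ⟨u, rfl⟩ := f.surjective v
  rw [h.2]
  exact Submodule.mem_top

theorem cor_bot (h : Cor ρ g) : ρ g ⊥ = ⊤ := by
  obtain ⟨τ, f, h1, h2, h3⟩ := h
  have h0 : f 0 = 0 := by
    have := h1 0 0
    rw [add_zero] at this
    exact left_eq_add.1 this
  rw [eq_top_iff]
  intro v _
  rw [h3]
  intro w hw
  rw [(Submodule.mem_bot F).1 hw, h0]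
  rfl

theorem cor_top (h : Cor ρ g) : ρ g ⊤ = ⊥ := by
  obtain ⟨τ, f, h1, h2, h3⟩ := h
  rw [eq_bot_iff]
  intro v hv
  rw [h3] at hv
  rw [Submodule.mem_bot, ← Module.forall_dual_apply_eq_zero_iff F v]
  intro φ
  obtain ⟨w, rfl⟩ := f.surjective φ
  exact hv w Submodule.mem_top

theorem bot_ne (h3 : 3 ≤ finrank F V) : (⊥ : Submodule F V) ≠ ⊤ := by
  intro h
  have h1 : finrank F (⊥ : Submodule F V) = finrank F (⊤ : Submodule F V) := by rw [h]
  rw [finrank_bot, finrank_top] at h1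
  omega

/-- An element which fixes `⊥` acts as a semilinear map. -/
theorem ind_of {Ω : Type} [MulAction G Ω] (hS : Soc F V G Ω ρ) (h3 : 3 ≤ finrank F V)
    (h : ρ g ⊥ = ⊥) : ∃ f, Ind ρ g f := by
  rcases hS.geo g with h1 | h1
  · exact h1
  · exact absurd (h.symm.trans (cor_bot h1)) (bot_ne h3)

theorem inv_bot (h : ρ g ⊤ = ⊥) : ρ g⁻¹ ⊥ = ⊤ := by
  rw [map_inv]
  show (ρ g).symm ⊥ = ⊤
  rw [Equiv.symm_apply_eq, h]

theorem inv_top (h : ρ g ⊥ = ⊤) : ρ g⁻¹ ⊤ = ⊥ := by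
  rw [map_inv]
  show (ρ g).symm ⊤ = ⊥
  rw [Equiv.symm_apply_eq, h]

theorem inv_bot' (h : ρ g ⊥ = ⊥) : ρ g⁻¹ ⊥ = ⊥ := by
  rw [map_inv]
  show (ρ g).symm ⊥ = ⊥
  rw [Equiv.symm_apply_eq, h]

theorem mul_apply (a b : G) (W : Submodule F V) : ρ (a * b) W = ρ a (ρ b W) := by
  rw [map_mul]
  rfl

/-- Conjugates of type preserving elements. -/
theorem conj {Ω : Type} [MulAction G Ω] (hS : Soc F V G Ω ρ) (h3 : 3 ≤ finrank F V) (k : G)
    (h : ρ g ⊥ = ⊥) : ρ (k⁻¹ * g * k) ⊥ = ⊥ := by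
  rcases hS.geo k with ⟨f', hk⟩ | hk
  · rw [mul_apply, mul_apply, ind_bot hk, h, inv_bot' (ind_bot hk)]
  · obtain ⟨f', hg⟩ := ind_of hS h3 h
    rw [mul_apply, mul_apply, cor_bot hk, ind_top hg, inv_top (cor_bot hk)]

theorem conj' {Ω : Type} [MulAction G Ω] (hS : Soc F V G Ω ρ) (h3 : 3 ≤ finrank F V) (k : G)
    (h : ρ g ⊥ = ⊥) : ρ (k * g * k⁻¹) ⊥ = ⊥ := by
  have := conj hS h3 k⁻¹ h
  rwa [inv_inv] at this

end

end CorG84

open CorG84

theorem corG84 : StCorG := by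
  intro F V G Ω _ _ _ _ _ _ _ _ _ _ ρ hS h3 ω hco ⟨γ, hγ⟩
  by_contra hcon
  push Not at hcon
  let G1 : Subgroup G :=
    { carrier := {g | ρ g ⊥ = ⊥}
      one_mem' := by
        show ρ 1 ⊥ = ⊥
        rw [map_one]
        rfl
      mul_mem' := by
        intro a b ha hb
        show ρ (a * b) ⊥ = ⊥
        rw [mul_apply, hb, ha]
      inv_mem' := fun {a} ha => inv_bot' ha }
  have hst : stabilizer G ω ≤ G1 := by
    intro g hg
    rcases hS.geo g with ⟨f, hf⟩ | hc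
    · exact ind_bot hf
    · exact absurd hc (hcon g hg)
  have hne : G1 ≠ ⊤ := by
    intro h
    have : γ ∈ G1 := by
      rw [h]
      exact Subgroup.mem_top γ
    exact bot_ne h3 ((cor_bot hγ).symm.trans this).symm
  have heq : G1 = stabilizer G ω := (hco.le_iff.1 hst).resolve_left hne
  obtain ⟨g, s, hs, hi, ω', hω'⟩ := hS.nt
  apply hω'
  obtain ⟨k, rfl⟩ := exists_smul_eq G ω ω'
  have h1 : k⁻¹ * g * k ∈ G1 := conj hS h3 k (ind_bot hi)
  rw [heq, mem_stabilizer_iff, mul_smul, mul_smul, inv_smul_eq_iff] at h1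
  exact h1

theorem fixG84 : StFixG := by
  intro F V G Ω _ _ _ _ _ _ _ _ _ _ ρ hS h3 ω δ hδω hδ
  have hδ' := hδ
  obtain ⟨τ, f, f1, f2, f3⟩ := hδ'
  have f0 : f 0 = 0 := by
    have := f1 0 0
    rw [add_zero] at this
    exact left_eq_add.1 this
  have hker : ∀ x : V, ρ δ (F ∙ x) = LinearMap.ker (f x) := by
    intro x
    ext v
    rw [f3, LinearMap.mem_ker]
    constructor
    · intro h
      exact h x (Submodule.mem_span_singleton_self x)
    · intro h w hw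
      obtain ⟨a, rfl⟩ := Submodule.mem_span_singleton.1 hw
      rw [f2]
      show τ a * f x v = 0
      rw [h, mul_zero]
  constructor
  · rintro ⟨x, hx, hfix⟩
    refine ⟨f x, fun h => hx (f.injective (h.trans f0.symm)), ?_⟩
    rintro l ⟨g1, hg1, hi⟩ v hv
    have hb : ρ (δ⁻¹ * g1 * δ) ⊥ = ⊥ := conj hS h3 δ (ind_bot hi)
    obtain ⟨l2, h2⟩ := ind_of hS h3 hb
    have hst : (δ⁻¹ * g1 * δ) • ω = ω := by
      rw [mul_smul, mul_smul, hδω, hg1, inv_smul_eq_iff, hδω]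
    have hl2 : l2 ∈ StabL ρ ω := ⟨_, hst, h2⟩
    have hW : ρ (δ⁻¹ * g1 * δ) (F ∙ x) = (F ∙ x) := by
      apply le_antisymm
      · intro u hu
        obtain ⟨u', rfl⟩ := l2.surjective u
        rw [h2.2] at hu
        obtain ⟨a, rfl⟩ := Submodule.mem_span_singleton.1 hu
        obtain ⟨b, hb'⟩ := hfix l2 hl2
        obtain ⟨-, σ, hσ⟩ := h2.1
        rw [hσ, hb', smul_smul]
        exact Submodule.smul_mem _ _ (Submodule.mem_span_singleton_self x)
      · rw [Submodule.span_singleton_le_iff_mem]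
        obtain ⟨b, hb'⟩ := hfix l2⁻¹ ((StabL ρ ω).inv_mem hl2)
        have h5 : l2 (l2⁻¹ x) = x := Equiv.apply_symm_apply l2 x
        have h11 : l2 (l2⁻¹ x) ∈ ρ (δ⁻¹ * g1 * δ) (F ∙ x) := by
          rw [h2.2, hb']
          exact Submodule.smul_mem _ _ (Submodule.mem_span_singleton_self x)
        rwa [h5] at h11
    have hW' : ρ g1 (LinearMap.ker (f x)) = LinearMap.ker (f x) := by
      rw [← hker, ← mul_apply]
      have h6 : g1 * δ = δ * (δ⁻¹ * g1 * δ) := by group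
      rw [h6, mul_apply, hW]
    have h7 := (hi.2 (LinearMap.ker (f x)) v).2 (LinearMap.mem_ker.2 hv)
    rw [hW'] at h7
    exact LinearMap.mem_ker.1 h7
  · rintro ⟨μ, hμ, hfix⟩
    obtain ⟨x, rfl⟩ := f.surjective μ
    refine ⟨x, fun h => hμ (by rw [h, f0]), ?_⟩
    rintro l ⟨g1, hg1, hi⟩
    have hb : ρ (δ * g1 * δ⁻¹) ⊥ = ⊥ := conj' hS h3 δ (ind_bot hi)
    obtain ⟨l2, h2⟩ := ind_of hS h3 hb
    have hst : (δ * g1 * δ⁻¹) • ω = ω := by
      have h8 : δ⁻¹ • ω = ω := by rw [inv_smul_eq_iff, hδω]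
      rw [mul_smul, mul_smul, h8, hg1, hδω]
    have hl2 : l2 ∈ StabL ρ ω := ⟨_, hst, h2⟩
    have hW : ρ (δ * g1 * δ⁻¹) (LinearMap.ker (f x)) = LinearMap.ker (f x) := by
      apply le_antisymm
      · intro u hu
        obtain ⟨u', rfl⟩ := l2.surjective u
        rw [h2.2] at hu
        exact LinearMap.mem_ker.2 (hfix l2 hl2 u' (LinearMap.mem_ker.1 hu))
      · intro u hu
        have h9 := hfix l2⁻¹ ((StabL ρ ω).inv_mem hl2) u (LinearMap.mem_ker.1 hu)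
        have h5 : l2 (l2⁻¹ u) = u := Equiv.apply_symm_apply l2 u
        rw [← h5, h2.2]
        exact LinearMap.mem_ker.2 h9
    have hW' : ρ g1 (F ∙ x) = (F ∙ x) := by
      have h6 : ρ δ (ρ g1 (F ∙ x)) = ρ δ (F ∙ x) := by
        have h10 : ρ (δ * g1 * δ⁻¹) (ρ δ (F ∙ x)) = ρ δ (F ∙ x) := by rw [hker, hW]
        rw [← mul_apply, inv_mul_cancel_right, mul_apply] at h10
        exact h10
      exact (ρ δ).injective h6
    have h7 := (hi.2 (F ∙ x) x).2 (Submodule.mem_span_singleton_self x)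
    rw [hW'] at h7
    obtain ⟨a, ha⟩ := Submodule.mem_span_singleton.1 h7
    exact ⟨a, ha.symm⟩

end

end SpreadPerm.LG
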