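import Pool.Agent.Lib.MP_e6ed9e_al.LG.Defs
import Pool.Agent.Lib.MP_e6ed9e_al.PL.Main47
import Pool.Agent.Lib.MP_e6ed9e_al.PL.Dick88
import Pool.Agent.Lib.MP_e6ed9e_al.PL.Syl88
import Pool.Agent.Lib.MP_e6ed9e_al.PL.Pgl16
import Pool.Agent.Lib.MP_e6ed9e_al.PL.KerRat51
import Pool.Agent.Lib.MP_e6ed9e_al.PL.Sub25
import Pool.Agent.Lib.MP_e6ed9e_al.PL.Full1

/-!
# Row D2: large subgroups of `GL(2,F)`
-/

namespace SpreadPerm.LG

open PL
open scoped LinearAlgebra.Projectivization MatrixGroups
open MulAction

noncomputable section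

section
variable {F K : Type} [Field F] [Finite F] [Field K] [IsAlgClosed K] [Algebra F K]

theorem mem_map88 {I : Subgroup (GL (Fin 2) F)} (h : I.map (psi F K)) :
    ∃ g ∈ I, psi F K g = h.1 := h.2

instance finMap88 (I : Subgroup (GL (Fin 2) F)) : Finite (I.map (psi F K)) := by
  have h1 : ((I.map (psi F K) : Subgroup (Equiv.Perm (PX K))) : Set (Equiv.Perm (PX K))).Finite := by
    have : (I : Set (GL (Fin 2) F)).Finite := Set.toFinite _
    exact this.image _
  exact h1.to_subtype

theorem nform88 {a b c : F} (han : ∀ v : Fin 2 → F, v ≠ 0 → bq a b c v ≠ 0) {r : PX K}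
    (hr : Rat F K r) :
    bq (algebraMap F K a) (algebraMap F K b) (algebraMap F K c) r.rep ≠ 0 := by
  obtain ⟨v, hv, hv1, rfl⟩ := hr
  intro h0
  obtain ⟨l, hl⟩ := Projectivization.exists_smul_eq_mk_rep K (up F K v) hv1
  rw [← hl] at h0
  have h1 : bq (algebraMap F K a) (algebraMap F K b) (algebraMap F K c) ((l : K) • up F K v) = 0 :=
    h0
  rw [bq_smul, bq_up51] at h1
  rcases mul_eq_zero.1 h1 with h2 | h2
  · exact l.ne_zero (pow_eq_zero_iff (two_ne_zero) |>.1 h2)
  · exact han v hv ((map_eq_zero (algebraMap F K)).1 h2)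

/-- The label of the image of a rational point. -/
theorem lab88 (I : Subgroup (GL (Fin 2) F)) (r : PX K) (hr : Rat F K r) (h : I.map (psi F K)) :
    ∃ o : Option F, rp F K o = h.1 r := by
  obtain ⟨g, hg, hgh⟩ := mem_map88 h
  rw [← hgh]
  exact (rat_iff _).1 (rat_psi hr)

/-- A fixed point which is not rational. -/
theorem irr88 (I : Subgroup (GL (Fin 2) F)) (x : PX K) (hx : ∀ h : I.map (psi F K), h.1 x = x)
    (hr : ¬ Rat F K x) : Nat.card (I.map (psi F K)) ≤ Nat.card F + 1 := by
  classical
  have : Fintype F := Fintype.ofFinite F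
  have hrr : Rat F K (rp F K none) := rp_rat none
  choose f hf using lab88 I (rp F K none) hrr
  have hinj : Function.Injective f := by
    intro h h' hh
    have h1 : h.1 (rp F K none) = h'.1 (rp F K none) := by rw [← hf h, ← hf h', hh]
    by_contra hne
    obtain ⟨g, hg, hgh⟩ := mem_map88 (h'⁻¹ * h)
    have hg1 : psi F K g ≠ 1 := by
      intro h2
      rw [h2] at hgh
      apply hne
      have h3 : h'⁻¹ * h = 1 := Subtype.ext hgh.symm
      exact (inv_mul_eq_one.1 h3).symm
    have hgx : psi F K g x = x := by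
      rw [hgh]
      exact hx _
    have hgr : psi F K g (rp F K none) = rp F K none := by
      rw [hgh]
      show h'.1⁻¹ (h.1 (rp F K none)) = _
      rw [h1]
      exact Equiv.symm_apply_apply h'.1 _
    have hxr : x ≠ rp F K none := by
      rintro rfl
      exact hr hrr
    rcases (rat51 F K g hg1).2 x _ hxr hgx hgr with h2 | ⟨a, b, c, han, hz⟩
    · exact hr h2.1
    · exact nform88 han hrr ((hz _).2 (Or.inr rfl))
  have h4 := Nat.card_le_card_of_injective f hinj
  rwa [Finite.card_option] at h4

/-- The stabilizer of a pair. -/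
theorem pair88 {p : ℕ} (I : Subgroup (GL (Fin 2) F)) (hD : DAct (I.map (psi F K)) (PX K) p)
    (hq : 2 ≤ Nat.card F) (x y : PX K) (hxy : x ≠ y)
    (hst : ∀ h : I.map (psi F K), (h.1 x = x ∧ h.1 y = y) ∨ (h.1 x = y ∧ h.1 y = x)) :
    Nat.card (I.map (psi F K)) ≤ (Nat.card F + 1) * 2 := by
  classical
  have : Fintype F := Fintype.ofFinite F
  obtain ⟨r, hrr, hrn⟩ := ex_rat (F := F) (K := K) {x, y} (Set.toFinite _) (by
    rw [Set.ncard_pair hxy, ← Nat.card_eq_fintype_card]
    omega)
  have hrx : x ≠ r := fun h => hrn (by simp [h])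
  have hry : y ≠ r := fun h => hrn (by simp [h])
  choose f hf using lab88 I r hrr
  have hinj : Function.Injective (fun h : I.map (psi F K) => (f h, decide (h.1 x = x))) := by
    intro h h' hh
    have hh1 : f h = f h' := (Prod.ext_iff.1 hh).1
    have hh2 : decide (h.1 x = x) = decide (h'.1 x = x) := (Prod.ext_iff.1 hh).2
    have h1 : h.1 r = h'.1 r := by
      rw [← hf h, ← hf h', hh1]
    have h2 : h.1 x = x ↔ h'.1 x = x := decide_eq_decide.1 hh2
    by_contra hne
    have hk : h'⁻¹ * h ≠ 1 := fun h3 => hne (inv_mul_eq_one.1 h3).symm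
    have hkr : (h'⁻¹ * h) • r = r := by
      show h'.1⁻¹ (h.1 r) = _
      rw [h1]
      exact Equiv.symm_apply_apply h'.1 _
    have hinv : ∀ a b : PX K, h'.1 a = b → h'.1⁻¹ b = a := by
      rintro a b rfl
      exact Equiv.symm_apply_apply h'.1 _
    have hkxy : (h'⁻¹ * h) • x = x ∧ (h'⁻¹ * h) • y = y := by
      show h'.1⁻¹ (h.1 x) = x ∧ h'.1⁻¹ (h.1 y) = y
      rcases hst h with ⟨h3, h4⟩ | ⟨h3, h4⟩
      · rcases hst h' with ⟨h5, h6⟩ | ⟨h5, h6⟩
        · rw [h3, h4]
          exact ⟨hinv _ _ h5, hinv _ _ h6⟩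
        · exfalso
          exact hxy ((h2.1 h3).symm.trans h5)
      · rcases hst h' with ⟨h5, h6⟩ | ⟨h5, h6⟩
        · exfalso
          exact hxy ((h2.2 h5).symm.trans h3)
        · rw [h3, h4]
          exact ⟨hinv _ _ h5, hinv _ _ h6⟩
    rcases hD.fix_le _ hk x y r hkxy.1 hkxy.2 hkr with h7 | h7 | h7
    · exact hxy h7
    · exact hrx h7
    · exact hry h7
  have h4 := Nat.card_le_card_of_injective _ hinj
  rwa [Nat.card_prod, Finite.card_option, Nat.card_eq_fintype_card (α := Bool),
    Fintype.card_bool] at h4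

/-- A rational fixed point, no unipotent elements. -/
theorem torus88 (I : Subgroup (GL (Fin 2) F)) (v : Fin 2 → F) (hv : v ≠ 0)
    (hI : ∀ g ∈ I, ∃ a : F, g • v = a • v)
    (hU : ∀ g ∈ I, (∀ w : Fin 2 → F, (∃ a : F, g • w = a • w) → ∃ b : F, w = b • v) →
      psi F K g = 1) : Nat.card (I.map (psi F K)) ≤ Nat.card F := by
  classical
  choose! ch hch using hI
  have hch0 : ∀ g ∈ I, ch g ≠ 0 := by
    intro g hg h0
    have := hch g hg
    rw [h0, zero_smul] at this
    exact hv ((smul_eq_zero_iff_eq g).1 this)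
  have key : ∀ k ∈ I, Matrix.det k.1 = ch k ^ 2 → psi F K k = 1 := by
    intro k hk hdet
    by_cases h1 : ∀ w : Fin 2 → F, (∃ a : F, k • w = a • w) → ∃ b : F, w = b • v
    · exact hU k hk h1
    · push Not at h1
      obtain ⟨w, ⟨a, ha⟩, hw⟩ := h1
      -- `v`, `w` is a basis of eigenvectors
      have hkv := hch k hk
      rw [gl_smul] at hkv ha
      have e0 := congrFun hkv 0
      have e1 := congrFun hkv 1
      have f0 := congrFun ha 0
      have f1 := congrFun ha 1
      simp only [Matrix.mulVec, dotProduct, Fin.sum_univ_two, Pi.smul_apply, smul_eq_mul] at e0 e1 f0 f1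
      rw [Matrix.det_fin_two] at hdet
      have hD : v 0 * w 1 - v 1 * w 0 ≠ 0 := by
        intro hD
        rcases ne_zero51 hv with h2 | h2
        · apply hw (w 0 / v 0)
          funext i
          fin_cases i
          · show w 0 = w 0 / v 0 * v 0
            field_simp
          · show w 1 = w 0 / v 0 * v 1
            field_simp
            linear_combination hD
        · apply hw (w 1 / v 1)
          funext i
          fin_cases i
          · show w 0 = w 1 / v 1 * v 0
            field_simp
            linear_combination -hD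
          · show w 1 = w 1 / v 1 * v 1
            field_simp
      have hca : ch k = a := by
        have h3 : (ch k * a - ch k ^ 2) * (v 0 * w 1 - v 1 * w 0) = 0 := by
          have h4 : (k.1 0 0 * v 0 + k.1 0 1 * v 1) * (k.1 1 0 * w 0 + k.1 1 1 * w 1) -
            (k.1 1 0 * v 0 + k.1 1 1 * v 1) * (k.1 0 0 * w 0 + k.1 0 1 * w 1) =
            (k.1 0 0 * k.1 1 1 - k.1 0 1 * k.1 1 0) * (v 0 * w 1 - v 1 * w 0) := by ring
          rw [e0, e1, f0, f1, hdet] at h4
          linear_combination h4
        have h5 := (mul_eq_zero.1 h3).resolve_right hD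
        have h6 : ch k * (a - ch k) = 0 := by linear_combination h5
        have h7 := (mul_eq_zero.1 h6).resolve_left (hch0 k hk)
        exact (sub_eq_zero.1 h7).symm
      rw [← hca] at f0 f1
      refine (ker51 F K k).2 ⟨ch k, ?_⟩
      have g00 : (k.1 0 0 - ch k) * (v 0 * w 1 - v 1 * w 0) = 0 := by
        linear_combination w 1 * e0 - v 1 * f0
      have g01 : k.1 0 1 * (v 0 * w 1 - v 1 * w 0) = 0 := by
        linear_combination v 0 * f0 - w 0 * e0
      have g10 : k.1 1 0 * (v 0 * w 1 - v 1 * w 0) = 0 := by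
        linear_combination w 1 * e1 - v 1 * f1
      have g11 : (k.1 1 1 - ch k) * (v 0 * w 1 - v 1 * w 0) = 0 := by
        linear_combination v 0 * f1 - w 0 * e1
      have r00 := sub_eq_zero.1 ((mul_eq_zero.1 g00).resolve_right hD)
      have r01 := (mul_eq_zero.1 g01).resolve_right hD
      have r10 := (mul_eq_zero.1 g10).resolve_right hD
      have r11 := sub_eq_zero.1 ((mul_eq_zero.1 g11).resolve_right hD)
      ext i j
      fin_cases i <;> fin_cases j
      · simpa using r00
      · simpa using r01
      · simpa using r10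
      · simpa using r11
  choose G hG hGp using fun h : I.map (psi F K) => mem_map88 h
  have hmul : ∀ g ∈ I, ∀ g' ∈ I, ch (g * g') = ch g * ch g' := by
    intro g hg g' hg'
    have h1 := hch (g * g') (I.mul_mem hg hg')
    rw [mul_smul, hch g' hg', smul_comm, hch g hg, smul_smul] at h1
    have h2 : (ch g' * ch g - ch (g * g')) • v = 0 := by
      rw [sub_smul, h1, sub_self]
    have h3 := (smul_eq_zero.1 h2).resolve_right hv
    linear_combination -h3
  have hinj : Function.Injective
      (fun h : I.map (psi F K) => Matrix.det (G h).1 / ch (G h) ^ 2) := by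
    intro h h' hh
    simp only at hh
    have hg := hG h
    have hg' := hG h'
    have h1 := key (G h * (G h')⁻¹) (I.mul_mem hg (I.inv_mem hg')) (by
      have h2 : ch (G h) = ch (G h * (G h')⁻¹) * ch (G h') := by
        rw [← hmul _ (I.mul_mem hg (I.inv_mem hg')) _ hg', inv_mul_cancel_right]
      have h3 : Matrix.det (G h).1 = Matrix.det (G h * (G h')⁻¹).1 * Matrix.det (G h').1 := by
        rw [← Matrix.det_mul]
        congr 1
        show _ = ((G h * (G h')⁻¹) * G h').1
        rw [inv_mul_cancel_right]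
      have h4 : Matrix.det (G h').1 ≠ 0 := by
        have := (Matrix.GeneralLinearGroup.det (G h')).ne_zero
        exact this
      rw [h2, h3, div_eq_div_iff (pow_ne_zero 2 (by rw [← h2]; exact hch0 _ hg))
        (pow_ne_zero 2 (hch0 _ hg'))] at hh
      have h5 : ch (G h') ^ 2 * Matrix.det (G h').1 *
          (Matrix.det (G h * (G h')⁻¹).1 - ch (G h * (G h')⁻¹) ^ 2) = 0 := by
        linear_combination hh
      have h6 := (mul_eq_zero.1 h5).resolve_left (mul_ne_zero (pow_ne_zero 2 (hch0 _ hg')) h4)
      exact sub_eq_zero.1 h6)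
    apply Subtype.ext
    rw [← hGp h, ← hGp h']
    rw [map_mul, map_inv] at h1
    exact mul_inv_eq_one.1 h1
  exact Nat.card_le_card_of_injective _ hinj

end

theorem d288 : StD2 := by
  intro F K _ _ _ _ _ I hq hbig
  classical
  have : Fintype F := Fintype.ofFinite F
  let p := ringChar F
  have : CharP F p := ringChar.charP F
  have hp : p.Prime := CharP.char_is_prime F p
  have hD : DAct (I.map (psi F K)) (PX K) p := pgl16 F K p hp _
  have hsmall : ¬ Nat.card (I.map (psi F K)) ≤ (Nat.card F + 1) * 2 := by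
    intro h
    have h1 : Nat.card (I.map (psi F K)) ^ 2 ≤ ((Nat.card F + 1) * 2) ^ 2 :=
      Nat.pow_le_pow_left h 2
    generalize Nat.card F = q at *
    nlinarith
  rcases dick88 (I.map (psi F K)) (PX K) p hp hD with hA | hB | hC | hE
  · obtain ⟨x, hx⟩ := hA
    by_cases hr : Rat F K x
    · left
      obtain ⟨v, hv, hv1, rfl⟩ := hr
      have hI : ∀ g ∈ I, ∃ a : F, g • v = a • v := by
        intro g hg
        have h1 : psi F K g (Projectivization.mk K (up F K v) hv1) =
            Projectivization.mk K (up F K v) hv1 := hx ⟨psi F K g, ⟨g, hg, rfl⟩⟩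
        have h2 : g • v ≠ 0 := (smul_ne_zero_iff_ne g).2 hv
        rw [psi_up g hv1 (up_ne h2)] at h1
        exact mk_up_eq _ _ h1
      refine ⟨v, hv, hI, ?_⟩
      by_contra hcon
      push Not at hcon
      apply hsmall
      refine (torus88 I v hv hI (fun g hg hw => ?_)).trans (by omega)
      by_contra hg1
      obtain ⟨w, hw1, hw2⟩ := hcon g hg hg1
      obtain ⟨b, hb⟩ := hw w hw1
      exact hw2 b hb
    · exfalso
      exact hsmall ((irr88 I x (fun h => hx h) hr).trans (by omega))
  · exfalso
    obtain ⟨x, y, hxy, -, hst⟩ := hB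
    exact hsmall (pair88 I hD (by omega) x y hxy (fun h => hst h))
  · exfalso
    exact hsmall (hC.trans (by omega))
  · obtain ⟨x, y, d, hxy, hU, hcard, hd, hdT, hHB⟩ := hE
    have hZrat : ∀ z : PX K, 1 < Uc (I.map (psi F K)) z → Rat F K z := by
      intro z hz
      obtain ⟨⟨h, hh⟩, hh3⟩ := one_lt_card_ex hz ⟨1, Or.inl rfl⟩
      have hne : h ≠ 1 := by
        intro h1
        apply hh3
        apply Subtype.ext
        exact h1
      obtain ⟨g, hg, hgh⟩ := mem_map88 h
      have hg1 : psi F K g ≠ 1 := by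
        intro h1
        apply hne
        apply Subtype.ext
        rw [← hgh, h1]
        rfl
      rcases hh with hh | hh
      · exact absurd hh hne
      · refine (rat51 F K g hg1).1 z (fun y => ?_)
        rw [hgh]
        exact hh y
    obtain ⟨hs1, hs2, hs3⟩ := PL.syl88 (I.map (psi F K)) (PX K) p hp hD x hU
    have hZfin : {z : PX K | 1 < Uc (I.map (psi F K)) z}.Finite := by
      apply Set.finite_of_ncard_pos
      omega
    rcases Sub25.sub25 F K _ x y d hxy hU hd hdT with hQ | hQ
    · right
      have hall : ∀ z : PX K, Rat F K z → 1 < Uc (I.map (psi F K)) z := by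
        by_contra hcon
        push Not at hcon
        obtain ⟨z, hz1, hz2⟩ := hcon
        have h1 : insert z {z : PX K | 1 < Uc (I.map (psi F K)) z} ⊆ Set.range (rp F K) := by
          rintro w (rfl | hw)
          · exact (rat_iff _).1 hz1
          · exact (rat_iff _).1 (hZrat w hw)
        have h2 : (Set.range (rp F K)).ncard = Fintype.card F + 1 := by
          rw [← Set.image_univ, Set.ncard_image_of_injective _ rp_inj, Set.ncard_univ,
            Nat.card_eq_fintype_card, Fintype.card_option]
        have h3 := Set.ncard_le_ncard h1 (Set.finite_range _)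
        rw [Set.ncard_insert_of_notMem (by
          show ¬ (1 < Uc (I.map (psi F K)) z)
          omega) hZfin, hcard, hQ, Nat.card_eq_fintype_card] at h3
        omega
      have hUall : ∀ z : PX K, Rat F K z → Uc (I.map (psi F K)) z = Nat.card F := by
        intro z hz
        obtain ⟨h, rfl⟩ := (hs1 z).1 (hall z hz)
        rw [Uc_smul, hQ]
      exact full1 F K I hUall
    · exfalso
      have hTle : Tc (I.map (psi F K)) x y ≤ Uc (I.map (psi F K)) x - 1 := by
        rw [← hdT]
        rcases hd with rfl | rfl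
        · omega
        · omega
      have h1 : Nat.card (I.map (psi F K)) ≤ Uc (I.map (psi F K)) x ^ 3 := by
        rw [hHB]
        generalize Uc (I.map (psi F K)) x = Q at *
        generalize Tc (I.map (psi F K)) x y = T at *
        obtain ⟨r, rfl⟩ : ∃ r, Q = r + 1 := ⟨Q - 1, by omega⟩
        have h2 : T ≤ r := by omega
        calc (r + 1 + 1) * ((r + 1) * T) ≤ (r + 1 + 1) * ((r + 1) * r) := by gcongr
          _ ≤ (r + 1) ^ 3 := by nlinarith
      have h2 : Nat.card (I.map (psi F K)) ^ 2 ≤ Nat.card F ^ 3 :=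
        calc Nat.card (I.map (psi F K)) ^ 2 ≤ (Uc (I.map (psi F K)) x ^ 3) ^ 2 :=
              Nat.pow_le_pow_left h1 2
          _ = (Uc (I.map (psi F K)) x ^ 2) ^ 3 := by ring
          _ ≤ Nat.card F ^ 3 := Nat.pow_le_pow_left hQ 3
      omega

end

end SpreadPerm.LG
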