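import Pool.Agent.Lib.MP_e6ed9e_al.LG.Defs3

/-!
# All groups with socle `PSL(n,q)`, `n ≥ 3`: statements of the modules
-/

namespace SpreadPerm.LG

open Module MulAction

noncomputable section

section
variable {F V G : Type} [Field F] [AddCommGroup V] [Module F V] [Group G]

/-- `g` acts on the subspaces as the semilinear bijection `f`. -/
def Ind (ρ : G →* Equiv.Perm (Submodule F V)) (g : G) (f : Equiv.Perm V) : Prop :=
  f ∈ GamL F V ∧ ∀ (W : Submodule F V) (v : V), f v ∈ ρ g W ↔ v ∈ W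

/-- `g` acts on the subspaces as a correlation: a semilinear bijection of `V` to its dual and
annihilators. -/
def Cor (ρ : G →* Equiv.Perm (Submodule F V)) (g : G) : Prop :=
  ∃ (τ : F ≃+* F) (f : V ≃ (V →ₗ[F] F)), (∀ v w, f (v + w) = f v + f w) ∧
    (∀ (a : F) (v : V), f (a • v) = τ a • f v) ∧
    ∀ (W : Submodule F V) (v : V), v ∈ ρ g W ↔ ∀ w ∈ W, f w v = 0

end

/-- A group with socle `PSL(V)`, acting on the subspaces of `V`, and its action on `Ω`. -/
structure Soc (F V G Ω : Type) [Field F] [AddCommGroup V] [Module F V] [Group G] [MulAction G Ω]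
    (ρ : G →* Equiv.Perm (Submodule F V)) : Prop where
  geo : ∀ g : G, (∃ f : Equiv.Perm V, Ind ρ g f) ∨ Cor ρ g
  sl : ∀ s : V ≃ₗ[F] V, LinearEquiv.det s = 1 → ∃ g : G, Ind ρ g (toA F V s)
  ker : ∀ g : G, ρ g = 1 → ∀ ω : Ω, g • ω = ω
  nt : ∃ (g : G) (s : V ≃ₗ[F] V), LinearEquiv.det s = 1 ∧ Ind ρ g (toA F V s) ∧ ∃ ω : Ω, g • ω ≠ ω

/-- The semilinear maps which induce elements of the stabilizer of `ω`. -/
def StabL {F V G Ω : Type} [Field F] [AddCommGroup V] [Module F V] [Group G] [MulAction G Ω]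
    (ρ : G →* Equiv.Perm (Submodule F V)) (ω : Ω) : Subgroup (Equiv.Perm V) where
  carrier := {f | ∃ g : G, g • ω = ω ∧ Ind ρ g f}
  one_mem' := ⟨1, one_smul G ω, (GamL F V).one_mem, fun W v => by rw [map_one]; rfl⟩
  mul_mem' := by
    rintro f f' ⟨g, hg, h1, h2⟩ ⟨g', hg', h1', h2'⟩
    refine ⟨g * g', by rw [mul_smul, hg', hg], (GamL F V).mul_mem h1 h1', fun W v => ?_⟩
    rw [map_mul]
    show f (f' v) ∈ ρ g (ρ g' W) ↔ _
    rw [h2, h2']
  inv_mem' := by
    rintro f ⟨g, hg, h1, h2⟩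
    refine ⟨g⁻¹, by rw [inv_smul_eq_iff, hg], (GamL F V).inv_mem h1, fun W v => ?_⟩
    rw [map_inv, ← h2]
    show f (f.symm v) ∈ ρ g ((ρ g).symm W) ↔ _
    rw [Equiv.apply_symm_apply, Equiv.apply_symm_apply]

/-- Flag: a very large subgroup does not fix a point and a hyperplane. -/
def StFlag : Prop := ∀ (F V : Type) [Field F] [Finite F] [AddCommGroup V] [Module F V] [Finite V]
  (H : Subgroup (V ≃ₗ[F] V)) (c : ℕ), 1 ≤ c → 100 * c ^ 2 ≤ Nat.card F → 3 ≤ finrank F V →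
  Big c H → FixPt H → FixHyp H → False

/-- BigA: a subgroup which is not transitive on the points (hyperplanes) is very large. -/
def StBigA : Prop := ∀ (F V : Type) [Field F] [Finite F] [AddCommGroup V] [Module F V] [Finite V]
  (L : Subgroup (Equiv.Perm V)) (c : ℕ), 3 ≤ finrank F V → L ≤ GamL F V → MDA F c L →
  (FixPtA F L ∨ FixHypA F L) → Big c (lin F L)

/-- MdlG: the dimension bound. -/
def StMdlG : Prop := ∀ (F V G Ω : Type) [Field F] [Finite F] [AddCommGroup V] [Module F V]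
  [Finite V] [Group G] [Finite G] [Fintype Ω] [MulAction G Ω] [IsPretransitive G Ω]
  (ρ : G →* Equiv.Perm (Submodule F V)), Soc F V G Ω ρ → 3 ≤ finrank F V → Spreading G Ω →
  ∀ ω : Ω, MDA F (4 * finrank F V ^ 3 * (Nat.log 2 (Nat.card F) + 1)) (StabL ρ ω)

/-- CorG: if there is a correlation, there is one in the stabilizer of `ω`. -/
def StCorG : Prop := ∀ (F V G Ω : Type) [Field F] [Finite F] [AddCommGroup V] [Module F V]
  [Finite V] [Group G] [Finite G] [Fintype Ω] [MulAction G Ω] [IsPretransitive G Ω]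
  (ρ : G →* Equiv.Perm (Submodule F V)), Soc F V G Ω ρ → 3 ≤ finrank F V →
  ∀ ω : Ω, IsCoatom (stabilizer G ω) → (∃ g, Cor ρ g) → ∃ g, g • ω = ω ∧ Cor ρ g

/-- FixG: a correlation in the stabilizer of `ω` maps fixed points to fixed hyperplanes. -/
def StFixG : Prop := ∀ (F V G Ω : Type) [Field F] [Finite F] [AddCommGroup V] [Module F V]
  [Finite V] [Group G] [Finite G] [Fintype Ω] [MulAction G Ω] [IsPretransitive G Ω]
  (ρ : G →* Equiv.Perm (Submodule F V)), Soc F V G Ω ρ → 3 ≤ finrank F V →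
  ∀ (ω : Ω) (g : G), g • ω = ω → Cor ρ g →
  (FixPtA F (StabL ρ ω) ↔ FixHypA F (StabL ρ ω))

/-- Pt2G -/
def StPt2G : Prop := ∀ (F V G Ω : Type) [Field F] [Finite F] [AddCommGroup V] [Module F V]
  [Finite V] [Group G] [Finite G] [Fintype Ω] [MulAction G Ω] [IsPretransitive G Ω]
  (ρ : G →* Equiv.Perm (Submodule F V)), Soc F V G Ω ρ → 3 ≤ finrank F V →
  (∀ g, ∃ f : Equiv.Perm V, Ind ρ g f) →
  ∀ ω : Ω, IsCoatom (stabilizer G ω) → FixPtA F (StabL ρ ω) → IsMultiplyPretransitive G Ω 2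

/-- Hy2G -/
def StHy2G : Prop := ∀ (F V G Ω : Type) [Field F] [Finite F] [AddCommGroup V] [Module F V]
  [Finite V] [Group G] [Finite G] [Fintype Ω] [MulAction G Ω] [IsPretransitive G Ω]
  (ρ : G →* Equiv.Perm (Submodule F V)), Soc F V G Ω ρ → 3 ≤ finrank F V →
  (∀ g, ∃ f : Equiv.Perm V, Ind ρ g f) →
  ∀ ω : Ω, IsCoatom (stabilizer G ω) → FixHypA F (StabL ρ ω) → IsMultiplyPretransitive G Ω 2

/-- MainG: **all groups with socle `PSL(n,q)`.** -/
def StMainG : Prop := ∀ (F V G Ω : Type) [Field F] [Finite F] [AddCommGroup V] [Module F V]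
  [Finite V] [Group G] [Finite G] [Fintype Ω] [MulAction G Ω] [IsPretransitive G Ω]
  (ρ : G →* Equiv.Perm (Submodule F V)), Soc F V G Ω ρ → 3 ≤ finrank F V →
  1600 * finrank F V ^ 6 * (Nat.log 2 (Nat.card F) + 1) ^ 2 ≤ Nat.card F → Spreading G Ω →
  IsMultiplyPretransitive G Ω 2 ∧ ∀ g, ∃ f : Equiv.Perm V, Ind ρ g f

end

end SpreadPerm.LG
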