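import Pool.Agent.Lib.MP_e6ed9e_al.LG.Defs

/-!
# Row FOUR: no perspectivities, and `I_x` contains all transvections

A transvection `1 + φ ⊗ w` of `V ⧸ ⟨x⟩` is a commutator of transvections, so it lifts to an element
`T` of `H` which fixes `x`.  Two such lifts commute if their images commute.  For `u` in the kernel
of `φ` take `σ = diag (z, z, z⁻²)` on `w, y, u`; it commutes with `1 + φ ⊗ w`, and this gives
`T v = v` for `v` over `u`, up to the center.  So `T` is a transvection.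
-/

set_option autoImplicit false

namespace SpreadPerm.LG

open Module

noncomputable section

namespace Four14

section
variable {F Q : Type} [Field F] [AddCommGroup Q] [Module F Q]

/-- `v ↦ v + φ(v) w` -/
def tv (φ : Q →ₗ[F] F) (w : Q) : Q →ₗ[F] Q := LinearMap.id + φ.smulRight w

@[simp] theorem tv_apply (φ : Q →ₗ[F] F) (w v : Q) : tv φ w v = v + φ v • w := rfl

theorem ex_u [Finite Q] (h3 : 3 ≤ finrank F Q) (φ : Q →ₗ[F] F) (w : Q) :
    ∃ u, φ u = 0 ∧ u ∉ (F ∙ w) := by
  by_contra hcon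
  push Not at hcon
  have h1 : LinearMap.ker φ ≤ (F ∙ w) := fun u hu => hcon u hu
  have h2' : finrank F (F ∙ w) ≤ 1 := by
    by_cases hw : w = 0
    · rw [hw, Submodule.span_zero_singleton, finrank_bot]
      omega
    · rw [finrank_span_singleton hw]
  have h2 : finrank F (LinearMap.ker φ) ≤ 1 := (Submodule.finrank_mono h1).trans h2'
  have h4 := LinearMap.finrank_range_add_finrank_ker φ
  have h5 : finrank F (LinearMap.range φ) ≤ 1 := by
    refine (Submodule.finrank_le _).trans ?_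
    rw [finrank_self]
  omega

theorem ex_mu {w u : Q} (hu : u ∉ (F ∙ w)) : ∃ μ : Q →ₗ[F] F, μ u = 1 ∧ μ w = 0 := by
  obtain ⟨f, hf, hk⟩ := Submodule.exists_le_ker_of_notMem hu
  refine ⟨(f u)⁻¹ • f, ?_, ?_⟩
  · rw [LinearMap.smul_apply, smul_eq_mul, inv_mul_cancel₀ hf]
  · have : f w = 0 := hk (Submodule.mem_span_singleton_self w)
    rw [LinearMap.smul_apply, this, smul_zero]

/-- the product of five transvections -/
theorem five (α β : Q →ₗ[F] F) (a b : Q) (haa : α a = 1) (hab : α b = 0) (hba : β a = 0)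
    (hbb : β b = 1) (z : F) (hz : z ≠ 0) (v : Q) :
    tv (z • β) a (tv (-z⁻¹ • α) b (tv ((z - 1) • β) a (tv α b (tv (-β) a v)))) =
      v + ((z - 1) * α v) • a + ((z⁻¹ - 1) * β v) • b := by
  simp only [tv_apply, LinearMap.smul_apply, LinearMap.neg_apply, map_add, map_smul, smul_eq_mul,
    haa, hab, hba, hbb]
  match_scalars <;> field_simp <;> ring

end

section
variable {F V : Type} [Field F] [AddCommGroup V] [Module F V]

/-- `g` on `V ⧸ ⟨x⟩` is induced by an element of `H` which fixes `x`. -/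
def Lf (H : Subgroup (V ≃ₗ[F] V)) (x : V) (g : (V ⧸ (F ∙ x)) → (V ⧸ (F ∙ x))) : Prop :=
  ∃ h ∈ H, h x = x ∧ ∀ v, (Submodule.Quotient.mk (h v) : V ⧸ (F ∙ x)) = g (Submodule.Quotient.mk v)

theorem Lf.comp {H : Subgroup (V ≃ₗ[F] V)} {x : V} {g g' : (V ⧸ (F ∙ x)) → (V ⧸ (F ∙ x))}
    (hg : Lf H x g) (hg' : Lf H x g') : Lf H x (fun v => g (g' v)) := by
  obtain ⟨h, hH, h1, h2⟩ := hg
  obtain ⟨h', hH', h1', h2'⟩ := hg'
  refine ⟨h * h', H.mul_mem hH hH', ?_, fun v => ?_⟩
  · show h (h' x) = x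
    rw [h1', h1]
  · show Submodule.Quotient.mk (h (h' v)) = _
    rw [h2, h2']

theorem lf_tv' {H : Subgroup (V ≃ₗ[F] V)} {x : V} (hx : x ≠ 0) (hF : Full (Ix H x))
    (φ μ : (V ⧸ (F ∙ x)) →ₗ[F] F) (w u : V ⧸ (F ∙ x)) (hφw : φ w = 0) (hφu : φ u = 0)
    (hμu : μ u = 1) (hμw : μ w = 0) : Lf H x (tv φ w) := by
  obtain ⟨gA, ⟨hA, hAH, ⟨a, ha⟩, hA1⟩, gA1⟩ := hF w μ hμw
  obtain ⟨gB, ⟨hB, hBH, ⟨b, hb⟩, hB1⟩, gB1⟩ := hF u φ hφu
  have a0 : a ≠ 0 := by
    rintro rfl
    rw [zero_smul] at ha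
    exact hx ((LinearEquiv.map_eq_zero_iff hA).1 ha)
  have b0 : b ≠ 0 := by
    rintro rfl
    rw [zero_smul] at hb
    exact hx ((LinearEquiv.map_eq_zero_iff hB).1 hb)
  have key : ∀ v, (hA * hB * hA⁻¹ * hB⁻¹) (hB (hA v)) = hA (hB v) := by
    intro v
    show hA (hB (hA.symm (hB.symm (hB (hA v))))) = _
    rw [LinearEquiv.symm_apply_apply, LinearEquiv.symm_apply_apply]
  refine ⟨hA * hB * hA⁻¹ * hB⁻¹, H.mul_mem (H.mul_mem (H.mul_mem hAH hBH) (H.inv_mem hAH))
    (H.inv_mem hBH), ?_, fun v'' => ?_⟩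
  · have h1 := key x
    rw [ha, hb, map_smul, hb, map_smul, map_smul, map_smul, ha, smul_smul, smul_smul,
      mul_comm b a] at h1
    exact (smul_right_injective V (mul_ne_zero a0 b0)) h1
  · obtain ⟨v', rfl⟩ := hB.surjective v''
    obtain ⟨v, rfl⟩ := hA.surjective v'
    rw [key, ← hA1, ← hB1, gA1, gB1, ← hB1, ← hA1, gB1, gA1, tv_apply]
    simp only [map_add, map_smul, smul_eq_mul, hφw, hφu, hμu]
    module

theorem lf_tv [Finite V] {H : Subgroup (V ≃ₗ[F] V)} {x : V} (hx : x ≠ 0) (hF : Full (Ix H x))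
    (h3 : 3 ≤ finrank F (V ⧸ (F ∙ x))) (φ : (V ⧸ (F ∙ x)) →ₗ[F] F) (w : V ⧸ (F ∙ x))
    (hφw : φ w = 0) : Lf H x (tv φ w) := by
  have : Finite (V ⧸ (F ∙ x)) := Finite.of_surjective _ (Submodule.Quotient.mk_surjective _)
  obtain ⟨u, hu, huw⟩ := ex_u h3 φ w
  obtain ⟨μ, hμu, hμw⟩ := ex_mu huw
  exact lf_tv' hx hF φ μ w u hφw hu hμu hμw

/-- two lifts commute if their images commute -/
theorem comm {H : Subgroup (V ≃ₗ[F] V)} {x : V} (hx : x ≠ 0) (hP : ∀ φ ∈ P H x, φ = 0)
    {h h' : V ≃ₗ[F] V} (hH : h ∈ H) (hH' : h' ∈ H) (h1 : h x = x) (h1' : h' x = x)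
    (hc : ∀ v, (Submodule.Quotient.mk (h (h' v)) : V ⧸ (F ∙ x)) = Submodule.Quotient.mk (h' (h v)))
    (v : V) : h (h' v) = h' (h v) := by
  obtain ⟨ξ, hξ, -⟩ := ex_mu (F := F) (w := (0 : V)) (u := x)
    (fun hh => hx (by simpa using hh))
  set c : V ≃ₗ[F] V := h * h' * h⁻¹ * h'⁻¹ with hcdef
  have key : ∀ v, c (h' (h v)) = h (h' v) := by
    intro v
    show h (h' (h.symm (h'.symm (h' (h v))))) = _
    rw [LinearEquiv.symm_apply_apply, LinearEquiv.symm_apply_apply]
  have hcH : c ∈ H := H.mul_mem (H.mul_mem (H.mul_mem hH hH') (H.inv_mem hH)) (H.inv_mem hH')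
  have hmk : ∀ v, ∃ a : F, c v = v + a • x := by
    intro v''
    obtain ⟨v', rfl⟩ := h'.surjective v''
    obtain ⟨v, rfl⟩ := h.surjective v'
    have h2 := hc v
    rw [← key v, Submodule.Quotient.eq, Submodule.mem_span_singleton] at h2
    obtain ⟨a, ha⟩ := h2
    exact ⟨a, by rw [ha]; abel⟩
  have hφ : (ξ ∘ₗ ((c : V →ₗ[F] V) - LinearMap.id)) ∈ P H x := by
    refine ⟨c, hcH, fun v => ?_⟩
    obtain ⟨a, ha⟩ := hmk v
    have : (ξ ∘ₗ ((c : V →ₗ[F] V) - LinearMap.id)) v = a := by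
      simp [ha, hξ]
    rw [this, ha]
  have h0 := hP _ hφ
  have hid : ∀ v, c v = v := by
    intro v
    obtain ⟨a, ha⟩ := hmk v
    have h2 : (ξ ∘ₗ ((c : V →ₗ[F] V) - LinearMap.id)) v = a := by
      simp [ha, hξ]
    rw [h0, LinearMap.zero_apply] at h2
    rw [ha, ← h2, zero_smul, add_zero]
  rw [← key v, hid]

end

theorem four14 : StFour := by
  intro F V _ _ _ _ _ H hq h4 _ x hx hF hP
  have : Finite (V ⧸ (F ∙ x)) := Finite.of_surjective _ (Submodule.Quotient.mk_surjective _)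
  have h3 : 3 ≤ finrank F (V ⧸ (F ∙ x)) := by
    have h1 := Submodule.finrank_quotient_add_finrank (F ∙ x)
    rw [finrank_span_singleton hx] at h1
    omega
  have : Nontrivial (V ⧸ (F ∙ x)) := by
    apply Module.nontrivial_of_finrank_pos (R := F)
    omega
  -- a functional and a vector
  obtain ⟨y, hy⟩ := exists_ne (0 : V ⧸ (F ∙ x))
  obtain ⟨φ, hφy, -⟩ := ex_mu (F := F) (w := (0 : V ⧸ (F ∙ x))) (u := y) (fun hh => hy (by simpa using hh))
  obtain ⟨w, hφw, hw⟩ := ex_u h3 φ 0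
  have hw0 : w ≠ 0 := by
    rintro rfl
    exact hw (Submodule.zero_mem _)
  -- the scalar
  obtain ⟨z, hz0, hz2⟩ : ∃ z : F, z ≠ 0 ∧ z ^ 2 ≠ 1 := by
    by_contra hcon
    push Not at hcon
    classical
    have := Fintype.ofFinite F
    have h1 : (Finset.univ : Finset F) ⊆ {0, 1, -1} := by
      intro z _
      by_cases hz : z = 0
      · simp [hz]
      · have h2 := hcon z hz
        have h3' : (z - 1) * (z + 1) = 0 := by linear_combination h2
        rcases mul_eq_zero.1 h3' with h5 | h5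
        · simp [sub_eq_zero.1 h5]
        · simp [eq_neg_of_add_eq_zero_left h5]
    have h2 := Finset.card_le_card h1
    rw [Finset.card_univ, ← Nat.card_eq_fintype_card] at h2
    have h5 : ({0, 1, -1} : Finset F).card ≤ 3 := Finset.card_le_three
    omega
  have hz1 : z ≠ 1 := by
    rintro rfl
    exact hz2 (one_pow 2)
  -- the lift `T` of the transvection
  obtain ⟨T, hTH, hTx, hT⟩ := lf_tv hx hF h3 φ w hφw
  -- the elements which commute with it
  have hsig : ∀ u, φ u = 0 → u ∉ (F ∙ w) → ∃ S ∈ H, S x = x ∧ (∀ v, S (T v) = T (S v)) ∧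
      (∀ v, (Submodule.Quotient.mk v : V ⧸ (F ∙ x)) = u →
        (Submodule.Quotient.mk (S v) : V ⧸ (F ∙ x)) = (z⁻¹ ^ 2) • u) ∧
      (∀ v, (Submodule.Quotient.mk v : V ⧸ (F ∙ x)) = w →
        (Submodule.Quotient.mk (S v) : V ⧸ (F ∙ x)) = z • w) := by
    intro u hφu huw
    have hwu : w ∉ (F ∙ u) := by
      intro hh
      obtain ⟨a, ha⟩ := Submodule.mem_span_singleton.1 hh
      have a0 : a ≠ 0 := by
        rintro rfl
        rw [zero_smul] at ha
        exact hw0 ha.symm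
      exact huw (Submodule.mem_span_singleton.2 ⟨a⁻¹, by rw [← ha, smul_smul, inv_mul_cancel₀ a0,
        one_smul]⟩)
    obtain ⟨μ', hμu', hμw'⟩ := ex_mu huw
    obtain ⟨α', hαw', hαu'⟩ := ex_mu hwu
    set μ : (V ⧸ (F ∙ x)) →ₗ[F] F := μ' - (μ' y) • φ with hμ
    set α : (V ⧸ (F ∙ x)) →ₗ[F] F := α' - (α' y) • φ with hα
    have hμu : μ u = 1 := by simp [hμ, hμu', hφu]
    have hμw : μ w = 0 := by simp [hμ, hμw', hφw]
    have hμy : μ y = 0 := by simp [hμ, hφy]
    have hαw : α w = 1 := by simp [hα, hαw', hφw]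
    have hαu : α u = 0 := by simp [hα, hαu', hφu]
    have hαy : α y = 0 := by simp [hα, hφy]
    have lf2 : ∀ (γ δ : (V ⧸ (F ∙ x)) →ₗ[F] F) (a b : V ⧸ (F ∙ x)), γ a = 1 → γ b = 0 →
        δ a = 0 → δ b = 1 →
        Lf H x (fun v => v + ((z - 1) * γ v) • a + ((z⁻¹ - 1) * δ v) • b) := by
      intro γ δ a b h1 h2 h5 h6
      have e1 := lf_tv hx hF h3 (z • δ) a (by simp [h5])
      have e2 := lf_tv hx hF h3 (-z⁻¹ • γ) b (by simp [h2])
      have e3 := lf_tv hx hF h3 ((z - 1) • δ) a (by simp [h5])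
      have e4 := lf_tv hx hF h3 γ b h2
      have e5 := lf_tv hx hF h3 (-δ) a (by simp [h5])
      have e6 := e1.comp (e2.comp (e3.comp (e4.comp e5)))
      have e7 : (fun v => tv (z • δ) a (tv (-z⁻¹ • γ) b (tv ((z - 1) • δ) a
          (tv γ b (tv (-δ) a v))))) =
          fun v => v + ((z - 1) * γ v) • a + ((z⁻¹ - 1) * δ v) • b :=
        funext fun v => five γ δ a b h1 h2 h5 h6 z hz0 v
      rw [← e7]
      exact e6
    obtain ⟨S, hSH, hSx, hS⟩ := (lf2 α μ w u hαw hαu hμw hμu).comp (lf2 φ μ y u hφy hφu hμy hμu)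
    refine ⟨S, hSH, hSx, comm hx (hP x hx) hSH hTH hSx hTx fun v => ?_, fun v hv => ?_,
      fun v hv => ?_⟩
    · rw [hS, hT, hT, hS]
      simp only [tv_apply, map_add, map_smul, smul_eq_mul, hαw, hαu, hαy, hμw, hμu, hμy, hφw, hφu,
        hφy]
      match_scalars <;> field_simp <;> ring
    · rw [hS, hv]
      simp only [map_add, map_smul, smul_eq_mul, hαw, hαu, hαy, hμw, hμu, hμy, hφw, hφu,
        hφy]
      match_scalars <;> field_simp <;> ring
    · rw [hS, hv]
      simp only [map_add, map_smul, smul_eq_mul, hαw, hαu, hαy, hμw, hμu, hμy, hφw, hφu,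
        hφy]
      match_scalars <;> field_simp <;> ring
  -- `T` in coordinates
  obtain ⟨wh, hwh⟩ := Submodule.Quotient.mk_surjective (F ∙ x) w
  obtain ⟨ξ, hξ, -⟩ := ex_mu (F := F) (w := (0 : V)) (u := x) (fun hh => hx (by simpa using hh))
  set φ' : V →ₗ[F] F := φ ∘ₗ (F ∙ x).mkQ with hφ'
  have hφ'v : ∀ v, φ' v = φ (Submodule.Quotient.mk v) := fun v => rfl
  set θ : V →ₗ[F] F := ξ ∘ₗ ((T : V →ₗ[F] V) - LinearMap.id - φ'.smulRight wh) with hθ
  have hTv : ∀ v, T v = v + φ' v • wh + θ v • x := by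
    intro v
    have h1 := hT v
    have h2 : (Submodule.Quotient.mk (T v) : V ⧸ (F ∙ x)) =
        Submodule.Quotient.mk (v + φ' v • wh) := by
      rw [h1, tv_apply, ← hwh, Submodule.Quotient.mk_add, Submodule.Quotient.mk_smul, hφ'v]
    rw [Submodule.Quotient.eq, Submodule.mem_span_singleton] at h2
    obtain ⟨a, ha⟩ := h2
    have h5 : θ v = a := by
      have h6 : T v - v - φ' v • wh = a • x := by rw [ha]; abel
      simp only [hθ, LinearMap.comp_apply, LinearMap.sub_apply, LinearEquiv.coe_coe,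
        LinearMap.id_apply, LinearMap.smulRight_apply]
      rw [h6, map_smul, hξ, smul_eq_mul, mul_one]
    rw [h5, ha]
    abel
  have hθ0 : ∀ v, φ' v = 0 → θ v = 0 := by
    intro v hv
    -- an element with an eigenvalue different from one
    obtain ⟨S, η, b, hη, hSx, hST, hSv⟩ : ∃ (S : V ≃ₗ[F] V) (η b : F), η ≠ 1 ∧ S x = x ∧
        (∀ v, S (T v) = T (S v)) ∧ S v = η • v + b • x := by
      by_cases hu : (Submodule.Quotient.mk v : V ⧸ (F ∙ x)) ∈ (F ∙ w)
      · obtain ⟨a, ha⟩ := Submodule.mem_span_singleton.1 hu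
        obtain ⟨u', hu1, hu2⟩ := ex_u h3 φ w
        obtain ⟨S, -, hSx, hST, -, hSw⟩ := hsig u' hu1 hu2
        have h1 := hSw wh hwh
        have h2 : (Submodule.Quotient.mk (S v) : V ⧸ (F ∙ x)) = Submodule.Quotient.mk (z • v) := by
          have h5 : (Submodule.Quotient.mk (v - a • wh) : V ⧸ (F ∙ x)) = 0 := by
            rw [Submodule.Quotient.mk_sub, Submodule.Quotient.mk_smul, hwh, ha, sub_self]
          rw [Submodule.Quotient.mk_eq_zero, Submodule.mem_span_singleton] at h5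
          obtain ⟨k, hk⟩ := h5
          have h6 : v = a • wh + k • x := by rw [hk]; abel
          rw [h6, map_add, map_smul, map_smul, hSx, Submodule.Quotient.mk_add,
            Submodule.Quotient.mk_smul, Submodule.Quotient.mk_smul, h1, smul_add,
            Submodule.Quotient.mk_add, Submodule.Quotient.mk_smul, Submodule.Quotient.mk_smul,
            Submodule.Quotient.mk_smul, Submodule.Quotient.mk_smul, hwh,
            (Submodule.Quotient.mk_eq_zero _).2 (Submodule.mem_span_singleton_self x)]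
          module
        rw [Submodule.Quotient.eq, Submodule.mem_span_singleton] at h2
        obtain ⟨b, hb⟩ := h2
        exact ⟨S, z, b, hz1, hSx, hST, by rw [hb]; abel⟩
      · obtain ⟨S, -, hSx, hST, hSu, -⟩ := hsig _ hv hu
        have h1 : (Submodule.Quotient.mk (S v) : V ⧸ (F ∙ x)) =
            (z⁻¹ ^ 2) • (Submodule.Quotient.mk v : V ⧸ (F ∙ x)) := hSu v rfl
        rw [← Submodule.Quotient.mk_smul, Submodule.Quotient.eq,
          Submodule.mem_span_singleton] at h1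
        obtain ⟨b, hb⟩ := h1
        refine ⟨S, z⁻¹ ^ 2, b, fun hh => hz2 ?_, hSx, hST, by rw [hb]; abel⟩
        rw [inv_pow, inv_eq_one] at hh
        exact hh
    have h1 := hST v
    have h2 : φ' x = 0 := by
      rw [hφ'v, (Submodule.Quotient.mk_eq_zero _).2 (Submodule.mem_span_singleton_self x),
        map_zero]
    have h5 : θ x = 0 := by
      have h6 := hTv x
      rw [hTx, h2, zero_smul, add_zero] at h6
      have h7 : θ x • x = 0 := by
        have := congrArg (fun t => t - x) h6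
        simpa using this.symm
      exact (smul_eq_zero.1 h7).resolve_right hx
    rw [hTv v, hv, zero_smul, add_zero, map_add, map_smul, hSx, hSv, hTv (η • v + b • x), map_add,
      map_add, map_smul, map_smul, map_smul, map_smul, hv, h2, h5] at h1
    have h6 : (θ v * (1 - η)) • x = 0 := by
      have h7 := congrArg (fun t => t - (η • v + b • x)) h1
      simp only [smul_eq_mul, mul_zero, add_zero, zero_smul, add_sub_cancel_left] at h7
      rw [mul_sub, mul_one, sub_smul, h7, mul_comm, sub_self]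
    rcases mul_eq_zero.1 ((smul_eq_zero.1 h6).resolve_right hx) with h7 | h7
    · exact h7
    · exact absurd (sub_eq_zero.1 h7).symm hη
  -- `T` is a transvection
  obtain ⟨yh, hyh⟩ := Submodule.Quotient.mk_surjective (F ∙ x) y
  have hyφ : φ' yh = 1 := by rw [hφ'v, hyh, hφy]
  have hθφ : ∀ v, θ v = φ' v * θ yh := by
    intro v
    have h1 := hθ0 (v - φ' v • yh) (by rw [map_sub, map_smul, hyφ, smul_eq_mul, mul_one, sub_self])
    rw [map_sub, map_smul, smul_eq_mul, sub_eq_zero] at h1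
    exact h1
  have hmem : φ' ∈ P H (wh + θ yh • x) := by
    refine ⟨T, hTH, fun v => ?_⟩
    rw [hTv v, hθφ v]
    module
  have hne : wh + θ yh • x ≠ 0 := by
    intro hh
    apply hw0
    have h1 := congrArg (Submodule.Quotient.mk (p := F ∙ x)) hh
    rw [Submodule.Quotient.mk_add, Submodule.Quotient.mk_smul, hwh,
      (Submodule.Quotient.mk_eq_zero _).2 (Submodule.mem_span_singleton_self x), smul_zero,
      add_zero] at h1
    simpa using h1
  have h0 := hP _ hne _ hmem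
  rw [h0, LinearMap.zero_apply] at hyφ
  exact zero_ne_one hyφ

end Four14

end

end SpreadPerm.LG
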