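import Pool.Agent.Lib.MP_e6ed9e_al.LG.Defs4

/-!
# Row FIXG of E6 LG: a correlation in the stabilizer maps fixed points to fixed hyperplanes
-/

namespace SpreadPerm.LG

open Module MulAction

noncomputable section

namespace FixG75

section
variable {F V G : Type} [Field F] [AddCommGroup V] [Module F V] [Group G]

lemma ind_bot (ρ : G →* Equiv.Perm (Submodule F V)) (g : G) (f : Equiv.Perm V)
    (h : Ind ρ g f) : ρ g ⊥ = ⊥ := by
  ext v
  have h1 := h.2 ⊥ (f.symm v)
  rw [Equiv.apply_symm_apply] at h1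
  rw [h1, Submodule.mem_bot, Submodule.mem_bot, Equiv.symm_apply_eq, GamL_zero h.1]

lemma cor_bot (ρ : G →* Equiv.Perm (Submodule F V)) (g : G) (h : Cor ρ g) : ρ g ⊥ = ⊤ := by
  obtain ⟨τ, f, hadd, hsm, hm⟩ := h
  have h0 : f 0 = 0 := by
    have := hadd 0 0
    rw [add_zero] at this
    exact left_eq_add.1 this
  ext v
  rw [hm]
  simp [h0]

lemma cor_anti (ρ : G →* Equiv.Perm (Submodule F V)) (g : G) (h : Cor ρ g)
    (W W' : Submodule F V) (hW : W ≤ W') : ρ g W' ≤ ρ g W := by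
  obtain ⟨τ, f, hadd, hsm, hm⟩ := h
  intro v hv
  rw [hm] at hv ⊢
  exact fun w hw => hv w (hW hw)

/-- the inverse of a correlation is a correlation -/
lemma cor_inv [Nontrivial V] (ρ : G →* Equiv.Perm (Submodule F V))
    (geo : ∀ g : G, (∃ f : Equiv.Perm V, Ind ρ g f) ∨ Cor ρ g) (g : G) (h : Cor ρ g) :
    Cor ρ g⁻¹ := by
  rcases geo g⁻¹ with ⟨f, hf⟩ | h1
  · exfalso
    have h2 := ind_bot ρ g⁻¹ f hf
    have h3 := cor_bot ρ g h
    have h4 : ρ g (ρ g⁻¹ ⊥) = ⊥ := by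
      rw [← Equiv.Perm.mul_apply, ← map_mul, mul_inv_cancel, map_one]; rfl
    rw [h2, h3] at h4
    exact top_ne_bot h4
  · exact h1

/-- conjugation by a correlation preserves the semilinear elements -/
lemma conj_ind [Nontrivial V] (ρ : G →* Equiv.Perm (Submodule F V))
    (geo : ∀ g : G, (∃ f : Equiv.Perm V, Ind ρ g f) ∨ Cor ρ g) (g s : G) (h : Cor ρ g)
    (l : Equiv.Perm V) (hs : Ind ρ s l) : ∃ l' : Equiv.Perm V, Ind ρ (g⁻¹ * s * g) l' := by
  rcases geo (g⁻¹ * s * g) with h1 | h1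
  · exact h1
  · exfalso
    have hi := cor_inv ρ geo g h
    have h2 := cor_bot ρ _ h1
    have h3 : ρ g ⊥ = ⊤ := cor_bot ρ g h
    have h4 : ρ s ⊤ = ⊤ := by
      ext v
      have h1 := hs.2 ⊤ (l.symm v)
      rw [Equiv.apply_symm_apply] at h1
      rw [h1]
      simp
    have h5 : ρ g⁻¹ ⊤ = ⊥ := by
      rw [← h3, ← Equiv.Perm.mul_apply, ← map_mul, inv_mul_cancel, map_one]; rfl
    have h6 : ρ (g⁻¹ * s * g) ⊥ = ρ g⁻¹ (ρ s (ρ g ⊥)) := by
      rw [map_mul, map_mul]; rfl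
    rw [h6, h3, h4, h5] at h2
    exact bot_ne_top h2

/-- fixed by the semilinear elements of the stabilizer -/
def Fx {Ω : Type} [MulAction G Ω] (ρ : G →* Equiv.Perm (Submodule F V)) (ω : Ω)
    (W : Submodule F V) : Prop := ∀ s : G, s • ω = ω → ∀ l : Equiv.Perm V, Ind ρ s l → ρ s W = W

lemma fx_map {Ω : Type} [MulAction G Ω] [Nontrivial V] (ρ : G →* Equiv.Perm (Submodule F V))
    (geo : ∀ g : G, (∃ f : Equiv.Perm V, Ind ρ g f) ∨ Cor ρ g) (ω : Ω) (g : G) (hg : g • ω = ω)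
    (h : Cor ρ g) (W : Submodule F V) (hW : Fx ρ ω W) : Fx ρ ω (ρ g W) := by
  intro s hs l hl
  obtain ⟨l', hl'⟩ := conj_ind ρ geo g s h l hl
  have hω : (g⁻¹ * s * g) • ω = ω := by
    rw [mul_smul, mul_smul, hg, hs, inv_smul_eq_iff, hg]
  have h1 := hW _ hω l' hl'
  have h2 : ρ g (ρ (g⁻¹ * s * g) W) = ρ s (ρ g W) := by
    rw [← Equiv.Perm.mul_apply, ← map_mul, ← Equiv.Perm.mul_apply, ← map_mul]
    congr 2
    group
  rw [← h2, h1]

lemma fx_pt {Ω : Type} [MulAction G Ω] (ρ : G →* Equiv.Perm (Submodule F V)) (ω : Ω) (x : V)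
    (h : ∀ l ∈ StabL ρ ω, ∃ a : F, l x = a • x) : Fx ρ ω (F ∙ x) := by
  have key : ∀ l ∈ StabL ρ ω, ∀ v ∈ F ∙ x, l v ∈ F ∙ x := by
    intro l hl v hv
    obtain ⟨b, rfl⟩ := Submodule.mem_span_singleton.1 hv
    obtain ⟨a, ha⟩ := h l hl
    obtain ⟨s, _, hs⟩ := hl
    obtain ⟨⟨_, σ, hσ⟩, _⟩ := hs
    rw [hσ, ha, smul_smul]
    exact Submodule.mem_span_singleton.2 ⟨_, rfl⟩
  intro s hs l hl
  have hlm : l ∈ StabL ρ ω := ⟨s, hs, hl⟩
  ext v
  have h1 := hl.2 (F ∙ x) (l.symm v)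
  rw [Equiv.apply_symm_apply] at h1
  rw [h1]
  constructor
  · intro h2
    have := key l hlm _ h2
    rwa [Equiv.apply_symm_apply] at this
  · intro h2
    exact key l⁻¹ ((StabL ρ ω).inv_mem hlm) v h2

lemma fx_hyp {Ω : Type} [MulAction G Ω] (ρ : G →* Equiv.Perm (Submodule F V)) (ω : Ω)
    (μ : V →ₗ[F] F) (h : ∀ l ∈ StabL ρ ω, ∀ v, μ v = 0 → μ (l v) = 0) :
    Fx ρ ω (LinearMap.ker μ) := by
  intro s hs l hl
  have hlm : l ∈ StabL ρ ω := ⟨s, hs, hl⟩
  ext v
  have h1 := hl.2 (LinearMap.ker μ) (l.symm v)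
  rw [Equiv.apply_symm_apply] at h1
  rw [h1, LinearMap.mem_ker, LinearMap.mem_ker]
  constructor
  · intro h2
    have := h l hlm _ h2
    rwa [Equiv.apply_symm_apply] at this
  · intro h2
    exact h l⁻¹ ((StabL ρ ω).inv_mem hlm) v h2

end

end FixG75

open FixG75 in
/-- Row FIXG. -/
theorem fixG75 : StFixG := by
  intro F V G Ω _ _ _ _ _ _ _ _ _ _ ρ hS hn ω g hg hc
  have hnt : Nontrivial V := by
    apply Module.nontrivial_of_finrank_pos (R := F)
    omega
  constructor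
  · rintro ⟨x, hx, hfix⟩
    have h1 := fx_map ρ hS.geo ω g hg hc _ (fx_pt ρ ω x hfix)
    have hc' := hc
    obtain ⟨τ, f, hadd, hsm, hm⟩ := hc
    have h0 : f 0 = 0 := by
      have := hadd 0 0
      rw [add_zero] at this
      exact left_eq_add.1 this
    refine ⟨f x, ?_, ?_⟩
    · intro h2
      exact hx (f.injective (h2.trans h0.symm))
    · have h3 : ∀ v, v ∈ ρ g (F ∙ x) ↔ f x v = 0 := by
        intro v
        rw [hm]
        constructor
        · intro h4
          exact h4 x (Submodule.mem_span_singleton_self x)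
        · intro h4 w hw
          obtain ⟨b, rfl⟩ := Submodule.mem_span_singleton.1 hw
          rw [hsm, LinearMap.smul_apply, h4, smul_zero]
      rintro l ⟨s, hs, hl⟩ v hv
      rw [← h3] at hv ⊢
      rw [← h1 s hs l hl, hl.2]
      exact hv
  · rintro ⟨μ, hμ, hfix⟩
    have h1 := fx_map ρ hS.geo ω g hg hc _ (fx_hyp ρ ω μ hfix)
    have hco : IsCoatom (LinearMap.ker μ) := by
      apply LinearMap.isCoatom_ker_of_surjective
      exact LinearMap.surjective hμ
    have hci := cor_inv ρ hS.geo g hc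
    have hgg : ∀ W, ρ g (ρ g⁻¹ W) = W := by
      intro W
      rw [← Equiv.Perm.mul_apply, ← map_mul, mul_inv_cancel, map_one]; rfl
    have hgg' : ∀ W, ρ g⁻¹ (ρ g W) = W := by
      intro W
      rw [← Equiv.Perm.mul_apply, ← map_mul, inv_mul_cancel, map_one]; rfl
    have htop : ρ g ⊤ = ⊥ := by
      have := cor_bot ρ g⁻¹ hci
      rw [← this, hgg]
    have hat : IsAtom (ρ g (LinearMap.ker μ)) := by
      constructor
      · intro h2
        apply hco.1
        have h3 := hgg' (LinearMap.ker μ)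
        rw [h2, cor_bot ρ g⁻¹ hci] at h3
        exact h3.symm
      · intro W hW
        have h2 : LinearMap.ker μ < ρ g⁻¹ W := by
          refine lt_of_le_of_ne ?_ ?_
          · have := cor_anti ρ g⁻¹ hci _ _ hW.le
            rwa [hgg'] at this
          · intro h3
            apply hW.ne
            rw [h3, hgg]
        have h3 := hco.2 _ h2
        rw [← hgg W, h3, htop]
    obtain ⟨x, hx, hxW⟩ := (Submodule.ne_bot_iff _).1 hat.1
    have hsp : ρ g (LinearMap.ker μ) = F ∙ x := by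
      have h2 : (F ∙ x) ≤ ρ g (LinearMap.ker μ) := by
        rw [Submodule.span_singleton_le_iff_mem]
        exact hx
      rcases hat.le_iff.1 h2 with h3 | h3
      · exact absurd (Submodule.span_singleton_eq_bot.1 h3) hxW
      · exact h3.symm
    refine ⟨x, hxW, ?_⟩
    rintro l ⟨s, hs, hl⟩
    have h2 : l x ∈ ρ g (LinearMap.ker μ) := by
      rw [← h1 s hs l hl, hl.2]
      exact hx
    rw [hsp] at h2
    obtain ⟨a, ha⟩ := Submodule.mem_span_singleton.1 h2
    exact ⟨a, ha.symm⟩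

end

end SpreadPerm.LG
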