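import Pool.Agent.Lib.MP_e6ed9e_al.LG.Defs4
import Pool.Agent.Lib.MP_e6ed9e_al.LG.Uniq18

/-!
# Row Flag: a very large subgroup does not fix a point and a hyperplane
-/

namespace SpreadPerm.LG

open Module MulAction

/-- Flag -/
theorem flag18 (hOrb : StOrb) : StFlag := by
  intro F V _ _ _ _ _ H c hc hq hn hbig hpt hhyp
  obtain ⟨x, hx, h1⟩ := hpt
  obtain ⟨μ, hμ, h2⟩ := hhyp
  obtain ⟨z, hz⟩ : ∃ z, μ z ≠ 0 := by
    by_contra h3
    push Not at h3
    exact hμ (LinearMap.ext h3)
  -- a functional which kills `x` and `z`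
  obtain ⟨φ, hφx, hφz, y, hφy⟩ : ∃ φ : V →ₗ[F] F, φ x = 0 ∧ φ z = 0 ∧ ∃ y, φ y ≠ 0 := by
    have hlt : finrank F (Submodule.span F (Set.range ![x, z])) < finrank F V := by
      have h3 := finrank_range_le_card (R := F) ![x, z]
      rw [Fintype.card_fin] at h3
      have h4 : finrank F (Submodule.span F (Set.range ![x, z])) =
        (Set.range ![x, z]).finrank F := rfl
      omega
    obtain ⟨y, hy⟩ : ∃ y : V, y ∉ Submodule.span F (Set.range ![x, z]) := by
      by_contra h3
      push Not at h3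
      have h4 : Submodule.span F (Set.range ![x, z]) = ⊤ := (Submodule.eq_top_iff').2 h3
      rw [h4, finrank_top] at hlt
      omega
    obtain ⟨φ, hφy, hφ⟩ := Submodule.exists_dual_map_eq_bot_of_notMem hy inferInstance
    have h3 : ∀ u ∈ Submodule.span F (Set.range ![x, z]), φ u = 0 := by
      intro u hu
      have h4 : φ u ∈ (Submodule.span F (Set.range ![x, z])).map φ :=
        Submodule.mem_map_of_mem hu
      rw [hφ] at h4
      exact h4
    exact ⟨φ, h3 x (Submodule.subset_span ⟨0, rfl⟩), h3 z (Submodule.subset_span ⟨1, rfl⟩), y, hφy⟩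
  have haz : ∀ a : F, (a • φ) z = 0 := fun a => by rw [LinearMap.smul_apply, hφz, smul_zero]
  have hmem : ∀ p : F × H, ∃ d : F, (tv18 (p.1 • φ) z (haz p.1) * p.2.1) x = d • x := by
    intro p
    obtain ⟨d, hd⟩ := h1 p.2.1 p.2.2
    refine ⟨d, ?_⟩
    show tv18 (p.1 • φ) z (haz p.1) (p.2.1 x) = d • x
    rw [hd, map_smul, tv18_apply, LinearMap.smul_apply, hφx, smul_zero, zero_smul, add_zero]
  let f : F × H → {h : V ≃ₗ[F] V // ∃ a : F, h x = a • x} := fun p =>
    ⟨tv18 (p.1 • φ) z (haz p.1) * p.2.1, hmem p⟩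
  have hf : Function.Injective f := by
    rintro ⟨a, h⟩ ⟨b, k⟩ hab
    have e1 : tv18 (a • φ) z (haz a) * h.1 = tv18 (b • φ) z (haz b) * k.1 :=
      congrArg (fun z : {h : V ≃ₗ[F] V // ∃ a : F, h x = a • x} => z.1) hab
    obtain ⟨m, hm⟩ := h2 (k.1 * h.1⁻¹) (H.mul_mem k.2 (H.inv_mem h.2))
    have e2 : ∀ v, v + (a * φ v) • z =
        (k.1 * h.1⁻¹) v + (b * φ ((k.1 * h.1⁻¹) v)) • z := by
      intro v
      have e3 : tv18 (a • φ) z (haz a) = tv18 (b • φ) z (haz b) * (k.1 * h.1⁻¹) := by
        rw [← mul_assoc, ← e1, mul_assoc, mul_inv_cancel, mul_one]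
      have e4 : tv18 (a • φ) z (haz a) v = tv18 (b • φ) z (haz b) ((k.1 * h.1⁻¹) v) :=
        congrArg (fun g : V ≃ₗ[F] V => g v) e3
      exact e4
    have e3 : ∀ v, φ ((k.1 * h.1⁻¹) v) = φ v := by
      intro v
      have := congrArg φ (e2 v)
      rw [map_add, map_add, map_smul, map_smul, hφz, smul_zero, smul_zero, add_zero,
        add_zero] at this
      exact this.symm
    have e4 : ∀ v, μ v + a * φ v * μ z = m * μ v + b * φ v * μ z := by
      intro v
      have := congrArg μ (e2 v)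
      rw [map_add, map_add, map_smul, map_smul, hm, e3] at this
      exact this
    have hm1 : m = 1 := by
      have h3 := e4 z
      rw [hφz, mul_zero, mul_zero, zero_mul, add_zero, add_zero] at h3
      have h4 : (m - 1) * μ z = 0 := by rw [sub_mul, ← h3, one_mul, sub_self]
      exact sub_eq_zero.1 ((mul_eq_zero.1 h4).resolve_right hz)
    have hba : a = b := by
      have h3 := e4 y
      rw [hm1, one_mul] at h3
      have h4 : (a - b) * (φ y * μ z) = 0 := by
        have := add_left_cancel h3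
        rw [sub_mul, ← mul_assoc, ← mul_assoc, this, sub_self]
      exact sub_eq_zero.1 ((mul_eq_zero.1 h4).resolve_right (mul_ne_zero hφy hz))
    subst hba
    have e6 : h.1 = k.1 := mul_left_cancel e1
    rw [Subtype.ext e6]
  have : Finite (V ≃ₗ[F] V) := Finite.of_injective (fun g : V ≃ₗ[F] V => (g : V → V))
    DFunLike.coe_injective
  have hcard : Nat.card F * Nat.card H ≤ Nat.card {h : V ≃ₗ[F] V // ∃ a : F, h x = a • x} := by
    rw [← Nat.card_prod]
    exact Nat.card_le_card_of_injective f hf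
  have horb := (hOrb F V H x hx).2.1
  have hb : (Nat.card F - 1) * Nat.card (V ≃ₗ[F] V) ≤
    c * (Nat.card F ^ finrank F V - 1) * Nat.card H := hbig
  have hc2 : c ≤ c ^ 2 := by nlinarith
  have hHpos : 0 < Nat.card H := Nat.card_pos
  have hq2 : 2 ≤ Nat.card F := by
    have : 1 ≤ c ^ 2 := by nlinarith
    omega
  have hQ : 0 < Nat.card F ^ finrank F V - 1 := by
    have : Nat.card F ^ 1 ≤ Nat.card F ^ finrank F V := Nat.pow_le_pow_right (by omega) (by omega)
    rw [pow_one] at this
    omega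
  have h5 : (Nat.card F ^ finrank F V - 1) * (Nat.card F * Nat.card H) ≤
      c * (Nat.card F ^ finrank F V - 1) * Nat.card H := by
    calc (Nat.card F ^ finrank F V - 1) * (Nat.card F * Nat.card H)
        ≤ (Nat.card F ^ finrank F V - 1) *
          Nat.card {h : V ≃ₗ[F] V // ∃ a : F, h x = a • x} := Nat.mul_le_mul_left _ hcard
      _ = (Nat.card F - 1) * Nat.card (V ≃ₗ[F] V) := horb.symm
      _ ≤ _ := hb
  have h6 : (Nat.card F ^ finrank F V - 1) * Nat.card H * Nat.card F ≤
      (Nat.card F ^ finrank F V - 1) * Nat.card H * c := by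
    calc _ = (Nat.card F ^ finrank F V - 1) * (Nat.card F * Nat.card H) := by ring
      _ ≤ _ := h5
      _ = _ := by ring
  have h7 := Nat.le_of_mul_le_mul_left h6 (Nat.mul_pos hQ hHpos)
  omega

end SpreadPerm.LG
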