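import Pool.Agent.Lib.MP_e6ed9e_al.LG.Defs4
import Pool.Agent.Lib.MP_e6ed9e_al.LG.Basic47

/-!
# Flag: a very large subgroup does not fix a point and a hyperplane
-/

namespace SpreadPerm.LG

open Module

/-- The transvection group `v ↦ v + a φ(v) y` is a transversal part of the cosets of `H` in the
stabilizer of `⟨x⟩`. -/
theorem flag25 (hOrb : StOrb) : StFlag := by
  intro F V _ _ _ _ _ H c hc1 hc hn hBig hPt hHyp
  haveI : Module.Finite F V := Module.Finite.of_finite
  obtain ⟨x, hx, hHx⟩ := hPt
  obtain ⟨μ, hμ, hHμ⟩ := hHyp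
  obtain ⟨y, hy⟩ : ∃ y, μ y ≠ 0 := by
    by_contra hcon
    push Not at hcon
    exact hμ (LinearMap.ext hcon)
  -- a functional which vanishes on x and y
  obtain ⟨φ, hφ0, hφ⟩ : ∃ φ : V →ₗ[F] F, φ ≠ 0 ∧ Submodule.span F {x, y} ≤ LinearMap.ker φ := by
    have hlt : Submodule.span F ({x, y} : Set V) < ⊤ := by
      refine lt_top_iff_ne_top.2 fun htop => ?_
      have h1 : finrank F (Submodule.span F ({x, y} : Set V)) ≤ 2 := by
        classical
        have h2 := finrank_span_finset_le_card (R := F) ({x, y} : Finset V)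
        rw [Finset.coe_pair] at h2
        exact h2.trans Finset.card_le_two
      rw [htop, finrank_top] at h1
      omega
    obtain ⟨f, hf0, hf⟩ := Submodule.exists_le_ker_of_lt_top _ hlt
    exact ⟨f, hf0, hf⟩
  have hφx : φ x = 0 := hφ (Submodule.subset_span (by simp))
  have hφy : φ y = 0 := hφ (Submodule.subset_span (by simp))
  obtain ⟨z, hz⟩ : ∃ z, φ z ≠ 0 := by
    by_contra hcon
    push Not at hcon
    exact hφ0 (LinearMap.ext hcon)
  -- the injection
  have key : Nat.card F * Nat.card H ≤ Nat.card {h : V ≃ₗ[F] V // ∃ a : F, h x = a • x} := by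
    have hap : ∀ (a : F), (a • φ) y = 0 := fun a => by
      rw [LinearMap.smul_apply, hφy, smul_zero]
    have happ : ∀ (a : F) (v : V), trv y (a • φ) (hap a) v = v + (a * φ v) • y := fun a v => rfl
    let f : F × H → {h : V ≃ₗ[F] V // ∃ a : F, h x = a • x} := fun p =>
      ⟨trv y (p.1 • φ) (hap p.1) * p.2.1, by
        obtain ⟨b, hb⟩ := hHx p.2.1 p.2.2
        refine ⟨b, ?_⟩
        show trv y (p.1 • φ) (hap p.1) (p.2.1 x) = b • x
        rw [hb, map_smul, happ, hφx, mul_zero, zero_smul, add_zero]⟩
    have hinj : Function.Injective f := by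
      rintro ⟨a, h, hh⟩ ⟨a', h', hh'⟩ heq
      have h1 : ∀ v, h v + (a * φ (h v)) • y = h' v + (a' * φ (h' v)) • y := fun v => by
        have h2 := congrArg (fun t : {h : V ≃ₗ[F] V // ∃ a : F, h x = a • x} => t.1 v) heq
        exact h2
      obtain ⟨b, hb⟩ := hHμ (h' * h⁻¹) (H.mul_mem hh' (H.inv_mem hh))
      have h3 : ∀ v, v + (a * φ v) • y = (h' * h⁻¹) v + (a' * φ ((h' * h⁻¹) v)) • y := fun v => by
        have h4 := h1 (h⁻¹ v)
        rw [app_inv] at h4
        exact h4
      have h5 : ∀ v, φ ((h' * h⁻¹) v) = φ v := fun v => by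
        have h6 := congrArg φ (h3 v)
        simp only [map_add, map_smul, hφy, smul_zero, add_zero] at h6
        exact h6.symm
      have h7 : ∀ v, v + ((a - a') * φ v) • y = (h' * h⁻¹) v := fun v => by
        have h8 := h3 v
        rw [h5] at h8
        rw [sub_mul, sub_smul, ← add_sub_assoc, h8, add_sub_cancel_right]
      have h9 : b = 1 := by
        have h10 := hb y
        rw [← h7 y, hφy, mul_zero, zero_smul, add_zero] at h10
        have h11 : (1 - b) * μ y = 0 := by rw [sub_mul, one_mul, ← h10, sub_self]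
        rcases mul_eq_zero.1 h11 with h12 | h12
        · exact (sub_eq_zero.1 h12).symm
        · exact absurd h12 hy
      have h13 : a = a' := by
        have h14 := hb z
        rw [← h7 z, h9, one_mul, map_add, map_smul, smul_eq_mul, add_eq_left] at h14
        rcases mul_eq_zero.1 h14 with h15 | h15
        · rcases mul_eq_zero.1 h15 with h16 | h16
          · exact sub_eq_zero.1 h16
          · exact absurd h16 hz
        · exact absurd h15 hy
      have h17 : h = h' := by
        ext v
        have h18 := h7 (h v)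
        rw [h13, sub_self, zero_mul, zero_smul, add_zero] at h18
        rw [h18, mul_app, inv_app]
      subst h13 h17
      rfl
    haveI : Finite (V ≃ₗ[F] V) := by
      exact Finite.of_injective (fun g : V ≃ₗ[F] V => (g : V → V)) DFunLike.coe_injective
    have h20 := Nat.card_le_card_of_injective f hinj
    rwa [Nat.card_prod] at h20
  have horb := (hOrb F V H x hx).2.1
  have hq1 : 1 < Nat.card F := Finite.one_lt_card
  have hpow : 1 < Nat.card F ^ finrank F V := Nat.one_lt_pow (by omega) hq1
  haveI : Finite (V ≃ₗ[F] V) :=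
    Finite.of_injective (fun g : V ≃ₗ[F] V => (g : V → V)) DFunLike.coe_injective
  have hH : 0 < Nat.card H := Nat.card_pos
  unfold Big at hBig
  rw [horb] at hBig
  have h1 : (Nat.card F ^ finrank F V - 1) * (Nat.card F * Nat.card H) ≤
      (Nat.card F ^ finrank F V - 1) * (c * Nat.card H) := by
    calc (Nat.card F ^ finrank F V - 1) * (Nat.card F * Nat.card H)
        ≤ (Nat.card F ^ finrank F V - 1) * Nat.card {h : V ≃ₗ[F] V // ∃ a : F, h x = a • x} :=
          Nat.mul_le_mul_left _ key
      _ ≤ c * (Nat.card F ^ finrank F V - 1) * Nat.card H := hBig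
      _ = (Nat.card F ^ finrank F V - 1) * (c * Nat.card H) := by ring
  have h2 := Nat.le_of_mul_le_mul_left h1 (by omega)
  have h3 := Nat.le_of_mul_le_mul_right h2 hH
  nlinarith

end SpreadPerm.LG
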