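import Pool.Agent.Lib.MP_e6ed9e_al.LG.Hy2_56
import Pool.Agent.Lib.MP_e6ed9e_al.LG.Defs4

/-!
# Row Hy2G: the stabilizer of a hyperplane
-/

namespace SpreadPerm.LG

open Module MulAction

theorem hy2G88 : StHy2G := by
  intro F V G Ω _ _ _ _ _ _ _ _ _ _ ρ hS hdim hgeo ω hco ⟨μ, hμ, hstab⟩
  set W : Submodule F V := LinearMap.ker μ with hW
  have hWm : ∀ v, v ∈ W ↔ μ v = 0 := fun v => LinearMap.mem_ker
  have hmem : ∀ (g : G) (f : Equiv.Perm V), Ind ρ g f → ∀ v, v ∈ ρ g W ↔ f.symm v ∈ W := by
    intro g f hf v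
    have h1 := hf.2 W (f.symm v)
    rwa [Equiv.apply_symm_apply] at h1
  have hcomp : ∀ p : G, ∃ ν : V →ₗ[F] F, ∀ v, ν v = 0 ↔ v ∈ ρ p W := by
    intro p
    obtain ⟨f, hf⟩ := hgeo p
    obtain ⟨hadd, τ, hτ⟩ := (GamL F V).inv_mem hf.1
    have hadd' : ∀ v w, f.symm (v + w) = f.symm v + f.symm w := hadd
    have hτ' : ∀ (a : F) (v : V), f.symm (a • v) = τ a • f.symm v := hτ
    refine ⟨{ toFun := fun v => τ.symm (μ (f.symm v))
              map_add' := fun v w => by rw [hadd', map_add, map_add]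
              map_smul' := fun a v => by
                rw [hτ', map_smul, smul_eq_mul, map_mul, RingEquiv.symm_apply_apply]
                rfl }, fun v => ?_⟩
    show τ.symm (μ (f.symm v)) = 0 ↔ _
    rw [map_eq_zero_iff τ.symm τ.symm.injective, hmem p f hf, hWm]
  have hsub : ∀ g : G, ρ g W = W → g • ω = ω := by
    let M : Subgroup G :=
      { carrier := {g | ρ g W = W}
        one_mem' := by
          show ρ 1 W = W
          rw [map_one]
          rfl
        mul_mem' := by
          intro g h hg hh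
          show ρ (g * h) W = W
          rw [map_mul]
          show ρ g (ρ h W) = W
          rw [show ρ h W = W from hh]
          exact hg
        inv_mem' := by
          intro g hg
          show ρ g⁻¹ W = W
          rw [map_inv]
          show (ρ g).symm W = W
          rw [Equiv.symm_apply_eq]
          exact (show ρ g W = W from hg).symm }
    have hle : stabilizer G ω ≤ M := by
      intro g hg
      obtain ⟨f, hf⟩ := hgeo g
      have hfS : f ∈ StabL ρ ω := ⟨g, hg, hf⟩
      have h1 := hstab f hfS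
      have h2 := hstab f⁻¹ ((StabL ρ ω).inv_mem hfS)
      show ρ g W = W
      ext v
      rw [hmem g f hf, hWm, hWm]
      constructor
      · intro h
        have := h1 _ h
        rwa [Equiv.apply_symm_apply] at this
      · intro h
        exact h2 v h
    have hM : M ≠ ⊤ := by
      intro htop
      obtain ⟨x, hx⟩ : ∃ x, μ x ≠ 0 := by
        by_contra hcon
        push Not at hcon
        exact hμ (LinearMap.ext hcon)
      obtain ⟨φ, hφ, hφx⟩ := Submodule.exists_le_ker_of_lt_top (F ∙ x) (by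
        rw [lt_top_iff_ne_top]
        intro h1
        have h2 := finrank_span_le_card (R := F) ({x} : Set V)
        rw [h1, finrank_top] at h2
        simp at h2
        omega)
      have hφx' : φ x = 0 := by
        have h1 := hφx (Submodule.mem_span_singleton_self x)
        rwa [LinearMap.mem_ker] at h1
      obtain ⟨g, hg⟩ := hS.sl (LinearEquiv.transvection hφx')
        (LinearEquiv.transvection.det_eq_one hφx')
      have h3 : g ∈ M := by
        rw [htop]
        exact Subgroup.mem_top _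
      have h4 : ∀ v, μ (v + φ v • x) = 0 ↔ μ v = 0 := by
        intro v
        have h5 := hg.2 W v
        rw [show ρ g W = W from h3, hWm, hWm] at h5
        exact h5
      apply hφ
      ext v
      have h5 := (h4 (v - (μ v / μ x) • x)).2 (by
        rw [map_sub, map_smul, smul_eq_mul, div_mul_cancel₀ _ hx, sub_self])
      rw [map_sub φ, map_smul φ, hφx', smul_zero, sub_zero, map_add, map_sub, map_smul,
        map_smul, smul_eq_mul, smul_eq_mul, div_mul_cancel₀ _ hx, sub_self, zero_add] at h5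
      exact (mul_eq_zero.1 h5).resolve_right hx
    have hEq : stabilizer G ω = M := by
      rcases hco.le_iff.1 hle with h | h
      · exact absurd h hM
      · exact h.symm
    intro g hg
    have : g ∈ stabilizer G ω := by
      rw [hEq]
      exact hg
    exact this
  have key : ∀ g h : G, ρ g W = ρ h W → g • ω = h • ω := by
    intro g h hc
    have h1 := hsub (h⁻¹ * g) (by
      rw [map_mul, map_inv]
      show (ρ h).symm (ρ g W) = W
      rw [hc, Equiv.symm_apply_apply])
    rw [mul_smul, inv_smul_eq_iff] at h1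
    exact h1
  have hnm : ∀ (p : G) (ν : V →ₗ[F] F), (∀ v, ν v = 0 ↔ v ∈ ρ p W) → p • ω ≠ ω →
      ∀ a : F, ν ≠ a • μ := by
    intro p ν hν hp a ha
    apply hp
    have hν0 : ν ≠ 0 := by
      rintro rfl
      obtain ⟨f, hf⟩ := hgeo p
      apply hμ
      ext v
      have h1 := (hν (f v)).1 rfl
      rw [hf.2 W v, hWm] at h1
      rw [h1]
      rfl
    have ha0 : a ≠ 0 := by
      rintro rfl
      rw [zero_smul] at ha
      exact hν0 ha
    apply hsub
    ext v
    rw [← hν, hWm, ha, LinearMap.smul_apply, smul_eq_mul, mul_eq_zero, or_iff_right ha0]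
  rw [is_two_pretransitive_iff]
  intro a b c d hab hcd
  obtain ⟨g₁, rfl⟩ := exists_smul_eq G ω a
  obtain ⟨g₂, rfl⟩ := exists_smul_eq G ω b
  obtain ⟨g₃, rfl⟩ := exists_smul_eq G ω c
  obtain ⟨g₄, rfl⟩ := exists_smul_eq G ω d
  have hp : (g₁⁻¹ * g₂) • ω ≠ ω := by
    intro h
    rw [mul_smul, inv_smul_eq_iff] at h
    exact hab h.symm
  have hr : (g₃⁻¹ * g₄) • ω ≠ ω := by
    intro h
    rw [mul_smul, inv_smul_eq_iff] at h
    exact hcd h.symm
  obtain ⟨νp, hνp⟩ := hcomp (g₁⁻¹ * g₂)
  obtain ⟨νr, hνr⟩ := hcomp (g₃⁻¹ * g₄)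
  obtain ⟨t, e, ht, he, ht1, ht2⟩ := exists_sl56 μ νp νr (hnm _ νp hνp hp) (hnm _ νr hνr hr)
  obtain ⟨s, hs⟩ := hS.sl t ht
  have hsm : ∀ (U : Submodule F V) (v : V), v ∈ ρ s U ↔ t.symm v ∈ U := by
    intro U v
    have h1 := hs.2 U (t.symm v)
    have h2 : (toA F V t) (t.symm v) = v := t.apply_symm_apply v
    rwa [h2] at h1
  have hsω : s • ω = ω := by
    apply hsub
    ext v
    rw [hsm, hWm, hWm, ← ht1 (t.symm v), LinearEquiv.apply_symm_apply]
  have hsp : (s * (g₁⁻¹ * g₂)) • ω = (g₃⁻¹ * g₄) • ω := by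
    apply key
    rw [map_mul]
    show ρ s (ρ (g₁⁻¹ * g₂) W) = _
    ext v
    rw [hsm, ← hνp, ← hνr, ← ht2 (t.symm v), LinearEquiv.apply_symm_apply, mul_eq_zero,
      or_iff_right he]
  refine ⟨g₃ * s * g₁⁻¹, ?_, ?_⟩
  · rw [smul_smul, mul_assoc, inv_mul_cancel, mul_one, mul_smul, hsω]
  · rw [smul_smul]
    have h1 : g₃ * s * g₁⁻¹ * g₂ = g₃ * (s * (g₁⁻¹ * g₂)) := by group
    rw [h1, mul_smul, hsp, smul_smul, mul_inv_cancel_left]

end SpreadPerm.LG
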