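import Pool.Agent.Lib.MP_e6ed9e_al.LG.Defs3
import Pool.Agent.Lib.MP_e6ed9e_al.LG.MDL2

/-!
# Row MdlS: the dimension bound, semilinear groups
-/

namespace SpreadPerm.LG

open Module MulAction

section

variable {F V : Type} [Field F] [Finite F] [AddCommGroup V] [Module F V] [Finite V]

omit [Finite F] [Finite V] in
theorem toA_mem2 (h : V ≃ₗ[F] V) : toA F V h ∈ GamL F V :=
  ⟨fun v w => map_add h v w, RingEquiv.refl F, fun a v => map_smul h a v⟩

theorem card_gaml2 : Nat.card (GamL F V) ≤ Nat.card F ^ (finrank F V ^ 2 + 1) := by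
  classical
  have : Fintype F := Fintype.ofFinite F
  obtain ⟨g0, hg0⟩ := IsCyclic.exists_generator (α := Fˣ)
  set n := finrank F V with hn
  let b := Module.finBasis F V
  choose σ hσ using fun g : GamL F V => g.2.2
  let f : GamL F V → F × (Fin n → V) := fun g => (σ g (g0 : F), fun i => g.1 (b i))
  have hf : Function.Injective f := by
    intro g h hgh
    have h1 : σ g (g0 : F) = σ h (g0 : F) := congrArg Prod.fst hgh
    have h2 : ∀ i, g.1 (b i) = h.1 (b i) := fun i => congrFun (congrArg Prod.snd hgh) i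
    have h3 : ∀ a : F, σ g a = σ h a := by
      intro a
      by_cases ha : a = 0
      · rw [ha, map_zero, map_zero]
      · have h4 := hg0 (Units.mk0 a ha)
        rw [← mem_powers_iff_mem_zpowers] at h4
        obtain ⟨k, hk⟩ := h4
        have h5 : a = (g0 : F) ^ k := by
          have h6 := congrArg (fun u : Fˣ => (u : F)) hk
          simpa using h6.symm
        rw [h5, map_pow, map_pow, h1]
    have hsum : ∀ (g : GamL F V) (s : Finset (Fin n)) (v : Fin n → V),
        g.1 (∑ i ∈ s, v i) = ∑ i ∈ s, g.1 (v i) := by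
      intro g s v
      induction s using Finset.induction_on with
      | empty => simpa using GamL_zero g.2
      | insert i s hi ih => rw [Finset.sum_insert hi, Finset.sum_insert hi, g.2.1, ih]
    apply Subtype.ext
    apply Equiv.ext
    intro v
    rw [← b.sum_repr v, hsum, hsum]
    refine Finset.sum_congr rfl fun i _ => ?_
    rw [hσ, hσ, h2, h3]
  have h7 := Nat.card_le_card_of_injective f hf
  refine h7.trans (le_of_eq ?_)
  rw [Nat.card_prod, Nat.card_fun, Module.natCard_eq_pow_finrank (K := F) (V := V), Nat.card_fin,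
    ← hn]
  ring

end

theorem mdlS2 : StMdlS := by
  classical
  intro F V Ω _ _ _ _ _ _ Γ _ _ hA hn3 hS ω H hH K hKG hK hHK
  have hfin : Finite (V ≃ₗ[F] V) := finite_gl2
  have hfinP : Finite (Equiv.Perm V) := inferInstance
  set n := finrank F V with hn
  set q := Nat.card F with hq
  set L := Nat.log 2 q with hL
  set N := Fintype.card Ω with hN
  have hn1 : 1 ≤ n := by omega
  have hN1 : 1 ≤ N := Fintype.card_pos_iff.2 ⟨ω⟩
  -- the subgroup of `Γ`
  have hintr : ¬ MulAction.IsPretransitive (K.subgroupOf Γ) Ω := by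
    intro htr
    apply hHK
    intro g hgG
    obtain ⟨s, hs, k, hk, rfl⟩ := hK g hgG
    have hsΓ : toA F V s ∈ Γ := hA.sl s hs
    obtain ⟨⟨k', hk'⟩, hkω⟩ := htr.exists_smul_eq ((⟨toA F V s, hsΓ⟩ : Γ)⁻¹ • ω) ω
    have hk'K : (k' : Equiv.Perm V) ∈ K := Subgroup.mem_subgroupOf.1 hk'
    have hkω' : k' • ((⟨toA F V s, hsΓ⟩ : Γ)⁻¹ • ω) = ω := hkω
    refine ⟨toA F V s * (k' : Equiv.Perm V)⁻¹, ?_, (k' : Equiv.Perm V) * k, K.mul_mem hk'K hk,
      by group⟩
    refine (hH _).2 ⟨⟨toA F V s, hsΓ⟩ * k'⁻¹, 1, one_ne_zero, ?_, fun v => ?_⟩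
    · have h9 : (⟨toA F V s, hsΓ⟩ : Γ)⁻¹ • ω = k'⁻¹ • ω := eq_inv_smul_iff.2 hkω'
      rw [mul_smul, ← h9, smul_inv_smul]
    · rw [one_smul]
      rfl
  have hb := index_bound hS (K.subgroupOf Γ) hintr
  set m := (K.subgroupOf Γ).index with hm
  have hmK : m ≤ (lin F K).index := by
    have h1 : K.relIndex Γ ≤ K.relIndex (GamL F V) :=
      Subgroup.relIndex_le_of_le_right hA.sem Subgroup.index_ne_zero_of_finite
    refine le_trans h1 ?_
    show (K.subgroupOf (GamL F V)).index ≤ _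
    rw [Subgroup.index_eq_card, Subgroup.index_eq_card]
    let f : (V ≃ₗ[F] V) ⧸ lin F K → (GamL F V) ⧸ (K.subgroupOf (GamL F V)) := fun x =>
      QuotientGroup.mk ⟨toA F V x.out, toA_mem2 _⟩
    refine Nat.card_le_card_of_surjective f fun y => ?_
    obtain ⟨⟨g, hg⟩, rfl⟩ := QuotientGroup.mk_surjective y
    obtain ⟨s, _, k, hk, hgk⟩ := hK g hg
    obtain ⟨j, hj⟩ := QuotientGroup.mk_out_eq_mul (lin F K) s
    refine ⟨QuotientGroup.mk s, ?_⟩
    show QuotientGroup.mk _ = QuotientGroup.mk _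
    rw [QuotientGroup.eq, Subgroup.mem_subgroupOf]
    show (toA F V (QuotientGroup.mk s : (V ≃ₗ[F] V) ⧸ lin F K).out)⁻¹ * g ∈ K
    rw [hj, hgk, map_mul]
    have h2 : (toA F V s * toA F V (j : V ≃ₗ[F] V))⁻¹ * (toA F V s * k) =
        (toA F V (j : V ≃ₗ[F] V))⁻¹ * k := by group
    rw [h2]
    exact K.mul_mem (K.inv_mem j.2) hk
  -- logarithm
  have hNq : N ≤ q ^ (n ^ 2 + 1) := by
    have h1 : N ≤ Nat.card Γ := by
      rw [hN, ← Nat.card_eq_fintype_card]
      exact Nat.card_le_card_of_surjective (fun g : Γ => g • ω)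
        (fun y => MulAction.exists_smul_eq Γ ω y)
    have h2 : Nat.card Γ ≤ Nat.card (GamL F V) := Subgroup.card_le_of_le hA.sem
    exact (h1.trans h2).trans card_gaml2
  have hlog : Nat.log 2 N + 1 ≤ (L + 1) * (2 * n ^ 2) := by
    have h1 : q < 2 ^ (L + 1) := Nat.lt_pow_succ_log_self (by norm_num) q
    have h2 : q ^ (n ^ 2 + 1) < 2 ^ ((L + 1) * (n ^ 2 + 1)) := by
      rw [pow_mul]
      exact Nat.pow_lt_pow_left h1 (by positivity)
    have h3 : Nat.log 2 N < (L + 1) * (n ^ 2 + 1) :=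
      Nat.log_lt_of_lt_pow (by omega) (hNq.trans_lt h2)
    have h4 : (L + 1) * (n ^ 2 + 1) ≤ (L + 1) * (2 * n ^ 2) := by
      apply Nat.mul_le_mul_left
      have : 1 ≤ n ^ 2 := Nat.one_le_pow _ _ hn1
      omega
    omega
  have hNm : N ≤ (L + 1) * (2 * n ^ 2) * m := by
    have h1 : N ^ m ≤ 2 ^ ((Nat.log 2 N + 1) * m) := by
      rw [pow_mul]
      exact Nat.pow_le_pow_left (Nat.lt_pow_succ_log_self (by norm_num) N).le m
    have h2 : N ≤ (Nat.log 2 N + 1) * m := (Nat.pow_le_pow_iff_right (by norm_num)).1 (hb.trans h1)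
    exact h2.trans (Nat.mul_le_mul_right m hlog)
  -- index of `lin F H`
  have hHi : (lin F H).index ≤ N * n := by
    obtain ⟨T, hT⟩ := decomp2 (F := F) (V := V) hn1
    choose i s a hs hg using hT
    have hΓ : ∀ g, toA F V (s g) ∈ Γ := fun g => hA.sl _ (hs g)
    let f : (V ≃ₗ[F] V) → Ω × Fin n := fun g => ((⟨toA F V (s g), hΓ g⟩ : Γ) • ω, i g)
    have hf : ∀ g g', f g = f g' → g⁻¹ * g' ∈ lin F H := by
      intro g g' hgg
      have h1 : (⟨toA F V (s g), hΓ g⟩ : Γ) • ω = (⟨toA F V (s g'), hΓ g'⟩ : Γ) • ω :=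
        congrArg Prod.fst hgg
      have h2 : i g = i g' := congrArg Prod.snd hgg
      show toA F V (g⁻¹ * g') ∈ H
      refine (hH _).2 ⟨(⟨toA F V (s g), hΓ g⟩ : Γ)⁻¹ * ⟨toA F V (s g'), hΓ g'⟩,
        ((a g)⁻¹ * a g' : Fˣ), Units.ne_zero _, ?_, fun v => ?_⟩
      · rw [mul_smul, ← h1, inv_smul_smul]
      · have h3 : g⁻¹ * g' = (sc2 F V (a g))⁻¹ * ((s g)⁻¹ * s g') * sc2 F V (a g') := by
          conv_lhs => rw [hg g, hg g', h2]
          group
        have h4 : ∀ w, (sc2 F V (a g))⁻¹ w = (((a g)⁻¹ : Fˣ) : F) • w := by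
          intro w
          show (sc2 F V (a g)).symm w = _
          rw [LinearEquiv.symm_apply_eq, sc2_apply, smul_smul, ← Units.val_mul, mul_inv_cancel,
            Units.val_one, one_smul]
        show (g⁻¹ * g') v = _
        rw [h3]
        show (sc2 F V (a g))⁻¹ (((s g)⁻¹ * s g') (sc2 F V (a g') v)) = _
        rw [h4, sc2_apply, map_smul, smul_smul, ← Units.val_mul]
        rfl
    have h5 : Function.Injective (fun x : (V ≃ₗ[F] V) ⧸ lin F H => f x.out) := by
      intro x y hxy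
      have h6 := hf _ _ hxy
      have h7 : (QuotientGroup.mk x.out : (V ≃ₗ[F] V) ⧸ lin F H) = QuotientGroup.mk y.out :=
        QuotientGroup.eq.2 h6
      rwa [QuotientGroup.out_eq', QuotientGroup.out_eq'] at h7
    have h8 := Nat.card_le_card_of_injective _ h5
    rw [Nat.card_prod, Nat.card_fin, Nat.card_eq_fintype_card (α := Ω)] at h8
    rw [Subgroup.index_eq_card]
    exact h8
  have e1 := (lin F K).index_mul_card
  have e2 := (lin F H).index_mul_card
  have hKpos : 0 < (lin F K).index := Nat.pos_of_ne_zero Subgroup.index_ne_zero_of_finite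
  have e3 : (lin F K).index * Nat.card (lin F K) ≤
      (lin F K).index * (2 * n ^ 3 * (L + 1) * Nat.card (lin F H)) := by
    calc (lin F K).index * Nat.card (lin F K) = (lin F H).index * Nat.card (lin F H) := by
          rw [e1, e2]
      _ ≤ N * n * Nat.card (lin F H) := Nat.mul_le_mul_right _ hHi
      _ ≤ ((L + 1) * (2 * n ^ 2) * m) * n * Nat.card (lin F H) := by gcongr
      _ ≤ ((L + 1) * (2 * n ^ 2) * (lin F K).index) * n * Nat.card (lin F H) := by gcongr
      _ = (lin F K).index * (2 * n ^ 3 * (L + 1) * Nat.card (lin F H)) := by ring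
  exact Nat.le_of_mul_le_mul_left e3 hKpos

end SpreadPerm.LG
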