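import Pool.Agent.Lib.MP_e6ed9e_al.LG.Defs4
import Pool.Agent.Lib.MP_e6ed9e_al.LG.MdlS2

/-!
# Row MdlG: the dimension bound, all groups with socle `PSL(n,q)`
-/

namespace SpreadPerm.LG

open Module MulAction

section

variable {F V G : Type} [Field F] [AddCommGroup V] [Module F V] [Group G]
  {ρ : G →* Equiv.Perm (Submodule F V)}

theorem ind_mul2 {g g' : G} {f f' : Equiv.Perm V} (h : Ind ρ g f) (h' : Ind ρ g' f') :
    Ind ρ (g * g') (f * f') := by
  obtain ⟨h1, h2⟩ := h
  obtain ⟨h1', h2'⟩ := h'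
  refine ⟨(GamL F V).mul_mem h1 h1', fun W v => ?_⟩
  rw [map_mul]
  show f (f' v) ∈ ρ g (ρ g' W) ↔ _
  rw [h2, h2']

theorem ind_inv2 {g : G} {f : Equiv.Perm V} (h : Ind ρ g f) : Ind ρ g⁻¹ f⁻¹ := by
  obtain ⟨h1, h2⟩ := h
  refine ⟨(GamL F V).inv_mem h1, fun W v => ?_⟩
  rw [map_inv, ← h2]
  show f (f.symm v) ∈ ρ g ((ρ g).symm W) ↔ _
  rw [Equiv.apply_symm_apply, Equiv.apply_symm_apply]

theorem ind_unique2 {g g' : G} {f : Equiv.Perm V} (h : Ind ρ g f) (h' : Ind ρ g' f) :
    ρ g = ρ g' := by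
  apply Equiv.ext
  intro W
  ext w
  obtain ⟨v, rfl⟩ := f.surjective w
  rw [h.2, h'.2]

theorem cor_bot2 {g : G} (h : Cor ρ g) : ρ g ⊥ = ⊤ := by
  obtain ⟨τ, f, h1, _, h3⟩ := h
  have h0 : f 0 = 0 := by
    have := h1 0 0
    rw [add_zero] at this
    exact left_eq_add.1 this
  rw [eq_top_iff]
  intro v _
  rw [h3]
  intro w hw
  rw [(Submodule.mem_bot F).1 hw, h0, LinearMap.zero_apply]

/-- Two types of elements. -/
theorem exists_type2 [Nontrivial V] (hgeo : ∀ g : G, (∃ f : Equiv.Perm V, Ind ρ g f) ∨ Cor ρ g) :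
    ∃ gs : G, ∀ g : G, (∃ f : Equiv.Perm V, Ind ρ g f) ∨ ∃ f : Equiv.Perm V, Ind ρ (gs⁻¹ * g) f := by
  by_cases hall : ∀ g : G, ∃ f : Equiv.Perm V, Ind ρ g f
  · exact ⟨1, fun g => Or.inl (hall g)⟩
  · push Not at hall
    obtain ⟨gs, hgs⟩ := hall
    have hcs : Cor ρ gs := by
      rcases hgeo gs with ⟨f, hf⟩ | h
      · exact absurd hf (hgs f)
      · exact h
    refine ⟨gs, fun g => ?_⟩
    rcases hgeo g with h | hc
    · exact Or.inl h
    · right
      rcases hgeo (gs⁻¹ * g) with h | hc'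
      · exact h
      · exfalso
        have e1 := cor_bot2 hcs
        have e2 := cor_bot2 hc
        have e3 := cor_bot2 hc'
        rw [map_mul, map_inv, Equiv.Perm.mul_apply, e2, Equiv.Perm.inv_def,
          Equiv.symm_apply_eq] at e3
        exact bot_ne_top ((ρ gs).injective (e1.trans e3))

theorem ind_toA_smul2 {g : G} {f : V ≃ₗ[F] V} (h : Ind ρ g (toA F V f)) (a b : Fˣ) :
    Ind ρ g (toA F V ((sc2 F V a)⁻¹ * f * sc2 F V b)) := by
  refine ⟨toA_mem2 _, fun W v => ?_⟩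
  have h1 : toA F V ((sc2 F V a)⁻¹ * f * sc2 F V b) v = ((a⁻¹ : Fˣ) : F) • ((b : F) • f v) := by
    show (sc2 F V a)⁻¹ (f (sc2 F V b v)) = _
    rw [sc2_apply, map_smul]
    show (sc2 F V a).symm _ = _
    rw [LinearEquiv.symm_apply_eq, sc2_apply, smul_smul, ← Units.val_mul, mul_inv_cancel,
      Units.val_one, one_smul]
  rw [h1, Submodule.smul_mem_iff _ (Units.ne_zero _), Submodule.smul_mem_iff _ (Units.ne_zero _)]
  exact h.2 W v

end

theorem mdlG2 : StMdlG := by
  classical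
  intro F V G Ω _ _ _ _ _ _ _ _ _ _ ρ hSoc hn3 hS ω K hKG hK hHK
  have hfin : Finite (V ≃ₗ[F] V) := finite_gl2
  have hnt : Nontrivial V := Module.nontrivial_of_finrank_pos (R := F) (by omega)
  set n := finrank F V with hn
  set q := Nat.card F with hq
  set L := Nat.log 2 q with hL
  set N := Fintype.card Ω with hN
  have hn1 : 1 ≤ n := by omega
  have hN1 : 1 ≤ N := Fintype.card_pos_iff.2 ⟨ω⟩
  have hq2 : 2 ≤ q := Finite.one_lt_card
  -- the subgroup of `G`
  let KG : Subgroup G :=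
    { carrier := {g | ∃ k ∈ K, Ind ρ g k}
      one_mem' := ⟨1, K.one_mem, (GamL F V).one_mem, fun W v => by rw [map_one]; rfl⟩
      mul_mem' := by
        rintro g g' ⟨k, hk, h⟩ ⟨k', hk', h'⟩
        exact ⟨k * k', K.mul_mem hk hk', ind_mul2 h h'⟩
      inv_mem' := by
        rintro g ⟨k, hk, h⟩
        exact ⟨k⁻¹, K.inv_mem hk, ind_inv2 h⟩ }
  have hintr : ¬ MulAction.IsPretransitive KG Ω := by
    intro htr
    apply hHK
    intro f hf
    obtain ⟨s, hs, k, hk, rfl⟩ := hK f hf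
    obtain ⟨g, hg⟩ := hSoc.sl s hs
    obtain ⟨⟨k', k1, hk1, hk'⟩, hkω⟩ := htr.exists_smul_eq (g⁻¹ • ω) ω
    have hkω' : k' • (g⁻¹ • ω) = ω := hkω
    refine ⟨toA F V s * k1⁻¹, ⟨g * k'⁻¹, ?_, ind_mul2 hg (ind_inv2 hk')⟩, k1 * k,
      K.mul_mem hk1 hk, by group⟩
    have h9 : g⁻¹ • ω = k'⁻¹ • ω := eq_inv_smul_iff.2 hkω'
    rw [mul_smul, ← h9, smul_inv_smul]
  have hb := index_bound hS KG hintr
  set m := KG.index with hm
  obtain ⟨gs, hgs⟩ := exists_type2 hSoc.geo
  -- the index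
  have hmK : m ≤ 2 * (lin F K).index := by
    have hdata : ∀ g : G, ∃ (b : Bool) (s : V ≃ₗ[F] V) (k : Equiv.Perm V), k ∈ K ∧
        Ind ρ ((if b then 1 else gs⁻¹) * g) (toA F V s * k) := by
      intro g
      rcases hgs g with ⟨f, hf⟩ | ⟨f, hf⟩
      · obtain ⟨s, _, k, hk, rfl⟩ := hK f hf.1
        exact ⟨true, s, k, hk, by simpa using hf⟩
      · obtain ⟨s, _, k, hk, rfl⟩ := hK f hf.1
        exact ⟨false, s, k, hk, by simpa using hf⟩
    choose b s k hk hI using hdata
    let φ : G → Bool × ((V ≃ₗ[F] V) ⧸ lin F K) := fun g => (b g, QuotientGroup.mk (s g))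
    have hφ : ∀ g g', φ g = φ g' → g⁻¹ * g' ∈ KG := by
      intro g g' hgg
      have h1 : b g = b g' := congrArg Prod.fst hgg
      have h2 : (QuotientGroup.mk (s g) : (V ≃ₗ[F] V) ⧸ lin F K) = QuotientGroup.mk (s g') :=
        congrArg Prod.snd hgg
      have h3 : (s g)⁻¹ * s g' ∈ lin F K := QuotientGroup.eq.1 h2
      have h4 := ind_mul2 (ind_inv2 (hI g)) (hI g')
      refine ⟨(toA F V (s g) * k g)⁻¹ * (toA F V (s g') * k g'), ?_, ?_⟩
      · have h5 : (toA F V (s g) * k g)⁻¹ * (toA F V (s g') * k g') =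
            (k g)⁻¹ * toA F V ((s g)⁻¹ * s g') * k g' := by
          rw [map_mul, map_inv]
          group
        rw [h5]
        exact K.mul_mem (K.mul_mem (K.inv_mem (hk g)) h3) (hk g')
      · have h6 : ((if b g = true then 1 else gs⁻¹) * g)⁻¹ * ((if b g' = true then 1 else gs⁻¹) * g')
            = g⁻¹ * g' := by
          rw [h1]
          group
        rwa [h6] at h4
    have h5 : Function.Injective (fun x : G ⧸ KG => φ x.out) := by
      intro x y hxy
      have h6 := hφ _ _ hxy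
      have h7 : (QuotientGroup.mk x.out : G ⧸ KG) = QuotientGroup.mk y.out :=
        QuotientGroup.eq.2 h6
      rwa [QuotientGroup.out_eq', QuotientGroup.out_eq'] at h7
    have h8 := Nat.card_le_card_of_injective _ h5
    rw [Nat.card_prod, Nat.card_eq_fintype_card (α := Bool), Fintype.card_bool] at h8
    rw [hm, Subgroup.index_eq_card, Subgroup.index_eq_card]
    exact h8
  -- logarithm
  have hNq : N ≤ q ^ (n ^ 2 + 2) := by
    have h1 : N ≤ Nat.card (Bool × GamL F V) := by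
      rw [hN, ← Nat.card_eq_fintype_card]
      let Φ : Bool × GamL F V → Ω := fun p =>
        if h : ∃ g : G, Ind ρ g (p.2 : Equiv.Perm V) then
          (if p.1 then (1 : G) else gs) • (h.choose • ω) else ω
      refine Nat.card_le_card_of_surjective Φ fun y => ?_
      obtain ⟨g, rfl⟩ := MulAction.exists_smul_eq G ω y
      have huniq : ∀ (x : G) (f : Equiv.Perm V) (hx : Ind ρ x f)
          (h : ∃ g : G, Ind ρ g f), h.choose • ω = x • ω := by
        intro x f hx h
        have e1 := ind_unique2 hx h.choose_spec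
        have e2 : ρ (h.choose⁻¹ * x) = 1 := by
          rw [map_mul, map_inv, e1, inv_mul_cancel]
        have e3 := hSoc.ker _ e2 ω
        rw [mul_smul, inv_smul_eq_iff] at e3
        exact e3.symm
      rcases hgs g with ⟨f, hf⟩ | ⟨f, hf⟩
      · refine ⟨(true, ⟨f, hf.1⟩), ?_⟩
        show (if h : ∃ g : G, Ind ρ g f then
          (if true then (1 : G) else gs) • (h.choose • ω) else ω) = g • ω
        rw [dif_pos ⟨g, hf⟩, huniq g f hf]
        simp
      · refine ⟨(false, ⟨f, hf.1⟩), ?_⟩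
        show (if h : ∃ g : G, Ind ρ g f then
          (if false then (1 : G) else gs) • (h.choose • ω) else ω) = g • ω
        rw [dif_pos ⟨_, hf⟩, huniq _ f hf]
        simp only [Bool.false_eq_true, if_false]
        rw [← mul_smul, mul_inv_cancel_left]
    rw [Nat.card_prod, Nat.card_eq_fintype_card (α := Bool), Fintype.card_bool] at h1
    refine h1.trans ?_
    calc 2 * Nat.card (GamL F V) ≤ q * q ^ (n ^ 2 + 1) := Nat.mul_le_mul hq2 card_gaml2
      _ = q ^ (n ^ 2 + 2) := by ring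
  have hlog : Nat.log 2 N + 1 ≤ (L + 1) * (2 * n ^ 2) := by
    have h1 : q < 2 ^ (L + 1) := Nat.lt_pow_succ_log_self (by norm_num) q
    have h2 : q ^ (n ^ 2 + 2) < 2 ^ ((L + 1) * (n ^ 2 + 2)) := by
      rw [pow_mul]
      exact Nat.pow_lt_pow_left h1 (by positivity)
    have h3 : Nat.log 2 N < (L + 1) * (n ^ 2 + 2) :=
      Nat.log_lt_of_lt_pow (by omega) (hNq.trans_lt h2)
    have h4 : (L + 1) * (n ^ 2 + 2) ≤ (L + 1) * (2 * n ^ 2) := by
      apply Nat.mul_le_mul_left
      have : 2 ≤ n ^ 2 := by nlinarith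
      omega
    omega
  have hNm : N ≤ (L + 1) * (2 * n ^ 2) * m := by
    have h1 : N ^ m ≤ 2 ^ ((Nat.log 2 N + 1) * m) := by
      rw [pow_mul]
      exact Nat.pow_le_pow_left (Nat.lt_pow_succ_log_self (by norm_num) N).le m
    have h2 : N ≤ (Nat.log 2 N + 1) * m := (Nat.pow_le_pow_iff_right (by norm_num)).1 (hb.trans h1)
    exact h2.trans (Nat.mul_le_mul_right m hlog)
  -- index of the linear stabilizer
  have hHi : (lin F (StabL ρ ω)).index ≤ N * n := by
    obtain ⟨T, hT⟩ := decomp2 (F := F) (V := V) hn1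
    choose i s a hs hg using hT
    choose γ hγ using fun g => hSoc.sl (s g) (hs g)
    let f : (V ≃ₗ[F] V) → Ω × Fin n := fun g => (γ g • ω, i g)
    have hf : ∀ g g', f g = f g' → g⁻¹ * g' ∈ lin F (StabL ρ ω) := by
      intro g g' hgg
      have h1 : γ g • ω = γ g' • ω := congrArg Prod.fst hgg
      have h2 : i g = i g' := congrArg Prod.snd hgg
      have h3 : g⁻¹ * g' = (sc2 F V (a g))⁻¹ * ((s g)⁻¹ * s g') * sc2 F V (a g') := by
        conv_lhs => rw [hg g, hg g', h2]
        group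
      refine ⟨(γ g)⁻¹ * γ g', by rw [mul_smul, ← h1, inv_smul_smul], ?_⟩
      rw [h3]
      apply ind_toA_smul2
      rw [map_mul, map_inv]
      exact ind_mul2 (ind_inv2 (hγ g)) (hγ g')
    have h5 : Function.Injective (fun x : (V ≃ₗ[F] V) ⧸ lin F (StabL ρ ω) => f x.out) := by
      intro x y hxy
      have h6 := hf _ _ hxy
      have h7 : (QuotientGroup.mk x.out : (V ≃ₗ[F] V) ⧸ lin F (StabL ρ ω)) =
          QuotientGroup.mk y.out := QuotientGroup.eq.2 h6
      rwa [QuotientGroup.out_eq', QuotientGroup.out_eq'] at h7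
    have h8 := Nat.card_le_card_of_injective _ h5
    rw [Nat.card_prod, Nat.card_fin, Nat.card_eq_fintype_card (α := Ω)] at h8
    rw [Subgroup.index_eq_card]
    exact h8
  have e1 := (lin F K).index_mul_card
  have e2 := (lin F (StabL ρ ω)).index_mul_card
  have hKpos : 0 < (lin F K).index := Nat.pos_of_ne_zero Subgroup.index_ne_zero_of_finite
  have e3 : (lin F K).index * Nat.card (lin F K) ≤
      (lin F K).index * (4 * n ^ 3 * (L + 1) * Nat.card (lin F (StabL ρ ω))) := by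
    calc (lin F K).index * Nat.card (lin F K)
        = (lin F (StabL ρ ω)).index * Nat.card (lin F (StabL ρ ω)) := by rw [e1, e2]
      _ ≤ N * n * Nat.card (lin F (StabL ρ ω)) := Nat.mul_le_mul_right _ hHi
      _ ≤ ((L + 1) * (2 * n ^ 2) * m) * n * Nat.card (lin F (StabL ρ ω)) := by gcongr
      _ ≤ ((L + 1) * (2 * n ^ 2) * (2 * (lin F K).index)) * n *
            Nat.card (lin F (StabL ρ ω)) := by gcongr
      _ = (lin F K).index * (4 * n ^ 3 * (L + 1) * Nat.card (lin F (StabL ρ ω))) := by ring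
  exact Nat.le_of_mul_le_mul_left e3 hKpos

end SpreadPerm.LG
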