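import Pool.Agent.Lib.MP_e6ed9e_al.LG.Pt2_56
import Pool.Agent.Lib.MP_e6ed9e_al.LG.Defs4

/-!
# Row Pt2G: the stabilizer of a point of the projective space
-/

namespace SpreadPerm.LG

open Module MulAction

section
variable {F V G : Type} [Field F] [AddCommGroup V] [Module F V] [Group G]

theorem ind_span29 {ρ : G →* Equiv.Perm (Submodule F V)} {g : G} {f : Equiv.Perm V}
    (h : Ind ρ g f) (x : V) : ρ g (F ∙ x) = F ∙ (f x) := by
  obtain ⟨⟨-, σ, hσ⟩, hf⟩ := h
  ext v
  have h1 := hf (F ∙ x) (f.symm v)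
  rw [Equiv.apply_symm_apply] at h1
  rw [h1, Submodule.mem_span_singleton, Submodule.mem_span_singleton]
  constructor
  · rintro ⟨a, ha⟩
    exact ⟨σ a, by rw [← hσ, ha, Equiv.apply_symm_apply]⟩
  · rintro ⟨a, ha⟩
    refine ⟨σ.symm a, ?_⟩
    apply f.injective
    rw [hσ, RingEquiv.apply_symm_apply, ha, Equiv.apply_symm_apply]

theorem ind_ne29 {ρ : G →* Equiv.Perm (Submodule F V)} {g : G} {f : Equiv.Perm V}
    (h : Ind ρ g f) {x : V} (hx : x ≠ 0) : f x ≠ 0 := fun h0 =>
  hx (f.injective (h0.trans (GamL_zero h.1).symm))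

end

theorem pt2G29 : StPt2G := by
  intro F V G Ω _ _ _ _ _ _ _ _ _ _ ρ hS hdim hgeo ω hco ⟨x, hx, hstab⟩
  have hsub : ∀ g : G, ρ g (F ∙ x) = F ∙ x → g • ω = ω := by
    let M : Subgroup G :=
      { carrier := {g | ρ g (F ∙ x) = F ∙ x}
        one_mem' := by
          show ρ 1 (F ∙ x) = F ∙ x
          rw [map_one]
          rfl
        mul_mem' := by
          intro g h hg hh
          show ρ (g * h) (F ∙ x) = F ∙ x
          rw [map_mul]
          show ρ g (ρ h (F ∙ x)) = F ∙ x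
          rw [show ρ h (F ∙ x) = F ∙ x from hh]
          exact hg
        inv_mem' := by
          intro g hg
          show ρ g⁻¹ (F ∙ x) = F ∙ x
          rw [map_inv]
          show (ρ g).symm (F ∙ x) = F ∙ x
          rw [Equiv.symm_apply_eq]
          exact (show ρ g (F ∙ x) = F ∙ x from hg).symm }
    have hle : stabilizer G ω ≤ M := by
      intro g hg
      obtain ⟨f, hf⟩ := hgeo g
      obtain ⟨a, ha⟩ := hstab f ⟨g, hg, hf⟩
      show ρ g (F ∙ x) = F ∙ x
      rw [ind_span29 hf, ha]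
      apply Submodule.span_singleton_smul_eq
      rw [isUnit_iff_ne_zero]
      rintro rfl
      rw [zero_smul] at ha
      exact ind_ne29 hf hx ha
    have hM : M ≠ ⊤ := by
      intro htop
      obtain ⟨y, hy⟩ : ∃ y : V, ∀ a : F, y ≠ a • x := by
        by_contra hcon
        push Not at hcon
        have h1 : finrank F V ≤ 1 := finrank_le_one x (fun w => by
          obtain ⟨a, ha⟩ := hcon w
          exact ⟨a, ha.symm⟩)
        omega
      obtain ⟨φ, hφ, hφ'⟩ := Submodule.exists_le_ker_of_notMem (p := F ∙ y) (v := x) (by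
        rw [Submodule.mem_span_singleton]
        rintro ⟨a, ha⟩
        have ha0 : a ≠ 0 := by
          rintro rfl
          rw [zero_smul] at ha
          exact hx ha.symm
        apply hy a⁻¹
        rw [← ha, inv_smul_smul₀ ha0])
      have hφy : φ y = 0 := by
        have h1 := hφ' (Submodule.mem_span_singleton_self y)
        rwa [LinearMap.mem_ker] at h1
      obtain ⟨g, hg⟩ := hS.sl (LinearEquiv.transvection hφy)
        (LinearEquiv.transvection.det_eq_one hφy)
      have h3 : g ∈ M := by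
        rw [htop]
        exact Subgroup.mem_top _
      have h4 : ρ g (F ∙ x) = F ∙ x := h3
      rw [ind_span29 hg] at h4
      have h5 : (toA F V (LinearEquiv.transvection hφy)) x ∈ F ∙ x := by
        rw [← h4]
        exact Submodule.mem_span_singleton_self _
      obtain ⟨c, hc⟩ := Submodule.mem_span_singleton.1 h5
      have hc' : x + φ x • y = c • x := hc.symm
      apply hy ((φ x)⁻¹ * (c - 1))
      have h4 : φ x • y = (c - 1) • x := by
        linear_combination (norm := module) (1 : F) • hc'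
      rw [← inv_smul_smul₀ hφ y, h4, smul_smul]
    have hEq : stabilizer G ω = M := by
      rcases hco.le_iff.1 hle with h | h
      · exact absurd h hM
      · exact h.symm
    intro g hg
    have : g ∈ stabilizer G ω := by
      rw [hEq]
      exact hg
    exact this
  have key : ∀ g h : G, ρ g (F ∙ x) = ρ h (F ∙ x) → g • ω = h • ω := by
    intro g h hc
    have h1 := hsub (h⁻¹ * g) (by
      rw [map_mul, map_inv]
      show (ρ h).symm (ρ g (F ∙ x)) = F ∙ x
      rw [hc, Equiv.symm_apply_apply])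
    rw [mul_smul, inv_smul_eq_iff] at h1
    exact h1
  have hnm : ∀ p : G, p • ω ≠ ω → ∀ f, Ind ρ p f → ∀ a : F, f x ≠ a • x := by
    intro p hp f hf a ha
    apply hp
    apply hsub
    rw [ind_span29 hf, ha]
    apply Submodule.span_singleton_smul_eq
    rw [isUnit_iff_ne_zero]
    rintro rfl
    rw [zero_smul] at ha
    exact ind_ne29 hf hx ha
  rw [is_two_pretransitive_iff]
  intro a b c d hab hcd
  obtain ⟨g₁, rfl⟩ := exists_smul_eq G ω a
  obtain ⟨g₂, rfl⟩ := exists_smul_eq G ω b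
  obtain ⟨g₃, rfl⟩ := exists_smul_eq G ω c
  obtain ⟨g₄, rfl⟩ := exists_smul_eq G ω d
  have hp : (g₁⁻¹ * g₂) • ω ≠ ω := by
    intro h
    rw [mul_smul, inv_smul_eq_iff] at h
    exact hab h.symm
  have hr : (g₃⁻¹ * g₄) • ω ≠ ω := by
    intro h
    rw [mul_smul, inv_smul_eq_iff] at h
    exact hcd h.symm
  obtain ⟨f, hf⟩ := hgeo (g₁⁻¹ * g₂)
  obtain ⟨f', hf'⟩ := hgeo (g₃⁻¹ * g₄)
  obtain ⟨t, e, ht, he, ht1, ht2⟩ := exists_slp56 x _ _ (hnm _ hp f hf) (hnm _ hr f' hf')
  obtain ⟨s, hs⟩ := hS.sl t ht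
  have hsω : s • ω = ω := by
    apply hsub
    rw [ind_span29 hs]
    show F ∙ (t x) = F ∙ x
    rw [ht1]
  have hsp : (s * (g₁⁻¹ * g₂)) • ω = (g₃⁻¹ * g₄) • ω := by
    apply key
    rw [map_mul]
    show ρ s (ρ (g₁⁻¹ * g₂) (F ∙ x)) = _
    rw [ind_span29 hf, ind_span29 hf', ind_span29 hs]
    show F ∙ (t (f x)) = _
    rw [ht2]
    exact Submodule.span_singleton_smul_eq (isUnit_iff_ne_zero.2 he) _
  refine ⟨g₃ * s * g₁⁻¹, ?_, ?_⟩
  · rw [smul_smul, mul_assoc, inv_mul_cancel, mul_one, mul_smul, hsω]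
  · rw [smul_smul]
    have h1 : g₃ * s * g₁⁻¹ * g₂ = g₃ * (s * (g₁⁻¹ * g₂)) := by group
    rw [h1, mul_smul, hsp, smul_smul, mul_inv_cancel_left]

end SpreadPerm.LG
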