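import Pool.Agent.Lib.MP_e6ed9e_al.LG.SAll47
import Pool.Agent.Lib.MP_e6ed9e_al.LG.AutC81
import Pool.Agent.Lib.MP_e6ed9e_al.LG.BigA35
import Pool.Agent.Lib.MP_e6ed9e_al.LG.CorG84
import Pool.Agent.Lib.MP_e6ed9e_al.LG.Flag25
import Pool.Agent.Lib.MP_e6ed9e_al.LG.Gen35
import Pool.Agent.Lib.MP_e6ed9e_al.LG.Hy2G88
import Pool.Agent.Lib.MP_e6ed9e_al.LG.MDLG2
import Pool.Agent.Lib.MP_e6ed9e_al.LG.Pt2G29
import Pool.Agent.Lib.MP_e6ed9e_al.LG.MainG88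

/-!
# All groups with socle `PSL(n,q)`, `n ≥ 3`
-/

namespace SpreadPerm.LG

/-- **All groups with socle `PSL(n,q)`.** -/
theorem mainG47 : StMainG := by
  exact mainG88 autC81 SAll.tts (flag25 orb47) (bigA35 orb47) mdlG2 corG84 fixG84 pt2G29 hy2G88 gen35

end SpreadPerm.LG
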