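import Pool.Agent.Lib.MP_e6ed9e_al.LG.Basic47
import Pool.Agent.Lib.MP_e6ed9e_al.LG.Defs3

/-!
# Row HomS
-/

namespace SpreadPerm.LG

open Module MulAction

theorem homS47 (pol : StPol) : StHomS := by
  intro F V _ _ _ _ _ hn H htr hE
  by_contra hcon
  push Not at hcon
  obtain ⟨x0, hx0, φ0, hφ0, hne⟩ := hcon
  have hP : ∀ x : V, ∃ μ : V →ₗ[F] F, x ≠ 0 → μ ∈ P H x ∧ μ ≠ 0 := by
    intro x
    by_cases hx : x = 0
    · exact ⟨0, fun h => absurd hx h⟩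
    obtain ⟨φ, h1, h2⟩ := htr x0 x hx0 hx ⟨φ0, hφ0, hne⟩
    exact ⟨φ, fun _ => ⟨h1, h2⟩⟩
  choose μ hμ using hP
  have hself : ∀ x, x ≠ 0 → μ x x ≠ 0 := by
    intro x hx h0
    exact (hμ x hx).2 (hE x hx _ ⟨(hμ x hx).1, h0⟩)
  apply pol F V hn μ hself
  intro x y hx hy hxy
  obtain ⟨g, hg, hgμ⟩ := (hμ x hx).1
  have hgy : g y = y := by rw [hgμ, hxy, zero_smul, add_zero]
  have hgy' : g⁻¹ y = y := by
    conv_lhs => rw [← hgy]
    exact inv_app g y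
  have h1 := P_conj hg (hμ y hy).1
  rw [hgy] at h1
  have h2 := P_prop hy (hE y hy) (hμ y hy).1 h1
  have h3 : (μ y ∘ₗ (g⁻¹ : V ≃ₗ[F] V).toLinearMap) y = μ y y := congrArg (μ y) hgy'
  rw [h3] at h2
  have h4 := smul_right_injective _ (hself y hy) h2
  have h5 := LinearMap.congr_fun h4 (g x)
  have h6 : (μ y ∘ₗ (g⁻¹ : V ≃ₗ[F] V).toLinearMap) (g x) = μ y x := congrArg (μ y) (inv_app g x)
  rw [h6, hgμ, map_add, map_smul, smul_eq_mul] at h5
  have h7 : μ x x * μ y x = 0 := by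
    have : μ y x + 0 = μ y x + μ x x * μ y x := by rw [add_zero]; exact h5
    exact (add_left_cancel this).symm
  exact (mul_eq_zero.1 h7).resolve_left (hself x hx)

end SpreadPerm.LG
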