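import Pool.Agent.Lib.MP_e6ed9e_al.LG.Hy2_56
import Pool.Agent.Lib.MP_e6ed9e_al.LG.Defs3

set_option autoImplicit false

/-! Row HY2S: the stabilizer of a hyperplane, semilinear groups. -/

namespace SpreadPerm.LG

open Module MulAction

theorem hy2S81 : StHy2S := by
  intro F V Ω _ _ _ _ _ _ Γ _ _ hA hdim ω hco ⟨μ, hμ, hstab⟩
  have hcomp : ∀ p : Γ, ∃ ν : V →ₗ[F] F, ∀ v, ν v = 0 ↔ μ ((p⁻¹).1 v) = 0 := by
    intro p
    obtain ⟨hadd, τ, hτ⟩ := hA.sem (p⁻¹).2
    refine ⟨{ toFun := fun v => τ.symm (μ ((p⁻¹).1 v))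
              map_add' := fun v w => by rw [hadd, map_add, map_add]
              map_smul' := fun a v => by
                rw [hτ, map_smul, smul_eq_mul, map_mul, RingEquiv.symm_apply_apply]
                rfl }, fun v => ?_⟩
    show τ.symm (μ ((p⁻¹).1 v)) = 0 ↔ _
    rw [map_eq_zero_iff τ.symm τ.symm.injective]
  have hsub : ∀ g : Γ, (∀ v, μ (g.1 v) = 0 ↔ μ v = 0) → g • ω = ω := by
    let M : Subgroup Γ :=
      { carrier := {g | ∀ v, μ (g.1 v) = 0 ↔ μ v = 0}
        one_mem' := fun v => Iff.rfl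
        mul_mem' := by
          rintro g h hg hh v
          show μ (g.1 (h.1 v)) = 0 ↔ _
          rw [hg, hh]
        inv_mem' := by
          rintro g hg v
          show μ (g.1.symm v) = 0 ↔ _
          rw [← hg (g.1.symm v), Equiv.apply_symm_apply] }
    have hle : stabilizer Γ ω ≤ M := fun g hg v => by
      refine ⟨fun h => ?_, hstab g hg v⟩
      have h1 := hstab g⁻¹ ((stabilizer Γ ω).inv_mem hg) (g.1 v) h
      have h2 : (g⁻¹).1 (g.1 v) = v := g.1.symm_apply_apply v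
      rwa [h2] at h1
    have hM : M ≠ ⊤ := by
      intro htop
      obtain ⟨x, hx⟩ : ∃ x, μ x ≠ 0 := by
        by_contra hcon
        push Not at hcon
        exact hμ (LinearMap.ext hcon)
      obtain ⟨φ, hφ, hφx⟩ := Submodule.exists_le_ker_of_lt_top (F ∙ x) (by
        rw [lt_top_iff_ne_top]
        intro h1
        have h2 := finrank_span_le_card (R := F) ({x} : Set V)
        rw [h1, finrank_top] at h2
        simp at h2
        omega)
      have hφx' : φ x = 0 := by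
        have h1 := hφx (Submodule.mem_span_singleton_self x)
        rwa [LinearMap.mem_ker] at h1
      have h3 : (⟨toA F V (LinearEquiv.transvection hφx'),
          hA.sl _ (LinearEquiv.transvection.det_eq_one hφx')⟩ : Γ) ∈ M := by
        rw [htop]
        exact Subgroup.mem_top _
      have h4 : ∀ v, μ (v + φ v • x) = 0 ↔ μ v = 0 := h3
      apply hφ
      ext v
      have h5 := (h4 (v - (μ v / μ x) • x)).2 (by
        rw [map_sub, map_smul, smul_eq_mul, div_mul_cancel₀ _ hx, sub_self])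
      rw [map_sub φ, map_smul φ, hφx', smul_zero, sub_zero, map_add, map_sub, map_smul,
        map_smul, smul_eq_mul, smul_eq_mul, div_mul_cancel₀ _ hx, sub_self, zero_add] at h5
      exact (mul_eq_zero.1 h5).resolve_right hx
    have hEq : stabilizer Γ ω = M := by
      rcases hco.le_iff.1 hle with h | h
      · exact absurd h hM
      · exact h.symm
    intro g hg
    have : g ∈ stabilizer Γ ω := by
      rw [hEq]
      exact hg
    exact this
  have key : ∀ g h : Γ, (∀ v, μ ((g⁻¹).1 v) = 0 ↔ μ ((h⁻¹).1 v) = 0) → g • ω = h • ω := by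
    intro g h hc
    have h1 := hsub (h⁻¹ * g) (fun v => by
      show μ ((h⁻¹).1 (g.1 v)) = 0 ↔ _
      rw [← hc]
      have h2 : (g⁻¹).1 (g.1 v) = v := g.1.symm_apply_apply v
      rw [h2])
    rw [mul_smul, inv_smul_eq_iff] at h1
    exact h1
  have hnm : ∀ (p : Γ) (ν : V →ₗ[F] F), (∀ v, ν v = 0 ↔ μ ((p⁻¹).1 v) = 0) → p • ω ≠ ω →
      ∀ a : F, ν ≠ a • μ := by
    intro p ν hν hp a ha
    apply hp
    have hν0 : ν ≠ 0 := by
      rintro rfl
      apply hμ
      ext v
      have h1 := (hν (p.1 v)).1 rfl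
      have h2 : (p⁻¹).1 (p.1 v) = v := p.1.symm_apply_apply v
      rw [h2] at h1
      rw [h1]
      rfl
    have ha0 : a ≠ 0 := by
      rintro rfl
      rw [zero_smul] at ha
      exact hν0 ha
    have h1 := key p 1 (fun v => by
      rw [← hν, ha, LinearMap.smul_apply, smul_eq_mul, mul_eq_zero, or_iff_right ha0, inv_one]
      rfl)
    rw [one_smul] at h1
    exact h1
  rw [is_two_pretransitive_iff]
  intro a b c d hab hcd
  obtain ⟨g₁, rfl⟩ := exists_smul_eq Γ ω a
  obtain ⟨g₂, rfl⟩ := exists_smul_eq Γ ω b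
  obtain ⟨g₃, rfl⟩ := exists_smul_eq Γ ω c
  obtain ⟨g₄, rfl⟩ := exists_smul_eq Γ ω d
  have hp : (g₁⁻¹ * g₂) • ω ≠ ω := by
    intro h
    rw [mul_smul, inv_smul_eq_iff] at h
    exact hab h.symm
  have hr : (g₃⁻¹ * g₄) • ω ≠ ω := by
    intro h
    rw [mul_smul, inv_smul_eq_iff] at h
    exact hcd h.symm
  obtain ⟨νp, hνp⟩ := hcomp (g₁⁻¹ * g₂)
  obtain ⟨νr, hνr⟩ := hcomp (g₃⁻¹ * g₄)
  obtain ⟨t, e, ht, he, ht1, ht2⟩ := exists_sl56 μ νp νr (hnm _ νp hνp hp) (hnm _ νr hνr hr)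
  set s : Γ := ⟨toA F V t, hA.sl t ht⟩ with hs
  have hsω : s • ω = ω := hsub s (fun v => by
    show μ (t v) = 0 ↔ _
    rw [ht1])
  have hsp : (s * (g₁⁻¹ * g₂)) • ω = (g₃⁻¹ * g₄) • ω := by
    apply key
    intro v
    rw [← hνr, mul_inv_rev]
    show μ (((g₁⁻¹ * g₂)⁻¹).1 (t.symm v)) = 0 ↔ _
    rw [← hνp, ← ht2 (t.symm v), LinearEquiv.apply_symm_apply, mul_eq_zero, or_iff_right he]
  refine ⟨g₃ * s * g₁⁻¹, ?_, ?_⟩
  · rw [smul_smul, mul_assoc, inv_mul_cancel, mul_one, mul_smul, hsω]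
  · rw [smul_smul]
    have h1 : g₃ * s * g₁⁻¹ * g₂ = g₃ * (s * (g₁⁻¹ * g₂)) := by group
    rw [h1, mul_smul, hsp, smul_smul, mul_inv_cancel_left]

end SpreadPerm.LG
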