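import Pool.Agent.Lib.MP_e6ed9e_al.LG.Defs3

/-!
Row LinI: the linear part of the image of the point stabilizer.
-/

namespace SpreadPerm.LG

open Module

namespace LinI73

variable {F V : Type} [Field F] [AddCommGroup V] [Module F V]

theorem toA_mem (h : V ≃ₗ[F] V) : toA F V h ∈ GamL F V :=
  ⟨fun v w => h.map_add v w, RingEquiv.refl F, fun a v => h.map_smul a v⟩

/-- A semilinear permutation with trivial automorphism is linear. -/
theorem exists_lin {g : Equiv.Perm V} (hadd : ∀ v w : V, g (v + w) = g v + g w)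
    (hsm : ∀ (a : F) (v : V), g (a • v) = a • g v) : ∃ h : V ≃ₗ[F] V, toA F V h = g :=
  ⟨{ g with map_add' := hadd, map_smul' := hsm }, rfl⟩

end LinI73

open LinI73 in
/-- Row LinI. -/
theorem linI73 : StLinI := by
  intro F V _ _ _ _ _ L hL hn x hx
  refine ⟨?_, ?_⟩
  · ext g
    constructor
    · rintro ⟨l, hl, ⟨hadd, σ, hσ⟩, hlx, hg⟩
      have hg' : ∀ v, g (Submodule.Quotient.mk v) = Submodule.Quotient.mk (l v) := hg
      obtain ⟨v, hv⟩ : ∃ v : V, v ∉ (F ∙ x) := by
        by_contra hcon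
        push Not at hcon
        have h1 : (F ∙ x) = ⊤ := eq_top_iff.2 fun v _ => hcon v
        have h2 := finrank_span_singleton (K := F) hx
        rw [h1, finrank_top] at h2
        omega
      have hv0 : (Submodule.Quotient.mk v : V ⧸ (F ∙ x)) ≠ 0 := by
        rw [Ne, Submodule.Quotient.mk_eq_zero]
        exact hv
      have hσ1 : ∀ a : F, σ a = a := by
        intro a
        have h1 : g (a • Submodule.Quotient.mk v) = Submodule.Quotient.mk (l (a • v)) := by
          rw [← Submodule.Quotient.mk_smul, hg']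
        rw [map_smul, hσ, Submodule.Quotient.mk_smul, ← hg'] at h1
        have h2 : (a - σ a) • g (Submodule.Quotient.mk v) = 0 := by rw [sub_smul, h1, sub_self]
        rcases smul_eq_zero.1 h2 with h3 | h3
        · exact (sub_eq_zero.1 h3).symm
        · exact absurd ((LinearEquiv.map_eq_zero_iff g).1 h3) hv0
      obtain ⟨h, hh⟩ := exists_lin (F := F) hadd fun a v => by rw [hσ, hσ1]
      refine ⟨h, ?_, ?_, fun v => ?_⟩
      · show toA F V h ∈ L
        rw [hh]
        exact hl
      · obtain ⟨a, ha⟩ := hlx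
        exact ⟨a, by rw [← ha, ← hh]; rfl⟩
      · rw [hg', ← hh]
        rfl
    · rintro ⟨h, hh, hhx, hg⟩
      exact ⟨toA F V h, hh, toA_mem h, hhx, hg⟩
  · rintro g ⟨l, hl, ⟨hadd, σ, hσ⟩, hlx, hg⟩
    refine ⟨fun v w => ?_, σ, fun a v => ?_⟩
    · obtain ⟨v, rfl⟩ := Submodule.Quotient.mk_surjective _ v
      obtain ⟨w, rfl⟩ := Submodule.Quotient.mk_surjective _ w
      rw [← Submodule.Quotient.mk_add, hg, hadd, Submodule.Quotient.mk_add, hg, hg]
    · obtain ⟨v, rfl⟩ := Submodule.Quotient.mk_surjective _ v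
      rw [← Submodule.Quotient.mk_smul, hg, hσ, Submodule.Quotient.mk_smul, hg]

end SpreadPerm.LG
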