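import Pool.Agent.Lib.MP_e6ed9e_al.LG.Ind73
import Pool.Agent.Lib.MP_e6ed9e_al.LG.LinI73

/-!
Row IndS: the hypothesis goes down to `V ⧸ ⟨x⟩`, semilinear version.
-/

namespace SpreadPerm.LG

open Module

namespace IndS73

open Ind73 LinI73

variable {F V : Type} [Field F] [AddCommGroup V] [Module F V]

/-- The preimage of `K` in the stabilizer of `⟨x⟩`. -/
def hatA (x : V) (K : Subgroup (Equiv.Perm (V ⧸ (F ∙ x)))) : Subgroup (Equiv.Perm V) where
  carrier := {h | h ∈ GamL F V ∧ (∃ a : F, h x = a • x) ∧ ∃ g ∈ K, ∀ v,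
    g (Submodule.Quotient.mk v) = Submodule.Quotient.mk (h v)}
  one_mem' := ⟨(GamL F V).one_mem, ⟨1, by simp⟩, 1, K.one_mem, fun v => rfl⟩
  mul_mem' := by
    rintro l l' ⟨hs, ⟨a, ha⟩, g, hg, hgl⟩ ⟨hs', ⟨a', ha'⟩, g', hg', hgl'⟩
    refine ⟨(GamL F V).mul_mem hs hs', ?_, g * g', K.mul_mem hg hg', fun v => ?_⟩
    · obtain ⟨-, σ, hσ⟩ := hs
      refine ⟨σ a' * a, ?_⟩
      show l (l' x) = _
      rw [ha', hσ, ha, smul_smul]
    · show g (g' _) = _
      rw [hgl', hgl]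
      rfl
  inv_mem' := by
    rintro l ⟨hs, ⟨a, ha⟩, g, hg, hgl⟩
    refine ⟨(GamL F V).inv_mem hs, ?_, g⁻¹, K.inv_mem hg, fun v => ?_⟩
    · by_cases hx : x = 0
      · exact ⟨1, by rw [hx, smul_zero]; exact GamL_zero ((GamL F V).inv_mem hs)⟩
      · have h0 := GamL_zero hs
        obtain ⟨-, σ, hσ⟩ := hs
        have ha0 : a ≠ 0 := by
          rintro rfl
          rw [zero_smul] at ha
          exact hx (l.injective (ha.trans h0.symm))
        refine ⟨σ.symm a⁻¹, ?_⟩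
        show l.symm x = _
        rw [Equiv.symm_apply_eq, hσ, RingEquiv.apply_symm_apply, ha, smul_smul,
          inv_mul_cancel₀ ha0, one_smul]
    · show g.symm _ = _
      rw [Equiv.symm_apply_eq, hgl]
      show _ = Submodule.Quotient.mk (l (l.symm v))
      rw [Equiv.apply_symm_apply]

/-- A lift of a semilinear permutation of `V ⧸ ⟨x⟩`. -/
theorem exists_liftA {x : V} {μ : V →ₗ[F] F} (hμ : μ x = 1) {γ : Equiv.Perm (V ⧸ (F ∙ x))}
    (hγ : γ ∈ GamL F (V ⧸ (F ∙ x))) : ∃ g ∈ GamL F V, g x = x ∧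
      ∀ v, γ (Submodule.Quotient.mk v) = Submodule.Quotient.mk (g v) := by
  have h0 := GamL_zero hγ
  obtain ⟨hadd, σ, hσ⟩ := hγ
  have hmk : ∀ (b : F) (w : V ⧸ (F ∙ x)),
      (Submodule.Quotient.mk (b • x + sec x μ hμ w) : V ⧸ (F ∙ x)) = w := fun b w => by
    rw [Submodule.Quotient.mk_add, mk_x, mk_sec, zero_add]
  have hmu : ∀ (b : F) (w : V ⧸ (F ∙ x)), μ (b • x + sec x μ hμ w) = b := fun b w => by
    rw [map_add, map_smul, hμ, mu_sec, smul_eq_mul, mul_one, add_zero]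
  have hv : ∀ v : V, μ v • x + sec x μ hμ (Submodule.Quotient.mk v) = v := fun v => by
    rw [sec_mk, add_sub_cancel]
  let g : Equiv.Perm V :=
    { toFun := fun v => σ (μ v) • x + sec x μ hμ (γ (Submodule.Quotient.mk v))
      invFun := fun v => σ.symm (μ v) • x + sec x μ hμ (γ.symm (Submodule.Quotient.mk v))
      left_inv := fun v => by
        show σ.symm (μ _) • x + sec x μ hμ (γ.symm (Submodule.Quotient.mk _)) = v
        rw [hmu, hmk, RingEquiv.symm_apply_apply, Equiv.symm_apply_apply, hv]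
      right_inv := fun v => by
        show σ (μ _) • x + sec x μ hμ (γ (Submodule.Quotient.mk _)) = v
        rw [hmu, hmk, RingEquiv.apply_symm_apply, Equiv.apply_symm_apply, hv] }
  have hg : ∀ v, g v = σ (μ v) • x + sec x μ hμ (γ (Submodule.Quotient.mk v)) := fun v => rfl
  refine ⟨g, ⟨fun v w => ?_, σ, fun a v => ?_⟩, ?_, fun v => ?_⟩
  · rw [hg, hg, hg, map_add, map_add, Submodule.Quotient.mk_add, hadd, map_add, add_smul]
    abel
  · rw [hg, hg, map_smul, smul_eq_mul, map_mul, Submodule.Quotient.mk_smul, hσ, map_smul, smul_add,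
      smul_smul]
  · have h1 : (Submodule.Quotient.mk x : V ⧸ (F ∙ x)) = 0 := by
      have := mk_x (F := F) x 1
      rwa [one_smul] at this
    rw [hg, hμ, map_one, one_smul, h1, h0, map_zero, add_zero]
  · rw [hg, hmk]

/-- The permutation of `V ⧸ ⟨x⟩` induced by a semilinear permutation which fixes `⟨x⟩`. -/
theorem exists_ind {x : V} (hx : x ≠ 0) {g : Equiv.Perm V} (hg : g ∈ GamL F V) {a : F}
    (ha : g x = a • x) : ∃ γ ∈ GamL F (V ⧸ (F ∙ x)),
      ∀ v, γ (Submodule.Quotient.mk v) = Submodule.Quotient.mk (g v) := by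
  have h0 := GamL_zero hg
  obtain ⟨hadd, σ, hσ⟩ := hg
  have ha0 : a ≠ 0 := by
    rintro rfl
    rw [zero_smul] at ha
    exact hx (g.injective (ha.trans h0.symm))
  have hneg : ∀ v, g (-v) = -g v := fun v => by
    rw [eq_neg_iff_add_eq_zero, ← hadd, neg_add_cancel, h0]
  have key : ∀ v w : V, v - w ∈ (F ∙ x) ↔ g v - g w ∈ (F ∙ x) := by
    intro v w
    rw [sub_eq_add_neg (g v), ← hneg, ← hadd, ← sub_eq_add_neg, Submodule.mem_span_singleton,
      Submodule.mem_span_singleton]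
    constructor
    · rintro ⟨b, hb⟩
      exact ⟨σ b * a, by rw [mul_smul, ← ha, ← hσ, hb]⟩
    · rintro ⟨b, hb⟩
      refine ⟨σ.symm (b * a⁻¹), ?_⟩
      apply g.injective
      rw [hσ, RingEquiv.apply_symm_apply, ha, smul_smul, mul_assoc, inv_mul_cancel₀ ha0, mul_one,
        hb]
  let γ : Equiv.Perm (V ⧸ (F ∙ x)) := @Quotient.congr _ _ (Submodule.quotientRel (F ∙ x))
    (Submodule.quotientRel (F ∙ x)) g fun v w => by
      show (Submodule.quotientRel (F ∙ x)) v w ↔ (Submodule.quotientRel (F ∙ x)) (g v) (g w)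
      rw [Submodule.quotientRel_def, Submodule.quotientRel_def]
      exact key v w
  have hγ : ∀ v, γ (Submodule.Quotient.mk v) = Submodule.Quotient.mk (g v) := fun v => rfl
  refine ⟨γ, ⟨fun v w => ?_, σ, fun b v => ?_⟩, hγ⟩
  · obtain ⟨v, rfl⟩ := Submodule.Quotient.mk_surjective _ v
    obtain ⟨w, rfl⟩ := Submodule.Quotient.mk_surjective _ w
    rw [← Submodule.Quotient.mk_add, hγ, hadd, Submodule.Quotient.mk_add, hγ, hγ]
  · obtain ⟨v, rfl⟩ := Submodule.Quotient.mk_surjective _ v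
    rw [← Submodule.Quotient.mk_smul, hγ, hσ, Submodule.Quotient.mk_smul, hγ]

/-- The general linear group is transitive on the nonzero vectors. -/
theorem exists_gl' {y x : V} (hy : y ≠ 0) (hx : x ≠ 0) : ∃ t : V ≃ₗ[F] V, t y = x := by
  obtain ⟨μ, hμ⟩ := exists_mu (F := F) hy
  obtain ⟨ν, hν⟩ := exists_mu (F := F) hx
  obtain ⟨φ, hφy, hφx⟩ : ∃ φ : V →ₗ[F] F, φ y = 1 ∧ φ x ≠ 0 := by
    by_cases h : μ x = 0
    · by_cases h' : 1 + ν y = 0
      · refine ⟨μ + (1 - (μ + ν) y) • μ + ν, ?_, ?_⟩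
        · simp only [LinearMap.add_apply, LinearMap.smul_apply, smul_eq_mul, hμ]
          ring
        · simp only [LinearMap.add_apply, LinearMap.smul_apply, smul_eq_mul, h, hν]
          simp
      · refine ⟨(1 + ν y)⁻¹ • (μ + ν), ?_, ?_⟩
        · simp only [LinearMap.add_apply, LinearMap.smul_apply, smul_eq_mul, hμ]
          exact inv_mul_cancel₀ h'
        · simp only [LinearMap.add_apply, LinearMap.smul_apply, smul_eq_mul, h, hν, zero_add,
            mul_one]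
          exact inv_ne_zero h'
    · exact ⟨μ, hμ, h⟩
  refine ⟨hml (x - y) φ ?_, ?_⟩
  · rw [map_sub, hφy]
    intro h
    apply hφx
    linear_combination h
  · rw [hml_apply, hφy, one_smul]
    abel

/-- Every semilinear permutation is the product of a special linear map and of an element of the
preimage. -/
theorem sl_hatA [Module.Finite F V] (x : V) (hx : x ≠ 0)
    (K : Subgroup (Equiv.Perm (V ⧸ (F ∙ x))))
    (hK : ∀ g ∈ GamL F (V ⧸ (F ∙ x)), ∃ s : (V ⧸ (F ∙ x)) ≃ₗ[F] (V ⧸ (F ∙ x)),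
      LinearEquiv.det s = 1 ∧ ∃ k ∈ K, g = toA F (V ⧸ (F ∙ x)) s * k)
    (g : Equiv.Perm V) (hg : g ∈ GamL F V) :
    ∃ s : V ≃ₗ[F] V, LinearEquiv.det s = 1 ∧ ∃ k ∈ hatA x K, g = toA F V s * k := by
  obtain ⟨μ, hμ⟩ := exists_mu (F := F) hx
  -- `t (g x) = x`
  have hgx : g x ≠ 0 := fun h => hx (g.injective (h.trans (GamL_zero hg).symm))
  obtain ⟨t, ht⟩ : ∃ t : V ≃ₗ[F] V, t (g x) = x := exists_gl' hgx hx
  have hg1 : toA F V t * g ∈ GamL F V := (GamL F V).mul_mem (toA_mem t) hg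
  have hg1x : (toA F V t * g) x = (1 : F) • x := by
    rw [one_smul]
    exact ht
  obtain ⟨γ, hγ, hγg⟩ := exists_ind hx hg1 hg1x
  obtain ⟨s, -, k, hk, hsk⟩ := hK γ hγ
  obtain ⟨S, hSx, hS⟩ := exists_lift hμ s
  -- the element of the preimage
  have hk1 : toA F V S⁻¹ * (toA F V t * g) ∈ hatA x K := by
    refine ⟨(GamL F V).mul_mem (toA_mem _) hg1, ⟨1, ?_⟩, k, hk, fun v => ?_⟩
    · show S.symm ((toA F V t * g) x) = _
      rw [hg1x, LinearEquiv.symm_apply_eq, map_smul, hSx]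
    · show _ = Submodule.Quotient.mk (S.symm ((toA F V t * g) v))
      have h1 : s (Submodule.Quotient.mk (S.symm ((toA F V t * g) v))) =
          s (k (Submodule.Quotient.mk v)) := by
        rw [hS, LinearEquiv.apply_symm_apply, ← hγg, hsk]
        rfl
      exact (s.injective h1).symm
  -- the determinant
  set a : F := LinearMap.det ((t⁻¹ * S : V ≃ₗ[F] V) : V →ₗ[F] V) with ha
  have ha0 : a ≠ 0 := (LinearEquiv.isUnit_det' (t⁻¹ * S)).ne_zero
  set f : V →ₗ[F] F := (a - 1) • μ with hf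
  have hfx : 1 + f x = a := by
    rw [hf, LinearMap.smul_apply, smul_eq_mul, hμ]
    ring
  have hu : IsUnit (1 + f x) := by rw [hfx]; exact ha0.isUnit
  set p : V ≃ₗ[F] V := LinearEquiv.dilatransvection hu with hp
  have hpv : ∀ v, p v = v + f v • x := fun v => LinearEquiv.dilatransvection.apply
  have hpdet : LinearMap.det (p : V →ₗ[F] V) = a := by
    rw [hp, LinearEquiv.dilatransvection.coe_toLinearMap, LinearMap.transvection.det, hfx]
  have hpm : toA F V p ∈ hatA x K := by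
    refine ⟨toA_mem p, ⟨1 + f x, ?_⟩, 1, K.one_mem, fun v => ?_⟩
    · show p x = _
      rw [hpv, add_smul, one_smul]
    · show _ = Submodule.Quotient.mk (p v)
      rw [hpv, Submodule.Quotient.mk_add, mk_x, add_zero]
      rfl
  refine ⟨t⁻¹ * S * p⁻¹, ?_, toA F V p * (toA F V S⁻¹ * (toA F V t * g)),
    (hatA x K).mul_mem hpm hk1, ?_⟩
  · rw [map_mul, map_inv, mul_inv_eq_one]
    apply Units.ext
    rw [LinearEquiv.coe_det, LinearEquiv.coe_det, hpdet]
  · rw [map_mul, map_mul, map_inv, map_inv, map_inv]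
    group

/-- The product `L K^` is not the semilinear group. -/
theorem not_allA {L : Subgroup (Equiv.Perm V)} (hL : L ≤ GamL F V) (x : V) (hx : x ≠ 0)
    (K : Subgroup (Equiv.Perm (V ⧸ (F ∙ x))))
    (h : ∀ g ∈ GamL F V, ∃ l ∈ L, ∃ k ∈ hatA x K, g = l * k)
    (γ : Equiv.Perm (V ⧸ (F ∙ x))) (hγ : γ ∈ GamL F (V ⧸ (F ∙ x))) :
    ∃ h ∈ IxA F L x, ∃ k ∈ K, γ = h * k := by
  obtain ⟨μ, hμ⟩ := exists_mu (F := F) hx
  obtain ⟨g, hgG, hgx, hg⟩ := exists_liftA hμ hγ
  obtain ⟨l, hl, k, hk, rfl⟩ := h g hgG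
  obtain ⟨-, ⟨b, hb⟩, -⟩ := (hatA x K).inv_mem hk
  obtain ⟨-, -, k', hk', hkk⟩ := hk
  refine ⟨γ * k'⁻¹, ⟨l, hl, hL hl, ?_, fun v => ?_⟩, k', hk', by group⟩
  · obtain ⟨-, σ, hσ⟩ := hgG
    refine ⟨σ b, ?_⟩
    have h1 : l x = (l * k) (k⁻¹ x) := by
      show _ = l (k (k.symm x))
      rw [Equiv.apply_symm_apply]
    rw [h1, hb, hσ, hgx]
  · have h1 : k'⁻¹ (Submodule.Quotient.mk v) = Submodule.Quotient.mk (k⁻¹ v) := by
      show k'.symm _ = _
      rw [Equiv.symm_apply_eq, hkk]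
      show _ = Submodule.Quotient.mk (k (k.symm v))
      rw [Equiv.apply_symm_apply]
    show γ (k'⁻¹ (Submodule.Quotient.mk v)) = _
    rw [h1, hg]
    show Submodule.Quotient.mk (l (k (k.symm v))) = _
    rw [Equiv.apply_symm_apply]

end IndS73

open Ind73 LinI73 IndS73 in
/-- Row IndS. -/
theorem indS73 (hOrb : StOrb) : StIndS := by
  intro F V _ _ _ _ _ L c hn hL md x hx hP K hKG hSK hK
  have hMF : Module.Finite F V := Module.Finite.of_finite
  have hfin : Finite (V ≃ₗ[F] V) := finite_gl2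
  have h1 := md (hatA x K) (fun _ h => h.1) (sl_hatA x hx K hSK)
    (fun h => hK (not_allA hL x hx K h))
  have h2 := (hOrb F V (lin F L) x hx).1
  have h3 := card_Ix (H := lin F L) x hx hP
  have h4 := card_hat x hx (lin F K)
  have h5 : Nat.card (hat x hx (lin F K)) ≤ Nat.card (lin F (hatA x K)) := by
    refine Nat.card_le_card_of_injective
      (fun h => (⟨h.1, ⟨toA_mem h.1, h.2.1, ?_⟩⟩ : lin F (hatA x K))) ?_
    · obtain ⟨g, hg, hgh⟩ := h.2.2
      exact ⟨toA F _ g, hg, hgh⟩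
    · intro h h' e
      have e1 : h.1 = h'.1 := congrArg (fun t : lin F (hatA x K) => t.1) e
      exact Subtype.ext e1
  calc Nat.card F ^ (finrank F V - 1) * (Nat.card F - 1) ^ 2 * Nat.card (lin F K)
      = (Nat.card F - 1) * (Nat.card F ^ (finrank F V - 1) * (Nat.card F - 1) *
        Nat.card (lin F K)) := by ring
    _ ≤ (Nat.card F - 1) * (c * Nat.card (lin F L)) :=
        Nat.mul_le_mul_left _ ((h4.trans h5).trans h1)
    _ = c * ((Nat.card F - 1) * Nat.card (lin F L)) := by ring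
    _ ≤ c * ((Nat.card F ^ finrank F V - 1) *
        Nat.card {h : V ≃ₗ[F] V // h ∈ lin F L ∧ ∃ a : F, h x = a • x}) :=
        Nat.mul_le_mul_left _ h2
    _ ≤ c * ((Nat.card F ^ finrank F V - 1) * Nat.card (Ix (lin F L) x)) :=
        Nat.mul_le_mul_left _ (Nat.mul_le_mul_left _ h3)
    _ = _ := by ring

end SpreadPerm.LG
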