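import Pool.Agent.Lib.MP_e6ed9e_al.LG.Loc3_51
import Pool.Agent.Lib.MP_e6ed9e_al.LG.Basic47

/-!
# MP_e6ed9e : LG, rows LAG, LOC1, LOC2
-/

namespace SpreadPerm.LG.Loc12

open Module SpreadPerm.LG

noncomputable section

theorem lagK {G : Type} [Group G] [Finite G] (K U H : Subgroup G) (hU : U ≤ K) (hH : H ≤ K) :
    Nat.card U * Nat.card H ≤ Nat.card K * Nat.card (U ⊓ H : Subgroup G) := by
  classical
  -- a representative for each product
  let r : G → G := fun k => if hk : ∃ u ∈ U, ∃ h ∈ H, u * h = k then hk.choose else 1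
  have hr : ∀ u ∈ U, ∀ h ∈ H, r (u * h) ∈ U ∧ ∃ h' ∈ H, r (u * h) * h' = u * h := by
    intro u hu h hh
    have hk : ∃ u' ∈ U, ∃ h' ∈ H, u' * h' = u * h := ⟨u, hu, h, hh, rfl⟩
    have : r (u * h) = hk.choose := dif_pos hk
    rw [this]
    exact hk.choose_spec
  have hm : ∀ p : U × H, (r (p.1.1 * p.2.1))⁻¹ * p.1.1 ∈ U ⊓ H := by
    intro p
    obtain ⟨h1, h', h2, h3⟩ := hr p.1.1 p.1.2 p.2.1 p.2.2
    refine ⟨U.mul_mem (U.inv_mem h1) p.1.2, ?_⟩
    have : (r (p.1.1 * p.2.1))⁻¹ * p.1.1 = h' * p.2.1⁻¹ := by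
      rw [inv_mul_eq_iff_eq_mul, ← mul_assoc, h3, mul_inv_cancel_right]
    rw [this]
    exact H.mul_mem h2 (H.inv_mem p.2.2)
  rw [← Nat.card_prod, ← Nat.card_prod]
  refine Nat.card_le_card_of_injective
    (fun p : U × H => ((⟨p.1.1 * p.2.1, K.mul_mem (hU p.1.2) (hH p.2.2)⟩ : K),
      (⟨_, hm p⟩ : (U ⊓ H : Subgroup G)))) ?_
  intro p p' hpp
  have h1 : p.1.1 * p.2.1 = p'.1.1 * p'.2.1 := congrArg (fun t => t.1.1) hpp
  have h2 : (r (p.1.1 * p.2.1))⁻¹ * p.1.1 = (r (p'.1.1 * p'.2.1))⁻¹ * p'.1.1 :=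
    congrArg (fun t => t.2.1) hpp
  rw [h1] at h2
  have h3 : p.1.1 = p'.1.1 := mul_left_cancel h2
  rw [h3] at h1
  exact Prod.ext (Subtype.ext h3) (Subtype.ext (mul_left_cancel h1))

/-- Row LAG. -/
theorem lag51 : StLag := by
  intro G _ _ U H
  have := lagK (⊤ : Subgroup G) U H le_top le_top
  rwa [Nat.card_congr Subgroup.topEquiv.toEquiv] at this

variable {F V : Type} [Field F] [AddCommGroup V] [Module F V]

/-- The stabilizer of the point `⟨x⟩`. -/
def GX (x : V) (hx : x ≠ 0) : Subgroup (V ≃ₗ[F] V) where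
  carrier := {h | ∃ a : F, h x = a • x}
  one_mem' := ⟨1, by simp⟩
  mul_mem' := by
    rintro g h ⟨a, ha⟩ ⟨b, hb⟩
    exact ⟨b * a, by
      show g (h x) = _
      rw [hb, map_smul, ha, smul_smul]⟩
  inv_mem' := by
    rintro g ⟨a, ha⟩
    have ha0 : a ≠ 0 := by
      rintro rfl
      rw [zero_smul] at ha
      exact hx ((LinearEquiv.map_eq_zero_iff g).1 ha)
    refine ⟨a⁻¹, ?_⟩
    have := inv_app g x
    rw [ha, map_smul] at this
    rw [← this, smul_smul, inv_mul_cancel₀ ha0, one_smul, this]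

/-- The maps `v ↦ v + θ(v) + φ(v) x`, `θ` in the additive group `D` of maps with `θ x = 0` and
`θ θ' = 0`. -/
def UX (x : V) (hx : x ≠ 0) (D : AddSubgroup (V →ₗ[F] V))
    (hD : ∀ θ ∈ D, θ x = 0 ∧ ∀ θ' ∈ D, ∀ v, θ (θ' v) = 0) :
    Subgroup (V ≃ₗ[F] V) where
  carrier := {g | ∃ θ ∈ D, ∃ φ : V →ₗ[F] F, ∀ v, g v = v + θ v + φ v • x}
  one_mem' := ⟨0, D.zero_mem, 0, fun v => by simp⟩
  mul_mem' := by
    rintro g g' ⟨θ, hθ, φ, h⟩ ⟨θ', hθ', φ', h'⟩
    refine ⟨θ + θ', D.add_mem hθ hθ', φ' + φ + φ ∘ₗ θ' + φ x • φ', fun v => ?_⟩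
    show g (g' v) = _
    rw [h', h]
    simp only [map_add, map_smul, LinearMap.add_apply, LinearMap.smul_apply, smul_eq_mul,
      (hD θ hθ).1, (hD θ hθ).2 θ' hθ', LinearMap.comp_apply]
    module
  inv_mem' := by
    rintro g ⟨θ, hθ, φ, h⟩
    have hne : 1 + φ x ≠ 0 := by
      intro h0
      apply hx
      apply (LinearEquiv.map_eq_zero_iff g).1
      rw [h, (hD θ hθ).1]
      have : x + 0 + φ x • x = (1 + φ x) • x := by module
      rw [this, h0, zero_smul]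
    have e : (1 + φ x)⁻¹ * (1 + φ x) = 1 := inv_mul_cancel₀ hne
    refine ⟨-θ, D.neg_mem hθ, -(1 + φ x)⁻¹ • (φ - φ ∘ₗ θ), fun v => ?_⟩
    show g.symm v = _
    rw [LinearEquiv.symm_apply_eq, h]
    simp only [map_add, map_smul, map_neg, LinearMap.sub_apply, LinearMap.neg_apply,
      LinearMap.smul_apply, smul_eq_mul, (hD θ hθ).1, (hD θ hθ).2 θ hθ, LinearMap.comp_apply]
    set a : F := -(1 + φ x)⁻¹ * (φ v - φ (θ v)) with ha
    have h0 : a * (1 + φ x) + (φ v - φ (θ v)) = 0 := by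
      rw [ha]
      linear_combination -(φ v - φ (θ v)) * e
    calc v = v + (a * (1 + φ x) + (φ v - φ (θ v))) • x := by rw [h0, zero_smul, add_zero]
      _ = _ := by module

theorem exists_ux {x : V} {D : AddSubgroup (V →ₗ[F] V)}
    (hD : ∀ θ ∈ D, θ x = 0 ∧ ∀ θ' ∈ D, ∀ v, θ (θ' v) = 0) {θ : V →ₗ[F] V} (hθ : θ ∈ D)
    {φ : V →ₗ[F] F} (hφ : 1 + φ x ≠ 0) :
    ∃ g : V ≃ₗ[F] V, ∀ v, g v = v + θ v + φ v • x := by
  have e : (1 + φ x)⁻¹ * (1 + φ x) = 1 := inv_mul_cancel₀ hφ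
  refine ⟨LinearEquiv.ofLinearMap (LinearMap.id + θ + φ.smulRight x)
    (LinearMap.id - θ + (-(1 + φ x)⁻¹ • (φ - φ ∘ₗ θ)).smulRight x) ?_ ?_, fun v => rfl⟩
  · ext v
    simp only [LinearMap.comp_apply, LinearMap.add_apply, LinearMap.sub_apply, LinearMap.id_apply,
      LinearMap.smulRight_apply, map_add, map_sub, map_smul, LinearMap.smul_apply, smul_eq_mul,
      (hD θ hθ).1, (hD θ hθ).2 θ hθ]
    set a : F := -(1 + φ x)⁻¹ * (φ v - φ (θ v)) with ha
    have h0 : a * (1 + φ x) + (φ v - φ (θ v)) = 0 := by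
      rw [ha]
      linear_combination -(φ v - φ (θ v)) * e
    calc _ = v + (a * (1 + φ x) + (φ v - φ (θ v))) • x := by module
      _ = v := by rw [h0, zero_smul, add_zero]
  · ext v
    simp only [LinearMap.comp_apply, LinearMap.add_apply, LinearMap.sub_apply, LinearMap.id_apply,
      LinearMap.smulRight_apply, map_add, map_smul, LinearMap.smul_apply, smul_eq_mul,
      (hD θ hθ).1, (hD θ hθ).2 θ hθ, map_zero]
    generalize hb : (1 + φ x)⁻¹ = b at *
    have h0 : φ v + -b * (φ v - φ (θ v)) + -b * (φ (θ v) - 0) +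
        φ v * (-b * (φ x - 0)) = 0 := by
      linear_combination -φ v * e
    calc _ = v + (φ v + -b * (φ v - φ (θ v)) + -b * (φ (θ v) - 0) +
          φ v * (-b * (φ x - 0))) • x := by module
      _ = v := by rw [h0, zero_smul, add_zero]

section card
variable [Finite F] [Finite V]

omit [Finite F] [Finite V] in
theorem exists_mu (x : V) (hx : x ≠ 0) : ∃ μ : V →ₗ[F] F, μ x ≠ 0 := by
  by_contra h
  push Not at h
  exact hx ((Module.forall_dual_apply_eq_zero_iff F x).1 h)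

omit [Finite F] in
theorem card_inf_le [Finite F] (H : Subgroup (V ≃ₗ[F] V)) (x : V) (T : Subgroup (V ≃ₗ[F] V))
    (hT : ∀ g ∈ T, g ∈ H ∧ ∃ φ : V →ₗ[F] F, ∀ v, g v = v + φ v • x) :
    Nat.card T ≤ Nat.card (P H x) := by
  have _ : Finite (V →ₗ[F] F) := Loc3.finDual
  choose φ hφ using fun g : T => (hT g.1 g.2).2
  refine Nat.card_le_card_of_injective
    (fun g => (⟨φ g, g.1, (hT g.1 g.2).1, hφ g⟩ : P H x)) ?_
  intro g g' h
  have h1 : φ g = φ g' := congrArg Subtype.val h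
  apply Subtype.ext
  apply LinearEquiv.ext
  intro v
  rw [hφ g, hφ g', h1]

/-- Row LOC1. -/
theorem loc1_51 : StLoc1 := by
  intro F V _ _ _ _ _ H x hx
  obtain ⟨μ, hμ⟩ := exists_mu (F := F) x hx
  have hD : ∀ θ ∈ (⊥ : AddSubgroup (V →ₗ[F] V)),
      θ x = 0 ∧ ∀ θ' ∈ (⊥ : AddSubgroup (V →ₗ[F] V)), ∀ v, θ (θ' v) = 0 := by
    intro θ hθ
    rw [AddSubgroup.mem_bot] at hθ
    subst hθ
    exact ⟨rfl, fun _ _ _ => rfl⟩
  have h1 := lag51 (V ≃ₗ[F] V) (UX x hx ⊥ hD) H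
  have h2 : Nat.card F ^ (finrank F V - 1) * (Nat.card F - 1) ≤ Nat.card (UX x hx ⊥ hD) := by
    rw [← Loc3.card_ne x μ hμ]
    choose f hf using fun φ : {φ : V →ₗ[F] F // 1 + φ x ≠ 0} =>
      exists_ux hD (AddSubgroup.zero_mem _) φ.2
    refine Nat.card_le_card_of_injective
      (fun φ => (⟨f φ, 0, AddSubgroup.zero_mem _, φ.1, hf φ⟩ : UX x hx ⊥ hD)) ?_
    intro φ φ' h
    have h3 : f φ = f φ' := congrArg Subtype.val h
    apply Subtype.ext
    apply LinearMap.ext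
    intro v
    have h4 := hf φ v
    rw [h3, hf φ' v] at h4
    have h5 : (φ'.1 v - φ.1 v) • x = 0 := by
      have : (φ'.1 v - φ.1 v) • x = (v + (0 : V →ₗ[F] V) v + φ'.1 v • x) -
        (v + (0 : V →ₗ[F] V) v + φ.1 v • x) := by module
      rw [this, h4, sub_self]
    exact (sub_eq_zero.1 ((smul_eq_zero.1 h5).resolve_right hx)).symm
  have h3 : Nat.card (UX x hx ⊥ hD ⊓ H : Subgroup (V ≃ₗ[F] V)) ≤ Nat.card (P H x) := by
    apply card_inf_le
    rintro g ⟨⟨θ, hθ, φ, h⟩, hg⟩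
    refine ⟨hg, φ, fun v => ?_⟩
    rw [AddSubgroup.mem_bot] at hθ
    subst hθ
    rw [h, LinearMap.zero_apply, add_zero]
  calc _ ≤ Nat.card (UX x hx ⊥ hD) * Nat.card H := Nat.mul_le_mul_right _ h2
    _ ≤ Nat.card (V ≃ₗ[F] V) * Nat.card (UX x hx ⊥ hD ⊓ H : Subgroup (V ≃ₗ[F] V)) := h1
    _ ≤ _ := Nat.mul_le_mul_left _ h3

omit [Finite F] [Finite V] in
/-- The maps into `C` which vanish on `x` and on `C`. -/
def DC (x : V) (C : Submodule F V) : AddSubgroup (V →ₗ[F] V) where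
  carrier := {θ | θ x = 0 ∧ (∀ c ∈ C, θ c = 0) ∧ ∀ v, θ v ∈ C}
  zero_mem' := ⟨rfl, fun _ _ => rfl, fun _ => C.zero_mem⟩
  add_mem' := by
    rintro θ θ' ⟨h1, h2, h3⟩ ⟨h1', h2', h3'⟩
    exact ⟨by rw [LinearMap.add_apply, h1, h1', add_zero],
      fun c hc => by rw [LinearMap.add_apply, h2 c hc, h2' c hc, add_zero],
      fun v => C.add_mem (h3 v) (h3' v)⟩
  neg_mem' := by
    rintro θ ⟨h1, h2, h3⟩
    exact ⟨by rw [LinearMap.neg_apply, h1, neg_zero],
      fun c hc => by rw [LinearMap.neg_apply, h2 c hc, neg_zero],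
      fun v => C.neg_mem (h3 v)⟩

theorem card_DC (x : V) (hx : x ≠ 0) (C : Submodule F V) (hC : 1 ≤ finrank F C)
    (hC2 : finrank F C + 2 ≤ finrank F V) :
    Nat.card F ^ (finrank F V - 2) ≤ Nat.card (DC x C) := by
  have _ : Module.Finite F V := Module.Finite.of_finite
  have _ : Finite (V →ₗ[F] V) :=
    Finite.of_injective (fun g : V →ₗ[F] V => (g : V → V)) DFunLike.coe_injective
  set W : Submodule F V := (F ∙ x) ⊔ C with hW
  have h1 : finrank F W ≤ 1 + finrank F C := by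
    refine (Submodule.finrank_add_le_finrank_add_finrank (F ∙ x) C).trans ?_
    exact Nat.add_le_add_right (finrank_span_singleton hx).le _
  have h2 : finrank F (V ⧸ W) + finrank F W = finrank F V := Submodule.finrank_quotient_add_finrank W
  have h3 : Nat.card F ^ (finrank F V - 2) ≤ Nat.card ((V ⧸ W) →ₗ[F] C) := by
    rw [Module.natCard_eq_pow_finrank (K := F) (V := (V ⧸ W) →ₗ[F] C), Module.finrank_linearMap]
    refine Nat.pow_le_pow_right Nat.card_pos ?_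
    obtain ⟨a, ha⟩ : ∃ a, finrank F (V ⧸ W) = a + 1 := ⟨finrank F (V ⧸ W) - 1, by omega⟩
    obtain ⟨b, hb⟩ : ∃ b, finrank F C = b + 1 := ⟨finrank F C - 1, by omega⟩
    have h4 : finrank F V - 2 ≤ a + b + 1 := by omega
    rw [ha, hb]
    nlinarith [Nat.zero_le (a * b)]
  refine h3.trans ?_
  refine Nat.card_le_card_of_injective (fun f => (⟨C.subtype ∘ₗ f ∘ₗ W.mkQ, ?_, ?_, ?_⟩ :
    DC x C)) ?_
  · show ((f (W.mkQ x) : C) : V) = 0
    have : W.mkQ x = 0 := by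
      rw [Submodule.mkQ_apply, Submodule.Quotient.mk_eq_zero]
      exact Submodule.mem_sup_left (Submodule.mem_span_singleton_self x)
    rw [this, map_zero]
    rfl
  · intro c hc
    show ((f (W.mkQ c) : C) : V) = 0
    have : W.mkQ c = 0 := by
      rw [Submodule.mkQ_apply, Submodule.Quotient.mk_eq_zero]
      exact Submodule.mem_sup_right hc
    rw [this, map_zero]
    rfl
  · intro v
    exact (f (W.mkQ v)).2
  · intro f f' h
    have h5 : C.subtype ∘ₗ f ∘ₗ W.mkQ = C.subtype ∘ₗ f' ∘ₗ W.mkQ := congrArg Subtype.val h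
    apply LinearMap.ext
    intro v
    obtain ⟨v, rfl⟩ := W.mkQ_surjective v
    exact Subtype.ext (LinearMap.congr_fun h5 v)

/-- Row LOC2. -/
theorem loc2_51 : StLoc2 := by
  intro F V _ _ _ _ _ H x R hx hxR hy hRt hR
  have _ : Module.Finite F V := Module.Finite.of_finite
  obtain ⟨C, hRC⟩ := Submodule.exists_isCompl R
  obtain ⟨μ, hμ⟩ := exists_mu (F := F) x hx
  have hxC : x ∉ C := fun h => hx (Submodule.disjoint_def.1 hRC.disjoint x hxR h)
  have hxC' : ∀ a : F, a • x ∈ C → a = 0 := by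
    intro a ha
    by_contra h0
    apply hxC
    have := C.smul_mem a⁻¹ ha
    rwa [smul_smul, inv_mul_cancel₀ h0, one_smul] at this
  have hD : ∀ θ ∈ DC x C, θ x = 0 ∧ ∀ θ' ∈ DC x C, ∀ v, θ (θ' v) = 0 :=
    fun θ hθ => ⟨hθ.1, fun θ' hθ' v => hθ.2.1 _ (hθ'.2.2 v)⟩
  have hr1 : finrank F R + finrank F C = finrank F V := Submodule.finrank_add_eq_of_isCompl hRC
  have hr2 : 2 ≤ finrank F R := by
    obtain ⟨y, hyR, hy⟩ := hy
    have hlt : (F ∙ x) < R := by
      refine lt_of_le_of_ne ((Submodule.span_singleton_le_iff_mem x R).2 hxR) ?_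
      rintro rfl
      obtain ⟨a, ha⟩ := Submodule.mem_span_singleton.1 hyR
      exact hy a ha.symm
    have := Submodule.finrank_lt_finrank_of_lt hlt
    rw [finrank_span_singleton hx] at this
    exact this
  have hr3 : finrank F R < finrank F V := Submodule.finrank_lt hRt
  have h1 := lagK (GX x hx) (UX x hx (DC x C) hD) (H ⊓ GX x hx)
    (by
      rintro g ⟨θ, hθ, φ, h⟩
      exact ⟨1 + φ x, by rw [h, hθ.1]; module⟩) inf_le_right
  have h2 : Nat.card F ^ (finrank F V - 1) * (Nat.card F - 1) * Nat.card F ^ (finrank F V - 2) ≤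
      Nat.card (UX x hx (DC x C) hD) := by
    refine (Nat.mul_le_mul_left _ (card_DC x hx C (by omega) (by omega))).trans ?_
    rw [← Loc3.card_ne x μ hμ, ← Nat.card_prod]
    choose f hf using fun p : {φ : V →ₗ[F] F // 1 + φ x ≠ 0} × DC x C =>
      exists_ux hD p.2.2 p.1.2
    refine Nat.card_le_card_of_injective
      (fun p => (⟨f p, p.2.1, p.2.2, p.1.1, hf p⟩ : UX x hx (DC x C) hD)) ?_
    intro p p' h
    have h3 : f p = f p' := congrArg Subtype.val h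
    have h4 : ∀ v, p.1.1 v = p'.1.1 v ∧ p.2.1 v = p'.2.1 v := by
      intro v
      have h4 := hf p v
      rw [h3, hf p' v] at h4
      have h5 : (p'.1.1 v - p.1.1 v) • x = p.2.1 v - p'.2.1 v := by
        have : (p'.1.1 v - p.1.1 v) • x = (v + p'.2.1 v + p'.1.1 v • x) -
          (v + p.2.1 v + p.1.1 v • x) + (p.2.1 v - p'.2.1 v) := by module
        rw [this, h4, sub_self, zero_add]
      have h6 : p'.1.1 v - p.1.1 v = 0 := by
        apply hxC'
        rw [h5]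
        exact C.sub_mem (p.2.2.2.2 v) (p'.2.2.2.2 v)
      rw [h6, zero_smul] at h5
      exact ⟨(sub_eq_zero.1 h6).symm, sub_eq_zero.1 h5.symm⟩
    exact Prod.ext (Subtype.ext (LinearMap.ext fun v => (h4 v).1))
      (Subtype.ext (LinearMap.ext fun v => (h4 v).2))
  have h3 : Nat.card (UX x hx (DC x C) hD ⊓ (H ⊓ GX x hx) : Subgroup (V ≃ₗ[F] V)) ≤
      Nat.card (P H x) := by
    apply card_inf_le
    rintro g ⟨⟨θ, hθ, φ, h⟩, hg, hgx⟩
    refine ⟨hg, φ, fun v => ?_⟩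
    have hgR : R.map (g : V →ₗ[F] V) = R := hR g hg hgx
    have h7 : ∀ w ∈ R, θ w = 0 := by
      intro w hw
      have h8 : g w ∈ R := by
        rw [← hgR]
        exact ⟨w, hw, rfl⟩
      have h9 : θ w = g w - w - φ w • x := by
        rw [h]
        module
      refine Submodule.disjoint_def.1 hRC.disjoint _ ?_ (hθ.2.2 w)
      rw [h9]
      exact R.sub_mem (R.sub_mem h8 hw) (R.smul_mem _ hxR)
    have h10 : θ v = 0 := by
      have : v ∈ R ⊔ C := by
        rw [hRC.sup_eq_top]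
        trivial
      obtain ⟨w, hw, c, hc, rfl⟩ := Submodule.mem_sup.1 this
      rw [map_add, h7 w hw, hθ.2.1 c hc, add_zero]
    rw [h, h10, add_zero]
  calc _ ≤ Nat.card (UX x hx (DC x C) hD) * Nat.card (H ⊓ GX x hx : Subgroup (V ≃ₗ[F] V)) :=
        Nat.mul_le_mul_right _ h2
    _ ≤ Nat.card (GX (F := F) x hx) *
        Nat.card (UX x hx (DC x C) hD ⊓ (H ⊓ GX x hx) : Subgroup (V ≃ₗ[F] V)) := h1
    _ ≤ _ := Nat.mul_le_mul_left _ h3

end card

end

end SpreadPerm.LG.Loc12
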