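import Pool.Agent.Lib.MP_e6ed9e_al.LG.Defs4
import Pool.Agent.Lib.MP_e6ed9e_al.PL.Prim96

/-!
# Row MainG
-/

namespace SpreadPerm.LG

open Module MulAction

theorem mainG88 (aut : StAutC) (tt : StTTS) (flag : StFlag) (big : StBigA) (mdl : StMdlG)
    (cor : StCorG) (fix : StFixG) (pt : StPt2G) (hy : StHy2G) (gen : StGen) : StMainG := by
  intro F V G Ω _ _ _ _ _ _ _ _ _ _ ρ hS hdim hq hSp
  obtain ⟨g, s, hs, hg, ω, hω⟩ := hS.nt
  have hcard : 1 < Fintype.card Ω := by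
    rw [Fintype.one_lt_card_iff]
    exact ⟨_, _, hω⟩
  have hco := PL.prim96 G Ω hSp hcard ω
  have hMD := mdl F V G Ω ρ hS hdim hSp ω
  have hle : StabL ρ ω ≤ GamL F V := by
    rintro f ⟨g', hg', hf⟩
    exact hf.1
  have hsc : Scal (lin F (StabL ρ ω)) := by
    intro a ha
    refine ⟨LinearEquiv.smulOfNeZero F V a ha, ⟨1, one_smul _ _, ⟨fun v w => smul_add a v w,
      RingEquiv.refl F, fun b v => smul_comm a b v⟩, fun W v => ?_⟩, fun v => rfl⟩
    rw [map_one]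
    show a • v ∈ W ↔ v ∈ W
    exact Submodule.smul_mem_iff W ha
  set c : ℕ := 4 * finrank F V ^ 3 * (Nat.log 2 (Nat.card F) + 1) with hc
  have h0 : 0 < finrank F V := by omega
  have hc1 : 1 ≤ c := by
    rw [hc]
    exact Nat.succ_le_of_lt (by positivity)
  have hc2 : 100 * c ^ 2 ≤ Nat.card F := by
    refine le_trans (le_of_eq ?_) hq
    rw [hc]
    ring
  have hc3 : Nat.card (F ≃+* F) ≤ c := by
    refine (aut F).trans ?_
    rw [hc]
    have h1 : 1 ≤ 4 * finrank F V ^ 3 := Nat.succ_le_of_lt (by positivity)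
    calc Nat.log 2 (Nat.card F) ≤ 1 * (Nat.log 2 (Nat.card F) + 1) := by omega
      _ ≤ _ := Nat.mul_le_mul_right _ h1
  -- a fixed point and a fixed hyperplane exclude each other
  have hflag : FixPtA F (StabL ρ ω) → FixHypA F (StabL ρ ω) → False := by
    intro h1 h2
    refine flag F V (lin F (StabL ρ ω)) c hc1 hc2 hdim
      (big F V (StabL ρ ω) c hdim hle hMD (Or.inl h1)) ?_ ?_
    · obtain ⟨x, hx, hx'⟩ := h1
      exact ⟨x, hx, fun h hh => hx' _ hh⟩
    · obtain ⟨μ, hμ, hμ'⟩ := h2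
      refine ⟨μ, hμ, fun h hh => ?_⟩
      have h3 : ∀ v, μ v = 0 → μ (h v) = 0 := hμ' _ hh
      obtain ⟨x, hx⟩ : ∃ x, μ x ≠ 0 := by
        by_contra hcon
        push Not at hcon
        exact hμ (LinearMap.ext hcon)
      refine ⟨μ (h x) / μ x, fun v => ?_⟩
      have h4 := h3 (v - (μ v / μ x) • x) (by
        rw [map_sub, map_smul, smul_eq_mul, div_mul_cancel₀ _ hx, sub_self])
      rw [map_sub, map_smul, map_sub, map_smul, smul_eq_mul, sub_eq_zero] at h4
      rw [h4]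
      field_simp
  have hnoc : (FixPtA F (StabL ρ ω) ∨ FixHypA F (StabL ρ ω)) → ∀ g, ∃ f : Equiv.Perm V, Ind ρ g f := by
    intro h1 g'
    rcases hS.geo g' with h2 | h2
    · exact h2
    · exfalso
      obtain ⟨g₀, hg₀, hc₀⟩ := cor F V G Ω ρ hS hdim ω hco ⟨g', h2⟩
      have h3 := fix F V G Ω ρ hS hdim ω g₀ hg₀ hc₀
      rcases h1 with h4 | h4
      · exact hflag h4 (h3.1 h4)
      · exact hflag (h3.2 h4) h4
  rcases tt F V (StabL ρ ω) c hc1 hc2 hc3 hdim hle hsc hMD with hF | hP | hH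
  · exfalso
    apply hω
    have hK : Subgroup.closure {t : V ≃ₗ[F] V | ∃ (x : V) (φ : V →ₗ[F] F), φ x = 0 ∧
        ∀ v, t v = v + φ v • x} ≤ lin F (StabL ρ ω) := by
      rw [Subgroup.closure_le]
      rintro t ⟨x, φ, hφx, ht⟩
      obtain ⟨h, hh, hv⟩ := hF x φ hφx
      have hth : t = h := LinearEquiv.ext fun v => by rw [ht, hv]
      subst hth
      exact hh
    obtain ⟨g', hg', hi⟩ := hK (gen F V (by omega) s hs)
    have hρ : ρ (g'⁻¹ * g) = 1 := by
      rw [map_mul, map_inv, inv_mul_eq_one]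
      ext W v
      have e1 := hi.2 W ((toA F V s).symm v)
      have e2 := hg.2 W ((toA F V s).symm v)
      rw [Equiv.apply_symm_apply] at e1 e2
      rw [e1, e2]
    have h1 := hS.ker _ hρ ω
    rw [mul_smul, inv_smul_eq_iff, hg'] at h1
    exact h1
  · have h := hnoc (Or.inl hP)
    exact ⟨pt F V G Ω ρ hS hdim h ω hco hP, h⟩
  · have h := hnoc (Or.inr hH)
    exact ⟨hy F V G Ω ρ hS hdim h ω hco hH, h⟩

end SpreadPerm.LG
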