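import Mathlib
import Pool.Agent.Lib.MP_e6ed9e_al.LG.CII87

set_option autoImplicit false

/-! Row NON. -/

namespace SpreadPerm.LG

open Module MulAction

noncomputable section

/-- Row NON. -/
theorem non87 (hB : StBA) : StNon := by
  intro F V _ _ _ _ _ H c hc hq hn hbig x y hx hy hyc φ hφ hφy μ hμ0 hμP hμx
  have hmf : Module.Finite F V := Module.Finite.of_finite
  obtain ⟨μ0, hμ0y, -, -, hp, hbd⟩ := hB F V H c hc hq hn hbig y hy hyc
  obtain ⟨b, hb⟩ := hp 1 H.one_mem μ hμP
  have hb1 : ∀ v, μ v = b * μ0 v := hb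
  have hb0 : b ≠ 0 := by
    rintro rfl
    apply hμ0
    ext v
    rw [hb1, zero_mul]
    rfl
  obtain ⟨g, hg, hgv⟩ := hφ.1
  have hφx : φ x = 0 := hφ.2
  have hgs : ∀ v, g.symm v = v - φ v • x := by
    intro v
    rw [LinearEquiv.symm_apply_eq, hgv, map_sub, map_smul, hφx, smul_zero, sub_zero,
      sub_add_cancel]
  have hgy : g y = y + φ y • x := hgv y
  have hy'c : ¬ Ctr H (g y) := by
    intro h
    have h1 := C87.Ctr_conj h (H.inv_mem hg)
    have h2 : (g⁻¹ : V ≃ₗ[F] V) (g y) = y := by
      change g.symm (g y) = y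
      rw [LinearEquiv.symm_apply_apply]
    rw [h2] at h1
    exact hyc h1
  have hy'0 : g y ≠ 0 := fun h => hy ((LinearEquiv.map_eq_zero_iff g).1 h)
  obtain ⟨μ1, hμ1y, -, -, hp1, hbd1⟩ := hB F V H c hc hq hn hbig (g y) hy'0 hy'c
  obtain ⟨b1, hb1'⟩ := hp1 1 H.one_mem _ (C87.P_conj hμP hg)
  have hb2 : ∀ v, μ (g.symm v) = b1 * μ1 v := hb1'
  -- a common point of the axes
  have hker : LinearMap.ker (μ0.prod μ1) ≠ ⊥ := by
    apply LinearMap.ker_ne_bot_of_finrank_lt
    rw [finrank_prod, finrank_self]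
    omega
  obtain ⟨z, hz, hz0⟩ := (Submodule.ne_bot_iff _).mp hker
  rw [LinearMap.mem_ker] at hz
  have hz1 : μ0 z = 0 := congrArg Prod.fst hz
  have hz2 : μ1 z = 0 := congrArg Prod.snd hz
  refine ⟨z, ?_, hbd z hz0 hz1, ?_⟩
  · rw [Fintype.linearIndependent_iff]
    intro a ha
    rw [Fin.sum_univ_three] at ha
    simp only [Matrix.cons_val_zero, Matrix.cons_val_one, Matrix.cons_val] at ha
    have e1 : a 0 * μ x + a 1 * μ y = 0 := by
      have := congrArg μ ha
      rw [map_add, map_add, map_smul, map_smul, map_smul, map_zero, hb1 z, hz1, mul_zero,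
        smul_zero, add_zero, smul_eq_mul, smul_eq_mul] at this
      exact this
    have e2 : a 0 * μ x + a 1 * (μ y - φ y * μ x) = 0 := by
      have := congrArg (fun v => μ (g.symm v)) ha
      simp only [map_add, map_smul, map_zero] at this
      rw [hb2 z, hz2, mul_zero, smul_zero, add_zero, hgs x, hgs y, hφx, zero_smul, sub_zero,
        map_sub, map_smul, smul_eq_mul, smul_eq_mul, smul_eq_mul] at this
      exact this
    have e3 : a 1 = 0 := by
      have : a 1 * (φ y * μ x) = 0 := by
        have := sub_eq_zero.mpr (e1.trans e2.symm)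
        linear_combination this
      rcases mul_eq_zero.mp this with h | h
      · exact h
      · exact absurd h (mul_ne_zero hφy hμx)
    have e4 : a 0 = 0 := by
      rw [e3, zero_mul, add_zero] at e1
      exact (mul_eq_zero.mp e1).resolve_right hμx
    have e5 : a 2 = 0 := by
      rw [e3, e4, zero_smul, zero_smul, zero_add, zero_add] at ha
      exact (smul_eq_zero.mp ha).resolve_right hz0
    intro i
    fin_cases i
    · exact e4
    · exact e3
    · exact e5
  · have := hbd1 z hz0 hz2
    rw [hgy] at this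
    exact this

end

end SpreadPerm.LG
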