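import Pool.Agent.Lib.MP_e6ed9e_al.LG.Defs3
import Pool.Agent.Lib.MP_e6ed9e_al.LG.NulMD35

/-! # Row NulMDS -/

namespace SpreadPerm.LG

open Module MulAction

namespace N35

theorem arith35S (q n m c g h k f gx hx p : ℕ) (hm : n = m + 2) (hc : 1 ≤ c)
    (hq : 100 * c ^ 2 ≤ q)
    (hloc : q ^ (n - 1) * (q - 1) * q ^ (n - 2) * hx ≤ gx * p) (hP : p ≤ q)
    (h1 : (q - 1) * g = (q ^ n - 1) * gx) (h2 : (q - 1) * h ≤ (q ^ n - 1) * hx)
    (hc1 : g ≤ q ^ (2 * n) * f) (hc2 : (q ^ 2 - 1) * (q ^ 2 - q) * f ≤ k) (hk : k ≤ c * h)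
    (hf : 0 < f) : False := by
  have hq1 : 100 * c ≤ q := by nlinarith
  have hq100 : 100 ≤ q := by nlinarith
  obtain ⟨r, hr⟩ : ∃ r, q = r + 1 := ⟨q - 1, by omega⟩
  have hr1 : q - 1 = r := by omega
  rw [hr1] at hloc h1 h2
  have e1 : n - 1 = m + 1 := by omega
  have e2 : n - 2 = m := by omega
  rw [e1, e2] at hloc
  have hrpos : 0 < r := by omega
  have hqpos : 0 < q := by omega
  have s1 : q ^ (2 * m) * r * h ≤ g := by
    have t1 : q ^ (m + 1) * r * q ^ m * hx ≤ gx * q :=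
      hloc.trans (Nat.mul_le_mul_left _ hP)
    have t2 : q ^ (m + 1) * r * q ^ m * hx * (q ^ n - 1) ≤ gx * q * (q ^ n - 1) :=
      Nat.mul_le_mul_right _ t1
    have t3 : (q * r) * (q ^ (2 * m) * r * h) ≤ (q * r) * g := by
      calc (q * r) * (q ^ (2 * m) * r * h) = q ^ (m + 1) * r * q ^ m * (r * h) := by
            rw [two_mul, pow_add, pow_succ]; ring
        _ ≤ q ^ (m + 1) * r * q ^ m * ((q ^ n - 1) * hx) := Nat.mul_le_mul_left _ h2
        _ = q ^ (m + 1) * r * q ^ m * hx * (q ^ n - 1) := by ring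
        _ ≤ gx * q * (q ^ n - 1) := t2
        _ = q * ((q ^ n - 1) * gx) := by ring
        _ = (q * r) * g := by rw [← h1]; ring
    exact Nat.le_of_mul_le_mul_left t3 (by positivity)
  have s2 : r * h ≤ q ^ 4 * f := by
    have t1 : q ^ (2 * m) * (r * h) ≤ q ^ (2 * m) * (q ^ 4 * f) := by
      calc q ^ (2 * m) * (r * h) = q ^ (2 * m) * r * h := by ring
        _ ≤ g := s1
        _ ≤ q ^ (2 * n) * f := hc1
        _ = q ^ (2 * m) * (q ^ 4 * f) := by
            rw [hm, show 2 * (m + 2) = 2 * m + 4 by ring, pow_add]; ring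
    exact Nat.le_of_mul_le_mul_left t1 (by positivity)
  have s3 : r * ((q ^ 2 - 1) * (q ^ 2 - q)) ≤ c * q ^ 4 := by
    have t1 : f * (r * ((q ^ 2 - 1) * (q ^ 2 - q))) ≤ f * (c * q ^ 4) := by
      calc f * (r * ((q ^ 2 - 1) * (q ^ 2 - q))) = r * ((q ^ 2 - 1) * (q ^ 2 - q) * f) := by ring
        _ ≤ r * (c * h) := Nat.mul_le_mul_left _ (hc2.trans hk)
        _ = c * (r * h) := by ring
        _ ≤ c * (q ^ 4 * f) := Nat.mul_le_mul_left _ s2
        _ = f * (c * q ^ 4) := by ring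
    exact Nat.le_of_mul_le_mul_left t1 hf
  have s4 : 99 * c ≤ r := by omega
  have s5 : 99 * ((q ^ 2 - 1) * (q ^ 2 - q)) ≤ q ^ 4 := by
    have t1 : c * (99 * ((q ^ 2 - 1) * (q ^ 2 - q))) ≤ c * q ^ 4 := by
      calc c * (99 * ((q ^ 2 - 1) * (q ^ 2 - q))) = 99 * c * ((q ^ 2 - 1) * (q ^ 2 - q)) := by ring
        _ ≤ r * ((q ^ 2 - 1) * (q ^ 2 - q)) := Nat.mul_le_mul_right _ s4
        _ ≤ c * q ^ 4 := s3
    exact Nat.le_of_mul_le_mul_left t1 hc
  have s6 : q ^ 2 ≤ 2 * (q ^ 2 - 1) := by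
    have : 2 ≤ q ^ 2 := by nlinarith
    omega
  have s7 : q ^ 2 ≤ 2 * (q ^ 2 - q) := by
    have : 2 * q ≤ q ^ 2 := by nlinarith
    omega
  have s8 : q ^ 2 * q ^ 2 ≤ (2 * (q ^ 2 - 1)) * (2 * (q ^ 2 - q)) := Nat.mul_le_mul s6 s7
  have s9 : 0 < q ^ 4 := by positivity
  have s10 : q ^ 4 = q ^ 2 * q ^ 2 := by ring
  nlinarith

/-- The stabilizer of a subspace in `ΓL`. -/
def stabA {F V : Type} [Field F] [AddCommGroup V] [Module F V] (W : Submodule F V) :
    Subgroup (Equiv.Perm V) where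
  carrier := {g | g ∈ GamL F V ∧ ∀ v, g v ∈ W ↔ v ∈ W}
  one_mem' := ⟨(GamL F V).one_mem, fun v => Iff.rfl⟩
  mul_mem' := by
    rintro a b ⟨ha, ha'⟩ ⟨hb, hb'⟩
    refine ⟨(GamL F V).mul_mem ha hb, fun v => ?_⟩
    show a (b v) ∈ W ↔ _
    rw [ha', hb']
  inv_mem' := by
    rintro a ⟨ha, ha'⟩
    refine ⟨(GamL F V).inv_mem ha, fun v => ?_⟩
    show a.symm v ∈ W ↔ _
    rw [← ha' (a.symm v), Equiv.apply_symm_apply]

theorem toA_mem {F V : Type} [Field F] [AddCommGroup V] [Module F V] (g : V ≃ₗ[F] V) :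
    toA F V g ∈ GamL F V :=
  ⟨fun v w => map_add g v w, RingEquiv.refl F, fun a v => map_smul g a v⟩

theorem lin_stabA {F V : Type} [Field F] [AddCommGroup V] [Module F V] (W : Submodule F V) :
    lin F (stabA W) = stab W := by
  ext g
  constructor
  · rintro ⟨-, h⟩
    exact h
  · intro h
    exact ⟨toA_mem g, h⟩

/-- A linear map with given determinant in the stabilizer. -/
theorem exists_det {F V : Type} [Field F] [AddCommGroup V] [Module F V] [FiniteDimensional F V]
    (W : Submodule F V) {x : V} (hx : x ≠ 0) (hxW : x ∈ W) (g : V ≃ₗ[F] V) :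
    ∃ k ∈ stab W, LinearEquiv.det k = LinearEquiv.det g := by
  obtain ⟨μ, hμ⟩ : ∃ μ : V →ₗ[F] F, μ x ≠ 0 := by
    by_contra hcon
    push Not at hcon
    exact hx ((Module.forall_dual_apply_eq_zero_iff F x).1 hcon)
  set a : F := LinearMap.det (g : V →ₗ[F] V) with ha
  have ha0 : a ≠ 0 := (LinearEquiv.isUnit_det' g).ne_zero
  set f : V →ₗ[F] F := ((a - 1) * (μ x)⁻¹) • μ with hf
  have hfx : 1 + f x = a := by
    rw [hf, LinearMap.smul_apply, smul_eq_mul, mul_assoc, inv_mul_cancel₀ hμ]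
    ring
  have hu : IsUnit (1 + f x) := by rw [hfx]; exact ha0.isUnit
  set k : V ≃ₗ[F] V := LinearEquiv.dilatransvection hu with hk
  have hkv : ∀ v, k v = v + f v • x := fun v => LinearEquiv.dilatransvection.apply
  have hkdet : LinearMap.det (k : V →ₗ[F] V) = a := by
    rw [hk, LinearEquiv.dilatransvection.coe_toLinearMap, LinearMap.transvection.det, hfx]
  refine ⟨k, ?_, ?_⟩
  · apply stab_of_le
    intro v hv
    rw [hkv]
    exact W.add_mem hv (W.smul_mem _ hxW)
  · apply Units.ext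
    rw [LinearEquiv.coe_det, LinearEquiv.coe_det, hkdet]

/-- The image of a subspace under a semilinear bijection. -/
def img {F V : Type} [Field F] [AddCommGroup V] [Module F V] (W : Submodule F V)
    (g : Equiv.Perm V) (hg : g ∈ GamL F V) : Submodule F V where
  carrier := {v | g.symm v ∈ W}
  zero_mem' := by
    show g.symm 0 ∈ W
    have : g⁻¹ 0 = 0 := GamL_zero ((GamL F V).inv_mem hg)
    have h1 : g.symm 0 = 0 := this
    rw [h1]
    exact W.zero_mem
  add_mem' := by
    intro a b ha hb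
    show g.symm (a + b) ∈ W
    have h1 : g.symm (a + b) = g.symm a + g.symm b := ((GamL F V).inv_mem hg).1 a b
    rw [h1]
    exact W.add_mem ha hb
  smul_mem' := by
    intro c a ha
    show g.symm (c • a) ∈ W
    obtain ⟨σ, hσ⟩ := ((GamL F V).inv_mem hg).2
    have h1 : g.symm (c • a) = σ c • g.symm a := hσ c a
    rw [h1]
    exact W.smul_mem _ ha

theorem finrank_img {F V : Type} [Field F] [Finite F] [AddCommGroup V] [Module F V] [Finite V]
    (W : Submodule F V) (g : Equiv.Perm V) (hg : g ∈ GamL F V) :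
    finrank F (img W g hg) = finrank F W := by
  haveI : Module.Finite F V := Module.Finite.of_finite
  have h1 : Nat.card (img W g hg) = Nat.card W := by
    refine Nat.card_congr ⟨fun v => ⟨g.symm v.1, v.2⟩, fun w => ⟨g w.1, ?_⟩, ?_, ?_⟩
    · show g.symm (g w.1) ∈ W
      rw [Equiv.symm_apply_apply]
      exact w.2
    · intro v
      exact Subtype.ext (Equiv.apply_symm_apply g v.1)
    · intro w
      exact Subtype.ext (Equiv.symm_apply_apply g w.1)
  have h2 : Nat.card (img W g hg) = Nat.card F ^ finrank F (img W g hg) :=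
    Module.natCard_eq_pow_finrank (K := F)
  have h3 : Nat.card W = Nat.card F ^ finrank F W := Module.natCard_eq_pow_finrank (K := F)
  rw [h2, h3] at h1
  exact Nat.pow_right_injective (Finite.one_lt_card (α := F)) h1

end N35

open N35 in
/-- Row NulMDS. -/
theorem nulMDS35 (hNul : StNulS) (hSP : StSP) (hLoc2 : StLoc2) (hOrb : StOrb) : StNulMDS := by
  classical
  intro F V _ _ _ _ _ L c hc hq hn hL hS hO hMD
  set H : Subgroup (V ≃ₗ[F] V) := lin F L with hH
  obtain ⟨hn4, hPx, hsym⟩ := hNul F V H hn hO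
  set q := Nat.card F with hqdef
  set n := finrank F V with hndef
  haveI : Module.Finite F V := Module.Finite.of_finite
  haveI : Nontrivial V := Module.nontrivial_of_finrank_pos (R := F) (by omega)
  haveI : Finite (V ≃ₗ[F] V) := Finite.of_injective (fun g : V ≃ₗ[F] V => (g : V → V))
    (fun a b h => LinearEquiv.ext (fun v => congrFun h v))
  obtain ⟨x, hx⟩ := exists_ne (0 : V)
  obtain ⟨lam, hlamE, hlam0, hlam⟩ := hO x hx
  have hlx : lam x = 0 := hlamE.2
  -- the hyperplane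
  have hker : finrank F (LinearMap.ker lam) + 1 = n := by
    have h1 := LinearMap.finrank_range_add_finrank_ker lam
    have h2 : LinearMap.range lam = ⊤ := LinearMap.range_eq_top.2 (LinearMap.surjective hlam0)
    rw [h2, finrank_top, finrank_self] at h1
    omega
  obtain ⟨y, hyk, hyx⟩ : ∃ y, lam y = 0 ∧ ∀ a : F, y ≠ a • x := by
    by_contra hcon
    push Not at hcon
    have h1 : LinearMap.ker lam ≤ F ∙ x := by
      intro v hv
      obtain ⟨a, ha⟩ := hcon v hv
      rw [ha]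
      exact Submodule.smul_mem _ _ (Submodule.mem_span_singleton_self x)
    have h2 := Submodule.finrank_mono h1
    rw [finrank_span_singleton hx] at h2
    omega
  obtain ⟨z, hz⟩ : ∃ z, lam z ≠ 0 := by
    by_contra hcon
    push Not at hcon
    exact hlam0 (LinearMap.ext hcon)
  have hy0 : y ≠ 0 := fun h => hyx 0 (by rw [h, zero_smul])
  have hz0 : z ≠ 0 := fun h => hz (by rw [h, map_zero])
  have hli : LinearIndependent F ![x, y] := by
    rw [LinearIndependent.pair_iff' hx]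
    exact fun a h => hyx a h.symm
  have hli' : LinearIndependent F ![x, z] := by
    rw [LinearIndependent.pair_iff' hx]
    intro a h
    apply hz
    rw [← h, map_smul, hlx, smul_zero]
  set W : Submodule F V := Submodule.span F (Set.range ![x, y]) with hW
  set W' : Submodule F V := Submodule.span F (Set.range ![x, z]) with hW'
  have hfW : finrank F W = 2 := by
    rw [hW, finrank_span_eq_card hli]; rfl
  have hfW' : finrank F W' = 2 := by
    rw [hW', finrank_span_eq_card hli']; rfl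
  have hxW : x ∈ W := Submodule.subset_span ⟨0, rfl⟩
  have hyW : y ∈ W := Submodule.subset_span ⟨1, rfl⟩
  have hxW' : x ∈ W' := Submodule.subset_span ⟨0, rfl⟩
  have hzW' : z ∈ W' := Submodule.subset_span ⟨1, rfl⟩
  -- the symmetric relation
  have hsymm : ∀ u v : V, u ≠ 0 → v ≠ 0 → (∀ φ ∈ E H u, φ v = 0) → ∀ ψ ∈ E H v, ψ u = 0 := by
    intro u v hu hv h ψ hψ
    by_cases hψ0 : ψ = 0
    · rw [hψ0]; rfl
    obtain ⟨φ, hφ, hφ0, -⟩ := hO u hu
    exact hsym u v hu hv φ hφ ψ hψ hφ0 hψ0 (h φ hφ)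
  have hA : ∀ φ ∈ E H x, φ y = 0 := by
    intro φ hφ
    obtain ⟨a, ha⟩ := hlam φ hφ
    rw [ha, LinearMap.smul_apply, hyk, smul_zero]
  -- `L K ≠ ΓL`
  have hLK : ¬ ∀ g ∈ GamL F V, ∃ l ∈ L, ∃ k ∈ stabA W, g = l * k := by
    intro hall
    let e : W ≃ₗ[F] W' := LinearEquiv.ofFinrankEq W W' (by rw [hfW, hfW'])
    obtain ⟨g, hg⟩ := exists_ext e
    obtain ⟨l, hl, k, hk, hgk⟩ := hall (toA F V g) (toA_mem g)
    have hlW : ∀ v ∈ W, l v ∈ W' := by
      intro v hv
      have h1 : k.symm v ∈ W := by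
        rw [← hk.2 (k.symm v), Equiv.apply_symm_apply]
        exact hv
      have h2 : g (k.symm v) = l v := by
        have h3 := congrArg (fun p : Equiv.Perm V => p (k.symm v)) hgk
        have h4 : g (k.symm v) = l (k (k.symm v)) := h3
        rw [h4, Equiv.apply_symm_apply]
      rw [← h2, hg ⟨_, h1⟩]
      exact (e _).2
    have hl0 : l 0 = 0 := GamL_zero (hL hl)
    have hlx : l x ≠ 0 := fun h0 => hx (l.injective (h0.trans hl0.symm))
    have hly : l y ≠ 0 := fun h0 => hy0 (l.injective (h0.trans hl0.symm))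
    obtain ⟨σ0, hσ0⟩ := (hL hl).2
    have hli2 : LinearIndependent F ![l x, l y] := by
      rw [LinearIndependent.pair_iff' hlx]
      intro a ha
      have h1 : l (σ0.symm a • x) = l y := by
        rw [hσ0, RingEquiv.apply_symm_apply, ha]
      exact hyx _ (l.injective h1).symm
    have hspan : Submodule.span F (Set.range ![l x, l y]) = W' := by
      apply Submodule.eq_of_le_of_finrank_eq
      · rw [Submodule.span_le]
        rintro _ ⟨i, rfl⟩
        fin_cases i
        · exact hlW x hxW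
        · exact hlW y hyW
      · rw [finrank_span_eq_card hli2, hfW']; rfl
    have hkill : ∀ φ : V →ₗ[F] F, φ (l x) = 0 → φ (l y) = 0 → ∀ v ∈ W', φ v = 0 := by
      intro φ h1 h2 v hv
      have h3 : W' ≤ LinearMap.ker φ := by
        rw [← hspan, Submodule.span_le]
        rintro _ ⟨i, rfl⟩
        fin_cases i
        · exact h1
        · exact h2
      exact h3 hv
    have hA1 : ∀ φ ∈ E H (l x), φ (l y) = 0 := by
      intro φ hφ
      obtain ⟨σ, -, hσ2⟩ := hSP F V L hL l⁻¹ (L.inv_mem hl)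
      obtain ⟨ψ, hψ, hψv⟩ := hσ2 (l x) φ hφ.1
      have e1 : l⁻¹ (l x) = x := Equiv.symm_apply_apply l x
      have e2 : l⁻¹ (l y) = y := Equiv.symm_apply_apply l y
      rw [e1] at hψ
      have h1 : ψ x = 0 := by
        have := hψv (l x)
        rw [e1, hφ.2, map_zero] at this
        exact this
      have h2 := hA ψ ⟨hψ, h1⟩
      have h3 := hψv (l y)
      rw [e2, h2] at h3
      exact (map_eq_zero_iff σ σ.injective).1 h3.symm
    have hA2 : ∀ φ ∈ E H (l y), φ (l x) = 0 := hsymm _ _ hlx hly hA1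
    have h1 : ∀ φ ∈ E H (l x), φ x = 0 := fun φ hφ => hkill φ hφ.2 (hA1 φ hφ) x hxW'
    have h2 : ∀ φ ∈ E H (l y), φ x = 0 := fun φ hφ => hkill φ (hA2 φ hφ) hφ.2 x hxW'
    have h3 := hsymm _ _ hlx hx h1 lam hlamE
    have h4 := hsymm _ _ hly hx h2 lam hlamE
    exact hz (hkill lam h3 h4 z hzW')
  -- `SL K = ΓL`
  have hSK : ∀ g ∈ GamL F V, ∃ s : V ≃ₗ[F] V, LinearEquiv.det s = 1 ∧
      ∃ k ∈ stabA W, g = toA F V s * k := by
    intro g hg
    let e : W ≃ₗ[F] (img W g hg) := LinearEquiv.ofFinrankEq W (img W g hg)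
      (finrank_img W g hg).symm
    obtain ⟨s, hs⟩ := exists_ext e
    obtain ⟨d, hd, hdd⟩ := exists_det W hx hxW s
    have hsW : ∀ v, s v ∈ img W g hg ↔ v ∈ W := by
      have h1 : ∀ v ∈ W, s v ∈ img W g hg := by
        intro v hv
        rw [hs ⟨v, hv⟩]
        exact (e _).2
      have h2 : W.map (s : V →ₗ[F] V) = img W g hg := by
        apply Submodule.eq_of_le_of_finrank_eq
        · rintro _ ⟨v, hv, rfl⟩
          exact h1 v hv
        · rw [finrank_img]
          exact LinearEquiv.finrank_map_eq s W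
      intro v
      constructor
      · intro hv
        rw [← h2] at hv
        obtain ⟨w, hw, hwv⟩ := hv
        have : w = v := s.injective hwv
        rwa [← this]
      · exact h1 v
    refine ⟨s * d⁻¹, ?_, (toA F V (s * d⁻¹))⁻¹ * g, ⟨?_, ?_⟩, ?_⟩
    · rw [map_mul, map_inv, hdd, mul_inv_cancel]
    · exact (GamL F V).mul_mem ((GamL F V).inv_mem (toA_mem _)) hg
    · intro v
      show (toA F V (s * d⁻¹)).symm (g v) ∈ W ↔ _
      have h1 : ∀ u, (toA F V (s * d⁻¹)).symm u = d (s.symm u) := by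
        intro u
        rw [Equiv.symm_apply_eq]
        show u = s (d.symm (d (s.symm u)))
        rw [LinearEquiv.symm_apply_apply, LinearEquiv.apply_symm_apply]
      rw [h1, mem_stab.1 hd, ← hsW (s.symm (g v)), LinearEquiv.apply_symm_apply]
      show g.symm (g v) ∈ W ↔ _
      rw [Equiv.symm_apply_apply]
    · group
  have hKH := hMD (stabA W) (fun g hg => hg.1) hSK hLK
  rw [lin_stabA] at hKH
  -- LOC2
  have hR : ∀ h ∈ H, (∃ a : F, h x = a • x) →
      (LinearMap.ker lam).map (h : V →ₗ[F] V) = LinearMap.ker lam := by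
    rintro h hh ⟨a, ha⟩
    have ha0 : a ≠ 0 := by
      rintro rfl
      rw [zero_smul] at ha
      exact hx ((LinearEquiv.map_eq_zero_iff h).1 ha)
    have h1 : a⁻¹ • lam ∈ E H (h x) := by rw [ha]; exact E_smul ha0 hlamE
    obtain ⟨b, hb⟩ := hlam _ (E_conj hh h1)
    apply Submodule.eq_of_le_of_finrank_eq
    · rintro _ ⟨v, hv, rfl⟩
      have h2 := LinearMap.congr_fun hb v
      have h3 : a⁻¹ * lam (h v) = b * lam v := h2
      have hv' : lam v = 0 := hv
      rw [hv', mul_zero] at h3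
      rcases mul_eq_zero.1 h3 with h4 | h4
      · exact absurd h4 (inv_ne_zero ha0)
      · exact h4
    · exact LinearEquiv.finrank_map_eq h _
  have hloc := hLoc2 F V H x (LinearMap.ker lam) hx hlx ⟨y, hyk, hyx⟩
    (fun h => hlam0 (LinearMap.ker_eq_top.1 h)) hR
  obtain ⟨horb0, horb1, -⟩ := hOrb F V H x hx
  have hP : Nat.card (P H x) ≤ q := by
    have h1 : ∀ φ : P H x, ∃ a : F, φ.1 = a • lam := fun φ => hlam φ.1 ⟨φ.2, hPx x hx φ.1 φ.2⟩
    choose f hf using h1
    apply Nat.card_le_card_of_injective f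
    intro φ ψ h
    apply Subtype.ext
    rw [hf, hf, h]
  -- counts
  have hc1 := card_le1 W
  have hc2 := card_le2 W
  rw [card_gl W hfW] at hc2
  have hc3 : Nat.card (W →ₗ[F] V) = q ^ (2 * n) := by
    rw [Module.natCard_eq_pow_finrank (K := F), Module.finrank_linearMap, hfW]
  rw [hc3] at hc1
  have hf0 : 0 < Nat.card (Fx W) := by
    haveI : Finite (Fx W) := Subtype.finite
    haveI : Nonempty (Fx W) := ⟨⟨1, fun v _ => rfl⟩⟩
    exact Nat.card_pos
  obtain ⟨m, hm⟩ : ∃ m, n = m + 2 := ⟨n - 2, by omega⟩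
  exact arith35S q n m c _ _ _ _ _ _ _ hm hc hq hloc hP horb1 horb0 hc1 hc2 hKH hf0

end SpreadPerm.LG
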