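import Pool.Agent.Lib.MP_e6ed9e_al.LG.Defs3
import Pool.Agent.Lib.MP_e6ed9e_al.LG.Nul1

/-!
# Row NulS: the null polarity, without transitivity on the points
-/

namespace SpreadPerm.LG

open Module MulAction
open SpreadPerm.LG.Nul1

/-- Row NulS. -/
theorem nulS54 : StNulS := by
  intro F V _ _ _ _ _ H h3 hO
  have hfd : FiniteDimensional F V := inferInstance
  refine ⟨?_, ?_, ?_⟩
  · by_contra h4
    have h3' : finrank F V = 3 := by omega
    have : Nontrivial V := by
      apply nontrivial_of_finrank_pos (R := F)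
      omega
    obtain ⟨x, hx⟩ := exists_ne (0 : V)
    obtain ⟨lx, hlx, hlx0, -⟩ := hO x hx
    obtain ⟨z, hz⟩ : ∃ z, lx z ≠ 0 := by
      by_contra hc
      push Not at hc
      exact hlx0 (LinearMap.ext hc)
    have hz0 : z ≠ 0 := by
      rintro rfl
      exact hz (map_zero _)
    obtain ⟨lz, hlz, hlz0, -⟩ := hO z hz0
    obtain ⟨y, hy, hxy, hzy⟩ := exists_common h3 lx lz
    obtain ⟨ly, hly, hly0, -⟩ := hO y hy
    have e1 : ly z = 0 := sym hO hy hlz hlz0 hzy hly hly0
    have e2 : ly x = 0 := sym hO hy hlx hlx0 hxy hly hly0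
    have hni : ∀ a : F, y ≠ a • x := by
      rintro a rfl
      have ha : a ≠ 0 := by
        rintro rfl
        exact hy (zero_smul _ _)
      rw [map_smul, smul_eq_mul, mul_eq_zero] at hzy
      rcases hzy with h | h
      · exact ha h
      · exact hz (sym hO hx hlz hlz0 h hlx hlx0)
    have hxy2 : LinearIndependent F ![x, y] := by
      rw [LinearIndependent.pair_iff' hx]
      intro a ha
      exact hni a ha.symm
    rw [LinearIndependent.pair_iff] at hxy2
    have hli : LinearIndependent F ![x, y, z] := by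
      rw [Fintype.linearIndependent_iff]
      intro g hg
      rw [Fin.sum_univ_three] at hg
      change g 0 • x + g 1 • y + g 2 • z = 0 at hg
      have h1 := congrArg lx hg
      rw [map_add, map_add, map_smul, map_smul, map_smul, hlx.2, hxy, smul_zero, smul_zero,
        zero_add, zero_add, map_zero, smul_eq_mul] at h1
      have h2 : g 2 = 0 := (mul_eq_zero.1 h1).resolve_right hz
      rw [h2, zero_smul, add_zero] at hg
      have h4 := hxy2 (g 0) (g 1) hg
      intro i
      fin_cases i
      · exact h4.1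
      · exact h4.2
      · exact h2
    have hsp : Submodule.span F (Set.range ![x, y, z]) = ⊤ :=
      hli.span_eq_top_of_card_eq_finrank' (by simp [h3'])
    apply hly0
    apply LinearMap.ext_on hsp
    rintro _ ⟨i, rfl⟩
    fin_cases i
    · exact e2
    · exact hly.2
    · exact e1
  · intro x hx φ hφ
    by_contra hc
    obtain ⟨lx, hlx, hlx0, -⟩ := hO x hx
    obtain ⟨y0, hy0, hy0'⟩ : ∃ y0, φ y0 = 0 ∧ lx y0 ≠ 0 := by
      by_contra hcc
      push Not at hcc
      exact hlx0 (eq_zero hc hcc hlx.2)
    obtain ⟨z, hz, hφz, hlz⟩ := exists_common h3 φ lx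
    obtain ⟨lz, hlzE, hlz0, -⟩ := hO z hz
    have hA : ∀ y, φ y = 0 → lx y ≠ 0 → lz y = 0 := by
      intro y hy hly
      have hy0 : y ≠ 0 := by
        rintro rfl
        exact hly (map_zero _)
      obtain ⟨lam, hlam, hlam0, -⟩ := hO y hy0
      have h1 : lam x ≠ 0 := fun h => hly (sym hO hx hlam hlam0 h hlx hlx0)
      obtain ⟨b, hb⟩ := key hO hy0 hφ hy hlam hlam0 h1
      have hb0 : b ≠ 0 := by
        rintro rfl
        rw [zero_smul] at hb
        rw [hb] at hc
        exact hc rfl
      have h2 : φ z = b * lam z := by rw [hb]; rfl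
      rw [hφz] at h2
      have h3 : lam z = 0 := (mul_eq_zero.1 h2.symm).resolve_left hb0
      exact sym hO hz hlam hlam0 h3 hlzE hlz0
    have hB : ∀ v, φ v = 0 → lz v = 0 := by
      intro v hv
      by_cases h : lx v = 0
      · have h1 := hA (v + y0) (by rw [map_add, hv, hy0, add_zero])
          (by rw [map_add, h, zero_add]; exact hy0')
        rw [map_add, hA y0 hy0 hy0', add_zero] at h1
        exact h1
      · exact hA v hv h
    exact hlz0 (eq_zero hc hB (sym hO hz hlx hlx0 hlz hlzE hlz0))
  · intro x y hx hy φ hφ ψ hψ hφ0 hψ0 h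
    exact sym hO hy hφ hφ0 h hψ hψ0

end SpreadPerm.LG
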