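import Pool.Agent.Lib.MP_e6ed9e_al.LG.Pt2_56
import Pool.Agent.Lib.MP_e6ed9e_al.LG.Defs3

/-!
# Row Pt2S: the stabilizer of a point of the projective space, semilinear groups
-/

namespace SpreadPerm.LG

open Module MulAction

theorem pt2S29 : StPt2S := by
  intro F V Ω _ _ _ _ _ _ Γ _ _ hA hdim ω hco ⟨x, hx, hstab⟩
  have hinv : ∀ (g : Γ) (c : F) (z : V), g.1 z = c • x → z ≠ 0 →
      ∃ d : F, d ≠ 0 ∧ z = d • g.1.symm x := by
    intro g c z hc hz
    obtain ⟨-, σ, hσ⟩ := hA.sem g.2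
    have hc0 : c ≠ 0 := by
      rintro rfl
      rw [zero_smul] at hc
      exact hz (g.1.injective (hc.trans (GamL_zero (hA.sem g.2)).symm))
    refine ⟨σ.symm c, by simpa using hc0, ?_⟩
    apply g.1.injective
    rw [hc, hσ, RingEquiv.apply_symm_apply, Equiv.apply_symm_apply]
  have hsub : ∀ g : Γ, (∃ c : F, g.1 x = c • x) → g • ω = ω := by
    let M : Subgroup Γ :=
      { carrier := {g | ∃ c : F, g.1 x = c • x}
        one_mem' := ⟨1, by
          rw [Subgroup.coe_one, one_smul]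
          rfl⟩
        mul_mem' := by
          rintro g h ⟨c, hc⟩ ⟨d, hd⟩
          obtain ⟨-, σ, hσ⟩ := hA.sem g.2
          refine ⟨σ d * c, ?_⟩
          rw [Subgroup.coe_mul]
          show g.1 (h.1 x) = _
          rw [hd, hσ, hc, smul_smul]
        inv_mem' := by
          rintro g ⟨c, hc⟩
          obtain ⟨d, hd0, hd⟩ := hinv g c x hc hx
          refine ⟨d⁻¹, ?_⟩
          rw [Subgroup.coe_inv]
          show g.1.symm x = _
          conv_rhs => rw [hd]
          rw [inv_smul_smul₀ hd0] }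
    have hle : stabilizer Γ ω ≤ M := fun g hg => hstab g hg
    have hM : M ≠ ⊤ := by
      intro htop
      obtain ⟨y, hy⟩ : ∃ y : V, ∀ a : F, y ≠ a • x := by
        by_contra hcon
        push Not at hcon
        have h1 : finrank F V ≤ 1 := finrank_le_one x (fun w => by
          obtain ⟨a, ha⟩ := hcon w
          exact ⟨a, ha.symm⟩)
        omega
      obtain ⟨φ, hφ, hφ'⟩ := Submodule.exists_le_ker_of_notMem (p := F ∙ y) (v := x) (by
        rw [Submodule.mem_span_singleton]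
        rintro ⟨a, ha⟩
        have ha0 : a ≠ 0 := by
          rintro rfl
          rw [zero_smul] at ha
          exact hx ha.symm
        apply hy a⁻¹
        rw [← ha, inv_smul_smul₀ ha0])
      have hφy : φ y = 0 := by
        have h1 := hφ' (Submodule.mem_span_singleton_self y)
        rwa [LinearMap.mem_ker] at h1
      have h3 : (⟨toA F V (LinearEquiv.transvection hφy),
          hA.sl _ (LinearEquiv.transvection.det_eq_one hφy)⟩ : Γ) ∈ M := by
        rw [htop]
        exact Subgroup.mem_top _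
      obtain ⟨c, hc⟩ := h3
      have hc' : x + φ x • y = c • x := hc
      apply hy ((φ x)⁻¹ * (c - 1))
      have h4 : φ x • y = (c - 1) • x := by
        linear_combination (norm := module) (1 : F) • hc'
      rw [← inv_smul_smul₀ hφ y, h4, smul_smul]
    have hEq : stabilizer Γ ω = M := by
      rcases hco.le_iff.1 hle with h | h
      · exact absurd h hM
      · exact h.symm
    intro g hg
    have : g ∈ stabilizer Γ ω := by
      rw [hEq]
      exact hg
    exact this
  have key : ∀ g h : Γ, (∃ c : F, g.1 x = c • h.1 x) → g • ω = h • ω := by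
    rintro g h ⟨c, hc⟩
    obtain ⟨-, σ, hσ⟩ := hA.sem h.2
    have h1 := hsub (h⁻¹ * g) ⟨σ.symm c, by
      rw [Subgroup.coe_mul, Subgroup.coe_inv]
      show h.1.symm (g.1 x) = _
      rw [Equiv.symm_apply_eq, hc, hσ, RingEquiv.apply_symm_apply]⟩
    rw [mul_smul, inv_smul_eq_iff] at h1
    exact h1
  have hnm : ∀ p : Γ, p • ω ≠ ω → ∀ a : F, p.1 x ≠ a • x := by
    intro p hp a ha
    exact hp (hsub p ⟨a, ha⟩)
  rw [is_two_pretransitive_iff]
  intro a b c d hab hcd
  obtain ⟨g₁, rfl⟩ := exists_smul_eq Γ ω a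
  obtain ⟨g₂, rfl⟩ := exists_smul_eq Γ ω b
  obtain ⟨g₃, rfl⟩ := exists_smul_eq Γ ω c
  obtain ⟨g₄, rfl⟩ := exists_smul_eq Γ ω d
  have hp : (g₁⁻¹ * g₂) • ω ≠ ω := by
    intro h
    rw [mul_smul, inv_smul_eq_iff] at h
    exact hab h.symm
  have hr : (g₃⁻¹ * g₄) • ω ≠ ω := by
    intro h
    rw [mul_smul, inv_smul_eq_iff] at h
    exact hcd h.symm
  obtain ⟨t, e, ht, he, ht1, ht2⟩ := exists_slp56 x _ _ (hnm _ hp) (hnm _ hr)
  set s : Γ := ⟨toA F V t, hA.sl t ht⟩ with hs
  have hsω : s • ω = ω := hsub s ⟨1, by rw [one_smul]; exact ht1⟩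
  have hsp : (s * (g₁⁻¹ * g₂)) • ω = (g₃⁻¹ * g₄) • ω := key _ _ ⟨e, ht2⟩
  refine ⟨g₃ * s * g₁⁻¹, ?_, ?_⟩
  · rw [smul_smul, mul_assoc, inv_mul_cancel, mul_one, mul_smul, hsω]
  · rw [smul_smul]
    have h1 : g₃ * s * g₁⁻¹ * g₂ = g₃ * (s * (g₁⁻¹ * g₂)) := by group
    rw [h1, mul_smul, hsp, smul_smul, mul_inv_cancel_left]

end SpreadPerm.LG
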