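import Pool.Agent.Lib.MP_e6ed9e_al.LG.Defs

/-!
# Row PT2: the stabilizer of a point of the projective space
-/

namespace SpreadPerm.LG

open Module MulAction

section
variable {F V : Type} [Field F] [AddCommGroup V] [Module F V]

/-- `SL` is transitive on the points different from a given one. -/
theorem exists_slp56 (x y y' : V) (h : ∀ a : F, y ≠ a • x) (h' : ∀ a : F, y' ≠ a • x) :
    ∃ (t : V ≃ₗ[F] V) (a : F), LinearEquiv.det t = 1 ∧ a ≠ 0 ∧ t x = x ∧ t y = a • y' := by
  obtain ⟨a, φ, ha, hx, hy, hy'⟩ : ∃ (a : F) (φ : V →ₗ[F] F), a ≠ 0 ∧ φ x = 0 ∧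
      φ (a • y' - y) = 0 ∧ φ y ≠ 0 := by
    have aux : ∀ z : V, (∀ a b : F, y ≠ a • x + b • z) →
        ∃ φ : V →ₗ[F] F, φ x = 0 ∧ φ z = 0 ∧ φ y ≠ 0 := by
      intro z hz
      have hmem : y ∉ Submodule.span F {x, z} := by
        rw [Submodule.mem_span_pair]
        rintro ⟨a, b, hab⟩
        exact hz a b hab.symm
      obtain ⟨φ, hφ, hφ'⟩ := Submodule.exists_le_ker_of_notMem hmem
      refine ⟨φ, ?_, ?_, hφ⟩
      · have h1 := hφ' (Submodule.subset_span (Set.mem_insert x {z}))
        rwa [LinearMap.mem_ker] at h1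
      · have h1 := hφ' (Submodule.subset_span (Set.mem_insert_of_mem x (Set.mem_singleton z)))
        rwa [LinearMap.mem_ker] at h1
    by_cases hdep : ∃ b c : F, y = b • x + c • y'
    · obtain ⟨b, c, hbc⟩ := hdep
      obtain ⟨φ, h1, -, h3⟩ := aux 0 (fun a b => by
        rw [smul_zero, add_zero]
        exact h a)
      refine ⟨c, φ, ?_, h1, ?_, h3⟩
      · rintro rfl
        rw [zero_smul, add_zero] at hbc
        exact h b hbc
      · have h4 : c • y' - y = (-b) • x := by
          linear_combination (norm := module) (-1 : F) • hbc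
        rw [h4, map_smul, h1, smul_zero]
    · push Not at hdep
      obtain ⟨φ, h1, h2, h3⟩ := aux (y' - y) (fun a b hab => by
        have h4 : (1 + b) • y = a • x + b • y' := by
          linear_combination (norm := module) (1 : F) • hab
        by_cases hb : 1 + b = 0
        · rw [hb, zero_smul] at h4
          have hb1 : b = -1 := by linear_combination hb
          rw [hb1] at h4
          apply h' a
          linear_combination (norm := module) (1 : F) • h4
        · apply hdep ((1 + b)⁻¹ * a) ((1 + b)⁻¹ * b)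
          rw [← inv_smul_smul₀ hb y, h4]
          module)
      refine ⟨1, φ, one_ne_zero, h1, ?_, h3⟩
      rw [one_smul]
      exact h2
  have hu : φ ((φ y)⁻¹ • (a • y' - y)) = 0 := by rw [map_smul, hy, smul_zero]
  refine ⟨LinearEquiv.transvection hu, a, LinearEquiv.transvection.det_eq_one hu, ha, ?_, ?_⟩
  · rw [LinearEquiv.transvection.apply, hx, zero_smul, add_zero]
  · rw [LinearEquiv.transvection.apply, smul_inv_smul₀ hy']
    abel

end

theorem pt2_56 : StPt2 := by
  intro F V Ω _ _ _ _ _ _ Γ _ _ hA hdim ω hco ⟨x, hx, hstab⟩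
  have hg0 : ∀ (g : V ≃ₗ[F] V) (c : F), g x = c • x → c ≠ 0 := by
    rintro g c hc rfl
    rw [zero_smul] at hc
    exact hx ((LinearEquiv.map_eq_zero_iff g).1 hc)
  have hsub : ∀ g : Γ, (∃ c : F, g.1 x = c • x) → g • ω = ω := by
    let M : Subgroup Γ :=
      { carrier := {g | ∃ c : F, g.1 x = c • x}
        one_mem' := ⟨1, by
          rw [Subgroup.coe_one, one_smul]
          rfl⟩
        mul_mem' := by
          rintro g h ⟨c, hc⟩ ⟨d, hd⟩
          refine ⟨d * c, ?_⟩
          rw [Subgroup.coe_mul]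
          show g.1 (h.1 x) = _
          rw [hd, map_smul, hc, smul_smul]
        inv_mem' := by
          rintro g ⟨c, hc⟩
          have hc0 := hg0 g.1 c hc
          refine ⟨c⁻¹, ?_⟩
          rw [Subgroup.coe_inv]
          show g.1.symm x = _
          rw [LinearEquiv.symm_apply_eq, map_smul, hc, inv_smul_smul₀ hc0] }
    have hle : stabilizer Γ ω ≤ M := fun g hg => hstab g hg
    have hM : M ≠ ⊤ := by
      intro htop
      obtain ⟨y, hy⟩ : ∃ y : V, ∀ a : F, y ≠ a • x := by
        by_contra hcon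
        push Not at hcon
        have h1 : finrank F V ≤ 1 := finrank_le_one x (fun w => by
          obtain ⟨a, ha⟩ := hcon w
          exact ⟨a, ha.symm⟩)
        omega
      obtain ⟨φ, hφ, hφ'⟩ := Submodule.exists_le_ker_of_notMem (p := F ∙ y) (v := x) (by
        rw [Submodule.mem_span_singleton]
        rintro ⟨a, ha⟩
        have ha0 : a ≠ 0 := by
          rintro rfl
          rw [zero_smul] at ha
          exact hx ha.symm
        apply hy a⁻¹
        rw [← ha, inv_smul_smul₀ ha0])
      have hφy : φ y = 0 := by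
        have h1 := hφ' (Submodule.mem_span_singleton_self y)
        rwa [LinearMap.mem_ker] at h1
      have h3 : (⟨LinearEquiv.transvection hφy,
          hA.sl _ (LinearEquiv.transvection.det_eq_one hφy)⟩ : Γ) ∈ M := by
        rw [htop]
        exact Subgroup.mem_top _
      obtain ⟨c, hc⟩ := h3
      have hc' : x + φ x • y = c • x := hc
      apply hy ((φ x)⁻¹ * (c - 1))
      have h4 : φ x • y = (c - 1) • x := by
        linear_combination (norm := module) (1 : F) • hc'
      rw [← inv_smul_smul₀ hφ y, h4, smul_smul]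
    have hEq : stabilizer Γ ω = M := by
      rcases hco.le_iff.1 hle with h | h
      · exact absurd h hM
      · exact h.symm
    intro g hg
    have : g ∈ stabilizer Γ ω := by
      rw [hEq]
      exact hg
    exact this
  have key : ∀ g h : Γ, (∃ c : F, g.1 x = c • h.1 x) → g • ω = h • ω := by
    rintro g h ⟨c, hc⟩
    have h1 := hsub (h⁻¹ * g) ⟨c, by
      rw [Subgroup.coe_mul, Subgroup.coe_inv]
      show h.1.symm (g.1 x) = _
      rw [hc, map_smul, LinearEquiv.symm_apply_apply]⟩
    rw [mul_smul, inv_smul_eq_iff] at h1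
    exact h1
  have hnm : ∀ p : Γ, p • ω ≠ ω → ∀ a : F, p.1 x ≠ a • x := by
    intro p hp a ha
    exact hp (hsub p ⟨a, ha⟩)
  rw [is_two_pretransitive_iff]
  intro a b c d hab hcd
  obtain ⟨g₁, rfl⟩ := exists_smul_eq Γ ω a
  obtain ⟨g₂, rfl⟩ := exists_smul_eq Γ ω b
  obtain ⟨g₃, rfl⟩ := exists_smul_eq Γ ω c
  obtain ⟨g₄, rfl⟩ := exists_smul_eq Γ ω d
  have hp : (g₁⁻¹ * g₂) • ω ≠ ω := by
    intro h
    rw [mul_smul, inv_smul_eq_iff] at h
    exact hab h.symm
  have hr : (g₃⁻¹ * g₄) • ω ≠ ω := by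
    intro h
    rw [mul_smul, inv_smul_eq_iff] at h
    exact hcd h.symm
  obtain ⟨t, e, ht, he, ht1, ht2⟩ := exists_slp56 x _ _ (hnm _ hp) (hnm _ hr)
  set s : Γ := ⟨t, hA.sl t ht⟩ with hs
  have hsω : s • ω = ω := hsub s ⟨1, by rw [one_smul]; exact ht1⟩
  have hsp : (s * (g₁⁻¹ * g₂)) • ω = (g₃⁻¹ * g₄) • ω := key _ _ ⟨e, ht2⟩
  refine ⟨g₃ * s * g₁⁻¹, ?_, ?_⟩
  · rw [smul_smul, mul_assoc, inv_mul_cancel, mul_one, mul_smul, hsω]
  · rw [smul_smul]
    have h1 : g₃ * s * g₁⁻¹ * g₂ = g₃ * (s * (g₁⁻¹ * g₂)) := by group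
    rw [h1, mul_smul, hsp, smul_smul, mul_inv_cancel_left]

end SpreadPerm.LG
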