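import Pool.Agent.Lib.MP_e6ed9e_al.LG.Basic47
import Pool.Agent.Lib.MP_e6ed9e_al.LG.Defs3

/-!
# Row SP
-/

namespace SpreadPerm.LG

open Module MulAction

variable {F V : Type} [Field F] [AddCommGroup V] [Module F V]

/-- `σ ∘ φ ∘ l⁻¹` -/
def tw (l : Equiv.Perm V) (σ : F ≃+* F) (h0 : ∀ v w, l (v + w) = l v + l w)
    (h : ∀ (a : F) (v : V), l (a • v) = σ a • l v) (φ : V →ₗ[F] F) : V →ₗ[F] F where
  toFun v := σ (φ (l.symm v))
  map_add' v w := by
    have : l.symm (v + w) = l.symm v + l.symm w := by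
      rw [Equiv.symm_apply_eq, h0, Equiv.apply_symm_apply, Equiv.apply_symm_apply]
    rw [this, map_add, map_add]
  map_smul' a v := by
    have : l.symm (a • v) = σ.symm a • l.symm v := by
      rw [Equiv.symm_apply_eq, h, Equiv.apply_symm_apply, RingEquiv.apply_symm_apply]
    rw [this, map_smul, smul_eq_mul, map_mul, RingEquiv.apply_symm_apply]
    rfl

theorem tw_apply (l : Equiv.Perm V) (σ : F ≃+* F) (h0 : ∀ v w, l (v + w) = l v + l w)
    (h : ∀ (a : F) (v : V), l (a • v) = σ a • l v) (φ : V →ₗ[F] F) (v : V) :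
    tw l σ h0 h φ (l v) = σ (φ v) := by
  show σ (φ (l.symm (l v))) = _
  rw [Equiv.symm_apply_apply]

/-- Conjugation of a linear map by a semilinear map. -/
def cjg (l : Equiv.Perm V) (σ : F ≃+* F) (h0 : ∀ v w, l (v + w) = l v + l w)
    (h : ∀ (a : F) (v : V), l (a • v) = σ a • l v) (g : V ≃ₗ[F] V) : V ≃ₗ[F] V where
  toFun v := l (g (l.symm v))
  invFun v := l (g.symm (l.symm v))
  left_inv v := by simp
  right_inv v := by simp
  map_add' v w := by
    have : l.symm (v + w) = l.symm v + l.symm w := by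
      rw [Equiv.symm_apply_eq, h0, Equiv.apply_symm_apply, Equiv.apply_symm_apply]
    rw [this, map_add, h0]
  map_smul' a v := by
    have : l.symm (a • v) = σ.symm a • l.symm v := by
      rw [Equiv.symm_apply_eq, h, Equiv.apply_symm_apply, RingEquiv.apply_symm_apply]
    rw [this, map_smul, h, RingEquiv.apply_symm_apply]
    rfl

theorem cjg_apply (l : Equiv.Perm V) (σ : F ≃+* F) (h0 : ∀ v w, l (v + w) = l v + l w)
    (h : ∀ (a : F) (v : V), l (a • v) = σ a • l v) (g : V ≃ₗ[F] V) (v : V) :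
    cjg l σ h0 h g (l v) = l (g v) := by
  show l (g (l.symm (l v))) = _
  rw [Equiv.symm_apply_apply]

theorem cjg_mem {L : Subgroup (Equiv.Perm V)} {l : Equiv.Perm V} (hl : l ∈ L) (σ : F ≃+* F)
    (h0 : ∀ v w, l (v + w) = l v + l w) (h : ∀ (a : F) (v : V), l (a • v) = σ a • l v)
    {g : V ≃ₗ[F] V} (hg : g ∈ lin F L) : cjg l σ h0 h g ∈ lin F L := by
  show toA F V (cjg l σ h0 h g) ∈ L
  have : toA F V (cjg l σ h0 h g) = l * toA F V g * l⁻¹ := by
    ext v
    rfl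
  rw [this]
  exact L.mul_mem (L.mul_mem hl hg) (L.inv_mem hl)

theorem sp47 : StSP := by
  intro F V _ _ _ _ _ L hL l hl
  obtain ⟨h0, σ, hσ⟩ := hL hl
  refine ⟨σ, hσ, fun x φ hφ => ⟨tw l σ h0 hσ φ, ?_, tw_apply l σ h0 hσ φ⟩⟩
  obtain ⟨g, hg, hgφ⟩ := hφ
  refine ⟨cjg l σ h0 hσ g, cjg_mem hl σ h0 hσ hg, fun v => ?_⟩
  obtain ⟨w, rfl⟩ := l.surjective v
  rw [cjg_apply, tw_apply, hgφ, h0, hσ]

end SpreadPerm.LG
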