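import Pool.Agent.Lib.MP_e6ed9e_al.LG.TB25
import Pool.Agent.Lib.MP_e6ed9e_al.LG.Defs3

/-!
# Row TBS: the image of a point stabilizer in a Borel subgroup, dimension three, semilinear groups
-/

namespace SpreadPerm.LG

open Module MulAction

noncomputable section

namespace TBS25

open TA25 TB25

theorem data {F V : Type} [Field F] [Finite F] [AddCommGroup V] [Module F V] [Finite V]
    (H : Subgroup (V ≃ₗ[F] V)) (hq : 100 ≤ Nat.card F) (hdim : finrank F V = 3) (hS : Scal H)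
    (x : V) (hx : x ≠ 0)
    (hcard : Nat.card F ^ 3 * (Nat.card F - 1) ^ 2 < Nat.card (Ix H x) ^ 2)
    (hB : ∃ v : V ⧸ (F ∙ x), v ≠ 0 ∧ (∀ B ∈ Ix H x, ∃ a : F, B v = a • v) ∧
      ∃ B ∈ Ix H x, (∃ w, ∀ a : F, B w ≠ a • w) ∧
        ∀ w, (∃ a : F, B w = a • w) → ∃ b : F, w = b • v) :
    ∃ b : Basis (Fin 3) F V,
      (∀ h ∈ H, (∃ a : F, h (b 0) = a • b 0) → ∃ a1 a2 a3 m n r, Tri b h a1 a2 a3 m n r) ∧
      (∃ g ∈ H, ∃ α β γ : F, Tri b g 1 1 1 α β γ ∧ β ≠ 0) ∧
      (∃ h ∈ H, ∃ a1 a2 a3 m n r, Tri b h a1 a2 a3 m n r ∧ a2 ^ 2 ≠ a3 ^ 2 ∧ a2 ^ 3 ≠ a3 ^ 3) := by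
  obtain ⟨v, hv, hfixv, B, hBI, -, hBv⟩ := hB
  have hQ : finrank F (V ⧸ (F ∙ x)) = 2 := by
    have h1 := Submodule.finrank_quotient_add_finrank (F ∙ x)
    rw [finrank_span_singleton hx, hdim] at h1
    omega
  obtain ⟨e2, rfl⟩ := Submodule.Quotient.mk_surjective _ v
  -- a vector outside the line
  obtain ⟨w, hw⟩ : ∃ w : V ⧸ (F ∙ x), w ∉ (F ∙ (Submodule.Quotient.mk e2 : V ⧸ (F ∙ x))) := by
    by_contra hcon
    push Not at hcon
    have h1 : (F ∙ (Submodule.Quotient.mk e2 : V ⧸ (F ∙ x))) = ⊤ :=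
      eq_top_iff.mpr fun w _ => hcon w
    have h2 := finrank_span_singleton (K := F) hv
    rw [h1, finrank_top, hQ] at h2
    omega
  obtain ⟨e3, rfl⟩ := Submodule.Quotient.mk_surjective _ w
  have hli : LinearIndependent F ![x, e2, e3] := by
    rw [Fintype.linearIndependent_iff]
    intro c hc
    simp only [Fin.sum_univ_three, Matrix.cons_val_zero, Matrix.cons_val_one, Matrix.cons_val] at hc
    have h1 := congrArg (fun v => (Submodule.Quotient.mk v : V ⧸ (F ∙ x))) hc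
    simp only [Submodule.Quotient.mk_add, Submodule.Quotient.mk_smul, Submodule.Quotient.mk_zero]
      at h1
    have hx0 : (Submodule.Quotient.mk x : V ⧸ (F ∙ x)) = 0 := by
      rw [Submodule.Quotient.mk_eq_zero]
      exact Submodule.mem_span_singleton_self x
    rw [hx0, smul_zero, zero_add] at h1
    have hc2 : c 2 = 0 := by
      by_contra h2
      apply hw
      rw [Submodule.mem_span_singleton]
      refine ⟨-(c 2)⁻¹ * c 1, ?_⟩
      have h3 : (c 2)⁻¹ • (c 1 • (Submodule.Quotient.mk e2 : V ⧸ (F ∙ x)) +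
          c 2 • Submodule.Quotient.mk e3) = 0 := by rw [h1, smul_zero]
      rw [smul_add, smul_smul, smul_smul, inv_mul_cancel₀ h2, one_smul] at h3
      rw [neg_mul, neg_smul]
      exact (eq_neg_of_add_eq_zero_right h3).symm
    rw [hc2, zero_smul, add_zero] at h1
    have hc1 : c 1 = 0 := (smul_eq_zero.mp h1).resolve_right hv
    rw [hc1, hc2, zero_smul, zero_smul, add_zero, add_zero] at hc
    have hc0 : c 0 = 0 := (smul_eq_zero.mp hc).resolve_right hx
    intro i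
    fin_cases i
    · exact hc0
    · exact hc1
    · exact hc2
  let b : Basis (Fin 3) F V := basisOfLinearIndependentOfCardEqFinrank hli (by simp [hdim])
  have hb : ∀ i, b i = ![x, e2, e3] i := fun i => by
    rw [coe_basisOfLinearIndependentOfCardEqFinrank]
  have hb0 : b 0 = x := hb 0
  have hb1 : b 1 = e2 := hb 1
  have hb2 : b 2 = e3 := hb 2
  have hrep : ∀ v : V, ∃ c0 c1 c2 : F, v = c2 • e3 + c1 • e2 + c0 • x := by
    intro v
    refine ⟨b.repr v 0, b.repr v 1, b.repr v 2, ?_⟩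
    have h1 := b.sum_repr v
    rw [Fin.sum_univ_three, hb0, hb1, hb2] at h1
    refine h1.symm.trans ?_
    abel
  have hx0 : (Submodule.Quotient.mk x : V ⧸ (F ∙ x)) = 0 := by
    rw [Submodule.Quotient.mk_eq_zero]
    exact Submodule.mem_span_singleton_self x
  have hfix : ∀ h ∈ H, (∃ a : F, h (b 0) = a • b 0) →
      ∃ a1 a2 a3 m n r, Tri b h a1 a2 a3 m n r := by
    rintro h hh ⟨a, ha⟩
    rw [hb0] at ha
    obtain ⟨B', hB', hB'v⟩ := exists_image H x hx hh ha
    obtain ⟨a2, ha2⟩ := hfixv B' hB'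
    rw [hB'v, ← Submodule.Quotient.mk_smul, Submodule.Quotient.eq, Submodule.mem_span_singleton]
      at ha2
    obtain ⟨m, hm⟩ := ha2
    obtain ⟨r, n, a3, h3⟩ := hrep (h e3)
    refine ⟨a, a2, a3, m, n, r, ?_, ?_, ?_⟩
    · rw [hb0, ha]
    · rw [hb1, hb0, hm]
      abel
    · rw [hb2, hb1, hb0, h3]
  have hqt : ∀ {h : V ≃ₗ[F] V} {a1 a2 a3 m n r : F}, Tri b h a1 a2 a3 m n r →
      (Submodule.Quotient.mk (h e2) : V ⧸ (F ∙ x)) = a2 • Submodule.Quotient.mk e2 ∧
      (Submodule.Quotient.mk (h e3) : V ⧸ (F ∙ x)) = a3 • Submodule.Quotient.mk e3 +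
        n • Submodule.Quotient.mk e2 := by
    rintro h a1 a2 a3 m n r ⟨-, h2, h3⟩
    rw [hb1, hb0] at h2
    rw [hb2, hb1, hb0] at h3
    refine ⟨?_, ?_⟩
    · rw [h2, Submodule.Quotient.mk_add, Submodule.Quotient.mk_smul, Submodule.Quotient.mk_smul,
        hx0, smul_zero, add_zero]
    · rw [h3, Submodule.Quotient.mk_add, Submodule.Quotient.mk_add, Submodule.Quotient.mk_smul,
        Submodule.Quotient.mk_smul, Submodule.Quotient.mk_smul, hx0, smul_zero, add_zero]
  have hg : ∃ g ∈ H, ∃ α β γ : F, Tri b g 1 1 1 α β γ ∧ β ≠ 0 := by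
    obtain ⟨h, hh, ⟨a, ha⟩, hBh⟩ := hBI
    obtain ⟨a1, a2, a3, m, n, r, ht⟩ := hfix h hh ⟨a, by rw [hb0, ha]⟩
    obtain ⟨n1, n2, n3⟩ := tri_ne b ht
    obtain ⟨q2, q3⟩ := hqt ht
    rw [← hBh] at q2 q3
    have h23 : a2 = a3 := by
      by_contra hne
      have hne' : a3 - a2 ≠ 0 := sub_ne_zero.mpr (Ne.symm hne)
      obtain ⟨c, hc⟩ := hBv (Submodule.Quotient.mk e3 + (n / (a3 - a2)) • Submodule.Quotient.mk e2)
        ⟨a3, by
          rw [map_add, map_smul, q2, q3, smul_add, smul_smul, smul_smul, add_assoc, ← add_smul]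
          congr 2
          field_simp
          ring⟩
      apply hw
      rw [Submodule.mem_span_singleton]
      refine ⟨c - n / (a3 - a2), ?_⟩
      rw [sub_smul, ← hc]
      abel
    have hn : n ≠ 0 := by
      rintro rfl
      rw [zero_smul, add_zero] at q3
      obtain ⟨c, hc⟩ := hBv _ ⟨a3, q3⟩
      apply hw
      rw [Submodule.mem_span_singleton]
      exact ⟨c, hc.symm⟩
    subst h23
    obtain ⟨s, hs, hsv⟩ := hS a2⁻¹ (inv_ne_zero n2)
    have hts : Tri b s a2⁻¹ a2⁻¹ a2⁻¹ 0 0 0 := ⟨by rw [hsv], by rw [hsv]; simp, by rw [hsv]; simp⟩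
    have h1 := tri_mul b hts ht
    rw [inv_mul_cancel₀ n2] at h1
    obtain ⟨m', r', h2⟩ := tri_pow b h1 (Nat.card F - 1)
    have hf : Fintype F := Fintype.ofFinite F
    have hc1 : (a2⁻¹ * a1) ^ (Nat.card F - 1) = 1 := by
      rw [Nat.card_eq_fintype_card]
      exact FiniteField.pow_card_sub_one_eq_one _ (mul_ne_zero (inv_ne_zero n2) n1)
    rw [hc1] at h2
    refine ⟨_, H.pow_mem (H.mul_mem hs hh) _, _, _, _, h2, ?_⟩
    have h3 : ((Nat.card F - 1 : ℕ) : F) = -1 := by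
      rw [Nat.cast_sub (by omega), Nat.card_eq_fintype_card, FiniteField.cast_card_eq_zero]
      simp
    rw [h3, mul_zero, zero_add]
    exact mul_ne_zero (neg_ne_zero.mpr one_ne_zero) (mul_ne_zero hn (inv_ne_zero n2))
  have hc : ∃ h ∈ H, ∃ a1 a2 a3 m n r, Tri b h a1 a2 a3 m n r ∧ a2 ^ 2 ≠ a3 ^ 2 ∧
      a2 ^ 3 ≠ a3 ^ 3 := by
    by_contra hcon
    have key : ∀ B' : Ix H x, ∃ (t : {t : F // t ^ 2 = 1 ∨ t ^ 3 = 1}) (a : Fˣ) (n : F),
        B'.1 (Submodule.Quotient.mk e2) = (t.1 * a) • Submodule.Quotient.mk e2 ∧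
        B'.1 (Submodule.Quotient.mk e3) = (a : F) • Submodule.Quotient.mk e3 +
          n • Submodule.Quotient.mk e2 := by
      rintro ⟨B', h, hh, ⟨a, ha⟩, hBh⟩
      obtain ⟨a1, a2, a3, m, n, r, ht⟩ := hfix h hh ⟨a, by rw [hb0, ha]⟩
      obtain ⟨n1, n2, n3⟩ := tri_ne b ht
      obtain ⟨q2, q3⟩ := hqt ht
      rw [← hBh] at q2 q3
      have h1 : a2 ^ 2 = a3 ^ 2 ∨ a2 ^ 3 = a3 ^ 3 := by
        by_contra h2
        push Not at h2
        exact hcon ⟨h, hh, a1, a2, a3, m, n, r, ht, h2⟩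
      refine ⟨⟨a2 / a3, ?_⟩, Units.mk0 a3 n3, n, ?_, ?_⟩
      · rcases h1 with h1 | h1
        · left
          rw [div_pow, h1, div_self (pow_ne_zero _ n3)]
        · right
          rw [div_pow, h1, div_self (pow_ne_zero _ n3)]
      · rw [q2, Units.val_mk0, div_mul_cancel₀ _ n3]
      · rw [q3, Units.val_mk0]
    choose t a n h2 h3 using key
    have hinj : Function.Injective fun B' : Ix H x => (t B', a B', n B') := by
      intro B1 B2 h12
      simp only [Prod.mk.injEq] at h12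
      obtain ⟨e1, e4, e5⟩ := h12
      apply Subtype.ext
      ext u
      obtain ⟨u, rfl⟩ := Submodule.Quotient.mk_surjective _ u
      obtain ⟨c0, c1, c2, rfl⟩ := hrep u
      rw [Submodule.Quotient.mk_add, Submodule.Quotient.mk_add, Submodule.Quotient.mk_smul,
        Submodule.Quotient.mk_smul, Submodule.Quotient.mk_smul, hx0, smul_zero, add_zero,
        map_add, map_add, map_smul, map_smul, map_smul, map_smul, h2, h2, h3, h3, e1, e4, e5]
    have h4 := Nat.card_le_card_of_injective _ hinj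
    rw [Nat.card_prod, Nat.card_prod, Nat.card_units] at h4
    have h5 : Nat.card (Ix H x) ≤ 5 * ((Nat.card F - 1) * Nat.card F) :=
      h4.trans (Nat.mul_le_mul_right _ card_bad)
    have h6 : Nat.card (Ix H x) ^ 2 ≤ (5 * ((Nat.card F - 1) * Nat.card F)) ^ 2 :=
      Nat.pow_le_pow_left h5 2
    have h7 : (5 * ((Nat.card F - 1) * Nat.card F)) ^ 2 ≤
        Nat.card F ^ 3 * (Nat.card F - 1) ^ 2 := by
      have h8 : (5 * ((Nat.card F - 1) * Nat.card F)) ^ 2 =
          25 * (Nat.card F ^ 2 * (Nat.card F - 1) ^ 2) := by ring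
      have h9 : Nat.card F ^ 3 * (Nat.card F - 1) ^ 2 =
          Nat.card F * (Nat.card F ^ 2 * (Nat.card F - 1) ^ 2) := by ring
      rw [h8, h9]
      exact Nat.mul_le_mul_right _ (by omega)
    omega
  exact ⟨b, hfix, hg, hc⟩

variable {F V : Type} [Field F] [AddCommGroup V] [Module F V]

theorem rel (b : Basis (Fin 3) F V) (H : Subgroup (V ≃ₗ[F] V))
    (hP : ∀ y : V, y ≠ 0 → ∀ φ ∈ P H y, φ = 0)
    (hfix : ∀ h ∈ H, (∃ a : F, h (b 0) = a • b 0) → ∃ a1 a2 a3 m n r, Tri b h a1 a2 a3 m n r)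
    (hg : ∃ g ∈ H, ∃ α β γ : F, Tri b g 1 1 1 α β γ ∧ β ≠ 0) :
    ∀ h ∈ H, ∀ a1 a2 a3 m n r, Tri b h a1 a2 a3 m n r → a1 * a3 = a2 ^ 2 := by
  obtain ⟨g, hgH, α, β, γ, hg, hβ⟩ := hg
  have hα : α ≠ 0 := by
    rintro rfl
    have hy : β • b 1 + γ • b 0 ≠ 0 := by
      intro h0
      have h1 := congrArg (fun v => b.repr v 1) h0
      simp at h1
      exact hβ h1
    have h1 : b.coord 2 = 0 := by
      refine hP _ hy _ ⟨g, hgH, fun v => ?_⟩
      have h2 : (g : V →ₗ[F] V) = LinearMap.id + (b.coord 2).smulRight (β • b 1 + γ • b 0) := by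
        refine b.ext fun i => ?_
        obtain ⟨h1, h2, h3⟩ := hg
        fin_cases i
        · simp [h1]
        · simp [h2]
        · simp [h3, add_assoc]
      have h3 := LinearMap.congr_fun h2 v
      exact h3
    have h2 := LinearMap.congr_fun h1 (b 2)
    simp at h2
  have hrel : ∀ h ∈ H, ∀ a1 a2 a3 m n r, Tri b h a1 a2 a3 m n r → a1 * a3 = a2 ^ 2 := by
    intro h hh a1 a2 a3 m n r ht
    obtain ⟨n1, n2, n3⟩ := tri_ne b ht
    obtain ⟨g', hg'⟩ : ∃ g' : V ≃ₗ[F] V, g' = h * g * h⁻¹ := ⟨_, rfl⟩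
    have hg'H : g' ∈ H := by
      rw [hg']
      exact H.mul_mem (H.mul_mem hh hgH) (H.inv_mem hh)
    have hcomm : g' * h = h * g := by rw [hg']; group
    clear hg'
    obtain ⟨c1, c2, c3, m', n', r', ht'⟩ := hfix g' hg'H (by
      refine ⟨1, ?_⟩
      have h1 : (g' * h) (b 0) = (h * g) (b 0) := by rw [hcomm]
      rw [LinearEquiv.mul_apply, LinearEquiv.mul_apply, ht.1, hg.1, one_smul, ht.1, map_smul] at h1
      rw [one_smul]
      exact smul_right_injective _ n1 h1)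
    have h1 := tri_mul b ht' ht
    have h2 := tri_mul b ht hg
    rw [hcomm] at h1
    obtain ⟨e1, e2, e3, e4, e5, e6⟩ := tri_unique b h1 h2
    have hc1 : c1 = 1 := by
      have := mul_right_cancel₀ n1 (e1.trans (by ring : a1 * 1 = 1 * a1))
      exact this
    have hc2 : c2 = 1 := mul_right_cancel₀ n2 (e2.trans (by ring : a2 * 1 = 1 * a2))
    have hc3 : c3 = 1 := mul_right_cancel₀ n3 (e3.trans (by ring : a3 * 1 = 1 * a3))
    subst hc1 hc2 hc3
    have f4 : a2 * m' = α * a1 := by linear_combination e4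
    have f5 : a3 * n' = β * a2 := by linear_combination e5
    have t1 := tri_mul b hg ht'
    have t2 := tri_mul b ht' hg
    have e : g * g' = g' * g := by
      refine uni b H hP (H.mul_mem hgH hg'H) (H.mul_mem hg'H hgH)
        (m := 1 * α + m' * 1) (n := 1 * β + n' * 1) (r := 1 * γ + n' * α + r' * 1)
        (m' := 1 * m' + α * 1) (r' := 1 * r' + β * m' + γ * 1) ?_ ?_
      · simpa using t1
      · have h3 : (1 * β + n' * 1 : F) = 1 * n' + β * 1 := by ring
        rw [h3]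
        simpa using t2
    rw [e] at t1
    obtain ⟨-, -, -, -, -, e7⟩ := tri_unique b t1 t2
    have e8 : n' * α = β * m' := by linear_combination e7
    have e9 : α * β * (a1 * a3 - a2 ^ 2) = 0 := by
      linear_combination (-a2 * a3) * e8 + (a2 * α) * f5 - (a3 * β) * f4
    have e10 := mul_ne_zero hα hβ
    rcases mul_eq_zero.mp e9 with h3 | h3
    · exact absurd h3 e10
    · exact sub_eq_zero.mp h3
  exact hrel

/-- The eigenvalues of a triangular map. -/
theorem eig (b : Basis (Fin 3) F V) {h : V ≃ₗ[F] V} {a1 a2 a3 m n r : F}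
    (hh : Tri b h a1 a2 a3 m n r) {v : V} (hv : v ≠ 0) {c : F} (hc : h v = c • v) :
    c = a1 ∨ c = a2 ∨ c = a3 := by
  obtain ⟨h1, h2, h3⟩ := hh
  obtain ⟨v0, v1, v2, rfl⟩ : ∃ v0 v1 v2 : F, v = v0 • b 0 + v1 • b 1 + v2 • b 2 :=
    ⟨b.repr v 0, b.repr v 1, b.repr v 2, by rw [← Fin.sum_univ_three (fun i => b.repr v i • b i), b.sum_repr]⟩
  rw [map_add, map_add, map_smul, map_smul, map_smul, h1, h2, h3] at hc
  have e0 := congrArg (fun v => b.repr v 0) hc
  have e1 := congrArg (fun v => b.repr v 1) hc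
  have e2 := congrArg (fun v => b.repr v 2) hc
  simp at e0 e1 e2
  by_cases h2 : v2 = 0
  · subst h2
    by_cases h1 : v1 = 0
    · subst h1
      have h0 : v0 ≠ 0 := by
        rintro rfl
        simp at hv
      left
      simp at e0
      exact mul_left_cancel₀ h0 (by linear_combination -e0)
    · right
      left
      simp at e1
      exact mul_left_cancel₀ h1 (by linear_combination -e1)
  · right
    right
    exact mul_left_cancel₀ h2 (by linear_combination -e2)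

theorem coreS (b : Basis (Fin 3) F V) (L : Subgroup (Equiv.Perm V)) (hL : L ≤ GamL F V)
    (hT : PtTransA F L)
    (hP : ∀ y : V, y ≠ 0 → ∀ φ ∈ P (lin F L) y, φ = 0)
    (hfix : ∀ h ∈ lin F L, (∃ a : F, h (b 0) = a • b 0) →
      ∃ a1 a2 a3 m n r, Tri b h a1 a2 a3 m n r)
    (hg : ∃ g ∈ lin F L, ∃ α β γ : F, Tri b g 1 1 1 α β γ ∧ β ≠ 0)
    (hc : ∃ h ∈ lin F L, ∃ a1 a2 a3 m n r, Tri b h a1 a2 a3 m n r ∧ a2 ^ 2 ≠ a3 ^ 2 ∧
      a2 ^ 3 ≠ a3 ^ 3) : False := by
  have hrel := rel b (lin F L) hP hfix hg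
  obtain ⟨h, hh, a1, a2, a3, m, n, r, ht, hne2, hne3⟩ := hc
  obtain ⟨n1, n2, n3⟩ := tri_ne b ht
  have hr := hrel h hh _ _ _ _ _ _ ht
  have h12 : a2 - a1 ≠ 0 := by
    intro h0
    have h1 : a1 = a2 := (sub_eq_zero.mp h0).symm
    rw [h1] at hr
    have h2 : a3 = a2 := mul_left_cancel₀ n2 (by rw [hr]; ring)
    exact hne2 (by rw [h2])
  have h32 : a3 - a2 ≠ 0 := by
    intro h0
    exact hne2 (by rw [sub_eq_zero.mp h0])
  have h31 : a3 - a1 ≠ 0 := by
    intro h0
    have h1 : a3 = a1 := sub_eq_zero.mp h0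
    rw [← h1] at hr
    exact hne2 (by rw [← hr]; ring)
  -- the eigenvector `y`
  obtain ⟨y, hy⟩ : ∃ y : V, y = b 1 + (m / (a2 - a1)) • b 0 := ⟨_, rfl⟩
  have hy0 : y ≠ 0 := by
    intro h0
    have h1 := congrArg (fun v => b.repr v 1) h0
    simp [hy] at h1
  have hyh : h y = a2 • y := by
    rw [hy, map_add, map_smul, ht.1, ht.2.1, smul_add, smul_smul, smul_smul]
    have h1 : m + m / (a2 - a1) * a1 = a2 * (m / (a2 - a1)) := by
      field_simp
      ring
    rw [add_assoc, ← add_smul, h1]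
  -- the eigenvector `z`
  obtain ⟨z, hz⟩ : ∃ z : V, z = b 2 + (n / (a3 - a2)) • b 1 +
      ((r + n / (a3 - a2) * m) / (a3 - a1)) • b 0 := ⟨_, rfl⟩
  have hz0 : z ≠ 0 := by
    intro h0
    have h1 := congrArg (fun v => b.repr v 2) h0
    simp [hz] at h1
  have hzh : h z = a3 • z := by
    rw [hz, map_add, map_add, map_smul, map_smul, ht.1, ht.2.1, ht.2.2]
    have h1 : n + n / (a3 - a2) * a2 = a3 * (n / (a3 - a2)) := by
      field_simp
      ring
    have h2 : r + n / (a3 - a2) * m + (r + n / (a3 - a2) * m) / (a3 - a1) * a1 =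
        a3 * ((r + n / (a3 - a2) * m) / (a3 - a1)) := by
      field_simp
      ring
    have h3 : a3 • b 2 + n • b 1 + r • b 0 + (n / (a3 - a2)) • (a2 • b 1 + m • b 0) +
        ((r + n / (a3 - a2) * m) / (a3 - a1)) • a1 • b 0 = a3 • b 2 +
        (n + n / (a3 - a2) * a2) • b 1 +
        (r + n / (a3 - a2) * m + (r + n / (a3 - a2) * m) / (a3 - a1) * a1) • b 0 := by
      module
    rw [h3, h1, h2]
    module
  obtain ⟨l, hl, a, hla⟩ := hT (b 0) y (b.ne_zero 0) hy0
  obtain ⟨hadd, σ, hσ⟩ := hL hl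
  have hadd' : ∀ v w, l.symm (v + w) = l.symm v + l.symm w := by
    intro v w
    rw [Equiv.symm_apply_eq, hadd, Equiv.apply_symm_apply, Equiv.apply_symm_apply]
  have hσ' : ∀ (a : F) (v : V), l.symm (a • v) = σ.symm a • l.symm v := by
    intro a v
    rw [Equiv.symm_apply_eq, hσ, Equiv.apply_symm_apply, RingEquiv.apply_symm_apply]
  let h' : V ≃ₗ[F] V :=
    { toFun := fun v => l.symm (h (l v))
      map_add' := fun v w => by
        show l.symm (h (l (v + w))) = _
        rw [hadd, map_add, hadd']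
      map_smul' := fun c v => by
        show l.symm (h (l (c • v))) = _
        rw [hσ, map_smul, hσ', RingEquiv.symm_apply_apply]
        rfl
      invFun := fun v => l.symm (h.symm (l v))
      left_inv := fun v => by
        show l.symm (h.symm (l (l.symm (h (l v))))) = v
        rw [Equiv.apply_symm_apply, LinearEquiv.symm_apply_apply, Equiv.symm_apply_apply]
      right_inv := fun v => by
        show l.symm (h (l (l.symm (h.symm (l v))))) = v
        rw [Equiv.apply_symm_apply, LinearEquiv.apply_symm_apply, Equiv.symm_apply_apply] }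
  have hh'v : ∀ v, h' v = l.symm (h (l v)) := fun v => rfl
  have hh'H : h' ∈ lin F L := by
    show toA F V h' ∈ L
    have h1 : toA F V h' = l⁻¹ * toA F V h * l := by
      ext v
      rfl
    rw [h1]
    exact L.mul_mem (L.mul_mem (L.inv_mem hl) hh) hl
  have heig : ∀ (v : V) (c : F), h v = c • v → h' (l.symm v) = σ.symm c • l.symm v := by
    intro v c hv
    rw [hh'v, Equiv.apply_symm_apply, hv, hσ']
  have hinj0 : ∀ v, v ≠ 0 → l.symm v ≠ 0 := by
    intro v hv h0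
    apply hv
    have h1 : v = l 0 := by rw [← h0, Equiv.apply_symm_apply]
    rw [h1]
    exact GamL_zero (hL hl)
  have hh'x : h' (b 0) = σ.symm a2 • b 0 := by
    rw [hh'v, hla, map_smul, hyh, smul_comm, ← hla, hσ', Equiv.symm_apply_apply]
  obtain ⟨c1, c2, c3, m', n', r', ht'⟩ := hfix h' hh'H ⟨_, hh'x⟩
  have hc1 : c1 = σ.symm a2 := by
    have h1 := ht'.1
    rw [hh'x] at h1
    exact smul_left_injective F (b.ne_zero 0) h1.symm
  have hr' := hrel h' hh'H _ _ _ _ _ _ ht'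
  have e1 := eig b ht' (hinj0 _ (b.ne_zero 0)) (heig _ _ ht.1)
  have e3 := eig b ht' (hinj0 _ hz0) (heig _ _ hzh)
  have s12 : σ.symm a1 ≠ σ.symm a2 := fun h0 => h12 (by rw [σ.symm.injective h0, sub_self])
  have s32 : σ.symm a3 ≠ σ.symm a2 := fun h0 => h32 (by rw [σ.symm.injective h0, sub_self])
  have s31 : σ.symm a3 ≠ σ.symm a1 := fun h0 => h31 (by rw [σ.symm.injective h0, sub_self])
  rw [hc1] at e1 e3 hr'
  have e1' := e1.resolve_left s12
  have e3' := e3.resolve_left s32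
  have hcase : (σ.symm a1 = c2 ∧ σ.symm a3 = c3) ∨ (σ.symm a1 = c3 ∧ σ.symm a3 = c2) := by
    rcases e1' with e1' | e1' <;> rcases e3' with e3' | e3'
    · exact absurd (e3'.trans e1'.symm) s31
    · exact Or.inl ⟨e1', e3'⟩
    · exact Or.inr ⟨e1', e3'⟩
    · exact absurd (e3'.trans e1'.symm) s31
  rcases hcase with ⟨q1, q2⟩ | ⟨q1, q2⟩
  · rw [← q1, ← q2, ← map_mul, ← map_pow] at hr'
    have hr2 := σ.symm.injective hr'
    apply hne3
    have q3 : a2 * (a2 ^ 3 - a3 ^ 3) = 0 := by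
      linear_combination (-(a1 * a3 + a2 ^ 2)) * hr - a3 ^ 2 * hr2
    rcases mul_eq_zero.mp q3 with h2 | h2
    · exact absurd h2 n2
    · exact sub_eq_zero.mp h2
  · rw [← q1, ← q2, ← map_mul, ← map_pow] at hr'
    have hr2 := σ.symm.injective hr'
    apply hne3
    have q3 : a2 ^ 3 - a3 ^ 3 = 0 := by
      linear_combination (-a2) * hr + a3 * hr2
    exact sub_eq_zero.mp q3

end TBS25

open TBS25 in
/-- Row TBS. -/
theorem tbs25 : StTBS := by
  intro F V _ _ _ _ _ L hq hdim hL hS hT x hx hcard hB hP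
  obtain ⟨b, hfix, hg, hc⟩ := data (lin F L) hq hdim hS x hx hcard hB
  exact coreS b L hL hT hP hfix hg hc

end

end SpreadPerm.LG
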