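import Pool.Agent.Lib.MP_e6ed9e_al.LG.Two47
import Pool.Agent.Lib.MP_e6ed9e_al.LG.Defs3

/-!
# Row TwoS
-/

namespace SpreadPerm.LG

open Module MulAction

/-- Step 1 -/
theorem twoS_step (syl : StSyl) (ax : StAxS) (rx : StRxS) (gle : StGle)
    {F V : Type} [Field F] [Finite F] [AddCommGroup V] [Module F V] [Finite V]
    {H : Subgroup (V ≃ₗ[F] V)} (hn : 3 ≤ finrank F V) (htr : EqD F H) (htwo : TwoAx H)
    {μ : V →ₗ[F] F} (hμ : μ ≠ 0) {x : V} (hx : x ≠ 0) {a : F} (ha : a ≠ 0) (h : a • μ ∈ E H x)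
    (w : V) (hw : μ w = 0) : μ ∈ P H w := by
  refine gle F V H μ hn hμ ?_ ?_ w hw
  · intro w hw hw0
    obtain ⟨b, hb, h1⟩ := ax F V H hn htr htwo x w hx hw (a • μ) h
      (by rw [LinearMap.smul_apply, hw0, smul_zero])
    exact ⟨b * a, mul_ne_zero hb ha, by rw [mul_smul]; exact h1⟩
  · intro w w' hw hw' h1 h1'
    by_cases hp : ∃ c : F, w' = c • w
    · obtain ⟨c, rfl⟩ := hp
      have hc : c ≠ 0 := by
        rintro rfl
        exact hw' (zero_smul F w)
      refine ⟨1, H.one_mem, ⟨c⁻¹, inv_ne_zero hc, ?_⟩, 1, fun v => by rw [one_mul]; rfl⟩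
      rw [smul_smul, inv_mul_cancel₀ hc, one_smul]
      rfl
    · have e1 : ∃ φ ∈ E H w, φ w' ≠ 0 := by
        by_contra hcon
        push Not at hcon
        obtain ⟨c, hc⟩ := rx F V H hn htr htwo w w' hw hcon
        exact hp ⟨c, hc⟩
      have e2 : ∃ ψ ∈ E H w', ψ w ≠ 0 := by
        by_contra hcon
        push Not at hcon
        obtain ⟨c, hc⟩ := rx F V H hn htr htwo w' w hw' hcon
        have hc0 : c ≠ 0 := by
          rintro rfl
          rw [zero_smul] at hc
          exact hw hc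
        exact hp ⟨c⁻¹, by rw [hc, smul_smul, inv_mul_cancel₀ hc0, one_smul]⟩
      obtain ⟨φ, hφ, hφ1⟩ := e1
      obtain ⟨ψ, hψ, hψ1⟩ := e2
      obtain ⟨h, hh, b, hb, hb1⟩ := syl F V (Hmu H μ) w w' φ (Hmu_E h1 hφ) ψ (Hmu_E h1' hψ) hφ1 hψ1
      obtain ⟨hh1, e, _, he⟩ := hh
      exact ⟨h, hh1, ⟨b, hb, hb1⟩, e, he⟩

theorem twoS47 (syl : StSyl) (ax : StAxS) (rx : StRxS) (gle : StGle) : StTwoS := by
  intro F V _ _ _ _ _ H hn htr htwo x φ hφ
  by_cases hx : x = 0
  · refine ⟨1, H.one_mem, fun v => ?_⟩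
    rw [hx, smul_zero, add_zero]
    rfl
  let S : Submodule F (Module.Dual F V) :=
    { carrier := E H x
      zero_mem' := E_zero
      add_mem' := E_add
      smul_mem' := by
        intro b ψ hψ
        by_cases hb : b = 0
        · rw [hb, zero_smul]
          exact E_zero
        by_cases h0 : ψ = 0
        · rw [h0, smul_zero]
          exact E_zero
        have hne : b • ψ ≠ 0 := smul_ne_zero hb h0
        have hbx : (b • ψ) x = 0 := by rw [LinearMap.smul_apply, hψ.2, smul_zero]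
        refine ⟨twoS_step syl ax rx gle hn htr htwo hne hx (inv_ne_zero hb) ?_ x hbx, hbx⟩
        rw [smul_smul, inv_mul_cancel₀ hb, one_smul]
        exact hψ }
  have hS : S.dualCoannihilator.dualAnnihilator = S := Subspace.dualCoannihilator_dualAnnihilator_eq
  have h1 : φ ∈ S := by
    rw [← hS, Submodule.mem_dualAnnihilator]
    intro w hw
    rw [Submodule.mem_dualCoannihilator] at hw
    obtain ⟨a, rfl⟩ := rx F V H hn htr htwo x w hx hw
    rw [map_smul, hφ, smul_zero]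
  exact h1.1

end SpreadPerm.LG
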