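import Pool.Agent.Lib.MP_e6ed9e_al.LG.Basic47
import Pool.Agent.Lib.MP_e6ed9e_al.LG.Syl88
import Pool.Agent.Lib.MP_e6ed9e_al.LG.Pol81
import Pool.Agent.Lib.MP_e6ed9e_al.LG.HomS47
import Pool.Agent.Lib.MP_e6ed9e_al.LG.AxS81
import Pool.Agent.Lib.MP_e6ed9e_al.LG.GLE79
import Pool.Agent.Lib.MP_e6ed9e_al.LG.TwoS47
import Pool.Agent.Lib.MP_e6ed9e_al.LG.NulS54
import Pool.Agent.Lib.MP_e6ed9e_al.LG.Loc12_51
import Pool.Agent.Lib.MP_e6ed9e_al.LG.Loc3_51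
import Pool.Agent.Lib.MP_e6ed9e_al.LG.Orb47
import Pool.Agent.Lib.MP_e6ed9e_al.LG.BA79
import Pool.Agent.Lib.MP_e6ed9e_al.LG.BB75
import Pool.Agent.Lib.MP_e6ed9e_al.LG.Non79
import Pool.Agent.Lib.MP_e6ed9e_al.LG.CI18
import Pool.Agent.Lib.MP_e6ed9e_al.LG.CII87
import Pool.Agent.Lib.MP_e6ed9e_al.LG.CIII18
import Pool.Agent.Lib.MP_e6ed9e_al.LG.Case47
import Pool.Agent.Lib.MP_e6ed9e_al.LG.D2_88
import Pool.Agent.Lib.MP_e6ed9e_al.LG.T0S84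
import Pool.Agent.Lib.MP_e6ed9e_al.LG.TA25
import Pool.Agent.Lib.MP_e6ed9e_al.LG.TBS25
import Pool.Agent.Lib.MP_e6ed9e_al.LG.ThreeS84
import Pool.Agent.Lib.MP_e6ed9e_al.LG.IndS73
import Pool.Agent.Lib.MP_e6ed9e_al.LG.LinI73
import Pool.Agent.Lib.MP_e6ed9e_al.LG.Four73
import Pool.Agent.Lib.MP_e6ed9e_al.LG.NulMDS35
import Pool.Agent.Lib.MP_e6ed9e_al.LG.SP47
import Pool.Agent.Lib.MP_e6ed9e_al.LG.Uniq18
import Pool.Agent.Lib.MP_e6ed9e_al.LG.TTS2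

/-!
# The group theoretic theorem for semilinear groups
-/

namespace SpreadPerm.LG.SAll

theorem ba : StBA := ba79 Loc12.loc1_51 (Loc3.loc3_51 Loc12.lag51)

theorem bb : StBB := bb75 Loc12.loc2_51 orb47

theorem case1 : StCase1 :=
  case47 (ci18 syl88 ba bb) (cII87 syl88 gle79 (non79 ba) ba) (ciii18 syl88 ba bb (non79 ba))

theorem two : StTwoS := twoS47 syl88 axS81 rxS81 gle79

theorem three : StThreeS := ThreeS84.threeS84 d288 (T0S84.t0S84 orb47) ta25 tbs25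

/-- **The group theoretic theorem.** -/
theorem tts : StTTS :=
  ttS2 case1 orb47 (homS47 pol81) three (indS73 orb47) linI73 four73 two
    (nulMDS35 nulS54 sp47 Loc12.loc2_51 orb47) sp47 (uniq18 orb47)

end SpreadPerm.LG.SAll
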