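import Pool.Agent.Lib.MP_e6ed9e_al.LG.Defs3

set_option autoImplicit false

/-! Row SP: semilinear maps of `L` transport perspectivities. -/

namespace SpreadPerm.LG

open Module

theorem sp81 : StSP := by
  intro F V _ _ _ _ _ L hL l hl
  obtain ⟨hadd, σ, hσ⟩ := hL hl
  refine ⟨σ, hσ, fun x φ hφ => ?_⟩
  obtain ⟨g, hg, hgv⟩ := hφ
  have hadd' : ∀ v w : V, l.symm (v + w) = l.symm v + l.symm w := fun v w => by
    rw [Equiv.symm_apply_eq, hadd, Equiv.apply_symm_apply, Equiv.apply_symm_apply]
  have hσ' : ∀ (a : F) (v : V), l.symm (a • v) = σ.symm a • l.symm v := fun a v => by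
    rw [Equiv.symm_apply_eq, hσ, Equiv.apply_symm_apply, RingEquiv.apply_symm_apply]
  let ψ : V →ₗ[F] F :=
    { toFun := fun v => σ (φ (l.symm v))
      map_add' := fun v w => by rw [hadd', map_add, map_add]
      map_smul' := fun a v => by
        rw [hσ', map_smul, smul_eq_mul, map_mul, RingEquiv.apply_symm_apply]
        rfl }
  let k : V ≃ₗ[F] V :=
    { toFun := fun v => l (g (l.symm v))
      invFun := fun v => l (g.symm (l.symm v))
      map_add' := fun v w => by rw [hadd', map_add, hadd]
      map_smul' := fun a v => by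
        rw [hσ', map_smul, hσ, RingEquiv.apply_symm_apply]
        rfl
      left_inv := fun v => by
        show l (g.symm (l.symm (l (g (l.symm v))))) = v
        rw [Equiv.symm_apply_apply, LinearEquiv.symm_apply_apply, Equiv.apply_symm_apply]
      right_inv := fun v => by
        show l (g (l.symm (l (g.symm (l.symm v))))) = v
        rw [Equiv.symm_apply_apply, LinearEquiv.apply_symm_apply, Equiv.apply_symm_apply] }
  refine ⟨ψ, ⟨k, ?_, fun v => ?_⟩, fun v => ?_⟩
  · show toA F V k ∈ L
    have h1 : toA F V k = l * toA F V g * l⁻¹ := by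
      ext v
      rfl
    rw [h1]
    exact L.mul_mem (L.mul_mem hl hg) (L.inv_mem hl)
  · show l (g (l.symm v)) = v + σ (φ (l.symm v)) • l x
    rw [hgv, hadd, hσ, Equiv.apply_symm_apply]
  · show σ (φ (l.symm (l v))) = σ (φ v)
    rw [Equiv.symm_apply_apply]

end SpreadPerm.LG
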