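import Pool.Agent.Lib.MP_e6ed9e_al.LG.Defs3
import Pool.Agent.Lib.MP_e6ed9e_al.LG.T0_84

/-!
# Row T0S: the image of the point stabilizer has more than `q^{3/2} (q-1)` elements
-/

namespace SpreadPerm.LG.T0S84

open Module MulAction
open SpreadPerm.LG.T0_84

noncomputable section

section
variable {F V : Type} [Field F] [AddCommGroup V] [Module F V]

/-- A linear permutation. -/
def mkLin (g : Equiv.Perm V) (h1 : ∀ v w : V, g (v + w) = g v + g w)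
    (h2 : ∀ (a : F) (v : V), g (a • v) = a • g v) : V ≃ₗ[F] V :=
  { g with
    map_add' := h1
    map_smul' := h2 }

theorem mkLin_apply (g : Equiv.Perm V) (h1 : ∀ v w : V, g (v + w) = g v + g w)
    (h2 : ∀ (a : F) (v : V), g (a • v) = a • g v) (v : V) : mkLin g h1 h2 v = g v := rfl

theorem toA_mkLin (g : Equiv.Perm V) (h1 : ∀ v w : V, g (v + w) = g v + g w)
    (h2 : ∀ (a : F) (v : V), g (a • v) = a • g v) : toA F V (mkLin g h1 h2) = g := by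
  ext v
  rfl

/-- The stabilizer of the point `⟨x⟩` and of the hyperplane `μ = 0`. -/
def KA (x : V) (hx : x ≠ 0) (μ : V →ₗ[F] F) (hμ : μ ≠ 0) : Subgroup (Equiv.Perm V) where
  carrier := {g | (∀ v w : V, g (v + w) = g v + g w) ∧ (∃ a : F, g x = a • x) ∧
    ∃ (σ : F ≃+* F) (b : F), (∀ (a : F) (v : V), g (a • v) = σ a • g v) ∧
      ∀ v, μ (g v) = b * σ (μ v)}
  one_mem' := ⟨fun _ _ => rfl, ⟨1, by simp⟩, RingEquiv.refl F, 1, fun _ _ => rfl, fun v => by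
    show μ v = 1 * μ v
    rw [one_mul]⟩
  mul_mem' := by
    rintro g g' ⟨h1, ⟨a, ha⟩, σ, b, hσ, hb⟩ ⟨h1', ⟨a', ha'⟩, σ', b', hσ', hb'⟩
    refine ⟨fun v w => ?_, ⟨σ a' * a, ?_⟩, σ'.trans σ, b * σ b', fun a v => ?_, fun v => ?_⟩
    · show g (g' (v + w)) = g (g' v) + g (g' w)
      rw [h1', h1]
    · show g (g' x) = _
      rw [ha', hσ, ha, smul_smul]
    · show g (g' (a • v)) = σ (σ' a) • g (g' v)
      rw [hσ', hσ]
    · show μ (g (g' v)) = b * σ b' * σ (σ' (μ v))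
      rw [hb, hb', map_mul, mul_assoc]
  inv_mem' := by
    rintro g ⟨h1, ⟨a, ha⟩, σ, b, hσ, hb⟩
    have h0 : g 0 = 0 := by
      have := h1 0 0
      rw [add_zero] at this
      exact left_eq_add.1 this
    have ha0 : a ≠ 0 := by
      rintro rfl
      rw [zero_smul] at ha
      exact hx (g.injective (ha.trans h0.symm))
    have hb0 : b ≠ 0 := by
      rintro rfl
      apply hμ
      ext v
      have := hb (g.symm v)
      rw [Equiv.apply_symm_apply, zero_mul] at this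
      simpa using this
    refine ⟨fun v w => ?_, ⟨σ.symm a⁻¹, ?_⟩, σ.symm, σ.symm b⁻¹, fun a v => ?_, fun v => ?_⟩
    · show g.symm (v + w) = g.symm v + g.symm w
      rw [Equiv.symm_apply_eq, h1, Equiv.apply_symm_apply, Equiv.apply_symm_apply]
    · show g.symm x = _
      rw [Equiv.symm_apply_eq, hσ, RingEquiv.apply_symm_apply, ha, smul_smul,
        inv_mul_cancel₀ ha0, one_smul]
    · show g.symm (a • v) = σ.symm a • g.symm v
      rw [Equiv.symm_apply_eq, hσ, Equiv.apply_symm_apply, RingEquiv.apply_symm_apply]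
    · show μ (g.symm v) = σ.symm b⁻¹ * σ.symm (μ v)
      have := hb (g.symm v)
      rw [Equiv.apply_symm_apply] at this
      rw [← map_mul, this, ← mul_assoc, inv_mul_cancel₀ hb0, one_mul, RingEquiv.symm_apply_apply]

theorem KA_le (x : V) (hx : x ≠ 0) (μ : V →ₗ[F] F) (hμ : μ ≠ 0) : KA x hx μ hμ ≤ GamL F V := by
  rintro g ⟨h1, -, σ, b, hσ, -⟩
  exact ⟨h1, σ, hσ⟩

theorem KK_le (x : V) (hx : x ≠ 0) (μ : V →ₗ[F] F) (hμ : μ ≠ 0) :
    KK x hx μ hμ ≤ lin F (KA x hx μ hμ) := by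
  rintro g ⟨⟨a, ha⟩, b, hb⟩
  exact ⟨fun v w => map_add g v w, ⟨a, ha⟩, RingEquiv.refl F, b, fun a v => map_smul g a v, hb⟩

/-- A field automorphism on the coordinates. -/
def phi (e : V ≃ₗ[F] (F × (Fin 2 → F))) (σ : F ≃+* F) : Equiv.Perm V where
  toFun v := e.symm (σ (e v).1, fun i => σ ((e v).2 i))
  invFun v := e.symm (σ.symm (e v).1, fun i => σ.symm ((e v).2 i))
  left_inv v := by simp
  right_inv v := by simp

theorem e_phi (e : V ≃ₗ[F] (F × (Fin 2 → F))) (σ : F ≃+* F) (v : V) :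
    e (phi e σ v) = (σ (e v).1, fun i => σ ((e v).2 i)) :=
  LinearEquiv.apply_symm_apply e _

theorem phi_add (e : V ≃ₗ[F] (F × (Fin 2 → F))) (σ : F ≃+* F) (v w : V) :
    phi e σ (v + w) = phi e σ v + phi e σ w := by
  apply e.injective
  rw [e_phi, LinearEquiv.map_add e v w, LinearEquiv.map_add e (phi e σ v), e_phi, e_phi]
  ext i
  · simp
  · simp

theorem phi_smul (e : V ≃ₗ[F] (F × (Fin 2 → F))) (σ : F ≃+* F) (a : F) (v : V) :
    phi e σ (a • v) = σ a • phi e σ v := by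
  apply e.injective
  rw [e_phi, LinearEquiv.map_smul e a v, LinearEquiv.map_smul e (σ a), e_phi]
  ext i
  · simp
  · simp

theorem phi_mem (x : V) (hx : x ≠ 0) (μ : V →ₗ[F] F) (hμ : μ ≠ 0)
    (e : V ≃ₗ[F] (F × (Fin 2 → F))) (he : e x = (1, 0)) (hm : ∀ v, μ v = (e v).1)
    (σ : F ≃+* F) : phi e σ ∈ KA x hx μ hμ := by
  refine ⟨phi_add e σ, ⟨1, ?_⟩, σ, 1, phi_smul e σ, fun v => ?_⟩
  · apply e.injective
    rw [one_smul, e_phi, he]
    ext i
    · simp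
    · simp
  · rw [hm, e_phi, hm, one_mul]

/-- `SL K = ΓL`. -/
theorem sl_KA (x : V) (hx : x ≠ 0) (μ : V →ₗ[F] F) (hμ : μ ≠ 0)
    (e : V ≃ₗ[F] (F × (Fin 2 → F))) (he : e x = (1, 0)) (hm : ∀ v, μ v = (e v).1)
    (g : Equiv.Perm V) (hg : g ∈ GamL F V) :
    ∃ s : V ≃ₗ[F] V, LinearEquiv.det s = 1 ∧ ∃ k ∈ KA x hx μ hμ, g = toA F V s * k := by
  obtain ⟨h1, σ, hσ⟩ := hg
  have hp := phi_mem x hx μ hμ e he hm σ
  obtain ⟨i1, -, τ, b, hτ, -⟩ := (KA x hx μ hμ).inv_mem hp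
  have hτσ : ∀ a : F, σ (τ a) = a := by
    intro a
    have h2 : (phi e σ) ((phi e σ)⁻¹ (a • x)) = a • x := Equiv.apply_symm_apply _ _
    have h3 : (phi e σ) ((phi e σ)⁻¹ x) = x := Equiv.apply_symm_apply _ _
    rw [hτ, phi_smul, h3] at h2
    by_contra hne
    have h4 : (σ (τ a) - a) • x = 0 := by rw [sub_smul, h2, sub_self]
    rcases smul_eq_zero.1 h4 with h | h
    · exact hne (sub_eq_zero.1 h)
    · exact hx h
  have l1 : ∀ v w : V, (g * (phi e σ)⁻¹) (v + w) = (g * (phi e σ)⁻¹) v + (g * (phi e σ)⁻¹) w := by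
    intro v w
    show g ((phi e σ)⁻¹ (v + w)) = g ((phi e σ)⁻¹ v) + g ((phi e σ)⁻¹ w)
    rw [i1, h1]
  have l2 : ∀ (a : F) (v : V), (g * (phi e σ)⁻¹) (a • v) = a • (g * (phi e σ)⁻¹) v := by
    intro a v
    show g ((phi e σ)⁻¹ (a • v)) = a • g ((phi e σ)⁻¹ v)
    rw [hτ, hσ, hτσ]
  obtain ⟨s, hs, k, hk, hsk⟩ := sl_KK x hx μ hμ e he hm (mkLin _ l1 l2)
  refine ⟨s, hs, toA F V k * phi e σ, (KA x hx μ hμ).mul_mem (KK_le x hx μ hμ hk) hp, ?_⟩
  rw [← mul_assoc, ← map_mul, ← hsk, toA_mkLin, inv_mul_cancel_right]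

/-- The case `L K = ΓL`. -/
theorem caseA [Finite F] [Finite V] (L : Subgroup (Equiv.Perm V)) (hL : L ≤ GamL F V)
    (hs : Scal (lin F L)) (x : V) (hx : x ≠ 0)
    (μ : V →ₗ[F] F) (hμ : μ ≠ 0)
    (e : V ≃ₗ[F] (F × (Fin 2 → F))) (he : e x = (1, 0)) (hm : ∀ v, μ v = (e v).1)
    (hHK : ∀ g ∈ GamL F V, ∃ h ∈ L, ∃ k ∈ KA x hx μ hμ, g = h * k) :
    (Nat.card F - 1) * Nat.card F ^ 2 ≤ Nat.card (F ≃+* F) *
      Nat.card {h : V ≃ₗ[F] V // h ∈ lin F L ∧ ∃ a : F, h x = a • x} := by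
  classical
  refine (card_fun x e he).trans ?_
  have : FiniteDimensional F V := Module.Finite.of_finite (R := F) (M := V)
  have : Finite (V ≃ₗ[F] V) :=
    Finite.of_injective (fun e : V ≃ₗ[F] V => (e : _ → _)) DFunLike.coe_injective
  have : Finite (F ≃+* F) :=
    Finite.of_injective (fun e : F ≃+* F => (e : _ → _)) DFunLike.coe_injective
  have hμx : μ x = 1 := by rw [hm, he]
  -- elements of `L` for all functionals
  have key : ∀ ν : {ν : V →ₗ[F] F // ν x ≠ 0}, ∃ (l : Equiv.Perm V) (σ : F ≃+* F), l ∈ L ∧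
      (∃ a : F, l x = a • x) ∧ (∀ (a : F) (v : V), l (a • v) = σ a • l v) ∧
      ∀ v, μ (l v) = σ (ν.1 v) := by
    rintro ⟨ν, hν⟩
    let g0 : V →ₗ[F] V := LinearMap.id + (ν - μ).smulRight x
    have hg0 : ∀ v, g0 v = v + (ν v - μ v) • x := fun v => rfl
    have hinj : Function.Injective g0 := by
      rw [← LinearMap.ker_eq_bot, LinearMap.ker_eq_bot']
      intro v hv
      rw [hg0] at hv
      have h1 := congrArg μ hv
      rw [map_add, map_smul, hμx, smul_eq_mul, mul_one, map_zero] at h1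
      have h2 : ν v = 0 := by rw [← h1]; ring
      rw [h2, zero_sub, neg_smul, ← sub_eq_add_neg, sub_eq_zero] at hv
      have h3 := congrArg ν hv
      rw [map_smul, h2, smul_eq_mul] at h3
      have h4 : μ v = 0 := by
        rcases mul_eq_zero.1 h3.symm with h | h
        · exact h
        · exact absurd h hν
      rw [hv, h4, zero_smul]
    let g : V ≃ₗ[F] V := LinearEquiv.ofInjectiveEndo g0 hinj
    have hg : ∀ v, g v = v + (ν v - μ v) • x := fun v => rfl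
    have hgG : (toA F V g)⁻¹ ∈ GamL F V :=
      (GamL F V).inv_mem ⟨fun v w => map_add g v w, RingEquiv.refl F, fun a v => map_smul g a v⟩
    obtain ⟨h, hh, k, ⟨k1, ⟨a, ha⟩, σ, b, hσ, hb⟩, hhk⟩ := hHK _ hgG
    have hi : h⁻¹ = k * toA F V g := by
      have h1 : toA F V g = k⁻¹ * h⁻¹ := by rw [← mul_inv_rev, ← hhk, inv_inv]
      rw [h1, mul_inv_cancel_left]
    have hb0 : b ≠ 0 := by
      rintro rfl
      apply hμ
      ext v
      have := hb (k.symm v)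
      rw [Equiv.apply_symm_apply, zero_mul] at this
      simpa using this
    obtain ⟨s, hsH, hsa⟩ := hs b⁻¹ (inv_ne_zero hb0)
    have hν' : ∀ v, μ (g v) = ν v := by
      intro v
      rw [hg, map_add, map_smul, hμx, smul_eq_mul, mul_one]
      ring
    have hap : ∀ v, (toA F V s * h⁻¹) v = b⁻¹ • k (g v) := by
      intro v
      rw [hi]
      exact hsa _
    refine ⟨toA F V s * h⁻¹, σ, L.mul_mem hsH (L.inv_mem hh), ?_, ?_, ?_⟩
    · refine ⟨b⁻¹ * (σ (ν x) * a), ?_⟩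
      have h2 : g x = ν x • x := by
        rw [hg, hμx, sub_smul, one_smul]
        abel
      rw [hap, h2, hσ, ha, smul_smul, smul_smul, mul_assoc]
    · intro a v
      rw [hap, hap, map_smul, hσ, smul_smul, smul_smul, mul_comm]
    · intro v
      rw [hap, map_smul, hb, hν', smul_eq_mul, ← mul_assoc, inv_mul_cancel₀ hb0, one_mul]
  choose l σ hlL hlx hlσ hlμ using key
  -- representatives
  have rep : ∀ τ : F ≃+* F, ∃ r : Equiv.Perm V, (∃ ν, σ ν = τ) → r ∈ L ∧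
      (∃ a : F, r x = a • x) ∧ ∀ (a : F) (v : V), r (a • v) = τ a • r v := by
    intro τ
    by_cases h : ∃ ν, σ ν = τ
    · obtain ⟨ν, rfl⟩ := h
      exact ⟨l ν, fun _ => ⟨hlL ν, hlx ν, hlσ ν⟩⟩
    · exact ⟨1, fun h' => absurd h' h⟩
  choose r hr using rep
  have hlin : ∀ ν, ∃ h : V ≃ₗ[F] V, (h ∈ lin F L ∧ ∃ a : F, h x = a • x) ∧
      toA F V h = l ν * (r (σ ν))⁻¹ := by
    intro ν
    obtain ⟨hrL, ⟨a, ha⟩, hrσ⟩ := hr (σ ν) ⟨ν, rfl⟩
    obtain ⟨a', ha'⟩ := hlx ν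
    have hmem : l ν * (r (σ ν))⁻¹ ∈ L := L.mul_mem (hlL ν) (L.inv_mem hrL)
    have hinv : ∀ (c : F) (v : V), (r (σ ν))⁻¹ (c • v) = (σ ν).symm c • (r (σ ν))⁻¹ v := by
      intro c v
      show (r (σ ν)).symm (c • v) = (σ ν).symm c • (r (σ ν)).symm v
      rw [Equiv.symm_apply_eq, hrσ, Equiv.apply_symm_apply, RingEquiv.apply_symm_apply]
    have h0 : r (σ ν) 0 = 0 := GamL_zero (hL hrL)
    have ha0 : a ≠ 0 := by
      rintro rfl
      rw [zero_smul] at ha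
      exact hx ((r (σ ν)).injective (ha.trans h0.symm))
    have hrx : (r (σ ν))⁻¹ x = (σ ν).symm a⁻¹ • x := by
      show (r (σ ν)).symm x = _
      rw [Equiv.symm_apply_eq, hrσ, RingEquiv.apply_symm_apply, ha, smul_smul,
        inv_mul_cancel₀ ha0, one_smul]
    have c1 := (hL hmem).1
    have c2 : ∀ (c : F) (v : V), (l ν * (r (σ ν))⁻¹) (c • v) = c • (l ν * (r (σ ν))⁻¹) v := by
      intro c v
      show l ν ((r (σ ν))⁻¹ (c • v)) = c • l ν ((r (σ ν))⁻¹ v)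
      rw [hinv, hlσ, RingEquiv.apply_symm_apply]
    refine ⟨mkLin _ c1 c2, ⟨?_, ?_⟩, toA_mkLin _ c1 c2⟩
    · show toA F V (mkLin _ c1 c2) ∈ L
      rw [toA_mkLin]
      exact hmem
    · refine ⟨a⁻¹ * a', ?_⟩
      show l ν ((r (σ ν))⁻¹ x) = _
      rw [hrx, hlσ, RingEquiv.apply_symm_apply, ha', smul_smul]
  choose h hh hhl using hlin
  rw [← Nat.card_prod]
  apply Nat.card_le_card_of_injective (fun ν => (σ ν, (⟨h ν, hh ν⟩ :
    {h : V ≃ₗ[F] V // h ∈ lin F L ∧ ∃ a : F, h x = a • x})))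
  intro ν ν' hνν
  have e1 : σ ν = σ ν' := congrArg Prod.fst hνν
  have e2 : h ν = h ν' := congrArg Subtype.val (congrArg Prod.snd hνν)
  have e3 : l ν = l ν' := by
    have h3 := hhl ν
    rw [e2, hhl ν', e1] at h3
    exact (mul_right_cancel h3).symm
  apply Subtype.ext
  apply LinearMap.ext
  intro v
  apply (σ ν).injective
  rw [← hlμ ν v, e3, hlμ ν' v, e1]

theorem arith1 {q c h N k : ℕ} (hc : 1 ≤ c) (hq : 100 * c ^ 2 ≤ q)
    (h1 : (q - 1) * ((q ^ 2 - 1) * (q ^ 2 - q)) ≤ k) (h2 : k ≤ c * h)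
    (h3 : (q - 1) * h ≤ (q ^ 3 - 1) * N) : q ^ 3 * (q - 1) ^ 2 < N ^ 2 := by
  have hq0 : 100 ≤ q := by nlinarith [Nat.pow_le_pow_left hc 2]
  obtain ⟨r, rfl⟩ : ∃ r, q = r + 1 := ⟨q - 1, by omega⟩
  have e1 : r + 1 - 1 = r := rfl
  have e2 : (r + 1) ^ 2 - 1 = r * (r + 2) := by
    have : (r + 1) ^ 2 = r * (r + 2) + 1 := by ring
    omega
  have e3 : (r + 1) ^ 2 - (r + 1) = r * (r + 1) := by
    have : (r + 1) ^ 2 = r * (r + 1) + (r + 1) := by ring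
    omega
  have e4 : (r + 1) ^ 3 - 1 = r * (r ^ 2 + 3 * r + 3) := by
    have : (r + 1) ^ 3 = r * (r ^ 2 + 3 * r + 3) + 1 := by ring
    omega
  rw [e1, e2, e3] at h1
  rw [e1, e4] at h3
  rw [e1]
  have hr : 99 ≤ r := by nlinarith
  have h4 : h ≤ (r ^ 2 + 3 * r + 3) * N := by
    have : r * h ≤ r * ((r ^ 2 + 3 * r + 3) * N) := by
      rw [← mul_assoc]
      exact h3
    exact Nat.le_of_mul_le_mul_left this (by omega)
  have h5 : r * (r * (r + 2) * (r * (r + 1))) ≤ c * ((r ^ 2 + 3 * r + 3) * N) :=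
    (h1.trans h2).trans (Nat.mul_le_mul_left c h4)
  by_contra hN
  rw [not_lt] at hN
  have h6 : (r * (r * (r + 2) * (r * (r + 1)))) ^ 2 ≤ (c * ((r ^ 2 + 3 * r + 3) * N)) ^ 2 :=
    Nat.pow_le_pow_left h5 2
  have h7 : 100 * (c * ((r ^ 2 + 3 * r + 3) * N)) ^ 2 ≤
      (r + 1) * (r ^ 2 + 3 * r + 3) ^ 2 * ((r + 1) ^ 3 * r ^ 2) := by
    calc 100 * (c * ((r ^ 2 + 3 * r + 3) * N)) ^ 2
        = (100 * c ^ 2) * (r ^ 2 + 3 * r + 3) ^ 2 * N ^ 2 := by ring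
      _ ≤ (r + 1) * (r ^ 2 + 3 * r + 3) ^ 2 * ((r + 1) ^ 3 * r ^ 2) :=
        Nat.mul_le_mul (Nat.mul_le_mul_right _ hq) hN
  have h8 : 100 * (r * (r * (r + 2) * (r * (r + 1)))) ^ 2 ≤
      (r + 1) * (r ^ 2 + 3 * r + 3) ^ 2 * ((r + 1) ^ 3 * r ^ 2) :=
    (Nat.mul_le_mul_left 100 h6).trans h7
  have h9 : (r ^ 2 * (r + 1) ^ 2) * (10 * r ^ 2 * (r + 2)) ^ 2 ≤
      (r ^ 2 * (r + 1) ^ 2) * ((r ^ 2 + 3 * r + 3) * (r + 1)) ^ 2 := by
    calc (r ^ 2 * (r + 1) ^ 2) * (10 * r ^ 2 * (r + 2)) ^ 2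
        = 100 * (r * (r * (r + 2) * (r * (r + 1)))) ^ 2 := by ring
      _ ≤ _ := h8
      _ = _ := by ring
  have hpos : 0 < r ^ 2 * (r + 1) ^ 2 := by positivity
  have h10 := Nat.le_of_mul_le_mul_left h9 hpos
  have h11 : 10 * r ^ 2 * (r + 2) ≤ (r ^ 2 + 3 * r + 3) * (r + 1) :=
    (Nat.pow_le_pow_iff_left (by norm_num)).1 h10
  nlinarith [h11, hr, Nat.mul_le_mul hr hr, mul_pos (show 0 < r by omega) (show 0 < r by omega)]

theorem arith2 {q c N : ℕ} (hc : 1 ≤ c) (hq : 100 * c ^ 2 ≤ q)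
    (h : (q - 1) * q ^ 2 ≤ c * N) : q ^ 3 * (q - 1) ^ 2 < N ^ 2 := by
  have hq0 : 100 ≤ q := by nlinarith [Nat.pow_le_pow_left hc 2]
  obtain ⟨r, rfl⟩ : ∃ r, q = r + 1 := ⟨q - 1, by omega⟩
  have e1 : r + 1 - 1 = r := rfl
  rw [e1] at h ⊢
  by_contra hN
  rw [not_lt] at hN
  have h1 : (r * (r + 1) ^ 2) ^ 2 ≤ (c * N) ^ 2 := Nat.pow_le_pow_left h 2
  have h2 : 100 * (r * (r + 1) ^ 2) ^ 2 ≤ (r * (r + 1) ^ 2) ^ 2 := by
    calc 100 * (r * (r + 1) ^ 2) ^ 2 ≤ 100 * (c * N) ^ 2 := Nat.mul_le_mul_left _ h1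
      _ = 100 * c ^ 2 * N ^ 2 := by ring
      _ ≤ (r + 1) * ((r + 1) ^ 3 * r ^ 2) := Nat.mul_le_mul hq hN
      _ = (r * (r + 1) ^ 2) ^ 2 := by ring
  have h3 : 0 < (r * (r + 1) ^ 2) ^ 2 := by
    have : 0 < r := by omega
    positivity
  omega

end

theorem t0S84 (hOrb : StOrb) : StT0S := by
  intro F V _ _ _ _ _ L c hc hq hA h3 hL hs hMD hP x hx
  obtain ⟨e, he⟩ := exists_coord (F := F) h3 hx
  let μ : V →ₗ[F] F := LinearMap.fst F F (Fin 2 → F) ∘ₗ (e : V →ₗ[F] (F × (Fin 2 → F)))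
  have hm : ∀ v, μ v = (e v).1 := fun v => rfl
  have hμx : μ x = 1 := by rw [hm, he]
  have hμ : μ ≠ 0 := by
    intro h
    rw [h] at hμx
    exact zero_ne_one hμx
  have : Finite (V ≃ₗ[F] V) :=
    Finite.of_injective (fun e : V ≃ₗ[F] V => (e : _ → _)) DFunLike.coe_injective
  have hS := card_S_le (lin F L) hx (hP x hx)
  by_cases hHK : ∀ g ∈ GamL F V, ∃ h ∈ L, ∃ k ∈ KA x hx μ hμ, g = h * k
  · have h1 := caseA L hL hs x hx μ hμ e he hm hHK
    exact arith2 hc hq (h1.trans (Nat.mul_le_mul hA hS))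
  · have h2 := hMD (KA x hx μ hμ) (KA_le x hx μ hμ) (sl_KA x hx μ hμ e he hm) hHK
    have h4 := (hOrb F V (lin F L) x hx).1
    rw [h3] at h4
    have h6 : Nat.card (KK x hx μ hμ) ≤ Nat.card (lin F (KA x hx μ hμ)) :=
      Nat.card_le_card_of_injective _ (Subgroup.inclusion_injective (KK_le x hx μ hμ))
    have h5 := arith1 hc hq ((card_KK x hx μ hμ e he hm).trans h6) h2 h4
    exact h5.trans_le (Nat.pow_le_pow_left hS 2)

end

end SpreadPerm.LG.T0S84
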